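import Pool.Agent.OB.Tr

/-!
# The action of the trace polynomials on the forms, into the top degree  (module Act)

`Lam f l`, `Rho f l` (`f ∈ F{x, t}`): `f` acts on `l` from the left and from the right. On words the
definition is by recursion, with the laws of alternative bimodules (`Lam_mul`, `Rho_mul`; these hold for
all `f, g` by bilinearity). `Act_hon`: honest words (only letters `inl`): by `beta_mul` and
alternativity in `R` (`(u v) l = u (v l) + u (l v) - (u l) v`). `Act_aux`: induction on `w` (all `m`, `l`):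
`w = inl y`: `hT`; `w = inr y`: `T_comm`; `w = u v`: the recursion and alternativity in `Fn F`; `t_x` commutes
and associates with everything. `Act_t`: induction on `w`: if `inr x` is in `u`, `w = u v`, then
`evt u = t_x * (1/2 sb (up x 1) (evt u))` (`evt_inr`), and `v` does not contain `x`.
-/

set_option autoImplicit false
set_option linter.unusedSectionVars false

namespace Pool.Agent.OB

open FreeNonUnitalNonAssocAlgebra Pool.Agent.H.MP_41922c_al Pool.Agent.Smt

variable {F : Type*} [Field F] {R : Type*} [NonUnitalNonAssocRing R] [Module F R]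
  [IsScalarTower F R R] [SMulCommClass F R R]

/-- the left and the right action of a word -/
noncomputable def LRw (π : FA F →ₙₐ[F] R) (V : Multiset ℕ) (β : Multiset ℕ → Fn F →ₗ[F] R)
    (T : ℕ → Fn F →ₗ[F] R) : FreeMagma (ℕ ⊕ ℕ) → (Fn F →ₗ[F] R) × (Fn F →ₗ[F] R)
  | .of (.inl x) => (LinearMap.mulLeft F (π (of F x)) ∘ₗ β (V.erase x),
      LinearMap.mulRight F (π (of F x)) ∘ₗ β (V.erase x))
  | .of (.inr x) => (T x, T x)
  | .mul u v =>
      ((LRw π V β T u).1 ∘ₗ muL (evt F (mo F v)) + (LRw π V β T u).1 ∘ₗ muR (evt F (mo F v))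
        - (LRw π V β T v).2 ∘ₗ muL (evt F (mo F u)),
      (LRw π V β T v).2 ∘ₗ muR (evt F (mo F u)) + (LRw π V β T v).2 ∘ₗ muL (evt F (mo F u))
        - (LRw π V β T u).1 ∘ₗ muR (evt F (mo F v)))

/-- the left action -/
noncomputable def Lam (π : FA F →ₙₐ[F] R) (V : Multiset ℕ) (β : Multiset ℕ → Fn F →ₗ[F] R)
    (T : ℕ → Fn F →ₗ[F] R) : FB F →ₗ[F] (Fn F →ₗ[F] R) := linMo F (fun w => (LRw π V β T w).1)

/-- the right action -/
noncomputable def Rho (π : FA F →ₙₐ[F] R) (V : Multiset ℕ) (β : Multiset ℕ → Fn F →ₗ[F] R)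
    (T : ℕ → Fn F →ₗ[F] R) : FB F →ₗ[F] (Fn F →ₗ[F] R) := linMo F (fun w => (LRw π V β T w).2)

/-- the inclusion `F{x} ⊂ F{x, t}` -/
noncomputable def emb (F : Type*) [Field F] : FA F →ₙₐ[F] FB F := lift F (fun i => of F (Sum.inl i))

/-- the letter `a` occurs in the word -/
def InW {α : Type*} (a : α) : FreeMagma α → Prop
  | .of b => b = a
  | .mul u v => InW a u ∨ InW a v

variable {π : FA F →ₙₐ[F] R} {V : Multiset ℕ} {β : Multiset ℕ → Fn F →ₗ[F] R}
  {T : ℕ → Fn F →ₗ[F] R}

/-- the actions on words -/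
theorem Act_Lam_mo (w : FreeMagma (ℕ ⊕ ℕ)) : Lam π V β T (mo F w) = (LRw π V β T w).1 :=
  linMo_mo _ w

theorem Act_Rho_mo (w : FreeMagma (ℕ ⊕ ℕ)) : Rho π V β T (mo F w) = (LRw π V β T w).2 :=
  linMo_mo _ w

theorem Lam_inl (x : ℕ) (l : Fn F) :
    Lam π V β T (of F (Sum.inl x)) l = π (of F x) * β (V.erase x) l := by
  have h : Lam π V β T (of F (Sum.inl x)) = (LRw π V β T (FreeMagma.of (Sum.inl x))).1 :=
    Act_Lam_mo (FreeMagma.of (Sum.inl x))
  rw [h]
  rfl

theorem Lam_inr (x : ℕ) (l : Fn F) : Lam π V β T (of F (Sum.inr x)) l = T x l := by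
  have h : Lam π V β T (of F (Sum.inr x)) = (LRw π V β T (FreeMagma.of (Sum.inr x))).1 :=
    Act_Lam_mo (FreeMagma.of (Sum.inr x))
  rw [h]
  rfl

theorem Rho_inl (x : ℕ) (l : Fn F) :
    Rho π V β T (of F (Sum.inl x)) l = β (V.erase x) l * π (of F x) := by
  have h : Rho π V β T (of F (Sum.inl x)) = (LRw π V β T (FreeMagma.of (Sum.inl x))).2 :=
    Act_Rho_mo (FreeMagma.of (Sum.inl x))
  rw [h]
  rfl

theorem Rho_inr (x : ℕ) (l : Fn F) : Rho π V β T (of F (Sum.inr x)) l = T x l := by
  have h : Rho π V β T (of F (Sum.inr x)) = (LRw π V β T (FreeMagma.of (Sum.inr x))).2 :=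
    Act_Rho_mo (FreeMagma.of (Sum.inr x))
  rw [h]
  rfl

/-- bilinear identities hold if they hold for words -/
theorem Act_bil {M : Type*} [AddCommGroup M] [Module F M] (A B : FB F → FB F → M)
    (A1 : ∀ f f' g, A (f + f') g = A f g + A f' g) (A2 : ∀ (k : F) f g, A (k • f) g = k • A f g)
    (A3 : ∀ f g g', A f (g + g') = A f g + A f g') (A4 : ∀ (k : F) f g, A f (k • g) = k • A f g)
    (B1 : ∀ f f' g, B (f + f') g = B f g + B f' g) (B2 : ∀ (k : F) f g, B (k • f) g = k • B f g)
    (B3 : ∀ f g g', B f (g + g') = B f g + B f g') (B4 : ∀ (k : F) f g, B f (k • g) = k • B f g)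
    (h : ∀ u v, A (mo F u) (mo F v) = B (mo F u) (mo F v)) (f g : FB F) : A f g = B f g := by
  have z1 : ∀ g, A 0 g = 0 := fun g => by
    have := A2 0 0 g
    rwa [zero_smul, zero_smul] at this
  have z2 : ∀ g, B 0 g = 0 := fun g => by
    have := B2 0 0 g
    rwa [zero_smul, zero_smul] at this
  have z3 : ∀ f, A f 0 = 0 := fun f => by
    have := A4 0 f 0
    rwa [zero_smul, zero_smul] at this
  have z4 : ∀ f, B f 0 = 0 := fun f => by
    have := B4 0 f 0
    rwa [zero_smul, zero_smul] at this
  refine Words_ind (p := fun f => A f g = B f g) ?_ ?_ ?_ ?_ f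
  · show A 0 g = B 0 g
    rw [z1, z2]
  · intro f f' hf hf'
    show A (f + f') g = B (f + f') g
    rw [A1, B1, hf, hf']
  · intro k f hf
    show A (k • f) g = B (k • f) g
    rw [A2, B2, hf]
  · intro u
    show A (mo F u) g = B (mo F u) g
    refine Words_ind (p := fun g => A (mo F u) g = B (mo F u) g) ?_ ?_ ?_ ?_ g
    · show A (mo F u) 0 = B (mo F u) 0
      rw [z3, z4]
    · intro g g' hg hg'
      show A (mo F u) (g + g') = B (mo F u) (g + g')
      rw [A3, B3, hg, hg']
    · intro k g hg
      show A (mo F u) (k • g) = B (mo F u) (k • g)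
      rw [A4, B4, hg]
    · intro v
      exact h u v

theorem Lam_mul (f g : FB F) (l : Fn F) : Lam π V β T (f * g) l =
    Lam π V β T f (evt F g * l) + Lam π V β T f (l * evt F g) - Rho π V β T g (evt F f * l) := by
  refine Act_bil (fun f g => Lam π V β T (f * g) l)
    (fun f g => Lam π V β T f (evt F g * l) + Lam π V β T f (l * evt F g)
      - Rho π V β T g (evt F f * l)) ?_ ?_ ?_ ?_ ?_ ?_ ?_ ?_ ?_ f g
  · intro f f' g
    simp only [add_mul, map_add, LinearMap.add_apply]
  · intro k f g
    simp only [smul_mul_assoc, map_smul, LinearMap.smul_apply]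
  · intro f g g'
    simp only [mul_add, map_add, LinearMap.add_apply]
  · intro k f g
    simp only [mul_smul_comm, map_smul, LinearMap.smul_apply]
  · intro f f' g
    simp only [add_mul, map_add, LinearMap.add_apply]
    abel
  · intro k f g
    simp only [smul_mul_assoc, map_smul, LinearMap.smul_apply, smul_add, smul_sub]
  · intro f g g'
    simp only [mul_add, add_mul, map_add, LinearMap.add_apply]
    abel
  · intro k f g
    simp only [mul_smul_comm, smul_mul_assoc, map_smul, LinearMap.smul_apply, smul_add, smul_sub]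
  · intro u v
    show Lam π V β T (mo F (u * v)) l = _
    rw [Act_Lam_mo, Act_Lam_mo, Act_Rho_mo]
    rfl

theorem Rho_mul (f g : FB F) (l : Fn F) : Rho π V β T (f * g) l =
    Rho π V β T g (l * evt F f) + Rho π V β T g (evt F f * l) - Lam π V β T f (l * evt F g) := by
  refine Act_bil (fun f g => Rho π V β T (f * g) l)
    (fun f g => Rho π V β T g (l * evt F f) + Rho π V β T g (evt F f * l)
      - Lam π V β T f (l * evt F g)) ?_ ?_ ?_ ?_ ?_ ?_ ?_ ?_ ?_ f g
  · intro f f' g
    simp only [add_mul, map_add, LinearMap.add_apply]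
  · intro k f g
    simp only [smul_mul_assoc, map_smul, LinearMap.smul_apply]
  · intro f g g'
    simp only [mul_add, map_add, LinearMap.add_apply]
  · intro k f g
    simp only [mul_smul_comm, map_smul, LinearMap.smul_apply]
  · intro f f' g
    simp only [mul_add, add_mul, map_add, LinearMap.add_apply]
    abel
  · intro k f g
    simp only [mul_smul_comm, smul_mul_assoc, map_smul, LinearMap.smul_apply, smul_add, smul_sub]
  · intro f g g'
    simp only [mul_add, map_add, LinearMap.add_apply]
    abel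
  · intro k f g
    simp only [mul_smul_comm, map_smul, LinearMap.smul_apply, smul_add, smul_sub]
  · intro u v
    show Rho π V β T (mo F (u * v)) l = _
    rw [Act_Rho_mo, Act_Rho_mo, Act_Lam_mo]
    rfl

theorem Act_emb_of (i : ℕ) : emb F (of F i) = of F (Sum.inl i) := lift_of_apply _ _ _

theorem evt_emb (p : FA F) : evt F (emb F p) = ev F p := by
  have h : (evt F).comp (emb F) = ev F := by
    refine hom_ext F ?_
    intro i
    show evt F (emb F (of F i)) = ev F (of F i)
    rw [Act_emb_of, ev_of]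
    exact Real_evt_inl i
  exact DFunLike.congr_fun h p

theorem Act_emb_mo (u : FreeMagma ℕ) : emb F (mo F u) = mo F (FreeMagma.map Sum.inl u) := by
  induction u with
  | ih1 a => exact Act_emb_of a
  | ih2 u v hu hv =>
    have h : emb F (mo F (u * v)) = emb F (mo F u) * emb F (mo F v) :=
      map_mul (emb F) (mo F u) (mo F v)
    rw [h, hu, hv]
    rfl

theorem Act_lets_map (u : FreeMagma ℕ) : lets ix (FreeMagma.map Sum.inl u) = lets id u := by
  induction u with
  | ih1 a => rfl
  | ih2 u v hu hv =>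
    have h : lets ix (FreeMagma.map Sum.inl (u * v)) =
        lets ix (FreeMagma.map Sum.inl u) + lets ix (FreeMagma.map Sum.inl v) := rfl
    rw [h, hu, hv]
    rfl

theorem emb_mem {m : Multiset ℕ} {p : FA F} (hp : p ∈ P F m) : emb F p ∈ PP F ix m := by
  refine Words_PP_ind id (p := fun p => emb F p ∈ PP F ix m) ?_ ?_ ?_ ?_ hp
  · rw [map_zero]
    exact zero_mem _
  · intro f g hf hg
    rw [map_add]
    exact add_mem hf hg
  · intro k f hf
    rw [map_smul]
    exact Submodule.smul_mem _ k hf
  · intro w hw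
    rw [Act_emb_mo, ← hw, ← Act_lets_map]
    exact mo_mem ix _

theorem emb_mo (u : FreeMagma ℕ) : emb F (mo F u) = mo F (FreeMagma.map Sum.inl u) :=
  Act_emb_mo u

/-- a word either contains a trace letter or is honest -/
theorem word_cases (w : FreeMagma (ℕ ⊕ ℕ)) : (∃ x, InW (Sum.inr x) w) ∨
    ∃ u : FreeMagma ℕ, mo F w = emb F (mo F u) ∧ lets id u = lets ix w := by
  induction w with
  | ih1 a =>
    cases a with
    | inl y => exact Or.inr ⟨FreeMagma.of y, (Act_emb_of y).symm, rfl⟩
    | inr y => exact Or.inl ⟨y, rfl⟩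
  | ih2 u v hu hv =>
    rcases hu with ⟨x, hx⟩ | ⟨a, ha, ha'⟩
    · exact Or.inl ⟨x, Or.inl hx⟩
    · rcases hv with ⟨x, hx⟩ | ⟨b, hb, hb'⟩
      · exact Or.inl ⟨x, Or.inr hx⟩
      · refine Or.inr ⟨a * b, ?_, ?_⟩
        · have h1 : mo F (u * v) = mo F u * mo F v := rfl
          have h2 : emb F (mo F (a * b)) = emb F (mo F a) * emb F (mo F b) :=
            map_mul (emb F) (mo F a) (mo F b)
          rw [h1, h2, ha, hb]
        · have h1 : lets ix (u * v) = lets ix u + lets ix v := rfl
          have h2 : lets id (a * b) = lets id a + lets id b := rfl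
          rw [h1, h2, ha', hb']

theorem InW_mem {x : ℕ} {w : FreeMagma (ℕ ⊕ ℕ)} (hw : InW (Sum.inr x) w) : x ∈ lets ix w := by
  induction w with
  | ih1 a =>
    have h : a = Sum.inr x := hw
    subst h
    exact Multiset.mem_singleton_self x
  | ih2 u v hu hv =>
    have h : lets ix (u * v) = lets ix u + lets ix v := rfl
    rw [h, Multiset.mem_add]
    rcases hw with hw | hw
    · exact Or.inl (hu hw)
    · exact Or.inr (hv hw)

/-- in a word without repetitions the letter occurs in exactly one factor -/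
theorem Act_cases {u v : FreeMagma (ℕ ⊕ ℕ)} {x : ℕ} (hw : InW (Sum.inr x) (u * v))
    (hn : (lets ix (u * v)).Nodup) :
    (InW (Sum.inr x) u ∧ (lets ix u).Nodup ∧ x ∉ lets ix v) ∨
      (InW (Sum.inr x) v ∧ (lets ix v).Nodup ∧ x ∉ lets ix u) := by
  have h : lets ix (u * v) = lets ix u + lets ix v := rfl
  rw [h, Multiset.nodup_add] at hn
  rcases hw with hw | hw
  · exact Or.inl ⟨hw, hn.1, fun hx => Multiset.disjoint_left.1 hn.2.2 (InW_mem hw) hx⟩
  · exact Or.inr ⟨hw, hn.2.1, fun hx => Multiset.disjoint_left.1 hn.2.2 hx (InW_mem hw)⟩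

theorem Act_sb_mul (x : ℕ) (u v : FreeMagma (ℕ ⊕ ℕ)) :
    sb (up F x 1) (evt F (mo F (u * v))) =
      sb (up F x 1) (evt F (mo F u)) * sb (up F x 1) (evt F (mo F v)) := by
  rw [Real_evt_mul, map_mul]

theorem Act_sb_of (x : ℕ) :
    sb (up F x 1) (evt F (mo F (FreeMagma.of (Sum.inr x)))) = (2 : F) • (1 : Fn F) := by
  rw [Real_evt_inr, Real_sb_tX, Real_up_self, star_one, two_smul]

theorem evt_inr {x : ℕ} {w : FreeMagma (ℕ ⊕ ℕ)} (hw : InW (Sum.inr x) w)
    (hn : (lets ix w).Nodup) :
    (2 : F) • evt F (mo F w) = tX F x * sb (up F x 1) (evt F (mo F w)) := by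
  induction w with
  | ih1 a =>
    have h : a = Sum.inr x := hw
    subst h
    rw [Act_sb_of, mul_smul_comm, mul_one, Real_evt_inr]
  | ih2 u v hu hv =>
    show (2 : F) • evt F (mo F (u * v)) = tX F x * sb (up F x 1) (evt F (mo F (u * v)))
    rcases Act_cases hw hn with ⟨h1, h2, h3⟩ | ⟨h1, h2, h3⟩
    · rw [Act_sb_mul, Real_evt_mul, Real_up_ne h3, ← smul_mul_assoc, hu h1 h2,
        ((isSc_tX x).assoc _ _).1]
    · rw [Act_sb_mul, Real_evt_mul, Real_up_ne h3, ← mul_smul_comm, hv h1 h2]
      have a1 := ((isSc_tX x).assoc (evt F (mo F u)) (sb (up F x 1) (evt F (mo F v)))).1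
      have a2 := ((isSc_tX x).assoc (evt F (mo F u)) (sb (up F x 1) (evt F (mo F v)))).2.1
      have a3 := (isSc_tX x).comm (evt F (mo F u))
      rw [← a2, ← a3, a1]

/-- the value at `1` of the variable of a trace letter -/
theorem Act_val {x : ℕ} {w : FreeMagma (ℕ ⊕ ℕ)} (hw : InW (Sum.inr x) w)
    (hn : (lets ix w).Nodup) :
    (sb (up F x 1) (evt F (mo F w)) = (2 : F) • (1 : Fn F) ∧ (lets ix w).erase x = 0) ∨
      sb (up F x 1) (evt F (mo F w)) ∈ AF F ((lets ix w).erase x) := by
  induction w with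
  | ih1 a =>
    have h : a = Sum.inr x := hw
    subst h
    left
    refine ⟨Act_sb_of x, ?_⟩
    show ({x} : Multiset ℕ).erase x = 0
    exact Multiset.erase_singleton x
  | ih2 u v hu hv =>
    right
    show sb (up F x 1) (evt F (mo F (u * v))) ∈ AF F ((lets ix u + lets ix v).erase x)
    rcases Act_cases hw hn with ⟨h1, h2, h3⟩ | ⟨h1, h2, h3⟩
    · rw [Act_sb_mul, Real_up_ne h3, Multiset.erase_add_left_pos _ (InW_mem h1)]
      rcases hu h1 h2 with ⟨k1, k2⟩ | k
      · rw [k1, k2, smul_mul_assoc, one_mul, zero_add]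
        exact Submodule.smul_mem _ _ (Real_AF_mo v)
      · exact AF_mul k (Real_AF_mo v)
    · rw [Act_sb_mul, Real_up_ne h3, Multiset.erase_add_right_pos _ (InW_mem h1)]
      rcases hv h1 h2 with ⟨k1, k2⟩ | k
      · rw [k1, k2, mul_smul_comm, mul_one, add_zero]
        exact Submodule.smul_mem _ _ (Real_AF_mo u)
      · exact AF_mul (Real_AF_mo u) k

/-- if `w` is the letter `inr x` itself then the first factor is `2` -/
theorem evt_inr_LF (h2 : (2 : F) ≠ 0) (h3 : (3 : F) ≠ 0) {x : ℕ} {w : FreeMagma (ℕ ⊕ ℕ)}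
    (hw : InW (Sum.inr x) w) (hn : (lets ix w).Nodup) {m : Multiset ℕ} {l : Fn F}
    (hl : l ∈ LF F m) :
    sb (up F x 1) (evt F (mo F w)) * l ∈ LF F ((lets ix w).erase x + m) ∧
      l * sb (up F x 1) (evt F (mo F w)) ∈ LF F ((lets ix w).erase x + m) := by
  rcases Act_val (F := F) hw hn with ⟨k1, k2⟩ | k
  · rw [k1, k2, smul_mul_assoc, mul_smul_comm, one_mul, mul_one, zero_add]
    exact ⟨Submodule.smul_mem _ _ hl, Submodule.smul_mem _ _ hl⟩
  · refine ⟨AF_mul_LF h2 h3 k hl, ?_⟩
    rw [add_comm]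
    exact LF_mul_AF h2 h3 k hl

/-- alternative laws, multiplicative form -/
theorem Act_alt {A : Type*} [NonUnitalNonAssocRing A]
    (h12 : ∀ a b c : A, associator a b c = -associator b a c)
    (h23 : ∀ a b c : A, associator a b c = -associator a c b) (a b c : A) :
    a * (b * c) + a * (c * b) - (a * c) * b = (a * b) * c ∧
      (c * a) * b + (a * c) * b - a * (c * b) = c * (a * b) := by
  have a1 := h23 a b c
  have a2 := h12 c a b
  simp only [associator_apply] at a1 a2
  constructor
  · linear_combination (norm := abel) -a1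
  · linear_combination (norm := abel) a2

theorem Act_alt_Fn (a b c : Fn F) :
    a * (b * c) + a * (c * b) - (a * c) * b = (a * b) * c ∧
      (c * a) * b + (a * c) * b - a * (c * b) = c * (a * b) := by
  constructor <;> funext v
  · exact (Act_alt alt12_oc alt23_oc (a v) (b v) (c v)).1
  · exact (Act_alt alt12_oc alt23_oc (a v) (b v) (c v)).2

theorem Act_word_hon (h : Ctx π V) (hβ : IsBeta π V β) (u : FreeMagma ℕ) :
    ∀ {m : Multiset ℕ}, lets id u + m = V → ∀ {l : Fn F}, l ∈ LF F m →
      Lam π V β T (emb F (mo F u)) l = π (mo F u) * β m l ∧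
        Rho π V β T (emb F (mo F u)) l = β m l * π (mo F u) := by
  induction u with
  | ih1 y =>
    intro m e l hl
    have e' : V.erase y = m := by
      have e1 : ({y} : Multiset ℕ) + m = V := e
      rw [← e1, Multiset.singleton_add, Multiset.erase_cons_head]
    have h1 : emb F (mo F (FreeMagma.of y)) = of F (Sum.inl y) := Act_emb_of y
    rw [h1, Lam_inl, Rho_inl, e']
    exact ⟨rfl, rfl⟩
  | ih2 u v hu hv =>
    intro m e l hl
    have e0 : lets id u + lets id v + m = V := e
    have e1 : lets id u + (lets id v + m) = V := by rw [← add_assoc]; exact e0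
    have e2 : lets id v + (lets id u + m) = V := by
      rw [← add_assoc, add_comm (lets id v)]; exact e0
    have hev : ∀ w : FreeMagma ℕ, ev F (mo F w) ∈ UU F (lets id w) :=
      fun w => ⟨mo F w, mo_mem id w, rfl⟩
    have hea : ∀ w : FreeMagma ℕ, ev F (mo F w) ∈ AF F (lets id w) := fun w => UU_le_AF _ (hev w)
    have hlU := LF_le_UU m hl
    have hlt : ∀ {a b : FreeMagma ℕ}, lets id a + (lets id b + m) = V →
        (lets id b + m).Nodup ∧ (lets id b + m).card < V.card := by
      intro a b eab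
      have hn := h.nodup
      rw [← eab, Multiset.nodup_add] at hn
      refine ⟨hn.2.1, ?_⟩
      have hc : 0 < (lets id a).card := Multiset.card_pos.2 (lets_ne id a)
      rw [← eab, Multiset.card_add (lets id a)]
      omega
    obtain ⟨nv, cv⟩ := hlt e1
    obtain ⟨nu, cu⟩ := hlt e2
    have b1 : β (lets id v + m) (ev F (mo F v) * l) = π (mo F v) * β m l := by
      have k := beta_mul h hβ nv cv (hev v) hlU
      have k' := hβ (lets id v) (Multiset.nodup_add.1 nv).1
        (lt_of_le_of_lt (Multiset.card_le_card (Multiset.le_add_right _ _)) cv) _ (mo_mem id v)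
      rw [k, k']
    have b2 : β (lets id u + m) (ev F (mo F u) * l) = π (mo F u) * β m l := by
      have k := beta_mul h hβ nu cu (hev u) hlU
      have k' := hβ (lets id u) (Multiset.nodup_add.1 nu).1
        (lt_of_le_of_lt (Multiset.card_le_card (Multiset.le_add_right _ _)) cu) _ (mo_mem id u)
      rw [k, k']
    have b3 : β (lets id v + m) (l * ev F (mo F v)) = β m l * π (mo F v) := by
      have nv' := nv
      have cv' := cv
      rw [add_comm] at nv' cv'
      have k := beta_mul h hβ nv' cv' hlU (hev v)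
      have k' := hβ (lets id v) (Multiset.nodup_add.1 nv).1
        (lt_of_le_of_lt (Multiset.card_le_card (Multiset.le_add_right _ _)) cv) _ (mo_mem id v)
      rw [add_comm (lets id v), k, k']
    have b4 : β (lets id u + m) (l * ev F (mo F u)) = β m l * π (mo F u) := by
      have nu' := nu
      have cu' := cu
      rw [add_comm] at nu' cu'
      have k := beta_mul h hβ nu' cu' hlU (hev u)
      have k' := hβ (lets id u) (Multiset.nodup_add.1 nu).1
        (lt_of_le_of_lt (Multiset.card_le_card (Multiset.le_add_right _ _)) cu) _ (mo_mem id u)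
      rw [add_comm (lets id u), k, k']
    have hvl := AF_mul_LF h.two h.three (hea v) hl
    have hul := AF_mul_LF h.two h.three (hea u) hl
    have hlv := LF_mul_AF h.two h.three (hea v) hl
    have hlu := LF_mul_AF h.two h.three (hea u) hl
    rw [add_comm] at hlv hlu
    have h1 : emb F (mo F (u * v)) = emb F (mo F u) * emb F (mo F v) :=
      map_mul (emb F) (mo F u) (mo F v)
    have h2 : π (mo F (u * v)) = π (mo F u) * π (mo F v) := map_mul π (mo F u) (mo F v)
    have alt := Act_alt (alt12_R h.sat) (alt23_R h.sat) (π (mo F u)) (π (mo F v)) (β m l)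
    show Lam π V β T (emb F (mo F (u * v))) l = π (mo F (u * v)) * β m l ∧
        Rho π V β T (emb F (mo F (u * v))) l = β m l * π (mo F (u * v))
    rw [h1, h2, Lam_mul, Rho_mul, evt_emb, evt_emb, (hu e1 hvl).1, (hu e1 hlv).1, (hv e2 hul).2,
      (hv e2 hlu).2, b1, b2, b3, b4]
    exact alt

theorem Act_hon (h : Ctx π V) (hβ : IsBeta π V β) {s m : Multiset ℕ} (e : s + m = V) {p : FA F}
    (hp : p ∈ P F s) {l : Fn F} (hl : l ∈ LF F m) :
    Lam π V β T (emb F p) l = π p * β m l ∧ Rho π V β T (emb F p) l = β m l * π p := by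
  refine Words_PP_ind id (p := fun p => Lam π V β T (emb F p) l = π p * β m l ∧
    Rho π V β T (emb F p) l = β m l * π p) ?_ ?_ ?_ ?_ hp
  · simp only [map_zero, LinearMap.zero_apply, zero_mul, mul_zero, and_self]
  · rintro f g ⟨hf, hf'⟩ ⟨hg, hg'⟩
    simp only [map_add, LinearMap.add_apply, add_mul, mul_add, hf, hf', hg, hg', and_self]
  · rintro k f ⟨hf, hf'⟩
    simp only [map_smul, LinearMap.smul_apply, smul_mul_assoc, mul_smul_comm, hf, hf', and_self]
  · intro w hw
    exact Act_word_hon h hβ w (by rw [hw]; exact e) hl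

theorem Act_word_aux (h : Ctx π V) (hβ : IsBeta π V β) (hT : IsTT π V β T) {x : ℕ}
    (w : FreeMagma (ℕ ⊕ ℕ)) :
    ∀ {m : Multiset ℕ}, lets ix w + {x} + m = V → ∀ {l : Fn F}, l ∈ LF F m →
      Lam π V β T (mo F w) (tX F x * l) = T x (evt F (mo F w) * l) ∧
        Rho π V β T (mo F w) (tX F x * l) = T x (l * evt F (mo F w)) := by
  induction w with
  | ih1 a =>
    intro m e l hl
    cases a with
    | inl y =>
      have e0 : ({y} : Multiset ℕ) + {x} + m = V := e
      have e1 : V = y ::ₘ x ::ₘ m := by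
        rw [← e0, Multiset.singleton_add, Multiset.cons_add, Multiset.singleton_add]
      have hx : x ∈ V := by
        rw [e1]
        exact Multiset.mem_cons_of_mem (Multiset.mem_cons_self x m)
      have hn := h.nodup
      rw [e1] at hn
      have hyx : y ≠ x := by
        intro hyx
        subst hyx
        exact (Multiset.nodup_cons.1 hn).1 (Multiset.mem_cons_self _ m)
      have e2 : V.erase x = y ::ₘ m := by
        rw [e1, Multiset.cons_swap, Multiset.erase_cons_head]
      have hy : y ∈ V.erase x := by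
        rw [e2]
        exact Multiset.mem_cons_self y m
      have e3 : (V.erase x).erase y = m := by
        rw [e2, Multiset.erase_cons_head]
      have ht := hT x hx y hy l (by rw [e3]; exact hl)
      have h1 : mo F (FreeMagma.of (Sum.inl y : ℕ ⊕ ℕ)) = of F (Sum.inl y) := rfl
      rw [Real_evt_inl, h1, Lam_inl, Rho_inl, ht.1, ht.2]
      exact ⟨rfl, rfl⟩
    | inr y =>
      have e0 : ({y} : Multiset ℕ) + {x} + m = V := e
      have e1 : ({x} : Multiset ℕ) + {y} + m = V := by
        rw [add_comm ({x} : Multiset ℕ) {y}]; exact e0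
      have h1 : mo F (FreeMagma.of (Sum.inr y : ℕ ⊕ ℕ)) = of F (Sum.inr y) := rfl
      rw [Real_evt_inr, h1, Lam_inr, Rho_inr, ← (isSc_tX y).comm l, T_comm h hβ hT e1 hl]
      exact ⟨rfl, rfl⟩
  | ih2 u v hu hv =>
    intro m e l hl
    have e0 : lets ix u + lets ix v + {x} + m = V := e
    have e1 : lets ix u + {x} + (lets ix v + m) = V := by
      rw [← e0]; ac_rfl
    have e2 : lets ix v + {x} + (lets ix u + m) = V := by
      rw [← e0]; ac_rfl
    have hvl := AF_mul_LF h.two h.three (Real_AF_mo v) hl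
    have hul := AF_mul_LF h.two h.three (Real_AF_mo u) hl
    have hlv := LF_mul_AF h.two h.three (Real_AF_mo v) hl
    have hlu := LF_mul_AF h.two h.three (Real_AF_mo u) hl
    rw [add_comm] at hlv hlu
    have sc : ∀ a : Fn F, a * (tX F x * l) = tX F x * (a * l) ∧
        (tX F x * l) * a = tX F x * (l * a) := by
      intro a
      have a1 := ((isSc_tX x).assoc a l).1
      have a2 := ((isSc_tX x).assoc a l).2.1
      have a3 := (isSc_tX x).comm a
      have a4 := ((isSc_tX x).assoc l a).1
      refine ⟨?_, a4⟩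
      rw [← a2, ← a3, a1]
    have h1 : mo F (u * v) = mo F u * mo F v := rfl
    have alt := Act_alt_Fn (evt F (mo F u)) (evt F (mo F v)) l
    show Lam π V β T (mo F (u * v)) (tX F x * l) = T x (evt F (mo F (u * v)) * l) ∧
        Rho π V β T (mo F (u * v)) (tX F x * l) = T x (l * evt F (mo F (u * v)))
    rw [Real_evt_mul, h1, Lam_mul, Rho_mul, (sc (evt F (mo F u))).1, (sc (evt F (mo F u))).2,
      (sc (evt F (mo F v))).1, (sc (evt F (mo F v))).2, (hu e1 hvl).1, (hu e1 hlv).1,
      (hv e2 hul).2, (hv e2 hlu).2, ← map_add, ← map_sub, ← map_add, ← map_sub, alt.1, alt.2]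
    exact ⟨rfl, rfl⟩

theorem Act_aux (h : Ctx π V) (hβ : IsBeta π V β) (hT : IsTT π V β T) {x : ℕ} {s m : Multiset ℕ}
    (e : s + {x} + m = V) {f : FB F} (hf : f ∈ PP F ix s) {l : Fn F} (hl : l ∈ LF F m) :
    Lam π V β T f (tX F x * l) = T x (evt F f * l) ∧
      Rho π V β T f (tX F x * l) = T x (l * evt F f) := by
  refine Words_PP_ind ix (p := fun f => Lam π V β T f (tX F x * l) = T x (evt F f * l) ∧
    Rho π V β T f (tX F x * l) = T x (l * evt F f)) ?_ ?_ ?_ ?_ hf
  · simp only [map_zero, LinearMap.zero_apply, zero_mul, mul_zero, and_self]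
  · rintro f g ⟨hf, hf'⟩ ⟨hg, hg'⟩
    simp only [map_add, LinearMap.add_apply, add_mul, mul_add, hf, hf', hg, hg', and_self]
  · rintro k f ⟨hf, hf'⟩
    simp only [map_smul, LinearMap.smul_apply, smul_mul_assoc, mul_smul_comm, hf, hf', and_self]
  · intro w hw
    exact Act_word_aux h hβ hT w (by rw [hw]; exact e) hl

theorem Act_t (h : Ctx π V) (hβ : IsBeta π V β) (hT : IsTT π V β T) {x : ℕ}
    (w : FreeMagma (ℕ ⊕ ℕ)) (hw : InW (Sum.inr x) w) {m : Multiset ℕ} (e : lets ix w + m = V)
    {l : Fn F} (hl : l ∈ LF F m) :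
    (2 : F) • Lam π V β T (mo F w) l = T x (sb (up F x 1) (evt F (mo F w)) * l) ∧
      (2 : F) • Rho π V β T (mo F w) l = T x (l * sb (up F x 1) (evt F (mo F w))) := by
  induction w generalizing m l with
  | ih1 a =>
    have ha : a = Sum.inr x := hw
    subst ha
    have h1 : mo F (FreeMagma.of (Sum.inr x : ℕ ⊕ ℕ)) = of F (Sum.inr x) := rfl
    rw [Act_sb_of, h1, Lam_inr, Rho_inr, smul_mul_assoc, mul_smul_comm, one_mul, mul_one, map_smul]
    exact ⟨rfl, rfl⟩
  | ih2 u v hu hv =>
    have e0 : lets ix u + lets ix v + m = V := e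
    have hn : (lets ix (u * v)).Nodup := by
      have h1 := h.nodup
      rw [← e0, Multiset.nodup_add] at h1
      exact h1.1
    have h1 : mo F (u * v) = mo F u * mo F v := rfl
    have hvl := AF_mul_LF h.two h.three (Real_AF_mo v) hl
    have hul := AF_mul_LF h.two h.three (Real_AF_mo u) hl
    have hlv := LF_mul_AF h.two h.three (Real_AF_mo v) hl
    have hlu := LF_mul_AF h.two h.three (Real_AF_mo u) hl
    rw [add_comm] at hlv hlu
    have e1 : lets ix u + (lets ix v + m) = V := by rw [← add_assoc]; exact e0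
    have e2 : lets ix v + (lets ix u + m) = V := by
      rw [← add_assoc, add_comm (lets ix v)]; exact e0
    show (2 : F) • Lam π V β T (mo F (u * v)) l = T x (sb (up F x 1) (evt F (mo F (u * v))) * l) ∧
      (2 : F) • Rho π V β T (mo F (u * v)) l = T x (l * sb (up F x 1) (evt F (mo F (u * v))))
    have sc : ∀ a b : Fn F, a * (tX F x * b) = tX F x * (a * b) := by
      intro a b
      have a1 := ((isSc_tX x).assoc a b).1
      have a2 := ((isSc_tX x).assoc a b).2.1
      have a3 := (isSc_tX x).comm a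
      rw [← a2, ← a3, a1]
    have sc' : ∀ a b : Fn F, (tX F x * a) * b = tX F x * (a * b) := fun a b =>
      ((isSc_tX x).assoc a b).1
    rcases Act_cases hw hn with ⟨w1, w2, w3⟩ | ⟨w1, w2, w3⟩
    · have hS := evt_inr_LF h.two h.three w1 w2 hl
      have hE := evt_inr (F := F) w1 w2
      have hx : x ∈ lets ix u := InW_mem w1
      have e3 : lets ix v + {x} + ((lets ix u).erase x + m) = V := by
        have k : ({x} : Multiset ℕ) + (lets ix u).erase x = lets ix u := by
          rw [Multiset.singleton_add]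
          exact Multiset.cons_erase hx
        calc lets ix v + {x} + ((lets ix u).erase x + m)
            = ({x} + (lets ix u).erase x) + lets ix v + m := by ac_rfl
          _ = V := by rw [k]; exact e0
      have k1 := (hu w1 e1 hvl).1
      have k2 := (hu w1 e1 hlv).1
      have k3 := Act_word_aux h hβ hT v e3 hS.1
      have k4 := Act_word_aux h hβ hT v e3 hS.2
      obtain ⟨S, hSd⟩ : ∃ S, S = sb (up F x 1) (evt F (mo F u)) := ⟨_, rfl⟩
      rw [← hSd] at k1 k2 k3 k4 hE hS
      have alt := Act_alt_Fn S (evt F (mo F v)) l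
      have r1 : (2 : F) • Rho π V β T (mo F v) (evt F (mo F u) * l) =
          T x ((S * l) * evt F (mo F v)) := by
        rw [← k3.2, ← map_smul, ← smul_mul_assoc, hE, sc']
      have r2 : (2 : F) • Rho π V β T (mo F v) (l * evt F (mo F u)) =
          T x ((l * S) * evt F (mo F v)) := by
        rw [← k4.2, ← map_smul, ← mul_smul_comm, hE, sc]
      rw [Act_sb_mul, Real_up_ne w3, ← hSd, h1, Lam_mul, Rho_mul]
      constructor
      · rw [smul_sub, smul_add, k1, k2, r1, ← map_add, ← map_sub, alt.1]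
      · rw [smul_sub, smul_add, r2, r1, k2, ← map_add, ← map_sub, alt.2]
    · have hS := evt_inr_LF h.two h.three w1 w2 hl
      have hE := evt_inr (F := F) w1 w2
      have hx : x ∈ lets ix v := InW_mem w1
      have e3 : lets ix u + {x} + ((lets ix v).erase x + m) = V := by
        have k : ({x} : Multiset ℕ) + (lets ix v).erase x = lets ix v := by
          rw [Multiset.singleton_add]
          exact Multiset.cons_erase hx
        calc lets ix u + {x} + ((lets ix v).erase x + m)
            = lets ix u + ({x} + (lets ix v).erase x) + m := by ac_rfl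
          _ = V := by rw [k]; exact e0
      have k1 := (hv w1 e2 hul).2
      have k2 := (hv w1 e2 hlu).2
      have k3 := Act_word_aux h hβ hT u e3 hS.1
      have k4 := Act_word_aux h hβ hT u e3 hS.2
      obtain ⟨S, hSd⟩ : ∃ S, S = sb (up F x 1) (evt F (mo F v)) := ⟨_, rfl⟩
      rw [← hSd] at k1 k2 k3 k4 hE hS
      have alt := Act_alt_Fn (evt F (mo F u)) S l
      have r1 : (2 : F) • Lam π V β T (mo F u) (evt F (mo F v) * l) =
          T x (evt F (mo F u) * (S * l)) := by
        rw [← k3.1, ← map_smul, ← smul_mul_assoc, hE, sc']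
      have r2 : (2 : F) • Lam π V β T (mo F u) (l * evt F (mo F v)) =
          T x (evt F (mo F u) * (l * S)) := by
        rw [← k4.1, ← map_smul, ← mul_smul_comm, hE, sc]
      rw [Act_sb_mul, Real_up_ne w3, ← hSd, h1, Lam_mul, Rho_mul]
      constructor
      · rw [smul_sub, smul_add, r1, r2, k1, ← map_add, ← map_sub, alt.1]
      · rw [smul_sub, smul_add, k2, k1, r2, ← map_add, ← map_sub, alt.2]

end Pool.Agent.OB
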