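import Pool.Agent.OB.Inv
import Pool.Agent.Smt.Final

/-!
# Identities with involution for ideals  (module Kill)

`mem_SS`: apply `Pool.Agent.Smt.main` with `ν = 0, β = γ = 1`; there is an injective homomorphism
`CD F 0 1 1 → Oc F` with `cj x ↦ star (..)` (see the private `StarTr_g`, `StarTr_g_bar` in
`Pool/Agent/Smt/StarTr.lean` for the formulas in the model `Oct F 0 1 1`, `CD.toOct`, `starId_toOct_cj`; one can
also define it directly by coordinates on `CD F 0 1 1`).

`kill_FS`: `I₀ = {f | ∀ v : ℕ → FS F, f(v) ∈ K ∧ inv (f(v)) ∈ K}`, `f(v) = lift F (Sum.elim v (inv ∘ v)) f`, is a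
star T-ideal which contains `SS F`; e.g. `inv (associator (u + u*) v w) = -associator w* v* (u + u*)`, and
`associator a b c + associator b a c ∈ K`, `associator a b c + associator a c b ∈ K` by linearization of the
alternative laws. So `starTIdeal F (SS F) ≤ I₀`.
`killT`: `τ : FS F → FB F`, `inl i ↦ inl i`, `inr i ↦ inr i - inl i`, satisfies `τ (inv f) = invT (τ f)`; take
`K' = τ⁻¹ K` and `f' = lift F (Sum.elim inl (inl + inr)) f`: `τ f' = f`, `f'(v, v*) = evt f`.
`killW`: `ρ : FS F → FA F`, `inl i ↦ x_i`, `inr i ↦ -x_i`; `f' = f((inl i - inr i)/2)`.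
-/

set_option autoImplicit false
set_option linter.unusedSectionVars false

namespace Pool.Agent.OB

open FreeNonUnitalNonAssocAlgebra Pool.Agent.H.MP_41922c_al Pool.Agent.Smt

variable {F : Type*} [Field F]

/-- a two-sided ideal that contains all instances of the alternative laws and of the centrality of the
traces and norms -/
structure Laws {A : Type*} [NonUnitalNonAssocRing A] [Module F A] (K : Submodule F A) (σ : A → A) :
    Prop where
  left : ∀ a f, f ∈ K → a * f ∈ K
  right : ∀ a f, f ∈ K → f * a ∈ K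
  altL : ∀ u v, associator u u v ∈ K
  altR : ∀ u v, associator v u u ∈ K
  trC : ∀ u v, com (u + σ u) v ∈ K
  trA : ∀ u v w, associator (u + σ u) v w ∈ K
  nmC : ∀ u v, com (u * σ u) v ∈ K
  nmA : ∀ u v w, associator (u * σ u) v w ∈ K

/-- `Oct F 0 1 1` is the algebra `Oc F` -/
def Kill_g (F : Type*) [Field F] : Oct F 0 1 1 →ₙₐ[F] Oc F where
  toFun x := ⟨x.1.1.1 + x.1.1.2, x.1.2.1 + x.1.2.2, x.1.2.1, x.1.1.1,
    x.2.1.1 + x.2.1.2, x.2.2.1 + x.2.2.2, x.2.2.1, x.2.1.1⟩
  map_smul' k x := by ext <;> simp <;> ring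
  map_zero' := by ext <;> simp
  map_add' x y := by ext <;> simp <;> ring
  map_mul' x y := by ext <;> simp <;> ring

theorem Kill_g_apply (x : Oct F 0 1 1) :
    Kill_g F x = ⟨x.1.1.1 + x.1.1.2, x.1.2.1 + x.1.2.2, x.1.2.1, x.1.1.1,
    x.2.1.1 + x.2.1.2, x.2.2.1 + x.2.2.2, x.2.2.1, x.2.1.1⟩ := rfl

theorem Kill_g_bar (x : Oct F 0 1 1) : Kill_g F x.bar = star (Kill_g F x) := by
  rw [Kill_g_apply, Kill_g_apply]
  ext <;> simp <;> ring

theorem Kill_g_inj : Function.Injective (Kill_g F) := by
  intro x y h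
  rw [Kill_g_apply, Kill_g_apply, Oc.mk.injEq] at h
  obtain ⟨e1, e2, e3, e4, e5, e6, e7, e8⟩ := h
  rw [e4] at e1
  rw [e3] at e2
  rw [e8] at e5
  rw [e7] at e6
  exact Oct.ext8 e4 (add_left_cancel e1) e3 (add_left_cancel e2) e8 (add_left_cancel e5) e7
    (add_left_cancel e6)

theorem Kill_cj (x : CD F 0 1 1) : CD.toOct F (cj x) = (CD.toOct F x).bar := by
  refine Oct.ext8 ?_ ?_ ?_ ?_ ?_ ?_ ?_ ?_ <;> simp [CD.toOct, cj]

theorem Kill_inv_add (f g : FS F) : inv (f + g) = inv f + inv g := by
  show (invHom F (f + g)).unop = (invHom F f).unop + (invHom F g).unop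
  rw [map_add]
  rfl

theorem Kill_inv_smul (c : F) (f : FS F) : inv (c • f) = c • inv f := by
  show (invHom F (c • f)).unop = c • (invHom F f).unop
  rw [map_smul]
  rfl

theorem Kill_inv_mul (f g : FS F) : inv (f * g) = inv g * inv f := by
  show (invHom F (f * g)).unop = (invHom F g).unop * (invHom F f).unop
  rw [map_mul]
  rfl

theorem Kill_inv_zero : inv (0 : FS F) = 0 := by
  have h := Kill_inv_smul (0 : F) (0 : FS F)
  rwa [zero_smul, zero_smul] at h

theorem Kill_inv_sub (f g : FS F) : inv (f - g) = inv f - inv g := by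
  show (invHom F (f - g)).unop = (invHom F f).unop - (invHom F g).unop
  rw [map_sub]
  rfl

theorem Kill_inv_of (s : ℕ ⊕ ℕ) : inv (of F s) = of F s.swap := by
  unfold inv invHom
  rw [lift_of_apply]
  rfl

theorem Kill_inv_inv (f : FS F) : inv (inv f) = f := by
  refine Words_ind (F := F) (α := ℕ ⊕ ℕ) (p := fun f => inv (inv f) = f) ?_ ?_ ?_ ?_ f
  · rw [Kill_inv_zero, Kill_inv_zero]
  · intro f g hf hg
    rw [Kill_inv_add, Kill_inv_add, hf, hg]
  · intro k f hf
    rw [Kill_inv_smul, Kill_inv_smul, hf]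
  · intro w
    induction w with
    | ih1 s =>
      show inv (inv (of F s)) = of F s
      rw [Kill_inv_of, Kill_inv_of, Sum.swap_swap]
    | ih2 u v hu hv =>
      show inv (inv (mo F u * mo F v)) = mo F u * mo F v
      rw [Kill_inv_mul, Kill_inv_mul, hu, hv]

section

variable {A : Type*} [NonUnitalNonAssocRing A] [Module F A] [IsScalarTower F A A]
  [SMulCommClass F A A]

theorem Kill_anti (φ : FS F →ₙₐ[F] A) (σ : A → A) (ha : ∀ a b, σ (a + b) = σ a + σ b)
    (hs : ∀ (c : F) a, σ (c • a) = c • σ a) (hm : ∀ a b, σ (a * b) = σ b * σ a)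
    (hl : ∀ s : ℕ ⊕ ℕ, φ (of F s.swap) = σ (φ (of F s))) (f : FS F) :
    φ (inv f) = σ (φ f) := by
  refine Words_ind (F := F) (α := ℕ ⊕ ℕ) (p := fun f => φ (inv f) = σ (φ f)) ?_ ?_ ?_ ?_ f
  · have h := hs 0 0
    rw [zero_smul, zero_smul] at h
    rw [Kill_inv_zero, map_zero, h]
  · intro f g hf hg
    rw [Kill_inv_add, map_add, map_add, ha, hf, hg]
  · intro k f hf
    rw [Kill_inv_smul, map_smul, map_smul, hs, hf]
  · intro w
    induction w with
    | ih1 s =>
      show φ (inv (of F s)) = σ (φ (of F s))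
      rw [Kill_inv_of]
      exact hl s
    | ih2 u v hu hv =>
      show φ (inv (mo F u * mo F v)) = σ (φ (mo F u * mo F v))
      rw [Kill_inv_mul, map_mul, map_mul, hm, hu, hv]

theorem Kill_asc (φ : FS F →ₙₐ[F] A) (a b c : FS F) :
    φ (associator a b c) = associator (φ a) (φ b) (φ c) := by
  simp only [associator, map_sub, map_mul]

theorem Kill_com (φ : FS F →ₙₐ[F] A) (a b : FS F) : φ (com a b) = com (φ a) (φ b) := by
  simp only [com, map_sub, map_mul]

theorem Kill_comap {K : Submodule F A} {σ : A → A} (hK : Laws K σ) (τ : FS F →ₙₐ[F] A)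
    (hτ : ∀ f, τ (inv f) = σ (τ f)) : Laws (K.comap (τ : FS F →ₗ[F] A)) inv where
  left a f hf := by
    show τ (a * f) ∈ K
    rw [map_mul]
    exact hK.left _ _ hf
  right a f hf := by
    show τ (f * a) ∈ K
    rw [map_mul]
    exact hK.right _ _ hf
  altL u v := by
    show τ (associator u u v) ∈ K
    rw [Kill_asc]
    exact hK.altL _ _
  altR u v := by
    show τ (associator v u u) ∈ K
    rw [Kill_asc]
    exact hK.altR _ _
  trC u v := by
    show τ (com (u + inv u) v) ∈ K
    rw [Kill_com, map_add, hτ]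
    exact hK.trC _ _
  trA u v w := by
    show τ (associator (u + inv u) v w) ∈ K
    rw [Kill_asc, map_add, hτ]
    exact hK.trA _ _ _
  nmC u v := by
    show τ (com (u * inv u) v) ∈ K
    rw [Kill_com, map_mul, hτ]
    exact hK.nmC _ _
  nmA u v w := by
    show τ (associator (u * inv u) v w) ∈ K
    rw [Kill_asc, map_mul, hτ]
    exact hK.nmA _ _ _

theorem Kill_linL {K : Submodule F A} {σ : A → A} (hK : Laws K σ) (u v w : A) :
    associator u v w + associator v u w ∈ K := by
  have h := hK.altL (u + v) w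
  have e : associator u v w + associator v u w =
      associator (u + v) (u + v) w - associator u u w - associator v v w := by
    simp only [associator, mul_add, add_mul]
    abel
  rw [e]
  exact K.sub_mem (K.sub_mem h (hK.altL _ _)) (hK.altL _ _)

theorem Kill_linR {K : Submodule F A} {σ : A → A} (hK : Laws K σ) (u v w : A) :
    associator w u v + associator w v u ∈ K := by
  have h := hK.altR (u + v) w
  have e : associator w u v + associator w v u =
      associator w (u + v) (u + v) - associator w u u - associator w v v := by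
    simp only [associator, mul_add, add_mul]
    abel
  rw [e]
  exact K.sub_mem (K.sub_mem h (hK.altR _ _)) (hK.altR _ _)

/-- an element which associates in the first place associates in the third place -/
theorem Kill_third {K : Submodule F A} {σ : A → A} (hK : Laws K σ) {t v w : A}
    (h : associator t v w ∈ K) : associator v w t ∈ K := by
  have h1 := Kill_linR hK w t v
  have h2 := Kill_linL hK v t w
  have e : associator v w t = (associator v w t + associator v t w) -
      (associator v t w + associator t v w) + associator t v w := by abel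
  rw [e]
  exact K.add_mem (K.sub_mem h1 h2) h

end

theorem Kill_inv_asc (a b c : FS F) :
    inv (associator a b c) = -associator (inv c) (inv b) (inv a) := by
  simp only [associator, Kill_inv_sub, Kill_inv_mul]
  abel

theorem Kill_inv_com (a b : FS F) : inv (com a b) = -com (inv a) (inv b) := by
  simp only [com, Kill_inv_sub, Kill_inv_mul]
  abel

/-- the substitution -/
noncomputable def Kill_sub (v : ℕ → FS F) : FS F →ₙₐ[F] FS F :=
  lift F (Sum.elim v (fun i => inv (v i)))

theorem Kill_sub_inl (v : ℕ → FS F) (i : ℕ) : Kill_sub v (of F (Sum.inl i)) = v i := by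
  unfold Kill_sub
  rw [lift_of_apply]
  rfl

theorem Kill_sub_inr (v : ℕ → FS F) (i : ℕ) : Kill_sub v (of F (Sum.inr i)) = inv (v i) := by
  unfold Kill_sub
  rw [lift_of_apply]
  rfl

theorem Kill_sub_inv (v : ℕ → FS F) (f : FS F) : Kill_sub v (inv f) = inv (Kill_sub v f) := by
  refine Kill_anti (Kill_sub v) inv Kill_inv_add Kill_inv_smul Kill_inv_mul ?_ f
  rintro (i | i)
  · rw [Sum.swap_inl, Kill_sub_inr, Kill_sub_inl]
  · rw [Sum.swap_inr, Kill_sub_inr, Kill_sub_inl, Kill_inv_inv]

theorem Kill_sub_sub (v w : ℕ → FS F) (f : FS F) :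
    Kill_sub v (Kill_sub w f) = Kill_sub (fun i => Kill_sub v (w i)) f := by
  have h : (Kill_sub v).comp (Kill_sub w) = Kill_sub (fun i => Kill_sub v (w i)) := by
    refine hom_ext _ (fun s => ?_)
    rw [NonUnitalAlgHom.comp_apply]
    rcases s with i | i
    · rw [Kill_sub_inl, Kill_sub_inl]
    · rw [Kill_sub_inr, Kill_sub_inr, Kill_sub_inv]
  exact DFunLike.congr_fun h f

theorem Kill_sub_id (f : FS F) : Kill_sub (fun i => of F (Sum.inl i)) f = f := by
  have h : Kill_sub (fun i => of F (Sum.inl i)) = NonUnitalAlgHom.id F (FS F) := by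
    refine hom_ext _ (fun s => ?_)
    rcases s with i | i
    · rw [Kill_sub_inl]
      rfl
    · rw [Kill_sub_inr, Kill_inv_of, Sum.swap_inl]
      rfl
  exact DFunLike.congr_fun h f

/-- the polynomials whose values and their images under the involution are in `K` -/
noncomputable def Kill_I (K : Submodule F (FS F)) : Submodule F (FS F) where
  carrier := {f | ∀ v : ℕ → FS F, Kill_sub v f ∈ K ∧ inv (Kill_sub v f) ∈ K}
  zero_mem' v := by
    rw [map_zero, Kill_inv_zero]
    exact ⟨K.zero_mem, K.zero_mem⟩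
  add_mem' {f g} hf hg v := by
    rw [map_add, Kill_inv_add]
    exact ⟨K.add_mem (hf v).1 (hg v).1, K.add_mem (hf v).2 (hg v).2⟩
  smul_mem' k f hf v := by
    rw [map_smul, Kill_inv_smul]
    exact ⟨K.smul_mem _ (hf v).1, K.smul_mem _ (hf v).2⟩

theorem Kill_ideal {K : Submodule F (FS F)} (hK : Laws K inv) : IsStarTIdeal F (Kill_I K) where
  mul_left a f hf v := by
    rw [map_mul, Kill_inv_mul]
    exact ⟨hK.left _ _ (hf v).1, hK.right _ _ (hf v).2⟩
  mul_right a f hf v := by
    rw [map_mul, Kill_inv_mul]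
    exact ⟨hK.right _ _ (hf v).1, hK.left _ _ (hf v).2⟩
  inv f hf v := by
    rw [Kill_sub_inv, Kill_inv_inv]
    exact ⟨(hf v).2, (hf v).1⟩
  map w f hf v := by
    have h := hf (fun i => Kill_sub v (w i))
    rw [← Kill_sub_sub] at h
    exact h

theorem Kill_tr (u : FS F) : inv (u + inv u) = u + inv u := by
  rw [Kill_inv_add, Kill_inv_inv, add_comm]

theorem Kill_nm (u : FS F) : inv (u * inv u) = u * inv u := by
  rw [Kill_inv_mul, Kill_inv_inv]

theorem Kill_SS {K : Submodule F (FS F)} (hK : Laws K inv) : SS F ⊆ (Kill_I K : Set (FS F)) := by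
  intro f hf v
  simp only [SS, Set.mem_insert_iff, Set.mem_singleton_iff] at hf
  rcases hf with rfl | rfl | rfl | rfl | rfl | rfl
  · rw [Kill_asc, Kill_inv_asc]
    exact ⟨hK.altL _ _, K.neg_mem (hK.altR _ _)⟩
  · rw [Kill_asc, Kill_inv_asc]
    exact ⟨hK.altR _ _, K.neg_mem (hK.altL _ _)⟩
  · rw [Kill_com, Kill_inv_com, map_add, Kill_sub_inl, Kill_sub_inr, Kill_tr]
    exact ⟨hK.trC _ _, K.neg_mem (hK.trC _ _)⟩
  · rw [Kill_asc, Kill_inv_asc, map_add, Kill_sub_inl, Kill_sub_inr, Kill_tr]
    exact ⟨hK.trA _ _ _, K.neg_mem (Kill_third hK (hK.trA _ _ _))⟩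
  · rw [Kill_com, Kill_inv_com, map_mul, Kill_sub_inl, Kill_sub_inr, Kill_nm]
    exact ⟨hK.nmC _ _, K.neg_mem (hK.nmC _ _)⟩
  · rw [Kill_asc, Kill_inv_asc, map_mul, Kill_sub_inl, Kill_sub_inr, Kill_nm]
    exact ⟨hK.nmA _ _ _, K.neg_mem (Kill_third hK (hK.nmA _ _ _))⟩

/-- the value at the point `v` -/
def Kill_at (v : ℕ → Oc F) : Fn F →ₙₐ[F] Oc F where
  toFun f := f v
  map_smul' _ _ := rfl
  map_zero' := rfl
  map_add' _ _ := rfl
  map_mul' _ _ := rfl

theorem mem_SS [Infinite F] {f : FS F}
    (hf : ∀ v : ℕ → Oc F, lift F (Sum.elim v (fun i => star (v i))) f = 0) :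
    f ∈ starTIdeal F (SS F) := by
  refine (main (ν := 0) (β := 1) (γ := 1) (by simp) f).1 fun φ hφ => ?_
  obtain ⟨g, hg⟩ : ∃ g : CD F 0 1 1 →ₙₐ[F] Oc F, g = (Kill_g F).comp (CD.toOct F) := ⟨_, rfl⟩
  have h1 : Function.Injective g := by
    rw [hg]
    exact Kill_g_inj.comp (CD.toOct_injective (F := F))
  have h2 : ∀ x, g (cj x) = star (g x) := by
    intro x
    rw [hg]
    show Kill_g F (CD.toOct F (cj x)) = star (Kill_g F (CD.toOct F x))
    rw [Kill_cj, Kill_g_bar]
  apply h1
  rw [map_zero]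
  have h3 : g.comp φ = lift F (Sum.elim (fun i => g (φ (of F (Sum.inl i))))
      fun i => star (g (φ (of F (Sum.inl i))))) := by
    refine hom_ext _ fun s => ?_
    rw [lift_of_apply, NonUnitalAlgHom.comp_apply]
    rcases s with i | i
    · rfl
    · rw [hφ, h2]
      rfl
  have h4 := DFunLike.congr_fun h3 f
  exact h4.trans (hf _)

theorem kill_FS [Infinite F] {K : Submodule F (FS F)} (hK : Laws K inv) {f : FS F}
    (hf : ∀ v : ℕ → Oc F, lift F (Sum.elim v (fun i => star (v i))) f = 0) : f ∈ K := by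
  have h1 := mem_SS hf
  have h2 : starTIdeal F (SS F) ≤ Kill_I K := sInf_le ⟨Kill_ideal hK, Kill_SS hK⟩
  have h3 := (h2 h1 (fun i => of F (Sum.inl i))).1
  rwa [Kill_sub_id] at h3

theorem killT [Infinite F] {K : Submodule F (FB F)} (hK : Laws K invT) {f : FB F}
    (hf : evt F f = 0) : f ∈ K := by
  obtain ⟨τ, hτ⟩ : ∃ τ : FS F →ₙₐ[F] FB F, τ = lift F (Sum.elim (fun i => of F (Sum.inl i))
    fun i => of F (Sum.inr i) - of F (Sum.inl i)) := ⟨_, rfl⟩
  have hl : ∀ i, τ (of F (Sum.inl i)) = of F (Sum.inl i) := fun i => by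
    rw [hτ, lift_of_apply]
    rfl
  have hr : ∀ i, τ (of F (Sum.inr i)) = of F (Sum.inr i) - of F (Sum.inl i) := fun i => by
    rw [hτ, lift_of_apply]
    rfl
  have hsub : ∀ f g : FB F, invT (f - g) = invT f - invT g := fun f g => by
    have h : f - g = f + (-1 : F) • g := by rw [neg_smul, one_smul, sub_eq_add_neg]
    rw [h, invT_add, invT_smul, neg_smul, one_smul, sub_eq_add_neg]
  have h1 : ∀ f, τ (inv f) = invT (τ f) := by
    refine Kill_anti τ invT invT_add invT_smul invT_mul ?_
    rintro (i | i)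
    · rw [Sum.swap_inl, hl, hr, invT_inl]
    · rw [Sum.swap_inr, hl, hr, hsub, invT_inl, invT_inr, sub_sub_cancel]
  obtain ⟨ρ, hρ⟩ : ∃ ρ : FB F →ₙₐ[F] FS F, ρ = lift F (Sum.elim (fun i => of F (Sum.inl i))
    fun i => of F (Sum.inl i) + of F (Sum.inr i)) := ⟨_, rfl⟩
  have h2 : τ (ρ f) = f := by
    have h : τ.comp ρ = NonUnitalAlgHom.id F (FB F) := by
      refine hom_ext _ fun s => ?_
      rw [NonUnitalAlgHom.comp_apply, hρ, lift_of_apply]
      rcases s with i | i
      · exact hl i
      · show τ (of F (Sum.inl i) + of F (Sum.inr i)) = of F (Sum.inr i)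
        rw [map_add, hl, hr, add_sub_cancel]
    exact DFunLike.congr_fun h f
  have h3 : ∀ v : ℕ → Oc F, lift F (Sum.elim v (fun i => star (v i))) (ρ f) = evt F f v := by
    intro v
    have h : (lift F (Sum.elim v (fun i => star (v i)))).comp ρ = (Kill_at v).comp (evt F) := by
      refine hom_ext _ fun s => ?_
      rw [NonUnitalAlgHom.comp_apply, NonUnitalAlgHom.comp_apply, hρ, lift_of_apply]
      unfold evt
      rw [lift_of_apply]
      rcases s with i | i
      · show lift F (Sum.elim v (fun i => star (v i))) (of F (Sum.inl i)) = v i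
        rw [lift_of_apply]
        rfl
      · show lift F (Sum.elim v (fun i => star (v i))) (of F (Sum.inl i) + of F (Sum.inr i)) =
          v i + star (v i)
        rw [map_add, lift_of_apply, lift_of_apply]
        rfl
    exact DFunLike.congr_fun h f
  have h4 : ρ f ∈ K.comap (τ : FS F →ₗ[F] FB F) := kill_FS (Kill_comap hK τ h1) (fun v => by
    rw [h3, hf]
    rfl)
  have h5 : τ (ρ f) ∈ K := h4
  rwa [h2] at h5

theorem killW [Infinite F] (h2 : (2 : F) ≠ 0) {K : Submodule F (FA F)} (hK : Laws K invW)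
    {f : FA F} (hf : evw F f = 0) : f ∈ K := by
  obtain ⟨τ, hτ⟩ : ∃ τ : FS F →ₙₐ[F] FA F, τ = lift F (Sum.elim (fun i => of F i)
    fun i => -of F i) := ⟨_, rfl⟩
  have hl : ∀ i, τ (of F (Sum.inl i)) = of F i := fun i => by
    rw [hτ, lift_of_apply]
    rfl
  have hr : ∀ i, τ (of F (Sum.inr i)) = -of F i := fun i => by
    rw [hτ, lift_of_apply]
    rfl
  have hneg : ∀ f : FA F, invW (-f) = -invW f := fun f => by
    have h : -f = (-1 : F) • f := by rw [neg_smul, one_smul]
    rw [h, invW_smul, neg_smul, one_smul]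
  have h1 : ∀ f, τ (inv f) = invW (τ f) := by
    refine Kill_anti τ invW invW_add invW_smul invW_mul ?_
    rintro (i | i)
    · rw [Sum.swap_inl, hl, hr, invW_of]
    · rw [Sum.swap_inr, hl, hr, hneg, invW_of, neg_neg]
  obtain ⟨ρ, hρ⟩ : ∃ ρ : FA F →ₙₐ[F] FS F, ρ = lift F
    (fun i => (2 : F)⁻¹ • (of F (Sum.inl i) - of F (Sum.inr i))) := ⟨_, rfl⟩
  have h2' : τ (ρ f) = f := by
    have h : τ.comp ρ = NonUnitalAlgHom.id F (FA F) := by
      refine hom_ext _ fun i => ?_
      rw [NonUnitalAlgHom.comp_apply, hρ, lift_of_apply, map_smul, map_sub, hl, hr,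
        sub_neg_eq_add, ← two_smul F (of F i), smul_smul, inv_mul_cancel₀ h2, one_smul]
      rfl
    exact DFunLike.congr_fun h f
  have h3 : ∀ v : ℕ → Oc F, lift F (Sum.elim v (fun i => star (v i))) (ρ f) = evw F f v := by
    intro v
    have h : (lift F (Sum.elim v (fun i => star (v i)))).comp ρ = (Kill_at v).comp (evw F) := by
      refine hom_ext _ fun i => ?_
      rw [NonUnitalAlgHom.comp_apply, NonUnitalAlgHom.comp_apply, hρ, lift_of_apply]
      unfold evw
      rw [lift_of_apply, map_smul, map_sub, lift_of_apply, lift_of_apply]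
      rfl
    exact DFunLike.congr_fun h f
  have h4 : ρ f ∈ K.comap (τ : FS F →ₗ[F] FA F) := kill_FS (Kill_comap hK τ h1) (fun v => by
    rw [h3, hf]
    rfl)
  have h5 : τ (ρ f) ∈ K := h4
  rwa [h2'] at h5

/-- the values of a bilinear map on the diagonal -/
theorem quad_mem {α M : Type*} [AddCommGroup M] [Module F M] (K : Submodule F M)
    (Q : FreeNonUnitalNonAssocAlgebra F α →ₗ[F] FreeNonUnitalNonAssocAlgebra F α →ₗ[F] M)
    (h1 : ∀ w, Q (mo F w) (mo F w) ∈ K)
    (h2 : ∀ w w', Q (mo F w) (mo F w') + Q (mo F w') (mo F w) ∈ K)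
    (u : FreeNonUnitalNonAssocAlgebra F α) : Q u u ∈ K := by
  have h3 : ∀ u v, Q u v + Q v u ∈ K := by
    intro u v
    refine Words_ind (F := F) (α := α) (p := fun u => Q u v + Q v u ∈ K) ?_ ?_ ?_ ?_ u
    · rw [map_zero, map_zero, LinearMap.zero_apply, add_zero]
      exact K.zero_mem
    · intro f g hf hg
      have h : Q (f + g) v + Q v (f + g) = (Q f v + Q v f) + (Q g v + Q v g) := by
        rw [map_add, map_add, LinearMap.add_apply]
        abel
      rw [h]
      exact K.add_mem hf hg
    · intro k f hf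
      have h : Q (k • f) v + Q v (k • f) = k • (Q f v + Q v f) := by
        rw [map_smul, map_smul, LinearMap.smul_apply, smul_add]
      rw [h]
      exact K.smul_mem _ hf
    · intro w
      refine Words_ind (F := F) (α := α) (p := fun v => Q (mo F w) v + Q v (mo F w) ∈ K)
        ?_ ?_ ?_ ?_ v
      · rw [map_zero, map_zero, LinearMap.zero_apply, add_zero]
        exact K.zero_mem
      · intro f g hf hg
        have h : Q (mo F w) (f + g) + Q (f + g) (mo F w) =
            (Q (mo F w) f + Q f (mo F w)) + (Q (mo F w) g + Q g (mo F w)) := by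
          rw [map_add, map_add, LinearMap.add_apply]
          abel
        rw [h]
        exact K.add_mem hf hg
      · intro k f hf
        have h : Q (mo F w) (k • f) + Q (k • f) (mo F w) =
            k • (Q (mo F w) f + Q f (mo F w)) := by
          rw [map_smul, map_smul, LinearMap.smul_apply, smul_add]
        rw [h]
        exact K.smul_mem _ hf
      · intro w'
        exact h2 w w'
  refine Words_ind (F := F) (α := α) (p := fun u => Q u u ∈ K) ?_ ?_ ?_ h1 u
  · rw [map_zero]
    exact K.zero_mem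
  · intro f g hf hg
    have h : Q (f + g) (f + g) = (Q f f + Q g g) + (Q f g + Q g f) := by
      rw [map_add Q, LinearMap.add_apply, map_add, map_add]
      abel
    rw [h]
    exact K.add_mem (K.add_mem hf hg) (h3 f g)
  · intro k f hf
    rw [map_smul Q, LinearMap.smul_apply, map_smul]
    exact K.smul_mem _ (K.smul_mem _ hf)

end Pool.Agent.OB
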