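import Pool.Agent.OB.ActTr
import Pool.Agent.OB.Kill

/-!
# The action depends only on the real value  (module ActK)

`KK` is a two-sided ideal: for `a ∈ PP s₁`, `f ∈ PP s₂` with `evt f = 0` acting as 0:
`Lam (a f) l = Lam a (evt f * l) + Lam a (l * evt f) - Rho f (evt a * l) = 0` (`evt a * l ∈ LF` by `AF_mul_LF`), etc.
(`Lam_mul`, `Rho_mul`; components of products: `comp_mul`).

Instances of the laws. All are linear or quadratic in each argument (`quad_mem`), so it is enough to
consider words: (1) if one of the words contains a letter `t_x` then the whole element (for the quadratic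
arguments: the polarized element) is in `TT x s`, its real value is 0 and `Act_TT` applies. (2) if all words
are honest: alternative laws: the element is `emb p` with `π p = 0` (`Act_hon`, `alt12_R`, `alt23_R`); traces:
`isCT_tr` and `ct_com`, `ct_assoc`; norms, polarized: `isCT_nm` and `ct_com`, `ct_assoc`. On the diagonal
(`w = w'` in the quadratic argument) the multidegree has repetitions, and `V` has none: `memK_hom` is
vacuous. The real values of the instances are 0: `evt_invT`, `isSc_trf`, `isSc_mul_star`.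
-/

set_option autoImplicit false
set_option linter.unusedSectionVars false

namespace Pool.Agent.OB

open FreeNonUnitalNonAssocAlgebra Pool.Agent.H.MP_41922c_al Pool.Agent.Smt

variable {F : Type*} [Field F] {R : Type*} [NonUnitalNonAssocRing R] [Module F R]
  [IsScalarTower F R R] [SMulCommClass F R R]

/-- the elements all whose components have real value 0 and act as 0 -/
noncomputable def KK (π : FA F →ₙₐ[F] R) (V : Multiset ℕ) (β : Multiset ℕ → Fn F →ₗ[F] R)
    (T : ℕ → Fn F →ₗ[F] R) : Submodule F (FB F) where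
  carrier := {f | ∀ s m : Multiset ℕ, s + m = V → evt F (comp F ix s f) = 0 ∧
    ∀ l ∈ LF F m, Lam π V β T (comp F ix s f) l = 0 ∧ Rho π V β T (comp F ix s f) l = 0}
  zero_mem' := fun s m _ => by
    rw [map_zero]
    exact ⟨map_zero _, fun l _ => by rw [map_zero, map_zero]; exact ⟨rfl, rfl⟩⟩
  add_mem' := fun {f g} hf hg s m e => by
    refine ⟨by rw [map_add, map_add, (hf s m e).1, (hg s m e).1, add_zero], fun l hl => ?_⟩
    rw [map_add, map_add, map_add, LinearMap.add_apply, LinearMap.add_apply,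
      ((hf s m e).2 l hl).1, ((hg s m e).2 l hl).1, ((hf s m e).2 l hl).2, ((hg s m e).2 l hl).2]
    exact ⟨add_zero _, add_zero _⟩
  smul_mem' := fun c f hf s m e => by
    refine ⟨by rw [map_smul, map_smul, (hf s m e).1, smul_zero], fun l hl => ?_⟩
    rw [map_smul, map_smul, map_smul, LinearMap.smul_apply, LinearMap.smul_apply,
      ((hf s m e).2 l hl).1, ((hf s m e).2 l hl).2]
    exact ⟨smul_zero _, smul_zero _⟩

variable {π : FA F →ₙₐ[F] R} {V : Multiset ℕ} {β : Multiset ℕ → Fn F →ₗ[F] R}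
  {T : ℕ → Fn F →ₗ[F] R}

theorem memK_hom {s : Multiset ℕ} {f : FB F} (hf : f ∈ PP F ix s)
    (hh : ∀ m : Multiset ℕ, s + m = V → evt F f = 0 ∧
      ∀ l ∈ LF F m, Lam π V β T f l = 0 ∧ Rho π V β T f l = 0) : f ∈ KK π V β T := by
  intro s' m e
  by_cases hs : s = s'
  · subst hs
    rw [comp_of_mem ix hf]
    exact hh m e
  · rw [comp_of_ne ix hf hs, map_zero, map_zero, map_zero]
    exact ⟨rfl, fun l _ => ⟨rfl, rfl⟩⟩

/-- a sum of elements with real value `0` which act as `0` -/
theorem ActK_sum {ι : Type*} (S : Finset ι) (g : ι → FB F) {m : Multiset ℕ}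
    (hg : ∀ i ∈ S, evt F (g i) = 0 ∧
      ∀ l ∈ LF F m, Lam π V β T (g i) l = 0 ∧ Rho π V β T (g i) l = 0) :
    evt F (∑ i ∈ S, g i) = 0 ∧
      ∀ l ∈ LF F m, Lam π V β T (∑ i ∈ S, g i) l = 0 ∧ Rho π V β T (∑ i ∈ S, g i) l = 0 := by
  classical
  induction S using Finset.induction_on with
  | empty =>
    rw [Finset.sum_empty, map_zero, map_zero, map_zero]
    exact ⟨rfl, fun l _ => ⟨rfl, rfl⟩⟩
  | insert i S hi ih =>
    obtain ⟨a1, a2⟩ := hg i (Finset.mem_insert_self i S)
    obtain ⟨b1, b2⟩ := ih fun j hj => hg j (Finset.mem_insert_of_mem hj)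
    rw [Finset.sum_insert hi, map_add, map_add, map_add, a1, b1, add_zero]
    refine ⟨rfl, fun l hl => ?_⟩
    rw [LinearMap.add_apply, LinearMap.add_apply, (a2 l hl).1, (a2 l hl).2, (b2 l hl).1,
      (b2 l hl).2, add_zero]
    exact ⟨rfl, rfl⟩

theorem ActK_sub {s : Multiset ℕ} {S : Finset ℕ} (hS : S ∈ s.toFinset.powerset) :
    S.val ≤ s := by
  rw [Finset.mem_powerset] at hS
  exact (Multiset.le_iff_subset S.nodup).2 fun a ha => Multiset.mem_toFinset.1 (hS ha)

theorem KK_left (h : Ctx π V) (a f : FB F) (hf : f ∈ KK π V β T) : a * f ∈ KK π V β T := by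
  intro s m e
  have hs : s.Nodup := by
    have h1 := h.nodup
    rw [← e, Multiset.nodup_add] at h1
    exact h1.1
  rw [comp_mul ix hs]
  refine ActK_sum _ _ fun S hS => ?_
  have hle := ActK_sub hS
  have e1 : (s - S.val) + (S.val + m) = V := by
    rw [← add_assoc, tsub_add_cancel_of_le hle, e]
  obtain ⟨b1, b2⟩ := hf (s - S.val) (S.val + m) e1
  have hA : evt F (comp F ix S.val a) ∈ AF F S.val := ⟨_, comp_mem ix S.val a, rfl⟩
  refine ⟨by rw [map_mul, b1, mul_zero], fun l hl => ?_⟩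
  have hl1 := AF_mul_LF h.two h.three hA hl
  have hl2 := LF_mul_AF h.two h.three hA hl
  rw [add_comm m] at hl2
  rw [Lam_mul, Rho_mul, b1, zero_mul, mul_zero, map_zero, (b2 _ hl1).2, (b2 _ hl2).2]
  simp

theorem KK_right (h : Ctx π V) (a f : FB F) (hf : f ∈ KK π V β T) : f * a ∈ KK π V β T := by
  intro s m e
  have hs : s.Nodup := by
    have h1 := h.nodup
    rw [← e, Multiset.nodup_add] at h1
    exact h1.1
  rw [comp_mul ix hs]
  refine ActK_sum _ _ fun S hS => ?_
  have hle := ActK_sub hS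
  have e1 : S.val + ((s - S.val) + m) = V := by
    rw [← add_assoc, add_tsub_cancel_of_le hle, e]
  obtain ⟨b1, b2⟩ := hf S.val ((s - S.val) + m) e1
  have hA : evt F (comp F ix (s - S.val) a) ∈ AF F (s - S.val) :=
    ⟨_, comp_mem ix (s - S.val) a, rfl⟩
  refine ⟨by rw [map_mul, b1, zero_mul], fun l hl => ?_⟩
  have hl1 := AF_mul_LF h.two h.three hA hl
  have hl2 := LF_mul_AF h.two h.three hA hl
  rw [add_comm m] at hl2
  rw [Lam_mul, Rho_mul, b1, zero_mul, mul_zero, map_zero, (b2 _ hl1).1,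
    (b2 _ hl2).1]
  simp

/-! ### real values -/

theorem ActK_evt_asc (a b c : FB F) :
    evt F (associator a b c) = associator (evt F a) (evt F b) (evt F c) := by
  simp only [associator, map_sub, map_mul]

theorem ActK_evt_com (a b : FB F) : evt F (com a b) = com (evt F a) (evt F b) := by
  simp only [com, map_sub, map_mul]

theorem ActK_sc_com {a : Fn F} (h : IsSc a) (b : Fn F) : com a b = 0 := by
  rw [com, h.comm, sub_self]

theorem ActK_sc_asc {a : Fn F} (h : IsSc a) (b c : Fn F) : associator a b c = 0 := by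
  rw [associator, (h.assoc b c).1, sub_self]

theorem ActK_fn12 (a b c : Fn F) : associator a b c + associator b a c = 0 := by
  funext v
  show associator (a v) (b v) (c v) + associator (b v) (a v) (c v) = 0
  rw [alt12_oc (a v) (b v) (c v), neg_add_cancel]

theorem ActK_fn23 (a b c : Fn F) : associator a b c + associator a c b = 0 := by
  funext v
  show associator (a v) (b v) (c v) + associator (a v) (c v) (b v) = 0
  rw [alt23_oc (a v) (b v) (c v), neg_add_cancel]

/-! ### multidegrees -/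

theorem ActK_asc_mem {s₁ s₂ s₃ : Multiset ℕ} {a b c : FB F} (ha : a ∈ PP F ix s₁)
    (hb : b ∈ PP F ix s₂) (hc : c ∈ PP F ix s₃) :
    associator a b c ∈ PP F ix (s₁ + s₂ + s₃) := by
  have h1 := PP_mul ix (PP_mul ix ha hb) hc
  have h2 := PP_mul ix ha (PP_mul ix hb hc)
  rw [← add_assoc] at h2
  exact Submodule.sub_mem _ h1 h2

theorem ActK_com_mem {s₁ s₂ : Multiset ℕ} {a b : FB F} (ha : a ∈ PP F ix s₁)
    (hb : b ∈ PP F ix s₂) : com a b ∈ PP F ix (s₁ + s₂) := by
  have h1 := PP_mul ix ha hb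
  have h2 := PP_mul ix hb ha
  rw [add_comm] at h2
  exact Submodule.sub_mem _ h1 h2

theorem ActK_tt2 {x : ℕ} {s₁ s₂ : Multiset ℕ} {a b : FB F} (ha : a ∈ PP F ix s₁)
    (hb : b ∈ PP F ix s₂) (h : a ∈ TT F x s₁ ∨ b ∈ TT F x s₂) : a * b ∈ TT F x (s₁ + s₂) := by
  rcases h with h | h
  · exact (TT_mul h hb).1
  · have h1 := (TT_mul h ha).2
    rw [add_comm] at h1
    exact h1

theorem ActK_ttc {x : ℕ} {s₁ s₂ : Multiset ℕ} {a b : FB F} (ha : a ∈ PP F ix s₁)
    (hb : b ∈ PP F ix s₂) (h : a ∈ TT F x s₁ ∨ b ∈ TT F x s₂) : com a b ∈ TT F x (s₁ + s₂) := by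
  have h1 := ActK_tt2 ha hb h
  have h2 := ActK_tt2 hb ha h.symm
  rw [add_comm] at h2
  exact Submodule.sub_mem _ h1 h2

theorem ActK_tta {x : ℕ} {s₁ s₂ s₃ : Multiset ℕ} {a b c : FB F} (ha : a ∈ PP F ix s₁)
    (hb : b ∈ PP F ix s₂) (hc : c ∈ PP F ix s₃)
    (h : a ∈ TT F x s₁ ∨ b ∈ TT F x s₂ ∨ c ∈ TT F x s₃) :
    associator a b c ∈ TT F x (s₁ + s₂ + s₃) := by
  have h1 : (a * b) * c ∈ TT F x (s₁ + s₂ + s₃) := by
    refine ActK_tt2 (PP_mul ix ha hb) hc ?_
    rcases h with h | h | h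
    · exact Or.inl (ActK_tt2 ha hb (Or.inl h))
    · exact Or.inl (ActK_tt2 ha hb (Or.inr h))
    · exact Or.inr h
  have h2 : a * (b * c) ∈ TT F x (s₁ + (s₂ + s₃)) := by
    refine ActK_tt2 ha (PP_mul ix hb hc) ?_
    rcases h with h | h | h
    · exact Or.inl h
    · exact Or.inr (ActK_tt2 hb hc (Or.inl h))
    · exact Or.inr (ActK_tt2 hb hc (Or.inr h))
  rw [← add_assoc] at h2
  exact Submodule.sub_mem _ h1 h2

theorem ActK_cases (w : FreeMagma (ℕ ⊕ ℕ)) : (∃ x, mo F w ∈ TT F x (lets ix w)) ∨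
    ∃ u : FreeMagma ℕ, mo F w = emb F (mo F u) ∧ lets id u = lets ix w := by
  rcases word_cases (F := F) w with ⟨x, hx⟩ | h
  · exact Or.inl ⟨x, mo_mem_TT hx⟩
  · exact Or.inr h

theorem ActK_mem (h : Ctx π V) (hβ : IsBeta π V β) (hT : IsTT π V β T) {s : Multiset ℕ}
    {z : FB F} (hz : z ∈ PP F ix s) (h0 : evt F z = 0)
    (hc : (∃ x, z ∈ TT F x s) ∨ ∀ m : Multiset ℕ, s + m = V → ∀ l ∈ LF F m,
      Lam π V β T z l = 0 ∧ Rho π V β T z l = 0) : z ∈ KK π V β T := by
  refine memK_hom hz fun m e => ⟨h0, ?_⟩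
  rcases hc with ⟨x, hx⟩ | hc
  · exact fun l hl => Act_TT h hβ hT e hx h0 hl
  · exact hc m e

theorem ActK_rep (h : Ctx π V) (w : FreeMagma (ℕ ⊕ ℕ)) {s : Multiset ℕ} {z : FB F}
    (hz : z ∈ PP F ix (lets ix w + lets ix w + s)) : z ∈ KK π V β T := by
  refine memK_hom hz fun m e => ?_
  exfalso
  have h1 := h.nodup
  rw [← e, Multiset.nodup_add, Multiset.nodup_add, Multiset.nodup_add] at h1
  obtain ⟨a, ha⟩ := Multiset.exists_mem_of_ne_zero (lets_ne ix w)
  exact (Multiset.disjoint_left.1 h1.1.1.2.2) ha ha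

/-- linear maps: words are enough -/
theorem ActK_lin {K : Submodule F (FB F)} {φ : FB F → FB F}
    (ha : ∀ f g, φ (f + g) = φ f + φ g) (hs : ∀ (k : F) f, φ (k • f) = k • φ f)
    (h : ∀ w, φ (mo F w) ∈ K) (f : FB F) : φ f ∈ K := by
  have h0 : φ 0 = 0 := by
    have h1 := hs 0 0
    rwa [zero_smul, zero_smul] at h1
  refine Words_ind (F := F) (p := fun f => φ f ∈ K) ?_ ?_ ?_ h f
  · show φ 0 ∈ K
    rw [h0]
    exact K.zero_mem
  · intro f g hf hg
    show φ (f + g) ∈ K
    rw [ha]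
    exact K.add_mem hf hg
  · intro k f hf
    show φ (k • f) ∈ K
    rw [hs]
    exact K.smul_mem _ hf

theorem ActK_a1 (a a' b c : FB F) :
    associator (a + a') b c = associator a b c + associator a' b c := by
  simp only [associator, add_mul]
  abel

theorem ActK_a2 (a b b' c : FB F) :
    associator a (b + b') c = associator a b c + associator a b' c := by
  simp only [associator, add_mul, mul_add]
  abel

theorem ActK_a3 (a b c c' : FB F) :
    associator a b (c + c') = associator a b c + associator a b c' := by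
  simp only [associator, mul_add]
  abel

theorem ActK_s1 (k : F) (a b c : FB F) : associator (k • a) b c = k • associator a b c := by
  simp only [associator, smul_mul_assoc, smul_sub]

theorem ActK_s2 (k : F) (a b c : FB F) : associator a (k • b) c = k • associator a b c := by
  simp only [associator, smul_mul_assoc, mul_smul_comm, smul_sub]

theorem ActK_s3 (k : F) (a b c : FB F) : associator a b (k • c) = k • associator a b c := by
  simp only [associator, mul_smul_comm, smul_sub]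

theorem ActK_c1 (a a' b : FB F) : com (a + a') b = com a b + com a' b := by
  simp only [com, add_mul, mul_add]
  abel

theorem ActK_c2 (a b b' : FB F) : com a (b + b') = com a b + com a b' := by
  simp only [com, add_mul, mul_add]
  abel

theorem ActK_cs1 (k : F) (a b : FB F) : com (k • a) b = k • com a b := by
  simp only [com, smul_mul_assoc, mul_smul_comm, smul_sub]

theorem ActK_cs2 (k : F) (a b : FB F) : com a (k • b) = k • com a b := by
  simp only [com, smul_mul_assoc, mul_smul_comm, smul_sub]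

/-- quadratic maps -/
theorem ActK_quad {K : Submodule F (FB F)} {Q : FB F → FB F → FB F}
    (a1 : ∀ f f' g, Q (f + f') g = Q f g + Q f' g) (s1 : ∀ (k : F) f g, Q (k • f) g = k • Q f g)
    (a2 : ∀ f g g', Q f (g + g') = Q f g + Q f g') (s2 : ∀ (k : F) f g, Q f (k • g) = k • Q f g)
    (h1 : ∀ w, Q (mo F w) (mo F w) ∈ K)
    (h2 : ∀ w w', Q (mo F w) (mo F w') + Q (mo F w') (mo F w) ∈ K) (u : FB F) : Q u u ∈ K :=
  quad_mem K (LinearMap.mk₂ F Q a1 s1 a2 s2) h1 h2 u

section laws

variable (h : Ctx π V) (hβ : IsBeta π V β) (hT : IsTT π V β T)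
include h hβ hT

theorem ActK_altL_w (w w' v : FreeMagma (ℕ ⊕ ℕ)) :
    associator (mo F w) (mo F w') (mo F v) + associator (mo F w') (mo F w) (mo F v) ∈
      KK π V β T := by
  have e1 : lets ix w' + lets ix w + lets ix v = lets ix w + lets ix w' + lets ix v := by
    rw [add_comm (lets ix w')]
  have m1 : mo F w ∈ PP F ix (lets ix w) := mo_mem ix w
  have m2 : mo F w' ∈ PP F ix (lets ix w') := mo_mem ix w'
  have m3 : mo F v ∈ PP F ix (lets ix v) := mo_mem ix v
  have hm := ActK_asc_mem m1 m2 m3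
  have hm' := ActK_asc_mem m2 m1 m3
  rw [e1] at hm'
  have tt : ∀ x, (mo F w ∈ TT F x (lets ix w) ∨ mo F w' ∈ TT F x (lets ix w') ∨
      mo F v ∈ TT F x (lets ix v)) →
      associator (mo F w) (mo F w') (mo F v) + associator (mo F w') (mo F w) (mo F v) ∈
        TT F x (lets ix w + lets ix w' + lets ix v) := by
    intro x hx
    have t1 := ActK_tta m1 m2 m3 hx
    have t2 := ActK_tta m2 m1 m3 (x := x) (by tauto)
    rw [e1] at t2
    exact Submodule.add_mem _ t1 t2
  refine ActK_mem h hβ hT (Submodule.add_mem _ hm hm') ?_ ?_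
  · rw [map_add, ActK_evt_asc, ActK_evt_asc, ActK_fn12]
  · rcases ActK_cases (F := F) w with ⟨x, hx⟩ | ⟨a, ha, ha'⟩
    · exact Or.inl ⟨x, tt x (Or.inl hx)⟩
    rcases ActK_cases (F := F) w' with ⟨x, hx⟩ | ⟨b, hb, hb'⟩
    · exact Or.inl ⟨x, tt x (Or.inr (Or.inl hx))⟩
    rcases ActK_cases (F := F) v with ⟨x, hx⟩ | ⟨c, hc, hc'⟩
    · exact Or.inl ⟨x, tt x (Or.inr (Or.inr hx))⟩
    refine Or.inr fun m e l hl => ?_
    rw [← ha', ← hb', ← hc'] at e
    have hp : associator (mo F a) (mo F b) (mo F c) + associator (mo F b) (mo F a) (mo F c) ∈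
        P F (lets id a + lets id b + lets id c) := by
      have q1 := PP_mul id (PP_mul id (mo_mem (F := F) id a) (mo_mem id b)) (mo_mem id c)
      have q2 := PP_mul id (mo_mem (F := F) id a) (PP_mul id (mo_mem id b) (mo_mem id c))
      have q3 := PP_mul id (PP_mul id (mo_mem (F := F) id b) (mo_mem id a)) (mo_mem id c)
      have q4 := PP_mul id (mo_mem (F := F) id b) (PP_mul id (mo_mem id a) (mo_mem id c))
      rw [← add_assoc] at q2 q4
      rw [add_comm (lets id b) (lets id a)] at q3 q4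
      exact Submodule.add_mem _ (Submodule.sub_mem _ q1 q2) (Submodule.sub_mem _ q3 q4)
    have hz : associator (mo F w) (mo F w') (mo F v) + associator (mo F w') (mo F w) (mo F v) =
        emb F (associator (mo F a) (mo F b) (mo F c) + associator (mo F b) (mo F a) (mo F c)) := by
      rw [ha, hb, hc]
      simp only [associator, map_add, map_sub, map_mul]
    have hp0 : π (associator (mo F a) (mo F b) (mo F c) +
        associator (mo F b) (mo F a) (mo F c)) = 0 := by
      have q := alt12_R h.sat (π (mo F a)) (π (mo F b)) (π (mo F c))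
      simp only [associator, map_add, map_sub, map_mul] at q ⊢
      rw [q, neg_add_cancel]
    have q := Act_hon (T := T) h hβ e hp hl
    rw [hz, q.1, q.2, hp0, zero_mul, mul_zero]
    exact ⟨rfl, rfl⟩

theorem ActK_altR_w (w w' v : FreeMagma (ℕ ⊕ ℕ)) :
    associator (mo F v) (mo F w) (mo F w') + associator (mo F v) (mo F w') (mo F w) ∈
      KK π V β T := by
  have e1 : lets ix v + lets ix w' + lets ix w = lets ix v + lets ix w + lets ix w' := by
    rw [add_right_comm]
  have m1 : mo F w ∈ PP F ix (lets ix w) := mo_mem ix w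
  have m2 : mo F w' ∈ PP F ix (lets ix w') := mo_mem ix w'
  have m3 : mo F v ∈ PP F ix (lets ix v) := mo_mem ix v
  have hm := ActK_asc_mem m3 m1 m2
  have hm' := ActK_asc_mem m3 m2 m1
  rw [e1] at hm'
  have tt : ∀ x, (mo F v ∈ TT F x (lets ix v) ∨ mo F w ∈ TT F x (lets ix w) ∨
      mo F w' ∈ TT F x (lets ix w')) →
      associator (mo F v) (mo F w) (mo F w') + associator (mo F v) (mo F w') (mo F w) ∈
        TT F x (lets ix v + lets ix w + lets ix w') := by
    intro x hx
    have t1 := ActK_tta m3 m1 m2 hx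
    have t2 := ActK_tta m3 m2 m1 (x := x) (by tauto)
    rw [e1] at t2
    exact Submodule.add_mem _ t1 t2
  refine ActK_mem h hβ hT (Submodule.add_mem _ hm hm') ?_ ?_
  · rw [map_add, ActK_evt_asc, ActK_evt_asc, ActK_fn23]
  · rcases ActK_cases (F := F) w with ⟨x, hx⟩ | ⟨a, ha, ha'⟩
    · exact Or.inl ⟨x, tt x (Or.inr (Or.inl hx))⟩
    rcases ActK_cases (F := F) w' with ⟨x, hx⟩ | ⟨b, hb, hb'⟩
    · exact Or.inl ⟨x, tt x (Or.inr (Or.inr hx))⟩
    rcases ActK_cases (F := F) v with ⟨x, hx⟩ | ⟨c, hc, hc'⟩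
    · exact Or.inl ⟨x, tt x (Or.inl hx)⟩
    refine Or.inr fun m e l hl => ?_
    rw [← ha', ← hb', ← hc'] at e
    have hp : associator (mo F c) (mo F a) (mo F b) + associator (mo F c) (mo F b) (mo F a) ∈
        P F (lets id c + lets id a + lets id b) := by
      have q1 := PP_mul id (PP_mul id (mo_mem (F := F) id c) (mo_mem id a)) (mo_mem id b)
      have q2 := PP_mul id (mo_mem (F := F) id c) (PP_mul id (mo_mem id a) (mo_mem id b))
      have q3 := PP_mul id (PP_mul id (mo_mem (F := F) id c) (mo_mem id b)) (mo_mem id a)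
      have q4 := PP_mul id (mo_mem (F := F) id c) (PP_mul id (mo_mem id b) (mo_mem id a))
      rw [← add_assoc] at q2 q4
      rw [add_right_comm] at q3 q4
      exact Submodule.add_mem _ (Submodule.sub_mem _ q1 q2) (Submodule.sub_mem _ q3 q4)
    have hz : associator (mo F v) (mo F w) (mo F w') + associator (mo F v) (mo F w') (mo F w) =
        emb F (associator (mo F c) (mo F a) (mo F b) + associator (mo F c) (mo F b) (mo F a)) := by
      rw [ha, hb, hc]
      simp only [associator, map_add, map_sub, map_mul]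
    have hp0 : π (associator (mo F c) (mo F a) (mo F b) +
        associator (mo F c) (mo F b) (mo F a)) = 0 := by
      have q := alt23_R h.sat (π (mo F c)) (π (mo F a)) (π (mo F b))
      simp only [associator, map_add, map_sub, map_mul] at q ⊢
      rw [q, neg_add_cancel]
    have q := Act_hon (T := T) h hβ e hp hl
    rw [hz, q.1, q.2, hp0, zero_mul, mul_zero]
    exact ⟨rfl, rfl⟩

theorem ActK_trC_w (w v : FreeMagma (ℕ ⊕ ℕ)) :
    com (mo F w + invT (mo F w)) (mo F v) ∈ KK π V β T := by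
  have m1 : mo F w ∈ PP F ix (lets ix w) := mo_mem ix w
  have m2 : mo F v ∈ PP F ix (lets ix v) := mo_mem ix v
  have m3 := Submodule.add_mem _ m1 (invT_mem m1)
  refine ActK_mem h hβ hT (ActK_com_mem m3 m2) ?_ ?_
  · rw [ActK_evt_com, map_add, evt_invT]
    exact ActK_sc_com (isSc_trf _) _
  · rcases ActK_cases (F := F) w with ⟨x, hx⟩ | ⟨a, ha, ha'⟩
    · exact Or.inl ⟨x, ActK_ttc m3 m2 (Or.inl (Submodule.add_mem _ hx (TT_inv hx)))⟩
    rcases ActK_cases (F := F) v with ⟨x, hx⟩ | ⟨b, hb, hb'⟩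
    · exact Or.inl ⟨x, ActK_ttc m3 m2 (Or.inr hx)⟩
    refine Or.inr fun m e l hl => ?_
    rw [← ha', ← hb'] at e
    rw [ha, hb]
    exact ct_com h hβ (isCT_tr h hβ hT a) b e hl

theorem ActK_trA_w (w v v' : FreeMagma (ℕ ⊕ ℕ)) :
    associator (mo F w + invT (mo F w)) (mo F v) (mo F v') ∈ KK π V β T := by
  have m1 : mo F w ∈ PP F ix (lets ix w) := mo_mem ix w
  have m2 : mo F v ∈ PP F ix (lets ix v) := mo_mem ix v
  have m4 : mo F v' ∈ PP F ix (lets ix v') := mo_mem ix v'
  have m3 := Submodule.add_mem _ m1 (invT_mem m1)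
  refine ActK_mem h hβ hT (ActK_asc_mem m3 m2 m4) ?_ ?_
  · rw [ActK_evt_asc, map_add, evt_invT]
    exact ActK_sc_asc (isSc_trf _) _ _
  · rcases ActK_cases (F := F) w with ⟨x, hx⟩ | ⟨a, ha, ha'⟩
    · exact Or.inl ⟨x, ActK_tta m3 m2 m4 (Or.inl (Submodule.add_mem _ hx (TT_inv hx)))⟩
    rcases ActK_cases (F := F) v with ⟨x, hx⟩ | ⟨b, hb, hb'⟩
    · exact Or.inl ⟨x, ActK_tta m3 m2 m4 (Or.inr (Or.inl hx))⟩
    rcases ActK_cases (F := F) v' with ⟨x, hx⟩ | ⟨c, hc, hc'⟩
    · exact Or.inl ⟨x, ActK_tta m3 m2 m4 (Or.inr (Or.inr hx))⟩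
    refine Or.inr fun m e l hl => ?_
    rw [← ha', ← hb', ← hc'] at e
    rw [ha, hb, hc]
    exact ct_assoc h hβ (isCT_tr h hβ hT a) b c e hl

omit h hβ hT in
theorem ActK_nm_mem {w w' : FreeMagma (ℕ ⊕ ℕ)} :
    mo F w * invT (mo F w') + mo F w' * invT (mo F w) ∈ PP F ix (lets ix w + lets ix w') := by
  have m1 : mo F w ∈ PP F ix (lets ix w) := mo_mem ix w
  have m2 : mo F w' ∈ PP F ix (lets ix w') := mo_mem ix w'
  have m3 := PP_mul ix m2 (invT_mem m1)
  rw [add_comm] at m3
  exact Submodule.add_mem _ (PP_mul ix m1 (invT_mem m2)) m3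

omit h hβ hT in
theorem ActK_nm_tt {w w' : FreeMagma (ℕ ⊕ ℕ)} {x : ℕ}
    (hx : mo F w ∈ TT F x (lets ix w) ∨ mo F w' ∈ TT F x (lets ix w')) :
    mo F w * invT (mo F w') + mo F w' * invT (mo F w) ∈ TT F x (lets ix w + lets ix w') := by
  have m1 : mo F w ∈ PP F ix (lets ix w) := mo_mem ix w
  have m2 : mo F w' ∈ PP F ix (lets ix w') := mo_mem ix w'
  have t1 : mo F w * invT (mo F w') ∈ TT F x (lets ix w + lets ix w') :=
    ActK_tt2 m1 (invT_mem m2) (hx.imp_right TT_inv)
  have t2 : mo F w' * invT (mo F w) ∈ TT F x (lets ix w' + lets ix w) :=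
    ActK_tt2 m2 (invT_mem m1) (hx.symm.imp_right TT_inv)
  rw [add_comm] at t2
  exact Submodule.add_mem _ t1 t2

theorem ActK_nmC_w (w w' v : FreeMagma (ℕ ⊕ ℕ)) :
    com (mo F w * invT (mo F w') + mo F w' * invT (mo F w)) (mo F v) ∈ KK π V β T := by
  have m2 : mo F v ∈ PP F ix (lets ix v) := mo_mem ix v
  have m3 := ActK_nm_mem (F := F) (w := w) (w' := w')
  refine ActK_mem h hβ hT (ActK_com_mem m3 m2) ?_ ?_
  · rw [ActK_evt_com, map_add, map_mul, map_mul, evt_invT, evt_invT]
    exact ActK_sc_com (isSc_mul_star _ _) _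
  · rcases ActK_cases (F := F) w with ⟨x, hx⟩ | ⟨a, ha, ha'⟩
    · exact Or.inl ⟨x, ActK_ttc m3 m2 (Or.inl (ActK_nm_tt (Or.inl hx)))⟩
    rcases ActK_cases (F := F) w' with ⟨x, hx⟩ | ⟨c, hc, hc'⟩
    · exact Or.inl ⟨x, ActK_ttc m3 m2 (Or.inl (ActK_nm_tt (Or.inr hx)))⟩
    rcases ActK_cases (F := F) v with ⟨x, hx⟩ | ⟨b, hb, hb'⟩
    · exact Or.inl ⟨x, ActK_ttc m3 m2 (Or.inr hx)⟩
    refine Or.inr fun m e l hl => ?_
    rw [← ha', ← hb', ← hc'] at e
    rw [ha, hb, hc]
    exact ct_com h hβ (isCT_nm h hβ hT a c) b e hl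

theorem ActK_nmA_w (w w' v v' : FreeMagma (ℕ ⊕ ℕ)) :
    associator (mo F w * invT (mo F w') + mo F w' * invT (mo F w)) (mo F v) (mo F v') ∈
      KK π V β T := by
  have m2 : mo F v ∈ PP F ix (lets ix v) := mo_mem ix v
  have m4 : mo F v' ∈ PP F ix (lets ix v') := mo_mem ix v'
  have m3 := ActK_nm_mem (F := F) (w := w) (w' := w')
  refine ActK_mem h hβ hT (ActK_asc_mem m3 m2 m4) ?_ ?_
  · rw [ActK_evt_asc, map_add, map_mul, map_mul, evt_invT, evt_invT]
    exact ActK_sc_asc (isSc_mul_star _ _) _ _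
  · rcases ActK_cases (F := F) w with ⟨x, hx⟩ | ⟨a, ha, ha'⟩
    · exact Or.inl ⟨x, ActK_tta m3 m2 m4 (Or.inl (ActK_nm_tt (Or.inl hx)))⟩
    rcases ActK_cases (F := F) w' with ⟨x, hx⟩ | ⟨c, hc, hc'⟩
    · exact Or.inl ⟨x, ActK_tta m3 m2 m4 (Or.inl (ActK_nm_tt (Or.inr hx)))⟩
    rcases ActK_cases (F := F) v with ⟨x, hx⟩ | ⟨b, hb, hb'⟩
    · exact Or.inl ⟨x, ActK_tta m3 m2 m4 (Or.inr (Or.inl hx))⟩
    rcases ActK_cases (F := F) v' with ⟨x, hx⟩ | ⟨d, hd, hd'⟩
    · exact Or.inl ⟨x, ActK_tta m3 m2 m4 (Or.inr (Or.inr hx))⟩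
    refine Or.inr fun m e l hl => ?_
    rw [← ha', ← hb', ← hc', ← hd'] at e
    rw [ha, hb, hc, hd]
    exact ct_assoc h hβ (isCT_nm h hβ hT a c) b d e hl

end laws

theorem KK_laws (h : Ctx π V) (hβ : IsBeta π V β) (hT : IsTT π V β T) :
    Laws (KK π V β T) invT where
  left a f hf := KK_left h a f hf
  right a f hf := KK_right h a f hf
  altL u v := by
    refine ActK_lin (φ := fun v => associator u u v) (fun f g => ActK_a3 _ _ _ _)
      (fun k f => ActK_s3 _ _ _ _) (fun v => ?_) v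
    refine ActK_quad (Q := fun a b => associator a b (mo F v)) (fun _ _ _ => ActK_a1 _ _ _ _)
      (fun _ _ _ => ActK_s1 _ _ _ _) (fun _ _ _ => ActK_a2 _ _ _ _)
      (fun _ _ _ => ActK_s2 _ _ _ _) (fun w => ?_) (fun w w' => ActK_altL_w h hβ hT w w' v) u
    exact ActK_rep h w (ActK_asc_mem (mo_mem ix w) (mo_mem ix w) (mo_mem ix v))
  altR u v := by
    refine ActK_lin (φ := fun v => associator v u u) (fun f g => ActK_a1 _ _ _ _)
      (fun k f => ActK_s1 _ _ _ _) (fun v => ?_) v
    refine ActK_quad (Q := fun a b => associator (mo F v) a b) (fun _ _ _ => ActK_a2 _ _ _ _)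
      (fun _ _ _ => ActK_s2 _ _ _ _) (fun _ _ _ => ActK_a3 _ _ _ _)
      (fun _ _ _ => ActK_s3 _ _ _ _) (fun w => ?_) (fun w w' => ActK_altR_w h hβ hT w w' v) u
    have h1 := ActK_asc_mem (mo_mem (F := F) ix v) (mo_mem ix w) (mo_mem ix w)
    rw [add_assoc, add_comm] at h1
    exact ActK_rep h w h1
  trC u v := by
    refine ActK_lin (φ := fun v => com (u + invT u) v) (fun f g => ActK_c2 _ _ _)
      (fun k f => ActK_cs2 _ _ _) (fun v => ?_) v
    refine ActK_lin (φ := fun u => com (u + invT u) (mo F v))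
      (fun f g => ?_) (fun k f => ?_) (fun w => ActK_trC_w h hβ hT w v) u
    · show com (f + g + invT (f + g)) (mo F v) = _
      rw [invT_add, ← ActK_c1]
      congr 1
      abel
    · show com (k • f + invT (k • f)) (mo F v) = _
      rw [invT_smul, ← smul_add, ActK_cs1]
  trA u v w := by
    refine ActK_lin (φ := fun w => associator (u + invT u) v w) (fun f g => ActK_a3 _ _ _ _)
      (fun k f => ActK_s3 _ _ _ _) (fun w => ?_) w
    refine ActK_lin (φ := fun v => associator (u + invT u) v (mo F w))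
      (fun f g => ActK_a2 _ _ _ _) (fun k f => ActK_s2 _ _ _ _) (fun v => ?_) v
    refine ActK_lin (φ := fun u => associator (u + invT u) (mo F v) (mo F w))
      (fun f g => ?_) (fun k f => ?_) (fun u => ActK_trA_w h hβ hT u v w) u
    · show associator (f + g + invT (f + g)) (mo F v) (mo F w) = _
      rw [invT_add, ← ActK_a1]
      congr 1
      abel
    · show associator (k • f + invT (k • f)) (mo F v) (mo F w) = _
      rw [invT_smul, ← smul_add, ActK_s1]
  nmC u v := by
    refine ActK_lin (φ := fun v => com (u * invT u) v) (fun f g => ActK_c2 _ _ _)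
      (fun k f => ActK_cs2 _ _ _) (fun v => ?_) v
    refine ActK_quad (Q := fun a b => com (a * invT b) (mo F v)) (fun a a' b => ?_)
      (fun k a b => ?_) (fun a b b' => ?_) (fun k a b => ?_) (fun w => ?_) (fun w w' => ?_) u
    · show com ((a + a') * invT b) (mo F v) = _
      rw [add_mul, ActK_c1]
    · show com ((k • a) * invT b) (mo F v) = _
      rw [smul_mul_assoc, ActK_cs1]
    · show com (a * invT (b + b')) (mo F v) = _
      rw [invT_add, mul_add, ActK_c1]
    · show com (a * invT (k • b)) (mo F v) = _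
      rw [invT_smul, mul_smul_comm, ActK_cs1]
    · exact ActK_rep h w (ActK_com_mem (PP_mul ix (mo_mem ix w) (invT_mem (mo_mem ix w)))
        (mo_mem ix v))
    · rw [← ActK_c1]
      exact ActK_nmC_w h hβ hT w w' v
  nmA u v w := by
    refine ActK_lin (φ := fun w => associator (u * invT u) v w) (fun f g => ActK_a3 _ _ _ _)
      (fun k f => ActK_s3 _ _ _ _) (fun w => ?_) w
    refine ActK_lin (φ := fun v => associator (u * invT u) v (mo F w))
      (fun f g => ActK_a2 _ _ _ _) (fun k f => ActK_s2 _ _ _ _) (fun v => ?_) v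
    refine ActK_quad (Q := fun a b => associator (a * invT b) (mo F v) (mo F w))
      (fun a a' b => ?_) (fun k a b => ?_) (fun a b b' => ?_) (fun k a b => ?_) (fun u => ?_)
      (fun u u' => ?_) u
    · show associator ((a + a') * invT b) (mo F v) (mo F w) = _
      rw [add_mul, ActK_a1]
    · show associator ((k • a) * invT b) (mo F v) (mo F w) = _
      rw [smul_mul_assoc, ActK_s1]
    · show associator (a * invT (b + b')) (mo F v) (mo F w) = _
      rw [invT_add, mul_add, ActK_a1]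
    · show associator (a * invT (k • b)) (mo F v) (mo F w) = _
      rw [invT_smul, mul_smul_comm, ActK_s1]
    · have h1 := ActK_asc_mem (PP_mul ix (mo_mem (F := F) ix u) (invT_mem (mo_mem ix u)))
        (mo_mem ix v) (mo_mem ix w)
      rw [add_assoc (lets ix u + lets ix u)] at h1
      exact ActK_rep h u h1
    · rw [← ActK_a1]
      exact ActK_nmA_w h hβ hT u u' v w

theorem act_zero [Infinite F] (h : Ctx π V) (hβ : IsBeta π V β) (hT : IsTT π V β T)
    {s m : Multiset ℕ} (e : s + m = V) {f : FB F} (hf : f ∈ PP F ix s) (h0 : evt F f = 0)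
    {l : Fn F} (hl : l ∈ LF F m) : Lam π V β T f l = 0 ∧ Rho π V β T f l = 0 := by
  have h1 : f ∈ KK π V β T := killT (KK_laws h hβ hT) h0
  have h2 := (h1 s m e).2 l hl
  rwa [comp_of_mem ix hf] at h2

end Pool.Agent.OB
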