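import Pool.Agent.OB.RealL

/-!
# Scalar functions in `LF` are central in `R`  (module Scal)

`G3 u a b c d` (`= 6 t(u) ([a, b] ∘ [c, d])` in `O`) commutes and associates with everything in `R`
(identities of degree at most 7, proved like `f3_comm_R`, `f3_assoc_R` in the module Ids).

A scalar `z ∈ LF m` is `1/2 (z + star z)`; write `z` as a combination of real values of forms; for a form
`f`: `f + star f` is `0` (F1), `-F3 a r b c` (F2: `r F1 a b c`; `star (r v) = - v (t(r) - r)` and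
`t(r) v = com a (jor r (com b c))`), `2 F3` (F3), `1/6 G3 r a b c d` (F4).
-/

set_option autoImplicit false
set_option linter.unusedSectionVars false

namespace Pool.Agent.OB

open FreeNonUnitalNonAssocAlgebra Pool.Agent.H.MP_41922c_al Pool.Agent.Smt

variable {F : Type*} [Field F] {R : Type*} [NonUnitalNonAssocRing R] [Module F R]
  [IsScalarTower F R R] [SMulCommClass F R R]

/-- `z` commutes and associates with everything -/
def IsCen (z : R) : Prop := ∀ r s : R, z * r = r * z ∧ associator z r s = 0 ∧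
  associator r z s = 0 ∧ associator r s z = 0

theorem IsCen.add {z z' : R} (h : IsCen z) (h' : IsCen z') : IsCen (z + z') := by
  intro r s
  obtain ⟨a1, a2, a3, a4⟩ := h r s
  obtain ⟨b1, b2, b3, b4⟩ := h' r s
  rw [associator_apply] at a2 a3 a4 b2 b3 b4
  refine ⟨?_, ?_, ?_, ?_⟩
  · rw [add_mul, mul_add, a1, b1]
  · rw [associator_apply, add_mul, add_mul, add_mul]
    linear_combination (norm := abel) a2 + b2
  · rw [associator_apply, mul_add, add_mul, add_mul, mul_add]
    linear_combination (norm := abel) a3 + b3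
  · rw [associator_apply, mul_add, mul_add, mul_add]
    linear_combination (norm := abel) a4 + b4

theorem IsCen.smul (c : F) {z : R} (h : IsCen z) : IsCen (c • z) := by
  intro r s
  obtain ⟨a1, a2, a3, a4⟩ := h r s
  rw [associator_apply] at a2 a3 a4
  refine ⟨?_, ?_, ?_, ?_⟩
  · rw [smul_mul_assoc, mul_smul_comm, a1]
  · rw [associator_apply, smul_mul_assoc, smul_mul_assoc, smul_mul_assoc, ← smul_sub, a2, smul_zero]
  · rw [associator_apply, mul_smul_comm, smul_mul_assoc, smul_mul_assoc, mul_smul_comm, ← smul_sub,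
      a3, smul_zero]
  · rw [associator_apply, mul_smul_comm, mul_smul_comm, mul_smul_comm, ← smul_sub, a4, smul_zero]

theorem isCen_F3 (hR : Sat F 9 R) (a b c d : R) : IsCen (F3 a b c d) := by
  intro r s
  obtain ⟨h1, h2, h3⟩ := f3_assoc_R hR a b c d r s
  exact ⟨f3_comm_R hR a b c d r, h1, h2, h3⟩

private theorem Scal_G3 {A : Type*} [NonUnitalNonAssocRing A] [Module F A] (φ : FA F →ₙₐ[F] A)
    (u a b c d : FA F) : φ (G3 u a b c d) = G3 (φ u) (φ a) (φ b) (φ c) (φ d) := by
  simp only [G3, lam12, Ids_jor, Ids_com, Ids_ass, map_sub, map_add, map_neg, map_nsmul]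

private theorem Scal_mem5 {m : Multiset ℕ} {u a b c d : FA F} {m₀ m₁ m₂ m₃ m₄ : Multiset ℕ}
    (hu : u ∈ P F m₀) (ha : a ∈ P F m₁) (hb : b ∈ P F m₂) (hc : c ∈ P F m₃) (hd : d ∈ P F m₄)
    (h : m₀ + m₁ + m₂ + m₃ + m₄ = m) : G3 u a b c d ∈ P F m := by
  have L : ∀ {x y z t : FA F} {n₁ n₂ n₃ n₄ : Multiset ℕ}, x ∈ P F n₁ → y ∈ P F n₂ → z ∈ P F n₃ →
      t ∈ P F n₄ → n₁ + n₂ + n₃ + n₄ = m → com x (associator y z t) ∈ P F m := by
    intro x y z t n₁ n₂ n₃ n₄ hx hy hz ht e
    exact Ids_cast (Ids_com_mem hx (Ids_ass_mem hy hz ht)) (by rw [← e]; abel)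
  have K : ∀ {x y z t : FA F} {n₁ n₂ n₃ n₄ : Multiset ℕ}, x ∈ P F n₁ → y ∈ P F n₂ → z ∈ P F n₃ →
      t ∈ P F n₄ → n₁ + n₂ + n₃ + n₄ = m → com (com x y) (com z t) ∈ P F m := by
    intro x y z t n₁ n₂ n₃ n₄ hx hy hz ht e
    exact Ids_cast (Ids_com_mem (Ids_com_mem hx hy) (Ids_com_mem hz ht)) (by rw [← e]; abel)
  have hab : com a b ∈ P F (m₁ + m₂) := Ids_com_mem ha hb
  unfold G3 lam12
  refine sub_mem (nsmul_mem (Ids_cast (Ids_jor_mem hab (Ids_jor_mem hu (Ids_com_mem hc hd)))
    (by rw [← h]; abel)) _) (add_mem (sub_mem (neg_mem (nsmul_mem ?_ _)) (nsmul_mem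
      (add_mem (add_mem ?_ ?_) ?_) _)) (nsmul_mem (add_mem (add_mem ?_ ?_) ?_) _))
  · exact L hab hu hc hd (by rw [← h]; abel)
  · exact L hu hc hd hab (by rw [← h]; abel)
  · exact L hc hd hu hab (by rw [← h]; abel)
  · exact L hd hu hc hab (by rw [← h]; abel)
  · exact K hu hc hd hab (by rw [← h]; abel)
  · exact K hc hd hu hab (by rw [← h]; abel)
  · exact K hd hu hc hab (by rw [← h]; abel)

private theorem Scal_G3_oc (u a b c d : Oc F) :
    G3 u a b c d = ((6 * tt u) * tt (com a b * com c d)) • (1 : Oc F) := by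
  rw [g3_oc, f3_scalar, smul_smul]

theorem isCen_G3 (hR : Sat F 9 R) (u a b c d : R) : IsCen (G3 u a b c d) := by
  intro e f
  have c5 : G3 (of F 4) (of F 0) (of F 1) (of F 2) (of F 3) ∈
      P F (({0} + {1} + {2} + {3} + {4} : Multiset ℕ)) :=
    Scal_mem5 (Ids_of 4) (Ids_of 0) (Ids_of 1) (Ids_of 2) (Ids_of 3) (by decide)
  have h0 := Ids_sub hR (m := ({0} + {1} + {2} + {3} + {4}) + {5}) (by decide) (by decide)
    (f := G3 (of F 4) (of F 0) (of F 1) (of F 2) (of F 3) * of F 5)
    (g := of F 5 * G3 (of F 4) (of F 0) (of F 1) (of F 2) (of F 3))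
    (PP_mul id c5 (Ids_of 5)) (Ids_cast (PP_mul id (Ids_of 5) c5) (by decide))
    (fun φ => by
      simp only [map_mul, Scal_G3]
      rw [Scal_G3_oc, smul_mul_assoc, mul_smul_comm, one_mul, mul_one])
    (fun i => if i = 0 then a else if i = 1 then b else if i = 2 then c else
      if i = 3 then d else if i = 4 then u else e)
  have h1 := Ids_sub hR (m := ({0} + {1} + {2} + {3} + {4}) + {5} + {6}) (by decide) (by decide)
    (f := associator (G3 (of F 4) (of F 0) (of F 1) (of F 2) (of F 3)) (of F 5) (of F 6)) (g := 0)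
    (Ids_ass_mem c5 (Ids_of 5) (Ids_of 6)) (zero_mem _)
    (fun φ => by
      simp only [Ids_ass, Scal_G3, map_zero]
      rw [Scal_G3_oc]
      simp only [associator_apply, smul_mul_assoc, one_mul, sub_self])
    (fun i => if i = 0 then a else if i = 1 then b else if i = 2 then c else
      if i = 3 then d else if i = 4 then u else if i = 5 then e else f)
  have h2 := Ids_sub hR (m := {5} + ({0} + {1} + {2} + {3} + {4}) + {6}) (by decide) (by decide)
    (f := associator (of F 5) (G3 (of F 4) (of F 0) (of F 1) (of F 2) (of F 3)) (of F 6)) (g := 0)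
    (Ids_ass_mem (Ids_of 5) c5 (Ids_of 6)) (zero_mem _)
    (fun φ => by
      simp only [Ids_ass, Scal_G3, map_zero]
      rw [Scal_G3_oc]
      simp only [associator_apply, smul_mul_assoc, mul_smul_comm, one_mul, mul_one, sub_self])
    (fun i => if i = 0 then a else if i = 1 then b else if i = 2 then c else
      if i = 3 then d else if i = 4 then u else if i = 5 then e else f)
  have h3 := Ids_sub hR (m := {5} + {6} + ({0} + {1} + {2} + {3} + {4})) (by decide) (by decide)
    (f := associator (of F 5) (of F 6) (G3 (of F 4) (of F 0) (of F 1) (of F 2) (of F 3))) (g := 0)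
    (Ids_ass_mem (Ids_of 5) (Ids_of 6) c5) (zero_mem _)
    (fun φ => by
      simp only [Ids_ass, Scal_G3, map_zero]
      rw [Scal_G3_oc]
      simp only [associator_apply, mul_smul_comm, mul_one, sub_self])
    (fun i => if i = 0 then a else if i = 1 then b else if i = 2 then c else
      if i = 3 then d else if i = 4 then u else if i = 5 then e else f)
  refine ⟨?_, ?_, ?_, ?_⟩
  · simpa [Scal_G3, lift_of_apply] using h0
  · simpa [Ids_ass, Scal_G3, lift_of_apply] using h1
  · simpa [Ids_ass, Scal_G3, lift_of_apply] using h2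
  · simpa [Ids_ass, Scal_G3, lift_of_apply] using h3

private theorem Scal_f2 (X A B C : Fn F) :
    X * F1 A B C + star (X * F1 A B C) = F3 X A B C := by
  funext v
  have h1 : (X * F1 A B C + star (X * F1 A B C)) v =
      X v * F1 (A v) (B v) (C v) + star (X v * F1 (A v) (B v) (C v)) := rfl
  have h2 : F3 X A B C v = F3 (X v) (A v) (B v) (C v) := rfl
  rw [h1, h2, add_star, f3_scalar]
  congr 1
  unfold F1
  generalize com (B v) (C v) = w
  have e1 : tt (X v * (A v * w)) = tt ((X v * A v) * w) := (tt_assoc _ _ _).symm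
  have e2 : tt (X v * (w * A v)) = tt ((A v * X v) * w) := by
    rw [tt_comm, tt_assoc, tt_comm]
  unfold com
  rw [mul_sub, sub_mul, Oct_tt_sub, Oct_tt_sub, e1, e2]

private theorem Scal_f4 (X A B C D : Fn F) :
    (6 : F) • (X * F3 A B C D + star (X * F3 A B C D)) = G3 X A B C D := by
  funext v
  have h1 : ((6 : F) • (X * F3 A B C D + star (X * F3 A B C D))) v =
      (6 : F) • (X v * F3 (A v) (B v) (C v) (D v) + star (X v * F3 (A v) (B v) (C v) (D v))) := rfl
  have h2 : G3 X A B C D v = G3 (X v) (A v) (B v) (C v) (D v) := RealL_atG3 v X A B C D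
  rw [h1, h2, add_star, Scal_G3_oc, f3_scalar, mul_smul_comm, mul_one, tt_smul, smul_smul]
  congr 1
  ring

private theorem Scal_form (h2 : (2 : F) ≠ 0) (h3 : (3 : F) ≠ 0) (hR : Sat F 9 R)
    (ρ : FA F →ₙₐ[F] R) {m : Multiset ℕ} {f : FA F} (hf : f ∈ LP F m) :
    ∃ p ∈ P F m, ev F p = ev F f + star (ev F f) ∧ IsCen (ρ p) := by
  have h0 : IsCen (0 : R) := by
    intro r s
    refine ⟨by rw [mul_zero, zero_mul], ?_, ?_, ?_⟩ <;> simp [associator_apply]
  refine Submodule.span_induction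
    (p := fun f _ => ∃ p ∈ P F m, ev F p = ev F f + star (ev F f) ∧ IsCen (ρ p)) ?_ ?_ ?_ ?_ hf
  · intro f hf
    cases hf with
    | f1 a b c =>
      refine ⟨0, zero_mem _, ?_, ?_⟩
      · rw [RealL_e1, RealL_star1, map_zero, add_neg_cancel]
      · rw [map_zero]; exact h0
    | f2 r a b c =>
      refine ⟨F3 (mo F r) (mo F a) (mo F b) (mo F c), ?_, ?_, ?_⟩
      · exact Ids_cast (Ids_jor_mem (Ids_com_mem (mo_mem id r) (mo_mem id a))
          (Ids_com_mem (mo_mem id b) (mo_mem id c))) (by abel)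
      · rw [RealL_e2, Scal_f2, RealL_e3]
      · rw [Ids_F3]; exact isCen_F3 hR _ _ _ _
    | f3 a b c d =>
      have hm : F3 (mo F a) (mo F b) (mo F c) (mo F d) ∈
          P F (lets id a + lets id b + lets id c + lets id d) :=
        Ids_cast (Ids_jor_mem (Ids_com_mem (mo_mem id a) (mo_mem id b))
          (Ids_com_mem (mo_mem id c) (mo_mem id d))) (by abel)
      refine ⟨F3 (mo F a) (mo F b) (mo F c) (mo F d) + F3 (mo F a) (mo F b) (mo F c) (mo F d),
        add_mem hm hm, ?_, ?_⟩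
      · rw [map_add, RealL_e3, RealL_star3]
      · rw [map_add, Ids_F3]; exact (isCen_F3 hR _ _ _ _).add (isCen_F3 hR _ _ _ _)
    | f4 r a b c d =>
      have h6 : (6 : F) ≠ 0 := by
        have : (6 : F) = 2 * 3 := by norm_num
        rw [this]; exact mul_ne_zero h2 h3
      refine ⟨(6 : F)⁻¹ • G3 (mo F r) (mo F a) (mo F b) (mo F c) (mo F d), ?_, ?_, ?_⟩
      · exact Submodule.smul_mem _ _ (Scal_mem5 (mo_mem id r) (mo_mem id a) (mo_mem id b)
          (mo_mem id c) (mo_mem id d) rfl)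
      · rw [map_smul, Scal_G3, ← Scal_f4, smul_smul, inv_mul_cancel₀ h6, one_smul, RealL_e4]
      · rw [map_smul, Scal_G3]; exact (isCen_G3 hR _ _ _ _ _).smul _
  · refine ⟨0, zero_mem _, ?_, ?_⟩
    · rw [map_zero, star_zero, add_zero]
    · rw [map_zero]; exact h0
  · rintro f g _ _ ⟨p, hp, e, hc⟩ ⟨q, hq, e', hc'⟩
    refine ⟨p + q, add_mem hp hq, ?_, ?_⟩
    · rw [map_add, map_add, e, e', star_add]; abel
    · rw [map_add]; exact hc.add hc'
  · rintro k f _ ⟨p, hp, e, hc⟩
    refine ⟨k • p, Submodule.smul_mem _ _ hp, ?_, ?_⟩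
    · have hst : star (k • ev F f) = k • star (ev F f) := by
        funext v
        exact star_smul_oc k (ev F f v)
      rw [map_smul, map_smul, e, hst, smul_add]
    · rw [map_smul]; exact hc.smul k

theorem sc_form (h2 : (2 : F) ≠ 0) (h3 : (3 : F) ≠ 0) (hR : Sat F 9 R) (ρ : FA F →ₙₐ[F] R)
    {m : Multiset ℕ} {z : Fn F} (hz : z ∈ LF F m) (hs : IsSc z) :
    ∃ p ∈ P F m, ev F p = z ∧ IsCen (ρ p) := by
  obtain ⟨f, hf, rfl⟩ := Submodule.mem_map.1 hz
  change IsSc (ev F f) at hs
  obtain ⟨p, hp, e, hc⟩ := Scal_form h2 h3 hR ρ hf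
  refine ⟨(2 : F)⁻¹ • p, Submodule.smul_mem _ _ hp, ?_, ?_⟩
  · change ev F ((2 : F)⁻¹ • p) = ev F f
    rw [map_smul, e, hs.star_eq, ← two_smul F (ev F f), smul_smul, inv_mul_cancel₀ h2, one_smul]
  · rw [map_smul]; exact hc.smul _

end Pool.Agent.OB
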