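import Pool.Agent.OB.ActTr
import Pool.Agent.OB.Scal

/-!
# Further laws of the action  (module ActW)

All statements are linear in `f`, `g`; for words `f`, `g`: each word is honest or contains a `t_x`
(`word_cases`).

`Act_p3`: both honest: alternativity in `R` (`Act_hon`; note `lets` add up). `f` contains `t_x`:
`2 Lam (f g + g f) l = T x (f' g l + ..)`, `f' = sb (up x 1) (evt f)`, by `Act_t` for `f g` and `g f` (the real value
of `g` does not contain `x`: `sb_congr`), `2 Lam f (g l) = T x (f' (g l))`, and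
`2 Lam g (f l) = Lam g (t_x (f' l)) = T x (g (f' l))` by `Act_aux`; then alternativity in `Fn F`.
`Act_sc`: `f` honest: `Act_inv`, `Act_hon` (both are `Tr_f l`); `f` contains `t_x`: `Act_t` for `f` and `invT f`,
`f' + star f'` is scalar.
`Act_sc2`: `Lam ((f + f*) g) l = Lam (f + f*) (g l) + Lam (f + f*) (l g) - Rho g ((f + f̄) l)`; so one needs
`Lam (f + f*) (l g) = Rho g ((f + f̄) l)`: honest: `Tr_right`; `g` contains `t_x`: `Act_t` for `g` and `Act_aux` for
`f + f*`; `f` contains `t_x`, `g` honest: `Act_t` and `Act_aux` for `g`. The right version: `Rho ((f + f*) g) l =`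
`Rho g (l (f + f̄)) + Rho g ((f + f̄) l) - Lam (f + f*) (l g)`.
`Act_scL`: `sc_form`: `l = ev p` with `π p` central, `β m l = π p`; honest words: clear; words with `t_x`: `Act_t`
(the scalar `l` commutes and associates with everything in `Fn F`).
-/

set_option autoImplicit false
set_option linter.unusedSectionVars false

namespace Pool.Agent.OB

open FreeNonUnitalNonAssocAlgebra Pool.Agent.H.MP_41922c_al Pool.Agent.Smt

variable {F : Type*} [Field F] {R : Type*} [NonUnitalNonAssocRing R] [Module F R]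
  [IsScalarTower F R R] [SMulCommClass F R R]
variable {π : FA F →ₙₐ[F] R} {V : Multiset ℕ} {β : Multiset ℕ → Fn F →ₗ[F] R}
  {T : ℕ → Fn F →ₗ[F] R}

theorem ActW_two (h2 : (2 : F) ≠ 0) {a b : R} (h : (2 : F) • a = (2 : F) • b) : a = b := by
  have h1 := congrArg (fun z => (2 : F)⁻¹ • z) h
  simpa only [smul_smul, inv_mul_cancel₀ h2, one_smul] using h1

/-- an element of `PP ix s` is a sum of elements of the `TT x s` and of honest words -/
theorem ActW_ind {s : Multiset ℕ} {p : FB F → Prop} (h0 : p 0)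
    (ha : ∀ f g, p f → p g → p (f + g)) (hs : ∀ (k : F) f, p f → p (k • f))
    (ht : ∀ x ∈ s, ∀ f ∈ TT F x s, p f)
    (hh : ∀ u : FreeMagma ℕ, lets id u = s → p (emb F (mo F u))) {f : FB F}
    (hf : f ∈ PP F ix s) : p f := by
  refine Words_PP_ind ix h0 ha hs ?_ hf
  intro w hw
  rcases word_cases (F := F) w with ⟨x, hx⟩ | ⟨u, hu, hu'⟩
  · refine ht x ?_ _ ?_
    · rw [← hw]
      exact InW_mem hx
    · rw [← hw]
      exact mo_mem_TT hx
  · rw [hu]
    exact hh u (hu'.trans hw)

theorem ActW_sc (x : ℕ) (a b : Fn F) : a * (tX F x * b) = tX F x * (a * b) := by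
  have a1 := ((isSc_tX x).assoc a b).1
  have a2 := ((isSc_tX x).assoc a b).2.1
  have a3 := (isSc_tX x).comm a
  rw [← a2, ← a3, a1]

theorem ActW_sc' (x : ℕ) (a b : Fn F) : (tX F x * a) * b = tX F x * (a * b) :=
  ((isSc_tX x).assoc a b).1

/-- the action of the elements of `TT x s` -/
theorem ActW_tt (h : Ctx π V) (hβ : IsBeta π V β) (hT : IsTT π V β T) {x : ℕ} {s m : Multiset ℕ}
    (e : s + m = V) {f : FB F} (hf : f ∈ TT F x s) {l : Fn F} (hl : l ∈ LF F m) :
    (2 : F) • Lam π V β T f l = T x (sb (up F x 1) (evt F f) * l) ∧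
      (2 : F) • Rho π V β T f l = T x (l * sb (up F x 1) (evt F f)) := by
  refine Submodule.span_induction (p := fun f _ =>
    (2 : F) • Lam π V β T f l = T x (sb (up F x 1) (evt F f) * l) ∧
      (2 : F) • Rho π V β T f l = T x (l * sb (up F x 1) (evt F f))) ?_ ?_ ?_ ?_ hf
  · rintro _ ⟨w, hw, rfl, rfl⟩
    exact Act_t h hβ hT w hw e hl
  · simp only [map_zero, LinearMap.zero_apply, zero_mul, mul_zero, smul_zero, and_self]
  · rintro f g _ _ ⟨hf, hf'⟩ ⟨hg, hg'⟩
    simp only [map_add, LinearMap.add_apply, add_mul, mul_add, smul_add, hf, hf', hg, hg',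
      and_self]
  · rintro k f _ ⟨hf, hf'⟩
    simp only [map_smul, LinearMap.smul_apply, smul_mul_assoc, mul_smul_comm]
    rw [smul_comm, hf, smul_comm, hf']
    exact ⟨rfl, rfl⟩

theorem ActW_ev {x : ℕ} {s : Multiset ℕ} (hs : s.Nodup) {f : FB F} (hf : f ∈ TT F x s) :
    (2 : F) • evt F f = tX F x * sb (up F x 1) (evt F f) := by
  refine Submodule.span_induction (p := fun f _ =>
    (2 : F) • evt F f = tX F x * sb (up F x 1) (evt F f)) ?_ ?_ ?_ ?_ hf
  · rintro _ ⟨w, hw, rfl, rfl⟩
    exact evt_inr hw hs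
  · simp only [map_zero, mul_zero, smul_zero]
  · intro f g _ _ hf hg
    simp only [map_add, mul_add, smul_add, hf, hg]
  · intro k f _ hf
    simp only [map_smul, mul_smul_comm]
    rw [smul_comm, hf]

theorem ActW_LF (h2 : (2 : F) ≠ 0) (h3 : (3 : F) ≠ 0) {x : ℕ} {s : Multiset ℕ} (hs : s.Nodup)
    {f : FB F} (hf : f ∈ TT F x s) {m : Multiset ℕ} {l : Fn F} (hl : l ∈ LF F m) :
    sb (up F x 1) (evt F f) * l ∈ LF F (s.erase x + m) ∧
      l * sb (up F x 1) (evt F f) ∈ LF F (s.erase x + m) := by
  refine Submodule.span_induction (p := fun f _ =>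
    sb (up F x 1) (evt F f) * l ∈ LF F (s.erase x + m) ∧
      l * sb (up F x 1) (evt F f) ∈ LF F (s.erase x + m)) ?_ ?_ ?_ ?_ hf
  · rintro _ ⟨w, hw, rfl, rfl⟩
    exact evt_inr_LF h2 h3 hw hs hl
  · simp only [map_zero, zero_mul, mul_zero, Submodule.zero_mem, and_self]
  · rintro f g _ _ ⟨hf, hf'⟩ ⟨hg, hg'⟩
    simp only [map_add, add_mul, mul_add]
    exact ⟨Submodule.add_mem _ hf hg, Submodule.add_mem _ hf' hg'⟩
  · rintro k f _ ⟨hf, hf'⟩
    simp only [map_smul, smul_mul_assoc, mul_smul_comm]
    exact ⟨Submodule.smul_mem _ k hf, Submodule.smul_mem _ k hf'⟩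

theorem ActW_AF {s : Multiset ℕ} {g : FB F} (hg : g ∈ PP F ix s) : evt F g ∈ AF F s :=
  ⟨g, hg, rfl⟩

theorem ActW_up {x : ℕ} {s : Multiset ℕ} (hx : x ∉ s) {g : FB F} (hg : g ∈ PP F ix s) :
    sb (up F x 1) (evt F g) = evt F g := by
  have h1 := sb_congr (ActW_AF hg) (g := up F x 1) (g' := XX F) (by
    intro i hi
    unfold up
    rw [Function.update_of_ne]
    rintro rfl
    exact hx hi)
  rw [h1, Real_sb_id]

/-- the parts of `V` -/
theorem ActW_parts (h : Ctx π V) {s s' m : Multiset ℕ} (e : s + s' + m = V) {x : ℕ} (hx : x ∈ s) :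
    s.Nodup ∧ x ∉ s' ∧ s' + {x} + (s.erase x + m) = V := by
  have h1 := h.nodup
  rw [← e] at h1
  have h2 := (Multiset.nodup_add.1 h1).1
  refine ⟨(Multiset.nodup_add.1 h2).1, ?_, ?_⟩
  · exact Multiset.disjoint_left.1 (Multiset.nodup_add.1 h2).2.2 hx
  · have k : ({x} : Multiset ℕ) + s.erase x = s := by
      rw [Multiset.singleton_add]
      exact Multiset.cons_erase hx
    calc s' + {x} + (s.erase x + m) = ({x} + s.erase x) + s' + m := by ac_rfl
      _ = V := by rw [k]; exact e

theorem ActW_mem (h : Ctx π V) {s m : Multiset ℕ} {g : FB F} (hg : g ∈ PP F ix s) {l : Fn F}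
    (hl : l ∈ LF F m) : evt F g * l ∈ LF F (s + m) ∧ l * evt F g ∈ LF F (s + m) := by
  refine ⟨AF_mul_LF h.two h.three (ActW_AF hg) hl, ?_⟩
  rw [add_comm]
  exact LF_mul_AF h.two h.three (ActW_AF hg) hl

/-- an element `g` acts on a multiple by an element of `TT x s` -/
theorem ActW_on (h : Ctx π V) (hβ : IsBeta π V β) (hT : IsTT π V β T) {s s' m : Multiset ℕ}
    (e : s + s' + m = V) {x : ℕ} (hx : x ∈ s) {f g : FB F} (hf : f ∈ TT F x s)
    (hg : g ∈ PP F ix s') {l : Fn F} (hl : l ∈ LF F m) :
    (2 : F) • Lam π V β T g (evt F f * l) =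
        T x (evt F g * (sb (up F x 1) (evt F f) * l)) ∧
      (2 : F) • Rho π V β T g (evt F f * l) =
        T x ((sb (up F x 1) (evt F f) * l) * evt F g) ∧
      (2 : F) • Lam π V β T g (l * evt F f) =
        T x (evt F g * (l * sb (up F x 1) (evt F f))) ∧
      (2 : F) • Rho π V β T g (l * evt F f) =
        T x ((l * sb (up F x 1) (evt F f)) * evt F g) := by
  obtain ⟨hs, _, e'⟩ := ActW_parts h e hx
  obtain ⟨m1, m2⟩ := ActW_LF h.two h.three hs hf hl
  have a1 := Act_aux h hβ hT e' hg m1
  have a2 := Act_aux h hβ hT e' hg m2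
  have k1 : (2 : F) • (evt F f * l) = tX F x * (sb (up F x 1) (evt F f) * l) := by
    rw [← smul_mul_assoc, ActW_ev hs hf, ActW_sc']
  have k2 : (2 : F) • (l * evt F f) = tX F x * (l * sb (up F x 1) (evt F f)) := by
    rw [← mul_smul_comm, ActW_ev hs hf, ActW_sc]
  refine ⟨?_, ?_, ?_, ?_⟩
  · rw [← map_smul, k1, a1.1]
  · rw [← map_smul, k1, a1.2]
  · rw [← map_smul, k2, a2.1]
  · rw [← map_smul, k2, a2.2]

/-- `β` of a product with a word -/
theorem ActW_b (h : Ctx π V) (hβ : IsBeta π V β) (u : FreeMagma ℕ) {k m : Multiset ℕ}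
    (e : k + (lets id u + m) = V) (hk : k ≠ 0) {l : Fn F} (hl : l ∈ LF F m) :
    β (lets id u + m) (ev F (mo F u) * l) = π (mo F u) * β m l ∧
      β (lets id u + m) (l * ev F (mo F u)) = β m l * π (mo F u) := by
  have hn := h.nodup
  rw [← e, Multiset.nodup_add] at hn
  have nu := hn.2.1
  have cu : (lets id u + m).card < V.card := by
    have hc : 0 < k.card := Multiset.card_pos.2 hk
    rw [← e, Multiset.card_add k]
    omega
  have hev : ev F (mo F u) ∈ UU F (lets id u) := ⟨mo F u, mo_mem id u, rfl⟩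
  have hlU := LF_le_UU m hl
  have k' := hβ (lets id u) (Multiset.nodup_add.1 nu).1
    (lt_of_le_of_lt (Multiset.card_le_card (Multiset.le_add_right _ _)) cu) _ (mo_mem id u)
  constructor
  · rw [beta_mul h hβ nu cu hev hlU, k']
  · have nu' := nu
    have cu' := cu
    rw [add_comm] at nu' cu'
    rw [add_comm (lets id u), beta_mul h hβ nu' cu' hlU hev, k']

theorem ActW_alt {A : Type*} [NonUnitalNonAssocRing A]
    (h12 : ∀ a b c : A, associator a b c = -associator b a c) (a b c : A) :
    (a * b + b * a) * c = a * (b * c) + b * (a * c) := by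
  have a1 := h12 a b c
  simp only [associator_apply] at a1
  rw [add_mul]
  linear_combination (norm := abel) a1

theorem ActW_alt_Fn (a b c : Fn F) : (a * b + b * a) * c = a * (b * c) + b * (a * c) := by
  funext v
  exact ActW_alt alt12_oc (a v) (b v) (c v)

theorem ActW_p3t (h : Ctx π V) (hβ : IsBeta π V β) (hT : IsTT π V β T) {s s' m : Multiset ℕ}
    (e : s + s' + m = V) {x : ℕ} (hx : x ∈ s) {f g : FB F} (hf : f ∈ TT F x s)
    (hg : g ∈ PP F ix s') {l : Fn F} (hl : l ∈ LF F m) : Lam π V β T (f * g + g * f) l =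
      Lam π V β T f (evt F g * l) + Lam π V β T g (evt F f * l) := by
  obtain ⟨hs, hx', _⟩ := ActW_parts h e hx
  have h1 := TT_mul hf hg
  have h2 := ActW_tt h hβ hT e (Submodule.add_mem _ h1.1 h1.2) hl
  have e2 : s + (s' + m) = V := by rw [← add_assoc]; exact e
  have h3 := ActW_tt h hβ hT e2 hf (ActW_mem h hg hl).1
  have h4 := ActW_on h hβ hT e hx hf hg hl
  refine ActW_two h.two ?_
  rw [h2.1, smul_add, h3.1, h4.1, ← map_add, map_add (evt F), map_mul (evt F), map_mul (evt F),
    map_add (sb (up F x 1)), map_mul (sb (up F x 1)), map_mul (sb (up F x 1)), ActW_up hx' hg,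
    ActW_alt_Fn]

theorem Act_p3 (h : Ctx π V) (hβ : IsBeta π V β) (hT : IsTT π V β T) {s s' m : Multiset ℕ}
    (e : s + s' + m = V) {f g : FB F} (hf : f ∈ PP F ix s) (hg : g ∈ PP F ix s') {l : Fn F}
    (hl : l ∈ LF F m) : Lam π V β T (f * g + g * f) l =
      Lam π V β T f (evt F g * l) + Lam π V β T g (evt F f * l) := by
  have e' : s' + s + m = V := by rw [← e]; abel
  refine ActW_ind (p := fun f => Lam π V β T (f * g + g * f) l =
      Lam π V β T f (evt F g * l) + Lam π V β T g (evt F f * l)) ?_ ?_ ?_ ?_ ?_ hf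
  · simp only [zero_mul, mul_zero, add_zero, map_zero, LinearMap.zero_apply]
  · intro f f' h1 h2
    have e1 : (f + f') * g + g * (f + f') = (f * g + g * f) + (f' * g + g * f') := by
      rw [add_mul, mul_add]; abel
    rw [e1, map_add, LinearMap.add_apply, h1, h2]
    simp only [map_add, LinearMap.add_apply, add_mul]
    abel
  · intro k f h1
    have e1 : (k • f) * g + g * (k • f) = k • (f * g + g * f) := by
      rw [smul_mul_assoc, mul_smul_comm, smul_add]
    rw [e1, map_smul, LinearMap.smul_apply, h1]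
    simp only [map_smul, LinearMap.smul_apply, smul_mul_assoc, smul_add]
  · intro x hx f hf
    exact ActW_p3t h hβ hT e hx hf hg hl
  · intro u hu
    refine ActW_ind (p := fun g => Lam π V β T (emb F (mo F u) * g + g * emb F (mo F u)) l =
      Lam π V β T (emb F (mo F u)) (evt F g * l) + Lam π V β T g (evt F (emb F (mo F u)) * l))
      ?_ ?_ ?_ ?_ ?_ hg
    · simp only [zero_mul, mul_zero, add_zero, map_zero, LinearMap.zero_apply]
    · intro g g' h1 h2
      have e1 : emb F (mo F u) * (g + g') + (g + g') * emb F (mo F u) =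
          (emb F (mo F u) * g + g * emb F (mo F u)) +
            (emb F (mo F u) * g' + g' * emb F (mo F u)) := by
        rw [add_mul, mul_add]; abel
      rw [e1, map_add, LinearMap.add_apply, h1, h2]
      simp only [map_add, LinearMap.add_apply, add_mul]
      abel
    · intro k g h1
      have e1 : emb F (mo F u) * (k • g) + (k • g) * emb F (mo F u) =
          k • (emb F (mo F u) * g + g * emb F (mo F u)) := by
        rw [smul_mul_assoc, mul_smul_comm, smul_add]
      rw [e1, map_smul, LinearMap.smul_apply, h1]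
      simp only [map_smul, LinearMap.smul_apply, smul_mul_assoc, smul_add]
    · intro x hx g hg
      have hu' : emb F (mo F u) ∈ PP F ix s := by
        rw [← hu]
        exact emb_mem (mo_mem id u)
      have h1 := ActW_p3t h hβ hT e' hx hg hu' hl
      rw [add_comm (emb F (mo F u) * g), h1, add_comm]
    · intro v hv
      subst hu
      subst hv
      have e1 : lets id u + (lets id v + m) = V := by rw [← add_assoc]; exact e
      have e2 : lets id v + (lets id u + m) = V := by rw [← e]; abel
      have b1 := (ActW_b h hβ v e1 (lets_ne id u) hl).1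
      have b2 := (ActW_b h hβ u e2 (lets_ne id v) hl).1
      have c1 := (Act_hon (T := T) h hβ e (Submodule.add_mem _ (PP_mul id (mo_mem id u) (mo_mem id v))
        (by
          rw [add_comm (lets id u)]
          exact PP_mul id (mo_mem (F := F) id v) (mo_mem id u))) hl).1
      have c2 := (Act_hon (T := T) h hβ e1 (mo_mem id u)
        (ActW_mem h (emb_mem (mo_mem id v)) hl).1).1
      have c3 := (Act_hon (T := T) h hβ e2 (mo_mem id v)
        (ActW_mem h (emb_mem (mo_mem id u)) hl).1).1
      rw [evt_emb] at c2 c3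
      rw [b1] at c2
      rw [b2] at c3
      rw [map_add, map_mul, map_mul] at c1
      rw [c1, evt_emb, evt_emb, c2, c3, map_add, map_mul, map_mul,
        ActW_alt (fun a b c => alt12_R h.sat a b c)]

/-! ### `f + f*` -/

theorem ActW_star (g : ℕ → Fn F) (a : Fn F) : sb g (star a) = star (sb g a) := by
  funext v
  rfl

theorem ActW_sum (f : FB F) : IsSc (evt F (f + invT f)) := by
  rw [map_add, evt_invT]
  exact isSc_trf (evt F f)

theorem ActW_sbsum (x : ℕ) (f : FB F) : IsSc (sb (up F x 1) (evt F (f + invT f))) := by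
  rw [map_add, evt_invT, map_add, ActW_star]
  exact isSc_trf _

theorem ActW_summem {s : Multiset ℕ} {f : FB F} (hf : f ∈ PP F ix s) :
    f + invT f ∈ PP F ix s := Submodule.add_mem _ hf (invT_mem hf)

theorem ActW_sumTT {x : ℕ} {s : Multiset ℕ} {f : FB F} (hf : f ∈ TT F x s) :
    f + invT f ∈ TT F x s := Submodule.add_mem _ hf (TT_inv hf)

/-- honest words: the trace -/
theorem ActW_tr (h : Ctx π V) (hβ : IsBeta π V β) (hT : IsTT π V β T) (u : FreeMagma ℕ)
    {m : Multiset ℕ} (e : lets id u + m = V) {l : Fn F} (hl : l ∈ LF F m) :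
    Lam π V β T (emb F (mo F u) + invT (emb F (mo F u))) l = Tr π V β T u l ∧
      Rho π V β T (emb F (mo F u) + invT (emb F (mo F u))) l = Tr π V β T u l := by
  have h1 := Act_inv h hβ hT u e hl
  have h2 := Act_hon (T := T) h hβ e (mo_mem id u) hl
  constructor
  · rw [map_add, LinearMap.add_apply, h1.1, h2.1]
    abel
  · rw [map_add, LinearMap.add_apply, h1.2, h2.2]
    abel

theorem Act_sc (h : Ctx π V) (hβ : IsBeta π V β) (hT : IsTT π V β T) {s m : Multiset ℕ}
    (e : s + m = V) {f : FB F} (hf : f ∈ PP F ix s) {l : Fn F} (hl : l ∈ LF F m) :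
    Lam π V β T (f + invT f) l = Rho π V β T (f + invT f) l := by
  refine ActW_ind (p := fun f => Lam π V β T (f + invT f) l = Rho π V β T (f + invT f) l)
    ?_ ?_ ?_ ?_ ?_ hf
  · simp only [Inv_T_zero, add_zero, map_zero, LinearMap.zero_apply]
  · intro f g h1 h2
    have e1 : f + g + invT (f + g) = (f + invT f) + (g + invT g) := by
      rw [invT_add]; abel
    rw [e1, map_add (Lam π V β T) (f + invT f) (g + invT g),
      map_add (Rho π V β T) (f + invT f) (g + invT g), LinearMap.add_apply, LinearMap.add_apply,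
      h1, h2]
  · intro k f h1
    have e1 : k • f + invT (k • f) = k • (f + invT f) := by
      rw [invT_smul, smul_add]
    rw [e1, map_smul, map_smul, LinearMap.smul_apply, LinearMap.smul_apply, h1]
  · intro x _ f hf
    have h1 := ActW_tt h hβ hT e (ActW_sumTT hf) hl
    refine ActW_two h.two ?_
    rw [h1.1, h1.2, (ActW_sbsum x f).comm]
  · intro u hu
    subst hu
    have h1 := ActW_tr h hβ hT u e hl
    rw [h1.1, h1.2]

/-- the main point of `Act_sc2` -/
theorem ActW_K (h : Ctx π V) (hβ : IsBeta π V β) (hT : IsTT π V β T) {s s' m : Multiset ℕ}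
    (e : s + s' + m = V) {f g : FB F} (hf : f ∈ PP F ix s) (hg : g ∈ PP F ix s') {l : Fn F}
    (hl : l ∈ LF F m) :
    Lam π V β T (f + invT f) (l * evt F g) = Rho π V β T g (evt F (f + invT f) * l) := by
  have e' : s' + s + m = V := by rw [← e]; abel
  have e2 : s + (s' + m) = V := by rw [← add_assoc]; exact e
  refine ActW_ind (p := fun f =>
    Lam π V β T (f + invT f) (l * evt F g) = Rho π V β T g (evt F (f + invT f) * l))
    ?_ ?_ ?_ ?_ ?_ hf
  · simp only [Inv_T_zero, add_zero, map_zero, LinearMap.zero_apply, zero_mul]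
  · intro f f' h1 h2
    have e1 : f + f' + invT (f + f') = (f + invT f) + (f' + invT f') := by
      rw [invT_add]; abel
    rw [e1, map_add (Lam π V β T) (f + invT f) (f' + invT f'), LinearMap.add_apply, h1, h2,
      map_add (evt F) (f + invT f) (f' + invT f'), add_mul, map_add (Rho π V β T g)]
  · intro k f h1
    have e1 : k • f + invT (k • f) = k • (f + invT f) := by
      rw [invT_smul, smul_add]
    rw [e1, map_smul (Lam π V β T), LinearMap.smul_apply, h1, map_smul (evt F), smul_mul_assoc,
      map_smul]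
  · intro x hx f hf
    have h1 := ActW_tt h hβ hT e2 (ActW_sumTT hf) (ActW_mem h hg hl).2
    have h2 := ActW_on h hβ hT e hx (ActW_sumTT hf) hg hl
    refine ActW_two h.two ?_
    rw [h1.1, h2.2.1, ((ActW_sbsum x f).assoc l (evt F g)).1]
  · intro u hu
    subst hu
    refine ActW_ind (p := fun g =>
      Lam π V β T (emb F (mo F u) + invT (emb F (mo F u))) (l * evt F g) =
        Rho π V β T g (evt F (emb F (mo F u) + invT (emb F (mo F u))) * l)) ?_ ?_ ?_ ?_ ?_ hg
    · simp only [map_zero, LinearMap.zero_apply, mul_zero]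
    · intro g g' h1 h2
      rw [map_add (evt F) g g', mul_add, map_add, h1, h2, map_add (Rho π V β T) g g',
        LinearMap.add_apply]
    · intro k g h1
      rw [map_smul (evt F) k g, mul_smul_comm, map_smul, h1, map_smul (Rho π V β T) k g,
        LinearMap.smul_apply]
    · intro x hx g hg
      have hu' : emb F (mo F u) ∈ PP F ix (lets id u) := emb_mem (mo_mem id u)
      have e3 : s' + (lets id u + m) = V := by rw [← e']; abel
      have h1 := ActW_on h hβ hT e' hx hg (ActW_summem hu') hl
      have h2 := ActW_tt h hβ hT e3 hg (ActW_mem h (ActW_summem hu') hl).1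
      refine ActW_two h.two ?_
      rw [h1.2.2.1, h2.2, ((ActW_sum (emb F (mo F u))).assoc l _).1]
    · intro v hv
      subst hv
      have hm := (ActW_mem h (emb_mem (mo_mem (F := F) id v)) hl).2
      have h1 := (ActW_tr h hβ hT u e2 hm).1
      rw [evt_emb] at h1
      have h2 := Tr_right h hβ hT u v e hl
      have e3 : lets id v + (lets id u + m) = V := by rw [← e']; abel
      have h3 := (Act_hon (T := T) h hβ e3 (mo_mem id v) (Tr_mem h u hl)).2
      have h4 : evt F (emb F (mo F u) + invT (emb F (mo F u))) = trf (ev F (mo F u)) := by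
        rw [map_add, evt_invT, evt_emb]
        rfl
      rw [evt_emb, h1, h2, h4, h3]

theorem Act_sc2 (h : Ctx π V) (hβ : IsBeta π V β) (hT : IsTT π V β T) {s s' m : Multiset ℕ}
    (e : s + s' + m = V) {f g : FB F} (hf : f ∈ PP F ix s) (hg : g ∈ PP F ix s') {l : Fn F}
    (hl : l ∈ LF F m) :
    Lam π V β T ((f + invT f) * g) l = Lam π V β T (f + invT f) (evt F g * l) ∧
      Rho π V β T ((f + invT f) * g) l = Lam π V β T (f + invT f) (l * evt F g) := by
  have k := ActW_K h hβ hT e hf hg hl
  constructor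
  · rw [Lam_mul, k]
    abel
  · rw [Rho_mul, k, ← (ActW_sum f).comm l]
    abel

/-! ### scalars -/

/-- the data of a scalar `l` in `R` -/
theorem ActW_cen (h : Ctx π V) (hβ : IsBeta π V β) {s m : Multiset ℕ} (e : s + m = V) (hs0 : s ≠ 0)
    {l : Fn F} (hl : l ∈ LF F m) (hs : IsSc l) : IsCen (β m l) := by
  obtain ⟨p, hp, h1, h2⟩ := sc_form h.two h.three h.sat π hl hs
  have hn := h.nodup
  rw [← e, Multiset.nodup_add] at hn
  have hc : m.card < V.card := by
    have hc : 0 < s.card := Multiset.card_pos.2 hs0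
    rw [← e, Multiset.card_add]
    omega
  rw [← h1, hβ m hn.2.1 hc p hp]
  exact h2

theorem Act_scL (h : Ctx π V) (hβ : IsBeta π V β) (hT : IsTT π V β T) {s m : Multiset ℕ}
    (e : s + m = V) {f : FB F} (hf : f ∈ PP F ix s) {l : Fn F} (hl : l ∈ LF F m) (hs : IsSc l) :
    Lam π V β T f l = Rho π V β T f l := by
  refine ActW_ind (p := fun f => Lam π V β T f l = Rho π V β T f l) ?_ ?_ ?_ ?_ ?_ hf
  · simp only [map_zero, LinearMap.zero_apply]
  · intro f g h1 h2
    rw [map_add, map_add, LinearMap.add_apply, LinearMap.add_apply, h1, h2]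
  · intro k f h1
    rw [map_smul, map_smul, LinearMap.smul_apply, LinearMap.smul_apply, h1]
  · intro x _ f hf
    have h1 := ActW_tt h hβ hT e hf hl
    refine ActW_two h.two ?_
    rw [h1.1, h1.2, hs.comm]
  · intro u hu
    subst hu
    have h1 := Act_hon (T := T) h hβ e (mo_mem id u) hl
    have h2 := ActW_cen h hβ e (lets_ne id u) hl hs
    rw [h1.1, h1.2, (h2 (π (mo F u)) 0).1]

theorem Act_scL2 (h : Ctx π V) (hβ : IsBeta π V β) (hT : IsTT π V β T) {s s' m : Multiset ℕ}
    (e : s + s' + m = V) {f g : FB F} (hf : f ∈ PP F ix s) (hg : g ∈ PP F ix s') {l : Fn F}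
    (hl : l ∈ LF F m) (hs : IsSc l) :
    Lam π V β T (f * g) l = Lam π V β T f (evt F g * l) := by
  have e' : s' + s + m = V := by rw [← e]; abel
  have e2 : s + (s' + m) = V := by rw [← add_assoc]; exact e
  suffices hK : Lam π V β T f (l * evt F g) = Rho π V β T g (evt F f * l) by
    rw [Lam_mul, hK]
    abel
  refine ActW_ind (p := fun f => Lam π V β T f (l * evt F g) = Rho π V β T g (evt F f * l))
    ?_ ?_ ?_ ?_ ?_ hf
  · simp only [map_zero, LinearMap.zero_apply, zero_mul]
  · intro f f' h1 h2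
    rw [map_add (Lam π V β T), LinearMap.add_apply, h1, h2, map_add (evt F), add_mul, map_add]
  · intro k f h1
    rw [map_smul (Lam π V β T), LinearMap.smul_apply, h1, map_smul (evt F), smul_mul_assoc,
      map_smul]
  · intro x hx f hf
    have h1 := ActW_tt h hβ hT e2 hf (ActW_mem h hg hl).2
    have h2 := ActW_on h hβ hT e hx hf hg hl
    refine ActW_two h.two ?_
    rw [h1.1, h2.2.1, (hs.assoc _ (evt F g)).2.1]
  · intro u hu
    subst hu
    refine ActW_ind (p := fun g => Lam π V β T (emb F (mo F u)) (l * evt F g) =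
        Rho π V β T g (evt F (emb F (mo F u)) * l)) ?_ ?_ ?_ ?_ ?_ hg
    · simp only [map_zero, LinearMap.zero_apply, mul_zero]
    · intro g g' h1 h2
      rw [map_add (evt F) g g', mul_add, map_add, h1, h2, map_add (Rho π V β T) g g',
        LinearMap.add_apply]
    · intro k g h1
      rw [map_smul (evt F) k g, mul_smul_comm, map_smul, h1, map_smul (Rho π V β T) k g,
        LinearMap.smul_apply]
    · intro x hx g hg
      have hu' : emb F (mo F u) ∈ PP F ix (lets id u) := emb_mem (mo_mem id u)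
      have e3 : s' + (lets id u + m) = V := by rw [← e']; abel
      have h1 := ActW_on h hβ hT e' hx hg hu' hl
      have h2 := ActW_tt h hβ hT e3 hg (ActW_mem h hu' hl).1
      refine ActW_two h.two ?_
      rw [h1.2.2.1, h2.2, (hs.assoc (evt F (emb F (mo F u))) _).2.1]
    · intro v hv
      subst hv
      have e3 : lets id v + (lets id u + m) = V := by rw [← e']; abel
      have e4 : lets id u + lets id v + m = V := e
      have hm1 := (ActW_mem h (emb_mem (mo_mem (F := F) id v)) hl).2
      have hm2 := (ActW_mem h (emb_mem (mo_mem (F := F) id u)) hl).1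
      rw [evt_emb] at hm1 hm2
      have h1 := (Act_hon (T := T) h hβ e2 (mo_mem id u) hm1).1
      have h2 := (Act_hon (T := T) h hβ e3 (mo_mem id v) hm2).2
      have b1 := (ActW_b h hβ v e2 (lets_ne id u) hl).2
      have b2 := (ActW_b h hβ u e3 (lets_ne id v) hl).1
      have hc := ActW_cen h hβ e4 (by
        intro h0
        have h5 := lets_ne (α := ℕ) id u
        rw [add_eq_zero] at h0
        exact h5 h0.1) hl hs
      have h6 := (hc (π (mo F u)) (π (mo F v))).2.2.1
      rw [associator_apply, sub_eq_zero] at h6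
      rw [evt_emb, evt_emb, h1, h2, b1, b2, h6]

end Pool.Agent.OB
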