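import Pool.Agent.OB.ActK
import Pool.Agent.OB.ActW

/-!
# The trace polynomials act on the forms, into the top degree  (module ActP)

`exists_act`: for each `s` choose a linear section `σ : Fn F → FB F` with `σ a ∈ PP s` and `evt (σ a) = a` for
`a ∈ AF s` (a linear right inverse of the surjection `PP s → AF s`, extended to `Fn F`), and put
`al s a l = Lam (σ a) l`, `ar s a l = Rho (σ a) l`. By `act_zero`, `al s a l = Lam f l` for all `f ∈ PP s` with
`evt f = a`. A scalar `a = evt f` satisfies `a = 1/2 evt (f + invT f)`.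
`act3`: `p1` and `sc2`: `al (a z) l = al a (z l) + al a (l z) - ar z (a l)`, so
`2 al a (z l) = al (z a) l + al z (a l) = 2 al z (a l)`.
`act_sw`: `p1` for `(a, b)` and `(b, a)` and `p3`.
-/

set_option autoImplicit false
set_option linter.unusedSectionVars false

namespace Pool.Agent.OB

open FreeNonUnitalNonAssocAlgebra Pool.Agent.H.MP_41922c_al Pool.Agent.Smt

variable {F : Type*} [Field F] {R : Type*} [NonUnitalNonAssocRing R] [Module F R]
  [IsScalarTower F R R] [SMulCommClass F R R]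

/-- `al s a l` and `ar s a l` are the products `a l` and `l a` of `a ∈ AF s` and `l ∈ LF (V - s)`, in the top
degree of `R` -/
structure IsAct (π : FA F →ₙₐ[F] R) (V : Multiset ℕ) (β : Multiset ℕ → Fn F →ₗ[F] R)
    (al ar : Multiset ℕ → Fn F →ₗ[F] Fn F →ₗ[F] R) : Prop where
  hon : ∀ s m : Multiset ℕ, s + m = V → ∀ p ∈ P F s, ∀ l ∈ LF F m,
    al s (ev F p) l = π p * β m l ∧ ar s (ev F p) l = β m l * π p
  p1 : ∀ s s' m : Multiset ℕ, s + s' + m = V → ∀ a ∈ AF F s, ∀ b ∈ AF F s', ∀ l ∈ LF F m,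
    al (s + s') (a * b) l = al s a (b * l) + al s a (l * b) - ar s' b (a * l)
  p2 : ∀ s s' m : Multiset ℕ, s + s' + m = V → ∀ a ∈ AF F s, ∀ b ∈ AF F s', ∀ l ∈ LF F m,
    ar (s + s') (a * b) l = ar s' b (l * a) + ar s' b (a * l) - al s a (l * b)
  p3 : ∀ s s' m : Multiset ℕ, s + s' + m = V → ∀ a ∈ AF F s, ∀ b ∈ AF F s', ∀ l ∈ LF F m,
    al (s + s') (a * b + b * a) l = al s a (b * l) + al s' b (a * l)
  sc : ∀ s m : Multiset ℕ, s + m = V → ∀ a ∈ AF F s, IsSc a → ∀ l ∈ LF F m,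
    al s a l = ar s a l
  sc2 : ∀ s s' m : Multiset ℕ, s + s' + m = V → ∀ a ∈ AF F s, IsSc a → ∀ b ∈ AF F s',
    ∀ l ∈ LF F m, al (s + s') (a * b) l = al s a (b * l) ∧ ar (s + s') (a * b) l = al s a (l * b)
  scL : ∀ s m : Multiset ℕ, s + m = V → ∀ b ∈ AF F s, ∀ l ∈ LF F m, IsSc l →
    al s b l = ar s b l
  scL2 : ∀ s s' m : Multiset ℕ, s + s' + m = V → ∀ a ∈ AF F s, ∀ b ∈ AF F s', ∀ l ∈ LF F m,
    IsSc l → al (s + s') (a * b) l = al s a (b * l)

variable {π : FA F →ₙₐ[F] R} {V : Multiset ℕ} {β : Multiset ℕ → Fn F →ₗ[F] R}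

/-- a linear section of `evt` on the component of multidegree `s` -/
theorem ActP_sec (s : Multiset ℕ) : ∃ σ : Fn F →ₗ[F] FB F, (∀ a, σ a ∈ PP F ix s) ∧
    ∀ a ∈ AF F s, evt F (σ a) = a := by
  obtain ⟨g, hg⟩ := LinearMap.exists_rightInverse_of_surjective
    ((evt F : FB F →ₗ[F] Fn F).submoduleMap (PP F ix s))
    (LinearMap.range_eq_top.2 (LinearMap.submoduleMap_surjective _ _))
  obtain ⟨g', hg'⟩ := LinearMap.exists_extend g
  refine ⟨(PP F ix s).subtype ∘ₗ g', fun a => (g' a).2, fun a ha => ?_⟩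
  have h1 : g' a = g ⟨a, ha⟩ := DFunLike.congr_fun hg' (⟨a, ha⟩ : AF F s)
  have h2 := DFunLike.congr_fun hg (⟨a, ha⟩ : AF F s)
  have h3 := congrArg Subtype.val h2
  show evt F (g' a : FB F) = a
  rw [h1]
  exact h3

theorem ActP_cast {m n : Multiset ℕ} {l : Fn F} (hl : l ∈ LF F m) (e : m = n) : l ∈ LF F n := e ▸ hl

theorem ActP_half (h2 : (2 : F) ≠ 0) {f : FB F} (hs : IsSc (evt F f)) :
    evt F ((2 : F)⁻¹ • (f + invT f)) = evt F f := by
  rw [map_smul, map_add, evt_invT, hs.star_eq, ← two_smul F, smul_smul, inv_mul_cancel₀ h2, one_smul]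

theorem exists_act [Infinite F] (h : Ctx π V) (h10 : ((Nat.factorial 10 : ℕ) : F) ≠ 0)
    (hβ : IsBeta π V β) : ∃ al ar, IsAct π V β al ar := by
  obtain ⟨T, hT⟩ := exists_TT h h10 hβ
  choose σ hσ hσ' using fun s : Multiset ℕ => ActP_sec (F := F) s
  have h2 := h.two
  have h3 := h.three
  -- the value depends only on the real value
  have key : ∀ s m : Multiset ℕ, s + m = V → ∀ f ∈ PP F ix s, ∀ l ∈ LF F m,
      Lam π V β T (σ s (evt F f)) l = Lam π V β T f l ∧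
        Rho π V β T (σ s (evt F f)) l = Rho π V β T f l := by
    intro s m e f hf l hl
    have h4 : evt F f ∈ AF F s := ⟨f, hf, rfl⟩
    have h5 : evt F (σ s (evt F f) - f) = 0 := by
      rw [map_sub, hσ' s _ h4, sub_self]
    have h6 := act_zero h hβ hT e (Submodule.sub_mem _ (hσ s (evt F f)) hf) h5 hl
    rw [map_sub, map_sub, LinearMap.sub_apply, LinearMap.sub_apply] at h6
    exact ⟨sub_eq_zero.1 h6.1, sub_eq_zero.1 h6.2⟩
  refine ⟨fun s => Lam π V β T ∘ₗ σ s, fun s => Rho π V β T ∘ₗ σ s, ?_, ?_, ?_, ?_, ?_, ?_, ?_, ?_⟩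
  · intro s m e p hp l hl
    show Lam π V β T (σ s (ev F p)) l = _ ∧ Rho π V β T (σ s (ev F p)) l = _
    have h4 := key s m e (emb F p) (emb_mem hp) l hl
    rw [evt_emb] at h4
    rw [h4.1, h4.2]
    exact Act_hon h hβ e hp hl
  · rintro s s' m e _ ⟨f, hf, rfl⟩ _ ⟨g, hg, rfl⟩ l hl
    show Lam π V β T (σ (s + s') (evt F f * evt F g)) l = Lam π V β T (σ s (evt F f)) (evt F g * l)
      + Lam π V β T (σ s (evt F f)) (l * evt F g) - Rho π V β T (σ s' (evt F g)) (evt F f * l)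
    have hf' : evt F f ∈ AF F s := ⟨f, hf, rfl⟩
    have hg' : evt F g ∈ AF F s' := ⟨g, hg, rfl⟩
    have k1 := (key (s + s') m e (f * g) (PP_mul ix hf hg) l hl).1
    rw [map_mul] at k1
    have k2 := (key s (s' + m) (by rw [← e]; abel) f hf _ (AF_mul_LF h2 h3 hg' hl)).1
    have k3 := (key s (m + s') (by rw [← e]; abel) f hf _ (LF_mul_AF h2 h3 hg' hl)).1
    have k4 := (key s' (s + m) (by rw [← e]; abel) g hg _ (AF_mul_LF h2 h3 hf' hl)).2
    rw [k1, k2, k3, k4, Lam_mul]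
  · rintro s s' m e _ ⟨f, hf, rfl⟩ _ ⟨g, hg, rfl⟩ l hl
    show Rho π V β T (σ (s + s') (evt F f * evt F g)) l = Rho π V β T (σ s' (evt F g)) (l * evt F f)
      + Rho π V β T (σ s' (evt F g)) (evt F f * l) - Lam π V β T (σ s (evt F f)) (l * evt F g)
    have hf' : evt F f ∈ AF F s := ⟨f, hf, rfl⟩
    have hg' : evt F g ∈ AF F s' := ⟨g, hg, rfl⟩
    have k1 := (key (s + s') m e (f * g) (PP_mul ix hf hg) l hl).2
    rw [map_mul] at k1
    have k2 := (key s' (m + s) (by rw [← e]; abel) g hg _ (LF_mul_AF h2 h3 hf' hl)).2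
    have k3 := (key s' (s + m) (by rw [← e]; abel) g hg _ (AF_mul_LF h2 h3 hf' hl)).2
    have k4 := (key s (m + s') (by rw [← e]; abel) f hf _ (LF_mul_AF h2 h3 hg' hl)).1
    rw [k1, k2, k3, k4, Rho_mul]
  · rintro s s' m e _ ⟨f, hf, rfl⟩ _ ⟨g, hg, rfl⟩ l hl
    show Lam π V β T (σ (s + s') (evt F f * evt F g + evt F g * evt F f)) l =
      Lam π V β T (σ s (evt F f)) (evt F g * l) + Lam π V β T (σ s' (evt F g)) (evt F f * l)
    have hf' : evt F f ∈ AF F s := ⟨f, hf, rfl⟩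
    have hg' : evt F g ∈ AF F s' := ⟨g, hg, rfl⟩
    have hgf : g * f ∈ PP F ix (s + s') := add_comm s' s ▸ PP_mul ix hg hf
    have k1 := (key (s + s') m e (f * g + g * f) (Submodule.add_mem _ (PP_mul ix hf hg) hgf) l hl).1
    rw [map_add, map_mul, map_mul] at k1
    have k2 := (key s (s' + m) (by rw [← e]; abel) f hf _ (AF_mul_LF h2 h3 hg' hl)).1
    have k4 := (key s' (s + m) (by rw [← e]; abel) g hg _ (AF_mul_LF h2 h3 hf' hl)).1
    rw [k1, k2, k4]
    exact Act_p3 h hβ hT e hf hg hl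
  · rintro s m e _ ⟨f, hf, rfl⟩ hs l hl
    show Lam π V β T (σ s (evt F f)) l = Rho π V β T (σ s (evt F f)) l
    have h4 : (2 : F)⁻¹ • (f + invT f) ∈ PP F ix s :=
      Submodule.smul_mem _ _ (Submodule.add_mem _ hf (invT_mem hf))
    have k1 := key s m e _ h4 l hl
    rw [ActP_half h2 hs] at k1
    rw [k1.1, k1.2, map_smul, map_smul, LinearMap.smul_apply, LinearMap.smul_apply,
      Act_sc h hβ hT e hf hl]
  · rintro s s' m e _ ⟨f, hf, rfl⟩ hs _ ⟨g, hg, rfl⟩ l hl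
    show Lam π V β T (σ (s + s') (evt F f * evt F g)) l = Lam π V β T (σ s (evt F f)) (evt F g * l) ∧
      Rho π V β T (σ (s + s') (evt F f * evt F g)) l = Lam π V β T (σ s (evt F f)) (l * evt F g)
    have hf' : evt F f ∈ AF F s := ⟨f, hf, rfl⟩
    have hg' : evt F g ∈ AF F s' := ⟨g, hg, rfl⟩
    have h4 : (2 : F)⁻¹ • (f + invT f) ∈ PP F ix s :=
      Submodule.smul_mem _ _ (Submodule.add_mem _ hf (invT_mem hf))
    have k1 := key (s + s') m e _ (PP_mul ix h4 hg) l hl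
    have k2 := (key s (s' + m) (by rw [← e]; abel) _ h4 _ (AF_mul_LF h2 h3 hg' hl)).1
    have k3 := (key s (m + s') (by rw [← e]; abel) _ h4 _ (LF_mul_AF h2 h3 hg' hl)).1
    rw [map_mul, ActP_half h2 hs] at k1
    rw [ActP_half h2 hs] at k2 k3
    have k4 := Act_sc2 h hβ hT e hf hg hl
    rw [k1.1, k1.2, k2, k3]
    simp only [smul_mul_assoc, map_smul, LinearMap.smul_apply]
    rw [k4.1, k4.2]
    exact ⟨rfl, rfl⟩
  · rintro s m e _ ⟨f, hf, rfl⟩ l hl hs
    show Lam π V β T (σ s (evt F f)) l = Rho π V β T (σ s (evt F f)) l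
    have k1 := key s m e f hf l hl
    rw [k1.1, k1.2]
    exact Act_scL h hβ hT e hf hl hs
  · rintro s s' m e _ ⟨f, hf, rfl⟩ _ ⟨g, hg, rfl⟩ l hl hs
    show Lam π V β T (σ (s + s') (evt F f * evt F g)) l = Lam π V β T (σ s (evt F f)) (evt F g * l)
    have hg' : evt F g ∈ AF F s' := ⟨g, hg, rfl⟩
    have k1 := (key (s + s') m e (f * g) (PP_mul ix hf hg) l hl).1
    rw [map_mul] at k1
    have k2 := (key s (s' + m) (by rw [← e]; abel) f hf _ (AF_mul_LF h2 h3 hg' hl)).1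
    rw [k1, k2]
    exact Act_scL2 h hβ hT e hf hg hl hs

variable {al ar : Multiset ℕ → Fn F →ₗ[F] Fn F →ₗ[F] R}

theorem ActP_two (h2 : (2 : F) ≠ 0) {x y : R} (e : x + x = y + y) : x = y := by
  rw [← two_smul F x, ← two_smul F y] at e
  exact smul_right_injective R h2 e

/-- `a (z l) = z (a l)`, `(z l) a = z (l a)` for scalars `z` -/
theorem act3 (h : Ctx π V) (hA : IsAct π V β al ar) {s s' m : Multiset ℕ}
    (e : s + s' + m = V) {z a l : Fn F} (hz : z ∈ AF F s) (hs : IsSc z) (ha : a ∈ AF F s')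
    (hl : l ∈ LF F m) :
    al s' a (z * l) = al s z (a * l) ∧ ar s' a (z * l) = al s z (l * a) := by
  have c1 : s' + s = s + s' := add_comm _ _
  have e' : s' + s + m = V := by rw [c1, e]
  have k1 := hA.p1 s' s m e' a ha z hz l hl
  have k2 := hA.sc2 s s' m e z hz hs a ha l hl
  have k3 := hA.p2 s s' m e z hz a ha l hl
  have k4 := hA.sc s (s' + m) (by rw [← e]; abel) z hz hs (a * l)
    (AF_mul_LF h.two h.three ha hl)
  rw [c1, ← hs.comm a, ← hs.comm l, k2.1, ← k4] at k1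
  rw [k2.2, ← hs.comm l] at k3
  constructor
  · refine ActP_two h.two ?_
    rw [eq_sub_iff_add_eq] at k1
    exact k1.symm
  · refine ActP_two h.two ?_
    rw [eq_sub_iff_add_eq] at k3
    exact k3.symm

/-- `(b, l, c) + (c, l, b) = 0` -/
theorem act_sw (h : Ctx π V) (hA : IsAct π V β al ar) {s s' m : Multiset ℕ}
    (e : s + s' + m = V) {a b l : Fn F} (ha : a ∈ AF F s) (hb : b ∈ AF F s')
    (hl : l ∈ LF F m) :
    ar s' b (a * l) - al s a (l * b) + (ar s a (b * l) - al s' b (l * a)) = 0 := by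
  have c1 : s' + s = s + s' := add_comm _ _
  have e' : s' + s + m = V := by rw [c1, e]
  have k1 := hA.p1 s s' m e a ha b hb l hl
  have k2 := hA.p1 s' s m e' b hb a ha l hl
  have k3 := hA.p3 s s' m e a ha b hb l hl
  rw [c1] at k2
  rw [map_add, LinearMap.add_apply, k1, k2] at k3
  rw [← sub_eq_zero] at k3
  rw [← neg_eq_zero, ← k3]
  abel

end Pool.Agent.OB
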