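import Pool.Agent.OB.Real

/-!
# Involutions of the free algebras; values at traceless elements  (module Inv)

`invT`: the involution of `F{x, t}` with `x_i ↦ t_i - x_i`, `t_i ↦ t_i`. `invW`: the involution of `F{x}`
with `x_i ↦ -x_i`. `evw p` is the function `p(x⁰)`, `x⁰ = (x - x̄)/2` the traceless part.
For `evt_invT`: both sides are homomorphisms `FB F → (Fn F)ᵐᵒᵖ` (see `starId_inv` in
`Pool/Agent/Smt/StarId.lean` for the technique), or induction on words.
-/

set_option autoImplicit false
set_option linter.unusedSectionVars false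

namespace Pool.Agent.OB

open FreeNonUnitalNonAssocAlgebra Pool.Agent.H.MP_41922c_al Pool.Agent.Smt

variable (F : Type*) [Field F]

/-- the involution of `F{x, t}` -/
noncomputable def invTHom : FB F →ₙₐ[F] (FB F)ᵐᵒᵖ :=
  lift F (Sum.elim (fun i => MulOpposite.op (of F (Sum.inr i) - of F (Sum.inl i)))
    (fun i => MulOpposite.op (of F (Sum.inr i))))

/-- the traceless part of the variable `x_i` -/
noncomputable def x0 (i : ℕ) : Fn F := (2 : F)⁻¹ • (XX F i - star (XX F i))

/-- the value at traceless elements -/
noncomputable def evw : FA F →ₙₐ[F] Fn F := lift F (x0 F)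

variable {F}

/-- the involution of `F{x, t}` -/
noncomputable def invT (f : FB F) : FB F := (invTHom F f).unop

theorem star_smul_Fn (c : F) (f : Fn F) : star (c • f) = c • star f := by
  funext v
  exact star_smul_oc c (f v)

theorem invT_add (f g : FB F) : invT (f + g) = invT f + invT g := by
  unfold invT
  rw [map_add]
  rfl

theorem invT_smul (c : F) (f : FB F) : invT (c • f) = c • invT f := by
  unfold invT
  rw [map_smul]
  rfl

theorem invT_mul (f g : FB F) : invT (f * g) = invT g * invT f := by
  unfold invT
  rw [map_mul]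
  rfl

theorem Inv_T_zero : invT (0 : FB F) = 0 := by
  unfold invT
  rw [map_zero]
  rfl

theorem Inv_T_sub (f g : FB F) : invT (f - g) = invT f - invT g := by
  unfold invT
  rw [map_sub]
  rfl

theorem invT_inl (i : ℕ) : invT (of F (Sum.inl i)) = of F (Sum.inr i) - of F (Sum.inl i) := by
  unfold invT invTHom
  rw [lift_of_apply]
  rfl

theorem invT_inr (i : ℕ) : invT (of F (Sum.inr i)) = of F (Sum.inr i) := by
  unfold invT invTHom
  rw [lift_of_apply]
  rfl

theorem invT_invT (f : FB F) : invT (invT f) = f := by
  refine Words_ind (p := fun f : FB F => invT (invT f) = f) ?_ ?_ ?_ ?_ f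
  · rw [Inv_T_zero, Inv_T_zero]
  · intro f g hf hg
    rw [invT_add, invT_add, hf, hg]
  · intro k f hf
    rw [invT_smul, invT_smul, hf]
  · intro w
    induction w with
    | ih1 a =>
      rcases a with i | i
      · show invT (invT (of F (Sum.inl i))) = of F (Sum.inl i)
        rw [invT_inl, Inv_T_sub, invT_inl, invT_inr, sub_sub_cancel]
      · show invT (invT (of F (Sum.inr i))) = of F (Sum.inr i)
        rw [invT_inr, invT_inr]
    | ih2 u v hu hv =>
      show invT (invT (mo F u * mo F v)) = mo F u * mo F v
      rw [invT_mul, invT_mul, hu, hv]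

theorem evt_invT (f : FB F) : evt F (invT f) = star (evt F f) := by
  refine Words_ind (p := fun f : FB F => evt F (invT f) = star (evt F f)) ?_ ?_ ?_ ?_ f
  · rw [Inv_T_zero, map_zero, star_zero]
  · intro f g hf hg
    rw [invT_add, map_add, map_add, hf, hg, star_add]
  · intro k f hf
    rw [invT_smul, map_smul, map_smul, hf, star_smul_Fn]
  · intro w
    induction w with
    | ih1 a =>
      rcases a with i | i
      · show evt F (invT (of F (Sum.inl i))) = star (evt F (of F (Sum.inl i)))
        have h1 : evt F (of F (Sum.inl i)) = XX F i := Real_evt_inl i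
        have h2 : evt F (of F (Sum.inr i)) = tX F i := Real_evt_inr i
        rw [invT_inl, map_sub, h1, h2, tX, add_sub_cancel_left]
      · show evt F (invT (of F (Sum.inr i))) = star (evt F (of F (Sum.inr i)))
        have h2 : evt F (of F (Sum.inr i)) = tX F i := Real_evt_inr i
        rw [invT_inr, h2, (isSc_tX i).star_eq]
    | ih2 u v hu hv =>
      show evt F (invT (mo F u * mo F v)) = star (evt F (mo F u * mo F v))
      rw [invT_mul, map_mul, map_mul, hu, hv, star_mul]

theorem invT_mem {m : Multiset ℕ} {f : FB F} (hf : f ∈ PP F ix m) : invT f ∈ PP F ix m := by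
  refine PP_induction ix (p := fun f : FB F => invT f ∈ PP F ix m) ?_ ?_ ?_ ?_ hf
  · rw [Inv_T_zero]
    exact Submodule.zero_mem _
  · intro f g hf hg
    rw [invT_add]
    exact Submodule.add_mem _ hf hg
  · intro k f hf
    rw [invT_smul]
    exact Submodule.smul_mem _ _ hf
  · rintro w rfl
    clear hf f
    induction w with
    | ih1 a =>
      rcases a with i | i
      · show invT (of F (Sum.inl i)) ∈ PP F ix {i}
        rw [invT_inl]
        exact Submodule.sub_mem _ (of_mem ix (Sum.inr i)) (of_mem ix (Sum.inl i))
      · show invT (of F (Sum.inr i)) ∈ PP F ix {i}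
        rw [invT_inr]
        exact of_mem ix (Sum.inr i)
    | ih2 u v hu hv =>
      show invT (mo F u * mo F v) ∈ PP F ix (lets ix u + lets ix v)
      rw [invT_mul, add_comm]
      exact PP_mul ix hv hu

theorem invW_add (f g : FA F) : invW (f + g) = invW f + invW g := by
  unfold invW
  rw [map_add]
  rfl

theorem invW_smul (c : F) (f : FA F) : invW (c • f) = c • invW f := by
  unfold invW
  rw [map_smul]
  rfl

theorem invW_mul (f g : FA F) : invW (f * g) = invW g * invW f := by
  unfold invW
  rw [map_mul]
  rfl

theorem Inv_W_zero : invW (0 : FA F) = 0 := by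
  unfold invW
  rw [map_zero]
  rfl

theorem Inv_W_neg (f : FA F) : invW (-f) = -invW f := by
  unfold invW
  rw [map_neg]
  rfl

theorem invW_of (i : ℕ) : invW (of F i) = -of F i := by
  unfold invW invWHom
  rw [lift_of_apply]
  rfl

theorem invW_invW (f : FA F) : invW (invW f) = f := by
  refine Words_ind (p := fun f : FA F => invW (invW f) = f) ?_ ?_ ?_ ?_ f
  · rw [Inv_W_zero, Inv_W_zero]
  · intro f g hf hg
    rw [invW_add, invW_add, hf, hg]
  · intro k f hf
    rw [invW_smul, invW_smul, hf]
  · intro w
    induction w with
    | ih1 i =>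
      show invW (invW (of F i)) = of F i
      rw [invW_of, Inv_W_neg, invW_of, neg_neg]
    | ih2 u v hu hv =>
      show invW (invW (mo F u * mo F v)) = mo F u * mo F v
      rw [invW_mul, invW_mul, hu, hv]

theorem star_x0 (i : ℕ) : star (x0 F i) = -x0 F i := by
  unfold x0
  rw [star_smul_Fn, star_sub, star_star, ← smul_neg, neg_sub]

theorem evw_invW (f : FA F) : evw F (invW f) = star (evw F f) := by
  refine Words_ind (p := fun f : FA F => evw F (invW f) = star (evw F f)) ?_ ?_ ?_ ?_ f
  · rw [Inv_W_zero, map_zero, star_zero]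
  · intro f g hf hg
    rw [invW_add, map_add, map_add, hf, hg, star_add]
  · intro k f hf
    rw [invW_smul, map_smul, map_smul, hf, star_smul_Fn]
  · intro w
    induction w with
    | ih1 i =>
      show evw F (invW (of F i)) = star (evw F (of F i))
      have h1 : evw F (of F i) = x0 F i := lift_of_apply _ _ _
      rw [invW_of, map_neg, h1, star_x0]
    | ih2 u v hu hv =>
      show evw F (invW (mo F u * mo F v)) = star (evw F (mo F u * mo F v))
      rw [invW_mul, map_mul, map_mul, hu, hv, star_mul]

theorem invW_mem {m : Multiset ℕ} {f : FA F} (hf : f ∈ P F m) : invW f ∈ P F m := by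
  refine PP_induction id (p := fun f : FA F => invW f ∈ P F m) ?_ ?_ ?_ ?_ hf
  · rw [Inv_W_zero]
    exact Submodule.zero_mem _
  · intro f g hf hg
    rw [invW_add]
    exact Submodule.add_mem _ hf hg
  · intro k f hf
    rw [invW_smul]
    exact Submodule.smul_mem _ _ hf
  · rintro w rfl
    clear hf f
    induction w with
    | ih1 i =>
      show invW (of F i) ∈ P F {i}
      rw [invW_of]
      exact Submodule.neg_mem _ (of_mem id i)
    | ih2 u v hu hv =>
      show invW (mo F u * mo F v) ∈ P F (lets id u + lets id v)
      rw [invW_mul, add_comm]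
      exact PP_mul id hv hu

end Pool.Agent.OB
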