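import Pool.Agent.OB.Act
import Pool.Agent.OB.Inv

/-!
# The action of traces and norms  (module ActTr)

Notation: `w` for `π (mo w)`, and for the real value of the word `w`.
`Act_TT`: for `f ∈ TT x s`, `2 • Lam f l = T x (sb (up x 1) (evt f) * l)` by linearity from `Act_t`.

`Act_inv` (induction on `u`): `u = x`: `invT x = t_x - x`. `u = a b`: `invT (a b) = invT b * invT a`;
`Lam (b* a*) l = Lam b* (ā l + l ā) - Rho a* (b̄ l)`, with `ā = t_a - a`, by induction
`= Tr_b (2 t_a l - a l - l a) - b β(2 t_a l - a l - l a) - Tr_a (t_b l - b l) + β(t_b l - b l) a`; by `Tr_left`,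
`Tr_right`, `Tr_comm` this is `Tr_b (t_a l) - a β(t_b l) - b β(t_a l) + b (a βl) + b (βl a) - (b βl) a`
`= Tr_(ab) l - (a ∘ b) βl + (b a) βl = Tr_(ab) l - (a b) βl`. The right version the same with `Tr_mul_right`.

`Act_nm`: `Lam (u v*) l = Lam u (v̄ l + l v̄) - Rho v* (u l) = u β(2 t_v l - v l - l v) - Tr_v (u l) + β(u l) v`
`= u β(t_v l) - (u v) βl` (`Tr_left`; alternativity). Sum of the two; the right version is equal by `q_comm`.

`isCT_nm`: `left`, `right` are `q_left`, `q_right`. `isCT_tr`: `Tr_left`, `Tr_right`.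

`ct_com`: with `X = β (s + m) (evt z * l)`: `Lam (z w) l = Lam z (w l + l w) - Rho w (z l) = w X + X w - X w = w X`,
`Lam (w z) l = Lam w (z l + l z) - Rho z (w l) = 2 w X - w X`; `Rho (z w) l = X w = Rho (w z) l`.
`ct_assoc`: `Lam ((z w) w') l = w (w' X + X w') - (w X) w'`, `Lam (z (w w')) l = (w w') X`,
`Rho ((z w) w') l = (X w + w X) w' - w (X w')`, `Rho (z (w w')) l = X (w w')`; alternativity.
-/

set_option autoImplicit false
set_option linter.unusedSectionVars false

namespace Pool.Agent.OB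

open FreeNonUnitalNonAssocAlgebra Pool.Agent.H.MP_41922c_al Pool.Agent.Smt

variable {F : Type*} [Field F] {R : Type*} [NonUnitalNonAssocRing R] [Module F R]
  [IsScalarTower F R R] [SMulCommClass F R R]

/-- the span of the words of multidegree `s` that contain the letter `t_x` -/
noncomputable def TT (F : Type*) [Field F] (x : ℕ) (s : Multiset ℕ) : Submodule F (FB F) :=
  Submodule.span F {f | ∃ w : FreeMagma (ℕ ⊕ ℕ), InW (Sum.inr x) w ∧ lets ix w = s ∧ mo F w = f}

theorem TT_le (x : ℕ) (s : Multiset ℕ) : TT F x s ≤ PP F ix s := by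
  refine Submodule.span_mono ?_
  rintro f ⟨w, _, h2, h3⟩
  exact ⟨w, h2, h3⟩

theorem mo_mem_TT {x : ℕ} {w : FreeMagma (ℕ ⊕ ℕ)} (hw : InW (Sum.inr x) w) :
    mo F w ∈ TT F x (lets ix w) :=
  Submodule.subset_span ⟨w, hw, rfl, rfl⟩

theorem TT_mul {x : ℕ} {s s' : Multiset ℕ} {f g : FB F} (hf : f ∈ TT F x s)
    (hg : g ∈ PP F ix s') : f * g ∈ TT F x (s + s') ∧ g * f ∈ TT F x (s + s') := by
  refine Submodule.span_induction (p := fun f _ => f * g ∈ TT F x (s + s') ∧
    g * f ∈ TT F x (s + s')) ?_ ?_ ?_ ?_ hf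
  · rintro _ ⟨w, hw, rfl, rfl⟩
    refine Words_PP_ind ix (p := fun g => mo F w * g ∈ TT F x (lets ix w + s') ∧
      g * mo F w ∈ TT F x (lets ix w + s')) ?_ ?_ ?_ ?_ hg
    · rw [mul_zero, zero_mul]
      exact ⟨Submodule.zero_mem _, Submodule.zero_mem _⟩
    · rintro a b ⟨ha, ha'⟩ ⟨hb, hb'⟩
      rw [mul_add, add_mul]
      exact ⟨Submodule.add_mem _ ha hb, Submodule.add_mem _ ha' hb'⟩
    · rintro k a ⟨ha, ha'⟩
      rw [mul_smul_comm, smul_mul_assoc]
      exact ⟨Submodule.smul_mem _ k ha, Submodule.smul_mem _ k ha'⟩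
    · rintro w' rfl
      refine ⟨Submodule.subset_span ⟨w * w', Or.inl hw, rfl, rfl⟩,
        Submodule.subset_span ⟨w' * w, Or.inr hw, ?_, rfl⟩⟩
      exact add_comm (lets ix w') (lets ix w)
  · rw [mul_zero, zero_mul]
    exact ⟨Submodule.zero_mem _, Submodule.zero_mem _⟩
  · rintro a b _ _ ⟨ha, ha'⟩ ⟨hb, hb'⟩
    rw [mul_add, add_mul]
    exact ⟨Submodule.add_mem _ ha hb, Submodule.add_mem _ ha' hb'⟩
  · rintro k a _ ⟨ha, ha'⟩
    rw [mul_smul_comm, smul_mul_assoc]
    exact ⟨Submodule.smul_mem _ k ha, Submodule.smul_mem _ k ha'⟩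

theorem ActTr_TT_inv {x : ℕ} (w : FreeMagma (ℕ ⊕ ℕ)) (hw : InW (Sum.inr x) w) :
    invT (mo F w) ∈ TT F x (lets ix w) := by
  induction w with
  | ih1 a =>
    have h : a = Sum.inr x := hw
    subst h
    have h1 : mo F (FreeMagma.of (Sum.inr x : ℕ ⊕ ℕ)) = of F (Sum.inr x) := rfl
    rw [h1, invT_inr, ← h1]
    exact mo_mem_TT rfl
  | ih2 u v hu hv =>
    have h1 : mo F (u * v) = mo F u * mo F v := rfl
    have h2 : lets ix (u * v) = lets ix u + lets ix v := rfl
    rw [h1, h2, invT_mul]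
    rcases hw with hw | hw
    · exact (TT_mul (hu hw) (invT_mem (mo_mem ix v))).2
    · rw [add_comm]
      exact (TT_mul (hv hw) (invT_mem (mo_mem ix u))).1

theorem TT_inv {x : ℕ} {s : Multiset ℕ} {f : FB F} (hf : f ∈ TT F x s) : invT f ∈ TT F x s := by
  refine Submodule.span_induction (p := fun f _ => invT f ∈ TT F x s) ?_ ?_ ?_ ?_ hf
  · rintro _ ⟨w, hw, rfl, rfl⟩
    exact ActTr_TT_inv w hw
  · show invT (0 : FB F) ∈ TT F x s
    rw [Inv_T_zero]
    exact Submodule.zero_mem _
  · intro a b _ _ ha hb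
    rw [invT_add]
    exact Submodule.add_mem _ ha hb
  · intro k a _ ha
    rw [invT_smul]
    exact Submodule.smul_mem _ k ha

variable {π : FA F →ₙₐ[F] R} {V : Multiset ℕ} {β : Multiset ℕ → Fn F →ₗ[F] R}
  {T : ℕ → Fn F →ₗ[F] R}

theorem ActTr_two (h2 : (2 : F) ≠ 0) {a : R} (h : (2 : F) • a = 0) : a = 0 := by
  have h1 := congrArg (fun z => (2 : F)⁻¹ • z) h
  simpa only [smul_smul, inv_mul_cancel₀ h2, one_smul, smul_zero] using h1

theorem ActTr_tt (h : Ctx π V) (hβ : IsBeta π V β) (hT : IsTT π V β T) {x : ℕ} {s m : Multiset ℕ}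
    (e : s + m = V) {f : FB F} (hf : f ∈ TT F x s) {l : Fn F} (hl : l ∈ LF F m) :
    (2 : F) • Lam π V β T f l = T x (sb (up F x 1) (evt F f) * l) ∧
      (2 : F) • Rho π V β T f l = T x (l * sb (up F x 1) (evt F f)) := by
  refine Submodule.span_induction (p := fun f _ =>
    (2 : F) • Lam π V β T f l = T x (sb (up F x 1) (evt F f) * l) ∧
      (2 : F) • Rho π V β T f l = T x (l * sb (up F x 1) (evt F f))) ?_ ?_ ?_ ?_ hf
  · rintro _ ⟨w, hw, rfl, rfl⟩
    exact Act_t h hβ hT w hw e hl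
  · simp only [map_zero, LinearMap.zero_apply, zero_mul, mul_zero, smul_zero, and_self]
  · rintro f g _ _ ⟨hf, hf'⟩ ⟨hg, hg'⟩
    simp only [map_add, LinearMap.add_apply, add_mul, mul_add, smul_add, hf, hf', hg, hg',
      and_self]
  · rintro k f _ ⟨hf, hf'⟩
    simp only [map_smul, LinearMap.smul_apply, smul_mul_assoc, mul_smul_comm]
    rw [smul_comm, hf, smul_comm, hf']
    exact ⟨rfl, rfl⟩

/-- the action of an element of `TT x s` depends only on its real value -/
theorem Act_TT (h : Ctx π V) (hβ : IsBeta π V β) (hT : IsTT π V β T) {x : ℕ} {s m : Multiset ℕ}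
    (e : s + m = V) {f : FB F} (hf : f ∈ TT F x s) (h0 : evt F f = 0) {l : Fn F}
    (hl : l ∈ LF F m) : Lam π V β T f l = 0 ∧ Rho π V β T f l = 0 := by
  have h1 := ActTr_tt h hβ hT e hf hl
  rw [h0, map_zero, zero_mul, mul_zero, map_zero] at h1
  exact ⟨ActTr_two h.two h1.1, ActTr_two h.two h1.2⟩

/-- `β` of a product with a word -/
theorem ActTr_b (h : Ctx π V) (hβ : IsBeta π V β) (u : FreeMagma ℕ) {k m : Multiset ℕ}
    (e : k + (lets id u + m) = V) (hk : k ≠ 0) {l : Fn F} (hl : l ∈ LF F m) :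
    β (lets id u + m) (ev F (mo F u) * l) = π (mo F u) * β m l ∧
      β (lets id u + m) (l * ev F (mo F u)) = β m l * π (mo F u) := by
  have hn := h.nodup
  rw [← e, Multiset.nodup_add] at hn
  have nu := hn.2.1
  have cu : (lets id u + m).card < V.card := by
    have hc : 0 < k.card := Multiset.card_pos.2 hk
    rw [← e, Multiset.card_add k]
    omega
  have hev : ev F (mo F u) ∈ UU F (lets id u) := ⟨mo F u, mo_mem id u, rfl⟩
  have hlU := LF_le_UU m hl
  have k' := hβ (lets id u) (Multiset.nodup_add.1 nu).1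
    (lt_of_le_of_lt (Multiset.card_le_card (Multiset.le_add_right _ _)) cu) _ (mo_mem id u)
  constructor
  · rw [beta_mul h hβ nu cu hev hlU, k']
  · have nu' := nu
    have cu' := cu
    rw [add_comm] at nu' cu'
    rw [add_comm (lets id u), beta_mul h hβ nu' cu' hlU hev, k']

theorem ActTr_ev_AF (w : FreeMagma ℕ) : ev F (mo F w) ∈ AF F (lets id w) :=
  UU_le_AF _ ⟨mo F w, mo_mem id w, rfl⟩

theorem ActTr_Lm (h : Ctx π V) (w : FreeMagma ℕ) {m : Multiset ℕ} {l : Fn F} (hl : l ∈ LF F m) :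
    ev F (mo F w) * l ∈ LF F (lets id w + m) ∧ l * ev F (mo F w) ∈ LF F (lets id w + m) := by
  refine ⟨AF_mul_LF h.two h.three (ActTr_ev_AF w) hl, ?_⟩
  rw [add_comm]
  exact LF_mul_AF h.two h.three (ActTr_ev_AF w) hl

/-- the conjugate of a word times a form -/
theorem ActTr_st (w : FreeMagma ℕ) (l : Fn F) :
    star (ev F (mo F w)) * l = trf (ev F (mo F w)) * l - ev F (mo F w) * l ∧
      l * star (ev F (mo F w)) = trf (ev F (mo F w)) * l - l * ev F (mo F w) := by
  have h1 : star (ev F (mo F w)) = trf (ev F (mo F w)) - ev F (mo F w) := by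
    unfold trf
    rw [add_sub_cancel_left]
  constructor
  · rw [h1, sub_mul]
  · rw [h1, mul_sub, ← (isSc_trf (ev F (mo F w))).comm]

theorem ActTr_evs (w : FreeMagma ℕ) : evt F (invT (emb F (mo F w))) = star (ev F (mo F w)) := by
  rw [evt_invT, evt_emb]

theorem ActTr_ne (w : FreeMagma ℕ) {k : Multiset ℕ} : lets id w + k ≠ 0 := by
  intro h
  exact lets_ne id w (add_eq_zero.1 h).1

theorem Act_inv (h : Ctx π V) (hβ : IsBeta π V β) (hT : IsTT π V β T) (u : FreeMagma ℕ)
    {m : Multiset ℕ} (e : lets id u + m = V) {l : Fn F} (hl : l ∈ LF F m) :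
    Lam π V β T (invT (emb F (mo F u))) l = Tr π V β T u l - π (mo F u) * β m l ∧
      Rho π V β T (invT (emb F (mo F u))) l = Tr π V β T u l - β m l * π (mo F u) := by
  induction u generalizing m l with
  | ih1 x =>
    have e' : V.erase x = m := by
      have e1 : ({x} : Multiset ℕ) + m = V := e
      rw [← e1, Multiset.singleton_add, Multiset.erase_cons_head]
    have h1 : emb F (mo F (FreeMagma.of x)) = of F (Sum.inl x) := Act_emb_of x
    rw [h1, invT_inl, map_sub, map_sub, LinearMap.sub_apply, LinearMap.sub_apply, Lam_inr,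
      Rho_inr, Lam_inl, Rho_inl, e', Tr_of]
    exact ⟨rfl, rfl⟩
  | ih2 a b iha ihb =>
    have e0 : lets id a + lets id b + m = V := e
    have ea : lets id a + (lets id b + m) = V := by rw [← e0]; abel
    have eb : lets id b + (lets id a + m) = V := by rw [← e0]; abel
    have eba : lets id b + lets id a + m = V := by rw [← e0]; abel
    have hab : emb F (mo F (a * b)) = emb F (mo F a) * emb F (mo F b) :=
      map_mul (emb F) (mo F a) (mo F b)
    have hpi : π (mo F (a * b)) = π (mo F a) * π (mo F b) := map_mul π (mo F a) (mo F b)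
    have hj : π (jor (mo F a) (mo F b)) = π (mo F a) * π (mo F b) + π (mo F b) * π (mo F a) := by
      unfold jor
      rw [map_add, map_mul, map_mul]
    -- the members
    obtain ⟨mal, mla⟩ := ActTr_Lm h a hl
    obtain ⟨mbl, mlb⟩ := ActTr_Lm h b hl
    have mta := Tr_mem h a hl
    have mtb := Tr_mem h b hl
    obtain ⟨sal, sla⟩ := ActTr_st (F := F) a l
    obtain ⟨sbl, slb⟩ := ActTr_st (F := F) b l
    have hb1 := ihb eb (l := star (ev F (mo F a)) * l) (by
      rw [sal]; exact Submodule.sub_mem _ mta mal)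
    have hb2 := ihb eb (l := l * star (ev F (mo F a))) (by
      rw [sla]; exact Submodule.sub_mem _ mta mla)
    have ha1 := iha ea (l := star (ev F (mo F b)) * l) (by
      rw [sbl]; exact Submodule.sub_mem _ mtb mbl)
    have ha2 := iha ea (l := l * star (ev F (mo F b))) (by
      rw [slb]; exact Submodule.sub_mem _ mtb mlb)
    -- values of `β`
    obtain ⟨b1, b2⟩ := ActTr_b h hβ a eb (lets_ne id b) hl
    obtain ⟨b3, b4⟩ := ActTr_b h hβ b ea (lets_ne id a) hl
    -- values of the traces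
    have t1 := Tr_left h hβ hT b a eba hl
    have t2 := Tr_right h hβ hT b a eba hl
    have t3 := Tr_left h hβ hT a b e0 hl
    have t4 := Tr_right h hβ hT a b e0 hl
    have t5 := Tr_comm h hβ hT a b e0 hl
    have r1 := Tr_mul (π := π) (V := V) (β := β) (T := T) a b l
    have r2 := Tr_mul_right (T := T) h hβ a b e0 hl
    rw [Tr_sub ea, Tr_sub eb, Tr_sub rfl] at r1
    have al := TOps_alt_left (alt12_R h.sat) (alt23_R h.sat) (π (mo F b)) (π (mo F a)) (β m l)
    have ar := TOps_alt_right (alt12_R h.sat) (alt23_R h.sat) (π (mo F b)) (π (mo F a)) (β m l)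
    rw [hj, add_mul] at r1
    rw [hj, mul_add] at r2
    constructor
    · rw [hab, invT_mul, Lam_mul, ActTr_evs, ActTr_evs, hb1.1, hb2.1, ha1.2, sal, sla, sbl, hpi]
      simp only [map_sub, t1, t2, t3, t5, b1, b2, b3, mul_sub, sub_mul]
      rw [r1, al]
      abel
    · rw [hab, invT_mul, Rho_mul, ActTr_evs, ActTr_evs, hb2.1, ha1.2, ha2.2, sla, sbl, slb, hpi]
      simp only [map_sub, t2, t3, t4, t5, b2, b3, b4, mul_sub, sub_mul]
      rw [r2, ar]
      abel

/-- the norm `u v* + v u*` -/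
noncomputable def nmz (F : Type*) [Field F] (u v : FreeMagma ℕ) : FB F :=
  emb F (mo F u) * invT (emb F (mo F v)) + emb F (mo F v) * invT (emb F (mo F u))

theorem ActTr_nm (h : Ctx π V) (hβ : IsBeta π V β) (hT : IsTT π V β T) (u v : FreeMagma ℕ)
    {m : Multiset ℕ} (e : lets id u + lets id v + m = V) {l : Fn F} (hl : l ∈ LF F m) :
    Lam π V β T (emb F (mo F u) * invT (emb F (mo F v))) l =
      π (mo F u) * β (lets id v + m) (trf (ev F (mo F v)) * l)
        - (π (mo F u) * π (mo F v)) * β m l ∧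
      Rho π V β T (emb F (mo F u) * invT (emb F (mo F v))) l =
      β (lets id v + m) (trf (ev F (mo F v)) * l) * π (mo F u)
        - β m l * (π (mo F u) * π (mo F v)) := by
  have eu : lets id u + (lets id v + m) = V := by rw [← e]; abel
  have ev' : lets id v + (lets id u + m) = V := by rw [← e]; abel
  have evu : lets id v + lets id u + m = V := by rw [← e]; abel
  obtain ⟨mul', mlu⟩ := ActTr_Lm h u hl
  obtain ⟨mvl, mlv⟩ := ActTr_Lm h v hl
  have mtv := Tr_mem h v hl
  obtain ⟨svl, slv⟩ := ActTr_st (F := F) v l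
  have hu1 := Act_hon (T := T) h hβ eu (mo_mem id u) (l := star (ev F (mo F v)) * l) (by
      rw [svl]; exact Submodule.sub_mem _ mtv mvl)
  have hu2 := Act_hon (T := T) h hβ eu (mo_mem id u) (l := l * star (ev F (mo F v))) (by
      rw [slv]; exact Submodule.sub_mem _ mtv mlv)
  have hv1 := Act_inv h hβ hT v ev' mul'
  have hv2 := Act_inv h hβ hT v ev' mlu
  obtain ⟨b1, b2⟩ := ActTr_b h hβ v eu (lets_ne id u) hl
  obtain ⟨b3, b4⟩ := ActTr_b h hβ u ev' (lets_ne id v) hl
  have t1 := Tr_left h hβ hT v u evu hl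
  have t2 := Tr_right h hβ hT v u evu hl
  have al := TOps_alt_left (alt12_R h.sat) (alt23_R h.sat) (π (mo F u)) (π (mo F v)) (β m l)
  have ar := TOps_alt_right (alt12_R h.sat) (alt23_R h.sat) (π (mo F u)) (π (mo F v)) (β m l)
  constructor
  · rw [Lam_mul, ActTr_evs, evt_emb, hu1.1, hu2.1, hv1.2, svl, slv]
    simp only [map_sub, t1, b1, b2, b3, mul_sub]
    rw [al]
    abel
  · rw [Rho_mul, ActTr_evs, evt_emb, hv2.2, hv1.2, hu2.1, slv]
    simp only [map_sub, t1, t2, b2, b3, b4, mul_sub]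
    rw [ar]
    abel

theorem Act_nm (h : Ctx π V) (hβ : IsBeta π V β) (hT : IsTT π V β T) (u v : FreeMagma ℕ)
    {m : Multiset ℕ} (e : lets id u + lets id v + m = V) {l : Fn F} (hl : l ∈ LF F m) :
    Lam π V β T (nmz F u v) l =
      π (mo F u) * β (lets id v + m) (trf (ev F (mo F v)) * l)
        + π (mo F v) * β (lets id u + m) (trf (ev F (mo F u)) * l)
        - π (jor (mo F u) (mo F v)) * β m l ∧
      Rho π V β T (nmz F u v) l = Lam π V β T (nmz F u v) l := by
  have evu : lets id v + lets id u + m = V := by rw [← e]; abel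
  have h1 := ActTr_nm h hβ hT u v e hl
  have h2 := ActTr_nm h hβ hT v u evu hl
  have hj : π (jor (mo F u) (mo F v)) = π (mo F u) * π (mo F v) + π (mo F v) * π (mo F u) := by
    unfold jor
    rw [map_add, map_mul, map_mul]
  have hL : Lam π V β T (nmz F u v) l =
      π (mo F u) * β (lets id v + m) (trf (ev F (mo F v)) * l)
        + π (mo F v) * β (lets id u + m) (trf (ev F (mo F u)) * l)
        - π (jor (mo F u) (mo F v)) * β m l := by
    unfold nmz
    rw [map_add, LinearMap.add_apply, h1.1, h2.1, hj, add_mul]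
    abel
  refine ⟨hL, ?_⟩
  rw [hL, q_comm h hβ u v e hl]
  unfold nmz
  rw [map_add, LinearMap.add_apply, h1.2, h2.2, hj, mul_add]
  abel

/-- `z` acts as a central element -/
structure IsCT (π : FA F →ₙₐ[F] R) (V : Multiset ℕ) (β : Multiset ℕ → Fn F →ₗ[F] R)
    (T : ℕ → Fn F →ₗ[F] R) (s : Multiset ℕ) (z : FB F) : Prop where
  mem : z ∈ PP F ix s
  sc : IsSc (evt F z)
  symm : ∀ m : Multiset ℕ, s + m = V → ∀ l ∈ LF F m, Lam π V β T z l = Rho π V β T z l
  left : ∀ (w : FreeMagma ℕ) (m : Multiset ℕ), s + lets id w + m = V → ∀ l ∈ LF F m,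
    Lam π V β T z (ev F (mo F w) * l) = π (mo F w) * β (s + m) (evt F z * l)
  right : ∀ (w : FreeMagma ℕ) (m : Multiset ℕ), s + lets id w + m = V → ∀ l ∈ LF F m,
    Lam π V β T z (l * ev F (mo F w)) = β (s + m) (evt F z * l) * π (mo F w)

theorem ActTr_tr (h : Ctx π V) (hβ : IsBeta π V β) (hT : IsTT π V β T) (u : FreeMagma ℕ)
    {m : Multiset ℕ} (e : lets id u + m = V) {l : Fn F} (hl : l ∈ LF F m) :
    Lam π V β T (emb F (mo F u) + invT (emb F (mo F u))) l = Tr π V β T u l ∧
      Rho π V β T (emb F (mo F u) + invT (emb F (mo F u))) l = Tr π V β T u l := by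
  have h1 := Act_inv h hβ hT u e hl
  have h2 := Act_hon (T := T) h hβ e (mo_mem id u) hl
  constructor
  · rw [map_add, LinearMap.add_apply, h1.1, h2.1]
    abel
  · rw [map_add, LinearMap.add_apply, h1.2, h2.2]
    abel

theorem ActTr_evtr (u : FreeMagma ℕ) :
    evt F (emb F (mo F u) + invT (emb F (mo F u))) = trf (ev F (mo F u)) := by
  rw [map_add, evt_emb, ActTr_evs]
  rfl

theorem isCT_tr (h : Ctx π V) (hβ : IsBeta π V β) (hT : IsTT π V β T) (u : FreeMagma ℕ) :
    IsCT π V β T (lets id u) (emb F (mo F u) + invT (emb F (mo F u))) where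
  mem := Submodule.add_mem _ (emb_mem (mo_mem id u)) (invT_mem (emb_mem (mo_mem id u)))
  sc := by
    rw [ActTr_evtr]
    exact isSc_trf _
  symm := by
    intro m e l hl
    rw [(ActTr_tr h hβ hT u e hl).1, (ActTr_tr h hβ hT u e hl).2]
  left := by
    intro w m e l hl
    have e' : lets id u + (lets id w + m) = V := by rw [← e]; abel
    rw [(ActTr_tr h hβ hT u e' (ActTr_Lm h w hl).1).1, ActTr_evtr]
    exact Tr_left h hβ hT u w e hl
  right := by
    intro w m e l hl
    have e' : lets id u + (lets id w + m) = V := by rw [← e]; abel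
    rw [(ActTr_tr h hβ hT u e' (ActTr_Lm h w hl).2).1, ActTr_evtr]
    exact Tr_right h hβ hT u w e hl

theorem ActTr_evnm (u v : FreeMagma ℕ) : evt F (nmz F u v) =
    ev F (mo F u) * star (ev F (mo F v)) + ev F (mo F v) * star (ev F (mo F u)) := by
  unfold nmz
  rw [map_add, map_mul, map_mul, evt_emb, evt_emb, ActTr_evs, ActTr_evs]

/-- the real identity for the norm -/
theorem ActTr_real (a b l : Fn F) : (a * star b + b * star a) * l =
    a * (trf b * l) + b * (trf a * l) - jor a b * l := by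
  have ha : star a = trf a - a := by unfold trf; rw [add_sub_cancel_left]
  have hb : star b = trf b - b := by unfold trf; rw [add_sub_cancel_left]
  have h1 : ∀ c d : Fn F, (c * trf d) * l = c * (trf d * l) := by
    intro c d
    exact ((isSc_trf d).assoc c l).2.1
  rw [ha, hb, mul_sub, mul_sub, add_mul, sub_mul, sub_mul, h1, h1, jor, add_mul]
  abel

theorem isCT_nm (h : Ctx π V) (hβ : IsBeta π V β) (hT : IsTT π V β T) (u v : FreeMagma ℕ) :
    IsCT π V β T (lets id u + lets id v) (nmz F u v) where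
  mem := by
    unfold nmz
    refine Submodule.add_mem _ (PP_mul ix (emb_mem (mo_mem id u))
      (invT_mem (emb_mem (mo_mem id v)))) ?_
    rw [add_comm]
    exact PP_mul ix (emb_mem (mo_mem id v)) (invT_mem (emb_mem (mo_mem id u)))
  sc := by
    rw [ActTr_evnm]
    exact isSc_mul_star _ _
  symm := by
    intro m e l hl
    exact (Act_nm h hβ hT u v e hl).2.symm
  left := by
    intro w m e l hl
    have e' : lets id u + lets id v + (lets id w + m) = V := by rw [← e]; abel
    rw [(Act_nm h hβ hT u v e' (ActTr_Lm h w hl).1).1, ActTr_evnm, ActTr_real,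
      ← q_left h hβ u v w e hl, Tr_swap, Tr_swap, add_assoc, add_assoc]
  right := by
    intro w m e l hl
    have e' : lets id u + lets id v + (lets id w + m) = V := by rw [← e]; abel
    rw [(Act_nm h hβ hT u v e' (ActTr_Lm h w hl).2).1, ActTr_evnm, ActTr_real,
      ← q_right h hβ u v w e hl, Tr_swap', Tr_swap', add_assoc, add_assoc]

theorem ActTr_cc (a b : FA F) : com a b = a * b - b * a := rfl

/-- the products of a central element and a word -/
theorem ActTr_zw (h : Ctx π V) (hβ : IsBeta π V β) {s m : Multiset ℕ} {z : FB F}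
    (hz : IsCT π V β T s z) (w : FreeMagma ℕ) (e : s + lets id w + m = V) {l : Fn F}
    (hl : l ∈ LF F m) :
    Lam π V β T (z * emb F (mo F w)) l = π (mo F w) * β (s + m) (evt F z * l) ∧
      Rho π V β T (z * emb F (mo F w)) l = β (s + m) (evt F z * l) * π (mo F w) ∧
      Lam π V β T (emb F (mo F w) * z) l = π (mo F w) * β (s + m) (evt F z * l) ∧
      Rho π V β T (emb F (mo F w) * z) l = β (s + m) (evt F z * l) * π (mo F w) := by
  have ew : lets id w + (s + m) = V := by rw [← e]; abel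
  have es : s + (lets id w + m) = V := by rw [← e]; abel
  have hzl : evt F z * l ∈ LF F (s + m) :=
    AF_mul_LF h.two h.three ⟨z, hz.mem, rfl⟩ hl
  have hlz : l * evt F z = evt F z * l := (hz.sc.comm l).symm
  obtain ⟨a1, a2⟩ := Act_hon (T := T) h hβ ew (mo_mem id w) hzl
  have c1 := hz.left w m e l hl
  have c2 := hz.right w m e l hl
  have s1 := hz.symm _ es _ (ActTr_Lm h w hl).1
  have s2 := hz.symm _ es _ (ActTr_Lm h w hl).2
  refine ⟨?_, ?_, ?_, ?_⟩
  · rw [Lam_mul, evt_emb, c1, c2, a2]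
    abel
  · rw [Rho_mul, evt_emb, hlz, a2, c2]
    abel
  · rw [Lam_mul, evt_emb, hlz, a1, ← s1, c1]
    abel
  · rw [Rho_mul, evt_emb, hlz, a1, ← s1, ← s2, c1, c2]
    abel

theorem ct_com (h : Ctx π V) (hβ : IsBeta π V β) {s m : Multiset ℕ} {z : FB F}
    (hz : IsCT π V β T s z) (w : FreeMagma ℕ) (e : s + lets id w + m = V) {l : Fn F}
    (hl : l ∈ LF F m) : Lam π V β T (com z (emb F (mo F w))) l = 0 ∧
      Rho π V β T (com z (emb F (mo F w))) l = 0 := by
  obtain ⟨a1, a2, a3, a4⟩ := ActTr_zw h hβ hz w e hl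
  have h1 : com z (emb F (mo F w)) = z * emb F (mo F w) - emb F (mo F w) * z := rfl
  rw [h1, map_sub, map_sub, LinearMap.sub_apply, LinearMap.sub_apply, a1, a2, a3, a4, sub_self,
    sub_self]
  exact ⟨rfl, rfl⟩

theorem ct_assoc (h : Ctx π V) (hβ : IsBeta π V β) {s m : Multiset ℕ} {z : FB F}
    (hz : IsCT π V β T s z) (w w' : FreeMagma ℕ) (e : s + lets id w + lets id w' + m = V)
    {l : Fn F} (hl : l ∈ LF F m) :
    Lam π V β T (associator z (emb F (mo F w)) (emb F (mo F w'))) l = 0 ∧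
      Rho π V β T (associator z (emb F (mo F w)) (emb F (mo F w'))) l = 0 := by
  have ew : s + lets id w + (lets id w' + m) = V := by rw [← e]; abel
  have eww : s + lets id (w * w') + m = V := by
    rw [Tr_lets, ← e]; abel
  have e1 : lets id w' + (s + lets id w + m) = V := by rw [← e]; abel
  have e2 : lets id w + (lets id w' + (s + m)) = V := by rw [← e]; abel
  have e3 : lets id w' + (lets id w + (s + m)) = V := by rw [← e]; abel
  have hzl : evt F z * l ∈ LF F (s + m) :=
    AF_mul_LF h.two h.three ⟨z, hz.mem, rfl⟩ hl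
  have z1 : ∀ a b : Fn F, evt F z * (a * b) = a * (evt F z * b) := by
    intro a b
    rw [← (hz.sc.assoc a b).1, hz.sc.comm a, (hz.sc.assoc a b).2.1]
  have z2 : ∀ a b : Fn F, evt F z * (a * b) = (evt F z * a) * b := by
    intro a b
    rw [(hz.sc.assoc a b).1]
  obtain ⟨p1, p2, -, -⟩ := ActTr_zw h hβ hz w ew (ActTr_Lm h w' hl).1
  obtain ⟨p3, -, -, -⟩ := ActTr_zw h hβ hz w ew (ActTr_Lm h w' hl).2
  obtain ⟨q1, q2, -, -⟩ := ActTr_zw h hβ hz (w * w') eww hl
  obtain ⟨b1, b2⟩ := ActTr_b h hβ w' e2 (lets_ne id w) hzl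
  obtain ⟨b3, b4⟩ := ActTr_b h hβ w e3 (lets_ne id w') hzl
  have d1 : s + (lets id w' + m) = lets id w' + (s + m) := by abel
  have d2 : lets id w + (s + m) = s + lets id w + m := by abel
  rw [z1, d1, b1] at p1
  rw [z2, d1, b2] at p3
  have hzw : evt F (z * emb F (mo F w)) = evt F z * ev F (mo F w) := by
    rw [map_mul, evt_emb]
  have k1 : evt F (z * emb F (mo F w)) * l = ev F (mo F w) * (evt F z * l) := by
    rw [hzw, (hz.sc.assoc (ev F (mo F w)) l).1, z1]
  have k2 : l * evt F (z * emb F (mo F w)) = (evt F z * l) * ev F (mo F w) := by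
    have k3 := (hz.sc.assoc l (ev F (mo F w))).2.1
    rw [hzw, ← k3, hz.sc.comm l]
  have m1 : ev F (mo F w) * (evt F z * l) ∈ LF F (s + lets id w + m) := by
    rw [← d2]
    exact (ActTr_Lm h w hzl).1
  have m2 : (evt F z * l) * ev F (mo F w) ∈ LF F (s + lets id w + m) := by
    rw [← d2]
    exact (ActTr_Lm h w hzl).2
  obtain ⟨-, r1⟩ := Act_hon (T := T) h hβ e1 (mo_mem id w') m1
  obtain ⟨-, r2⟩ := Act_hon (T := T) h hβ e1 (mo_mem id w') m2
  rw [← d2] at r1 r2
  rw [b3] at r1
  rw [b4] at r2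
  have hww : emb F (mo F w) * emb F (mo F w') = emb F (mo F (w * w')) :=
    (map_mul (emb F) (mo F w) (mo F w')).symm
  have hpi : π (mo F (w * w')) = π (mo F w) * π (mo F w') := map_mul π (mo F w) (mo F w')
  have al := TOps_alt_left (alt12_R h.sat) (alt23_R h.sat) (π (mo F w)) (π (mo F w'))
    (β (s + m) (evt F z * l))
  have ar := TOps_alt_right (alt12_R h.sat) (alt23_R h.sat) (π (mo F w)) (π (mo F w'))
    (β (s + m) (evt F z * l))
  rw [hpi] at q1 q2
  rw [al] at q1
  rw [ar] at q2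
  have hA : associator z (emb F (mo F w)) (emb F (mo F w')) =
      (z * emb F (mo F w)) * emb F (mo F w') - z * emb F (mo F (w * w')) := by
    rw [associator_apply, hww]
  rw [hA, map_sub, map_sub, LinearMap.sub_apply, LinearMap.sub_apply, q1, q2]
  constructor
  · rw [Lam_mul, evt_emb, p1, p3, k1, r1]
    abel
  · rw [Rho_mul, evt_emb, k1, k2, r1, r2, p3]
    abel

end Pool.Agent.OB
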