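import Pool.Agent.OB.Real

/-!
# Alternating sums over nine variables vanish  (module AltN)

Pointwise: for `v : ℕ → O` the function of the values at `Y` is multilinear, and its
alternatization is an alternating map in `#Y ≥ 9 > 8 = dim O` variables, so it is 0 (two of nine basis
vectors coincide; see `MultilinearMap.alternatization`, `AlternatingMap` on a basis, or directly: expand the
values in the basis of the 8 coordinates; a term in which two variables `y, y'` take the same basis
vector cancels against its composite with the transposition).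
-/

set_option autoImplicit false
set_option linter.unusedSectionVars false

namespace Pool.Agent.OB

open FreeNonUnitalNonAssocAlgebra Pool.Agent.H.MP_41922c_al Pool.Agent.Smt

variable {F : Type*} [Field F]

theorem AltN_ev_of (i : ℕ) (v : ℕ → Oc F) : ev F (mo F (FreeMagma.of i)) v = v i := by
  have h : ev F (of F i) = XX F i := lift_of_apply F (XX F) i
  exact congrFun h v

theorem AltN_ev_mul (a b : FreeMagma ℕ) (v : ℕ → Oc F) :
    ev F (mo F (a * b)) v = ev F (mo F a) v * ev F (mo F b) v := by
  have h : ev F (mo F (a * b)) = ev F (mo F a) * ev F (mo F b) := map_mul (ev F) (mo F a) (mo F b)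
  exact congrFun h v

/-- words do not depend on the other variables -/
theorem AltN_congr (w : FreeMagma ℕ) {v v' : ℕ → Oc F} (h : ∀ i ∈ lets id w, v i = v' i) :
    ev F (mo F w) v = ev F (mo F w) v' := by
  induction w with
  | ih1 a =>
    rw [AltN_ev_of, AltN_ev_of]
    exact h a (Multiset.mem_singleton_self a)
  | ih2 a b ha hb =>
    rw [AltN_ev_mul, AltN_ev_mul]
    have e : lets id (a * b) = lets id a + lets id b := rfl
    rw [e] at h
    rw [ha fun i hi => h i (Multiset.mem_add.2 (Or.inl hi)),
      hb fun i hi => h i (Multiset.mem_add.2 (Or.inr hi))]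

theorem AltN_up (w : FreeMagma ℕ) {y : ℕ} (hy : y ∉ lets id w) (v : ℕ → Oc F) (a : Oc F) :
    ev F (mo F w) (Function.update v y a) = ev F (mo F w) v := by
  refine AltN_congr w fun i hi => ?_
  rw [Function.update_of_ne]
  rintro rfl
  exact hy hi

theorem AltN_add (w : FreeMagma ℕ) (hn : (lets id w).Nodup) {y : ℕ} (hy : y ∈ lets id w)
    (v : ℕ → Oc F) (a b : Oc F) :
    ev F (mo F w) (Function.update v y (a + b)) =
      ev F (mo F w) (Function.update v y a) + ev F (mo F w) (Function.update v y b) := by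
  induction w with
  | ih1 x =>
    have hx : y = x := Multiset.mem_singleton.1 hy
    subst hx
    rw [AltN_ev_of, AltN_ev_of, AltN_ev_of, Function.update_self, Function.update_self,
      Function.update_self]
  | ih2 p q hp hq =>
    have e : lets id (p * q) = lets id p + lets id q := rfl
    rw [e] at hn hy
    obtain ⟨n1, n2, n3⟩ := Multiset.nodup_add.1 hn
    rw [AltN_ev_mul, AltN_ev_mul, AltN_ev_mul]
    rcases Multiset.mem_add.1 hy with h | h
    · have h' : y ∉ lets id q := fun h2 => Multiset.disjoint_left.1 n3 h h2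
      rw [hp n1 h, AltN_up q h', AltN_up q h', AltN_up q h', add_mul]
    · have h' : y ∉ lets id p := fun h2 => Multiset.disjoint_left.1 n3 h2 h
      rw [hq n2 h, AltN_up p h', AltN_up p h', AltN_up p h', mul_add]

theorem AltN_smul (w : FreeMagma ℕ) (hn : (lets id w).Nodup) {y : ℕ} (hy : y ∈ lets id w)
    (v : ℕ → Oc F) (c : F) (a : Oc F) :
    ev F (mo F w) (Function.update v y (c • a)) =
      c • ev F (mo F w) (Function.update v y a) := by
  induction w with
  | ih1 x =>
    have hx : y = x := Multiset.mem_singleton.1 hy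
    subst hx
    rw [AltN_ev_of, AltN_ev_of, Function.update_self, Function.update_self]
  | ih2 p q hp hq =>
    have e : lets id (p * q) = lets id p + lets id q := rfl
    rw [e] at hn hy
    obtain ⟨n1, n2, n3⟩ := Multiset.nodup_add.1 hn
    rw [AltN_ev_mul, AltN_ev_mul]
    rcases Multiset.mem_add.1 hy with h | h
    · have h' : y ∉ lets id q := fun h2 => Multiset.disjoint_left.1 n3 h h2
      rw [hp n1 h, AltN_up q h', AltN_up q h', smul_mul_assoc]
    · have h' : y ∉ lets id p := fun h2 => Multiset.disjoint_left.1 n3 h2 h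
      rw [hq n2 h, AltN_up p h', AltN_up p h', mul_smul_comm]

/-- new values on `Y` -/
def AltN_ovr (Y : Finset ℕ) (v : ℕ → Oc F) (u : Y → Oc F) : ℕ → Oc F :=
  fun i => if h : i ∈ Y then u ⟨i, h⟩ else v i

theorem AltN_ovr_update (Y : Finset ℕ) (v : ℕ → Oc F) [DecidableEq Y] (u : Y → Oc F) (y : Y)
    (a : Oc F) :
    AltN_ovr Y v (Function.update u y a) = Function.update (AltN_ovr Y v u) (y : ℕ) a := by
  funext i
  unfold AltN_ovr
  by_cases h : i = (y : ℕ)
  · subst h
    rw [Function.update_self, dif_pos y.2, Function.update_self]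
  · rw [Function.update_of_ne h]
    by_cases hi : i ∈ Y
    · rw [dif_pos hi, dif_pos hi, Function.update_of_ne]
      intro h2
      exact h (congrArg Subtype.val h2)
    · rw [dif_neg hi, dif_neg hi]

/-- the value of a word as a multilinear map of the values at `Y` -/
noncomputable def AltN_map (w : FreeMagma ℕ) (hn : (lets id w).Nodup) (Y : Finset ℕ)
    (hY : ∀ y ∈ Y, y ∈ lets id w) (v : ℕ → Oc F) :
    MultilinearMap F (fun _ : Y => Oc F) (Oc F) where
  toFun u := ev F (mo F w) (AltN_ovr Y v u)
  map_update_add' u y a b := by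
    rw [AltN_ovr_update, AltN_ovr_update, AltN_ovr_update]
    exact AltN_add w hn (hY y y.2) _ a b
  map_update_smul' u y c a := by
    rw [AltN_ovr_update, AltN_ovr_update]
    exact AltN_smul w hn (hY y y.2) _ c a

/-- the coordinates of an octonion -/
def AltN_coord : Oc F →ₗ[F] (Fin 8 → F) where
  toFun x := ![x.m₁, x.m₂, x.m₃, x.m₄, x.a₁, x.a₂, x.c₁, x.c₂]
  map_add' x y := by
    funext i
    fin_cases i <;> rfl
  map_smul' c x := by
    funext i
    fin_cases i <;> rfl

theorem AltN_coord_inj : Function.Injective (AltN_coord (F := F)) := by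
  intro x y h
  have h' : ∀ i, AltN_coord x i = AltN_coord y i := fun i => congrFun h i
  exact Oc.ext (h' 0) (h' 1) (h' 2) (h' 3) (h' 4) (h' 5) (h' 6) (h' 7)

theorem AltN_dep (Y : Finset ℕ) (h9 : 9 ≤ Y.card) (u : Y → Oc F) : ¬ LinearIndependent F u := by
  intro h
  have h1 := h.map' AltN_coord (LinearMap.ker_eq_bot.2 AltN_coord_inj)
  have h2 := h1.fintype_card_le_finrank
  rw [Module.finrank_fin_fun, Fintype.card_coe] at h2
  omega

theorem AltN_word {w : FreeMagma ℕ} (hn : (lets id w).Nodup) (Y : Finset ℕ)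
    (hY : ∀ y ∈ Y, y ∈ lets id w) (h9 : 9 ≤ Y.card) :
    ∑ g : Equiv.Perm Y, ((Equiv.Perm.sign g : ℤ) : F) •
      sb (fun i => XX F (Equiv.Perm.ofSubtype g i)) (ev F (mo F w)) = 0 := by
  funext v
  have h1 := (MultilinearMap.alternatization (AltN_map w hn Y hY v)).map_linearDependent
    (fun y : Y => v y) (AltN_dep Y h9 _)
  rw [MultilinearMap.alternatization_apply] at h1
  rw [Finset.sum_apply, Pi.zero_apply, ← h1]
  refine Finset.sum_congr rfl fun g _ => ?_
  have e1 : AltN_ovr Y v (fun y : Y => v (g y)) = fun i => v (Equiv.Perm.ofSubtype g i) := by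
    funext i
    unfold AltN_ovr
    by_cases hi : i ∈ Y
    · rw [dif_pos hi, Equiv.Perm.ofSubtype_apply_of_mem g hi]
    · rw [dif_neg hi, Equiv.Perm.ofSubtype_apply_of_not_mem g hi]
  have e2 : (AltN_map w hn Y hY v).domDomCongr g (fun y : Y => v y) =
      ev F (mo F w) (fun i => v (Equiv.Perm.ofSubtype g i)) := by
    rw [← e1]
    rfl
  have e3 : sb (fun i => XX F (Equiv.Perm.ofSubtype g i)) (ev F (mo F w)) v =
      ev F (mo F w) (fun i => v (Equiv.Perm.ofSubtype g i)) := rfl
  rw [Pi.smul_apply, e2, e3, Units.smul_def]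
  exact Int.cast_smul_eq_zsmul F _ _

theorem alt_zero {m : Multiset ℕ} (hm : m.Nodup) {f : Fn F} (hf : f ∈ UU F m) (Y : Finset ℕ)
    (hY : ∀ y ∈ Y, y ∈ m) (h9 : 9 ≤ Y.card) :
    ∑ g : Equiv.Perm Y, ((Equiv.Perm.sign g : ℤ) : F) •
      sb (fun i => XX F (Equiv.Perm.ofSubtype g i)) f = 0 := by
  obtain ⟨p, hp, rfl⟩ := hf
  refine PP_induction id (p := fun p => ∑ g : Equiv.Perm Y, ((Equiv.Perm.sign g : ℤ) : F) •
      sb (fun i => XX F (Equiv.Perm.ofSubtype g i)) (ev F p) = 0) ?_ ?_ ?_ ?_ hp
  · refine Finset.sum_eq_zero fun g _ => ?_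
    rw [map_zero, map_zero, smul_zero]
  · intro a b ha hb
    have e : (fun g : Equiv.Perm Y => ((Equiv.Perm.sign g : ℤ) : F) •
        sb (fun i => XX F (Equiv.Perm.ofSubtype g i)) (ev F (a + b))) =
        fun g : Equiv.Perm Y => ((Equiv.Perm.sign g : ℤ) : F) •
        sb (fun i => XX F (Equiv.Perm.ofSubtype g i)) (ev F a) +
        ((Equiv.Perm.sign g : ℤ) : F) •
        sb (fun i => XX F (Equiv.Perm.ofSubtype g i)) (ev F b) := by
      funext g
      rw [map_add, map_add, smul_add]
    rw [e, Finset.sum_add_distrib, ha, hb, add_zero]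
  · intro k a ha
    have e : (fun g : Equiv.Perm Y => ((Equiv.Perm.sign g : ℤ) : F) •
        sb (fun i => XX F (Equiv.Perm.ofSubtype g i)) (ev F (k • a))) =
        fun g : Equiv.Perm Y => k • (((Equiv.Perm.sign g : ℤ) : F) •
        sb (fun i => XX F (Equiv.Perm.ofSubtype g i)) (ev F a)) := by
      funext g
      rw [map_smul, map_smul, smul_comm]
    rw [e, ← Finset.smul_sum, ha, smul_zero]
  · intro w hw
    subst hw
    exact AltN_word hm Y hY h9

end Pool.Agent.OB
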