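import Mathlib
import Pool.Agent.H.MP_41922c_al.Stmt

/-!
# The explicit basis (all definitions)

Everything here is defined by explicit recursions, without reference to the identities of the octonions.

For octonions `K = (x_1, .., x_r)` let `t_K` be the product of the traces. `GG K` gives polynomial expressions for
`t_K [a, [b, c]]` and `t_K ([a, b] ∘ [c, d])`, `LM` one for `t_K τ(a, b, c) d⁰`, where `τ(a, b, c) = t([a, b] c)` and
`d⁰ = d - t(d)/2`. An element of `Rep F` is a function of a list `K` of variables: `g` represents a polynomial function `l` if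
`g K` has the value `t_K l` for all `K`. Let `y_i = x_i⁰`.
-/

set_option autoImplicit false
set_option linter.unusedSectionVars false

namespace Pool.Agent.OB

open FreeNonUnitalNonAssocAlgebra Pool.Agent.H.MP_41922c_al

/-- the free nonassociative algebra on `x_0, x_1, ...` -/
abbrev FA (F : Type*) [CommRing F] := FreeNonUnitalNonAssocAlgebra F ℕ

/-- the multiset of the letters of a word (`c` gives the index of a letter) -/
def lets {α : Type*} (c : α → ℕ) : FreeMagma α → Multiset ℕ
  | .of a => {c a}
  | .mul u v => lets c u + lets c v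

/-- the monomial of a word -/
noncomputable def mo (F : Type*) [CommRing F] {α : Type*} :
    FreeMagma α → FreeNonUnitalNonAssocAlgebra F α
  | .of a => of F a
  | .mul u v => mo F u * mo F v

/-- the component of multidegree `m` -/
noncomputable def PP (F : Type*) [CommRing F] {α : Type*} (c : α → ℕ) (m : Multiset ℕ) :
    Submodule F (FreeNonUnitalNonAssocAlgebra F α) :=
  Submodule.span F {f | ∃ w : FreeMagma α, lets c w = m ∧ mo F w = f}

/-- the component of multidegree `m` of `F{X}` -/
noncomputable abbrev P (F : Type*) [CommRing F] (m : Multiset ℕ) : Submodule F (FA F) := PP F id m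

section

variable {A : Type*} [NonUnitalNonAssocRing A]

/-- the Jordan product `a ∘ b = a b + b a` -/
def jor (a b : A) : A := a * b + b * a

/-- `[a, [b, c]]` -/
def F1 (a b c : A) : A := com a (com b c)
/-- `[a, b] ∘ [c, d]` -/
def F3 (a b c d : A) : A := jor (com a b) (com c d)
end

/-- the linear map with given values on the words -/
noncomputable def linMo (F : Type*) [Field F] {α M : Type*} [AddCommGroup M] [Module F M]
    (φ : FreeMagma α → M) : FreeNonUnitalNonAssocAlgebra F α →ₗ[F] M where
  toFun f := Finsupp.linearCombination F φ f.coeff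
  map_add' f g := by rw [MonoidAlgebra.coeff_add, map_add]
  map_smul' k f := by rw [MonoidAlgebra.coeff_smul, map_smul]; rfl

section

variable (F : Type*) [Field F]

/-- the involution of `F{x}` with `x_i ↦ -x_i` -/
noncomputable def invWHom : FA F →ₙₐ[F] (FA F)ᵐᵒᵖ :=
  lift F (fun i => MulOpposite.op (-of F i))

variable {F}

/-- the involution of `F{x}` with `x_i ↦ -x_i` -/
noncomputable def invW (f : FA F) : FA F := (invWHom F f).unop

end

/-- deletion of the letters in `K` -/
def del (K : Finset ℕ) : FreeMagma ℕ → Option (FreeMagma ℕ)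
  | .of a => if a ∈ K then none else some (.of a)
  | .mul u v => match del K u, del K v with
    | none, b => b
    | some a, none => some a
    | some a, some b => some (a * b)

section

variable (F : Type*) [Field F]

/-- the polynomial of a deleted word -/
noncomputable def moO : Option (FreeMagma ℕ) → FA F
  | none => 0
  | some w => mo F w

/-- substitution of `1` for the variables in `K` -/
noncomputable def eK (K : Finset ℕ) : FA F →ₗ[F] FA F := linMo F (fun w => moO F (del K w))

/-- the product of the variables of a list with `f` -/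
noncomputable def lamK : List ℕ → FA F → FA F
  | [], f => f
  | i :: L, f => of F i * lamK L f

variable {F}

/-- the proper part of a multilinear polynomial -/
noncomputable def sharp (V : Multiset ℕ) (f : FA F) : FA F :=
  ∑ K ∈ V.toFinset.powerset.erase V.toFinset,
    ((-1 : F) ^ K.card) • lamK F (K.sort (· ≤ ·)) (eK F K f)

end

end Pool.Agent.OB

namespace Pool.Agent.OBX

open FreeNonUnitalNonAssocAlgebra Pool.Agent.H.MP_41922c_al Pool.Agent.OB

section general

variable {A : Type*} [NonUnitalNonAssocRing A]

/-- `g(d, [a, b], c) + g(d, [b, c], a) + g(d, [c, a], b)` -/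
def A3 (g : A → A → A → A) (d a b c : A) : A := g d (com a b) c + g d (com b c) a + g d (com c a) b

variable (F : Type*) [Field F] [Module F A]

/-- `t_K τ(a, b, c) d⁰`, where `g a b c` is `t_K [a, [b, c]]` -/
noncomputable def LM (g : A → A → A → A) (d a b c : A) : A :=
  (36 : F)⁻¹ • (9 • (g (com a b) c d + g (com b c) a d + g (com c a) b d)
    - 5 • A3 g d a b c - A3 g a b c d - A3 g b c a d - A3 g c a b d)

/-- `t_K [a, [b, c]]` and `t_K ([a, b] ∘ [c, d])` -/
noncomputable def GG : List A → (A → A → A → A) × (A → A → A → A → A)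
  | [] => (F1, F3)
  | x :: K => (fun a b c => jor x ((GG K).1 a b c) + (GG K).2 a x b c,
      fun a b c d => 2 • (x * (GG K).2 a b c d) - 2 • LM F (GG K).1 x a b (com c d))

end general

/-- polynomial expressions for `t_K l`, for all lists `K` of variables -/
abbrev Rep (F : Type*) [Field F] := List ℕ → FA F

section reps

variable {F : Type*} [Field F]

/-- `y_i l` -/
noncomputable def yl (i : ℕ) (g : Rep F) : Rep F := fun K => of F i * g K - (2 : F)⁻¹ • g (i :: K)

/-- `l y_i` -/
noncomputable def yr (i : ℕ) (g : Rep F) : Rep F := fun K => g K * of F i - (2 : F)⁻¹ • g (i :: K)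

/-- `y_i ∘ l` -/
noncomputable def yj (i : ℕ) (g : Rep F) : Rep F := yl i g + yr i g

/-- `(y_i ∘ y_j) l` -/
noncomputable def qq (i j : ℕ) (g : Rep F) : Rep F := yl i (yl j g) + yl j (yl i g)

/-- `(y_a ∘ y_b) (y_c ∘ y_d) .. l`, for the list `a, b, c, d, ..` -/
noncomputable def QP : List ℕ → Rep F → Rep F
  | a :: b :: M, g => qq a b (QP M g)
  | _, g => g

/-- `y_a (y_b (.. l))` -/
noncomputable def yls (L : List ℕ) (g : Rep F) : Rep F := L.foldr yl g

/-- `[a, [b, c]]` -/
noncomputable def g1 (a b c : FA F) : Rep F := fun K => (GG F (K.map (of F))).1 a b c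

/-- `τ(a, b, c) d⁰` -/
noncomputable def lm (d a b c : FA F) : Rep F := fun K => LM F (GG F (K.map (of F))).1 d a b c

/-- `(y_a ∘ y_b) [y_i, y_j]` -/
noncomputable def T0 (a b i j : ℕ) : Rep F :=
  (4 : F)⁻¹ • (g1 (of F a) (of F b) (com (of F i) (of F j))
      + g1 (of F b) (of F a) (com (of F i) (of F j)))
    + (2 : F)⁻¹ • (lm (of F b) (of F a) (of F i) (of F j) + lm (of F a) (of F b) (of F i) (of F j))

/-- `y_{i_1} (y_{i_2} (.. y_{i_n})) - 2^{-⌊n/2⌋} P(i_1, .., i_n)`, where `P(i_1, .., i_n)` is
`(y_{i_1} ∘ y_{i_2}) (y_{i_3} ∘ y_{i_4}) ..` if `n` is even, and `y_{i_1} (y_{i_2} ∘ y_{i_3}) ..` if `n` is odd (`n ≥ 4`) -/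
noncomputable def RN : List ℕ → Rep F
  | [d, a, b, c] => (4 : F)⁻¹ • (T0 b c d a + lm (of F d) (of F a) (of F b) (of F c)
      + yl d (g1 (of F a) (of F b) (of F c)))
  | f :: e :: a :: b :: c :: M => yl f (RN (e :: a :: b :: c :: M)) +
      if Odd M.length then ((2 : F)⁻¹) ^ ((M.length + 5) / 2) • QP (c :: M) (T0 a b f e) else 0
  | _ => 0

/-- `(y_k ∘ y_j) y_i - (y_k ∘ y_i) y_j` -/
noncomputable def Ex (k j i : ℕ) : Rep F :=
  (6 : F)⁻¹ • (2 • g1 (of F k) (of F j) (of F i) + g1 (of F j) (of F k) (of F i)
    - g1 (of F i) (of F k) (of F j))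

/-- `P(i, L) - P(L with i inserted in its place)` -/
noncomputable def SI (i : ℕ) : List ℕ → Rep F
  | [] => 0
  | j :: L => if i ≤ j then 0 else
      if Even L.length then yj j (SI i L) else QP L.tail (Ex (L.headD 0) j i) + yl j (SI i L)

/-- `P(L) - P(L sorted)` -/
noncomputable def SS : List ℕ → Rep F
  | [] => 0
  | i :: L => (if Even L.length then yl i (SS L) else yj i (SS L)) + SI i (L.insertionSort (· ≤ ·))

/-- the letters of a word -/
def flat : FreeMagma ℕ → List ℕ
  | .of a => [a]
  | .mul u v => flat u ++ flat v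

/-- `[[a, b], c] + [[b, c], a] + [[c, a], b]` for words in the `y_i` -/
noncomputable def Jh (a b c : FreeMagma ℕ) : Rep F := fun K =>
  ∑ J ∈ (flat a ++ flat b ++ flat c).toFinset.powerset, (-(2 : F)⁻¹) ^ J.card •
    (g1 (moO F (del J c)) (moO F (del J b)) (moO F (del J a)) (J.sort (· ≤ ·) ++ K)
      + g1 (moO F (del J a)) (moO F (del J c)) (moO F (del J b)) (J.sort (· ≤ ·) ++ K)
      + g1 (moO F (del J b)) (moO F (del J a)) (moO F (del J c)) (J.sort (· ≤ ·) ++ K))

/-- `u v - y_{i_1} (.. (y_{i_k} v))` for words in the `y_i`, where `i_1, .., i_k` are the letters of `u` -/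
noncomputable def DD : FreeMagma ℕ → FreeMagma ℕ → Rep F
  | .of _, _ => 0
  | .mul a b, v => (6 : F)⁻¹ • Jh a b v + DD a (b * v) + yls (flat a) (DD b v)

/-- `w - y_{i_1} (.. (y_{i_(n-1)} y_{i_n}))` for a word `w` in the `y_i` with the letters `i_1, .., i_n` -/
noncomputable def LFl : FreeMagma ℕ → Rep F
  | .of _ => 0
  | .mul u v => DD u v + yls (flat u) (LFl v)

variable (F) in
/-- for a word `w` of length `n ≥ 4`, `Phi w` has the value `w(y) - 2^{-⌊n/2⌋} P(letters of w, sorted)` -/
noncomputable def Phi : FA F →ₗ[F] FA F := linMo F (fun w =>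
  LFl w [] + RN (flat w) [] + ((2 : F)⁻¹) ^ ((flat w).length / 2) • SS (flat w) [])

/-- the operator which maps the multilinear zeros of traceless octonions to identities -/
noncomputable def Psi (V : Multiset ℕ) (f : FA F) : FA F :=
  Phi F f + sharp V f - Phi F (sharp V f)

/-- the instances of the alternative laws and of the centrality of the traces, for words in traceless elements -/
inductive IsLaw (F : Type*) [Field F] : FA F → Prop
  | altL (u v w : FreeMagma ℕ) : IsLaw F (associator (mo F u) (mo F v) (mo F w)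
      + associator (mo F v) (mo F u) (mo F w))
  | altR (u v w : FreeMagma ℕ) : IsLaw F (associator (mo F w) (mo F u) (mo F v)
      + associator (mo F w) (mo F v) (mo F u))
  | trC (u v : FreeMagma ℕ) : IsLaw F (com (mo F u + invW (mo F u)) (mo F v))
  | trA (u v w : FreeMagma ℕ) : IsLaw F (associator (mo F u + invW (mo F u)) (mo F v) (mo F w))
  | left (u : FreeMagma ℕ) (f : FA F) : IsLaw F f → IsLaw F (mo F u * f)
  | right (u : FreeMagma ℕ) (f : FA F) : IsLaw F f → IsLaw F (f * mo F u)

variable (F) in
/-- the multilinear instances in the variables `V` -/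
def LawV (V : Multiset ℕ) : Set (FA F) := {f | IsLaw F f ∧ f ∈ P F V}

variable (F) in
/-- the explicit basis, up to the degree `d` -/
def Bas (d : ℕ) : Set (FA F) :=
  {associator (of F 0) (of F 0) (of F 1), associator (of F 1) (of F 0) (of F 0)} ∪
    {g | ∃ n, 4 ≤ n ∧ n ≤ d ∧ ∃ f ∈ LawV F (Multiset.range n), g = Psi (Multiset.range n) f}

end reps

end Pool.Agent.OBX
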