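import Pool.Agent.OB.BasD

/-!
# The explicit basis in characteristic `p ≥ 3` (all definitions)

Everything here is defined by explicit recursions, without reference to the identities of the octonions.

For octonions `K = (x_1, .., x_r)` let `t_K` be the product of the traces. If `z` is a commutator or an associator then `cK K a z`,
`bK K z a b`, `sK K a b z` are polynomial expressions for `t_K [a, z]`, `t_K (z, a, b)`, `t_K ([a, b] ∘ z)`, and
`tauK K d a b c`, `phiK K e a b c d` for `t_K τ(a, b, c) d⁰`, `t_K φ(a, b, c, d) e⁰`, where `τ(a, b, c) = t([a, b] c)`,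
`φ(a, b, c, d) = t((a, b, c) d)`, `d⁰ = d - t(d)/2`.
`Rep`, `yl`, `yr`, `yj`, `qq`, `QP` are as in `BasD`: `g : Rep F` represents `l` if `g K` has the value `t_K l`; `y_i = x_i⁰`.
-/

set_option autoImplicit false
set_option linter.unusedSectionVars false

namespace Pool.Agent.OBY

open FreeNonUnitalNonAssocAlgebra Pool.Agent.H.MP_41922c_al Pool.Agent.OB Pool.Agent.OBX

section general

variable {A : Type*} [NonUnitalNonAssocRing A] (F : Type*) [Field F] [Module F A]

/-- `t_x t_K f(a, z)`, for `f(a, z) = [a, z]` and for `f(a, z) = (z, a, b)` -/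
noncomputable def TX (f : A → A → A) (z : A) : List A → A → A → A
  | [], x, a => f a (jor x z)
  | y :: K, x, a => (2 : F)⁻¹ • (TX f z K x (jor y a) + TX f z K y (jor x a) - TX f z K a (jor x y))

/-- `t_K f(a, z)` -/
noncomputable def TK (f : A → A → A) (z : A) : List A → A → A
  | [], a => f a z
  | x :: K, a => TX F f z K x a

/-- `t_K [a, z]` -/
noncomputable def cK (K : List A) (a z : A) : A := TK F com z K a

/-- `t_K (z, a, b)` -/
noncomputable def bK (K : List A) (z a b : A) : A := TK F (fun u w => associator w u b) z K a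

/-- `t_K ([a, b] ∘ z)` -/
noncomputable def sK (K : List A) (a b z : A) : A := cK F (b :: K) a z - jor b (cK F K a z)

/-- `t_K τ(a, b, c) d⁰` -/
noncomputable def tauK (K : List A) (d a b c : A) : A :=
  (2 : F)⁻¹ • (bK F K (com d a) b c + bK F K (com b c) d a) - cK F K d (associator a b c)
    + (4 : F)⁻¹ • (cK F K (com a b) (com c d) + cK F K (com b c) (com a d)
      + cK F K (com c a) (com b d))

/-- `t_K (q(d, u) e⁰ - q(e, u) d⁰)`, where `q(a, b) = a⁰ ∘ b⁰` and `u` is an associator -/
noncomputable def hK (K : List A) (d e u : A) : A :=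
  (2 : F)⁻¹ • (cK F K e (com d u) - cK F K d (com e u)) - 2 • bK F K u d e

/-- `t_K φ(a, b, c, d) e⁰` -/
noncomputable def phiK (K : List A) (e a b c d : A) : A :=
  (2 : F)⁻¹ • (hK F K d e (associator a b c) + hK F K e c (associator a b d)
    - hK F K c d (associator a b e))

end general

section reps

variable {F : Type*} [Field F]

/-- `[a, z]` -/
noncomputable def c1 (a z : FA F) : Rep F := fun K => cK F (K.map (of F)) a z

/-- `[a, b] ∘ z` -/
noncomputable def s1 (a b z : FA F) : Rep F := fun K => sK F (K.map (of F)) a b z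

/-- `τ(a, b, c) d⁰` -/
noncomputable def tm (d a b c : FA F) : Rep F := fun K => tauK F (K.map (of F)) d a b c

/-- `φ(a, b, c, d) e⁰` -/
noncomputable def pm (e a b c d : FA F) : Rep F := fun K => phiK F (K.map (of F)) e a b c d

/-- `(y_a ∘ y_b) z`, where `g i j` represents `(y_i ∘ z) y_j` -/
noncomputable def qz (a b : ℕ) (z : FA F) (g : ℕ → ℕ → Rep F) : Rep F :=
  (4 : F)⁻¹ • (c1 (of F a) (com (of F b) z) + c1 (of F b) (com (of F a) z))
    + (2 : F)⁻¹ • (g a b + g b a)

/-- `(y_a ∘ y_b) [y_i, y_j]` -/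
noncomputable def Q2 (a b i j : ℕ) : Rep F :=
  qz a b (com (of F i) (of F j)) fun k l => tm (of F l) (of F i) (of F j) (of F k)

/-- `(y_a ∘ y_b) (y_i, y_j, y_k)` -/
noncomputable def Q3 (a b i j k : ℕ) : Rep F :=
  qz a b (associator (of F i) (of F j) (of F k))
    fun l m => pm (of F m) (of F i) (of F j) (of F k) (of F l)

/-! ### words -/

/-- the number of the odd-odd products -/
noncomputable def kp (F : Type*) [Field F] (w : FreeMagma ℕ) : F := ((2 : F)⁻¹) ^ ((flat w).length / 2)

/-- the arrangement of the letters of a product -/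
def cmb (L M : List ℕ) : List ℕ :=
  if Even L.length then M ++ L
  else if Even M.length then L ++ M
  else match L, M with
    | e :: L', f :: M' => e :: f :: (L' ++ M')
    | _, _ => []

/-- the arrangement of the letters of a word -/
def pl : FreeMagma ℕ → List ℕ
  | .of a => [a]
  | .mul u v => cmb (pl u) (pl v)

/-- the letters of a word of length 2 or 3 -/
def al (w : FreeMagma ℕ) : List ℕ :=
  if (flat w).length = 2 ∨ (flat w).length = 3 then flat w else []

/-- `P(L) [y_i, y_j]`, `L` of even length `≥ 2` -/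
noncomputable def SQ (L : List ℕ) (i j : ℕ) : Rep F :=
  match L with
  | a :: b :: N => QP N (Q2 a b i j)
  | _ => 0

/-- `P(L) [y_i, y_j]`, without the scalar part if `L` has length 1 -/
noncomputable def cL (L : List ℕ) (i j : ℕ) : Rep F :=
  if Even L.length then SQ L i j
  else match L with
    | [e] => (2 : F)⁻¹ • c1 (of F e) (com (of F i) (of F j))
    | e :: L' => yl e (SQ L' i j)
    | [] => 0

/-- `[y_i, y_j] P(L)`, without the scalar part if `L` has length 1 -/
noncomputable def cR (L : List ℕ) (i j : ℕ) : Rep F :=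
  if Even L.length then SQ L i j
  else match L with
    | [e] => -((2 : F)⁻¹ • c1 (of F e) (com (of F i) (of F j)))
    | e :: L' => yr e (SQ L' i j)
    | [] => 0

/-- `τ(y_i, y_j, y_k) P(L)` -/
noncomputable def tP (L : List ℕ) (i j k : ℕ) : Rep F :=
  if Even L.length then
    match L with
    | a :: b :: N => QP N (yj b (tm (of F a) (of F i) (of F j) (of F k)))
    | _ => 0
  else
    match L with
    | a :: N => QP N (tm (of F a) (of F i) (of F j) (of F k))
    | [] => 0

/-- `P(L) A`, `A = [y_i, y_j] / 2` or `τ(y_i, y_j, y_k) / 4` -/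
noncomputable def PA (L : List ℕ) : List ℕ → Rep F
  | [i, j] => (2 : F)⁻¹ • cL L i j
  | [i, j, k] => (4 : F)⁻¹ • tP L i j k
  | _ => 0

/-- `A P(L)` -/
noncomputable def AP (L : List ℕ) : List ℕ → Rep F
  | [i, j] => (2 : F)⁻¹ • cR L i j
  | [i, j, k] => (4 : F)⁻¹ • tP L i j k
  | _ => 0

/-- `A B` -/
noncomputable def AA : List ℕ → List ℕ → Rep F
  | [i, j], [k, l] => (8 : F)⁻¹ • (c1 (com (of F i) (of F j)) (com (of F k) (of F l))
      + s1 (of F i) (of F j) (com (of F k) (of F l)))
  | [i, j], [k, l, m] => (8 : F)⁻¹ • tm (com (of F i) (of F j)) (of F k) (of F l) (of F m)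
  | [k, l, m], [i, j] => (8 : F)⁻¹ • tm (com (of F i) (of F j)) (of F k) (of F l) (of F m)
  | [i, j, k], [l, m, n] =>
      (16 : F)⁻¹ • yj n (tm (com (of F l) (of F m)) (of F i) (of F j) (of F k))
  | _, _ => 0

/-- `P(L) P(M)` minus a multiple of `P` of the arrangement of the letters -/
noncomputable def PP2 (L M : List ℕ) : Rep F :=
  if Even L.length ∨ Even M.length then 0
  else match L, M with
    | e :: L', f :: M' =>
      match L' ++ M' with
      | a :: b :: N => (2 : F)⁻¹ • QP N (Q2 a b e f)
      | _ => 0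
    | _, _ => 0

/-- `P(L) l` -/
noncomputable def PG (L : List ℕ) (g : Rep F) : Rep F :=
  if Even L.length then QP L g
  else match L with
    | e :: L' => yl e (QP L' g)
    | [] => 0

/-- `l P(L)` -/
noncomputable def GP (L : List ℕ) (g : Rep F) : Rep F :=
  if Even L.length then QP L g
  else match L with
    | e :: L' => yr e (QP L' g)
    | [] => 0

/-- `A l` -/
noncomputable def AG (A : List ℕ) (g : Rep F) : Rep F := fun K =>
  match A with
  | [i, j] => (2 : F)⁻¹ • (com (of F i) (of F j) * g K)
  | [i, j, k] => (4 : F)⁻¹ • (jor (com (of F i) (of F j)) (of F k) * g K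
      - com (of F i) (of F j) * g (k :: K))
  | _ => 0

/-- `l A` -/
noncomputable def GA (A : List ℕ) (g : Rep F) : Rep F := fun K =>
  match A with
  | [i, j] => (2 : F)⁻¹ • (g K * com (of F i) (of F j))
  | [i, j, k] => (4 : F)⁻¹ • (g K * jor (com (of F i) (of F j)) (of F k)
      - g (k :: K) * com (of F i) (of F j))
  | _ => 0

/-- `w - 2^{-⌊n/2⌋} P(pl w) - A(w)` for a word `w` of length `n` in the `y_i`, where `A(y_i y_j) = [y_i, y_j] / 2`,
`A(w) = τ / 4` for words of length 3, and `A(w) = 0` for all other words -/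
noncomputable def RR : FreeMagma ℕ → Rep F
  | .of _ => 0
  | .mul u v => (kp F u * kp F v) • PP2 (pl u) (pl v) + kp F u • PA (pl u) (al v)
      + kp F v • AP (pl v) (al u) + AA (al u) (al v)
      + (kp F u • PG (pl u) (RR v) + AG (al u) (RR v))
      + (kp F v • GP (pl v) (RR u) + GA (al v) (RR u)) + fun K => RR u [] * RR v K

/-! ### sorting -/

/-- `(y_c ∘ y_d) ((y_k ∘ y_j) y_i - (y_k ∘ y_i) y_j)` -/
noncomputable def E5 (c d k j i : ℕ) : Rep F :=
  qq c d ((2 : F)⁻¹ • c1 (of F k) (com (of F j) (of F i))) + Q3 c d k j i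

/-- `((y_a ∘ y_i) (y_j ∘ y_d) - (y_a ∘ y_j) (y_i ∘ y_d)) y_e` -/
noncomputable def G5 (e d a i j : ℕ) : Rep F :=
  yl e (yj d ((2 : F)⁻¹ • c1 (of F a) (com (of F i) (of F j))))
    + pm (of F e) (of F a) (of F i) (of F j) (of F d)

/-- `(y_a, y_i, y_j)` if `3 ≠ 0`, and `0` if `3 = 0` (since then `6⁻¹ = 0`) -/
noncomputable def J3 (a i j : ℕ) : Rep F :=
  -((6 : F)⁻¹ • (c1 (of F a) (com (of F i) (of F j)) + c1 (of F i) (com (of F j) (of F a))
    + c1 (of F j) (com (of F a) (of F i))))

/-- `(y_a ∘ y_i) (y_j ∘ y_d) - (y_a ∘ y_j) (y_i ∘ y_d)`, up to `φ(y_a, y_i, y_j, y_d)` if `3 = 0` -/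
noncomputable def G4 (d a i j : ℕ) : Rep F :=
  yj d ((2 : F)⁻¹ • c1 (of F a) (com (of F i) (of F j)) + J3 a i j)

/-- `P(.., i, j, ..) - P(.., j, i, ..)`, where `r` is the list before `i, j` in reverse order and `suf` the list after
them; up to a multiple of `φ` if there are only 4 letters and `3 = 0` -/
noncomputable def Ad (r : List ℕ) (i j : ℕ) (suf : List ℕ) : Rep F :=
  if Even suf.length then 0
  else match r, suf with
    | [], b :: c :: d :: M => QP M (E5 c d b j i)
    | a :: r', d :: M =>
      match r'.reverse ++ M with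
      | [] => G4 d a i j
      | e :: R =>
        if Even R.length then QP R (G5 e d a i j)
        else match R with
          | f :: R' => QP R' (yj f (G5 e d a i j))
          | [] => 0
    | _, _ => 0

/-- `P(.., i, L) - P(.., L with i inserted in its place)` -/
noncomputable def INS : List ℕ → ℕ → List ℕ → Rep F
  | _, _, [] => 0
  | r, i, j :: L => if i ≤ j then 0 else Ad r i j L + INS (j :: r) i L

/-- `P(.., L) - P(.., L sorted)` -/
noncomputable def SRT : List ℕ → List ℕ → Rep F
  | _, [] => 0
  | r, i :: L => SRT (i :: r) L + INS r i (L.insertionSort (· ≤ ·))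

variable (F) in
/-- for a word `w` of length `n ≥ 5`, `Phi3 w` has the value `w(y) - 2^{-⌊n/2⌋} P(letters of w, sorted)`; for `n = 4`
the same, up to a multiple of `φ` if `3 = 0` -/
noncomputable def Phi3 : FA F →ₗ[F] FA F := linMo F (fun w =>
  RR w [] + kp F w • SRT [] (pl w) [])

/-- the operator which maps the multilinear zeros of traceless octonions to identities -/
noncomputable def Psi3 (V : Multiset ℕ) (f : FA F) : FA F :=
  Phi3 F f + sharp V f - Phi3 F (sharp V f)

variable (F) in
/-- the explicit basis, up to the degree `d` -/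
def Bas3 (d : ℕ) : Set (FA F) :=
  {associator (of F 0) (of F 0) (of F 1), associator (of F 1) (of F 0) (of F 0)} ∪
    {g | ∃ n, 4 ≤ n ∧ n ≤ d ∧ ∃ f ∈ LawV F (Multiset.range n), g = Psi3 (Multiset.range n) f}

end reps

end Pool.Agent.OBY
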