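import Pool.Agent.OB.RealL

/-!
# Decomposition modulo the forms  (module Dec)

For `m` without repetitions, `g ∈ P F m`. Modulo `LR ρ m` associators vanish (`six_R`), commutators
commute with everything and the product of two commutators vanishes (`2 u v = com u v + jor u v`),
also inside products (`LR_mul_left`, `LR_mul_right`). So modulo `LR ρ m` the word `w` depends only on
the list of its letters, and exchanging two neighbours `a, b` changes it by `e a b`, where `e a b`
depends only on `a, b` (and `m`). Hence `2 ρ w + ∑ i j, inv i j w • e i j` is the same for all words `w`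
of multidegree `m`, where `inv i j w` is the number of pairs (`j` before `i`). Apply this to the
product homomorphism `F{X} → Fn F × R` (`Sat.prod`), `g ↦ (ev g, ρ g)`. If `ev g ∈ LF m`
then substituting `1` for all variables but `i, j` gives
`(s - c i j) (x_i x_j) + c i j (x_j x_i) = 0`, where `s` and `c i j` are the sums of the coefficients
and of the coefficients times `inv i j`, so `s = 0` and all `c i j = 0` (`m.card ≥ 2`).
-/

set_option autoImplicit false
set_option linter.unusedSectionVars false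

namespace Pool.Agent.OB

open FreeNonUnitalNonAssocAlgebra Pool.Agent.H.MP_41922c_al Pool.Agent.Smt

/-! ### words and lists -/

/-- the list of the letters of a word -/
def Dec_lst : FreeMagma ℕ → List ℕ
  | .of a => [a]
  | .mul u v => Dec_lst u ++ Dec_lst v

theorem Dec_coe_lst (w : FreeMagma ℕ) : (Dec_lst w : Multiset ℕ) = lets id w := by
  induction w with
  | ih1 a => rfl
  | ih2 u v hu hv =>
    change ((Dec_lst u ++ Dec_lst v : List ℕ) : Multiset ℕ) = lets id u + lets id v
    rw [← Multiset.coe_add, hu, hv]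

/-- the number of pairs `j` before `i` -/
def Dec_inv (i j : ℕ) : List ℕ → ℕ
  | [] => 0
  | a :: l => (if a = j then l.count i else 0) + Dec_inv i j l

theorem Dec_inv_append (i j : ℕ) (l l' : List ℕ) :
    Dec_inv i j (l ++ l') = Dec_inv i j l + Dec_inv i j l' + l.count j * l'.count i := by
  induction l with
  | nil => simp [Dec_inv]
  | cons a l ih =>
    rw [List.cons_append, Dec_inv, ih, Dec_inv, List.count_append, List.count_cons]
    by_cases h : a = j
    · subst h; simp; ring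
    · simp [h]

theorem Dec_inv_le (i j : ℕ) (l : List ℕ) : Dec_inv i j l ≤ l.count j * l.count i := by
  induction l with
  | nil => simp [Dec_inv]
  | cons a l ih =>
    rw [Dec_inv, List.count_cons, List.count_cons]
    by_cases h : a = j
    · subst h
      simp only [if_true, beq_self_eq_true]
      have h1 : (l.count a + 1) * (l.count i + if (a == i) = true then 1 else 0) ≥
          (l.count a + 1) * l.count i := Nat.mul_le_mul_left _ (Nat.le_add_right _ _)
      have h2 : (l.count a + 1) * l.count i = l.count a * l.count i + l.count i := by ring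
      omega
    · have h1 : (a == j) = false := by simpa using h
      simp only [if_neg h, h1]
      have h2 : l.count j * (l.count i + if (a == i) = true then 1 else 0) ≥
          l.count j * l.count i := Nat.mul_le_mul_left _ (Nat.le_add_right _ _)
      simp only [Bool.false_eq_true, if_false, zero_add, add_zero]
      omega

section pr

variable {F : Type*} [Field F]

/-- right multiplication by the letters of a list -/
noncomputable def Dec_pr (F : Type*) [Field F] : List ℕ → FA F → FA F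
  | [], f => f
  | a :: l, f => Dec_pr F l (f * of F a)

theorem Dec_pr_sub (l : List ℕ) (f g : FA F) :
    Dec_pr F l (f - g) = Dec_pr F l f - Dec_pr F l g := by
  induction l generalizing f g with
  | nil => rfl
  | cons a l ih => simp only [Dec_pr]; rw [sub_mul, ih]

theorem Dec_pr_append (l l' : List ℕ) (f : FA F) :
    Dec_pr F (l ++ l') f = Dec_pr F l' (Dec_pr F l f) := by
  induction l generalizing f with
  | nil => rfl
  | cons a l ih => simp only [Dec_pr, List.cons_append]; rw [ih]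

theorem Dec_of_mem (a : ℕ) : of F a ∈ P F ({a} : Multiset ℕ) := of_mem id a

theorem Dec_cons (a : ℕ) (l : List ℕ) (m : Multiset ℕ) :
    m + ({a} : Multiset ℕ) + (l : Multiset ℕ) = m + ((a :: l : List ℕ) : Multiset ℕ) := by
  rw [add_assoc, Multiset.singleton_add, ← Multiset.cons_coe]

theorem Dec_pr_mem (l : List ℕ) {m : Multiset ℕ} {f : FA F} (hf : f ∈ P F m) :
    Dec_pr F l f ∈ P F (m + (l : Multiset ℕ)) := by
  induction l generalizing f m with
  | nil =>
    rw [show m + (([] : List ℕ) : Multiset ℕ) = m from add_zero m]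
    exact hf
  | cons a l ih =>
    rw [← Dec_cons]
    exact ih (PP_mul id hf (Dec_of_mem a))

theorem Dec_com_mem {m m' : Multiset ℕ} {f g : FA F} (hf : f ∈ P F m) (hg : g ∈ P F m') :
    com f g ∈ P F (m + m') :=
  sub_mem (PP_mul id hf hg) (add_comm m' m ▸ PP_mul id hg hf)

end pr

/-! ### congruences -/

section cg

variable {F : Type*} [Field F] {R : Type*} [NonUnitalNonAssocRing R] [Module F R]
  [IsScalarTower F R R] [SMulCommClass F R R] (ρ : FA F →ₙₐ[F] R)

theorem Dec_rcom (a b : FA F) : ρ (com a b) = com (ρ a) (ρ b) := by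
  simp only [com, map_sub, map_mul]

theorem Dec_mem {m m' : Multiset ℕ} {f : FA F} (h : f ∈ LP F m') (hm : m' = m) :
    ρ f ∈ LR ρ m := by
  subst hm
  exact Submodule.mem_map_of_mem (f := (ρ : FA F →ₗ[F] R)) h

theorem Dec_F1 {a b c : FA F} {m m₁ m₂ m₃ : Multiset ℕ} (ha : a ∈ P F m₁)
    (hb : b ∈ P F m₂) (hc : c ∈ P F m₃) (hm : m₁ + m₂ + m₃ = m) :
    com (ρ a) (com (ρ b) (ρ c)) ∈ LR ρ m := by
  have h := Dec_mem ρ (LP_F1 ha hb hc) hm
  rwa [F1, Dec_rcom, Dec_rcom] at h

theorem Dec_ass (h2 : (2 : F) ≠ 0) (h3 : (3 : F) ≠ 0) (hR : Sat F 9 R)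
    {m m₁ m₂ m₃ : Multiset ℕ} {a b c : FA F} (ha : a ∈ P F m₁) (hb : b ∈ P F m₂) (hc : c ∈ P F m₃)
    (hm : m₁ + m₂ + m₃ = m) : associator (ρ a) (ρ b) (ρ c) ∈ LR ρ m := by
  have e1 : m₃ + m₁ + m₂ = m := by rw [← hm]; abel
  have e2 : m₂ + m₃ + m₁ = m := by rw [← hm]; abel
  have h1 := Dec_F1 ρ ha hb hc hm
  have h2' := Dec_F1 ρ hc ha hb e1
  have h3' := Dec_F1 ρ hb hc ha e2
  have h6 : (6 : F) ≠ 0 := by
    have : (6 : F) = 2 * 3 := by norm_num
    rw [this]; exact mul_ne_zero h2 h3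
  have key : (6 : F) • associator (ρ a) (ρ b) (ρ c) ∈ LR ρ m := by
    have e6 : (6 : F) • associator (ρ a) (ρ b) (ρ c) =
        6 • associator (ρ a) (ρ b) (ρ c) := by
      rw [show (6 : F) = ((6 : ℕ) : F) by norm_num, Nat.cast_smul_eq_nsmul]
    rw [e6, six_R hR]
    have c1 : ∀ x y z : R, com (com x y) z = -com z (com x y) := by
      intro x y z; simp only [com]; abel
    rw [c1 (ρ a), c1 (ρ b), c1 (ρ c)]
    exact Submodule.add_mem _ (Submodule.add_mem _ (Submodule.neg_mem _ h2')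
      (Submodule.neg_mem _ h1)) (Submodule.neg_mem _ h3')
  have := Submodule.smul_mem _ (6 : F)⁻¹ key
  rwa [smul_smul, inv_mul_cancel₀ h6, one_smul] at this

theorem Dec_half (h2 : (2 : F) ≠ 0) {m : Multiset ℕ} {x : R} (h : (2 : F) • x ∈ LR ρ m) :
    x ∈ LR ρ m := by
  have := Submodule.smul_mem _ (2 : F)⁻¹ h
  rwa [smul_smul, inv_mul_cancel₀ h2, one_smul] at this

/-- products of two commutators of letters -/
theorem Dec_comcom (h2 : (2 : F) ≠ 0) (x y a b : ℕ) :
    ρ (com (of F x) (of F y) * com (of F a) (of F b)) ∈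
      LR ρ (({x} : Multiset ℕ) + {y} + ({a} + {b})) := by
  apply Dec_half ρ h2
  have h1 : ρ (F1 (com (of F x) (of F y)) (of F a) (of F b)) ∈
      LR ρ (({x} : Multiset ℕ) + {y} + ({a} + {b})) :=
    Dec_mem ρ (LP_F1 (Dec_com_mem (Dec_of_mem x) (Dec_of_mem y)) (Dec_of_mem a) (Dec_of_mem b))
      (by simp only [add_assoc])
  have h3 : ρ (F3 (of F x) (of F y) (of F a) (of F b)) ∈
      LR ρ (({x} : Multiset ℕ) + {y} + ({a} + {b})) :=
    Dec_mem ρ (LP_F3 (Dec_of_mem x) (Dec_of_mem y) (Dec_of_mem a) (Dec_of_mem b))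
      (by simp only [add_assoc])
  have e : (2 : F) • ρ (com (of F x) (of F y) * com (of F a) (of F b)) =
      ρ (F1 (com (of F x) (of F y)) (of F a) (of F b)) +
        ρ (F3 (of F x) (of F y) (of F a) (of F b)) := by
    rw [← map_add, ← map_smul, two_smul]
    congr 1
    simp only [F1, F3]
    generalize com (of F x) (of F y) = u
    generalize com (of F a) (of F b) = v
    simp only [com, jor]
    abel
  rw [e]
  exact Submodule.add_mem _ h1 h3

theorem Dec_pr_LR (h2 : (2 : F) ≠ 0) (h3 : (3 : F) ≠ 0) (hR : Sat F 9 R) (l : List ℕ)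
    {m : Multiset ℕ} {d : FA F} (hd : ρ d ∈ LR ρ m) :
    ρ (Dec_pr F l d) ∈ LR ρ (m + (l : Multiset ℕ)) := by
  induction l generalizing d m with
  | nil =>
    rw [show m + (([] : List ℕ) : Multiset ℕ) = m from add_zero m]
    exact hd
  | cons a l ih =>
    rw [← Dec_cons]
    apply ih
    rw [map_mul, add_comm m {a}]
    exact LR_mul_right ρ h2 h3 hR (Dec_of_mem a) hd

theorem Dec_pr_cg (h2 : (2 : F) ≠ 0) (h3 : (3 : F) ≠ 0) (hR : Sat F 9 R) (l : List ℕ)
    {m : Multiset ℕ} {f g : FA F} (hd : ρ (f - g) ∈ LR ρ m) :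
    ρ (Dec_pr F l f - Dec_pr F l g) ∈ LR ρ (m + (l : Multiset ℕ)) := by
  rw [← Dec_pr_sub]
  exact Dec_pr_LR ρ h2 h3 hR l hd

theorem Dec_tr {m : Multiset ℕ} {f g h : FA F} (h1 : ρ (f - g) ∈ LR ρ m)
    (h2 : ρ (g - h) ∈ LR ρ m) : ρ (f - h) ∈ LR ρ m := by
  have e : f - h = (f - g) + (g - h) := by abel
  rw [e, map_add]
  exact Submodule.add_mem _ h1 h2

theorem Dec_sy {m : Multiset ℕ} {f g : FA F} (h1 : ρ (f - g) ∈ LR ρ m) :
    ρ (g - f) ∈ LR ρ m := by
  have e : g - f = -(f - g) := by abel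
  rw [e, map_neg]
  exact Submodule.neg_mem _ h1

theorem Dec_mul_word (h2 : (2 : F) ≠ 0) (h3 : (3 : F) ≠ 0) (hR : Sat F 9 R) (u : FreeMagma ℕ)
    {m : Multiset ℕ} {f : FA F} (hf : f ∈ P F m) :
    ρ (f * mo F u - Dec_pr F (Dec_lst u) f) ∈ LR ρ (m + lets id u) := by
  induction u generalizing f m with
  | ih1 a =>
    have e : f * mo F (FreeMagma.of a) - Dec_pr F (Dec_lst (FreeMagma.of a)) f = 0 := sub_self _
    rw [e, map_zero]
    exact Submodule.zero_mem _
  | ih2 u v hu hv =>
    change ρ (f * (mo F u * mo F v) - Dec_pr F (Dec_lst u ++ Dec_lst v) f) ∈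
      LR ρ (m + (lets id u + lets id v))
    rw [Dec_pr_append, ← add_assoc]
    have g1 : ρ (f * (mo F u * mo F v) - f * mo F u * mo F v) ∈
        LR ρ (m + lets id u + lets id v) := by
      have h := Dec_ass ρ h2 h3 hR hf (mo_mem id u) (mo_mem id v) rfl
      rw [associator_apply] at h
      rw [map_sub, map_mul, map_mul, map_mul, map_mul, ← neg_sub]
      exact Submodule.neg_mem _ h
    have g2 : ρ (f * mo F u * mo F v - Dec_pr F (Dec_lst u) f * mo F v) ∈
        LR ρ (m + lets id u + lets id v) := by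
      rw [← sub_mul, map_mul, add_comm]
      exact LR_mul_right ρ h2 h3 hR (mo_mem id v) (hu hf)
    have g3 : ρ (Dec_pr F (Dec_lst u) f * mo F v -
        Dec_pr F (Dec_lst v) (Dec_pr F (Dec_lst u) f)) ∈ LR ρ (m + lets id u + lets id v) := by
      apply hv
      have h := Dec_pr_mem (Dec_lst u) hf
      rw [Dec_coe_lst] at h
      exact h
    exact Dec_tr ρ (Dec_tr ρ g1 g2) g3

theorem Dec_word (h2 : (2 : F) ≠ 0) (h3 : (3 : F) ≠ 0) (hR : Sat F 9 R) (u : FreeMagma ℕ) :
    ∃ a t, Dec_lst u = a :: t ∧ ρ (mo F u - Dec_pr F t (of F a)) ∈ LR ρ (lets id u) := by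
  induction u with
  | ih1 a =>
    refine ⟨a, [], rfl, ?_⟩
    have e : mo F (FreeMagma.of a) - Dec_pr F [] (of F a) = 0 := sub_self _
    rw [e, map_zero]
    exact Submodule.zero_mem _
  | ih2 u v hu hv =>
    obtain ⟨a, t, hl, h⟩ := hu
    refine ⟨a, t ++ Dec_lst v, ?_, ?_⟩
    · change Dec_lst u ++ Dec_lst v = _
      rw [hl]; rfl
    · change ρ (mo F u * mo F v - _) ∈ LR ρ (lets id u + lets id v)
      rw [Dec_pr_append]
      have h1 := Dec_pr_cg ρ h2 h3 hR (Dec_lst v) h
      rw [Dec_coe_lst] at h1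
      exact Dec_tr ρ (Dec_mul_word ρ h2 h3 hR v (mo_mem id u)) h1

/-- elements which annihilate the commutators modulo the forms -/
def Dec_Gd (m : Multiset ℕ) (f : FA F) : Prop :=
  f ∈ P F m ∧ ∀ a b : ℕ, ρ (f * com (of F a) (of F b)) ∈ LR ρ (m + ({a} + {b}))

theorem Dec_Gd_mul (h2 : (2 : F) ≠ 0) (h3 : (3 : F) ≠ 0) (hR : Sat F 9 R) {m : Multiset ℕ}
    {f : FA F} (hf : Dec_Gd ρ m f) (c : ℕ) : Dec_Gd ρ (m + {c}) (f * of F c) := by
  refine ⟨PP_mul id hf.1 (Dec_of_mem c), fun a b => ?_⟩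
  have hab : com (of F a) (of F b) ∈ P F (({a} : Multiset ℕ) + {b}) :=
    Dec_com_mem (Dec_of_mem a) (Dec_of_mem b)
  have g1 := Dec_ass ρ h2 h3 hR (m := m + {c} + ({a} + {b})) hf.1 (Dec_of_mem c) hab rfl
  have g2 : ρ f * com (ρ (of F c)) (com (ρ (of F a)) (ρ (of F b))) ∈
      LR ρ (m + {c} + ({a} + {b})) := by
    rw [show m + {c} + ({a} + {b}) = m + ({c} + {a} + {b}) by simp only [add_assoc]]
    exact LR_mul_left ρ h2 h3 hR hf.1
      (Dec_F1 ρ (Dec_of_mem c) (Dec_of_mem a) (Dec_of_mem b) rfl)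
  have g3 : ρ (f * com (of F a) (of F b)) * ρ (of F c) ∈ LR ρ (m + {c} + ({a} + {b})) := by
    rw [show m + {c} + ({a} + {b}) = {c} + (m + ({a} + {b})) by
      rw [add_comm m {c}, add_assoc]]
    exact LR_mul_right ρ h2 h3 hR (Dec_of_mem c) (hf.2 a b)
  have g4 := Dec_ass ρ h2 h3 hR (m := m + {c} + ({a} + {b})) hf.1 hab (Dec_of_mem c)
    (by simp only [add_assoc]; rw [add_comm ({b} : Multiset ℕ) {c}, add_left_comm ({a} : Multiset ℕ) {c}])
  have e : ρ (f * of F c * com (of F a) (of F b)) =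
      associator (ρ f) (ρ (of F c)) (ρ (com (of F a) (of F b))) +
        ρ f * com (ρ (of F c)) (com (ρ (of F a)) (ρ (of F b))) +
        ρ (f * com (of F a) (of F b)) * ρ (of F c) -
        associator (ρ f) (ρ (com (of F a) (of F b))) (ρ (of F c)) := by
    rw [← Dec_rcom]
    simp only [map_mul, associator_apply]
    generalize ρ (com (of F a) (of F b)) = v
    simp only [com, mul_sub]
    abel
  rw [e]
  exact Submodule.sub_mem _ (Submodule.add_mem _ (Submodule.add_mem _ g1 g2) g3) g4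

theorem Dec_swap (h2 : (2 : F) ≠ 0) (h3 : (3 : F) ≠ 0) (hR : Sat F 9 R) {m : Multiset ℕ}
    {f : FA F} (hf : f ∈ P F m) (a b : ℕ) :
    ρ ((f * of F b * of F a - f * of F a * of F b) - f * com (of F b) (of F a)) ∈
      LR ρ (m + ({b} + {a})) := by
  have g1 := Dec_ass ρ h2 h3 hR (m := m + ({b} + {a})) hf (Dec_of_mem b) (Dec_of_mem a)
    (by rw [add_assoc])
  have g2 := Dec_ass ρ h2 h3 hR (m := m + ({b} + {a})) hf (Dec_of_mem a) (Dec_of_mem b)
    (by rw [add_assoc, add_comm ({a} : Multiset ℕ) {b}])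
  have e : ρ ((f * of F b * of F a - f * of F a * of F b) - f * com (of F b) (of F a)) =
      associator (ρ f) (ρ (of F b)) (ρ (of F a)) -
        associator (ρ f) (ρ (of F a)) (ρ (of F b)) := by
    simp only [map_sub, map_mul, associator_apply, com, mul_sub]
    abel
  rw [e]
  exact Submodule.sub_mem _ g1 g2

/-- elements which annihilate the commutators can be multiplied in any order -/
theorem Dec_perm (h2 : (2 : F) ≠ 0) (h3 : (3 : F) ≠ 0) (hR : Sat F 9 R) {l l' : List ℕ}
    (hl : l.Perm l') {m : Multiset ℕ} {f : FA F} (hf : Dec_Gd ρ m f) :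
    ρ (Dec_pr F l f - Dec_pr F l' f) ∈ LR ρ (m + (l : Multiset ℕ)) := by
  induction hl generalizing f m with
  | nil => rw [sub_self, map_zero]; exact Submodule.zero_mem _
  | cons a _ ih =>
    rw [← Dec_cons]
    exact ih (Dec_Gd_mul ρ h2 h3 hR hf a)
  | swap a b l =>
    have e : m + ((b :: a :: l : List ℕ) : Multiset ℕ) = m + ({b} + {a}) + (l : Multiset ℕ) := by
      rw [← Dec_cons, ← Dec_cons, ← add_assoc]
    rw [e]
    change ρ (Dec_pr F l (f * of F b * of F a) - Dec_pr F l (f * of F a * of F b)) ∈ _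
    apply Dec_pr_cg ρ h2 h3 hR
    have h := Submodule.add_mem _ (Dec_swap ρ h2 h3 hR hf.1 a b) (hf.2 b a)
    rwa [← map_add, sub_add_cancel] at h
  | trans h _ ih1 ih2 =>
    have h' := ih2 hf
    rw [← Multiset.coe_eq_coe.2 h] at h'
    exact Dec_tr ρ (ih1 hf) h'

theorem Dec_Gd_com (h2 : (2 : F) ≠ 0) (x y : ℕ) :
    Dec_Gd ρ (({x} : Multiset ℕ) + {y}) (com (of F x) (of F y)) :=
  ⟨Dec_com_mem (Dec_of_mem x) (Dec_of_mem y), fun a b => Dec_comcom ρ h2 x y a b⟩

/-- the commutator of two letters times the others -/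
noncomputable def Dec_E (F : Type*) [Field F] (m : Multiset ℕ) (i j : ℕ) : FA F :=
  Dec_pr F ((m.erase i).erase j).toList (com (of F i) (of F j))

theorem Dec_E_cg (h2 : (2 : F) ≠ 0) (h3 : (3 : F) ≠ 0) (hR : Sat F 9 R) {m : Multiset ℕ}
    {a b : ℕ} {l : List ℕ} (hm : {a} + {b} + (l : Multiset ℕ) = m) :
    ρ (Dec_pr F l (com (of F a) (of F b)) - Dec_E F m a b) ∈ LR ρ m := by
  have hp : l.Perm ((m.erase a).erase b).toList := by
    rw [← Multiset.coe_eq_coe, Multiset.coe_toList, ← hm, add_assoc, Multiset.singleton_add,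
      Multiset.erase_cons_head, Multiset.singleton_add, Multiset.erase_cons_head]
  have h := Dec_perm ρ h2 h3 hR hp (Dec_Gd_com ρ h2 a b)
  rw [hm] at h
  exact h

theorem Dec_E_cg' (h2 : (2 : F) ≠ 0) (h3 : (3 : F) ≠ 0) (hR : Sat F 9 R) {m : Multiset ℕ}
    {a b : ℕ} {l : List ℕ} {u : FreeMagma ℕ}
    (hm : lets id u + ({a} + {b}) + (l : Multiset ℕ) = m) :
    ρ (Dec_pr F l (mo F u * com (of F a) (of F b)) - Dec_E F m a b) ∈ LR ρ m := by
  have hab : com (of F a) (of F b) ∈ P F (({a} : Multiset ℕ) + {b}) :=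
    Dec_com_mem (Dec_of_mem a) (Dec_of_mem b)
  have g1 : ρ (mo F u * com (of F a) (of F b) - com (of F a) (of F b) * mo F u) ∈
      LR ρ (lets id u + ({a} + {b})) := by
    have h := Dec_F1 ρ (mo_mem id u) (Dec_of_mem a) (Dec_of_mem b) (m := lets id u + ({a} + {b}))
      (by rw [add_assoc])
    rw [← Dec_rcom, ← Dec_rcom] at h
    exact h
  have g2 : ρ (com (of F a) (of F b) * mo F u - Dec_pr F (Dec_lst u) (com (of F a) (of F b))) ∈
      LR ρ (lets id u + ({a} + {b})) := by
    rw [add_comm]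
    exact Dec_mul_word ρ h2 h3 hR u hab
  have g3 := Dec_pr_cg ρ h2 h3 hR l (Dec_tr ρ g1 g2)
  rw [hm, ← Dec_pr_append] at g3
  refine Dec_tr ρ g3 (Dec_E_cg ρ h2 h3 hR ?_)
  rw [← Multiset.coe_add, Dec_coe_lst, ← hm, add_comm (lets id u) (_ + _), add_assoc,
    add_assoc, add_assoc]

end cg

/-! ### the formula -/

section form

variable {F : Type*} [Field F] {R : Type*} [NonUnitalNonAssocRing R] [Module F R]
  [IsScalarTower F R R] [SMulCommClass F R R] (ρ : FA F →ₙₐ[F] R)

/-- the class modulo the forms of multidegree `m` -/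
noncomputable def Dec_q (m : Multiset ℕ) : FA F →ₗ[F] R ⧸ LR ρ m :=
  (LR ρ m).mkQ ∘ₗ (ρ : FA F →ₗ[F] R)

theorem Dec_q_zero {m : Multiset ℕ} {f : FA F} : Dec_q ρ m f = 0 ↔ ρ f ∈ LR ρ m :=
  Submodule.Quotient.mk_eq_zero _

theorem Dec_q_eq {m : Multiset ℕ} {f g : FA F} (h : ρ (f - g) ∈ LR ρ m) :
    Dec_q ρ m f = Dec_q ρ m g := by
  rw [← sub_eq_zero, ← map_sub]
  exact (Dec_q_zero ρ).2 h

/-- the class of `Dec_E` -/
noncomputable def Dec_e (m : Multiset ℕ) (i j : ℕ) : R ⧸ LR ρ m := Dec_q ρ m (Dec_E F m i j)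

theorem Dec_e_anti (m : Multiset ℕ) (i j : ℕ) : Dec_e ρ m i j = -Dec_e ρ m j i := by
  unfold Dec_e Dec_E
  rw [← map_neg, Multiset.erase_comm]
  congr 1
  have h0 : Dec_pr F ((m.erase j).erase i).toList (0 : FA F) = 0 := by
    have h := Dec_pr_sub ((m.erase j).erase i).toList (0 : FA F) 0
    rw [sub_self, sub_self] at h
    exact h
  have h1 : com (of F i) (of F j) = 0 - com (of F j) (of F i) := by
    simp only [com]; abel
  rw [h1, Dec_pr_sub, h0, zero_sub]

/-- the correction -/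
noncomputable def Dec_D (m : Multiset ℕ) (l : List ℕ) : R ⧸ LR ρ m :=
  ∑ i ∈ m.toFinset, ∑ j ∈ m.toFinset, (Dec_inv i j l : F) • Dec_e ρ m i j

/-- the change of the correction -/
noncomputable def Dec_K (m : Multiset ℕ) (a : ℕ) (l : List ℕ) : R ⧸ LR ρ m :=
  ∑ i ∈ m.toFinset, (l.count i : F) • Dec_e ρ m i a

theorem Dec_D_cons {m : Multiset ℕ} {a : ℕ} (ha : a ∈ m) (l : List ℕ) :
    Dec_D ρ m (a :: l) = Dec_D ρ m l + Dec_K ρ m a l := by
  unfold Dec_D Dec_K
  rw [← Finset.sum_add_distrib]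
  refine Finset.sum_congr rfl fun i _ => ?_
  have h : ∀ j ∈ m.toFinset, (Dec_inv i j (a :: l) : F) • Dec_e ρ m i j =
      (Dec_inv i j l : F) • Dec_e ρ m i j +
        (if a = j then (l.count i : F) • Dec_e ρ m i j else 0) := by
    intro j _
    rw [Dec_inv]
    split_ifs with hj
    · rw [Nat.cast_add, add_smul, add_comm]
    · rw [zero_add, add_zero]
  rw [Finset.sum_congr rfl h, Finset.sum_add_distrib, Finset.sum_ite_eq,
    if_pos (Multiset.mem_toFinset.2 ha)]

theorem Dec_K_perm {l l' : List ℕ} (h : l.Perm l') (m : Multiset ℕ) (a : ℕ) :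
    Dec_K ρ m a l = Dec_K ρ m a l' := by
  unfold Dec_K
  refine Finset.sum_congr rfl fun i _ => ?_
  rw [h.count_eq]

theorem Dec_K_cons {m : Multiset ℕ} {a : ℕ} (ha : a ∈ m) (b : ℕ) (l : List ℕ) :
    Dec_K ρ m b (a :: l) = Dec_K ρ m b l + Dec_e ρ m a b := by
  unfold Dec_K
  have h : ∀ i ∈ m.toFinset, (((a :: l).count i : ℕ) : F) • Dec_e ρ m i b =
      (l.count i : F) • Dec_e ρ m i b + (if a = i then Dec_e ρ m i b else 0) := by
    intro i _
    rw [List.count_cons]
    by_cases hi : a = i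
    · subst hi
      simp only [beq_self_eq_true, if_true, Nat.cast_add, Nat.cast_one, add_smul, one_smul]
    · have h1 : (a == i) = false := by simpa using hi
      simp only [h1, Bool.false_eq_true, if_false, add_zero, if_neg hi]
  rw [Finset.sum_congr rfl h, Finset.sum_add_distrib, Finset.sum_ite_eq,
    if_pos (Multiset.mem_toFinset.2 ha)]

theorem Dec_D_swap {m : Multiset ℕ} {a b : ℕ} (ha : a ∈ m) (hb : b ∈ m) (l : List ℕ) :
    Dec_D ρ m (b :: a :: l) + (2 : F) • Dec_e ρ m b a = Dec_D ρ m (a :: b :: l) := by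
  rw [Dec_D_cons ρ hb, Dec_D_cons ρ ha, Dec_D_cons ρ ha, Dec_D_cons ρ hb, Dec_K_cons ρ ha,
    Dec_K_cons ρ hb, two_smul, Dec_e_anti ρ m a b]
  abel

theorem Dec_S1 (h2 : (2 : F) ≠ 0) (h3 : (3 : F) ≠ 0) (hR : Sat F 9 R) {m : Multiset ℕ}
    {l l' : List ℕ} (hl : l.Perm l') {u : FreeMagma ℕ} (hm : lets id u + (l : Multiset ℕ) = m) :
    (2 : F) • Dec_q ρ m (Dec_pr F l (mo F u)) + Dec_D ρ m l =
      (2 : F) • Dec_q ρ m (Dec_pr F l' (mo F u)) + Dec_D ρ m l' := by
  induction hl generalizing u with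
  | nil => rfl
  | @cons a l l' hl ih =>
    have ha : a ∈ m := by
      rw [← hm]
      exact Multiset.mem_add.2 (Or.inr (Multiset.mem_coe.2 List.mem_cons_self))
    have h := ih (u := u * FreeMagma.of a) (by
      change lets id u + {a} + (l : Multiset ℕ) = m
      rw [Dec_cons, hm])
    rw [Dec_D_cons ρ ha, Dec_D_cons ρ ha, Dec_K_perm ρ hl, ← add_assoc, ← add_assoc]
    exact congrArg (· + Dec_K ρ m a l') h
  | swap a b l =>
    have ha : a ∈ m := by
      rw [← hm]
      exact Multiset.mem_add.2 (Or.inr (Multiset.mem_coe.2 (by simp)))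
    have hb : b ∈ m := by
      rw [← hm]
      exact Multiset.mem_add.2 (Or.inr (Multiset.mem_coe.2 (by simp)))
    have hm' : lets id u + ({b} + {a}) + (l : Multiset ℕ) = m := by
      rw [← hm, ← Dec_cons, ← Dec_cons, ← add_assoc]
    have g1 := Dec_pr_cg ρ h2 h3 hR l (Dec_swap ρ h2 h3 hR (mo_mem id u) a b)
    rw [hm'] at g1
    have g2 := Dec_q_eq ρ (Dec_tr ρ g1 (Dec_E_cg' ρ h2 h3 hR hm'))
    rw [Dec_pr_sub, map_sub] at g2
    rw [← Dec_D_swap ρ ha hb]
    change (2 : F) • Dec_q ρ m (Dec_pr F l (mo F u * of F b * of F a)) + _ =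
      (2 : F) • Dec_q ρ m (Dec_pr F l (mo F u * of F a * of F b)) + _
    rw [sub_eq_iff_eq_add.1 g2]
    change (2 : F) • (Dec_e ρ m b a + _) + _ = _
    rw [smul_add]
    abel
  | @trans l₁ l₂ l₃ h _ ih1 ih2 =>
    rw [ih1 hm, ih2 (by rw [← hm, Multiset.coe_eq_coe.2 h])]

/-- the product of the letters -/
noncomputable def Dec_pl (F : Type*) [Field F] : List ℕ → FA F
  | [] => 0
  | a :: t => Dec_pr F t (of F a)

theorem Dec_S2 (h2 : (2 : F) ≠ 0) (h3 : (3 : F) ≠ 0) (hR : Sat F 9 R) {m : Multiset ℕ}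
    {l l' : List ℕ} (hl : l.Perm l') (hm : (l : Multiset ℕ) = m) :
    (2 : F) • Dec_q ρ m (Dec_pl F l) + Dec_D ρ m l =
      (2 : F) • Dec_q ρ m (Dec_pl F l') + Dec_D ρ m l' := by
  induction hl with
  | nil => rfl
  | @cons a l l' hl ih =>
    have ha : a ∈ m := by
      rw [← hm]
      exact Multiset.mem_coe.2 List.mem_cons_self
    have h := Dec_S1 ρ h2 h3 hR hl (u := FreeMagma.of a) (m := m) (by
      change ({a} : Multiset ℕ) + (l : Multiset ℕ) = m
      rw [← hm, Multiset.singleton_add, ← Multiset.cons_coe])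
    rw [Dec_D_cons ρ ha, Dec_D_cons ρ ha, Dec_K_perm ρ hl, ← add_assoc, ← add_assoc]
    exact congrArg (· + Dec_K ρ m a l') h
  | swap a b l =>
    have ha : a ∈ m := by
      rw [← hm]
      exact Multiset.mem_coe.2 (by simp)
    have hb : b ∈ m := by
      rw [← hm]
      exact Multiset.mem_coe.2 (by simp)
    have hm' : {b} + {a} + (l : Multiset ℕ) = m := by
      rw [← hm, Dec_cons, Multiset.singleton_add]; rfl
    have g2 := Dec_q_eq ρ (Dec_E_cg ρ h2 h3 hR hm')
    have e1 : com (of F b) (of F a) = of F b * of F a - of F a * of F b := rfl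
    rw [e1, Dec_pr_sub, map_sub] at g2
    rw [← Dec_D_swap ρ ha hb]
    change (2 : F) • Dec_q ρ m (Dec_pr F l (of F b * of F a)) + _ =
      (2 : F) • Dec_q ρ m (Dec_pr F l (of F a * of F b)) + _
    rw [sub_eq_iff_eq_add.1 g2]
    change (2 : F) • (Dec_e ρ m b a + _) + _ = _
    rw [smul_add]
    abel
  | @trans l₁ l₂ l₃ h _ ih1 ih2 =>
    rw [ih1 hm, ih2 (by rw [← hm, Multiset.coe_eq_coe.2 h])]

theorem Dec_words (h2 : (2 : F) ≠ 0) (h3 : (3 : F) ≠ 0) (hR : Sat F 9 R) {m : Multiset ℕ}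
    {w w' : FreeMagma ℕ} (hw : lets id w = m) (hw' : lets id w' = m) :
    (2 : F) • Dec_q ρ m (mo F w) + Dec_D ρ m (Dec_lst w) =
      (2 : F) • Dec_q ρ m (mo F w') + Dec_D ρ m (Dec_lst w') := by
  obtain ⟨a, t, e, h⟩ := Dec_word ρ h2 h3 hR w
  obtain ⟨a', t', e', h'⟩ := Dec_word ρ h2 h3 hR w'
  rw [hw] at h
  rw [hw'] at h'
  have hp : (Dec_lst w).Perm (Dec_lst w') := by
    rw [← Multiset.coe_eq_coe, Dec_coe_lst, Dec_coe_lst, hw, hw']
  have h1 := Dec_S2 ρ h2 h3 hR hp (by rw [Dec_coe_lst, hw])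
  rw [e, e'] at h1
  rw [Dec_q_eq ρ h, Dec_q_eq ρ h', e, e']
  exact h1

/-- the sum of the coefficients times the numbers of inversions -/
noncomputable def Dec_I (F : Type*) [Field F] (i j : ℕ) : FA F →ₗ[F] F :=
  linMo F (fun w => (Dec_inv i j (Dec_lst w) : F))

/-- the sum of the coefficients -/
noncomputable def Dec_s (F : Type*) [Field F] : FA F →ₗ[F] F := linMo F (fun _ => 1)

theorem Dec_lin (h2 : (2 : F) ≠ 0) (h3 : (3 : F) ≠ 0) (hR : Sat F 9 R) (m : Multiset ℕ) :
    ∃ C : R ⧸ LR ρ m, ∀ g ∈ P F m, (2 : F) • Dec_q ρ m g +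
      ∑ i ∈ m.toFinset, ∑ j ∈ m.toFinset, Dec_I F i j g • Dec_e ρ m i j = Dec_s F g • C := by
  by_cases hw : ∃ w : FreeMagma ℕ, lets id w = m
  · obtain ⟨w', hw'⟩ := hw
    refine ⟨(2 : F) • Dec_q ρ m (mo F w') + Dec_D ρ m (Dec_lst w'), fun g hg => ?_⟩
    generalize hC : (2 : F) • Dec_q ρ m (mo F w') + Dec_D ρ m (Dec_lst w') = C
    refine PP_induction id (p := fun g => (2 : F) • Dec_q ρ m g +
      ∑ i ∈ m.toFinset, ∑ j ∈ m.toFinset, Dec_I F i j g • Dec_e ρ m i j = Dec_s F g • C)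
      ?_ ?_ ?_ ?_ hg
    · simp only [map_zero, smul_zero, zero_smul, Finset.sum_const_zero, add_zero]
    · intro f g hf hg
      simp only [map_add, smul_add, add_smul, Finset.sum_add_distrib] at hf hg ⊢
      rw [← hf, ← hg]
      abel
    · intro k f hf
      simp only [map_smul]
      rw [smul_assoc, ← hf, smul_add, Finset.smul_sum, smul_comm]
      congr 1
      refine Finset.sum_congr rfl fun i _ => ?_
      rw [Finset.smul_sum]
      refine Finset.sum_congr rfl fun j _ => ?_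
      rw [smul_assoc]
    · intro w hw
      rw [← hC, ← Dec_words ρ h2 h3 hR hw hw', Dec_s, linMo_mo, one_smul, Dec_D]
      congr 1
      refine Finset.sum_congr rfl fun i _ => ?_
      refine Finset.sum_congr rfl fun j _ => ?_
      rw [Dec_I, linMo_mo]
  · refine ⟨0, fun g hg => ?_⟩
    have h0 : g = 0 := by
      refine PP_induction id (p := fun g => g = 0) rfl ?_ ?_ ?_ hg
      · intro f g hf hg; rw [hf, hg, add_zero]
      · intro k f hf; rw [hf, smul_zero]
      · intro w h; exact absurd ⟨w, h⟩ hw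
    rw [h0]
    simp only [map_zero, smul_zero, zero_smul, Finset.sum_const_zero, add_zero]

end form

/-! ### evaluation -/

section val

variable {F : Type*} [Field F]

theorem Dec_ev_of (a : ℕ) (v : ℕ → Oc F) : ev F (of F a) v = v a := by
  rw [ev, lift_of_apply]
  rfl

theorem Dec_ev_mul (f g : FA F) (v : ℕ → Oc F) : ev F (f * g) v = ev F f v * ev F g v := by
  rw [map_mul]
  rfl

theorem Dec_ev_com (f g : FA F) (v : ℕ → Oc F) :
    ev F (com f g) v = com (ev F f v) (ev F g v) := by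
  rw [Dec_rcom]
  rfl

theorem Dec_ev_jor (f g : FA F) (v : ℕ → Oc F) :
    ev F (jor f g) v = jor (ev F f v) (ev F g v) := by
  rw [jor, map_add, map_mul, map_mul]
  rfl

/-- the value of a word if all variables but `i, j` are `1` -/
theorem Dec_val {i j : ℕ} (hij : i ≠ j) {v : ℕ → Oc F} (hv : ∀ k, k ≠ i → k ≠ j → v k = 1)
    (w : FreeMagma ℕ) (hi : (Dec_lst w).count i ≤ 1) (hj : (Dec_lst w).count j ≤ 1) :
    ev F (mo F w) v = if (Dec_lst w).count i = 0 then
      (if (Dec_lst w).count j = 0 then 1 else v j) else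
      (if (Dec_lst w).count j = 0 then v i else
        (if Dec_inv i j (Dec_lst w) = 0 then v i * v j else v j * v i)) := by
  induction w with
  | ih1 a =>
    change ev F (of F a) v = if [a].count i = 0 then
      (if [a].count j = 0 then 1 else v j) else
      (if [a].count j = 0 then v i else
        (if Dec_inv i j [a] = 0 then v i * v j else v j * v i))
    rw [Dec_ev_of]
    by_cases h1 : a = i
    · subst h1
      have h2 : [a].count j = 0 := by
        rw [List.count_singleton]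
        simp [hij]
      rw [h2, List.count_singleton_self]
      simp
    · have h3 : [a].count i = 0 := by
        rw [List.count_singleton]
        simp [h1]
      rw [h3]
      by_cases h2 : a = j
      · subst h2
        rw [List.count_singleton_self]
        simp
      · have h4 : [a].count j = 0 := by
          rw [List.count_singleton]
          simp [h2]
        rw [h4, hv a h1 h2]
        simp
  | ih2 u w hu hw =>
    change (Dec_lst u ++ Dec_lst w).count i ≤ 1 at hi
    change (Dec_lst u ++ Dec_lst w).count j ≤ 1 at hj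
    change ev F (mo F u * mo F w) v = if (Dec_lst u ++ Dec_lst w).count i = 0 then
      (if (Dec_lst u ++ Dec_lst w).count j = 0 then 1 else v j) else
      (if (Dec_lst u ++ Dec_lst w).count j = 0 then v i else
        (if Dec_inv i j (Dec_lst u ++ Dec_lst w) = 0 then v i * v j else v j * v i))
    have l1 := Dec_inv_le i j (Dec_lst u)
    have l2 := Dec_inv_le i j (Dec_lst w)
    rw [List.count_append] at hi hj
    rw [List.count_append, List.count_append, Dec_inv_append, Dec_ev_mul,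
      hu (by omega) (by omega), hw (by omega) (by omega)]
    clear hu hw
    generalize Dec_inv i j (Dec_lst u) = p at *
    generalize Dec_inv i j (Dec_lst w) = q at *
    generalize (Dec_lst u).count i = a at *
    generalize (Dec_lst w).count i = b at *
    generalize (Dec_lst u).count j = c at *
    generalize (Dec_lst w).count j = d at *
    have ha : a = 0 ∧ b = 0 ∨ a = 1 ∧ b = 0 ∨ a = 0 ∧ b = 1 := by omega
    have hc : c = 0 ∧ d = 0 ∨ c = 1 ∧ d = 0 ∨ c = 0 ∧ d = 1 := by omega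
    rcases ha with ⟨rfl, rfl⟩ | ⟨rfl, rfl⟩ | ⟨rfl, rfl⟩ <;>
    rcases hc with ⟨rfl, rfl⟩ | ⟨rfl, rfl⟩ | ⟨rfl, rfl⟩ <;>
    simp at l1 l2 ⊢
    all_goals simp [l1, l2]

theorem Dec_one {i j : ℕ} (hij : i ≠ j) {v : ℕ → Oc F} (hv : ∀ k, k ≠ i → k ≠ j → v k = 1)
    {w : FreeMagma ℕ} (hi : (lets id w).count i = 0) (hj : (lets id w).count j = 0) :
    ev F (mo F w) v = 1 := by
  rw [← Dec_coe_lst, Multiset.coe_count] at hi hj
  rw [Dec_val hij hv w (by omega) (by omega), if_pos hi, if_pos hj]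

theorem Dec_one_com (x : Oc F) : com 1 x = 0 := by rw [com, one_mul, mul_one, sub_self]
theorem Dec_com_one (x : Oc F) : com x 1 = 0 := by rw [com, one_mul, mul_one, sub_self]
theorem Dec_com_zero (x : Oc F) : com x 0 = 0 := by rw [com, zero_mul, mul_zero, sub_self]
theorem Dec_jor_zero (x : Oc F) : jor x 0 = 0 := by rw [jor, zero_mul, mul_zero, add_zero]
theorem Dec_zero_jor (x : Oc F) : jor 0 x = 0 := by rw [jor, zero_mul, mul_zero, add_zero]

theorem Dec_F1_val {i j : ℕ} (hij : i ≠ j) {v : ℕ → Oc F}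
    (hv : ∀ k, k ≠ i → k ≠ j → v k = 1) {a b c : FreeMagma ℕ}
    (hi : (lets id a).count i + (lets id b).count i + (lets id c).count i ≤ 1)
    (hj : (lets id a).count j + (lets id b).count j + (lets id c).count j ≤ 1) :
    ev F (F1 (mo F a) (mo F b) (mo F c)) v = 0 := by
  rw [F1, Dec_ev_com, Dec_ev_com]
  have h : ((lets id a).count i = 0 ∧ (lets id a).count j = 0) ∨
      ((lets id b).count i = 0 ∧ (lets id b).count j = 0) ∨
      ((lets id c).count i = 0 ∧ (lets id c).count j = 0) := by omega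
  rcases h with h | h | h
  · rw [Dec_one hij hv h.1 h.2, Dec_one_com]
  · rw [Dec_one hij hv h.1 h.2, Dec_one_com, Dec_com_zero]
  · rw [Dec_one hij hv h.1 h.2, Dec_com_one, Dec_com_zero]

theorem Dec_F3_val {i j : ℕ} (hij : i ≠ j) {v : ℕ → Oc F}
    (hv : ∀ k, k ≠ i → k ≠ j → v k = 1) {a b c d : FreeMagma ℕ}
    (hi : (lets id a).count i + (lets id b).count i + (lets id c).count i +
      (lets id d).count i ≤ 1)
    (hj : (lets id a).count j + (lets id b).count j + (lets id c).count j +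
      (lets id d).count j ≤ 1) :
    ev F (F3 (mo F a) (mo F b) (mo F c) (mo F d)) v = 0 := by
  rw [F3, Dec_ev_jor, Dec_ev_com, Dec_ev_com]
  have h : ((lets id a).count i = 0 ∧ (lets id a).count j = 0) ∨
      ((lets id b).count i = 0 ∧ (lets id b).count j = 0) ∨
      ((lets id c).count i = 0 ∧ (lets id c).count j = 0) := by omega
  rcases h with h | h | h
  · rw [Dec_one hij hv h.1 h.2, Dec_one_com, Dec_zero_jor]
  · rw [Dec_one hij hv h.1 h.2, Dec_com_one, Dec_zero_jor]
  · rw [Dec_one hij hv h.1 h.2, Dec_one_com, Dec_jor_zero]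

/-- the forms vanish if all variables but two are `1` -/
theorem Dec_LF_val {i j : ℕ} (hij : i ≠ j) {v : ℕ → Oc F}
    (hv : ∀ k, k ≠ i → k ≠ j → v k = 1) {m : Multiset ℕ} (hm : m.Nodup) {l : Fn F}
    (hl : l ∈ LF F m) : l v = 0 := by
  obtain ⟨f, hf, rfl⟩ := Submodule.mem_map.1 hl
  change ev F f v = 0
  refine Submodule.span_induction (p := fun f _ => ev F f v = 0) ?_ ?_ ?_ ?_ hf
  · intro f hf
    have ci := Multiset.nodup_iff_count_le_one.1 hm i
    have cj := Multiset.nodup_iff_count_le_one.1 hm j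
    cases hf with
    | f1 a b c =>
      rw [Multiset.count_add, Multiset.count_add] at ci cj
      exact Dec_F1_val hij hv ci cj
    | f2 r a b c =>
      rw [Multiset.count_add, Multiset.count_add, Multiset.count_add] at ci cj
      rw [F2, Dec_ev_mul, Dec_F1_val hij hv (by omega) (by omega), mul_zero]
    | f3 a b c d =>
      rw [Multiset.count_add, Multiset.count_add, Multiset.count_add] at ci cj
      exact Dec_F3_val hij hv ci cj
    | f4 r a b c d =>
      rw [Multiset.count_add, Multiset.count_add, Multiset.count_add,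
        Multiset.count_add] at ci cj
      rw [F4, Dec_ev_mul, Dec_F3_val hij hv (by omega) (by omega), mul_zero]
  · rw [map_zero]; rfl
  · intro x y _ _ hx hy
    rw [map_add]
    change ev F x v + ev F y v = 0
    rw [hx, hy, add_zero]
  · intro k x _ hx
    rw [map_smul]
    change k • ev F x v = 0
    rw [hx, smul_zero]

theorem Dec_g_val {i j : ℕ} (hij : i ≠ j) {v : ℕ → Oc F}
    (hv : ∀ k, k ≠ i → k ≠ j → v k = 1) {m : Multiset ℕ} (hm : m.Nodup) (hi : i ∈ m)
    (hj : j ∈ m) {g : FA F} (hg : g ∈ P F m) :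
    ev F g v = (Dec_s F g - Dec_I F i j g) • (v i * v j) + Dec_I F i j g • (v j * v i) := by
  refine PP_induction id (p := fun g => ev F g v =
    (Dec_s F g - Dec_I F i j g) • (v i * v j) + Dec_I F i j g • (v j * v i)) ?_ ?_ ?_ ?_ hg
  · rw [map_zero, map_zero, map_zero, sub_self, zero_smul, zero_smul, add_zero]
    rfl
  · intro f g hf hg
    rw [map_add, map_add, map_add]
    change ev F f v + ev F g v = _
    rw [hf, hg]
    simp only [sub_smul, add_smul]
    abel
  · intro k f hf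
    rw [map_smul, map_smul, map_smul]
    change k • ev F f v = _
    rw [hf]
    simp only [sub_smul, smul_add, smul_assoc, smul_sub]
  · intro w hw
    have hi1 : (Dec_lst w).count i = 1 := by
      rw [← Multiset.coe_count, Dec_coe_lst, hw]
      exact Multiset.count_eq_one_of_mem hm hi
    have hj1 : (Dec_lst w).count j = 1 := by
      rw [← Multiset.coe_count, Dec_coe_lst, hw]
      exact Multiset.count_eq_one_of_mem hm hj
    have hle := Dec_inv_le i j (Dec_lst w)
    rw [hi1, hj1] at hle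
    rw [Dec_val hij hv w (by omega) (by omega), if_neg (by omega), if_neg (by omega), Dec_s,
      Dec_I, linMo_mo, linMo_mo]
    have h01 : Dec_inv i j (Dec_lst w) = 0 ∨ Dec_inv i j (Dec_lst w) = 1 := by omega
    rcases h01 with h | h
    · rw [h, if_pos rfl, Nat.cast_zero, sub_zero, one_smul, zero_smul, add_zero]
    · rw [h, if_neg one_ne_zero, Nat.cast_one, sub_self, one_smul, zero_smul, zero_add]

theorem Dec_coeff {m : Multiset ℕ} (hm : m.Nodup) {g : FA F} (hg : g ∈ P F m)
    (h : ev F g ∈ LF F m) {i j : ℕ} (hij : i ≠ j) (hi : i ∈ m) (hj : j ∈ m) :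
    Dec_s F g = 0 ∧ Dec_I F i j g = 0 := by
  have hv : ∀ k, k ≠ i → k ≠ j → (fun k => if k = i then (⟨0, 1, 0, 0, 0, 0, 0, 0⟩ : Oc F) else
      if k = j then ⟨0, 0, 1, 0, 0, 0, 0, 0⟩ else 1) k = 1 := by
    intro k h1 h2
    simp only [if_neg h1, if_neg h2]
  have h1 := Dec_g_val hij hv hm hi hj hg
  rw [Dec_LF_val hij hv hm h] at h1
  simp only [if_true, if_neg hij.symm] at h1
  have c1 := congrArg Oc.m₁ h1
  have c4 := congrArg Oc.m₄ h1
  simp at c1 c4
  have c4' : Dec_I F i j g = 0 := c4.symm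
  refine ⟨?_, c4'⟩
  rw [c4', sub_zero] at c1
  exact c1.symm

end val

section final

variable {F : Type*} [Field F] {R : Type*} [NonUnitalNonAssocRing R] [Module F R]
  [IsScalarTower F R R] [SMulCommClass F R R] (ρ : FA F →ₙₐ[F] R)

theorem Dec_main (h2 : (2 : F) ≠ 0) (h3 : (3 : F) ≠ 0) (hR : Sat F 9 R) {m : Multiset ℕ}
    (hm : m.Nodup) (hc : 2 ≤ m.card) {g : FA F} (hg : g ∈ P F m) (h : ev F g ∈ LF F m) :
    ρ g ∈ LR ρ m := by
  obtain ⟨C, hC⟩ := Dec_lin ρ h2 h3 hR m
  have h1 := hC g hg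
  have hs : Dec_s F g = 0 := by
    obtain ⟨i, hi⟩ := Multiset.card_pos_iff_exists_mem.1 (show 0 < m.card by omega)
    have hc1 : 0 < (m.erase i).card := by
      rw [Multiset.card_erase_of_mem hi]
      change 0 < m.card - 1
      omega
    obtain ⟨j, hj⟩ := Multiset.card_pos_iff_exists_mem.1 hc1
    have hji := (Multiset.Nodup.mem_erase_iff hm).1 hj
    exact (Dec_coeff hm hg h (Ne.symm hji.1) hi hji.2).1
  have hsum : ∑ i ∈ m.toFinset, ∑ j ∈ m.toFinset, Dec_I F i j g • Dec_e ρ m i j = 0 := by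
    refine Finset.sum_eq_zero fun i hi => Finset.sum_eq_zero fun j hj => ?_
    by_cases hij : i = j
    · subst hij
      have he : Dec_e ρ m i i = 0 := by
        have h4 := Dec_e_anti ρ m i i
        have h5 : (2 : F) • Dec_e ρ m i i = 0 := by
          rw [two_smul]
          nth_rewrite 1 [h4]
          exact neg_add_cancel _
        exact (smul_eq_zero.1 h5).resolve_left h2
      rw [he, smul_zero]
    · rw [(Dec_coeff hm hg h hij (Multiset.mem_toFinset.1 hi) (Multiset.mem_toFinset.1 hj)).2,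
        zero_smul]
  rw [hs, zero_smul, hsum, add_zero] at h1
  exact (Dec_q_zero ρ).1 ((smul_eq_zero.1 h1).resolve_left h2)

/-- if the real value of `g` is a real value of a combination of forms, then the same combination of
forms works in `R` -/
theorem dec (h2 : (2 : F) ≠ 0) (h3 : (3 : F) ≠ 0) (hR : Sat F 9 R) {m : Multiset ℕ}
    (hm : m.Nodup) (hc : 2 ≤ m.card) {g : FA F} (hg : g ∈ P F m) (h : ev F g ∈ LF F m) :
    ∃ l ∈ LP F m, ev F g = ev F l ∧ ρ g = ρ l := by
  have h1 := Dec_main ((ev F).prod ρ) h2 h3 (Sat.prod (sat_Fn 9) hR) hm hc hg h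
  obtain ⟨l, hl, e⟩ := Submodule.mem_map.1 h1
  refine ⟨l, hl, ?_, ?_⟩
  · exact (congrArg Prod.fst e).symm
  · exact (congrArg Prod.snd e).symm

end final

end Pool.Agent.OB
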