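import Pool.Agent.OB.AltN
import Pool.Agent.OB.Dec

/-!
# The top degree: context  (module Ctx)

`V` is a multidegree without repetitions, `V.card = n ≥ 10`; `R = F{X}/I`, `I` a T-ideal which contains
all multilinear identities of degree less than `n`. `β m` inverts `UU m → R` for `m.card < n`.
-/

set_option autoImplicit false
set_option linter.unusedSectionVars false

namespace Pool.Agent.OB

open FreeNonUnitalNonAssocAlgebra Pool.Agent.H.MP_41922c_al Pool.Agent.Smt

variable {F : Type*} [Field F] {R : Type*} [NonUnitalNonAssocRing R] [Module F R]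
  [IsScalarTower F R R] [SMulCommClass F R R]

/-- the context of the induction step -/
structure Ctx (π : FA F →ₙₐ[F] R) (V : Multiset ℕ) : Prop where
  surj : Function.Surjective π
  ker : ∀ p, π p = 0 → ∀ θ : FA F →ₙₐ[F] FA F, π (θ p) = 0
  nodup : V.Nodup
  card : 10 ≤ V.card
  low : ∀ m : Multiset ℕ, m.Nodup → m.card < V.card → ∀ p ∈ P F m, Id F p → π p = 0
  two : (2 : F) ≠ 0
  three : (3 : F) ≠ 0

/-- `β m` sends real values of multidegree `m` to `R` -/
def IsBeta (π : FA F →ₙₐ[F] R) (V : Multiset ℕ) (β : Multiset ℕ → Fn F →ₗ[F] R) : Prop :=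
  ∀ m : Multiset ℕ, m.Nodup → m.card < V.card → ∀ p ∈ P F m, β m (ev F p) = π p

/-- `T` is the multiplication by `t(x)` into the top degree -/
def IsT (π : FA F →ₙₐ[F] R) (V : Multiset ℕ) (β : Multiset ℕ → Fn F →ₗ[F] R) (x : ℕ)
    (T : Fn F →ₗ[F] R) : Prop :=
  ∀ y ∈ V.erase x, ∀ l ∈ LF F ((V.erase x).erase y),
    T (XX F y * l) = π (of F y) * β (V.erase y) (tX F x * l) ∧
    T (l * XX F y) = β (V.erase y) (tX F x * l) * π (of F y)

variable {π : FA F →ₙₐ[F] R} {V : Multiset ℕ}

/-- a linear map that vanishes on the kernel of another one factors through it -/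
theorem Ctx_factor {A B C : Type*} [AddCommGroup A] [Module F A] [AddCommGroup B] [Module F B]
    [AddCommGroup C] [Module F C] (f : A →ₗ[F] B) (g : A →ₗ[F] C)
    (h : ∀ a, f a = 0 → g a = 0) : ∃ k : B →ₗ[F] C, ∀ a, k (f a) = g a := by
  have hle : LinearMap.ker f ≤ LinearMap.ker g := fun a ha =>
    LinearMap.mem_ker.2 (h a (LinearMap.mem_ker.1 ha))
  obtain ⟨k, hk⟩ := LinearMap.exists_extend
    (((LinearMap.ker f).liftQ g hle).comp
      (f.quotKerEquivRange.symm : LinearMap.range f →ₗ[F] (A ⧸ LinearMap.ker f)))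
  refine ⟨k, fun a => ?_⟩
  have h1 := LinearMap.congr_fun hk ⟨f a, LinearMap.mem_range_self f a⟩
  have h2 : f.quotKerEquivRange.symm ⟨f a, LinearMap.mem_range_self f a⟩ =
      (LinearMap.ker f).mkQ a := f.quotKerEquivRange_symm_apply_image a _
  have h3 : k (f a) = (LinearMap.ker f).liftQ g hle
      (f.quotKerEquivRange.symm ⟨f a, LinearMap.mem_range_self f a⟩) := h1
  rw [h3, h2]
  exact (LinearMap.ker f).liftQ_apply g a

theorem Ctx.sat_lt (h : Ctx π V) : Sat F (V.card - 1) R := by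
  intro m hm hc f hf hi φ
  have h16 := h.card
  choose t ht using h.surj
  have h1 : φ = π.comp (lift F fun i => t (φ (of F i))) := by
    apply FreeNonUnitalNonAssocAlgebra.hom_ext
    intro i
    show φ (of F i) = π (lift F (fun i => t (φ (of F i))) (of F i))
    rw [lift_of_apply, ht]
  have h2 : π (lift F (fun i => t (φ (of F i))) f) = 0 :=
    h.ker f (h.low m hm (by omega) f hf hi) _
  rw [h1]
  exact h2

theorem Ctx.sat (h : Ctx π V) : Sat F 9 R := by
  have h16 := h.card
  exact Sat.mono (by omega) h.sat_lt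

theorem exists_beta (h : Ctx π V) : ∃ β, IsBeta π V β := by
  have key : ∀ m : Multiset ℕ, ∃ k : Fn F →ₗ[F] R, m.Nodup → m.card < V.card →
      ∀ p ∈ P F m, k (ev F p) = π p := by
    intro m
    by_cases hm : m.Nodup ∧ m.card < V.card
    · obtain ⟨k, hk⟩ := Ctx_factor ((ev F : FA F →ₗ[F] Fn F).comp (P F m).subtype)
        ((π : FA F →ₗ[F] R).comp (P F m).subtype)
        (fun a ha => h.low m hm.1 hm.2 a a.2 ((id_iff_ev _).2 ha))
      exact ⟨k, fun _ _ p hp => hk ⟨p, hp⟩⟩
    · exact ⟨0, fun h1 h2 => absurd ⟨h1, h2⟩ hm⟩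
  choose β hβ using key
  exact ⟨β, hβ⟩

/-- the kernel of `π` is homogeneous for renamings: `π p = π q` implies the same after `θ` -/
theorem Ctx.congr (h : Ctx π V) {p q : FA F} (e : π p = π q) (θ : FA F →ₙₐ[F] FA F) :
    π (θ p) = π (θ q) := by
  have h1 : π (p - q) = 0 := by rw [map_sub, e, sub_self]
  have h2 := h.ker _ h1 θ
  rw [map_sub, map_sub] at h2
  exact sub_eq_zero.1 h2

theorem beta_mul (h : Ctx π V) {β : Multiset ℕ → Fn F →ₗ[F] R} (hβ : IsBeta π V β)
    {m m' : Multiset ℕ} (hm : (m + m').Nodup) (hc : (m + m').card < V.card) {a b : Fn F}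
    (ha : a ∈ UU F m) (hb : b ∈ UU F m') : β (m + m') (a * b) = β m a * β m' b := by
  obtain ⟨p, hp, rfl⟩ := ha
  obtain ⟨q, hq, rfl⟩ := hb
  have hc1 : m.card < V.card := lt_of_le_of_lt (Multiset.card_le_card (Multiset.le_add_right m m')) hc
  have hc2 : m'.card < V.card := lt_of_le_of_lt (Multiset.card_le_card (Multiset.le_add_left m' m)) hc
  have hn := Multiset.nodup_add.1 hm
  have h1 := hβ m hn.1 hc1 p hp
  have h2 := hβ m' hn.2.1 hc2 q hq
  have h3 := hβ (m + m') hm hc (p * q) (PP_mul id hp hq)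
  have h4 : ev F (p * q) = ev F p * ev F q := map_mul (ev F) p q
  have h5 : π (p * q) = π p * π q := map_mul π p q
  rw [h4, h5] at h3
  show β (m + m') (ev F p * ev F q) = β m (ev F p) * β m' (ev F q)
  rw [h1, h2]
  exact h3

end Pool.Agent.OB
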