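import Mathlib
import Pool.Agent.OB.BasD
import Pool.Agent.Smt.Oc

/-!
# Words, multihomogeneous components, forms (definitions)

`FA F = F{X}`. Multidegrees are multisets of variables. `P F m` is the component of `F{X}` of
multidegree `m`. `Fn F` is the algebra of the functions `(ℕ → O) → O`, `O = Oc F` the split
octonions, and `ev : F{X} → Fn F` sends a polynomial to its polynomial function (its real value).
`LP F m` is the span of the forms of multidegree `m`.
-/

set_option autoImplicit false
set_option linter.unusedSectionVars false

namespace Pool.Agent.OB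

open FreeNonUnitalNonAssocAlgebra Pool.Agent.H.MP_41922c_al Pool.Agent.Smt

/-- the free nonassociative algebra on two sequences of letters -/
abbrev FB (F : Type*) [CommRing F] := FreeNonUnitalNonAssocAlgebra F (ℕ ⊕ ℕ)

/-- the index of a letter of `FB F` -/
abbrev ix : ℕ ⊕ ℕ → ℕ := Sum.elim id id

section forms

variable {A : Type*} [NonUnitalNonAssocRing A]

/-- `r [a, [b, c]]` -/
def F2 (r a b c : A) : A := r * F1 a b c
/-- `r ([a, b] ∘ [c, d])` -/
def F4 (r a b c d : A) : A := r * F3 a b c d

/-- `12 τ(a, b, c) d⁰` as a polynomial -/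
def lam12 (d a b c : A) : A :=
  -(10 • com d (associator a b c))
    - 2 • (com a (associator b c d) + com b (associator c a d) + com c (associator a b d))
    + 3 • (com (com a b) (com c d) + com (com b c) (com a d) + com (com c a) (com b d))

/-- `t(u) F1 a b c` -/
def G1 (u a b c : A) : A := com a (jor u (com b c))
/-- `t(u) F2 r a b c` -/
def G2 (u r a b c : A) : A := r * G1 u a b c
/-- `6 t(u) F3 a b c d` -/
def G3 (u a b c d : A) : A := 6 • jor (com a b) (jor u (com c d)) - lam12 (com a b) u c d
/-- `6 t(u) F4 r a b c d` -/
def G4 (u r a b c d : A) : A := r * G3 u a b c d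

end forms

/-- the forms of multidegree `m` -/
inductive IsForm (F : Type*) [CommRing F] : Multiset ℕ → FA F → Prop
  | f1 (a b c : FreeMagma ℕ) : IsForm F (lets id a + lets id b + lets id c)
      (F1 (mo F a) (mo F b) (mo F c))
  | f2 (r a b c : FreeMagma ℕ) : IsForm F (lets id r + lets id a + lets id b + lets id c)
      (F2 (mo F r) (mo F a) (mo F b) (mo F c))
  | f3 (a b c d : FreeMagma ℕ) : IsForm F (lets id a + lets id b + lets id c + lets id d)
      (F3 (mo F a) (mo F b) (mo F c) (mo F d))
  | f4 (r a b c d : FreeMagma ℕ) :
      IsForm F (lets id r + lets id a + lets id b + lets id c + lets id d)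
      (F4 (mo F r) (mo F a) (mo F b) (mo F c) (mo F d))

/-- the span of the forms of multidegree `m` -/
noncomputable def LP (F : Type*) [CommRing F] (m : Multiset ℕ) : Submodule F (FA F) :=
  Submodule.span F {f | IsForm F m f}

/-! ### real values -/

/-- the functions `(ℕ → O) → O` -/
abbrev Fn (F : Type*) := (ℕ → Oc F) → Oc F

section real

variable (F : Type*) [Field F]

/-- the `i`-th variable as a function -/
def XX (i : ℕ) : Fn F := fun v => v i

/-- the polynomial function of a polynomial -/
noncomputable def ev : FA F →ₙₐ[F] Fn F := lift F (XX F)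

/-- `inl i ↦ x_i`, `inr i ↦ t(x_i)` -/
noncomputable def evt : FB F →ₙₐ[F] Fn F := lift F (Sum.elim (XX F) (fun i => XX F i + star (XX F i)))

/-- the real values of the polynomials of multidegree `m` -/
noncomputable def UU (m : Multiset ℕ) : Submodule F (Fn F) := (P F m).map (ev F : FA F →ₗ[F] Fn F)

/-- the real values of the forms -/
noncomputable def LF (m : Multiset ℕ) : Submodule F (Fn F) := (LP F m).map (ev F : FA F →ₗ[F] Fn F)

/-- the real values of the trace polynomials of multidegree `m` -/
noncomputable def AF (m : Multiset ℕ) : Submodule F (Fn F) :=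
  (PP F ix m).map (evt F : FB F →ₗ[F] Fn F)

/-- the image of the forms under a homomorphism -/
noncomputable def LR {F : Type*} [Field F] {R : Type*} [NonUnitalNonAssocRing R] [Module F R]
    (ρ : FA F →ₙₐ[F] R) (m : Multiset ℕ) : Submodule F R := (LP F m).map (ρ : FA F →ₗ[F] R)

/-- the image of `P` under a homomorphism -/
noncomputable def PR {F : Type*} [Field F] {R : Type*} [NonUnitalNonAssocRing R] [Module F R]
    (ρ : FA F →ₙₐ[F] R) (m : Multiset ℕ) : Submodule F R := (P F m).map (ρ : FA F →ₗ[F] R)

/-- `f` is an identity of the split octonions -/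
def Id (f : FA F) : Prop := IsIdentity F (Oc F) f

/-- all multilinear identities of the octonions of degree at most `d` hold in `R` -/
def Sat (d : ℕ) (R : Type*) [NonUnitalNonAssocRing R] [Module F R] : Prop :=
  ∀ m : Multiset ℕ, m.Nodup → m.card ≤ d → ∀ f ∈ P F m, Id F f → IsIdentity F R f

end real

end Pool.Agent.OB
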