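import Pool.Agent.OB.ExpD

/-!
# Finiteness  (module ExpA)

`{w | lets id w = range n}` is finite (`FinB_words`), so `Mon F n` is finite; in characteristic `p` the additive group
generated by a finite set is finite (it is the image of the finite type `words → ZMod p` resp. a finitely generated module
over the finite ring `ZMod p`: the additive closure is contained in the `ZMod p`-span, or bound directly: every element of the
closure is `∑ w, (c w : F) • mo F w` with `c w < p`), so `SSd_finite`.
-/

set_option autoImplicit false
set_option linter.unusedSectionVars false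

namespace Pool.Agent.OB

open FreeNonUnitalNonAssocAlgebra Pool.Agent.H.MP_41922c_al Pool.Agent.Smt

variable {F : Type*} [Field F]

theorem SS0_sub (n : ℕ) {g : FA F} (hg : g ∈ SS0 F n) : g ∈ P F (Multiset.range n) := by
  have h1 : AddSubgroup.closure (Mon F n) ≤ (P F (Multiset.range n)).toAddSubgroup := by
    rw [AddSubgroup.closure_le]
    exact Submodule.subset_span
  exact h1 hg.1

private theorem ExpA_fin0 {G : Type*} [AddCommGroup G] {p : ℕ} [Fact p.Prime] [Module (ZMod p) G]
    {S : Set G} (hS : S.Finite) : ((AddSubgroup.closure S : AddSubgroup G) : Set G).Finite := by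
  have h1 : AddSubgroup.closure S ≤ (Submodule.span (ZMod p) S).toAddSubgroup := by
    rw [AddSubgroup.closure_le]
    exact Submodule.subset_span
  have h2 := Module.Finite.span_of_finite (ZMod p) hS
  have h3 := Module.finite_of_finite (ZMod p) (M := Submodule.span (ZMod p) S)
  have h4 : ((Submodule.span (ZMod p) S : Submodule (ZMod p) G) : Set G).Finite := Set.toFinite _
  exact h4.subset h1

private theorem ExpA_fin {G : Type*} [AddCommGroup G] {p : ℕ} [Fact p.Prime]
    (hp : ∀ x : G, p • x = 0) {S : Set G} (hS : S.Finite) :
    ((AddSubgroup.closure S : AddSubgroup G) : Set G).Finite :=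
  @ExpA_fin0 G _ p _ (AddCommGroup.zmodModule hp) S hS

theorem SSd_finite {p : ℕ} [Fact p.Prime] [CharP F p] (d : ℕ) : (SSd F d).Finite := by
  have hp : ∀ x : FA F, p • x = 0 := by
    intro x
    rw [← Nat.cast_smul_eq_nsmul F, CharP.cast_eq_zero, zero_smul]
  have h1 : ∀ n : ℕ, (SS0 F n).Finite := by
    intro n
    have h2 : (Mon F n).Finite :=
      (FinB_words (Multiset.range n).card (Multiset.range n) rfl).image (mo F)
    exact (ExpA_fin hp h2).subset fun g hg => hg.1
  have h3 : (⋃ n ∈ Set.Iic d, SS0 F n).Finite :=
    (Set.finite_Iic d).biUnion fun n _ => h1 n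
  refine h3.subset ?_
  rintro g ⟨n, hn, hg⟩
  rw [Set.mem_iUnion₂]
  exact ⟨n, hn, hg⟩

end Pool.Agent.OB
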