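import Pool.Agent.OB.ExpD

/-!
# Multilinear polynomials which vanish on the standard basis are identities  (module ExpB)

`g ∈ P F m`, `m.Nodup`, is multilinear, so its value at `φ` is a combination of its values on basis elements. Recommended: for
`v : ℕ → Oc F` and `x ∈ m` the value `lift F (Function.update v x a) g` is linear in `a` (`PP_induction` reduces to words
`w` with `lets id w = m`; induction over `w`, where the letters of the two factors are disjoint; see `Real.lean`: `sb_up_add`,
`sb_up_sc` for the same thing). Then by induction on the number of the variables `i ∈ m` for which `v i` is not a basis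
element. (Write `a = ∑ j, c j • bas j`.) Variables outside of `m` do not matter (their value can be replaced by `bas 0`).
-/

set_option autoImplicit false
set_option linter.unusedSectionVars false

namespace Pool.Agent.OB

open FreeNonUnitalNonAssocAlgebra Pool.Agent.H.MP_41922c_al Pool.Agent.Smt

variable {F : Type*} [Field F]

theorem ExpB_of (v : ℕ → Oc F) (i : ℕ) : lift F v (mo F (FreeMagma.of i)) = v i :=
  lift_of_apply _ _ _

/-- only the letters of `m` matter -/
theorem ExpB_congr {m : Multiset ℕ} {g : FA F} (hg : g ∈ P F m) {v v' : ℕ → Oc F}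
    (h : ∀ i ∈ m, v i = v' i) : lift F v g = lift F v' g := by
  refine PP_induction id (p := fun g => lift F v g = lift F v' g) ?_ ?_ ?_ ?_ hg
  · rw [map_zero, map_zero]
  · intro f f' hf hf'
    rw [map_add, map_add, hf, hf']
  · intro k f hf
    rw [map_smul, map_smul, hf]
  · rintro w rfl
    clear hg g
    induction w with
    | ih1 i =>
      rw [ExpB_of, ExpB_of]
      exact h i (Multiset.mem_singleton_self i)
    | ih2 u w hu hw =>
      rw [lift_mo, lift_mo, hu (fun i hi => h i (Multiset.mem_add.2 (Or.inl hi))),
        hw (fun i hi => h i (Multiset.mem_add.2 (Or.inr hi)))]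

/-- a word does not depend on the value of a letter which does not occur in it -/
theorem ExpB_ne {w : FreeMagma ℕ} {x : ℕ} (hx : x ∉ lets id w) (v : ℕ → Oc F) (a b : Oc F) :
    lift F (Function.update v x a) (mo F w) = lift F (Function.update v x b) (mo F w) := by
  refine ExpB_congr (mo_mem id w) fun i hi => ?_
  have hne : i ≠ x := by
    rintro rfl
    exact hx hi
  rw [Function.update_of_ne hne, Function.update_of_ne hne]

/-- in a word without repetitions the variable `x` occurs in exactly one factor -/
theorem ExpB_cases {u v : FreeMagma ℕ} {x : ℕ} (hm : (lets id (u * v)).Nodup)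
    (hx : x ∈ lets id (u * v)) : ((lets id u).Nodup ∧ x ∈ lets id u ∧ x ∉ lets id v) ∨
      ((lets id v).Nodup ∧ x ∈ lets id v ∧ x ∉ lets id u) := by
  have h1 : lets id (u * v) = lets id u + lets id v := rfl
  rw [h1] at hm hx
  obtain ⟨h2, h3, h4⟩ := Multiset.nodup_add.1 hm
  rcases Multiset.mem_add.1 hx with h | h
  · exact Or.inl ⟨h2, h, Multiset.disjoint_left.1 h4 h⟩
  · exact Or.inr ⟨h3, h, Multiset.disjoint_right.1 h4 h⟩

theorem ExpB_add {m : Multiset ℕ} (hm : m.Nodup) {x : ℕ} (hx : x ∈ m) {g : FA F}
    (hg : g ∈ P F m) (v : ℕ → Oc F) (a b : Oc F) :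
    lift F (Function.update v x (a + b)) g =
      lift F (Function.update v x a) g + lift F (Function.update v x b) g := by
  refine PP_induction id (p := fun g => lift F (Function.update v x (a + b)) g =
      lift F (Function.update v x a) g + lift F (Function.update v x b) g) ?_ ?_ ?_ ?_ hg
  · simp only [map_zero, add_zero]
  · intro f f' hf hf'
    simp only [map_add, hf, hf']
    abel
  · intro k f hf
    simp only [map_smul, hf, smul_add]
  · rintro w rfl
    clear hg g
    induction w with
    | ih1 i =>
      have h : x = i := Multiset.mem_singleton.1 hx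
      subst h
      rw [ExpB_of, ExpB_of, ExpB_of, Function.update_self, Function.update_self,
        Function.update_self]
    | ih2 u w hu hw =>
      rw [lift_mo, lift_mo, lift_mo]
      rcases ExpB_cases hm hx with ⟨h1, h2, h3⟩ | ⟨h1, h2, h3⟩
      · rw [ExpB_ne h3 v (a + b) a, ExpB_ne h3 v b a, hu h1 h2, add_mul]
      · rw [ExpB_ne h3 v (a + b) a, ExpB_ne h3 v b a, hw h1 h2, mul_add]

theorem ExpB_smul {m : Multiset ℕ} (hm : m.Nodup) {x : ℕ} (hx : x ∈ m) {g : FA F}
    (hg : g ∈ P F m) (v : ℕ → Oc F) (c : F) (a : Oc F) :
    lift F (Function.update v x (c • a)) g = c • lift F (Function.update v x a) g := by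
  refine PP_induction id (p := fun g => lift F (Function.update v x (c • a)) g =
      c • lift F (Function.update v x a) g) ?_ ?_ ?_ ?_ hg
  · simp only [map_zero, smul_zero]
  · intro f f' hf hf'
    simp only [map_add, hf, hf', smul_add]
  · intro k f hf
    simp only [map_smul, hf]
    rw [smul_comm]
  · rintro w rfl
    clear hg g
    induction w with
    | ih1 i =>
      have h : x = i := Multiset.mem_singleton.1 hx
      subst h
      rw [ExpB_of, ExpB_of, Function.update_self, Function.update_self]
    | ih2 u w hu hw =>
      rw [lift_mo, lift_mo]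
      rcases ExpB_cases hm hx with ⟨h1, h2, h3⟩ | ⟨h1, h2, h3⟩
      · rw [ExpB_ne h3 v (c • a) a, hu h1 h2, smul_mul_assoc]
      · rw [ExpB_ne h3 v (c • a) a, hw h1 h2, mul_smul_comm]

/-- every octonion is a combination of the basis elements -/
theorem ExpB_basis (a : Oc F) : ∃ c : Fin 8 → F, a = ∑ j, c j • bas (F := F) j := by
  refine ⟨![a.m₁, a.m₂, a.m₃, a.m₄, a.a₁, a.a₂, a.c₁, a.c₂], ?_⟩
  rw [Fin.sum_univ_eight]
  ext <;> simp [bas]

theorem ExpB_fin {m : Multiset ℕ} (hm : m.Nodup) {g : FA F} (hg : g ∈ P F m)
    (h : ∀ v : ℕ → Fin 8, lift F (fun i => bas (F := F) (v i)) g = 0) (Z : Finset ℕ) :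
    (∀ i ∈ Z, i ∈ m) → ∀ v : ℕ → Oc F, (∀ i, i ∉ Z → ∃ j, bas (F := F) j = v i) →
      lift F v g = 0 := by
  induction Z using Finset.induction_on with
  | empty =>
    intro _ v hv
    choose c hc using fun i => hv i (Finset.notMem_empty i)
    have h1 : (fun i => bas (F := F) (c i)) = v := funext hc
    rw [← h1]
    exact h c
  | insert x Z hxZ ih =>
    intro hZ v hv
    have hx : x ∈ m := hZ x (Finset.mem_insert_self x Z)
    let L : Oc F →ₗ[F] Oc F :=
      { toFun := fun a => lift F (Function.update v x a) g
        map_add' := ExpB_add hm hx hg v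
        map_smul' := ExpB_smul hm hx hg v }
    have hL : ∀ j, L (bas j) = 0 := by
      intro j
      refine ih (fun i hi => hZ i (Finset.mem_insert_of_mem hi)) _ fun i hi => ?_
      by_cases hix : i = x
      · subst hix
        exact ⟨j, by rw [Function.update_self]⟩
      · obtain ⟨j', hj'⟩ := hv i (by
          rw [Finset.mem_insert]
          rintro (h1 | h1)
          · exact hix h1
          · exact hi h1)
        exact ⟨j', by rw [Function.update_of_ne hix, hj']⟩
    obtain ⟨c, hc⟩ := ExpB_basis (v x)
    have h1 : L (v x) = 0 := by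
      rw [hc, map_sum]
      refine Finset.sum_eq_zero fun j _ => ?_
      rw [map_smul, hL, smul_zero]
    have h2 : L (v x) = lift F v g := by
      show lift F (Function.update v x (v x)) g = lift F v g
      rw [Function.update_eq_self]
    rw [← h2, h1]

theorem id_of_vanish {m : Multiset ℕ} (hm : m.Nodup) {g : FA F} (hg : g ∈ P F m)
    (h : ∀ v : ℕ → Fin 8, lift F (fun i => bas (F := F) (v i)) g = 0) : Id F g := by
  intro φ
  classical
  have h1 : φ = lift F (fun i => φ (of F i)) := by
    refine hom_ext F ?_
    intro i
    rw [lift_of_apply]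
  rw [h1]
  have h2 : lift F (fun i => φ (of F i)) g =
      lift F (fun i => if i ∈ m then φ (of F i) else bas 0) g := by
    refine ExpB_congr hg fun i hi => ?_
    rw [if_pos hi]
  rw [h2]
  refine ExpB_fin hm hg h m.toFinset (fun i hi => Multiset.mem_toFinset.1 hi) _ fun i hi => ?_
  rw [if_neg (fun h3 => hi (Multiset.mem_toFinset.2 h3))]
  exact ⟨0, rfl⟩

end Pool.Agent.OB
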