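import Pool.Agent.OB.ExpD

/-!
# The solutions over the prime field span the solutions  (module ExpC)

* `bas_int`: the value of a word on basis elements has integral coordinates: the set of the elements of `Oc F` all whose
  coordinates lie in the range of `Int.castRingHom F` is closed under products and contains `bas j`.
* Every element of `P F (range n)` is `∑ j, b j • g j`, where `b` is a basis of `F` over the prime field and the `g j` are
  integral combinations of monomials. If it vanishes on the basis elements, so do all the `g j`, by the linear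
  independence of `b`.
-/

set_option autoImplicit false
set_option linter.unusedSectionVars false

namespace Pool.Agent.OB

open FreeNonUnitalNonAssocAlgebra Pool.Agent.H.MP_41922c_al Pool.Agent.Smt

variable {F : Type*} [Field F]

/-- all coordinates of `x` lie in the subring `S` -/
private def ExpC_In (S : Subring F) (x : Oc F) : Prop :=
  x.m₁ ∈ S ∧ x.m₂ ∈ S ∧ x.m₃ ∈ S ∧ x.m₄ ∈ S ∧ x.a₁ ∈ S ∧ x.a₂ ∈ S ∧ x.c₁ ∈ S ∧ x.c₂ ∈ S

private theorem ExpC_mul (S : Subring F) {x y : Oc F} (hx : ExpC_In S x) (hy : ExpC_In S y) :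
    ExpC_In S (x * y) := by
  obtain ⟨x1, x2, x3, x4, x5, x6, x7, x8⟩ := hx
  obtain ⟨y1, y2, y3, y4, y5, y6, y7, y8⟩ := hy
  rw [Oc.mul_def]
  refine ⟨?_, ?_, ?_, ?_, ?_, ?_, ?_, ?_⟩
  · exact add_mem (add_mem (mul_mem x1 y1) (mul_mem x2 y3)) (sub_mem (mul_mem y8 x5) (mul_mem y6 x7))
  · exact add_mem (add_mem (mul_mem x1 y2) (mul_mem x2 y4)) (sub_mem (mul_mem y8 x6) (mul_mem y6 x8))
  · exact add_mem (add_mem (mul_mem x3 y1) (mul_mem x4 y3))
      (add_mem (mul_mem (neg_mem y7) x5) (mul_mem y5 x7))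
  · exact add_mem (add_mem (mul_mem x3 y2) (mul_mem x4 y4))
      (add_mem (mul_mem (neg_mem y7) x6) (mul_mem y5 x8))
  · exact add_mem (add_mem (mul_mem y5 x1) (mul_mem y6 x3)) (sub_mem (mul_mem x5 y4) (mul_mem x6 y3))
  · exact add_mem (add_mem (mul_mem y5 x2) (mul_mem y6 x4))
      (add_mem (mul_mem (neg_mem x5) y2) (mul_mem x6 y1))
  · exact add_mem (add_mem (mul_mem y7 x1) (mul_mem y8 x3)) (sub_mem (mul_mem x7 y4) (mul_mem x8 y3))
  · exact add_mem (add_mem (mul_mem y7 x2) (mul_mem y8 x4))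
      (add_mem (mul_mem (neg_mem x7) y2) (mul_mem x8 y1))

private theorem ExpC_add (S : Subring F) {x y : Oc F} (hx : ExpC_In S x) (hy : ExpC_In S y) :
    ExpC_In S (x + y) := by
  obtain ⟨x1, x2, x3, x4, x5, x6, x7, x8⟩ := hx
  obtain ⟨y1, y2, y3, y4, y5, y6, y7, y8⟩ := hy
  exact ⟨add_mem x1 y1, add_mem x2 y2, add_mem x3 y3, add_mem x4 y4, add_mem x5 y5, add_mem x6 y6,
    add_mem x7 y7, add_mem x8 y8⟩

private theorem ExpC_neg (S : Subring F) {x : Oc F} (hx : ExpC_In S x) : ExpC_In S (-x) := by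
  obtain ⟨x1, x2, x3, x4, x5, x6, x7, x8⟩ := hx
  exact ⟨neg_mem x1, neg_mem x2, neg_mem x3, neg_mem x4, neg_mem x5, neg_mem x6, neg_mem x7,
    neg_mem x8⟩

private theorem ExpC_zero (S : Subring F) : ExpC_In S (0 : Oc F) :=
  ⟨zero_mem S, zero_mem S, zero_mem S, zero_mem S, zero_mem S, zero_mem S, zero_mem S, zero_mem S⟩

private theorem ExpC_bas (S : Subring F) (j : Fin 8) : ExpC_In S (bas (F := F) j) := by
  fin_cases j <;> simp [ExpC_In, bas, zero_mem, one_mem]

/-- the value of a word on basis elements has coordinates in every subring -/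
private theorem ExpC_word (S : Subring F) (v : ℕ → Fin 8) (w : FreeMagma ℕ) :
    ExpC_In S (lift F (fun i => bas (F := F) (v i)) (mo F w)) := by
  induction w with
  | ih1 i =>
    have h : lift F (fun i => bas (F := F) (v i)) (mo F (FreeMagma.of i)) = bas (v i) :=
      lift_of_apply _ _ _
    rw [h]
    exact ExpC_bas S _
  | ih2 u w hu hw =>
    rw [lift_mo]
    exact ExpC_mul S hu hw

private theorem ExpC_clo (S : Subring F) (v : ℕ → Fin 8) (n : ℕ) {g : FA F}
    (hg : g ∈ AddSubgroup.closure (Mon F n)) :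
    ExpC_In S (lift F (fun i => bas (F := F) (v i)) g) := by
  induction hg using AddSubgroup.closure_induction with
  | mem x hx =>
    obtain ⟨w, -, rfl⟩ := hx
    exact ExpC_word S v w
  | zero => rw [map_zero]; exact ExpC_zero S
  | add x y _ _ hx hy => rw [map_add]; exact ExpC_add S hx hy
  | neg x _ hx => rw [map_neg]; exact ExpC_neg S hx

/-- a combination of independent scalars with coefficients in the prime field -/
private theorem ExpC_ind {p : ℕ} [Fact p.Prime] [Algebra (ZMod p) F] {ι : Type*} {b : ι → F}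
    (hb : LinearIndependent (ZMod p) b) (s : Finset ι) (x : ι → F)
    (hx : ∀ j, x j ∈ (algebraMap (ZMod p) F).range) (h : ∑ j ∈ s, b j * x j = 0) :
    ∀ j ∈ s, x j = 0 := by
  choose k hk using hx
  have h1 : ∑ j ∈ s, k j • b j = 0 := by
    rw [← h]
    refine Finset.sum_congr rfl fun j _ => ?_
    rw [Algebra.smul_def, hk, mul_comm]
  intro j hj
  rw [← hk, linearIndependent_iff'.1 hb s k h1 j hj, map_zero]

/-- every multilinear polynomial is a combination of integral ones with coefficients `b j` -/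
private theorem ExpC_dec {p : ℕ} [Fact p.Prime] [Algebra (ZMod p) F] {ι : Type*}
    (b : Module.Basis ι (ZMod p) F) (n : ℕ) {f : FA F} (hf : f ∈ P F (Multiset.range n)) :
    ∃ g : ι →₀ FA F, (∀ j, g j ∈ AddSubgroup.closure (Mon F n)) ∧
      f = g.sum fun j x => b j • x := by
  classical
  have hf' : f ∈ Submodule.span F (Mon F n) := hf
  induction hf' using Submodule.closure_induction with
  | zero => exact ⟨0, fun j => zero_mem _, by simp⟩
  | add x y hx hy ihx ihy =>
    obtain ⟨g, hg, rfl⟩ := ihx hx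
    obtain ⟨g', hg', rfl⟩ := ihy hy
    refine ⟨g + g', fun j => add_mem (hg j) (hg' j), ?_⟩
    rw [Finsupp.sum_add_index']
    · intro j; rw [smul_zero]
    · intro j x y; rw [smul_add]
  | smul_mem c m hm =>
    refine ⟨(b.repr c).mapRange (fun k => k.val • m) (by simp), fun j => ?_, ?_⟩
    · rw [Finsupp.mapRange_apply]
      exact nsmul_mem (AddSubgroup.subset_closure hm) _
    · rw [Finsupp.sum_mapRange_index (by intro j; rw [smul_zero])]
      conv_lhs => rw [← b.linearCombination_repr c]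
      rw [Finsupp.linearCombination_apply, Finsupp.sum, Finsupp.sum, Finset.sum_smul]
      refine Finset.sum_congr rfl fun j _ => ?_
      have h1 : (b.repr c j) • b j = (((b.repr c j).val : ℕ) : F) * b j := by
        rw [Algebra.smul_def]
        congr 1
        rw [← map_natCast (algebraMap (ZMod p) F), ZMod.natCast_zmod_val]
      rw [h1, mul_comm, mul_smul, Nat.cast_smul_eq_nsmul]

theorem span_SS0 {p : ℕ} [Fact p.Prime] [CharP F p] (n : ℕ) {f : FA F} (hf : f ∈ P F (Multiset.range n))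
    (hid : Id F f) : f ∈ Submodule.span F (SS0 F n) := by
  classical
  let _ : Algebra (ZMod p) F := ZMod.algebra F p
  let b := Module.Basis.ofVectorSpace (ZMod p) F
  obtain ⟨g, hg, rfl⟩ := ExpC_dec b n hf
  rw [Finsupp.sum]
  refine Submodule.sum_mem _ fun j hj => Submodule.smul_mem _ _ (Submodule.subset_span ⟨hg j, ?_⟩)
  intro v
  set L : FA F →ₙₐ[F] Oc F := lift F (fun i => bas (F := F) (v i)) with hL
  have h0 : ∑ j ∈ g.support, b j • L (g j) = 0 := by
    have h1 : L (g.sum fun j x => b j • x) = 0 := hid L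
    rw [Finsupp.sum, map_sum] at h1
    rw [← h1]
    refine Finset.sum_congr rfl fun j _ => ?_
    rw [map_smul]
  have hR : ∀ j, ExpC_In (algebraMap (ZMod p) F).range (L (g j)) := fun j =>
    ExpC_clo _ v n (hg j)
  have key : ∀ π : Oc F →ₗ[F] F, (∀ x, ExpC_In (algebraMap (ZMod p) F).range x →
      π x ∈ (algebraMap (ZMod p) F).range) → π (L (g j)) = 0 := by
    intro π hπ
    refine ExpC_ind b.linearIndependent g.support (fun j => π (L (g j))) (fun j => hπ _ (hR j)) ?_
      j hj
    have h2 := congrArg π h0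
    rw [map_sum, map_zero] at h2
    rw [← h2]
    refine Finset.sum_congr rfl fun j _ => ?_
    rw [map_smul, smul_eq_mul]
  ext
  · exact key ⟨⟨fun x => x.m₁, fun _ _ => rfl⟩, fun _ _ => rfl⟩ fun x hx => hx.1
  · exact key ⟨⟨fun x => x.m₂, fun _ _ => rfl⟩, fun _ _ => rfl⟩ fun x hx => hx.2.1
  · exact key ⟨⟨fun x => x.m₃, fun _ _ => rfl⟩, fun _ _ => rfl⟩ fun x hx => hx.2.2.1
  · exact key ⟨⟨fun x => x.m₄, fun _ _ => rfl⟩, fun _ _ => rfl⟩ fun x hx => hx.2.2.2.1
  · exact key ⟨⟨fun x => x.a₁, fun _ _ => rfl⟩, fun _ _ => rfl⟩ fun x hx => hx.2.2.2.2.1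
  · exact key ⟨⟨fun x => x.a₂, fun _ _ => rfl⟩, fun _ _ => rfl⟩ fun x hx => hx.2.2.2.2.2.1
  · exact key ⟨⟨fun x => x.c₁, fun _ _ => rfl⟩, fun _ _ => rfl⟩ fun x hx => hx.2.2.2.2.2.2.1
  · exact key ⟨⟨fun x => x.c₂, fun _ _ => rfl⟩, fun _ _ => rfl⟩ fun x hx => hx.2.2.2.2.2.2.2

end Pool.Agent.OB
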