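import Pool.Agent.OB.Real

/-!
# Components of identities; identities of degree at most 3  (module Hom)

`Id_comp`: substitute `c_i x_i` for `x_i`: `ev f (c v) = ∑_m (∏_(i ∈ m) c_i) ev (comp m f) v` (`exists_comp`), and `F` is
infinite (`MvPolynomial.funext` for the 8 coordinates).

`small`: modulo the multilinear identities of degree at most 3 of the octonions (these are the consequences of
the alternative laws), `R` alternative. Multidegrees `{a, a, a}`: `f = c₁ (a a) a + c₂ a (a a)`, `c₁ + c₂ = 0` (value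
at an idempotent). `{a, a, b}`: in `R` (and in `O`) `(a a) b = a (a b)`, `(a b) a = a (b a)`, `(b a) a = b (a a)`; the functions
`a² b`, `a b a`, `b a²` on `O` are linearly independent (`a = E₁₁`, `b = E₁₂, E₂₁, E₁₁`). `{a, a}`: `f = c a a`, `c = 0`.
Alternatively: the full polarization of `f` (`α! ≠ 0` in `F`).
-/

set_option autoImplicit false
set_option linter.unusedSectionVars false

namespace Pool.Agent.OB

open FreeNonUnitalNonAssocAlgebra Pool.Agent.H.MP_41922c_al Pool.Agent.Smt

variable {F : Type*} [Field F]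

theorem Hom_scale (c : ℕ → F) (φ : FA F →ₙₐ[F] Oc F) {m : Multiset ℕ} {g : FA F}
    (hg : g ∈ P F m) :
    lift F (fun i => c i • φ (of F i)) g = (m.map c).prod • φ g := by
  refine PP_induction id
    (p := fun g => lift F (fun i => c i • φ (of F i)) g = (m.map c).prod • φ g) ?_ ?_ ?_ ?_ hg
  · rw [map_zero, map_zero, smul_zero]
  · intro f g hf hg
    rw [map_add, map_add, hf, hg, smul_add]
  · intro k f hf
    rw [map_smul, map_smul, hf, smul_comm]
  · rintro w rfl
    clear hg g
    induction w with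
    | ih1 i =>
      show lift F _ (of F i) = (({i} : Multiset ℕ).map c).prod • φ (of F i)
      rw [lift_of_apply, Multiset.map_singleton, Multiset.prod_singleton]
    | ih2 u v hu hv =>
      show lift F _ (mo F u * mo F v) =
        ((lets id u + lets id v).map c).prod • φ (mo F u * mo F v)
      rw [map_mul, map_mul, hu, hv, Multiset.map_add, Multiset.prod_add, smul_mul_smul_comm]

theorem Id_comp [Infinite F] {f : FA F} (hf : Id F f) (m : Multiset ℕ) :
    Id F (comp F id m f) := by
  classical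
  intro φ
  obtain ⟨S, h1, h2⟩ := exists_comp (F := F) id f
  by_cases hm : m ∈ S
  swap
  · rw [h2 m hm, map_zero]
  refine (Module.forall_dual_apply_eq_zero_iff F _).1 fun l => ?_
  have h3 : ∀ c : ℕ → F, ∑ m' ∈ S, (m'.map c).prod * l (φ (comp F id m' f)) = 0 := by
    intro c
    have h4 : lift F (fun i => c i • φ (of F i)) (∑ m' ∈ S, comp F id m' f) = 0 := by
      rw [← h1]
      exact hf _
    have h5 := congrArg l h4
    rw [map_sum, map_sum, map_zero] at h5
    rw [← h5]
    refine Finset.sum_congr rfl fun m' _ => ?_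
    rw [Hom_scale c φ (comp_mem id m' f), map_smul, smul_eq_mul]
  obtain ⟨p, hp⟩ : ∃ p : MvPolynomial ℕ F, p = ∑ m' ∈ S,
    MvPolynomial.monomial (Multiset.toFinsupp m') (l (φ (comp F id m' f))) := ⟨_, rfl⟩
  have hp0 : p = 0 := by
    refine MvPolynomial.funext fun c => ?_
    rw [hp, map_sum, map_zero, ← h3 c]
    refine Finset.sum_congr rfl fun m' _ => ?_
    rw [MvPolynomial.eval_monomial, mul_comm, Finset.prod_multiset_map_count]
    congr 1
  have h6 := congrArg (MvPolynomial.coeff (Multiset.toFinsupp m)) hp0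
  rw [hp, MvPolynomial.coeff_sum, MvPolynomial.coeff_zero, Finset.sum_eq_single m] at h6
  · rwa [MvPolynomial.coeff_monomial, if_pos rfl] at h6
  · intro m' _ hne
    rw [MvPolynomial.coeff_monomial, if_neg]
    intro h
    exact hne (Multiset.toFinsupp.injective h)
  · intro h
    exact absurd hm h

theorem Hom_card (w : FreeMagma ℕ) : 0 < (lets id w).card :=
  Multiset.card_pos.2 (lets_ne id w)

theorem Hom_w1 {w : FreeMagma ℕ} (h : (lets id w).card = 1) : ∃ i, w = FreeMagma.of i := by
  cases w with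
  | of i => exact ⟨i, rfl⟩
  | mul u v =>
    exfalso
    have h1 : (lets id u + lets id v).card = 1 := h
    rw [Multiset.card_add] at h1
    have h2 := Hom_card u
    have h3 := Hom_card v
    omega

theorem Hom_w2 {w : FreeMagma ℕ} (h : (lets id w).card = 2) :
    ∃ i j, w = FreeMagma.of i * FreeMagma.of j := by
  cases w with
  | of i =>
    exfalso
    have h1 : ({i} : Multiset ℕ).card = 2 := h
    rw [Multiset.card_singleton] at h1
    omega
  | mul u v =>
    have h1 : (lets id u + lets id v).card = 2 := h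
    rw [Multiset.card_add] at h1
    have h2 := Hom_card u
    have h3 := Hom_card v
    obtain ⟨i, rfl⟩ := Hom_w1 (w := u) (by omega)
    obtain ⟨j, rfl⟩ := Hom_w1 (w := v) (by omega)
    exact ⟨i, j, rfl⟩

theorem Hom_w3 {w : FreeMagma ℕ} (h : (lets id w).card = 3) :
    ∃ i j k, w = (FreeMagma.of i * FreeMagma.of j) * FreeMagma.of k ∨
      w = FreeMagma.of i * (FreeMagma.of j * FreeMagma.of k) := by
  cases w with
  | of i =>
    exfalso
    have h1 : ({i} : Multiset ℕ).card = 3 := h
    rw [Multiset.card_singleton] at h1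
    omega
  | mul u v =>
    have h1 : (lets id u + lets id v).card = 3 := h
    rw [Multiset.card_add] at h1
    have h2 := Hom_card u
    have h3 := Hom_card v
    rcases (by omega : (lets id u).card = 1 ∨ (lets id v).card = 1) with h4 | h4
    · obtain ⟨i, rfl⟩ := Hom_w1 h4
      obtain ⟨j, k, rfl⟩ := Hom_w2 (w := v) (by omega)
      exact ⟨i, j, k, Or.inr rfl⟩
    · obtain ⟨k, rfl⟩ := Hom_w1 h4
      obtain ⟨i, j, rfl⟩ := Hom_w2 (w := u) (by omega)
      exact ⟨i, j, k, Or.inl rfl⟩

theorem Hom_mul {a b i j k : ℕ} (h : ({i} + {j} + {k} : Multiset ℕ) = {a} + {a} + {b}) :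
    (i = a ∧ j = a ∧ k = b) ∨ (i = a ∧ j = b ∧ k = a) ∨ (i = b ∧ j = a ∧ k = a) := by
  have hi : ({i} : Multiset ℕ) + ({j} + {k}) = {a} + ({a} + {b}) := by
    rw [← add_assoc, ← add_assoc]
    exact h
  by_cases h1 : i = a
  · rw [h1] at hi
    have h2 := add_left_cancel hi
    by_cases h3 : j = a
    · rw [h3] at h2
      exact Or.inl ⟨h1, h3, Multiset.singleton_inj.1 (add_left_cancel h2)⟩
    · have h4 : j ∈ ({a} + {b} : Multiset ℕ) := by
        rw [← h2]
        exact Multiset.mem_add.2 (Or.inl (Multiset.mem_singleton_self j))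
      rw [Multiset.mem_add, Multiset.mem_singleton, Multiset.mem_singleton] at h4
      have h5 := h4.resolve_left h3
      rw [h5, add_comm ({a} : Multiset ℕ)] at h2
      exact Or.inr (Or.inl ⟨h1, h5, Multiset.singleton_inj.1 (add_left_cancel h2)⟩)
  · have h4 : i ∈ ({a} + ({a} + {b}) : Multiset ℕ) := by
      rw [← hi]
      exact Multiset.mem_add.2 (Or.inl (Multiset.mem_singleton_self i))
    rw [Multiset.mem_add, Multiset.mem_add, Multiset.mem_singleton, Multiset.mem_singleton] at h4
    have h5 : i = b := (h4.resolve_left h1).resolve_left h1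
    have h6 : ({a} : Multiset ℕ) + ({a} + {b}) = {b} + ({a} + {a}) := by abel
    rw [h6, h5] at hi
    have h7 := add_left_cancel hi
    have h8 : j = a := by
      have h9 : j ∈ ({a} + {a} : Multiset ℕ) := by
        rw [← h7]
        exact Multiset.mem_add.2 (Or.inl (Multiset.mem_singleton_self j))
      rw [Multiset.mem_add, Multiset.mem_singleton, or_self] at h9
      exact h9
    rw [h8] at h7
    exact Or.inr (Or.inr ⟨h5, h8, Multiset.singleton_inj.1 (add_left_cancel h7)⟩)

/-- the polynomials of multidegree `{a, a, b}` -/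
theorem Hom_span {a b : ℕ} {f : FA F} (hf : f ∈ P F ({a} + {a} + {b})) :
    ∃ c₁ c₂ c₃ c₄ c₅ c₆ : F, f = c₁ • ((of F a * of F a) * of F b) +
      c₂ • (of F a * (of F a * of F b)) + c₃ • ((of F a * of F b) * of F a) +
      c₄ • (of F a * (of F b * of F a)) + c₅ • ((of F b * of F a) * of F a) +
      c₆ • (of F b * (of F a * of F a)) := by
  refine PP_induction id (p := fun f => ∃ c₁ c₂ c₃ c₄ c₅ c₆ : F,
      f = c₁ • ((of F a * of F a) * of F b) +
      c₂ • (of F a * (of F a * of F b)) + c₃ • ((of F a * of F b) * of F a) +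
      c₄ • (of F a * (of F b * of F a)) + c₅ • ((of F b * of F a) * of F a) +
      c₆ • (of F b * (of F a * of F a))) ?_ ?_ ?_ ?_ hf
  · exact ⟨0, 0, 0, 0, 0, 0, by simp only [zero_smul, add_zero]⟩
  · rintro f g ⟨c₁, c₂, c₃, c₄, c₅, c₆, rfl⟩ ⟨d₁, d₂, d₃, d₄, d₅, d₆, rfl⟩
    exact ⟨c₁ + d₁, c₂ + d₂, c₃ + d₃, c₄ + d₄, c₅ + d₅, c₆ + d₆, by
      simp only [add_smul]
      abel⟩
  · rintro k f ⟨c₁, c₂, c₃, c₄, c₅, c₆, rfl⟩
    exact ⟨k * c₁, k * c₂, k * c₃, k * c₄, k * c₅, k * c₆, by
      simp only [smul_add, smul_smul]⟩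
  · intro w hw
    have h3 : (lets id w).card = 3 := by
      rw [hw, Multiset.card_add, Multiset.card_add, Multiset.card_singleton,
        Multiset.card_singleton]
    obtain ⟨i, j, k, h⟩ := Hom_w3 h3
    rcases h with rfl | rfl
    · have h4 : ({i} + {j} + {k} : Multiset ℕ) = {a} + {a} + {b} := hw
      rcases Hom_mul h4 with ⟨rfl, rfl, rfl⟩ | ⟨rfl, rfl, rfl⟩ | ⟨rfl, rfl, rfl⟩
      · exact ⟨1, 0, 0, 0, 0, 0, by simp only [zero_smul, add_zero, one_smul]; rfl⟩
      · exact ⟨0, 0, 1, 0, 0, 0, by simp only [zero_smul, add_zero, zero_add, one_smul]; rfl⟩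
      · exact ⟨0, 0, 0, 0, 1, 0, by simp only [zero_smul, add_zero, zero_add, one_smul]; rfl⟩
    · have h4 : ({i} + {j} + {k} : Multiset ℕ) = {a} + {a} + {b} := by
        rw [add_assoc]
        exact hw
      rcases Hom_mul h4 with ⟨rfl, rfl, rfl⟩ | ⟨rfl, rfl, rfl⟩ | ⟨rfl, rfl, rfl⟩
      · exact ⟨0, 1, 0, 0, 0, 0, by simp only [zero_smul, add_zero, zero_add, one_smul]; rfl⟩
      · exact ⟨0, 0, 0, 1, 0, 0, by simp only [zero_smul, add_zero, zero_add, one_smul]; rfl⟩
      · exact ⟨0, 0, 0, 0, 0, 1, by simp only [zero_smul, add_zero, zero_add, one_smul]; rfl⟩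

theorem Hom_span2 {a : ℕ} {f : FA F} (hf : f ∈ P F ({a} + {a})) :
    ∃ c : F, f = c • (of F a * of F a) := by
  refine PP_induction id (p := fun f => ∃ c : F, f = c • (of F a * of F a)) ?_ ?_ ?_ ?_ hf
  · exact ⟨0, by rw [zero_smul]⟩
  · rintro f g ⟨c, rfl⟩ ⟨d, rfl⟩
    exact ⟨c + d, by rw [add_smul]⟩
  · rintro k f ⟨c, rfl⟩
    exact ⟨k * c, by rw [smul_smul]⟩
  · intro w hw
    have h2 : (lets id w).card = 2 := by
      rw [hw, Multiset.card_add, Multiset.card_singleton]
    obtain ⟨i, j, rfl⟩ := Hom_w2 h2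
    have h4 : ({i} + {j} : Multiset ℕ) = {a} + {a} := hw
    have hi : i ∈ ({a} + {a} : Multiset ℕ) := by
      rw [← h4]
      exact Multiset.mem_add.2 (Or.inl (Multiset.mem_singleton_self i))
    have hj : j ∈ ({a} + {a} : Multiset ℕ) := by
      rw [← h4]
      exact Multiset.mem_add.2 (Or.inr (Multiset.mem_singleton_self j))
    rw [Multiset.mem_add, Multiset.mem_singleton, or_self] at hi hj
    subst hi
    subst hj
    exact ⟨1, by rw [one_smul]; rfl⟩

/-- values of a polynomial of multidegree `{a, a, b}` in an alternative algebra -/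
theorem Hom_val {R : Type*} [NonUnitalNonAssocRing R] [Module F R] [IsScalarTower F R R]
    [SMulCommClass F R R] (h2 : (2 : F) ≠ 0) (hR : Sat F 9 R) (x y : R)
    (c₁ c₂ c₃ c₄ c₅ c₆ : F) : c₁ • ((x * x) * y) + c₂ • (x * (x * y)) + c₃ • ((x * y) * x) +
      c₄ • (x * (y * x)) + c₅ • ((y * x) * x) + c₆ • (y * (x * x)) =
      (c₁ + c₂) • ((x * x) * y) + (c₃ + c₄) • ((x * y) * x) + (c₅ + c₆) • ((y * x) * x) := by
  have half : ∀ z : R, z = -z → z = 0 := by
    intro z hz
    have h : (2 : F) • z = 0 := by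
      rw [two_smul]
      nth_rewrite 1 [hz]
      exact neg_add_cancel z
    have h' := congrArg (fun w => (2 : F)⁻¹ • w) h
    simpa only [smul_smul, inv_mul_cancel₀ h2, one_smul, smul_zero] using h'
  have a1 : associator x x y = 0 := half _ (alt12_R hR x x y)
  have a3 : associator y x x = 0 := half _ (alt23_R hR y x x)
  have a2 : associator x y x = 0 := by
    rw [alt23_R hR x y x, a1, neg_zero]
  rw [associator_apply, sub_eq_zero] at a1 a2 a3
  rw [← a1, ← a2, ← a3, add_smul, add_smul, add_smul]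
  abel

theorem small {R : Type*} [NonUnitalNonAssocRing R] [Module F R] [IsScalarTower F R R]
    [SMulCommClass F R R] [Infinite F] (h2 : (2 : F) ≠ 0) (h3 : (3 : F) ≠ 0)
    (hR : ∀ d, Sat F d R) {m : Multiset ℕ} (hm : m.card ≤ 3) {f : FA F} (hf : f ∈ P F m)
    (hid : Id F f) : IsIdentity F R f := by
  by_cases hn : m.Nodup
  · exact hR m.card m hn le_rfl f hf hid
  have hdup : ∃ a s, m = a ::ₘ a ::ₘ s := by
    rw [Multiset.nodup_iff_count_le_one, not_forall] at hn
    obtain ⟨a, ha⟩ := hn
    rw [not_le] at ha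
    have h4 : Multiset.replicate 2 a ≤ m := Multiset.le_count_iff_replicate_le.1 ha
    obtain ⟨s, hs⟩ := Multiset.le_iff_exists_add.1 h4
    exact ⟨a, s, by rw [hs, Multiset.replicate_succ, Multiset.replicate_succ,
      Multiset.replicate_zero, Multiset.cons_add, Multiset.cons_add, zero_add]⟩
  obtain ⟨a, s, rfl⟩ := hdup
  rw [Multiset.card_cons, Multiset.card_cons] at hm
  rcases (by omega : s.card = 0 ∨ s.card = 1) with hs | hs
  · rw [Multiset.card_eq_zero] at hs
    subst hs
    obtain ⟨c, rfl⟩ := Hom_span2 (a := a) (f := f) hf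
    have h4 := hid (lift F fun _ => (1 : Oc F))
    rw [map_smul, map_mul, lift_of_apply, mul_one] at h4
    have h5 : c = 0 := by
      have h6 := congrArg Oc.m₁ h4
      simpa using h6
    intro φ
    rw [h5, zero_smul, map_zero]
  · obtain ⟨b, rfl⟩ := Multiset.card_eq_one.1 hs
    have hf' : f ∈ P F ({a} + {a} + {b}) := by
      have e : a ::ₘ a ::ₘ ({b} : Multiset ℕ) = {a} + {a} + {b} := by
        rw [add_assoc, Multiset.singleton_add, Multiset.singleton_add]
      rw [← e]
      exact hf
    obtain ⟨c₁, c₂, c₃, c₄, c₅, c₆, rfl⟩ := Hom_span hf'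
    have hsat : Sat F 9 R := hR 9
    have hO : Sat F 9 (Oc F) := by
      intro m _ _ g _ hg
      exact hg
    have key : ∀ x y : Oc F, (a = b → x = y) → (c₁ + c₂) • ((x * x) * y) +
        (c₃ + c₄) • ((x * y) * x) + (c₅ + c₆) • ((y * x) * x) = 0 := by
      intro x y hxy
      have h4 := hid (lift F fun i => if i = a then x else y)
      have hxa : lift F (fun i => if i = a then x else y) (of F a) = x := by
        rw [lift_of_apply, if_pos rfl]
      have hxb : lift F (fun i => if i = a then x else y) (of F b) = y := by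
        rw [lift_of_apply]
        split_ifs with h
        · exact hxy h.symm
        · rfl
      simp only [map_add, map_smul, map_mul, hxa, hxb] at h4
      rw [Hom_val h2 hO] at h4
      exact h4
    have htot : c₁ + c₂ + (c₃ + c₄) + (c₅ + c₆) = 0 := by
      have h4 := key 1 1 (fun _ => rfl)
      rw [mul_one, mul_one, ← add_smul, ← add_smul] at h4
      have h6 := congrArg Oc.m₁ h4
      simpa using h6
    intro φ
    simp only [map_add, map_smul, map_mul]
    rw [Hom_val h2 hsat]
    by_cases hab : a = b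
    · subst hab
      rw [← add_smul, ← add_smul, htot, zero_smul]
    · have h4 := key ⟨1, 0, 0, 0, 0, 0, 0, 0⟩ ⟨0, 1, 0, 0, 0, 0, 0, 0⟩ (fun h => absurd h hab)
      have h5 := key ⟨1, 0, 0, 0, 0, 0, 0, 0⟩ ⟨0, 0, 1, 0, 0, 0, 0, 0⟩ (fun h => absurd h hab)
      have h6 : c₁ + c₂ = 0 := by
        have h7 := congrArg Oc.m₂ h4
        simpa using h7
      have h8 : c₅ + c₆ = 0 := by
        have h7 := congrArg Oc.m₃ h5
        simpa using h7
      have h9 : c₃ + c₄ = 0 := by
        rw [h6, h8, zero_add, add_zero] at htot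
        exact htot
      rw [h6, h8, h9, zero_smul, zero_smul, zero_smul, add_zero, add_zero]

end Pool.Agent.OB
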