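import Pool.Agent.OB.FinB
import Pool.Agent.OB.Hom

/-!
# The finite systems of linear equations over the prime field  (module ExpD, definitions)

`bas j` (`j : Fin 8`) is the standard basis of `Oc F` (all structure constants are `0, 1, -1`, see `Oc.mul_def`).
`Mon F n` is the set of the multilinear monomials in `x_0, ..., x_(n-1)` (each variable once, all bracketings).
`SS0 F n` is the set of the integral combinations of `Mon F n` (in characteristic `p`: the combinations with coefficients in
the prime field) which vanish on all basis elements. `SSd F d` is the union for `n ≤ d`.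
-/

set_option autoImplicit false
set_option linter.unusedSectionVars false

namespace Pool.Agent.OB

open FreeNonUnitalNonAssocAlgebra Pool.Agent.H.MP_41922c_al Pool.Agent.Smt

variable {F : Type*} [Field F]

/-- the standard basis of the split octonions -/
def bas : Fin 8 → Oc F
  | 0 => ⟨1, 0, 0, 0, 0, 0, 0, 0⟩
  | 1 => ⟨0, 1, 0, 0, 0, 0, 0, 0⟩
  | 2 => ⟨0, 0, 1, 0, 0, 0, 0, 0⟩
  | 3 => ⟨0, 0, 0, 1, 0, 0, 0, 0⟩
  | 4 => ⟨0, 0, 0, 0, 1, 0, 0, 0⟩
  | 5 => ⟨0, 0, 0, 0, 0, 1, 0, 0⟩
  | 6 => ⟨0, 0, 0, 0, 0, 0, 1, 0⟩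
  | 7 => ⟨0, 0, 0, 0, 0, 0, 0, 1⟩

/-- the multilinear monomials in `x_0, ..., x_(n-1)` -/
def Mon (F : Type*) [Field F] (n : ℕ) : Set (FA F) :=
  {f | ∃ w : FreeMagma ℕ, lets id w = Multiset.range n ∧ mo F w = f}

/-- the integral combinations of the multilinear monomials in `x_0, ..., x_(n-1)` which vanish on the standard basis -/
def SS0 (F : Type*) [Field F] (n : ℕ) : Set (FA F) :=
  {g | g ∈ AddSubgroup.closure (Mon F n) ∧ ∀ v : ℕ → Fin 8, lift F (fun i => bas (F := F) (v i)) g = 0}

/-- those of degree at most `d` -/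
def SSd (F : Type*) [Field F] (d : ℕ) : Set (FA F) := {g | ∃ n ≤ d, g ∈ SS0 F n}

end Pool.Agent.OB
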