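import Pool.Agent.OB.PiW

/-!
# The induction step  (module Fin)

`fin_form`: by `dec` (`ρ = π`) there is `g ∈ LP F V` with `ev g = ev p = 0`, `π g = π p`. Apply `LR_gen` to the
homomorphism `a ↦ (ev a, π a)` to `Fn F × R` (`Sat.prod`) and `g`.

`Phi_insert`: `z ∈ V`, `z ∉ Z`. For `y ≠ z`: `sb (xz (insert z Z)) (l y) = sb (xz Z) (l y) - 1/2 t_z * m y`,
`m y = sb (Function.update (xz Z) z 1) (l y) ∈ LF ((V.erase y).erase z)` (`sbX_insert`, `sbX1_LF`) and
`al {y} (xz Z y) (t_z * m y) = al {z} t_z (xz Z y * m y)` (`act3`; for `ar`: `al {z} t_z (m y * xz Z y)`). For `y = z`: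
`xz (insert z Z) z = x0 z = xz Z z - 1/2 t_z`, `sb (xz (insert z Z)) (l z) = sb (xz Z) (l z)` (`sb_congr`, `l z` does not depend
on `z`), and `ar {z} t_z = al {z} t_z` (`sc`). So `Phi (insert z Z) = Phi Z - 1/2 al {z} t_z (..)` where `(..)` is
`sb (Function.update (xz Z) z 1)` of `∑ XX y * l y + l' y * XX y = 0`.

`step`: `Phi ∅ = ∑ π y * β (l y) + β (l' y) * π y = π (..)` (`hon`), and for `Z = V.toFinset`:
`Phi = ∑ mu {y} (V.erase y) (evw y) (evw (q y)) + .. = PiW (∑ y * q y + q' y * y) = 0` (`RL`, `LL`, `PiW_mul`, `PiW_zero`;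
`evw (..) = sb x0 (ev (..)) = 0`; `sb0_LF`).
-/

set_option autoImplicit false
set_option linter.unusedSectionVars false

namespace Pool.Agent.OB

open FreeNonUnitalNonAssocAlgebra Pool.Agent.H.MP_41922c_al Pool.Agent.Smt

variable {F : Type*} [Field F] {R : Type*} [NonUnitalNonAssocRing R] [Module F R]
  [IsScalarTower F R R] [SMulCommClass F R R]
variable {π : FA F →ₙₐ[F] R} {V : Multiset ℕ} {β : Multiset ℕ → Fn F →ₗ[F] R}
  {al ar : Multiset ℕ → Fn F →ₗ[F] Fn F →ₗ[F] R}

/-- the sum of products of a family -/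
noncomputable def Fin_s (V : Multiset ℕ) (q q' : ℕ → FA F) : FA F :=
  ∑ y ∈ V.toFinset, (of F y * q y + q' y * of F y)

theorem Fin_s_add (V : Multiset ℕ) (q q' r r' : ℕ → FA F) :
    Fin_s V (fun y => q y + r y) (fun y => q' y + r' y) = Fin_s V q q' + Fin_s V r r' := by
  unfold Fin_s
  rw [← Finset.sum_add_distrib]
  refine Finset.sum_congr rfl fun y _ => ?_
  rw [mul_add, add_mul]
  abel

theorem Fin_s_smul (V : Multiset ℕ) (c : F) (q q' : ℕ → FA F) :
    Fin_s V (fun y => c • q y) (fun y => c • q' y) = c • Fin_s V q q' := by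
  unfold Fin_s
  rw [Finset.smul_sum]
  refine Finset.sum_congr rfl fun y _ => ?_
  rw [mul_smul_comm, smul_mul_assoc, smul_add]

/-- elements of `MR` are the images of the sums of products -/
theorem Fin_MR {A : Type*} [NonUnitalNonAssocRing A] [Module F A] [IsScalarTower F A A]
    [SMulCommClass F A A] (ρ : FA F →ₙₐ[F] A) (V : Multiset ℕ) {r : A} (hr : r ∈ MR ρ V) :
    ∃ q q' : ℕ → FA F, (∀ y ∈ V, q y ∈ LP F (V.erase y) ∧ q' y ∈ LP F (V.erase y)) ∧
      r = ρ (Fin_s V q q') := by
  classical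
  unfold MR at hr
  induction hr using Submodule.span_induction with
  | mem r hr =>
    obtain ⟨y, hy, l, hl, hr⟩ := hr
    obtain ⟨f, hf, rfl⟩ := Submodule.mem_map.1 hl
    have hyf : y ∈ V.toFinset := Multiset.mem_toFinset.2 hy
    have hmem : ∀ z ∈ V, (if z = y then f else 0 : FA F) ∈ LP F (V.erase z) := by
      intro z _
      by_cases hz : z = y
      · subst hz
        rw [if_pos rfl]
        exact hf
      · rw [if_neg hz]
        exact Submodule.zero_mem _
    rcases hr with hr | hr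
    · refine ⟨fun z => if z = y then f else 0, fun _ => 0,
        fun z hz => ⟨hmem z hz, Submodule.zero_mem _⟩, ?_⟩
      have h1 : Fin_s V (fun z => if z = y then f else 0) (fun _ => 0) = of F y * f := by
        unfold Fin_s
        beta_reduce
        rw [Finset.sum_eq_single y]
        · rw [if_pos rfl, zero_mul, add_zero]
        · intro z _ hz
          rw [if_neg hz, mul_zero, zero_mul, add_zero]
        · intro h
          exact absurd hyf h
      rw [h1, map_mul]
      exact hr.symm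
    · refine ⟨fun _ => 0, fun z => if z = y then f else 0,
        fun z hz => ⟨Submodule.zero_mem _, hmem z hz⟩, ?_⟩
      have h1 : Fin_s V (fun _ => 0) (fun z => if z = y then f else 0) = f * of F y := by
        unfold Fin_s
        beta_reduce
        rw [Finset.sum_eq_single y]
        · rw [if_pos rfl, mul_zero, zero_add]
        · intro z _ hz
          rw [if_neg hz, mul_zero, zero_mul, add_zero]
        · intro h
          exact absurd hyf h
      rw [h1, map_mul]
      exact hr.symm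
  | zero =>
    refine ⟨fun _ => 0, fun _ => 0, fun z _ => ⟨Submodule.zero_mem _, Submodule.zero_mem _⟩, ?_⟩
    have h1 : Fin_s V (fun _ => (0 : FA F)) (fun _ => 0) = 0 := by
      unfold Fin_s
      refine Finset.sum_eq_zero fun z _ => ?_
      rw [mul_zero, zero_mul, add_zero]
    rw [h1, map_zero]
  | add a b _ _ ha hb =>
    obtain ⟨q, q', hq, rfl⟩ := ha
    obtain ⟨r, r', hr, rfl⟩ := hb
    refine ⟨fun y => q y + r y, fun y => q' y + r' y, fun y hy =>
      ⟨Submodule.add_mem _ (hq y hy).1 (hr y hy).1,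
        Submodule.add_mem _ (hq y hy).2 (hr y hy).2⟩, ?_⟩
    rw [Fin_s_add, map_add]
  | smul c a _ ha =>
    obtain ⟨q, q', hq, rfl⟩ := ha
    refine ⟨fun y => c • q y, fun y => c • q' y, fun y hy =>
      ⟨Submodule.smul_mem _ _ (hq y hy).1, Submodule.smul_mem _ _ (hq y hy).2⟩, ?_⟩
    rw [Fin_s_smul, map_smul]

theorem fin_form (h : Ctx π V) {p : FA F} (hp : p ∈ P F V) (hid : Id F p) :
    ∃ q q' : ℕ → FA F, (∀ y ∈ V, q y ∈ LP F (V.erase y) ∧ q' y ∈ LP F (V.erase y)) ∧
      π p = π (∑ y ∈ V.toFinset, (of F y * q y + q' y * of F y)) ∧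
      ev F (∑ y ∈ V.toFinset, (of F y * q y + q' y * of F y)) = 0 := by
  have h16 := h.card
  have hev : ev F p = 0 := (id_iff_ev p).1 hid
  obtain ⟨g, hg, e1, e2⟩ := dec π h.two h.three h.sat h.nodup (by omega) hp
    (by rw [hev]; exact Submodule.zero_mem _)
  have h1 : ((ev F).prod π) g ∈ MR ((ev F).prod π) V :=
    LR_gen ((ev F).prod π) h.two h.three (Sat.prod (sat_Fn 9) h.sat) (by omega)
      (Submodule.mem_map_of_mem (f := (((ev F).prod π : FA F →ₙₐ[F] (Fn F × R)) :
        FA F →ₗ[F] (Fn F × R))) hg)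
  obtain ⟨q, q', hq, e⟩ := Fin_MR ((ev F).prod π) V h1
  have e3 : ev F g = ev F (Fin_s V q q') := congrArg Prod.fst e
  have e4 : π g = π (Fin_s V q q') := congrArg Prod.snd e
  refine ⟨q, q', hq, ?_, ?_⟩
  · rw [e2]
    exact e4
  · rw [← hev, e1]
    exact e3.symm

/-- the value in the top degree, where the variables in `Z` are replaced by their traceless parts -/
noncomputable def Phi (V : Multiset ℕ) (al ar : Multiset ℕ → Fn F →ₗ[F] Fn F →ₗ[F] R)
    (l l' : ℕ → Fn F) (Z : Finset ℕ) : R :=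
  ∑ y ∈ V.toFinset, (al {y} (xz F Z y) (sb (xz F Z) (l y)) + ar {y} (xz F Z y) (sb (xz F Z) (l' y)))

theorem Phi_insert (h : Ctx π V) (hA : IsAct π V β al ar) {l l' : ℕ → Fn F}
    (hl : ∀ y ∈ V, l y ∈ LF F (V.erase y)) (hl' : ∀ y ∈ V, l' y ∈ LF F (V.erase y))
    (e : ∑ y ∈ V.toFinset, (XX F y * l y + l' y * XX F y) = 0) {z : ℕ} (hz : z ∈ V)
    {Z : Finset ℕ} (hZ : z ∉ Z) : Phi V al ar l l' (insert z Z) = Phi V al ar l l' Z := by
  have h2 := h.two
  have h3 := h.three
  -- the effect on one term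
  have key : ∀ y ∈ V,
      al {y} (xz F (insert z Z) y) (sb (xz F (insert z Z)) (l y)) +
        ar {y} (xz F (insert z Z) y) (sb (xz F (insert z Z)) (l' y)) =
      (al {y} (xz F Z y) (sb (xz F Z) (l y)) + ar {y} (xz F Z y) (sb (xz F Z) (l' y))) -
        (2 : F)⁻¹ • al {z} (tX F z) (sb (Function.update (xz F Z) z 1)
          (XX F y * l y + l' y * XX F y)) := by
    intro y hy
    have hn := h.nodup.erase y
    have hA' := WD1_LF_AF (hl y hy)
    have hA'' := WD1_LF_AF (hl' y hy)
    have hsum : sb (Function.update (xz F Z) z 1) (XX F y * l y + l' y * XX F y) =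
        Function.update (xz F Z) z 1 y * sb (Function.update (xz F Z) z 1) (l y) +
          sb (Function.update (xz F Z) z 1) (l' y) * Function.update (xz F Z) z 1 y := by
      rw [map_add, map_mul, map_mul, Real_sb_XX]
    rw [hsum, map_add, smul_add]
    by_cases hyz : y = z
    · subst hyz
      have hm : ∀ i ∈ V.erase y, i ≠ y := by
        rintro i hi rfl
        exact h.nodup.notMem_erase hi
      have c1 : ∀ f ∈ AF F (V.erase y), sb (xz F (insert y Z)) f = sb (xz F Z) f := by
        intro f hf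
        refine sb_congr hf fun i hi => ?_
        by_cases h4 : i ∈ Z
        · rw [Wre_xz_mem (Finset.mem_insert_of_mem h4), Wre_xz_mem h4]
        · rw [Wre_xz_notMem h4, Wre_xz_notMem (by
            rw [Finset.mem_insert]
            exact fun h5 => h5.elim (hm i hi) h4)]
      have c2 : ∀ f ∈ AF F (V.erase y), sb (Function.update (xz F Z) y 1) f = sb (xz F Z) f := by
        intro f hf
        refine sb_congr hf fun i hi => ?_
        rw [Function.update_of_ne (hm i hi)]
      have e1 : ({y} : Multiset ℕ) + V.erase y = V := by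
        rw [Multiset.singleton_add, Multiset.cons_erase hy]
      have hsc := hA.sc {y} (V.erase y) e1 (tX F y) (tX_mem_AF y) (isSc_tX y)
        (sb (xz F Z) (l' y)) (sbX_LF h2 h3 hn Z (hl' y hy))
      rw [c1 _ hA', c1 _ hA'', c2 _ hA', c2 _ hA'', Function.update_self, one_mul, mul_one,
        Wre_xz_mem (Finset.mem_insert_self y Z), Wre_xz_notMem hZ, x0_eq h2, map_sub, map_sub,
        LinearMap.sub_apply, LinearMap.sub_apply, map_smul, map_smul, LinearMap.smul_apply,
        LinearMap.smul_apply, ← hsc]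
      abel
    · have hze : z ∈ V.erase y := (Multiset.mem_erase_of_ne (Ne.symm hyz)).2 hz
      have c0 : xz F (insert z Z) y = xz F Z y := by
        by_cases h4 : y ∈ Z
        · rw [Wre_xz_mem (Finset.mem_insert_of_mem h4), Wre_xz_mem h4]
        · rw [Wre_xz_notMem h4, Wre_xz_notMem (by
            rw [Finset.mem_insert]
            exact fun h5 => h5.elim hyz h4)]
      have c1 : Function.update (xz F Z) z 1 y = xz F Z y := Function.update_of_ne hyz _ _
      have ha : xz F Z y ∈ AF F {y} := by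
        by_cases h4 : y ∈ Z
        · rw [Wre_xz_mem h4]
          exact x0_mem_AF y
        · rw [Wre_xz_notMem h4]
          exact Real_XX_mem_AF y
      have e1 : ({z} : Multiset ℕ) + {y} + (V.erase y).erase z = V := by
        rw [add_comm ({z} : Multiset ℕ) {y}, add_assoc, Multiset.singleton_add z,
          Multiset.cons_erase hze, Multiset.singleton_add, Multiset.cons_erase hy]
      have k1 := (act3 h hA e1 (tX_mem_AF z) (isSc_tX z) ha
        (sbX1_LF h2 h3 hn Z hze (hl y hy))).1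
      have k2 := (act3 h hA e1 (tX_mem_AF z) (isSc_tX z) ha
        (sbX1_LF h2 h3 hn Z hze (hl' y hy))).2
      rw [c0, c1, sbX_insert h2 hn hze hZ hA', sbX_insert h2 hn hze hZ hA'', map_sub, map_sub,
        map_smul, map_smul, k1, k2]
      abel
  have hz0 : ∑ y ∈ V.toFinset, (2 : F)⁻¹ • al {z} (tX F z)
      (sb (Function.update (xz F Z) z 1) (XX F y * l y + l' y * XX F y)) = 0 := by
    rw [← Finset.smul_sum, ← map_sum, ← map_sum, e, map_zero, map_zero, smul_zero]
  unfold Phi
  rw [Finset.sum_congr rfl fun y hy => key y (Multiset.mem_toFinset.1 hy),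
    Finset.sum_sub_distrib, hz0, sub_zero]

theorem Phi_eq (h : Ctx π V) (hA : IsAct π V β al ar) {l l' : ℕ → Fn F}
    (hl : ∀ y ∈ V, l y ∈ LF F (V.erase y)) (hl' : ∀ y ∈ V, l' y ∈ LF F (V.erase y))
    (e : ∑ y ∈ V.toFinset, (XX F y * l y + l' y * XX F y) = 0) (Z : Finset ℕ)
    (hZ : ∀ z ∈ Z, z ∈ V) : Phi V al ar l l' Z = Phi V al ar l l' ∅ := by
  classical
  induction Z using Finset.induction_on with
  | empty => rfl
  | insert z Z hz ih =>
    rw [Phi_insert h hA hl hl' e (hZ z (Finset.mem_insert_self z Z)) hz]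
    exact ih fun w hw => hZ w (Finset.mem_insert_of_mem hw)

/-- **The induction step.** -/
theorem step [Infinite F] (h : Ctx π V) (h10 : ((Nat.factorial 10 : ℕ) : F) ≠ 0) {p : FA F}
    (hp : p ∈ P F V) (hid : Id F p) : π p = 0 := by
  have h16 := h.card
  have h2 := h.two
  have h3 := h.three
  obtain ⟨q, q', hq, hpi, hev⟩ := fin_form h hp hid
  obtain ⟨β, hβ⟩ := exists_beta h
  obtain ⟨al, ar, hA⟩ := exists_act h h10 hβ
  obtain ⟨S, hS'⟩ := exists_S (F := F) h2
  have hS : IsS S := hS'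
  obtain ⟨Q, hQ⟩ := exists_Q h hA hS
  obtain ⟨mu, hM⟩ := exists_mu h hβ hA hS hQ
  have e1 : ∀ y ∈ V, ({y} : Multiset ℕ) + V.erase y = V := by
    intro y hy
    rw [Multiset.singleton_add, Multiset.cons_erase hy]
  have e2 : ∀ y ∈ V, V.erase y + ({y} : Multiset ℕ) = V := by
    intro y hy
    rw [add_comm, e1 y hy]
  have hl : ∀ y ∈ V, ev F (q y) ∈ LF F (V.erase y) := fun y hy => ⟨q y, (hq y hy).1, rfl⟩
  have hl' : ∀ y ∈ V, ev F (q' y) ∈ LF F (V.erase y) := fun y hy => ⟨q' y, (hq y hy).2, rfl⟩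
  have hqP : ∀ y ∈ V, q y ∈ P F (V.erase y) := fun y hy => LP_le _ (hq y hy).1
  have hqP' : ∀ y ∈ V, q' y ∈ P F (V.erase y) := fun y hy => LP_le _ (hq y hy).2
  have e : ∑ y ∈ V.toFinset, (XX F y * ev F (q y) + ev F (q' y) * XX F y) = 0 := by
    rw [← hev, map_sum]
    refine Finset.sum_congr rfl fun y _ => ?_
    rw [map_add, map_mul, map_mul, ev_of]
  -- the value for `Z = ∅`
  have hx : xz F ∅ = XX F := by
    funext i
    exact Wre_xz_notMem (Finset.notMem_empty i)
  have v0 : Phi V al ar (fun y => ev F (q y)) (fun y => ev F (q' y)) ∅ = π p := by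
    rw [hpi, map_sum]
    unfold Phi
    refine Finset.sum_congr rfl fun y hy => ?_
    have hy' := Multiset.mem_toFinset.1 hy
    have hc : (V.erase y).card < V.card := WD1_lt hy'
    have k1 := (hA.hon {y} (V.erase y) (e1 y hy') (of F y) (of_mem id y) _ (hl y hy')).1
    have k2 := (hA.hon {y} (V.erase y) (e1 y hy') (of F y) (of_mem id y) _ (hl' y hy')).2
    rw [ev_of] at k1 k2
    rw [hx, Real_sb_id, Real_sb_id, k1, k2, hβ _ (h.nodup.erase y) hc _ (hqP y hy'),
      hβ _ (h.nodup.erase y) hc _ (hqP' y hy'), map_add, map_mul, map_mul]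
  -- the value for `Z = V`
  have v1 : Phi V al ar (fun y => ev F (q y)) (fun y => ev F (q' y)) V.toFinset = 0 := by
    have h0 : evw F (∑ y ∈ V.toFinset, (of F y * q y + q' y * of F y)) = 0 := by
      rw [evw_eq, hev, map_zero]
    have h5 := PiW_zero h hA hS hQ hM (WD1_mem hqP hqP') h0
    rw [← h5, map_sum]
    unfold Phi
    refine Finset.sum_congr rfl fun y hy => ?_
    have hy' := Multiset.mem_toFinset.1 hy
    have hc : 6 ≤ (V.erase y).card := by
      rw [Multiset.card_erase_of_mem hy', Nat.pred_eq_sub_one]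
      omega
    have hsb : ∀ f ∈ LF F (V.erase y), sb (xz F V.toFinset) f = sb (x0 F) f := by
      intro f hf
      refine sb_congr (WD1_LF_AF hf) fun i hi => ?_
      exact Wre_xz_mem (Multiset.mem_toFinset.2 (Multiset.mem_of_mem_erase hi))
    have k1 := sb0_LF h2 h3 (h.nodup.erase y) (hl y hy')
    have k2 := sb0_LF h2 h3 (h.nodup.erase y) (hl' y hy')
    have m1 := hM.RL {y} (V.erase y) (e1 y hy') (x0 F y) (x0_mem y) _ k1.1 k1.2
    have m2 := hM.LL (V.erase y) {y} (e2 y hy') _ k2.1 k2.2 (x0 F y) (x0_mem y)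
    have p1 := PiW_mul (mu := mu) (e1 y hy') (of_mem (F := F) id y) (hqP y hy')
    have p2 := PiW_mul (mu := mu) (e2 y hy') (hqP' y hy') (of_mem (F := F) id y)
    have w1 : evw F (of F y) = x0 F y := Wre_of y
    rw [w1, evw_eq] at p1 p2
    rw [hsb _ (hl y hy'), hsb _ (hl' y hy'), Wre_xz_mem hy, ← m1, ← m2, map_add]
    exact congrArg₂ (· + ·) p1.symm p2.symm
  rw [← v0, ← Phi_eq h hA hl hl' e V.toFinset (fun z hz => Multiset.mem_toFinset.1 hz), v1]

end Pool.Agent.OB
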