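import Pool.Agent.OB.Shp

/-!
# The components of f(x + 1)  (module Shp2)

`f ∈ P V` multilinear, `ρ` a renaming, monotone on `V`, `g = ren ρ f`. `fk κ = ∑ ren ρ (eK K f)` over the subsets `K` of `V` with
`K.map ρ = κ` is the component of `g(x + 1)` of multidegree `V.map ρ - κ`. For all `v : ℕ → O` and `c : ℕ → F`:
`0 = g(v + c) = ∑_K (∏_(i ∈ K) c (ρ i)) • (ev f) (1 on K, v (ρ i) elsewhere) = ∑_κ (∏_(a ∈ κ) c a) • ev (fk κ) v` + a multiple of 1
(`K = V`). As `F` is infinite all coefficients of this polynomial in `c` are 0 (`poly_zero`, by `MvPolynomial.funext`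
applied to the 8 coordinates).
`ren_sharp`: group the terms of `ren ρ (sharp V f)` by `κ = K.map ρ`; `(sort K).map ρ = sort κ` as `ρ` is monotone on `V`.
-/

set_option autoImplicit false
set_option linter.unusedSectionVars false

namespace Pool.Agent.OB

open FreeNonUnitalNonAssocAlgebra Pool.Agent.H.MP_41922c_al Pool.Agent.Smt

variable {F : Type*} [Field F]

/-- one coordinate of `poly_zero` -/
theorem Shp2_coord [Infinite F] (S : Finset (Multiset ℕ)) (a : Multiset ℕ → F)
    (h : ∀ c : ℕ → F, ∑ κ ∈ S, (κ.map c).prod * a κ = 0) : ∀ κ ∈ S, a κ = 0 := by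
  classical
  intro κ hκ
  set p : MvPolynomial ℕ F := ∑ κ ∈ S, MvPolynomial.monomial (Multiset.toFinsupp κ) (a κ) with hp
  have h0 : p = 0 := by
    refine MvPolynomial.funext fun c => ?_
    rw [map_zero, hp, map_sum, ← h c]
    refine Finset.sum_congr rfl fun κ' _ => ?_
    rw [MvPolynomial.eval_monomial, mul_comm]
    congr 1
    rw [Finsupp.prod, Multiset.toFinsupp_support, Finset.prod_multiset_map_count]
    refine Finset.prod_congr rfl fun n _ => ?_
    rw [Multiset.toFinsupp_apply]
  have h1 : MvPolynomial.coeff (Multiset.toFinsupp κ) p = a κ := by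
    rw [hp, MvPolynomial.coeff_sum, Finset.sum_eq_single κ]
    · rw [MvPolynomial.coeff_monomial, if_pos rfl]
    · intro κ' _ hne
      rw [MvPolynomial.coeff_monomial, if_neg]
      intro he
      exact hne (Multiset.toFinsupp.injective he)
    · intro hn
      exact absurd hκ hn
  rw [← h1, h0, MvPolynomial.coeff_zero]

/-- the coordinates as linear maps -/
def Shp2_l (j : Fin 8) : Oc F →ₗ[F] F where
  toFun x := (![x.m₁, x.m₂, x.m₃, x.m₄, x.a₁, x.a₂, x.c₁, x.c₂] : Fin 8 → F) j
  map_add' x y := by fin_cases j <;> rfl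
  map_smul' c x := by fin_cases j <;> rfl

/-- a polynomial in `c` with coefficients in `O` which vanishes for all `c` is 0 -/
theorem poly_zero [Infinite F] (S : Finset (Multiset ℕ)) (a : Multiset ℕ → Oc F)
    (h : ∀ c : ℕ → F, ∑ κ ∈ S, (κ.map c).prod • a κ = 0) : ∀ κ ∈ S, a κ = 0 := by
  intro κ hκ
  have key : ∀ j : Fin 8, Shp2_l (F := F) j (a κ) = 0 := by
    intro j
    refine Shp2_coord S (fun κ => Shp2_l (F := F) j (a κ)) (fun c => ?_) κ hκ
    have h1 := congrArg (Shp2_l (F := F) j) (h c)
    rw [map_sum, map_zero] at h1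
    rw [← h1]
    refine Finset.sum_congr rfl fun κ' _ => ?_
    rw [map_smul, smul_eq_mul]
  exact Oc.ext (key 0) (key 1) (key 2) (key 3) (key 4) (key 5) (key 6) (key 7)

/-- the value of a word depends only on the values of its letters -/
theorem Shp2_congr (w : FreeMagma ℕ) {g g' : ℕ → Oc F} (h : ∀ i ∈ lets id w, g i = g' i) :
    ev F (mo F w) g = ev F (mo F w) g' := by
  induction w with
  | ih1 a =>
    have h1 : ev F (mo F (FreeMagma.of a)) = XX F a := ev_of a
    rw [h1]
    exact h a (Multiset.mem_singleton_self a)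
  | ih2 u v hu hv =>
    have h1 : ev F (mo F (u * v)) = ev F (mo F u) * ev F (mo F v) :=
      map_mul (ev F) (mo F u) (mo F v)
    have h2 : ∀ i, i ∈ lets id (u * v) ↔ i ∈ lets id u ∨ i ∈ lets id v := fun i =>
      Multiset.mem_add
    rw [h1, Pi.mul_apply, Pi.mul_apply, hu (fun i hi => h i ((h2 i).2 (Or.inl hi))),
      hv (fun i hi => h i ((h2 i).2 (Or.inr hi)))]

theorem Shp2_word (w : FreeMagma ℕ) (hw : (lets id w).Nodup) (v : ℕ → Oc F)
    (c : ℕ → F) : ev F (mo F w) (fun i => v i + c i • (1 : Oc F)) =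
      ∑ K ∈ (lets id w).toFinset.powerset, (∏ i ∈ K, c i) •
        ev F (mo F w) (fun i => if i ∈ K then 1 else v i) := by
  classical
  induction w with
  | ih1 a =>
    have h1 : ev F (mo F (FreeMagma.of a)) = XX F a := ev_of a
    have h2 : (lets id (FreeMagma.of a : FreeMagma ℕ)).toFinset = insert a ∅ := rfl
    rw [h1, h2, Finset.sum_powerset_insert (Finset.notMem_empty a), Finset.powerset_empty,
      Finset.sum_singleton, Finset.sum_singleton, Finset.prod_empty, one_smul,
      Finset.prod_insert (Finset.notMem_empty a), Finset.prod_empty, mul_one]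
    change v a + c a • (1 : Oc F) = (if a ∈ (∅ : Finset ℕ) then 1 else v a) +
      c a • (if a ∈ insert a (∅ : Finset ℕ) then 1 else v a)
    rw [if_neg (Finset.notMem_empty a), if_pos (Finset.mem_insert_self a ∅)]
  | ih2 u w hu hv =>
    have hl : lets id (u * w) = lets id u + lets id w := rfl
    rw [hl] at hw
    obtain ⟨hn1, hn2, hd⟩ := Multiset.nodup_add.1 hw
    have h1 : ev F (mo F (u * w)) = ev F (mo F u) * ev F (mo F w) :=
      map_mul (ev F) (mo F u) (mo F w)
    have hdis : Disjoint (lets id u).toFinset (lets id w).toFinset := by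
      rw [Finset.disjoint_left]
      intro i hi hi'
      exact Multiset.disjoint_left.1 hd (Multiset.mem_toFinset.1 hi) (Multiset.mem_toFinset.1 hi')
    rw [h1, Pi.mul_apply, hu hn1, hv hn2, Finset.sum_mul_sum, ← Finset.sum_product', hl,
      Multiset.toFinset_add]
    refine Finset.sum_nbij' (fun p => p.1 ∪ p.2)
      (fun K => (K ∩ (lets id u).toFinset, K ∩ (lets id w).toFinset)) ?_ ?_ ?_ ?_ ?_
    · rintro ⟨A, B⟩ hp
      rw [Finset.mem_product, Finset.mem_powerset, Finset.mem_powerset] at hp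
      rw [Finset.mem_powerset]
      exact Finset.union_subset_union hp.1 hp.2
    · intro K hK
      rw [Finset.mem_product, Finset.mem_powerset, Finset.mem_powerset]
      exact ⟨Finset.inter_subset_right, Finset.inter_subset_right⟩
    · rintro ⟨A, B⟩ hp
      rw [Finset.mem_product, Finset.mem_powerset, Finset.mem_powerset] at hp
      obtain ⟨hA, hB⟩ := hp
      have e1 : B ∩ (lets id u).toFinset = ∅ := by
        rw [← Finset.disjoint_iff_inter_eq_empty]
        exact (Finset.disjoint_of_subset_right hB hdis).symm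
      have e2 : A ∩ (lets id w).toFinset = ∅ := by
        rw [← Finset.disjoint_iff_inter_eq_empty]
        exact Finset.disjoint_of_subset_left hA hdis
      change ((A ∪ B) ∩ (lets id u).toFinset, (A ∪ B) ∩ (lets id w).toFinset) = (A, B)
      rw [Finset.union_inter_distrib_right, Finset.union_inter_distrib_right, e1, e2,
        Finset.union_empty, Finset.empty_union, Finset.inter_eq_left.2 hA,
        Finset.inter_eq_left.2 hB]
    · intro K hK
      rw [Finset.mem_powerset] at hK
      change K ∩ (lets id u).toFinset ∪ K ∩ (lets id w).toFinset = K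
      rw [← Finset.inter_union_distrib_left, Finset.inter_eq_left.2 hK]
    · rintro ⟨A, B⟩ hp
      rw [Finset.mem_product, Finset.mem_powerset, Finset.mem_powerset] at hp
      obtain ⟨hA, hB⟩ := hp
      have hAB : Disjoint A B := Finset.disjoint_of_subset_left hA
        (Finset.disjoint_of_subset_right hB hdis)
      change ((∏ i ∈ A, c i) • ev F (mo F u) (fun i => if i ∈ A then 1 else v i)) *
          ((∏ i ∈ B, c i) • ev F (mo F w) (fun i => if i ∈ B then 1 else v i)) =
        (∏ i ∈ A ∪ B, c i) • (ev F (mo F u) (fun i => if i ∈ A ∪ B then 1 else v i) *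
          ev F (mo F w) (fun i => if i ∈ A ∪ B then 1 else v i))
      have e1 : ev F (mo F u) (fun i => if i ∈ A ∪ B then 1 else v i) =
          ev F (mo F u) (fun i => if i ∈ A then 1 else v i) := by
        refine Shp2_congr u fun i hi => ?_
        have hiB : i ∉ B := fun h => Finset.disjoint_left.1 hdis (Multiset.mem_toFinset.2 hi) (hB h)
        have : (i ∈ A ∪ B) ↔ i ∈ A := by
          rw [Finset.mem_union]; exact ⟨fun h => h.resolve_right hiB, Or.inl⟩
        simp only [this]
      have e2 : ev F (mo F w) (fun i => if i ∈ A ∪ B then 1 else v i) =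
          ev F (mo F w) (fun i => if i ∈ B then 1 else v i) := by
        refine Shp2_congr w fun i hi => ?_
        have hiA : i ∉ A := fun h => Finset.disjoint_left.1 hdis (hA h) (Multiset.mem_toFinset.2 hi)
        have : (i ∈ A ∪ B) ↔ i ∈ B := by
          rw [Finset.mem_union]; exact ⟨fun h => h.resolve_left hiA, Or.inr⟩
        simp only [this]
      rw [e1, e2, Finset.prod_union hAB, smul_mul_assoc, mul_smul_comm, smul_smul]

/-- expansion of a multilinear polynomial at `v + c` -/
theorem ev_add_c {V : Multiset ℕ} (hV : V.Nodup) {f : FA F} (hf : f ∈ P F V) (v : ℕ → Oc F)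
    (c : ℕ → F) : ev F f (fun i => v i + c i • (1 : Oc F)) =
      ∑ K ∈ V.toFinset.powerset, (∏ i ∈ K, c i) • ev F f (fun i => if i ∈ K then 1 else v i) := by
  refine PP_induction id (p := fun f => ev F f (fun i => v i + c i • (1 : Oc F)) =
      ∑ K ∈ V.toFinset.powerset, (∏ i ∈ K, c i) •
        ev F f (fun i => if i ∈ K then 1 else v i)) ?_ ?_ ?_ ?_ hf
  · rw [map_zero, Pi.zero_apply]
    symm
    exact Finset.sum_eq_zero fun K _ => by rw [Pi.zero_apply, smul_zero]
  · intro f g hf hg
    rw [map_add, Pi.add_apply, hf, hg, ← Finset.sum_add_distrib]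
    exact Finset.sum_congr rfl fun K _ => by rw [Pi.add_apply, smul_add]
  · intro k f hf
    rw [map_smul, Pi.smul_apply, hf, Finset.smul_sum]
    exact Finset.sum_congr rfl fun K _ => by rw [Pi.smul_apply, smul_comm]
  · rintro w rfl
    exact Shp2_word w hV v c

/-- the component of `(ren ρ f)(x + 1)` of multidegree `V.map ρ - κ` -/
noncomputable def fk (V : Multiset ℕ) (ρ : ℕ → ℕ) (f : FA F) (κ : Multiset ℕ) : FA F :=
  ∑ K ∈ V.toFinset.powerset with K.val.map ρ = κ, ren F ρ (eK F K f)

theorem fk_zero {V : Multiset ℕ} {ρ : ℕ → ℕ} {f : FA F} : fk V ρ f 0 = ren F ρ f := by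
  unfold fk
  have h : (V.toFinset.powerset.filter fun K => K.val.map ρ = 0) = {∅} := by
    ext K
    rw [Finset.mem_filter, Finset.mem_singleton, Finset.mem_powerset, Multiset.map_eq_zero,
      Finset.val_eq_zero]
    constructor
    · exact fun h => h.2
    · rintro rfl
      exact ⟨Finset.empty_subset _, rfl⟩
  rw [h, Finset.sum_singleton, eK_empty]

theorem Shp2_le {V : Multiset ℕ} {K : Finset ℕ} (hK : K ∈ V.toFinset.powerset) :
    K.val ≤ V := by
  rw [Finset.mem_powerset] at hK
  have h2 : K.val ≤ V.toFinset.val := Finset.val_le_iff.2 hK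
  exact h2.trans (by rw [Multiset.toFinset_val]; exact Multiset.dedup_le V)

theorem fk_mem {V : Multiset ℕ} (hV : V.Nodup) {ρ : ℕ → ℕ} {f : FA F} (hf : f ∈ P F V)
    (κ : Multiset ℕ) : fk V ρ f κ ∈ P F (V.map ρ - κ) := by
  unfold fk
  refine Submodule.sum_mem _ fun K hK => ?_
  rw [Finset.mem_filter] at hK
  obtain ⟨hK, he⟩ := hK
  have hle : K.val ≤ V := Shp2_le hK
  have h1 := ren_mem (ρ := ρ) (eK_mem hV hle hf)
  have h2 : (V - K.val).map ρ = V.map ρ - κ := by
    have h3 : V.map ρ = K.val.map ρ + (V - K.val).map ρ := by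
      rw [← Multiset.map_add, add_tsub_cancel_of_le hle]
    rw [h3, ← he, add_tsub_cancel_left]
  rw [h2] at h1
  exact h1

theorem fk_Id [Infinite F] {V : Multiset ℕ} (hV : V.Nodup) {ρ : ℕ → ℕ} {f : FA F}
    (hf : f ∈ P F V) (h : Id F (ren F ρ f)) {κ : Multiset ℕ} (hκ : κ ≠ V.map ρ) :
    Id F (fk V ρ f κ) := by
  classical
  rw [id_iff_ev] at h ⊢
  funext v
  rw [Pi.zero_apply]
  have hval : V.toFinset.val = V := by
    rw [Multiset.toFinset_val]; exact Multiset.dedup_eq_self.2 hV
  set a : Multiset ℕ → Oc F := fun κ => ∑ K ∈ V.toFinset.powerset with K.val.map ρ = κ,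
    ev F f (fun i => if i ∈ K then 1 else v (ρ i)) with ha
  have hkey : ∀ κ ∈ V.toFinset.powerset.image (fun K => K.val.map ρ), a κ = 0 := by
    refine poly_zero _ a fun c => ?_
    have h1 : ev F (ren F ρ f) (fun j => v j + c j • (1 : Oc F)) = 0 := by
      rw [h]; rfl
    rw [ev_ren, sb_apply] at h1
    have h2 : ev F f (fun i => v (ρ i) + c (ρ i) • (1 : Oc F)) = 0 := h1
    rw [ev_add_c hV hf (fun i => v (ρ i)) (fun i => c (ρ i))] at h2
    rw [← h2]
    rw [← Finset.sum_fiberwise_of_maps_to
      (s := V.toFinset.powerset) (t := V.toFinset.powerset.image (fun K => K.val.map ρ))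
      (g := fun K => K.val.map ρ) (fun K hK => Finset.mem_image_of_mem _ hK)]
    refine Finset.sum_congr rfl fun κ' _ => ?_
    rw [ha, Finset.smul_sum]
    refine Finset.sum_congr rfl fun K hK => ?_
    rw [Finset.mem_filter] at hK
    rw [← hK.2, Multiset.map_map]
    rfl
  have h3 : ev F (fk V ρ f κ) v = a κ := by
    rw [ha]
    unfold fk
    rw [map_sum, Finset.sum_apply]
    refine Finset.sum_congr rfl fun K hK => ?_
    rw [Finset.mem_filter] at hK
    obtain ⟨hK, he⟩ := hK
    have hne : K.val ≠ V := by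
      intro h'
      exact hκ (by rw [← he, h'])
    rw [ev_ren, ev_eK hV (Shp2_le hK) hne hf, sb_apply, sb_apply]
    refine congrArg (ev F f) (funext fun i => ?_)
    by_cases hi : i ∈ K
    · rw [if_pos hi, if_pos hi]; rfl
    · rw [if_neg hi, if_neg hi]; rfl
  rw [h3]
  by_cases hmem : κ ∈ V.toFinset.powerset.image (fun K => K.val.map ρ)
  · exact hkey κ hmem
  · rw [ha]
    refine Finset.sum_eq_zero fun K hK => ?_
    rw [Finset.mem_filter] at hK
    exact absurd (Finset.mem_image.2 ⟨K, hK.1, hK.2⟩) hmem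

theorem Shp2_lamK_zero (L : List ℕ) : lamK F L 0 = 0 := by
  have h := lamK_smul (F := F) L 0 0
  rwa [smul_zero, zero_smul] at h

theorem Shp2_lamK_sum {ι : Type*} (L : List ℕ) (S : Finset ι) (g : ι → FA F) :
    lamK F L (∑ i ∈ S, g i) = ∑ i ∈ S, lamK F L (g i) := by
  classical
  induction S using Finset.induction_on with
  | empty => rw [Finset.sum_empty, Finset.sum_empty, Shp2_lamK_zero]
  | insert i S hi ih => rw [Finset.sum_insert hi, Finset.sum_insert hi, lamK_add, ih]

/-- a monotone map commutes with sorting -/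
theorem Shp2_sort {ρ : ℕ → ℕ} {m : Multiset ℕ} (hm : ∀ i ∈ m, ∀ j ∈ m, i ≤ j → ρ i ≤ ρ j) :
    (m.sort (· ≤ ·)).map ρ = (m.map ρ).sort (· ≤ ·) := by
  have h1 : ((m.sort (· ≤ ·)).map ρ).Pairwise (· ≤ ·) := by
    rw [List.pairwise_map]
    refine List.Pairwise.imp_of_mem ?_ (Multiset.pairwise_sort m (· ≤ ·))
    intro a b ha hb hab
    exact hm a ((Multiset.mem_sort _).1 ha) b ((Multiset.mem_sort _).1 hb) hab
  refine List.Perm.eq_of_pairwise' h1 (Multiset.pairwise_sort _ _) ?_
  rw [← Multiset.coe_eq_coe, Multiset.sort_eq, ← Multiset.map_coe, Multiset.sort_eq]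

theorem ren_sharp {V : Multiset ℕ} (hV : V.Nodup) {ρ : ℕ → ℕ}
    (hm : ∀ i ∈ V, ∀ j ∈ V, i ≤ j → ρ i ≤ ρ j) {f : FA F} (hf : f ∈ P F V) :
    ren F ρ (sharp V f) = ∑ κ ∈ (V.toFinset.powerset.image (fun K => K.val.map ρ)).erase (V.map ρ),
      ((-1 : F) ^ κ.card) • lamK F (κ.sort (· ≤ ·)) (fk V ρ f κ) := by
  classical
  have hval : V.toFinset.val = V := by
    rw [Multiset.toFinset_val]; exact Multiset.dedup_eq_self.2 hV
  have hK' : ∀ K ∈ V.toFinset.powerset, (K.val.map ρ = V.map ρ ↔ K = V.toFinset) := by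
    intro K hK
    constructor
    · intro he
      have h1 := congrArg Multiset.card he
      rw [Multiset.card_map, Multiset.card_map] at h1
      refine Finset.eq_of_subset_of_card_le (Finset.mem_powerset.1 hK) ?_
      have h2 : V.toFinset.card = V.card := Multiset.toFinset_card_of_nodup hV
      rw [h2, ← h1]
      rfl
    · rintro rfl
      rw [hval]
  unfold sharp
  rw [map_sum, ← Finset.sum_fiberwise_of_maps_to
      (s := V.toFinset.powerset.erase V.toFinset)
      (t := (V.toFinset.powerset.image (fun K => K.val.map ρ)).erase (V.map ρ))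
      (g := fun K => K.val.map ρ) (fun K hK => by
        rw [Finset.mem_erase] at hK ⊢
        exact ⟨fun h => hK.1 ((hK' K hK.2).1 h), Finset.mem_image_of_mem _ hK.2⟩)]
  refine Finset.sum_congr rfl fun κ hκ => ?_
  rw [Finset.mem_erase] at hκ
  unfold fk
  rw [Shp2_lamK_sum, Finset.smul_sum]
  have hset : ((V.toFinset.powerset.erase V.toFinset).filter fun K => K.val.map ρ = κ) =
      V.toFinset.powerset.filter fun K => K.val.map ρ = κ := by
    ext K
    rw [Finset.mem_filter, Finset.mem_filter, Finset.mem_erase]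
    constructor
    · rintro ⟨⟨_, h1⟩, h2⟩
      exact ⟨h1, h2⟩
    · rintro ⟨h1, h2⟩
      refine ⟨⟨?_, h1⟩, h2⟩
      intro h3
      exact hκ.1 (by rw [← h2]; exact (hK' K h1).2 h3)
  rw [hset]
  refine Finset.sum_congr rfl fun K hK => ?_
  rw [Finset.mem_filter] at hK
  obtain ⟨hK, he⟩ := hK
  have hsort : (K.sort (· ≤ ·)).map ρ = κ.sort (· ≤ ·) := by
    rw [← he]
    exact Shp2_sort (m := K.val) fun i hi j hj hij =>
      hm i (Multiset.mem_of_le (Shp2_le hK) hi) j (Multiset.mem_of_le (Shp2_le hK) hj) hij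
  have hcard : K.card = κ.card := by
    rw [← he, Multiset.card_map]
    rfl
  rw [map_smul, ren_lamK, hsort, hcard]

end Pool.Agent.OB
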