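import Pool.Agent.OB.SwapW
import Pool.Agent.OB.Shp2
import Pool.Agent.OB.Hom

/-!
# Multilinear identities imply all identities, p > 3  (module One)

`one_hom`: strong induction on `n = m.card`. `n ≤ 3`: `small`. `n ≥ 4`: let `V = {0, .., n - 1}` (`Multiset.range n`) and
`ρ i = (m.sort (· ≤ ·)).getD i 0`, monotone on `V`, `V.map ρ = m`. Lift `f` to `f₁ ∈ P V` (`lift_poly`). The sum of the
coefficients of `f₁` is 0 (`ev f₁ (fun _ => 1) = ev f (fun _ => 1) = 0`). Let `h = sharp V f₁`, `g = ren ρ h`. By `ren_sharp`,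
`g = f + ∑ ± lamK (..) (fk κ)` over `κ ≠ 0, m`; `fk κ` is an identity (`fk_Id`) of smaller degree (`fk_mem`), so it is 0 in `R`
under every homomorphism, and `g` is an identity (`κ = 0` and the others). So `φ g = φ f` and `evw g = 0`. By `lift_W` there is
`g₂ ∈ P V` with `ren ρ g₂ = g`, `evw g₂ = 0`. `d = h - g₂`: `ren ρ d = 0`, `evw d = evw h = ev h` (`sharp_evw`). `swapW`: `φ (ren ρ h) = 0`.
`one`: `exists_comp`, `Id_comp`.
-/

set_option autoImplicit false
set_option linter.unusedSectionVars false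

namespace Pool.Agent.OB

open FreeNonUnitalNonAssocAlgebra Pool.Agent.H.MP_41922c_al Pool.Agent.Smt

variable {F : Type*} [Field F] [Infinite F] {R : Type*} [NonUnitalNonAssocRing R] [Module F R]
  [IsScalarTower F R R] [SMulCommClass F R R]

theorem One_lamK {A : Type*} [NonUnitalNonAssocRing A] [Module F A] [IsScalarTower F A A]
    [SMulCommClass F A A] (φ : FA F →ₙₐ[F] A) {f : FA F} (h : φ f = 0) (L : List ℕ) :
    φ (lamK F L f) = 0 := by
  induction L with
  | nil => exact h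
  | cons i L ih =>
    change φ (of F i * lamK F L f) = 0
    rw [map_mul, ih, mul_zero]

/-- the value of the proper part under a homomorphism that kills all lower components -/
theorem One_sum {A : Type*} [NonUnitalNonAssocRing A] [Module F A] [IsScalarTower F A A]
    [SMulCommClass F A A] (φ : FA F →ₙₐ[F] A) {V : Multiset ℕ} (hV : V.Nodup) (hV0 : V ≠ 0)
    {ρ : ℕ → ℕ} (hm : ∀ i ∈ V, ∀ j ∈ V, i ≤ j → ρ i ≤ ρ j) {f : FA F} (hf : f ∈ P F V)
    (h : ∀ κ : Multiset ℕ, κ ≤ V.map ρ → κ ≠ 0 → κ ≠ V.map ρ → φ (fk V ρ f κ) = 0) :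
    φ (ren F ρ (sharp V f)) = φ (ren F ρ f) := by
  rw [ren_sharp hV hm hf, map_sum]
  rw [Finset.sum_eq_single (0 : Multiset ℕ)]
  · rw [fk_zero, Multiset.card_zero, pow_zero, one_smul, Multiset.sort_zero]
    rfl
  · intro κ hκ h0
    rw [Finset.mem_erase, Finset.mem_image] at hκ
    obtain ⟨h1, K, hK, hKκ⟩ := hκ
    rw [map_smul, One_lamK φ (h κ ?_ h0 h1), smul_zero]
    rw [← hKκ]
    apply Multiset.map_le_map
    rw [Finset.mem_powerset] at hK
    have h2 : K.val ≤ V.toFinset.val := Finset.val_le_iff.2 hK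
    rw [Multiset.toFinset_val, Multiset.dedup_eq_self.2 hV] at h2
    exact h2
  · intro h0
    exfalso
    apply h0
    rw [Finset.mem_erase, Finset.mem_image]
    refine ⟨?_, ∅, Finset.empty_mem_powerset _, rfl⟩
    intro h1
    exact hV0 (Multiset.map_eq_zero.1 h1.symm)

theorem One_map_range (L : List ℕ) :
    (List.range L.length).map (fun i => L.getD i 0) = L := by
  apply List.ext_getElem
  · rw [List.length_map, List.length_range]
  · intro i h1 h2
    rw [List.getElem_map, List.getElem_range, List.getD_eq_getElem _ _ h2]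

/-- a multiset is the image of a set without repetitions under a monotone renaming -/
theorem One_ren (m : Multiset ℕ) : ∃ (V : Multiset ℕ) (ρ : ℕ → ℕ), V.Nodup ∧ V.map ρ = m ∧
    ∀ i ∈ V, ∀ j ∈ V, i ≤ j → ρ i ≤ ρ j := by
  obtain ⟨L, hL⟩ : ∃ L, L = m.sort (· ≤ ·) := ⟨_, rfl⟩
  have hLm : (L : Multiset ℕ) = m := by
    rw [hL]
    exact Multiset.sort_eq _ _
  have hs : L.Pairwise (· ≤ ·) := by
    rw [hL]
    exact Multiset.pairwise_sort _ _
  refine ⟨Multiset.range L.length, fun i => L.getD i 0, Multiset.nodup_range _, ?_, ?_⟩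
  · rw [← hLm]
    change (((List.range L.length).map (fun i => L.getD i 0) : List ℕ) : Multiset ℕ) = L
    rw [One_map_range]
  · intro i hi j hj hij
    rw [Multiset.mem_range] at hi hj
    beta_reduce
    rw [List.getD_eq_getElem _ _ hi, List.getD_eq_getElem _ _ hj]
    rcases hij.lt_or_eq with h | h
    · exact List.pairwise_iff_getElem.1 hs i j hi hj h
    · subst h
      exact le_rfl

theorem one_hom (h2 : (2 : F) ≠ 0) (h3 : (3 : F) ≠ 0) (hR : ∀ d, Sat F d R) {m : Multiset ℕ}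
    {f : FA F} (hf : f ∈ P F m) (hid : Id F f) : IsIdentity F R f := by
  obtain ⟨n, hn⟩ : ∃ n, n = m.card := ⟨_, rfl⟩
  induction n using Nat.strong_induction_on generalizing m f with
  | _ n ih =>
    by_cases h4 : m.card ≤ 3
    · exact small h2 h3 hR h4 hf hid
    obtain ⟨V, ρ, hV, hVm, hm⟩ := One_ren m
    have hcard : V.card = m.card := by rw [← hVm, Multiset.card_map]
    have hV4 : 4 ≤ V.card := by omega
    have hV0 : V ≠ 0 := by
      rintro rfl
      simp at hV4
    rw [← hVm] at hf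
    obtain ⟨f₁, hf₁, hff⟩ := lift_poly hf
    have hc : ev F f₁ (fun _ => 1) = 0 := by
      have e1 : ev F f = 0 := (id_iff_ev f).1 hid
      rw [← hff, ev_ren] at e1
      exact congrFun e1 (fun _ => 1)
    have hidr : Id F (ren F ρ f₁) := by
      rw [hff]
      exact hid
    have key : ∀ κ : Multiset ℕ, κ ≤ V.map ρ → κ ≠ 0 → κ ≠ V.map ρ →
        IsIdentity F R (fk V ρ f₁ κ) := by
      intro κ hκ h0 h1
      refine ih (V.map ρ - κ).card ?_ (fk_mem hV hf₁ κ) (fk_Id hV hf₁ hidr h1) rfl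
      rw [Multiset.card_sub hκ, Multiset.card_map, hn, ← hcard]
      have h5 : 0 < κ.card := Multiset.card_pos.2 h0
      omega
    have hgid : Id F (ren F ρ (sharp V f₁)) := by
      intro φ
      rw [One_sum φ hV hV0 hm hf₁ (fun κ _ _ h1 => fk_Id hV hf₁ hidr h1 φ)]
      exact hidr φ
    have hg0 : evw F (ren F ρ (sharp V f₁)) = 0 := by
      rw [evw_eq, (id_iff_ev _).1 hgid, map_zero]
    have hh : sharp V f₁ ∈ P F V := sharp_mem hV hf₁
    obtain ⟨g₂, hg₂, e2, e3⟩ := lift_W h2 (ren_mem hh) hg0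
    intro φ
    have e4 : φ (ren F ρ (sharp V f₁)) = 0 := by
      refine swapW h2 h3 hR φ hV hV4 (d := sharp V f₁ - g₂) (Submodule.sub_mem _ hh hg₂) ?_ hh ?_
      · rw [map_sub, e2, sub_self]
      · rw [map_sub, e3, sub_zero]
        exact sharp_evw h2 hV hf₁ hc
    rw [← hff, ← One_sum φ hV hV0 hm hf₁ (fun κ h0 h1 h5 => key κ h0 h1 h5 φ), e4]

/-- **Theorem 1.** -/
theorem one (h2 : (2 : F) ≠ 0) (h3 : (3 : F) ≠ 0) (hR : ∀ d, Sat F d R) {f : FA F}
    (hid : Id F f) : IsIdentity F R f := by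
  intro φ
  obtain ⟨S, hS, -⟩ := exists_comp id f
  rw [hS, map_sum]
  exact Finset.sum_eq_zero fun m _ =>
    one_hom h2 h3 hR (comp_mem id m f) (Id_comp hid m) φ

end Pool.Agent.OB
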