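import Pool.Agent.OB.Kill
import Pool.Agent.Smt.Class

/-!
# All octonion algebras have the same identities  (module Xfer)

`→`: `main_tfae_ord` gives `unst F f ∈ starTIdeal F (SS F)`; `Oc F` with `star` satisfies `IsCentralInv`
(`Oc.qa F`: `x + star x = t x • 1`, `x * star x = n x • 1`), so `Class_mem` and `unst_iff` give that `f` is an identity of
`Oc F`. `←`: for `v : ℕ → Oc F`, `lift F (Sum.elim v (star ∘ v)) (unst F f) = lift F v f = 0`, so `mem_SS` and
`main_tfae_ord`.
-/

set_option autoImplicit false
set_option linter.unusedSectionVars false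

namespace Pool.Agent.OB

open FreeNonUnitalNonAssocAlgebra Pool.Agent.H.MP_41922c_al Pool.Agent.Smt

variable {F : Type*} [Field F]

theorem Xfer_com_one (c : F) (y : Oc F) : com (c • (1 : Oc F)) y = 0 := by
  rw [Oct_smul_com, one_com, smul_zero]

theorem Xfer_assoc_one (c : F) (y z : Oc F) : associator (c • (1 : Oc F)) y z = 0 := by
  unfold associator
  rw [smul_mul_assoc, smul_mul_assoc, smul_mul_assoc, one_mul, one_mul, sub_self]

theorem Xfer_norm (x : Oc F) : x * star x = (Oc.qa F).n x • (1 : Oc F) := by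
  have h1 : star x = tt x • (1 : Oc F) - x := by
    rw [← add_star x, add_sub_cancel_left]
  have h2 := (Oc.qa F).sq x
  rw [h1, mul_sub, mul_smul_comm, mul_one, h2]
  exact sub_sub_cancel _ _

theorem isCentralInv_Oc : ∃ σ : Oc F →ₗ[F] Oc F, (∀ x, σ x = star x) ∧
    IsCentralInv F (Oc F) σ := by
  refine ⟨{ toFun := fun x => star x
            map_add' := fun x y => star_add x y
            map_smul' := fun c x => star_smul_oc c x }, fun _ => rfl, ?_⟩
  refine ⟨fun x y => ?_, fun x y => ?_, fun x => star_star x, fun x y => star_mul x y,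
    fun x y => ?_, fun x y z => ?_, fun x y => ?_, fun x y z => ?_⟩
  · exact sub_eq_zero_of_eq ((Oc.qa F).alt_left x y)
  · exact sub_eq_zero_of_eq ((Oc.qa F).alt_right x y)
  · show com (x + star x) y = 0
    rw [add_star, Xfer_com_one]
  · show associator (x + star x) y z = 0
    rw [add_star, Xfer_assoc_one]
  · show com (x * star x) y = 0
    rw [Xfer_norm, Xfer_com_one]
  · show associator (x * star x) y z = 0
    rw [Xfer_norm, Xfer_assoc_one]

theorem id_iff_cd [Infinite F] {ν β γ : F} (h : (1 - 4 * ν) * β * γ ≠ 0) (f : FA F) :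
    IsIdentity F (CD F ν β γ) f ↔ Id F f := by
  obtain ⟨σ, hσ, hc⟩ := isCentralInv_Oc (F := F)
  have k := (main_tfae_ord h f).out 0 2
  rw [k]
  constructor
  · intro h3
    exact (unst_iff σ f).2 fun φ hφ => Class_mem hc h3 φ hφ
  · intro h1
    refine mem_SS fun v => ?_
    refine (unst_iff σ f).1 h1 _ fun i => ?_
    rw [lift_of_apply, lift_of_apply, Sum.elim_inr, Sum.elim_inl, hσ]

end Pool.Agent.OB
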