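import Pool.Agent.OB.Fin
import Pool.Agent.OB.One
import Pool.Agent.OB.Xfer
import Pool.Agent.H.MP_41922c_al.TIdeal

/-!
# Bases of identities  (module FinB)

`mlt_all`: `R = QA (isTIdeal_tIdeal S)`, `qhom`; `identity_QA`, `qhom_eq_zero`, `subset_tIdeal`; all multilinear identities of
`Oc F` hold in `R`, so `one` (apply the conclusion to `qhom`). The other inclusion: `tIdeal_le`, `isTIdeal_identities`.
`mlt_9`: with `S = {f | ∃ m, m.Nodup ∧ m.card ≤ 9 ∧ f ∈ P F m ∧ Id F f}`, `R = QA ..`, `π = qhom`: by strong induction on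
`m.card` all multilinear identities `f ∈ P F m` are in `tIdeal F S`: for `m.card ≥ 10` apply `step` with `V = m`
(`Ctx`: `surj`: `qmk_surj`; `ker`: `IsTIdeal.map`; `low`: induction; `2, 3 ≠ 0` since `10! ≠ 0`). Then `mlt_all`.
`exists_finite`: the identities in `P F (Multiset.range n)`, `n ≤ 9`, form a subspace of a finite-dimensional space (finitely
many words with given letters); take a finite spanning set for each `n`. Every `f ∈ P F m` with `m.Nodup`, `m.card = n` is a
renaming of some `g ∈ P F (Multiset.range n)` (`ren`, with a bijection), and identities are stable under renamings.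
-/

set_option autoImplicit false
set_option linter.unusedSectionVars false

namespace Pool.Agent.OB

open FreeNonUnitalNonAssocAlgebra Pool.Agent.H.MP_41922c_al Pool.Agent.Smt

variable {F : Type*} [Field F] [Infinite F]

theorem FinB_two (h10 : ((Nat.factorial 10 : ℕ) : F) ≠ 0) : (2 : F) ≠ 0 ∧ (3 : F) ≠ 0 := by
  have e : ((Nat.factorial 10 : ℕ) : F) = (3628800 : F) := by
    have h1 : Nat.factorial 10 = 3628800 := by decide
    rw [h1]
    norm_num
  constructor
  · intro h
    apply h10
    rw [e, show (3628800 : F) = 2 * 1814400 by norm_num, h, zero_mul]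
  · intro h
    apply h10
    rw [e, show (3628800 : F) = 3 * 1209600 by norm_num, h, zero_mul]

theorem mlt_all (h2 : (2 : F) ≠ 0) (h3 : (3 : F) ≠ 0) (f : FA F) :
    Id F f ↔ f ∈ tIdeal F {g | ∃ m : Multiset ℕ, m.Nodup ∧ g ∈ P F m ∧ Id F g} := by
  set S : Set (FA F) := {g | ∃ m : Multiset ℕ, m.Nodup ∧ g ∈ P F m ∧ Id F g} with hS
  constructor
  · intro hid
    have hR : ∀ d, Sat F d (QA (isTIdeal_tIdeal S)) := by
      intro d m hm _ g hg hgid
      exact identity_QA _ (subset_tIdeal S ⟨m, hm, hg, hgid⟩)
    have h := one h2 h3 hR hid (qhom (isTIdeal_tIdeal S))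
    rwa [qhom_eq_zero] at h
  · intro hf
    have h1 : tIdeal F S ≤ identities F (Oc F) := by
      refine tIdeal_le (isTIdeal_identities (Oc F)) ?_
      rintro g ⟨m, -, -, hg⟩
      exact hg
    exact h1 hf

theorem mlt_9 (h10 : ((Nat.factorial 10 : ℕ) : F) ≠ 0) (f : FA F) :
    Id F f ↔ f ∈ tIdeal F {g | ∃ m : Multiset ℕ, m.Nodup ∧ m.card ≤ 9 ∧ g ∈ P F m ∧ Id F g} := by
  obtain ⟨h2, h3⟩ := FinB_two h10
  set S : Set (FA F) := {g | ∃ m : Multiset ℕ, m.Nodup ∧ m.card ≤ 9 ∧ g ∈ P F m ∧ Id F g} with hS
  have key : ∀ (n : ℕ) (m : Multiset ℕ), m.card = n → m.Nodup → ∀ g ∈ P F m, Id F g →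
      g ∈ tIdeal F S := by
    intro n
    induction n using Nat.strong_induction_on with
    | _ n ih =>
      intro m hc hm g hg hgid
      by_cases h9 : m.card ≤ 9
      · exact subset_tIdeal S ⟨m, hm, h9, hg, hgid⟩
      · have hI := isTIdeal_tIdeal (F := F) S
        have hctx : Ctx (qhom hI) m :=
          { surj := fun x => qmk_surj hI x
            ker := fun p hp θ => by
              rw [qhom_eq_zero] at hp ⊢
              exact hI.map θ p hp
            nodup := hm
            card := by omega
            low := fun m' hm' hc' p hp hpid => by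
              rw [qhom_eq_zero]
              exact ih m'.card (by omega) m' rfl hm' p hp hpid
            two := h2
            three := h3 }
        have h := step hctx h10 hg hgid
        rwa [qhom_eq_zero] at h
  constructor
  · intro hid
    have h1 : tIdeal F {g : FA F | ∃ m : Multiset ℕ, m.Nodup ∧ g ∈ P F m ∧ Id F g} ≤
        tIdeal F S := by
      refine tIdeal_le (isTIdeal_tIdeal S) ?_
      rintro g ⟨m, hm, hg, hgid⟩
      exact key m.card m rfl hm g hg hgid
    exact h1 ((mlt_all h2 h3 f).1 hid)
  · intro hf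
    have h1 : tIdeal F S ≤ identities F (Oc F) := by
      refine tIdeal_le (isTIdeal_identities (Oc F)) ?_
      rintro g ⟨m, -, -, -, hg⟩
      exact hg
    exact h1 hf

/-- there are finitely many words with given letters -/
theorem FinB_words (n : ℕ) : ∀ m : Multiset ℕ, m.card = n →
    {w : FreeMagma ℕ | lets id w = m}.Finite := by
  induction n using Nat.strong_induction_on with
  | _ n ih =>
    intro m hm
    have h1 : (FreeMagma.of '' {a : ℕ | a ∈ m}).Finite := (Multiset.finite_toSet m).image _
    have h2 : ∀ s : Multiset ℕ, {w : FreeMagma ℕ | lets id w = s ∧ s.card < n}.Finite := by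
      intro s
      by_cases hs : s.card < n
      · exact (ih s.card hs s rfl).subset fun w hw => hw.1
      · exact Set.Finite.subset Set.finite_empty fun w hw => absurd hw.2 hs
    have h3 : (⋃ s ∈ Set.Iic m, Set.image2 (fun u v : FreeMagma ℕ => u * v)
        {w | lets id w = s ∧ s.card < n} {w | lets id w = m - s ∧ (m - s).card < n}).Finite := by
      refine (Set.finite_Iic m).biUnion fun s _ => ?_
      exact Set.Finite.image2 _ (h2 s) (h2 (m - s))
    refine (h1.union h3).subset ?_
    intro w hw
    have hw' : lets id w = m := hw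
    cases w with
    | of a =>
      left
      refine ⟨a, ?_, rfl⟩
      show a ∈ m
      rw [← hw']
      exact Multiset.mem_singleton_self a
    | mul u v =>
      right
      have e : lets id u + lets id v = m := hw'
      have hu := Multiset.card_pos.2 (lets_ne id u)
      have hv := Multiset.card_pos.2 (lets_ne id v)
      have hc : (lets id u).card + (lets id v).card = n := by
        rw [← hm, ← e, Multiset.card_add]
      have e2 : m - lets id u = lets id v := by
        rw [← e]
        exact add_tsub_cancel_left _ _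
      have hle : lets id u ≤ m := by
        rw [← e]
        exact Multiset.le_add_right _ _
      rw [Set.mem_iUnion₂]
      refine ⟨lets id u, hle, u, ⟨rfl, by omega⟩, v, ⟨e2.symm, by rw [e2]; omega⟩, rfl⟩

theorem FinB_fg (m : Multiset ℕ) : (P F m).FG := by
  have h1 : {f : FA F | ∃ w : FreeMagma ℕ, lets id w = m ∧ mo F w = f}.Finite :=
    (FinB_words m.card m rfl).image (mo F)
  exact Submodule.fg_span h1

/-- a renaming which fixes the letters -/
theorem FinB_ren {τ : ℕ → ℕ} {m : Multiset ℕ} (hτ : ∀ i ∈ m, τ i = i) {f : FA F}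
    (hf : f ∈ P F m) : ren F τ f = f := by
  have key : ∀ w : FreeMagma ℕ, (∀ i ∈ lets id w, τ i = i) → ren F τ (mo F w) = mo F w := by
    intro w
    induction w with
    | ih1 a =>
      intro h
      have h1 : τ a = a := h a (Multiset.mem_singleton_self a)
      have h2 : ren F τ (of F a) = of F (τ a) := lift_of_apply _ _ _
      rw [h1] at h2
      exact h2
    | ih2 u v hu hv =>
      intro h
      have h1 : ren F τ (mo F (u * v)) = ren F τ (mo F u) * ren F τ (mo F v) :=
        map_mul (ren F τ) (mo F u) (mo F v)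
      rw [h1, hu fun i hi => h i (Multiset.mem_add.2 (Or.inl hi)),
        hv fun i hi => h i (Multiset.mem_add.2 (Or.inr hi))]
      rfl
  refine PP_induction id (p := fun f => ren F τ f = f) ?_ ?_ ?_ ?_ hf
  · exact map_zero _
  · intro f g hf hg
    rw [map_add, hf, hg]
  · intro k f hf
    rw [map_smul, hf]
  · intro w hw
    exact key w fun i hi => hτ i (by rw [← hw]; exact hi)

theorem FinB_Id {f : FA F} (h : Id F f) (θ : FA F →ₙₐ[F] FA F) : Id F (θ f) := by
  intro φ
  exact h (φ.comp θ)

/-- enumeration of the letters -/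
theorem FinB_enum {m : Multiset ℕ} (hm : m.Nodup) : ∃ ρ σ : ℕ → ℕ,
    m.map ρ = Multiset.range m.card ∧ ∀ i ∈ m, σ (ρ i) = i := by
  obtain ⟨L, rfl⟩ : ∃ L : List ℕ, (L : Multiset ℕ) = m := ⟨m.toList, m.coe_toList⟩
  have hL : L.Nodup := hm
  refine ⟨fun i => L.idxOf i, fun k => L.getD k 0, ?_, ?_⟩
  · have h1 : L.map (fun i => L.idxOf i) = List.range L.length := by
      refine List.ext_getElem (by simp) fun k hk hk' => ?_
      rw [List.getElem_map, List.getElem_range]
      exact hL.idxOf_getElem k _
    rw [Multiset.map_coe, h1, Multiset.coe_card]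
    rfl
  · intro i hi
    have hi' : i ∈ L := hi
    have h1 : L.idxOf i < L.length := List.idxOf_lt_length_of_mem hi'
    show L.getD (L.idxOf i) 0 = i
    rw [List.getD_eq_getElem _ _ h1]
    exact List.getElem_idxOf h1

theorem exists_finite (h10 : ((Nat.factorial 10 : ℕ) : F) ≠ 0) : ∃ S : Finset (FA F),
    (∀ g ∈ S, ∃ n ≤ 9, g ∈ P F (Multiset.range n) ∧ Id F g) ∧
      ∀ f, Id F f ↔ f ∈ tIdeal F (S : Set (FA F)) := by
  classical
  have hfg : ∀ n : ℕ, (P F (Multiset.range n) ⊓ identities F (Oc F)).FG := fun n =>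
    (FinB_fg (F := F) (Multiset.range n)).of_le inf_le_left
  choose T hT using hfg
  have hTmem : ∀ n, ∀ g ∈ T n, g ∈ P F (Multiset.range n) ∧ Id F g := by
    intro n g hg
    have h1 : g ∈ Submodule.span F (T n : Set (FA F)) := Submodule.subset_span hg
    rw [hT n] at h1
    exact h1
  refine ⟨(Finset.range 10).biUnion T, ?_, ?_⟩
  · intro g hg
    obtain ⟨n, hn, hg⟩ := Finset.mem_biUnion.1 hg
    have := Finset.mem_range.1 hn
    exact ⟨n, by omega, hTmem n g hg⟩
  · intro f
    set S : Finset (FA F) := (Finset.range 10).biUnion T with hS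
    have hI := isTIdeal_tIdeal (F := F) (S : Set (FA F))
    constructor
    · intro hid
      have h1 : tIdeal F {g : FA F | ∃ m : Multiset ℕ, m.Nodup ∧ m.card ≤ 9 ∧ g ∈ P F m ∧
          Id F g} ≤ tIdeal F (S : Set (FA F)) := by
        refine tIdeal_le hI ?_
        rintro g ⟨m, hm, hc, hg, hgid⟩
        obtain ⟨ρ, σ, e1, e2⟩ := FinB_enum hm
        have h2 : ren F ρ g ∈ P F (Multiset.range m.card) := by
          rw [← e1]
          exact ren_mem hg
        have h3 : ren F ρ g ∈ Submodule.span F (T m.card : Set (FA F)) := by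
          rw [hT]
          exact ⟨h2, FinB_Id hgid (ren F ρ)⟩
        have h4 : Submodule.span F (T m.card : Set (FA F)) ≤ tIdeal F (S : Set (FA F)) := by
          rw [Submodule.span_le]
          intro x hx
          refine subset_tIdeal _ ?_
          rw [hS]
          exact Finset.mem_coe.2 (Finset.mem_biUnion.2 ⟨m.card, Finset.mem_range.2 (by omega), hx⟩)
        have h5 : ren F σ (ren F ρ g) = g := by
          rw [ren_ren]
          exact FinB_ren (fun i hi => e2 i hi) hg
        rw [← h5]
        exact hI.map (ren F σ) _ (h4 h3)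
      exact h1 ((mlt_9 h10 f).1 hid)
    · intro hf
      have h1 : tIdeal F (S : Set (FA F)) ≤ identities F (Oc F) := by
        refine tIdeal_le (isTIdeal_identities (Oc F)) ?_
        intro g hg
        obtain ⟨n, _, hg⟩ := Finset.mem_biUnion.1 (Finset.mem_coe.1 hg)
        exact (hTmem n g hg).2
      exact h1 hf

end Pool.Agent.OB
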