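import Pool.Agent.OB.ExpA
import Pool.Agent.OB.ExpB
import Pool.Agent.OB.ExpC

/-!
# A finite basis of the identities of the Cayley-Dickson algebra in characteristic `p ≥ 11`

Let `F` be an infinite field of characteristic `p`. `Oc F` is the algebra of the split octonions `M₂(F) + M₂(F) v` with the
product `Oc.mul_def`, and `bas` is its standard basis; all structure constants are `0`, `1`, `-1`. `SSd F d` is the set of the
polynomials `g` with coefficients in the prime field which, for some `n ≤ d`, are multilinear in the variables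
`x_0, ..., x_(n-1)` (each of them occurs exactly once in each monomial) and which vanish on the standard basis. So `SSd F d` is
the set of the solutions over `ℤ/p` of an explicit finite system of linear equations with coefficients `0`, `1`, `-1`; this
set is finite.

* For `p ≥ 5` the T-ideal of the identities of every octonion algebra over `F` is the union of the T-ideals generated by
  the finite sets `SSd F d`; in particular it is generated by multilinear polynomials with coefficients in the prime field.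
* For `p ≥ 11` the finite set `SSd F 9` is a basis of identities.
-/

set_option autoImplicit false

namespace Pool.Agent.Results.MP_41922c_al.FiniteBasis

open Pool.Agent.OB Pool.Agent.H.MP_41922c_al FreeNonUnitalNonAssocAlgebra

theorem SSd_mono {F : Type*} [Field F] {d e : ℕ} (h : d ≤ e) : SSd F d ⊆ SSd F e := by
  rintro g ⟨n, hn, hg⟩
  exact ⟨n, hn.trans h, hg⟩

theorem tIdeal_mono {F : Type*} [Field F] {S T : Set (FA F)} (h : S ⊆ T) :
    tIdeal F S ≤ tIdeal F T :=
  tIdeal_le (isTIdeal_tIdeal T) (h.trans (subset_tIdeal T))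

theorem SSd_id {F : Type*} [Field F] {d : ℕ} {g : FA F} (hg : g ∈ SSd F d) : Id F g := by
  obtain ⟨n, _, hg⟩ := hg
  exact id_of_vanish (Multiset.nodup_range n) (SS0_sub n hg) hg.2

theorem tIdeal_id {F : Type*} [Field F] {d : ℕ} {g : FA F} (hg : g ∈ tIdeal F (SSd F d)) :
    Id F g := by
  have h1 : tIdeal F (SSd F d) ≤ identities F (Smt.Oc F) :=
    tIdeal_le (isTIdeal_identities (Smt.Oc F)) fun g hg => SSd_id hg
  exact h1 hg

theorem key {p : ℕ} [Fact p.Prime] {F : Type*} [Field F] [Infinite F] [CharP F p] {m : Multiset ℕ}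
    (hm : m.Nodup) {d : ℕ} (hd : m.card ≤ d) {g : FA F} (hg : g ∈ P F m) (hid : Id F g) :
    g ∈ tIdeal F (SSd F d) := by
  obtain ⟨ρ, σ, e1, e2⟩ := FinB_enum hm
  have h2 : ren F ρ g ∈ P F (Multiset.range m.card) := by
    rw [← e1]
    exact ren_mem hg
  have h3 := span_SS0 (p := p) m.card h2 (FinB_Id hid (ren F ρ))
  have h4 : Submodule.span F (SS0 F m.card) ≤ tIdeal F (SSd F d) := by
    rw [Submodule.span_le]
    intro x hx
    exact subset_tIdeal _ ⟨m.card, hd, hx⟩
  have h5 : ren F σ (ren F ρ g) = g := by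
    rw [ren_ren]
    exact FinB_ren (fun i hi => e2 i hi) hg
  rw [← h5]
  exact (isTIdeal_tIdeal (SSd F d)).map (ren F σ) _ (h4 h3)

theorem char_ne {p : ℕ} [Fact p.Prime] {F : Type*} [Field F] [CharP F p] (h5 : 5 ≤ p) :
    (2 : F) ≠ 0 ∧ (3 : F) ≠ 0 := by
  constructor
  · intro h
    have h' : ((2 : ℕ) : F) = 0 := by exact_mod_cast h
    rw [CharP.cast_eq_zero_iff F p] at h'
    have := Nat.le_of_dvd (by norm_num) h'
    omega
  · intro h
    have h' : ((3 : ℕ) : F) = 0 := by exact_mod_cast h
    rw [CharP.cast_eq_zero_iff F p] at h'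
    have := Nat.le_of_dvd (by norm_num) h'
    omega

/-- **A finite basis of identities of the Cayley-Dickson algebra.** -/
theorem result {p : ℕ} [Fact p.Prime] {F : Type*} [Field F] [CharP F p] [Infinite F] {ν β γ : F}
    (h : (1 - 4 * ν) * β * γ ≠ 0) :
    (∀ d : ℕ, (SSd F d).Finite) ∧
    (5 ≤ p → ∀ f : FreeNonUnitalNonAssocAlgebra F ℕ,
      IsIdentity F (CD F ν β γ) f ↔ ∃ d : ℕ, f ∈ tIdeal F (SSd F d)) ∧
    (11 ≤ p → ∀ f : FreeNonUnitalNonAssocAlgebra F ℕ,
      IsIdentity F (CD F ν β γ) f ↔ f ∈ tIdeal F (SSd F 9)) := by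
  refine ⟨fun d => SSd_finite (p := p) d, fun hp f => ?_, fun hp f => ?_⟩
  · rw [id_iff_cd h f]
    obtain ⟨h2, h3⟩ := char_ne (F := F) hp
    constructor
    · intro hid
      let I : Submodule F (FA F) :=
        { carrier := {f | ∃ d : ℕ, f ∈ tIdeal F (SSd F d)}
          zero_mem' := ⟨0, zero_mem _⟩
          add_mem' := by
            rintro a b ⟨d, ha⟩ ⟨e, hb⟩
            exact ⟨max d e, add_mem (tIdeal_mono (SSd_mono (le_max_left d e)) ha)
              (tIdeal_mono (SSd_mono (le_max_right d e)) hb)⟩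
          smul_mem' := by
            rintro c a ⟨d, ha⟩
            exact ⟨d, (tIdeal F (SSd F d)).smul_mem c ha⟩ }
      have hI : IsTIdeal F I := by
        refine ⟨?_, ?_, ?_⟩
        · rintro a g ⟨d, hg⟩
          exact ⟨d, (isTIdeal_tIdeal _).mul_left a g hg⟩
        · rintro a g ⟨d, hg⟩
          exact ⟨d, (isTIdeal_tIdeal _).mul_right a g hg⟩
        · rintro φ g ⟨d, hg⟩
          exact ⟨d, (isTIdeal_tIdeal _).map φ g hg⟩
      have h1 : tIdeal F {g : FA F | ∃ m : Multiset ℕ, m.Nodup ∧ g ∈ P F m ∧ Id F g} ≤ I := by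
        refine tIdeal_le hI ?_
        rintro g ⟨m, hm, hg, hgid⟩
        exact ⟨m.card, key (p := p) hm le_rfl hg hgid⟩
      exact h1 ((mlt_all h2 h3 f).1 hid)
    · rintro ⟨d, hd⟩
      exact tIdeal_id hd
  · rw [id_iff_cd h f]
    have h10 : ((Nat.factorial 10 : ℕ) : F) ≠ 0 := by
      intro h0
      rw [CharP.cast_eq_zero_iff F p, (Fact.out : p.Prime).dvd_factorial] at h0
      omega
    constructor
    · intro hid
      have h1 : tIdeal F {g : FA F | ∃ m : Multiset ℕ, m.Nodup ∧ m.card ≤ 9 ∧ g ∈ P F m ∧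
          Id F g} ≤ tIdeal F (SSd F 9) := by
        refine tIdeal_le (isTIdeal_tIdeal _) ?_
        rintro g ⟨m, hm, hc, hg, hgid⟩
        exact key (p := p) hm hc hg hgid
      exact h1 ((mlt_9 h10 f).1 hid)
    · intro hf
      exact tIdeal_id hf

end Pool.Agent.Results.MP_41922c_al.FiniteBasis
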