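import Pool.Agent.OB.LR

/-!
# Generation of the forms by multiples of variables  (module Gen)

Generation (`LR_gen`), `5 ≤ m.card`. Let `M` be the span of all `y l`, `l y`, `y` a variable.
   By `(u v) l = u (v l) + u (l v) - (u l) v` and its mirror image, `u l` and `l u` are in `M` for all
   words `u`, `l ∈ LR`. With `Ω` = commutators: `[Ω, Ω] ⊆ M` (sagle), `(U, U, Ω) ⊆ M` (six),
   `[a b, w] ∈ M`; `com w (jor a u) ∈ M` for `w, u ∈ Ω` (e5: `jor a (com x y)`: `com (jor a (com x y)) z`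
   is in `LR` since it is `-(com z (jor a (com x y)))`, `comJor_R`), so
   `jor (com w a) u = com w (jor a u) - jor a (com w u) ∈ M`;
   `jor (a * u) w = a * jor u w - associator a u w + com w a * u`, and
   `com w a * u = 1/2 (com (com w a) u + jor (com w a) u) ∈ M`; so `jor (a * u) w, jor (u * a) w ∈ M`;
   `6 jor (associator a b c) w = jor (com (com a b) c) w + .. ∈ M`; hence `F3 (a * b) c d e ∈ M` by
   `comMul_R`, and the same in the other three arguments. Finally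
   `com x (com (b * b') c) = com x (b * com b' c + com b c * b' + 3 associator b b' c)`, and
   `com x (b * v) = com x b * v + b * com x v - 3 associator x b v` (`v ∈ Ω`), with
   `2 com x b * v = com (com x b) v + jor (com x b) v`: modulo `M` only
   `F3 x b b' c` and `F3 x b' b c` remain. If `5 ≤ m.card` one of the arguments is a product.
-/

set_option autoImplicit false
set_option linter.unusedSectionVars false

namespace Pool.Agent.OB

open FreeNonUnitalNonAssocAlgebra Pool.Agent.H.MP_41922c_al Pool.Agent.Smt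

variable {F : Type*} [Field F] {R : Type*} [NonUnitalNonAssocRing R] [Module F R]
  [IsScalarTower F R R] [SMulCommClass F R R] (ρ : FA F →ₙₐ[F] R)

/-- the span of all `y l` and `l y`, `y` a variable -/
def MR (m : Multiset ℕ) : Submodule F R :=
  Submodule.span F {r | ∃ y ∈ m, ∃ l ∈ LR ρ (m.erase y), ρ (of F y) * l = r ∨ l * ρ (of F y) = r}

/-! ### products by words -/

theorem Gen_word (hR : Sat F 9 R) (h2 : (2 : F) ≠ 0) (h3 : (3 : F) ≠ 0) (w : FreeMagma ℕ) :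
    ∀ (m : Multiset ℕ) (l : R), l ∈ LR ρ m →
      ρ (mo F w) * l ∈ MR ρ (lets id w + m) ∧ l * ρ (mo F w) ∈ MR ρ (lets id w + m) := by
  induction w with
  | ih1 y =>
    intro m l hl
    have h1 : lets id (FreeMagma.of y) + m = {y} + m := rfl
    have h4 : y ∈ ({y} : Multiset ℕ) + m :=
      Multiset.mem_add.2 (Or.inl (Multiset.mem_singleton_self y))
    have h5 : (({y} : Multiset ℕ) + m).erase y = m := by
      rw [Multiset.singleton_add, Multiset.erase_cons_head]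
    rw [h1]
    exact ⟨Submodule.subset_span ⟨y, h4, l, by rw [h5]; exact hl, Or.inl rfl⟩,
      Submodule.subset_span ⟨y, h4, l, by rw [h5]; exact hl, Or.inr rfl⟩⟩
  | ih2 u v hu hv =>
    intro m l hl
    have hul := LR_mul_left ρ h2 h3 hR (mo_mem id u) hl
    have hvl := LR_mul_left ρ h2 h3 hR (mo_mem id v) hl
    have hlu := LR_mul_right ρ h2 h3 hR (mo_mem id u) hl
    have hlv := LR_mul_right ρ h2 h3 hR (mo_mem id v) hl
    have e1 : lets id (u * v) + m = lets id u + (lets id v + m) := by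
      rw [← add_assoc]; rfl
    have e2 : lets id v + (lets id u + m) = lets id u + (lets id v + m) := by
      rw [← add_assoc, ← add_assoc, add_comm (lets id v)]
    have e3 : ρ (mo F (u * v)) = ρ (mo F u) * ρ (mo F v) := map_mul ρ (mo F u) (mo F v)
    rw [e1, e3]
    have k1 := (hu _ _ hvl).1
    have k2 := (hv _ _ hul).2
    have k3 := (hu _ _ hlv).1
    have k4 := (hv _ _ hlu).2
    rw [e2] at k2 k4
    have a1 := alt23_R hR (ρ (mo F u)) (ρ (mo F v)) l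
    have a2 := alt12_R hR l (ρ (mo F u)) (ρ (mo F v))
    have a3 := alt23_R hR (ρ (mo F u)) l (ρ (mo F v))
    simp only [associator_apply] at a1 a2
    constructor
    · have e4 : ρ (mo F u) * ρ (mo F v) * l = ρ (mo F u) * (ρ (mo F v) * l)
          - ρ (mo F u) * l * ρ (mo F v) + ρ (mo F u) * (l * ρ (mo F v)) := by
        linear_combination (norm := abel) a1
      rw [e4]
      exact add_mem (sub_mem k1 k2) k3
    · have e4 : l * (ρ (mo F u) * ρ (mo F v)) = l * ρ (mo F u) * ρ (mo F v)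
          + ρ (mo F u) * l * ρ (mo F v) - ρ (mo F u) * (l * ρ (mo F v)) := by
        linear_combination (norm := abel) -a2
      rw [e4]
      exact sub_mem (add_mem k4 k2) k3

/-- multiples of elements of `LR` by words are sums of multiples by variables -/
theorem MR_mul (hR : Sat F 9 R) (h2 : (2 : F) ≠ 0) (h3 : (3 : F) ≠ 0) {m m' : Multiset ℕ}
    {a : FA F} (ha : a ∈ P F m) {l : R} (hl : l ∈ LR ρ m') :
    ρ a * l ∈ MR ρ (m + m') ∧ l * ρ a ∈ MR ρ (m + m') := by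
  refine PP_induction id (p := fun a => ρ a * l ∈ MR ρ (m + m') ∧ l * ρ a ∈ MR ρ (m + m'))
    ?_ ?_ ?_ ?_ ha
  · simp only [map_zero, zero_mul, mul_zero]
    exact ⟨zero_mem _, zero_mem _⟩
  · rintro f g ⟨hf, hf'⟩ ⟨hg, hg'⟩
    simp only [map_add, add_mul, mul_add]
    exact ⟨add_mem hf hg, add_mem hf' hg'⟩
  · rintro k f ⟨hf, hf'⟩
    simp only [map_smul, smul_mul_assoc, mul_smul_comm]
    exact ⟨Submodule.smul_mem _ _ hf, Submodule.smul_mem _ _ hf'⟩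
  · intro w hw
    rw [← hw]
    exact Gen_word ρ hR h2 h3 w m' l hl

theorem MR_le (h2 : (2 : F) ≠ 0) (h3 : (3 : F) ≠ 0) (hR : Sat F 9 R) (m : Multiset ℕ) :
    MR ρ m ≤ LR ρ m := by
  unfold MR
  rw [Submodule.span_le]
  rintro r ⟨y, hy, l, hl, h⟩
  have h1 : ({y} : Multiset ℕ) + m.erase y = m := by
    rw [Multiset.singleton_add, Multiset.cons_erase hy]
  rcases h with h | h
  · have h4 := LR_mul_left ρ h2 h3 hR (of_mem id y) hl
    rw [← h, ← h1]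
    exact h4
  · have h4 := LR_mul_right ρ h2 h3 hR (of_mem id y) hl
    rw [← h, ← h1]
    exact h4

/-! ### elements -/

section gen

theorem Gen_div {M : Submodule F R} {n : ℕ} (hn : (n : F) ≠ 0) {x : R} (h : n • x ∈ M) :
    x ∈ M := by
  have h1 : x = (n : F)⁻¹ • (n • x) := by
    rw [← Nat.cast_smul_eq_nsmul F n x, smul_smul, inv_mul_cancel₀ hn, one_smul]
  rw [h1]
  exact M.smul_mem _ h

variable {ρ}

theorem Gen_P {m m' n : Multiset ℕ} {a b : R} (ha : a ∈ PR ρ m) (hb : b ∈ PR ρ m')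
    (h : m + m' = n) : a * b ∈ PR ρ n := by
  subst h
  obtain ⟨a, ha, rfl⟩ := ha
  obtain ⟨b, hb, rfl⟩ := hb
  exact ⟨a * b, PP_mul id ha hb, map_mul ρ a b⟩

theorem Gen_C {m m' n : Multiset ℕ} {a b : R} (ha : a ∈ PR ρ m) (hb : b ∈ PR ρ m')
    (h : m + m' = n) : com a b ∈ PR ρ n :=
  sub_mem (Gen_P ha hb h) (Gen_P hb ha ((add_comm _ _).trans h))

theorem Gen_1 {m₁ m₂ m₃ n : Multiset ℕ} {a b c : R} (ha : a ∈ PR ρ m₁) (hb : b ∈ PR ρ m₂)
    (hc : c ∈ PR ρ m₃) (h : m₁ + m₂ + m₃ = n) : com a (com b c) ∈ LR ρ n := by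
  subst h
  obtain ⟨a, ha, rfl⟩ := ha
  obtain ⟨b, hb, rfl⟩ := hb
  obtain ⟨c, hc, rfl⟩ := hc
  exact ⟨F1 a b c, LP_F1 ha hb hc, by
    show ρ (F1 a b c) = com (ρ a) (com (ρ b) (ρ c))
    simp only [F1, com, map_sub, map_mul]⟩

theorem Gen_3 {m₁ m₂ m₃ m₄ n : Multiset ℕ} {a b c d : R} (ha : a ∈ PR ρ m₁) (hb : b ∈ PR ρ m₂)
    (hc : c ∈ PR ρ m₃) (hd : d ∈ PR ρ m₄) (h : m₁ + m₂ + m₃ + m₄ = n) :
    jor (com a b) (com c d) ∈ LR ρ n := by
  subst h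
  obtain ⟨a, ha, rfl⟩ := ha
  obtain ⟨b, hb, rfl⟩ := hb
  obtain ⟨c, hc, rfl⟩ := hc
  obtain ⟨d, hd, rfl⟩ := hd
  exact ⟨F3 a b c d, LP_F3 ha hb hc hd, by
    show ρ (F3 a b c d) = jor (com (ρ a) (ρ b)) (com (ρ c) (ρ d))
    simp only [F3, com, jor, map_sub, map_mul, map_add]⟩

variable (h2 : (2 : F) ≠ 0) (h3 : (3 : F) ≠ 0) (hR : Sat F 9 R)
include h2 h3 hR

theorem Gen_jL' {m m' n : Multiset ℕ} {a l : R} (ha : a ∈ PR ρ m) (hl : l ∈ LR ρ m')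
    (h : m + m' = n) : jor a l ∈ LR ρ n := by
  subst h
  obtain ⟨a, ha, rfl⟩ := ha
  exact add_mem (LR_mul_left ρ h2 h3 hR ha hl) (LR_mul_right ρ h2 h3 hR ha hl)

theorem Gen_l {m m' n : Multiset ℕ} {a l : R} (ha : a ∈ PR ρ m) (hl : l ∈ LR ρ m')
    (h : m + m' = n) : a * l ∈ MR ρ n := by
  subst h
  obtain ⟨a, ha, rfl⟩ := ha
  exact (MR_mul ρ hR h2 h3 ha hl).1

theorem Gen_r {m m' n : Multiset ℕ} {a l : R} (ha : a ∈ PR ρ m) (hl : l ∈ LR ρ m')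
    (h : m + m' = n) : l * a ∈ MR ρ n := by
  subst h
  obtain ⟨a, ha, rfl⟩ := ha
  exact (MR_mul ρ hR h2 h3 ha hl).2

theorem Gen_c {m m' n : Multiset ℕ} {a l : R} (ha : a ∈ PR ρ m) (hl : l ∈ LR ρ m')
    (h : m + m' = n) : com a l ∈ MR ρ n :=
  sub_mem (Gen_l h2 h3 hR ha hl h) (Gen_r h2 h3 hR ha hl h)

theorem Gen_j {m m' n : Multiset ℕ} {a l : R} (ha : a ∈ PR ρ m) (hl : l ∈ LR ρ m')
    (h : m + m' = n) : jor a l ∈ MR ρ n :=
  add_mem (Gen_l h2 h3 hR ha hl h) (Gen_r h2 h3 hR ha hl h)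

omit h2 h3 hR in
theorem Gen_neg (a b : R) : com a b = -com b a := by
  simp only [com]; abel

omit h2 h3 hR in
theorem Gen_jc (a b : R) : jor a b = jor b a := by
  simp only [jor]; abel

omit h2 h3 hR in
theorem Gen_nc (a b : R) : com (-a) b = -com a b := by
  simp only [com, neg_mul, mul_neg]; abel

/-- `com (com (com x y) z) t` -/
theorem Gen_ccc {m₁ m₂ m₃ m₄ n : Multiset ℕ} {x y z t : R} (hx : x ∈ PR ρ m₁) (hy : y ∈ PR ρ m₂)
    (hz : z ∈ PR ρ m₃) (ht : t ∈ PR ρ m₄) (h : m₁ + m₂ + m₃ + m₄ = n) :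
    com (com (com x y) z) t ∈ MR ρ n := by
  have h4 : com (com (com x y) z) t = com t (com z (com x y)) := by
    rw [Gen_neg (com x y) z, Gen_nc, Gen_neg t]
  rw [h4]
  exact Gen_c h2 h3 hR ht (Gen_1 hz hx hy rfl) (by rw [← h]; abel)

/-- `[Ω, Ω] ⊆ M` -/
theorem Gen_oo {m₁ m₂ m₃ m₄ n : Multiset ℕ} {x y z t : R} (hx : x ∈ PR ρ m₁) (hy : y ∈ PR ρ m₂)
    (hz : z ∈ PR ρ m₃) (ht : t ∈ PR ρ m₄) (h : m₁ + m₂ + m₃ + m₄ = n) :
    com (com x y) (com z t) ∈ MR ρ n := by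
  rw [sagle_R hR x z y t]
  exact add_mem (add_mem (add_mem
    (Gen_ccc h2 h3 hR hx hz hy ht (by rw [← h]; abel))
    (Gen_ccc h2 h3 hR hz hy ht hx (by rw [← h]; abel)))
    (Gen_ccc h2 h3 hR hy ht hx hz (by rw [← h]; abel)))
    (Gen_ccc h2 h3 hR ht hx hz hy (by rw [← h]; abel))

/-- `(U, U, Ω) ⊆ M` -/
theorem Gen_a {m₁ m₂ m₃ m₄ n : Multiset ℕ} {u v c d : R} (hu : u ∈ PR ρ m₁) (hv : v ∈ PR ρ m₂)
    (hc : c ∈ PR ρ m₃) (hd : d ∈ PR ρ m₄) (h : m₁ + m₂ + m₃ + m₄ = n) :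
    associator u v (com c d) ∈ MR ρ n := by
  have h6 : ((6 : ℕ) : F) ≠ 0 := by
    have h7 : ((6 : ℕ) : F) = 2 * 3 := by norm_num
    rw [h7]; exact mul_ne_zero h2 h3
  refine Gen_div h6 ?_
  rw [six_R hR u v (com c d)]
  refine add_mem (add_mem (Gen_oo h2 h3 hR hu hv hc hd h) ?_) ?_
  · rw [Gen_neg]
    exact neg_mem (Gen_c h2 h3 hR hu (Gen_1 hv hc hd rfl) (by rw [← h]; abel))
  · have h4 : com (com (com c d) u) v = com v (com u (com c d)) := by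
      rw [Gen_neg (com c d) u, Gen_nc, Gen_neg v]
    rw [h4]
    exact Gen_c h2 h3 hR hv (Gen_1 hu hc hd rfl) (by rw [← h]; abel)

/-- `com (a * b) w ∈ M` -/
theorem Gen_p {m₁ m₂ m₃ m₄ n : Multiset ℕ} {a b c d : R} (ha : a ∈ PR ρ m₁) (hb : b ∈ PR ρ m₂)
    (hc : c ∈ PR ρ m₃) (hd : d ∈ PR ρ m₄) (h : m₁ + m₂ + m₃ + m₄ = n) :
    com (a * b) (com c d) ∈ MR ρ n := by
  rw [comMul_R hR a b (com c d)]
  refine add_mem (add_mem ?_ ?_) (nsmul_mem (Gen_a h2 h3 hR ha hb hc hd h) 3)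
  · exact Gen_l h2 h3 hR ha (Gen_1 hb hc hd rfl) (by rw [← h]; abel)
  · exact Gen_r h2 h3 hR hb (Gen_1 ha hc hd rfl) (by rw [← h]; abel)

/-- `com (com (jor a (com x y)) z) t ∈ M` -/
theorem Gen_ej {m₀ m₁ m₂ m₃ m₄ n : Multiset ℕ} {a x y z t : R} (ha : a ∈ PR ρ m₀)
    (hx : x ∈ PR ρ m₁) (hy : y ∈ PR ρ m₂) (hz : z ∈ PR ρ m₃) (ht : t ∈ PR ρ m₄)
    (h : m₀ + m₁ + m₂ + m₃ + m₄ = n) : com (com (jor a (com x y)) z) t ∈ MR ρ n := by
  have h4 : com (com (jor a (com x y)) z) t = com t (com z (jor a (com x y))) := by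
    rw [Gen_neg (jor a (com x y)) z, Gen_nc, Gen_neg t]
  rw [h4, comJor_R hR z a (com x y)]
  exact Gen_c h2 h3 hR ht (add_mem (Gen_3 hz ha hx hy (n := m₃ + m₀ + m₁ + m₂) rfl)
    (Gen_jL' h2 h3 hR ha (Gen_1 hz hx hy rfl) (by abel))) (by rw [← h]; abel)

/-- `com w (jor a u) ∈ M` for `w, u ∈ Ω` -/
theorem Gen_e {m₀ m₁ m₂ m₃ m₄ n : Multiset ℕ} {a x y z t : R} (ha : a ∈ PR ρ m₀)
    (hx : x ∈ PR ρ m₁) (hy : y ∈ PR ρ m₂) (hz : z ∈ PR ρ m₃) (ht : t ∈ PR ρ m₄)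
    (h : m₀ + m₁ + m₂ + m₃ + m₄ = n) : com (com x y) (jor a (com z t)) ∈ MR ρ n := by
  rw [e5_R hR a x z y t]
  exact add_mem (add_mem (add_mem
    (Gen_ej h2 h3 hR ha hx hz hy ht (by rw [← h]; abel))
    (Gen_ej h2 h3 hR ha hz hy ht hx (by rw [← h]; abel)))
    (Gen_ej h2 h3 hR ha hy ht hx hz (by rw [← h]; abel)))
    (Gen_ej h2 h3 hR ha ht hx hz hy (by rw [← h]; abel))

/-- `jor (com w a) u ∈ M` for `w, u ∈ Ω` -/
theorem Gen_f {m₀ m₁ m₂ m₃ m₄ n : Multiset ℕ} {a x y z t : R} (ha : a ∈ PR ρ m₀)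
    (hx : x ∈ PR ρ m₁) (hy : y ∈ PR ρ m₂) (hz : z ∈ PR ρ m₃) (ht : t ∈ PR ρ m₄)
    (h : m₀ + m₁ + m₂ + m₃ + m₄ = n) : jor (com (com x y) a) (com z t) ∈ MR ρ n := by
  have h4 : jor (com (com x y) a) (com z t) =
      com (com x y) (jor a (com z t)) - jor a (com (com x y) (com z t)) := by
    rw [comJor_R hR (com x y) a (com z t)]; abel
  rw [h4]
  exact sub_mem (Gen_e h2 h3 hR ha hx hy hz ht h)
    (Gen_j h2 h3 hR ha (Gen_1 (Gen_C hx hy rfl) hz ht rfl) (by rw [← h]; abel))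

omit h2 h3 in
theorem Gen_id1 (a u w : R) :
    jor (a * u) w = a * jor u w - associator a u w + com w a * u := by
  have a1 := alt23_R hR a u w
  have a2 := alt12_R hR w a u
  simp only [associator_apply] at a1 a2 ⊢
  simp only [jor, com, mul_add, sub_mul]
  linear_combination (norm := abel) a1 + a1 - a2

omit h2 h3 hR in
theorem Gen_id2 (a u w : R) : jor (u * a) w = jor (a * u) w + jor (com u a) w := by
  simp only [jor, com, mul_sub, sub_mul]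
  abel

/-- `jor (a * u) w ∈ M` for `w, u ∈ Ω` -/
theorem Gen_g {m₀ m₁ m₂ m₃ m₄ n : Multiset ℕ} {a x y z t : R} (ha : a ∈ PR ρ m₀)
    (hx : x ∈ PR ρ m₁) (hy : y ∈ PR ρ m₂) (hz : z ∈ PR ρ m₃) (ht : t ∈ PR ρ m₄)
    (h : m₀ + m₁ + m₂ + m₃ + m₄ = n) : jor (a * com x y) (com z t) ∈ MR ρ n := by
  have h5 : com (com z t) a * com x y ∈ MR ρ n := by
    refine Gen_div (n := 2) (by exact_mod_cast h2) ?_
    have h6 : 2 • (com (com z t) a * com x y) = com (com (com z t) a) (com x y)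
        + jor (com (com z t) a) (com x y) := by
      simp only [com, jor]; abel
    rw [h6]
    exact add_mem (Gen_oo h2 h3 hR (Gen_C hz ht rfl) ha hx hy (by rw [← h]; abel))
      (Gen_f h2 h3 hR ha hz ht hx hy (by rw [← h]; abel))
  rw [Gen_id1 hR]
  refine add_mem (sub_mem ?_ ?_) h5
  · exact Gen_l h2 h3 hR ha (Gen_3 hx hy hz ht rfl) (by rw [← h]; abel)
  · exact Gen_a h2 h3 hR ha (Gen_C hx hy rfl) hz ht (by rw [← h]; abel)

/-- `jor (u * a) w ∈ M` for `w, u ∈ Ω` -/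
theorem Gen_g' {m₀ m₁ m₂ m₃ m₄ n : Multiset ℕ} {a x y z t : R} (ha : a ∈ PR ρ m₀)
    (hx : x ∈ PR ρ m₁) (hy : y ∈ PR ρ m₂) (hz : z ∈ PR ρ m₃) (ht : t ∈ PR ρ m₄)
    (h : m₀ + m₁ + m₂ + m₃ + m₄ = n) : jor (com x y * a) (com z t) ∈ MR ρ n := by
  rw [Gen_id2]
  exact add_mem (Gen_g h2 h3 hR ha hx hy hz ht h) (Gen_f h2 h3 hR ha hx hy hz ht h)

omit h2 h3 hR in
theorem Gen_ja (a b w : R) : jor (a + b) w = jor a w + jor b w := by
  simp only [jor, mul_add, add_mul]; abel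

omit h2 h3 hR in
theorem Gen_jn (a w : R) : jor (-a) w = -jor a w := by
  simp only [jor, mul_neg, neg_mul]; abel

omit h2 h3 hR in
theorem Gen_js (n : ℕ) (a w : R) : jor (n • a) w = n • jor a w := by
  simp only [jor, smul_mul_assoc, mul_smul_comm, smul_add]

omit h2 h3 hR in
theorem Gen_ca (w a b : R) : com w (a + b) = com w a + com w b := by
  simp only [com, mul_add, add_mul]; abel

omit h2 h3 hR in
theorem Gen_cn (w a : R) : com w (-a) = -com w a := by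
  simp only [com, mul_neg, neg_mul]; abel

omit h2 h3 hR in
theorem Gen_cs (n : ℕ) (w a : R) : com w (n • a) = n • com w a := by
  simp only [com, smul_mul_assoc, mul_smul_comm, smul_sub]

omit h3 hR in
theorem Gen_six (h3 : (3 : F) ≠ 0) : ((6 : ℕ) : F) ≠ 0 := by
  have h7 : ((6 : ℕ) : F) = 2 * 3 := by norm_num
  rw [h7]; exact mul_ne_zero h2 h3

/-- `jor (a, b, c) w ∈ M` for `w ∈ Ω` -/
theorem Gen_h {m₁ m₂ m₃ m₄ m₅ n : Multiset ℕ} {a b c d e : R} (ha : a ∈ PR ρ m₁)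
    (hb : b ∈ PR ρ m₂) (hc : c ∈ PR ρ m₃) (hd : d ∈ PR ρ m₄) (he : e ∈ PR ρ m₅)
    (h : m₁ + m₂ + m₃ + m₄ + m₅ = n) : jor (associator a b c) (com d e) ∈ MR ρ n := by
  refine Gen_div (Gen_six h2 h3) ?_
  rw [← Gen_js, six_R hR a b c, Gen_ja, Gen_ja]
  exact add_mem (add_mem
    (Gen_f h2 h3 hR hc ha hb hd he (by rw [← h]; abel))
    (Gen_f h2 h3 hR ha hb hc hd he (by rw [← h])))
    (Gen_f h2 h3 hR hb hc ha hd he (by rw [← h]; abel))

/-- `F3 (a * b) c d e ∈ M` -/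
theorem Gen_k {m₁ m₂ m₃ m₄ m₅ n : Multiset ℕ} {a b c d e : R} (ha : a ∈ PR ρ m₁)
    (hb : b ∈ PR ρ m₂) (hc : c ∈ PR ρ m₃) (hd : d ∈ PR ρ m₄) (he : e ∈ PR ρ m₅)
    (h : m₁ + m₂ + m₃ + m₄ + m₅ = n) : jor (com (a * b) c) (com d e) ∈ MR ρ n := by
  rw [comMul_R hR a b c, Gen_ja, Gen_ja, Gen_js]
  exact add_mem (add_mem
    (Gen_g h2 h3 hR ha hb hc hd he h)
    (Gen_g' h2 h3 hR hb ha hc hd he (by rw [← h]; abel)))
    (nsmul_mem (Gen_h h2 h3 hR ha hb hc hd he h) 3)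

/-- `com x (a, b, c) ∈ M` -/
theorem Gen_xa {m₁ m₂ m₃ m₄ n : Multiset ℕ} {x a b c : R} (hx : x ∈ PR ρ m₁)
    (ha : a ∈ PR ρ m₂) (hb : b ∈ PR ρ m₃) (hc : c ∈ PR ρ m₄)
    (h : m₁ + m₂ + m₃ + m₄ = n) : com x (associator a b c) ∈ MR ρ n := by
  refine Gen_div (Gen_six h2 h3) ?_
  rw [← Gen_cs, six_R hR a b c, Gen_ca, Gen_ca, Gen_neg (com a b) c, Gen_neg (com b c) a,
    Gen_neg (com c a) b, Gen_cn, Gen_cn, Gen_cn]
  exact add_mem (add_mem
    (neg_mem (Gen_c h2 h3 hR hx (Gen_1 hc ha hb rfl) (by rw [← h]; abel)))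
    (neg_mem (Gen_c h2 h3 hR hx (Gen_1 ha hb hc rfl) (by rw [← h]; abel))))
    (neg_mem (Gen_c h2 h3 hR hx (Gen_1 hb hc ha rfl) (by rw [← h]; abel)))

/-- `F1 x (a * b) c ∈ M` if `F3 x a b c, F3 a c x b ∈ M` -/
theorem Gen_n {m₁ m₂ m₃ m₄ n : Multiset ℕ} {x a b c : R} (hx : x ∈ PR ρ m₁)
    (ha : a ∈ PR ρ m₂) (hb : b ∈ PR ρ m₃) (hc : c ∈ PR ρ m₄)
    (h : m₁ + m₂ + m₃ + m₄ = n) (H1 : jor (com x a) (com b c) ∈ MR ρ n)
    (H2 : jor (com a c) (com x b) ∈ MR ρ n) : com x (com (a * b) c) ∈ MR ρ n := by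
  have h22 : ((2 : ℕ) : F) ≠ 0 := by exact_mod_cast h2
  have h5 : ∀ u v : R, 2 • (u * v) = com u v + jor u v := by
    intro u v
    simp only [com, jor]; abel
  rw [comMul_R hR a b c, Gen_ca, Gen_ca, Gen_cs, mulCom_R hR x a (com b c),
    mulCom_R hR x (com a c) b, alt23_R hR x (com a c) b]
  refine add_mem (add_mem (sub_mem (add_mem ?_ ?_) ?_) (sub_mem (add_mem ?_ ?_) ?_)) ?_
  · exact Gen_l h2 h3 hR ha (Gen_1 hx hb hc rfl) (by rw [← h]; abel)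
  · refine Gen_div h22 ?_
    rw [h5]
    exact add_mem (Gen_oo h2 h3 hR hx ha hb hc h) H1
  · exact nsmul_mem (Gen_a h2 h3 hR hx ha hb hc h) 3
  · refine Gen_div h22 ?_
    rw [h5]
    exact add_mem (Gen_oo h2 h3 hR ha hc hx hb (by rw [← h]; abel)) H2
  · exact Gen_r h2 h3 hR hb (Gen_1 hx ha hc rfl) (by rw [← h]; abel)
  · exact nsmul_mem (neg_mem (Gen_a h2 h3 hR hx hb ha hc (by rw [← h]; abel))) 3
  · exact nsmul_mem (Gen_xa h2 h3 hR hx ha hb hc h) 3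

/-! ### words -/

omit h2 h3 hR in
theorem Gen_w (a : FreeMagma ℕ) : ρ (mo F a) ∈ PR ρ (lets id a) := ⟨mo F a, mo_mem id a, rfl⟩

theorem Gen_w3 (a b c d : FreeMagma ℕ) {n : Multiset ℕ}
    (h : lets id a + lets id b + lets id c + lets id d = n) (h5 : 5 ≤ n.card) :
    jor (com (ρ (mo F a)) (ρ (mo F b))) (com (ρ (mo F c)) (ρ (mo F d))) ∈ MR ρ n := by
  have e0 : ∀ u v : FreeMagma ℕ, ρ (mo F (FreeMagma.mul u v)) = ρ (mo F u) * ρ (mo F v) :=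
    fun u v => map_mul ρ (mo F u) (mo F v)
  have l0 : ∀ u v : FreeMagma ℕ, lets id (FreeMagma.mul u v) = lets id u + lets id v :=
    fun u v => rfl
  rcases a with i | ⟨u, v⟩
  swap
  · rw [e0]
    exact Gen_k h2 h3 hR (Gen_w u) (Gen_w v) (Gen_w b) (Gen_w c) (Gen_w d)
      (by rw [← h, l0])
  rcases b with j | ⟨u, v⟩
  swap
  · rw [e0, Gen_neg, Gen_jn]
    exact neg_mem (Gen_k h2 h3 hR (Gen_w u) (Gen_w v) (Gen_w _) (Gen_w c) (Gen_w d)
      (by rw [← h, l0]; abel))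
  rcases c with k | ⟨u, v⟩
  swap
  · rw [e0, Gen_jc]
    exact Gen_k h2 h3 hR (Gen_w u) (Gen_w v) (Gen_w d) (Gen_w _) (Gen_w _)
      (by rw [← h, l0]; abel)
  rcases d with l | ⟨u, v⟩
  swap
  · rw [e0, Gen_jc, Gen_neg, Gen_jn]
    exact neg_mem (Gen_k h2 h3 hR (Gen_w u) (Gen_w v) (Gen_w _) (Gen_w _) (Gen_w _)
      (by rw [← h, l0]; abel))
  exfalso
  rw [← h] at h5
  simp [lets] at h5

theorem Gen_w1 (a b c : FreeMagma ℕ) {n : Multiset ℕ}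
    (h : lets id a + lets id b + lets id c = n) (h5 : 5 ≤ n.card) :
    com (ρ (mo F a)) (com (ρ (mo F b)) (ρ (mo F c))) ∈ MR ρ n := by
  have e0 : ∀ u v : FreeMagma ℕ, ρ (mo F (FreeMagma.mul u v)) = ρ (mo F u) * ρ (mo F v) :=
    fun u v => map_mul ρ (mo F u) (mo F v)
  have l0 : ∀ u v : FreeMagma ℕ, lets id (FreeMagma.mul u v) = lets id u + lets id v :=
    fun u v => rfl
  rcases a with i | ⟨u, v⟩
  swap
  · rw [e0]
    exact Gen_p h2 h3 hR (Gen_w u) (Gen_w v) (Gen_w b) (Gen_w c) (by rw [← h, l0])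
  rcases b with j | ⟨u, v⟩
  swap
  · rw [e0]
    exact Gen_n h2 h3 hR (Gen_w _) (Gen_w u) (Gen_w v) (Gen_w c) (by rw [← h, l0]; abel)
      (Gen_w3 h2 h3 hR _ u v c (by rw [← h, l0]; abel) h5)
      (Gen_w3 h2 h3 hR u c _ v (by rw [← h, l0]; abel) h5)
  rcases c with k | ⟨u, v⟩
  swap
  · rw [e0, Gen_neg (ρ (mo F (FreeMagma.of j))), Gen_cn]
    exact neg_mem (Gen_n h2 h3 hR (Gen_w _) (Gen_w u) (Gen_w v) (Gen_w _)
      (by rw [← h, l0]; abel)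
      (Gen_w3 h2 h3 hR _ u v _ (by rw [← h, l0]; abel) h5)
      (Gen_w3 h2 h3 hR u _ _ v (by rw [← h, l0]; abel) h5))
  exfalso
  rw [← h] at h5
  simp [lets] at h5

end gen

theorem LR_gen (h2 : (2 : F) ≠ 0) (h3 : (3 : F) ≠ 0) (hR : Sat F 9 R) {m : Multiset ℕ}
    (hm : 5 ≤ m.card) : LR ρ m ≤ MR ρ m := by
  unfold LR LP
  rw [Submodule.map_le_iff_le_comap, Submodule.span_le]
  intro f hf
  show ρ f ∈ MR ρ m
  have e1 : ∀ a b c : FA F, ρ (com a (com b c)) = com (ρ a) (com (ρ b) (ρ c)) := by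
    intro a b c
    simp only [com, map_sub, map_mul]
  have e3 : ∀ a b c d : FA F,
      ρ (jor (com a b) (com c d)) = jor (com (ρ a) (ρ b)) (com (ρ c) (ρ d)) := by
    intro a b c d
    simp only [com, jor, map_sub, map_mul, map_add]
  cases hf with
  | f1 a b c =>
    rw [F1, e1]
    exact Gen_w1 h2 h3 hR a b c rfl hm
  | f2 r a b c =>
    rw [F2, F1, map_mul, e1]
    exact Gen_l h2 h3 hR (Gen_w r) (Gen_1 (Gen_w a) (Gen_w b) (Gen_w c) rfl) (by abel)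
  | f3 a b c d =>
    rw [F3, e3]
    exact Gen_w3 h2 h3 hR a b c d rfl hm
  | f4 r a b c d =>
    rw [F4, F3, map_mul, e3]
    exact Gen_l h2 h3 hR (Gen_w r) (Gen_3 (Gen_w a) (Gen_w b) (Gen_w c) (Gen_w d) rfl) (by abel)

end Pool.Agent.OB
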