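import Pool.Agent.OB.Oct

/-!
# Consequences of the identities of low degree  (module Ids)

`Sat F d R`: all multilinear identities of the octonions of degree at most `d` hold in `R`. Each
identity below is proved by writing down the polynomial in the variables `x_0, ..., x_5` (it is in
`P F {0, ..., k}` by `PP_mul` etc.; it is an identity of `Oc F` by the module Oct) and substituting.
`six_R`, `comMul_R`, `comJor_R` are also consequences of the alternative laws (`abel`).
-/

set_option autoImplicit false
set_option linter.unusedSectionVars false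

namespace Pool.Agent.OB

open FreeNonUnitalNonAssocAlgebra Pool.Agent.H.MP_41922c_al Pool.Agent.Smt

variable {F : Type*} [Field F] {R : Type*} [NonUnitalNonAssocRing R] [Module F R]
  [IsScalarTower F R R] [SMulCommClass F R R]

/-- evaluation at a point of the functions `(ℕ → O) → O` -/
def Ids_at (F : Type*) [Field F] (v : ℕ → Oc F) : Fn F →ₙₐ[F] Oc F where
  toFun g := g v
  map_smul' _ _ := rfl
  map_zero' := rfl
  map_add' _ _ := rfl
  map_mul' _ _ := rfl

theorem Ids_com {A : Type*} [NonUnitalNonAssocRing A] [Module F A] (φ : FA F →ₙₐ[F] A)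
    (a b : FA F) : φ (com a b) = com (φ a) (φ b) := by
  simp only [com, map_sub, map_mul]

theorem Ids_jor {A : Type*} [NonUnitalNonAssocRing A] [Module F A] (φ : FA F →ₙₐ[F] A)
    (a b : FA F) : φ (jor a b) = jor (φ a) (φ b) := by
  simp only [jor, map_add, map_mul]

theorem Ids_ass {A : Type*} [NonUnitalNonAssocRing A] [Module F A] (φ : FA F →ₙₐ[F] A)
    (a b c : FA F) : φ (associator a b c) = associator (φ a) (φ b) (φ c) := by
  simp only [associator_apply, map_sub, map_mul]

theorem Ids_F3 {A : Type*} [NonUnitalNonAssocRing A] [Module F A] (φ : FA F →ₙₐ[F] A)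
    (a b c d : FA F) : φ (F3 a b c d) = F3 (φ a) (φ b) (φ c) (φ d) := by
  simp only [F3, Ids_com, Ids_jor]

theorem Ids_com_mem {m m' : Multiset ℕ} {f g : FA F} (hf : f ∈ P F m) (hg : g ∈ P F m') :
    com f g ∈ P F (m + m') :=
  sub_mem (PP_mul id hf hg) (add_comm m' m ▸ PP_mul id hg hf)

theorem Ids_jor_mem {m m' : Multiset ℕ} {f g : FA F} (hf : f ∈ P F m) (hg : g ∈ P F m') :
    jor f g ∈ P F (m + m') :=
  add_mem (PP_mul id hf hg) (add_comm m' m ▸ PP_mul id hg hf)

theorem Ids_ass_mem {m m' m'' : Multiset ℕ} {f g h : FA F} (hf : f ∈ P F m) (hg : g ∈ P F m')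
    (hh : h ∈ P F m'') : associator f g h ∈ P F (m + m' + m'') := by
  rw [associator_apply]
  exact sub_mem (PP_mul id (PP_mul id hf hg) hh) (add_assoc m m' m'' ▸
    PP_mul id hf (PP_mul id hg hh))

theorem Ids_of (i : ℕ) : of F i ∈ P F ({i} : Multiset ℕ) := of_mem id i

theorem Ids_cast {m m' : Multiset ℕ} {f : FA F} (hf : f ∈ P F m) (h : m = m') : f ∈ P F m' :=
  h ▸ hf

/-- substitution in an identity of low degree -/
theorem Ids_sub {d : ℕ} (hR : Sat F d R) {m : Multiset ℕ} (hm : m.Nodup) (hc : m.card ≤ d)
    {f g : FA F} (hf : f ∈ P F m) (hg : g ∈ P F m)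
    (h : ∀ φ : FA F →ₙₐ[F] Oc F, φ f = φ g) (θ : ℕ → R) : lift F θ f = lift F θ g := by
  have h1 : IsIdentity F R (f - g) := by
    refine hR m hm hc _ (sub_mem hf hg) ?_
    intro φ
    rw [map_sub, h φ, sub_self]
  have h2 := h1 (lift F θ)
  rw [map_sub] at h2
  exact sub_eq_zero.mp h2

theorem Sat.mono {d d' : ℕ} (h : d' ≤ d) (hR : Sat F d R) : Sat F d' R := by
  intro m hm hc f hf hi
  exact hR m hm (hc.trans h) f hf hi

theorem Sat.prod {d : ℕ} {R' : Type*} [NonUnitalNonAssocRing R'] [Module F R']
    [IsScalarTower F R' R'] [SMulCommClass F R' R'] (hR : Sat F d R) (hR' : Sat F d R') :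
    Sat F d (R × R') := by
  intro m hm hc f hf hi φ
  have h1 := hR m hm hc f hf hi ((NonUnitalAlgHom.fst F R R').comp φ)
  have h2 := hR' m hm hc f hf hi ((NonUnitalAlgHom.snd F R R').comp φ)
  exact Prod.ext h1 h2

theorem sat_Fn (d : ℕ) : Sat F d (Fn F) := by
  intro m _ _ f _ hi φ
  funext v
  exact hi ((Ids_at F v).comp φ)

theorem id_iff_ev (f : FA F) : Id F f ↔ ev F f = 0 := by
  constructor
  · intro h
    funext v
    exact h ((Ids_at F v).comp (ev F))
  · intro h φ
    have h1 : φ = (Ids_at F (fun i => φ (of F i))).comp (ev F) := by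
      apply FreeNonUnitalNonAssocAlgebra.hom_ext
      intro i
      show φ (of F i) = (ev F (of F i)) (fun i => φ (of F i))
      rw [ev, lift_of_apply]
      rfl
    rw [h1]
    show (ev F f) _ = 0
    rw [h]
    rfl

theorem alt12_R (hR : Sat F 9 R) (a b c : R) : associator a b c = -associator b a c := by
  have h := Ids_sub hR (m := {0} + {1} + {2}) (by decide) (by decide)
    (f := associator (of F 0) (of F 1) (of F 2)) (g := -associator (of F 1) (of F 0) (of F 2))
    (Ids_ass_mem (Ids_of 0) (Ids_of 1) (Ids_of 2))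
    (neg_mem (Ids_cast (Ids_ass_mem (Ids_of 1) (Ids_of 0) (Ids_of 2)) (by decide)))
    (fun φ => by simp only [map_neg, Ids_ass]; exact alt12_oc _ _ _)
    (fun i => if i = 0 then a else if i = 1 then b else c)
  simpa [Ids_ass, lift_of_apply] using h

theorem alt23_R (hR : Sat F 9 R) (a b c : R) : associator a b c = -associator a c b := by
  have h := Ids_sub hR (m := {0} + {1} + {2}) (by decide) (by decide)
    (f := associator (of F 0) (of F 1) (of F 2)) (g := -associator (of F 0) (of F 2) (of F 1))
    (Ids_ass_mem (Ids_of 0) (Ids_of 1) (Ids_of 2))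
    (neg_mem (Ids_cast (Ids_ass_mem (Ids_of 0) (Ids_of 2) (Ids_of 1)) (by decide)))
    (fun φ => by simp only [map_neg, Ids_ass]; exact alt23_oc _ _ _)
    (fun i => if i = 0 then a else if i = 1 then b else c)
  simpa [Ids_ass, lift_of_apply] using h

theorem six_R (hR : Sat F 9 R) (a b c : R) : 6 • associator a b c =
    com (com a b) c + com (com b c) a + com (com c a) b := by
  have h1 : com (com a b) c + com (com b c) a + com (com c a) b =
      associator a b c - associator b a c + (associator b c a - associator c b a)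
        + (associator c a b - associator a c b) := by
    simp only [com, associator_apply, sub_mul, mul_sub]
    abel
  have h2 := alt12_R hR b a c
  have h3 := alt23_R hR a c b
  have h4 := alt12_R hR c b a
  have h5 := alt23_R hR b c a
  have h6 := alt12_R hR c a b
  rw [h1, h6, h3, h4, h5, h2]
  abel

theorem comMul_R (hR : Sat F 9 R) (a b c : R) :
    com (a * b) c = a * com b c + com a c * b + 3 • associator a b c := by
  have h1 : com (a * b) c = a * com b c + com a c * b
      + (associator a b c - associator a c b + associator c a b) := by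
    simp only [com, associator_apply, sub_mul, mul_sub]
    abel
  have h3 := alt23_R hR a c b
  have h6 := alt12_R hR c a b
  rw [h1, h6, h3]
  abel

theorem mulCom_R (hR : Sat F 9 R) (a b c : R) :
    com a (b * c) = b * com a c + com a b * c - 3 • associator a b c := by
  have h1 : com a (b * c) = b * com a c + com a b * c
      - (associator a b c + associator b c a - associator b a c) := by
    simp only [com, associator_apply, sub_mul, mul_sub]
    abel
  have h5 := alt23_R hR b c a
  have h2 := alt12_R hR b a c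
  rw [h1, h5, h2]
  abel

theorem comJor_R (hR : Sat F 9 R) (a u w : R) :
    com a (jor u w) = jor (com a u) w + jor u (com a w) := by
  have h0 : com a (jor u w) = com a (u * w) + com a (w * u) := by
    simp only [com, jor, mul_add, add_mul]
    abel
  rw [h0, mulCom_R hR a u w, mulCom_R hR a w u, alt23_R hR a w u]
  simp only [jor]
  abel

theorem sagle_R (hR : Sat F 9 R) (x y z t : R) : com (com x z) (com y t) =
    com (com (com x y) z) t + com (com (com y z) t) x + com (com (com z t) x) y
      + com (com (com t x) y) z := by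
  have c4 : ∀ i j k l : ℕ, com (com (com (of F i) (of F j)) (of F k)) (of F l) ∈
      P F (({i} + {j} + {k} + {l} : Multiset ℕ)) := fun i j k l =>
    Ids_com_mem (Ids_com_mem (Ids_com_mem (Ids_of i) (Ids_of j)) (Ids_of k)) (Ids_of l)
  have h := Ids_sub hR (m := {0} + {1} + {2} + {3}) (by decide) (by decide)
    (f := com (com (of F 0) (of F 2)) (com (of F 1) (of F 3)))
    (g := com (com (com (of F 0) (of F 1)) (of F 2)) (of F 3)
      + com (com (com (of F 1) (of F 2)) (of F 3)) (of F 0)
      + com (com (com (of F 2) (of F 3)) (of F 0)) (of F 1)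
      + com (com (com (of F 3) (of F 0)) (of F 1)) (of F 2))
    (Ids_cast (Ids_com_mem (Ids_com_mem (Ids_of 0) (Ids_of 2))
      (Ids_com_mem (Ids_of 1) (Ids_of 3))) (by decide))
    (add_mem (add_mem (add_mem (c4 0 1 2 3) (Ids_cast (c4 1 2 3 0) (by decide)))
      (Ids_cast (c4 2 3 0 1) (by decide))) (Ids_cast (c4 3 0 1 2) (by decide)))
    (fun φ => by simp only [map_add, Ids_com]; exact sagle_oc _ _ _ _)
    (fun i => if i = 0 then x else if i = 1 then y else if i = 2 then z else t)
  simpa [Ids_com, lift_of_apply] using h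

theorem e5_R (hR : Sat F 9 R) (a x y z t : R) : com (com x z) (jor a (com y t)) =
    com (com (jor a (com x y)) z) t + com (com (jor a (com y z)) t) x
      + com (com (jor a (com z t)) x) y + com (com (jor a (com t x)) y) z := by
  have c5 : ∀ i j k l : ℕ, com (com (jor (of F 4) (com (of F i) (of F j))) (of F k)) (of F l) ∈
      P F (({4} + ({i} + {j}) + {k} + {l} : Multiset ℕ)) := fun i j k l =>
    Ids_com_mem (Ids_com_mem (Ids_jor_mem (Ids_of 4) (Ids_com_mem (Ids_of i) (Ids_of j)))
      (Ids_of k)) (Ids_of l)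
  have h := Ids_sub hR (m := {4} + ({0} + {1}) + {2} + {3}) (by decide) (by decide)
    (f := com (com (of F 0) (of F 2)) (jor (of F 4) (com (of F 1) (of F 3))))
    (g := com (com (jor (of F 4) (com (of F 0) (of F 1))) (of F 2)) (of F 3)
      + com (com (jor (of F 4) (com (of F 1) (of F 2))) (of F 3)) (of F 0)
      + com (com (jor (of F 4) (com (of F 2) (of F 3))) (of F 0)) (of F 1)
      + com (com (jor (of F 4) (com (of F 3) (of F 0))) (of F 1)) (of F 2))
    (Ids_cast (Ids_com_mem (Ids_com_mem (Ids_of 0) (Ids_of 2))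
      (Ids_jor_mem (Ids_of 4) (Ids_com_mem (Ids_of 1) (Ids_of 3)))) (by decide))
    (add_mem (add_mem (add_mem (c5 0 1 2 3) (Ids_cast (c5 1 2 3 0) (by decide)))
      (Ids_cast (c5 2 3 0 1) (by decide))) (Ids_cast (c5 3 0 1 2) (by decide)))
    (fun φ => by simp only [map_add, Ids_com, Ids_jor]; exact e5_oc _ _ _ _ _)
    (fun i => if i = 0 then x else if i = 1 then y else if i = 2 then z else
      if i = 3 then t else a)
  simpa [Ids_com, Ids_jor, lift_of_apply] using h

theorem f3_comm_R (hR : Sat F 9 R) (a b c d e : R) : F3 a b c d * e = e * F3 a b c d := by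
  have c3 : F3 (of F 0) (of F 1) (of F 2) (of F 3) ∈
      P F ((({0} + {1}) + ({2} + {3}) : Multiset ℕ)) :=
    Ids_jor_mem (Ids_com_mem (Ids_of 0) (Ids_of 1)) (Ids_com_mem (Ids_of 2) (Ids_of 3))
  have h := Ids_sub hR (m := (({0} + {1}) + ({2} + {3})) + {4}) (by decide) (by decide)
    (f := F3 (of F 0) (of F 1) (of F 2) (of F 3) * of F 4)
    (g := of F 4 * F3 (of F 0) (of F 1) (of F 2) (of F 3))
    (PP_mul id c3 (Ids_of 4)) (Ids_cast (PP_mul id (Ids_of 4) c3) (by decide))
    (fun φ => by
      simp only [map_mul, Ids_F3]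
      rw [f3_scalar, smul_mul_assoc, mul_smul_comm, one_mul, mul_one])
    (fun i => if i = 0 then a else if i = 1 then b else if i = 2 then c else
      if i = 3 then d else e)
  simpa [Ids_F3, lift_of_apply] using h

theorem f3_assoc_R (hR : Sat F 9 R) (a b c d e f : R) :
    associator (F3 a b c d) e f = 0 ∧ associator e (F3 a b c d) f = 0 ∧
      associator e f (F3 a b c d) = 0 := by
  have c3 : F3 (of F 0) (of F 1) (of F 2) (of F 3) ∈
      P F ((({0} + {1}) + ({2} + {3}) : Multiset ℕ)) :=
    Ids_jor_mem (Ids_com_mem (Ids_of 0) (Ids_of 1)) (Ids_com_mem (Ids_of 2) (Ids_of 3))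
  have h1 := Ids_sub hR (m := (({0} + {1}) + ({2} + {3})) + {4} + {5}) (by decide) (by decide)
    (f := associator (F3 (of F 0) (of F 1) (of F 2) (of F 3)) (of F 4) (of F 5)) (g := 0)
    (Ids_ass_mem c3 (Ids_of 4) (Ids_of 5)) (zero_mem _)
    (fun φ => by
      simp only [Ids_ass, Ids_F3, map_zero]
      rw [f3_scalar]
      simp only [associator_apply, smul_mul_assoc, one_mul, sub_self])
    (fun i => if i = 0 then a else if i = 1 then b else if i = 2 then c else
      if i = 3 then d else if i = 4 then e else f)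
  have h2 := Ids_sub hR (m := {4} + (({0} + {1}) + ({2} + {3})) + {5}) (by decide) (by decide)
    (f := associator (of F 4) (F3 (of F 0) (of F 1) (of F 2) (of F 3)) (of F 5)) (g := 0)
    (Ids_ass_mem (Ids_of 4) c3 (Ids_of 5)) (zero_mem _)
    (fun φ => by
      simp only [Ids_ass, Ids_F3, map_zero]
      rw [f3_scalar]
      simp only [associator_apply, smul_mul_assoc, mul_smul_comm, one_mul, mul_one, sub_self])
    (fun i => if i = 0 then a else if i = 1 then b else if i = 2 then c else
      if i = 3 then d else if i = 4 then e else f)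
  have h3 := Ids_sub hR (m := {4} + {5} + (({0} + {1}) + ({2} + {3}))) (by decide) (by decide)
    (f := associator (of F 4) (of F 5) (F3 (of F 0) (of F 1) (of F 2) (of F 3))) (g := 0)
    (Ids_ass_mem (Ids_of 4) (Ids_of 5) c3) (zero_mem _)
    (fun φ => by
      simp only [Ids_ass, Ids_F3, map_zero]
      rw [f3_scalar]
      simp only [associator_apply, mul_smul_comm, mul_one, sub_self])
    (fun i => if i = 0 then a else if i = 1 then b else if i = 2 then c else
      if i = 3 then d else if i = 4 then e else f)
  refine ⟨?_, ?_, ?_⟩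
  · simpa [Ids_ass, Ids_F3, lift_of_apply] using h1
  · simpa [Ids_ass, Ids_F3, lift_of_apply] using h2
  · simpa [Ids_ass, Ids_F3, lift_of_apply] using h3

end Pool.Agent.OB
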