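import Mathlib

/-!
# A cocycle on pairs of disjoint pairs is a coboundary  (module Kn)

Fix a pair `p₀ ≤ V`. For a pair `p` choose a pair `r` disjoint from `p` and `p₀` and put
`c p = g p r + g r p₀`. This does not depend on `r`: if `r'` is another choice take `r''` disjoint from `p, p₀, r, r'`
(`V.card ≥ 10`); `g p r = g p r'' + g r'' r` and `g r p₀ = g r r'' + g r'' p₀`, so `g p r + g r p₀ = g p r'' + g r'' p₀`.
For disjoint `p, u` choose `r` disjoint from `p, u, p₀`:
`c p - c u = g p r - g u r = g p r + g r u = g p u`.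
-/

set_option autoImplicit false

namespace Pool.Agent.OB

/-- a pair disjoint from given small sets -/
theorem Kn_exists {V s : Multiset ℕ} (hV : V.Nodup) (hs : s ≤ V) (hc : s.card + 2 ≤ V.card) :
    ∃ r : Multiset ℕ, r.card = 2 ∧ s + r ≤ V := by
  obtain ⟨t, rfl⟩ := Multiset.le_iff_exists_add.1 hs
  have ht : 2 ≤ t.card := by
    rw [Multiset.card_add] at hc; omega
  obtain ⟨r, hr, hr2⟩ : ∃ r ≤ t, r.card = 2 := by
    have hne : (t.powersetCard 2).card ≠ 0 := by
      rw [Multiset.card_powersetCard]
      exact (Nat.choose_pos ht).ne'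
    obtain ⟨r, hr⟩ := Multiset.card_pos_iff_exists_mem.1 (Nat.pos_of_ne_zero hne)
    exact ⟨r, (Multiset.mem_powersetCard.1 hr).1, (Multiset.mem_powersetCard.1 hr).2⟩
  exact ⟨r, hr2, add_le_add_right hr s⟩

theorem Kn_union_card (s t : Multiset ℕ) : (s ∪ t).card ≤ s.card + t.card := by
  have h := Multiset.card_le_card (Multiset.union_le_add s t)
  rwa [Multiset.card_add] at h

theorem Kn_three {V p r u : Multiset ℕ} (hV : V.Nodup) (h1 : p + r ≤ V) (h2 : (p ∪ r) + u ≤ V) :
    p + r + u ≤ V := by
  have hd : p + r = p ∪ r := by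
    rw [Multiset.add_eq_union_iff_disjoint]
    exact (Multiset.nodup_add.1 (Multiset.nodup_of_le h1 hV)).2.2
  rw [hd]; exact h2

theorem Kn_mono {V s t r : Multiset ℕ} (h : s + r ≤ V) (ht : t ≤ s) : t + r ≤ V :=
  (add_le_add_left ht r).trans h

theorem Kn {R : Type*} [AddCommGroup R] {V : Multiset ℕ} (hV : V.Nodup) (hc : 10 ≤ V.card)
    (g : Multiset ℕ → Multiset ℕ → R)
    (anti : ∀ p r : Multiset ℕ, p.card = 2 → r.card = 2 → p + r ≤ V → g p r = -g r p)
    (tri : ∀ p r u : Multiset ℕ, p.card = 2 → r.card = 2 → u.card = 2 → p + r + u ≤ V →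
      g p r + g r u + g u p = 0) :
    ∃ c : Multiset ℕ → R, ∀ p r : Multiset ℕ, p.card = 2 → r.card = 2 → p + r ≤ V →
      c p - c r = g p r := by
  classical
  obtain ⟨p₀, hp₀, hp₀V⟩ := Kn_exists (s := 0) hV (Multiset.zero_le V) (by simp; omega)
  rw [zero_add] at hp₀V
  -- the key identity
  have key : ∀ p r u : Multiset ℕ, p.card = 2 → r.card = 2 → u.card = 2 → p + r ≤ V → p₀ + r ≤ V →
      (p ∪ p₀ ∪ r) + u ≤ V → g p r + g r p₀ = g p u + g u p₀ := by
    intro p r u hp hr hu h1 h2 h3
    have hpu : p + u ≤ V := Kn_mono h3 (le_trans Multiset.le_union_left Multiset.le_union_left)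
    have hp₀u : p₀ + u ≤ V :=
      Kn_mono h3 (le_trans Multiset.le_union_right Multiset.le_union_left)
    have a1 : p + r + u ≤ V := Kn_three hV h1
      (Kn_mono h3 (Multiset.union_le (le_trans Multiset.le_union_left Multiset.le_union_left)
        Multiset.le_union_right))
    have a2 : p₀ + r + u ≤ V := Kn_three hV h2
      (Kn_mono h3 (Multiset.union_le (le_trans Multiset.le_union_right Multiset.le_union_left)
        Multiset.le_union_right))
    have t1 := tri p r u hp hr hu a1
    have t2 := tri p₀ r u hp₀ hr hu a2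
    have e1 := anti p u hp hu hpu
    have e2 := anti p₀ r hp₀ hr h2
    have e3 := anti u p₀ hu hp₀ (by rw [add_comm]; exact hp₀u)
    -- g p r = g p u - g r u ; g r p₀ = - g p₀ r
    rw [e2] at t2
    rw [e3]
    have t1' : g p r + g r u - g p u = 0 := by
      rw [e1]; rw [sub_neg_eq_add]; exact t1
    have t3 : g p r = g p u - g r u := by
      have := sub_eq_zero.1 t1'
      rw [← this]; abel
    have t4 : g r p₀ = g r u + g u p₀ := by
      have h := t2
      -- -g r p₀ + g r u + g u p₀ = 0
      have : g r p₀ = g r p₀ + (-g r p₀ + g r u + g u p₀) := by rw [h, add_zero]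
      rw [this]; abel
    rw [t3, t4, e3]; abel
  have indep : ∀ p r r' : Multiset ℕ, p.card = 2 → p ≤ V → r.card = 2 → r'.card = 2 →
      (p ∪ p₀) + r ≤ V → (p ∪ p₀) + r' ≤ V → g p r + g r p₀ = g p r' + g r' p₀ := by
    intro p r r' hp hpV hr hr' h h'
    have hrV : r ≤ V := (Multiset.le_add_left r _).trans h
    have hr'V : r' ≤ V := (Multiset.le_add_left r' _).trans h'
    obtain ⟨u, hu, huV⟩ := Kn_exists (s := p ∪ p₀ ∪ (r ∪ r')) hV
      (Multiset.union_le (Multiset.union_le hpV hp₀V) (Multiset.union_le hrV hr'V)) (by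
        have q1 := Kn_union_card (p ∪ p₀) (r ∪ r')
        have q2 := Kn_union_card p p₀
        have q3 := Kn_union_card r r'
        omega)
    rw [key p r u hp hr hu (Kn_mono h Multiset.le_union_left) (Kn_mono h Multiset.le_union_right)
        (Kn_mono huV (Multiset.union_le Multiset.le_union_left
          (le_trans Multiset.le_union_left Multiset.le_union_right))),
      key p r' u hp hr' hu (Kn_mono h' Multiset.le_union_left) (Kn_mono h' Multiset.le_union_right)
        (Kn_mono huV (Multiset.union_le Multiset.le_union_left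
          (le_trans Multiset.le_union_right Multiset.le_union_right)))]
  have ex : ∀ p : Multiset ℕ, p.card = 2 ∧ p ≤ V →
      ∃ r : Multiset ℕ, r.card = 2 ∧ (p ∪ p₀) + r ≤ V := by
    intro p hp
    refine Kn_exists hV (Multiset.union_le hp.2 hp₀V) ?_
    have := Kn_union_card p p₀
    omega
  refine ⟨fun p => if h : p.card = 2 ∧ p ≤ V then
    g p (ex p h).choose + g (ex p h).choose p₀ else 0, ?_⟩
  intro p u hp hu hpu
  have hpV : p ≤ V := (Multiset.le_add_right p u).trans hpu
  have huV : u ≤ V := (Multiset.le_add_left u p).trans hpu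
  have hp' : p.card = 2 ∧ p ≤ V := ⟨hp, hpV⟩
  have hu' : u.card = 2 ∧ u ≤ V := ⟨hu, huV⟩
  simp only [dif_pos hp', dif_pos hu']
  obtain ⟨r, hr, hrV⟩ := Kn_exists (s := p ∪ u ∪ p₀) hV
    (Multiset.union_le (Multiset.union_le hpV huV) hp₀V) (by
      have q1 := Kn_union_card (p ∪ u) p₀
      have q2 := Kn_union_card p u
      omega)
  have sp := (ex p hp').choose_spec
  have su := (ex u hu').choose_spec
  rw [indep p _ r hp hpV sp.1 hr sp.2 (Kn_mono hrV (Multiset.union_le
      (le_trans Multiset.le_union_left Multiset.le_union_left) Multiset.le_union_right)),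
    indep u _ r hu huV su.1 hr su.2 (Kn_mono hrV (Multiset.union_le
      (le_trans Multiset.le_union_right Multiset.le_union_left) Multiset.le_union_right))]
  have hur : u + r ≤ V := Kn_mono hrV (le_trans Multiset.le_union_right Multiset.le_union_left)
  have t := tri p u r hp hu hr (Kn_three hV hpu (Kn_mono hrV Multiset.le_union_left))
  have e1 := anti p r hp hr (Kn_mono hrV (le_trans Multiset.le_union_left Multiset.le_union_left))
  -- g p u + g u r + g r p = 0
  have e2 : g r p = - g p r := by rw [e1, neg_neg]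
  rw [e2] at t
  have : g p u = g p r - g u r := by
    have h : g p u = g p u - (g p u + g u r + -g p r) := by rw [t, sub_zero]
    rw [h]; abel
  rw [this]; abel

end Pool.Agent.OB
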