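import Pool.Agent.OB.Wre
import Pool.Agent.OB.Dec

/-!
# Elements of `WW m` with `sg = 0` are forms, `m.card ≥ 4`  (module L5)

1. `LR (evw F) m ≤ LF F m` (`evw p = sb x0 (ev p)`, `sb0_LF`); `evw F` is a homomorphism to `Fn F` and `Fn F`
   satisfies `Sat F 9`, so the lemmas of the module Dec (`Dec_ass`, `Dec_comcom`, `Dec_word`, `Dec_swap`,
   `Dec_pr_LR`, ...) apply with `ρ = evw F`.
2. `x0 l * tau ∈ LF` and `tau * x0 l ∈ LF` for `tau` = the scalar function `t([x0 i, x0 j] x0 k)`:
   `12 tau d⁰ = lam12 d a b c` (`lam12_oc`, `x0 l` is traceless) and all terms of `lam12` are forms or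
   combinations of forms. And `com (x0 i) (x0 j) * x0 k = 1/2 tau + 1/2 com (com (x0 i) (x0 j)) (x0 k)`
   (`jor_traceless`), so `(com (x0 i) (x0 j) * x0 k) * x0 l ∈ LF`.
3. Every word is, modulo `LR (evw F) m`, a left-normed product of letters (`Dec_word`), and exchanging two
   adjacent letters changes it by `.. com (x_i) (x_j) ..`, which can be moved to the front (`Dec_ass`,
   commutators commute with everything modulo forms); as `m.card ≥ 4` there are at least two other
   letters, so the change is in `LF` by 2. So all words of multidegree `m` have the same value modulo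
   `LF F m`, and `sg` of a combination of words is the sum of the coefficients (`sg_mo`).
-/

set_option autoImplicit false
set_option linter.unusedSectionVars false

namespace Pool.Agent.OB

open FreeNonUnitalNonAssocAlgebra Pool.Agent.H.MP_41922c_al Pool.Agent.Smt

variable {F : Type*} [Field F]

theorem L5_LR (h2 : (2 : F) ≠ 0) (h3 : (3 : F) ≠ 0) {m : Multiset ℕ} (hm : m.Nodup) :
    LR (evw F) m ≤ LF F m := by
  rintro _ ⟨p, hp, rfl⟩
  change evw F p ∈ LF F m
  rw [evw_eq]
  exact (sb0_LF h2 h3 hm (Submodule.mem_map_of_mem (f := (ev F : FA F →ₗ[F] Fn F)) hp)).1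

theorem L5_evw_of (i : ℕ) : evw F (of F i) = x0 F i := lift_of_apply _ _ _

theorem L5_PR (i : ℕ) : x0 F i ∈ PR (evw F) {i} := ⟨of F i, of_mem id i, L5_evw_of i⟩

theorem L5_tt (i : ℕ) (v : ℕ → Oc F) : tt (x0 F i v) = 0 := by
  change tt ((2 : F)⁻¹ • (v i - star (v i))) = 0
  rw [tt_smul, Oct_tt_sub, tt_star, sub_self, mul_zero]

theorem L5_24 (a b c d : Oc F) (hc : tt c = 0) (hd : tt d = 0) :
    24 • ((com a b * c) * d) = lam12 d a b c - 12 • (com c (com a b) * d) := by
  rw [lam12_oc, hd, mul_zero, zero_smul, sub_zero]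
  have h := jor_traceless (com a b) c (tt_com a b) hc
  generalize com a b = v at h ⊢
  have h1 : tt (v * c) • d = (v * c) * d + (c * v) * d := by
    rw [← add_mul]
    change _ = jor v c * d
    rw [h, smul_mul_assoc, one_mul]
  have h4 : com c v * d = (c * v) * d - (v * c) * d := by
    rw [com, sub_mul]
  rw [smul_comm, h1, h4]
  generalize v * c * d = x
  generalize c * v * d = y
  rw [smul_add, smul_sub, show (24 : ℕ) = 12 + 12 from rfl, add_smul]
  abel

theorem L5_fourR (h2 : (2 : F) ≠ 0) (h3 : (3 : F) ≠ 0) (i j k l : ℕ) :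
    (com (x0 F i) (x0 F j) * x0 F k) * x0 F l ∈ LR (evw F) ({i} + {j} + {k} + {l}) := by
  have hR : Sat F 9 (Fn F) := sat_Fn 9
  have h24 : ((24 : ℕ) : F) ≠ 0 := by
    have : ((24 : ℕ) : F) = 2 * 2 * 2 * 3 := by norm_num
    rw [this]
    exact mul_ne_zero (mul_ne_zero (mul_ne_zero h2 h2) h2) h3
  refine Gen_div h24 ?_
  have e : 24 • ((com (x0 F i) (x0 F j) * x0 F k) * x0 F l) =
      lam12 (x0 F l) (x0 F i) (x0 F j) (x0 F k) -
        12 • (com (x0 F k) (com (x0 F i) (x0 F j)) * x0 F l) :=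
    funext fun v => L5_24 (x0 F i v) (x0 F j v) (x0 F k v) (x0 F l v) (L5_tt k v) (L5_tt l v)
  rw [e]
  exact sub_mem (RealL_lam h2 h3 hR (L5_PR l) (L5_PR i) (L5_PR j) (L5_PR k) (by abel))
    (nsmul_mem (RealL_R h2 h3 hR (L5_PR l) (Gen_1 (L5_PR k) (L5_PR i) (L5_PR j) rfl) (by abel)) _)

theorem L5_four (h2 : (2 : F) ≠ 0) (h3 : (3 : F) ≠ 0) {i j k l : ℕ}
    (hm : ({i} + {j} + {k} + {l} : Multiset ℕ).Nodup) :
    (com (x0 F i) (x0 F j) * x0 F k) * x0 F l ∈ LF F ({i} + {j} + {k} + {l}) :=
  L5_LR h2 h3 hm (L5_fourR h2 h3 i j k l)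

theorem L5_E (h2 : (2 : F) ≠ 0) (h3 : (3 : F) ≠ 0) {m : Multiset ℕ} (hc : 4 ≤ m.card)
    {i j : ℕ} (hi : i ∈ m) (hj : j ∈ m.erase i) :
    evw F (Dec_E F m i j) ∈ LR (evw F) m := by
  have hR : Sat F 9 (Fn F) := sat_Fn 9
  have hl : 2 ≤ ((m.erase i).erase j).toList.length := by
    rw [Multiset.length_toList, Multiset.card_erase_of_mem hj, Multiset.card_erase_of_mem hi]
    change 2 ≤ m.card - 1 - 1
    omega
  have hL : {i} + {j} + (((m.erase i).erase j).toList : Multiset ℕ) = m := by
    rw [Multiset.coe_toList, add_assoc, Multiset.singleton_add, Multiset.singleton_add,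
      Multiset.cons_erase hj, Multiset.cons_erase hi]
  unfold Dec_E
  generalize ((m.erase i).erase j).toList = L at hl hL ⊢
  match L, hl, hL with
  | [], hl, _ => exact absurd hl (by decide)
  | [_], hl, _ => exact absurd hl (by simp)
  | k :: l :: t, _, hL =>
    rw [← Dec_cons, ← Dec_cons] at hL
    rw [← hL]
    change evw F (Dec_pr F t (com (of F i) (of F j) * of F k * of F l)) ∈ _
    refine Dec_pr_LR (evw F) h2 h3 hR t ?_
    rw [map_mul, map_mul, Dec_rcom, L5_evw_of, L5_evw_of, L5_evw_of, L5_evw_of]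
    exact L5_fourR h2 h3 i j k l

theorem L5_D (h2 : (2 : F) ≠ 0) (h3 : (3 : F) ≠ 0) {m : Multiset ℕ} (hc : 4 ≤ m.card)
    (L : List ℕ) : Dec_D (evw F) m L = 0 := by
  unfold Dec_D
  refine Finset.sum_eq_zero fun i hi => Finset.sum_eq_zero fun j hj => ?_
  have h0 : Dec_e (evw F) m i j = 0 := by
    by_cases hij : i = j
    · subst hij
      have h4 := Dec_e_anti (evw F) m i i
      have h5 : (2 : F) • Dec_e (evw F) m i i = 0 := by
        rw [two_smul]
        nth_rewrite 1 [h4]
        exact neg_add_cancel _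
      exact (smul_eq_zero.1 h5).resolve_left h2
    · exact (Dec_q_zero (evw F)).2 (L5_E h2 h3 hc (Multiset.mem_toFinset.1 hi)
        ((Multiset.mem_erase_of_ne (Ne.symm hij)).2 (Multiset.mem_toFinset.1 hj)))
  rw [h0, smul_zero]

theorem L5_wordR (h2 : (2 : F) ≠ 0) (h3 : (3 : F) ≠ 0) {u v : FreeMagma ℕ}
    (hc : 4 ≤ (lets id u).card) (e : lets id u = lets id v) :
    evw F (mo F u - mo F v) ∈ LR (evw F) (lets id u) := by
  have hR : Sat F 9 (Fn F) := sat_Fn 9
  have h := Dec_words (evw F) h2 h3 hR (m := lets id u) (w := u) (w' := v) rfl e.symm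
  rw [L5_D h2 h3 hc, L5_D h2 h3 hc, add_zero, add_zero] at h
  have h4 : Dec_q (evw F) (lets id u) (mo F u - mo F v) = 0 := by
    rw [map_sub, sub_eq_zero]
    exact smul_right_injective _ h2 h
  exact (Dec_q_zero (evw F)).1 h4

theorem L5_word (h2 : (2 : F) ≠ 0) (h3 : (3 : F) ≠ 0) {u v : FreeMagma ℕ}
    (hm : (lets id u).Nodup) (hc : 4 ≤ (lets id u).card) (e : lets id u = lets id v) :
    evw F (mo F u) - evw F (mo F v) ∈ LF F (lets id u) := by
  rw [← map_sub]
  exact L5_LR h2 h3 hm (L5_wordR h2 h3 hc e)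

theorem L5 (h2 : (2 : F) ≠ 0) (h3 : (3 : F) ≠ 0) {m : Multiset ℕ} (hm : m.Nodup)
    (hc : 4 ≤ m.card) {w : Fn F} (hw : w ∈ WW F m) (hs : sg F w = 0) : w ∈ LF F m := by
  obtain ⟨p, hp, rfl⟩ := hw
  change sg F (evw F p) = 0 at hs
  change evw F p ∈ LF F m
  by_cases hu : ∃ u : FreeMagma ℕ, lets id u = m
  · obtain ⟨u, hu⟩ := hu
    have key : evw F p - sg F (evw F p) • evw F (mo F u) ∈ LF F m := by
      refine PP_induction id
        (p := fun p => evw F p - sg F (evw F p) • evw F (mo F u) ∈ LF F m) ?_ ?_ ?_ ?_ hp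
      · rw [map_zero, map_zero, zero_smul, sub_zero]
        exact zero_mem _
      · intro f g hf hg
        have e : evw F (f + g) - sg F (evw F (f + g)) • evw F (mo F u) =
            (evw F f - sg F (evw F f) • evw F (mo F u)) +
              (evw F g - sg F (evw F g) • evw F (mo F u)) := by
          rw [map_add, map_add, add_smul]
          abel
        rw [e]
        exact add_mem hf hg
      · intro k f hf
        have e : evw F (k • f) - sg F (evw F (k • f)) • evw F (mo F u) =
            k • (evw F f - sg F (evw F f) • evw F (mo F u)) := by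
          rw [map_smul, map_smul, smul_sub, smul_eq_mul, mul_smul]
        rw [e]
        exact Submodule.smul_mem _ _ hf
      · intro v hv
        rw [sg_mo h2, one_smul]
        have h := L5_word h2 h3 (u := v) (v := u) (by rw [hv]; exact hm) (by rw [hv]; exact hc)
          (by rw [hv, hu])
        rwa [hv] at h
    rw [hs, zero_smul, sub_zero] at key
    exact key
  · have h0 : p = 0 := by
      refine PP_induction id (p := fun g => g = 0) rfl ?_ ?_ ?_ hp
      · intro f g hf hg; rw [hf, hg, add_zero]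
      · intro k f hf; rw [hf, smul_zero]
      · intro w h; exact absurd ⟨w, h⟩ hu
    rw [h0, map_zero]
    exact zero_mem _

end Pool.Agent.OB
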