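import Pool.Agent.OB.Ids

/-!
# The ideal of the forms  (module LR)

`R` satisfies all multilinear identities of `O` of degree at most 9, `ρ : F{X} → R` a homomorphism.
`LR ρ m` is the image of the span of the forms of multidegree `m`.

1. Forms of elements: `com a (com b c) ∈ LR` for `a, b, c` in `PR` (multilinearity in `a, b, c`).
2. Products (`LR_mul_left`, `LR_mul_right`): `u (r [a, w]) = (u r)[a, w] - (u, r, [a, w])` with
   `w = [b, c]`, and `6 (u, r, v) = [[u, r], v] + [[r, v], u] + [[v, u], r]` for the commutator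
   `v = [a, w]`: these are forms F1 (`-[v, [u, r]]`, `-[u, [r, v]]`, `-[r, [v, u]]`).
   `[a, w] u = u [a, w] - [u, [a, w]]`. The forms F3 commute and associate with everything.
-/

set_option autoImplicit false
set_option linter.unusedSectionVars false

namespace Pool.Agent.OB

open FreeNonUnitalNonAssocAlgebra Pool.Agent.H.MP_41922c_al Pool.Agent.Smt

variable {F : Type*} [Field F] {R : Type*} [NonUnitalNonAssocRing R] [Module F R]
  [IsScalarTower F R R] [SMulCommClass F R R] (ρ : FA F →ₙₐ[F] R)

private theorem lr_com {m m' : Multiset ℕ} {f g : FA F} (hf : f ∈ P F m) (hg : g ∈ P F m') :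
    com f g ∈ P F (m + m') := by
  have h1 := PP_mul id hf hg
  have h2 := PP_mul id hg hf
  rw [add_comm m' m] at h2
  exact Submodule.sub_mem _ h1 h2

private theorem lr_jor {m m' : Multiset ℕ} {f g : FA F} (hf : f ∈ P F m) (hg : g ∈ P F m') :
    jor f g ∈ P F (m + m') := by
  have h1 := PP_mul id hf hg
  have h2 := PP_mul id hg hf
  rw [add_comm m' m] at h2
  exact Submodule.add_mem _ h1 h2

private theorem lr_F1P {a b c : FA F} {m₁ m₂ m₃ : Multiset ℕ} (ha : a ∈ P F m₁) (hb : b ∈ P F m₂)
    (hc : c ∈ P F m₃) : F1 a b c ∈ P F (m₁ + m₂ + m₃) := by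
  rw [add_assoc]
  exact lr_com ha (lr_com hb hc)

private theorem lr_F3P {a b c d : FA F} {m₁ m₂ m₃ m₄ : Multiset ℕ} (ha : a ∈ P F m₁)
    (hb : b ∈ P F m₂) (hc : c ∈ P F m₃) (hd : d ∈ P F m₄) :
    F3 a b c d ∈ P F (m₁ + m₂ + m₃ + m₄) := by
  rw [add_assoc (m₁ + m₂)]
  exact lr_jor (lr_com ha hb) (lr_com hc hd)

theorem LP_le (m : Multiset ℕ) : LP F m ≤ P F m := by
  refine Submodule.span_le.2 ?_
  rintro f hf
  have hmo : ∀ w : FreeMagma ℕ, mo F w ∈ P F (lets id w) := fun w => mo_mem id w
  cases hf with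
  | f1 a b c => exact lr_F1P (hmo a) (hmo b) (hmo c)
  | f2 r a b c =>
    have h := PP_mul id (hmo r) (lr_F1P (hmo a) (hmo b) (hmo c))
    have e : lets id r + lets id a + lets id b + lets id c =
        lets id r + (lets id a + lets id b + lets id c) := by simp only [add_assoc]
    rw [e]
    exact h
  | f3 a b c d => exact lr_F3P (hmo a) (hmo b) (hmo c) (hmo d)
  | f4 r a b c d =>
    have h := PP_mul id (hmo r) (lr_F3P (hmo a) (hmo b) (hmo c) (hmo d))
    have e : lets id r + lets id a + lets id b + lets id c + lets id d =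
        lets id r + (lets id a + lets id b + lets id c + lets id d) := by simp only [add_assoc]
    rw [e]
    exact h

section lin

variable {A : Type*} [NonUnitalNonAssocRing A] [Module F A] [IsScalarTower F A A]
  [SMulCommClass F A A]

private theorem lr_com_add (a b c : A) : com (a + b) c = com a c + com b c := by
  simp only [com, mul_add, add_mul]; abel

private theorem lr_add_com (a b c : A) : com a (b + c) = com a b + com a c := by
  simp only [com, mul_add, add_mul]; abel

private theorem lr_com_smul (k : F) (a c : A) : com (k • a) c = k • com a c := by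
  simp only [com, smul_mul_assoc, mul_smul_comm, smul_sub]

private theorem lr_smul_com (k : F) (a c : A) : com a (k • c) = k • com a c := by
  simp only [com, smul_mul_assoc, mul_smul_comm, smul_sub]

private theorem lr_zero_com (a : A) : com 0 a = 0 := by simp [com]

private theorem lr_com_zero (a : A) : com a 0 = 0 := by simp [com]

private theorem lr_jor_add (a b c : A) : jor (a + b) c = jor a c + jor b c := by
  simp only [jor, mul_add, add_mul]; abel

private theorem lr_add_jor (a b c : A) : jor a (b + c) = jor a b + jor a c := by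
  simp only [jor, mul_add, add_mul]; abel

private theorem lr_jor_smul (k : F) (a c : A) : jor (k • a) c = k • jor a c := by
  simp only [jor, smul_mul_assoc, mul_smul_comm, smul_add]

private theorem lr_smul_jor (k : F) (a c : A) : jor a (k • c) = k • jor a c := by
  simp only [jor, smul_mul_assoc, mul_smul_comm, smul_add]

private theorem lr_zero_jor (a : A) : jor 0 a = 0 := by simp [jor]

private theorem lr_jor_zero (a : A) : jor a 0 = 0 := by simp [jor]

end lin

/-- a linear map which sends the words of multidegree `m` to `L` sends `P F m` to `L` -/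
private theorem lr_ext {m : Multiset ℕ} {L : Submodule F (FA F)} (T : FA F → FA F)
    (hz : T 0 = 0) (ha : ∀ x y, T (x + y) = T x + T y) (hs : ∀ (k : F) x, T (k • x) = k • T x)
    (hw : ∀ w, lets id w = m → T (mo F w) ∈ L) {f : FA F} (hf : f ∈ P F m) : T f ∈ L := by
  refine PP_induction id (p := fun f => T f ∈ L) ?_ ?_ ?_ hw hf
  · simp only [hz]; exact L.zero_mem
  · intro f g h1 h2; simp only [ha]; exact L.add_mem h1 h2
  · intro k f h1; simp only [hs]; exact L.smul_mem k h1

theorem LP_F1 {a b c : FA F} {m₁ m₂ m₃ : Multiset ℕ} (ha : a ∈ P F m₁) (hb : b ∈ P F m₂)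
    (hc : c ∈ P F m₃) : F1 a b c ∈ LP F (m₁ + m₂ + m₃) := by
  refine lr_ext (fun a => F1 a b c) (by simp only [F1, lr_zero_com])
    (fun x y => by simp only [F1, lr_com_add]) (fun k x => by simp only [F1, lr_com_smul]) ?_ ha
  rintro u rfl
  refine lr_ext (fun b => F1 (mo F u) b c) (by simp only [F1, lr_zero_com, lr_com_zero])
    (fun x y => by simp only [F1, lr_com_add, lr_add_com])
    (fun k x => by simp only [F1, lr_com_smul, lr_smul_com]) ?_ hb
  rintro v rfl
  refine lr_ext (fun c => F1 (mo F u) (mo F v) c) (by simp only [F1, lr_com_zero])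
    (fun x y => by simp only [F1, lr_add_com]) (fun k x => by simp only [F1, lr_smul_com]) ?_ hc
  rintro w rfl
  exact Submodule.subset_span (IsForm.f1 u v w)

theorem LP_F2 {r a b c : FA F} {m₀ m₁ m₂ m₃ : Multiset ℕ} (hr : r ∈ P F m₀) (ha : a ∈ P F m₁)
    (hb : b ∈ P F m₂) (hc : c ∈ P F m₃) : F2 r a b c ∈ LP F (m₀ + m₁ + m₂ + m₃) := by
  refine lr_ext (fun r => F2 r a b c) (by simp only [F2, zero_mul])
    (fun x y => by simp only [F2, add_mul]) (fun k x => by simp only [F2, smul_mul_assoc]) ?_ hr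
  rintro t rfl
  refine lr_ext (fun a => F2 (mo F t) a b c) (by simp only [F2, F1, lr_zero_com, mul_zero])
    (fun x y => by simp only [F2, F1, lr_com_add, mul_add])
    (fun k x => by simp only [F2, F1, lr_com_smul, mul_smul_comm]) ?_ ha
  rintro u rfl
  refine lr_ext (fun b => F2 (mo F t) (mo F u) b c)
    (by simp only [F2, F1, lr_zero_com, lr_com_zero, mul_zero])
    (fun x y => by simp only [F2, F1, lr_com_add, lr_add_com, mul_add])
    (fun k x => by simp only [F2, F1, lr_com_smul, lr_smul_com, mul_smul_comm]) ?_ hb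
  rintro v rfl
  refine lr_ext (fun c => F2 (mo F t) (mo F u) (mo F v) c)
    (by simp only [F2, F1, lr_com_zero, mul_zero])
    (fun x y => by simp only [F2, F1, lr_add_com, mul_add])
    (fun k x => by simp only [F2, F1, lr_smul_com, mul_smul_comm]) ?_ hc
  rintro w rfl
  exact Submodule.subset_span (IsForm.f2 t u v w)

theorem LP_F3 {a b c d : FA F} {m₁ m₂ m₃ m₄ : Multiset ℕ} (ha : a ∈ P F m₁) (hb : b ∈ P F m₂)
    (hc : c ∈ P F m₃) (hd : d ∈ P F m₄) : F3 a b c d ∈ LP F (m₁ + m₂ + m₃ + m₄) := by
  refine lr_ext (fun a => F3 a b c d) (by simp only [F3, lr_zero_com, lr_zero_jor])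
    (fun x y => by simp only [F3, lr_com_add, lr_jor_add])
    (fun k x => by simp only [F3, lr_com_smul, lr_jor_smul]) ?_ ha
  rintro t rfl
  refine lr_ext (fun b => F3 (mo F t) b c d) (by simp only [F3, lr_com_zero, lr_zero_jor])
    (fun x y => by simp only [F3, lr_add_com, lr_jor_add])
    (fun k x => by simp only [F3, lr_smul_com, lr_jor_smul]) ?_ hb
  rintro u rfl
  refine lr_ext (fun c => F3 (mo F t) (mo F u) c d)
    (by simp only [F3, lr_zero_com, lr_jor_zero])
    (fun x y => by simp only [F3, lr_com_add, lr_add_jor])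
    (fun k x => by simp only [F3, lr_com_smul, lr_smul_jor]) ?_ hc
  rintro v rfl
  refine lr_ext (fun d => F3 (mo F t) (mo F u) (mo F v) d)
    (by simp only [F3, lr_com_zero, lr_jor_zero])
    (fun x y => by simp only [F3, lr_add_com, lr_add_jor])
    (fun k x => by simp only [F3, lr_smul_com, lr_smul_jor]) ?_ hd
  rintro w rfl
  exact Submodule.subset_span (IsForm.f3 t u v w)

theorem LP_F4 {r a b c d : FA F} {m₀ m₁ m₂ m₃ m₄ : Multiset ℕ} (hr : r ∈ P F m₀)
    (ha : a ∈ P F m₁) (hb : b ∈ P F m₂) (hc : c ∈ P F m₃) (hd : d ∈ P F m₄) :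
    F4 r a b c d ∈ LP F (m₀ + m₁ + m₂ + m₃ + m₄) := by
  refine lr_ext (fun r => F4 r a b c d) (by simp only [F4, zero_mul])
    (fun x y => by simp only [F4, add_mul]) (fun k x => by simp only [F4, smul_mul_assoc]) ?_ hr
  rintro s rfl
  refine lr_ext (fun a => F4 (mo F s) a b c d)
    (by simp only [F4, F3, lr_zero_com, lr_zero_jor, mul_zero])
    (fun x y => by simp only [F4, F3, lr_com_add, lr_jor_add, mul_add])
    (fun k x => by simp only [F4, F3, lr_com_smul, lr_jor_smul, mul_smul_comm]) ?_ ha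
  rintro t rfl
  refine lr_ext (fun b => F4 (mo F s) (mo F t) b c d)
    (by simp only [F4, F3, lr_com_zero, lr_zero_jor, mul_zero])
    (fun x y => by simp only [F4, F3, lr_add_com, lr_jor_add, mul_add])
    (fun k x => by simp only [F4, F3, lr_smul_com, lr_jor_smul, mul_smul_comm]) ?_ hb
  rintro u rfl
  refine lr_ext (fun c => F4 (mo F s) (mo F t) (mo F u) c d)
    (by simp only [F4, F3, lr_zero_com, lr_jor_zero, mul_zero])
    (fun x y => by simp only [F4, F3, lr_com_add, lr_add_jor, mul_add])
    (fun k x => by simp only [F4, F3, lr_com_smul, lr_smul_jor, mul_smul_comm]) ?_ hc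
  rintro v rfl
  refine lr_ext (fun d => F4 (mo F s) (mo F t) (mo F u) (mo F v) d)
    (by simp only [F4, F3, lr_com_zero, lr_jor_zero, mul_zero])
    (fun x y => by simp only [F4, F3, lr_add_com, lr_add_jor, mul_add])
    (fun k x => by simp only [F4, F3, lr_smul_com, lr_smul_jor, mul_smul_comm]) ?_ hd
  rintro w rfl
  exact Submodule.subset_span (IsForm.f4 s t u v w)

/-- transport of membership in `LP` to `LR` -/
private theorem lr_mem {m m' : Multiset ℕ} {f : FA F} (h : f ∈ LP F m') (hm : m' = m) :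
    ρ f ∈ LR ρ m := by
  subst hm
  exact Submodule.mem_map_of_mem (f := (ρ : FA F →ₗ[F] R)) h

private theorem lr_rcom (a b : FA F) : ρ (com a b) = com (ρ a) (ρ b) := by
  simp only [com, map_sub, map_mul]

private theorem lr_rjor (a b : FA F) : ρ (jor a b) = jor (ρ a) (ρ b) := by
  simp only [jor, map_add, map_mul]

private theorem lr_F1r {a b c : FA F} {m m₁ m₂ m₃ : Multiset ℕ} (ha : a ∈ P F m₁)
    (hb : b ∈ P F m₂) (hc : c ∈ P F m₃) (hm : m₁ + m₂ + m₃ = m) :
    com (ρ a) (com (ρ b) (ρ c)) ∈ LR ρ m := by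
  have h := lr_mem ρ (LP_F1 ha hb hc) hm
  rwa [F1, lr_rcom, lr_rcom] at h

/-- the associator with a form `v = ρ f` -/
private theorem lr_assoc (h2 : (2 : F) ≠ 0) (h3 : (3 : F) ≠ 0) (hR : Sat F 9 R)
    {m m₁ m₂ m₃ : Multiset ℕ} {a b c : FA F} (ha : a ∈ P F m₁) (hb : b ∈ P F m₂) (hc : c ∈ P F m₃)
    (hm : m₁ + m₂ + m₃ = m) : associator (ρ a) (ρ b) (ρ c) ∈ LR ρ m := by
  have e1 : m₃ + m₁ + m₂ = m := by rw [← hm]; abel
  have e2 : m₂ + m₃ + m₁ = m := by rw [← hm]; abel
  have h1 := lr_F1r ρ ha hb hc hm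
  have h2' := lr_F1r ρ hc ha hb e1
  have h3' := lr_F1r ρ hb hc ha e2
  have h6 : (6 : F) ≠ 0 := by
    have : (6 : F) = 2 * 3 := by norm_num
    rw [this]; exact mul_ne_zero h2 h3
  have key : (6 : F) • associator (ρ a) (ρ b) (ρ c) ∈ LR ρ m := by
    have e6 : (6 : F) • associator (ρ a) (ρ b) (ρ c) =
        6 • associator (ρ a) (ρ b) (ρ c) := by
      rw [show (6 : F) = ((6 : ℕ) : F) by norm_num, Nat.cast_smul_eq_nsmul]
    rw [e6, six_R hR]
    have c1 : ∀ x y z : R, com (com x y) z = -com z (com x y) := by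
      intro x y z; simp only [com]; abel
    rw [c1 (ρ a), c1 (ρ b), c1 (ρ c)]
    exact Submodule.add_mem _ (Submodule.add_mem _ (Submodule.neg_mem _ h2')
      (Submodule.neg_mem _ h1)) (Submodule.neg_mem _ h3')
  have := Submodule.smul_mem _ (6 : F)⁻¹ key
  rwa [smul_smul, inv_mul_cancel₀ h6, one_smul] at this

theorem LR_mul_left (h2 : (2 : F) ≠ 0) (h3 : (3 : F) ≠ 0) (hR : Sat F 9 R) {m m' : Multiset ℕ}
    {a : FA F} (ha : a ∈ P F m) {l : R} (hl : l ∈ LR ρ m') : ρ a * l ∈ LR ρ (m + m') := by
  obtain ⟨f, hf, rfl⟩ := Submodule.mem_map.1 hl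
  change ρ a * ρ f ∈ LR ρ (m + m')
  have hmo : ∀ w : FreeMagma ℕ, mo F w ∈ P F (lets id w) := fun w => mo_mem id w
  refine Submodule.span_induction (p := fun f _ => ρ a * ρ f ∈ LR ρ (m + m')) ?_ ?_ ?_ ?_ hf
  · intro f hf
    cases hf with
    | f1 x b c =>
      rw [← map_mul]
      exact lr_mem ρ (LP_F2 ha (hmo x) (hmo b) (hmo c)) (by simp only [add_assoc])
    | f2 r x b c =>
      have h1 := lr_mem ρ (m := m + (lets id r + lets id x + lets id b + lets id c))
        (LP_F2 (PP_mul id ha (hmo r)) (hmo x) (hmo b) (hmo c)) (by simp only [add_assoc])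
      have h2' := lr_assoc ρ h2 h3 hR (m := m + (lets id r + lets id x + lets id b + lets id c))
        ha (hmo r) (lr_F1P (hmo x) (hmo b) (hmo c)) (by simp only [add_assoc])
      have e : ρ a * ρ (F2 (mo F r) (mo F x) (mo F b) (mo F c)) =
          ρ (F2 (a * mo F r) (mo F x) (mo F b) (mo F c)) -
            associator (ρ a) (ρ (mo F r)) (ρ (F1 (mo F x) (mo F b) (mo F c))) := by
        simp only [F2, map_mul, associator]; abel
      rw [e]
      exact Submodule.sub_mem _ h1 h2'
    | f3 x b c d =>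
      rw [← map_mul]
      exact lr_mem ρ (LP_F4 ha (hmo x) (hmo b) (hmo c) (hmo d)) (by simp only [add_assoc])
    | f4 r x b c d =>
      have h1 := lr_mem ρ
        (m := m + (lets id r + lets id x + lets id b + lets id c + lets id d))
        (LP_F4 (PP_mul id ha (hmo r)) (hmo x) (hmo b) (hmo c) (hmo d)) (by simp only [add_assoc])
      have e3 : ρ (F3 (mo F x) (mo F b) (mo F c) (mo F d)) =
          F3 (ρ (mo F x)) (ρ (mo F b)) (ρ (mo F c)) (ρ (mo F d)) := by
        simp only [F3, lr_rjor, lr_rcom]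
      have h0 := (f3_assoc_R hR (ρ (mo F x)) (ρ (mo F b)) (ρ (mo F c)) (ρ (mo F d)) (ρ a)
        (ρ (mo F r))).2.2
      rw [← e3] at h0
      have e : ρ a * ρ (F4 (mo F r) (mo F x) (mo F b) (mo F c) (mo F d)) =
          ρ (F4 (a * mo F r) (mo F x) (mo F b) (mo F c) (mo F d)) -
            associator (ρ a) (ρ (mo F r)) (ρ (F3 (mo F x) (mo F b) (mo F c) (mo F d))) := by
        simp only [F4, map_mul, associator]; abel
      rw [e, h0, sub_zero]
      exact h1
  · rw [map_zero, mul_zero]; exact Submodule.zero_mem _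
  · intro x y _ _ hx hy
    rw [map_add, mul_add]; exact Submodule.add_mem _ hx hy
  · intro k x _ hx
    rw [map_smul, mul_smul_comm]; exact Submodule.smul_mem _ k hx

theorem LR_mul_right (h2 : (2 : F) ≠ 0) (h3 : (3 : F) ≠ 0) (hR : Sat F 9 R) {m m' : Multiset ℕ}
    {a : FA F} (ha : a ∈ P F m) {l : R} (hl : l ∈ LR ρ m') : l * ρ a ∈ LR ρ (m + m') := by
  obtain ⟨f, hf, rfl⟩ := Submodule.mem_map.1 hl
  change ρ f * ρ a ∈ LR ρ (m + m')
  have hmo : ∀ w : FreeMagma ℕ, mo F w ∈ P F (lets id w) := fun w => mo_mem id w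
  refine Submodule.span_induction (p := fun f _ => ρ f * ρ a ∈ LR ρ (m + m')) ?_ ?_ ?_ ?_ hf
  · intro f hf
    cases hf with
    | f1 x b c =>
      have h1 := lr_mem ρ (m := m + (lets id x + lets id b + lets id c))
        (LP_F2 ha (hmo x) (hmo b) (hmo c)) (by simp only [add_assoc])
      have h2' := lr_F1r ρ (m := m + (lets id x + lets id b + lets id c)) ha (hmo x)
        (lr_com (hmo b) (hmo c)) (by simp only [add_assoc])
      have e : ρ (F1 (mo F x) (mo F b) (mo F c)) * ρ a =
          ρ (F2 a (mo F x) (mo F b) (mo F c)) -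
            com (ρ a) (com (ρ (mo F x)) (ρ (com (mo F b) (mo F c)))) := by
        simp only [F2, F1, map_mul, lr_rcom]
        simp only [com]; abel
      rw [e]
      exact Submodule.sub_mem _ h1 h2'
    | f2 r x b c =>
      have hF := lr_F1P (F := F) (hmo x) (hmo b) (hmo c)
      -- `r (u v)`
      have h0 := lr_mem ρ (m := m + (lets id x + lets id b + lets id c))
        (LP_F2 ha (hmo x) (hmo b) (hmo c)) (by simp only [add_assoc])
      have h1 := LR_mul_left ρ h2 h3 hR (hmo r) h0
      have eM : lets id r + (m + (lets id x + lets id b + lets id c)) =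
          m + (lets id r + lets id x + lets id b + lets id c) := by
        simp only [add_assoc, add_left_comm]
      rw [eM] at h1
      -- `r [u, v]`
      have h4 := lr_mem ρ (m := m + (lets id r + lets id x + lets id b + lets id c))
        (LP_F2 (hmo r) ha (hmo x) (lr_com (hmo b) (hmo c)))
        (by simp only [add_assoc, add_left_comm])
      -- `(r, v, u)`
      have h5 := lr_assoc ρ h2 h3 hR (m := m + (lets id r + lets id x + lets id b + lets id c))
        (hmo r) hF ha (by simp only [add_assoc, add_comm])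
      have e : ρ (F2 (mo F r) (mo F x) (mo F b) (mo F c)) * ρ a =
          ρ (mo F r) * ρ (F2 a (mo F x) (mo F b) (mo F c)) -
            ρ (F2 (mo F r) a (mo F x) (com (mo F b) (mo F c))) +
            associator (ρ (mo F r)) (ρ (F1 (mo F x) (mo F b) (mo F c))) (ρ a) := by
        have e1 : ρ (F2 (mo F r) (mo F x) (mo F b) (mo F c)) =
            ρ (mo F r) * ρ (F1 (mo F x) (mo F b) (mo F c)) := by simp only [F2, map_mul]
        have e2 : ρ (F2 a (mo F x) (mo F b) (mo F c)) =
            ρ a * ρ (F1 (mo F x) (mo F b) (mo F c)) := by simp only [F2, map_mul]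
        have e3 : ρ (F2 (mo F r) a (mo F x) (com (mo F b) (mo F c))) =
            ρ (mo F r) * com (ρ a) (ρ (F1 (mo F x) (mo F b) (mo F c))) := by
          simp only [F2, F1, map_mul, lr_rcom]
        rw [e1, e2, e3]
        simp only [associator, com, mul_sub]; abel
      rw [e]
      exact Submodule.add_mem _ (Submodule.sub_mem _ h1 h4) h5
    | f3 x b c d =>
      have e3 : ρ (F3 (mo F x) (mo F b) (mo F c) (mo F d)) =
          F3 (ρ (mo F x)) (ρ (mo F b)) (ρ (mo F c)) (ρ (mo F d)) := by
        simp only [F3, lr_rjor, lr_rcom]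
      have h0 := f3_comm_R hR (ρ (mo F x)) (ρ (mo F b)) (ρ (mo F c)) (ρ (mo F d)) (ρ a)
      rw [← e3] at h0
      rw [h0, ← map_mul]
      exact lr_mem ρ (LP_F4 ha (hmo x) (hmo b) (hmo c) (hmo d)) (by simp only [add_assoc])
    | f4 r x b c d =>
      have e3 : ρ (F3 (mo F x) (mo F b) (mo F c) (mo F d)) =
          F3 (ρ (mo F x)) (ρ (mo F b)) (ρ (mo F c)) (ρ (mo F d)) := by
        simp only [F3, lr_rjor, lr_rcom]
      have h0 := f3_comm_R hR (ρ (mo F x)) (ρ (mo F b)) (ρ (mo F c)) (ρ (mo F d)) (ρ a)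
      rw [← e3] at h0
      have h0' := (f3_assoc_R hR (ρ (mo F x)) (ρ (mo F b)) (ρ (mo F c)) (ρ (mo F d))
        (ρ (mo F r)) (ρ a)).2.1
      rw [← e3] at h0'
      have h1 := lr_mem ρ (m := m + (lets id x + lets id b + lets id c + lets id d))
        (LP_F4 ha (hmo x) (hmo b) (hmo c) (hmo d)) (by simp only [add_assoc])
      have h4 := LR_mul_left ρ h2 h3 hR (hmo r) h1
      have eM : lets id r + (m + (lets id x + lets id b + lets id c + lets id d)) =
          m + (lets id r + lets id x + lets id b + lets id c + lets id d) := by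
        simp only [add_assoc, add_left_comm]
      rw [eM] at h4
      have e : ρ (F4 (mo F r) (mo F x) (mo F b) (mo F c) (mo F d)) * ρ a =
          ρ (mo F r) * ρ (F4 a (mo F x) (mo F b) (mo F c) (mo F d)) := by
        have e1 : ρ (F4 (mo F r) (mo F x) (mo F b) (mo F c) (mo F d)) =
            ρ (mo F r) * ρ (F3 (mo F x) (mo F b) (mo F c) (mo F d)) := by
          simp only [F4, map_mul]
        have e2 : ρ (F4 a (mo F x) (mo F b) (mo F c) (mo F d)) =
            ρ a * ρ (F3 (mo F x) (mo F b) (mo F c) (mo F d)) := by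
          simp only [F4, map_mul]
        rw [e1, e2, ← h0]
        have := h0'
        rw [associator, sub_eq_zero] at this
        exact this
      rw [e]
      exact h4
  · rw [map_zero, zero_mul]; exact Submodule.zero_mem _
  · intro x y _ _ hx hy
    rw [map_add, add_mul]; exact Submodule.add_mem _ hx hy
  · intro k x _ hx
    rw [map_smul, smul_mul_assoc]; exact Submodule.smul_mem _ k hx

end Pool.Agent.OB
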