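import Pool.Agent.OB.Kill

/-!
# Lifting of traceless zeros to multilinear traceless zeros  (module LiftW)

`ren ρ` renames the variables. `KLW` is the space of all `g` such that every component of `g` has, for
every `V` and `ρ`, a lift `g₂ ∈ P V` (`ren ρ g₂ = comp (V.map ρ) g`) which is zero at traceless elements.

`lift_word`: induction on the word with `split_map`. `KLW_laws`: ideal: linear in the factor `a`, so let `a` be a word:
`comp α (a g) = a * comp (α - lets a) g` if `lets a ≤ α`, else 0; lift `a` to `a₁ ∈ P V₁` and the component of `g` to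
`g₂ ∈ P V₂`, `V = V₁ + V₂`. Laws: `quad_mem`; for words `u, v, ..` the instance is homogeneous, of multidegree `α`,
and for `V.map ρ = α` split `V` and lift the words: `com (u + invW u) v` lifts to `com (u₁ + invW u₁) v₁`
(`ren ρ (invW g) = invW (ren ρ g)`), which is zero at traceless elements (`evw_invW`, `a + star a` is scalar).
Quadratic laws, on the diagonal: `associator w w v` lifts to
`1/2 (associator w₁ w₂ v₁ + associator w₂ w₁ v₁)` (`w₁`, `w₂` two lifts of `w`), and `com (w * invW w) v` lifts to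
`1/2 com (w₁ * invW w₂ + w₂ * invW w₁) v₁` (`isSc_mul_star`); polarized: `associator w w' v + associator w' w v` lifts to
`associator w₁ w₁' v₁ + associator w₁' w₁ v₁`, etc.
-/

set_option autoImplicit false
set_option linter.unusedSectionVars false

namespace Pool.Agent.OB

open FreeNonUnitalNonAssocAlgebra Pool.Agent.H.MP_41922c_al Pool.Agent.Smt

variable (F : Type*) [Field F]

/-- renaming of the variables -/
noncomputable def ren (ρ : ℕ → ℕ) : FA F →ₙₐ[F] FA F := lift F (fun i => of F (ρ i))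

variable {F}

theorem ren_mem {ρ : ℕ → ℕ} {m : Multiset ℕ} {f : FA F} (hf : f ∈ P F m) :
    ren F ρ f ∈ P F (m.map ρ) := by
  have h := lift_mem (F := F) id id (fun i => of F (ρ i)) (fun i => {ρ i})
    (fun a => of_mem id (ρ a)) hf
  have e : (m.map (fun i => ({ρ i} : Multiset ℕ))).sum = m.map ρ := by
    have h1 := Multiset.sum_map_singleton (m.map ρ)
    rw [Multiset.map_map] at h1
    exact h1
  rw [e] at h
  exact h

theorem LiftW_ren_of (ρ : ℕ → ℕ) (i : ℕ) : ren F ρ (of F i) = of F (ρ i) := by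
  unfold ren
  rw [lift_of_apply]

theorem ren_ren (ρ σ : ℕ → ℕ) (f : FA F) : ren F ρ (ren F σ f) = ren F (ρ ∘ σ) f := by
  have h : (ren F ρ).comp (ren F σ) = ren F (ρ ∘ σ) := by
    refine hom_ext F fun i => ?_
    rw [NonUnitalAlgHom.comp_apply, LiftW_ren_of, LiftW_ren_of, LiftW_ren_of]
    rfl
  exact DFunLike.congr_fun h f

theorem ev_ren (ρ : ℕ → ℕ) (f : FA F) : ev F (ren F ρ f) = sb (fun i => XX F (ρ i)) (ev F f) := by
  have h := ev_lift (fun i => of F (ρ i)) f
  have e : (fun i => ev F (of F (ρ i))) = fun i => XX F (ρ i) := funext fun i => ev_of (ρ i)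
  rw [e] at h
  exact h

theorem evw_ren (ρ : ℕ → ℕ) (f : FA F) :
    evw F (ren F ρ f) = sb (fun i => XX F (ρ i)) (evw F f) := by
  have h : (evw F).comp (ren F ρ) = (sb (fun i => XX F (ρ i))).comp (evw F) := by
    refine hom_ext F fun i => ?_
    rw [NonUnitalAlgHom.comp_apply, NonUnitalAlgHom.comp_apply, LiftW_ren_of]
    unfold evw
    rw [lift_of_apply, lift_of_apply]
    rfl
  exact DFunLike.congr_fun h f

theorem ren_invW (ρ : ℕ → ℕ) (f : FA F) : ren F ρ (invW f) = invW (ren F ρ f) := by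
  refine Words_ind (F := F) (α := ℕ) (p := fun f => ren F ρ (invW f) = invW (ren F ρ f))
    ?_ ?_ ?_ ?_ f
  · rw [Inv_W_zero, map_zero, Inv_W_zero]
  · intro f g hf hg
    rw [invW_add, map_add, map_add, invW_add, hf, hg]
  · intro k f hf
    rw [invW_smul, map_smul, map_smul, invW_smul, hf]
  · intro w
    induction w with
    | ih1 i =>
      show ren F ρ (invW (of F i)) = invW (ren F ρ (of F i))
      rw [invW_of, map_neg, LiftW_ren_of, invW_of]
    | ih2 u v hu hv =>
      show ren F ρ (invW (mo F u * mo F v)) = invW (ren F ρ (mo F u * mo F v))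
      rw [invW_mul, map_mul, map_mul, invW_mul, hu, hv]

theorem split_map {V A B : Multiset ℕ} {ρ : ℕ → ℕ} (e : V.map ρ = A + B) :
    ∃ V₁ V₂ : Multiset ℕ, V₁ + V₂ = V ∧ V₁.map ρ = A ∧ V₂.map ρ = B := by
  induction A using Multiset.induction generalizing V with
  | empty =>
    refine ⟨0, V, zero_add V, Multiset.map_zero ρ, ?_⟩
    rw [e, zero_add]
  | cons a A ih =>
    rw [Multiset.cons_add] at e
    obtain ⟨x, hx, h1, h2⟩ := (Multiset.map_eq_cons ρ V (A + B) a).2 e
    obtain ⟨V₁, V₂, h3, h4, h5⟩ := ih h2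
    refine ⟨x ::ₘ V₁, V₂, ?_, ?_, h5⟩
    · rw [Multiset.cons_add, h3, Multiset.cons_erase hx]
    · rw [Multiset.map_cons, h1, h4]

theorem lift_word (w : FreeMagma ℕ) {V : Multiset ℕ} {ρ : ℕ → ℕ} (e : V.map ρ = lets id w) :
    ∃ w₁ : FreeMagma ℕ, lets id w₁ = V ∧ FreeMagma.map ρ w₁ = w := by
  induction w generalizing V with
  | ih1 a =>
    have e1 : V.map ρ = {a} := e
    obtain ⟨x, h1, h2⟩ := Multiset.map_eq_singleton.1 e1
    refine ⟨FreeMagma.of x, h1.symm, ?_⟩
    rw [FreeMagma.map_of, h2]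
  | ih2 u v hu hv =>
    have e1 : V.map ρ = lets id u + lets id v := e
    obtain ⟨V₁, V₂, h1, h2, h3⟩ := split_map e1
    obtain ⟨u₁, h4, h5⟩ := hu h2
    obtain ⟨v₁, h6, h7⟩ := hv h3
    refine ⟨u₁ * v₁, ?_, ?_⟩
    · change lets id u₁ + lets id v₁ = V
      rw [h4, h6, h1]
    · rw [map_mul, h5, h7]

theorem ren_mo (ρ : ℕ → ℕ) (w : FreeMagma ℕ) :
    ren F ρ (mo F w) = mo F (FreeMagma.map ρ w) := by
  induction w with
  | ih1 a => exact LiftW_ren_of ρ a
  | ih2 u v hu hv =>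
    rw [map_mul]
    show ren F ρ (mo F u * mo F v) = mo F (FreeMagma.map ρ u) * mo F (FreeMagma.map ρ v)
    rw [map_mul, hu, hv]

theorem lift_poly {V : Multiset ℕ} {ρ : ℕ → ℕ} {f : FA F} (hf : f ∈ P F (V.map ρ)) :
    ∃ f₁ ∈ P F V, ren F ρ f₁ = f := by
  refine PP_induction id (p := fun f => ∃ f₁ ∈ P F V, ren F ρ f₁ = f) ?_ ?_ ?_ ?_ hf
  · exact ⟨0, zero_mem _, map_zero _⟩
  · rintro f g ⟨f₁, hf₁, e1⟩ ⟨g₁, hg₁, e2⟩
    exact ⟨f₁ + g₁, add_mem hf₁ hg₁, by rw [map_add, e1, e2]⟩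
  · rintro k f ⟨f₁, hf₁, e1⟩
    exact ⟨k • f₁, Submodule.smul_mem _ _ hf₁, by rw [map_smul, e1]⟩
  · intro w hw
    obtain ⟨w₁, h1, h2⟩ := lift_word w hw.symm
    refine ⟨mo F w₁, ?_, ?_⟩
    · rw [← h1]
      exact mo_mem id w₁
    · rw [ren_mo, h2]

variable (F) in
/-- all components have traceless-zero lifts -/
noncomputable def KLW : Submodule F (FA F) where
  carrier := {g | ∀ (V : Multiset ℕ) (ρ : ℕ → ℕ), ∃ g₂ ∈ P F V,
    ren F ρ g₂ = comp F id (V.map ρ) g ∧ evw F g₂ = 0}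
  zero_mem' := fun V ρ => ⟨0, zero_mem _, by rw [map_zero, map_zero], map_zero _⟩
  add_mem' := fun {f g} hf hg V ρ => by
    obtain ⟨f₂, hf₂, e1, e2⟩ := hf V ρ
    obtain ⟨g₂, hg₂, e3, e4⟩ := hg V ρ
    exact ⟨f₂ + g₂, add_mem hf₂ hg₂, by rw [map_add, map_add, e1, e3], by
      rw [map_add, e2, e4, add_zero]⟩
  smul_mem' := fun c f hf V ρ => by
    obtain ⟨f₂, hf₂, e1, e2⟩ := hf V ρ
    exact ⟨c • f₂, Submodule.smul_mem _ _ hf₂, by rw [map_smul, map_smul, e1], by
      rw [map_smul, e2, smul_zero]⟩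

theorem LiftW_sc_add {a b : Fn F} (ha : IsSc a) (hb : IsSc b) : IsSc (a + b) := by
  obtain ⟨s, hs⟩ := ha
  obtain ⟨t, ht⟩ := hb
  refine ⟨fun v => s v + t v, fun v => ?_⟩
  rw [Pi.add_apply, hs, ht, add_smul]

theorem LiftW_sc_smul (c : F) {a : Fn F} (ha : IsSc a) : IsSc (c • a) := by
  obtain ⟨s, hs⟩ := ha
  refine ⟨fun v => c * s v, fun v => ?_⟩
  rw [Pi.smul_apply, hs, smul_smul]

theorem LiftW_sc_zero : IsSc (0 : Fn F) :=
  ⟨fun _ => 0, fun v => by rw [Pi.zero_apply, zero_smul]⟩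

variable (F) in
/-- all components have lifts which are scalar at traceless elements -/
noncomputable def LiftW_S : Submodule F (FA F) where
  carrier := {g | ∀ (V : Multiset ℕ) (ρ : ℕ → ℕ), ∃ g₂ ∈ P F V,
    ren F ρ g₂ = comp F id (V.map ρ) g ∧ IsSc (evw F g₂)}
  zero_mem' := fun V ρ => ⟨0, zero_mem _, by rw [map_zero, map_zero], by
    rw [map_zero]; exact LiftW_sc_zero⟩
  add_mem' := fun {f g} hf hg V ρ => by
    obtain ⟨f₂, hf₂, e1, e2⟩ := hf V ρ
    obtain ⟨g₂, hg₂, e3, e4⟩ := hg V ρ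
    exact ⟨f₂ + g₂, add_mem hf₂ hg₂, by rw [map_add, map_add, e1, e3], by
      rw [map_add]; exact LiftW_sc_add e2 e4⟩
  smul_mem' := fun c f hf V ρ => by
    obtain ⟨f₂, hf₂, e1, e2⟩ := hf V ρ
    exact ⟨c • f₂, Submodule.smul_mem _ _ hf₂, by rw [map_smul, map_smul, e1], by
      rw [map_smul]; exact LiftW_sc_smul c e2⟩

theorem LiftW_hom {m : Multiset ℕ} {g : FA F} (hg : g ∈ P F m)
    (h : ∀ (V : Multiset ℕ) (ρ : ℕ → ℕ), V.map ρ = m → ∃ g₂ ∈ P F V,
      ren F ρ g₂ = g ∧ evw F g₂ = 0) : g ∈ KLW F := by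
  intro V ρ
  by_cases e : V.map ρ = m
  · rw [e, comp_of_mem id hg]
    exact h V ρ e
  · rw [comp_of_ne id hg (Ne.symm e)]
    exact ⟨0, zero_mem _, map_zero _, map_zero _⟩

theorem LiftW_homS {m : Multiset ℕ} {g : FA F} (hg : g ∈ P F m)
    (h : ∀ (V : Multiset ℕ) (ρ : ℕ → ℕ), V.map ρ = m → ∃ g₂ ∈ P F V,
      ren F ρ g₂ = g ∧ IsSc (evw F g₂)) : g ∈ LiftW_S F := by
  intro V ρ
  by_cases e : V.map ρ = m
  · rw [e, comp_of_mem id hg]
    exact h V ρ e
  · rw [comp_of_ne id hg (Ne.symm e)]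
    exact ⟨0, zero_mem _, map_zero _, by rw [map_zero]; exact LiftW_sc_zero⟩

/-- reduction to words -/
theorem LiftW_lin {K : Submodule F (FA F)} (φ : FA F → FA F)
    (ha : ∀ x y, φ (x + y) = φ x + φ y) (hs : ∀ (k : F) x, φ (k • x) = k • φ x)
    (hw : ∀ w, φ (mo F w) ∈ K) (x : FA F) : φ x ∈ K := by
  refine Words_ind (F := F) (α := ℕ) (p := fun x => φ x ∈ K) ?_ ?_ ?_ hw x
  · have h := hs 0 0
    rw [zero_smul, zero_smul] at h
    rw [h]
    exact zero_mem _
  · intro f g hf hg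
    rw [ha]
    exact add_mem hf hg
  · intro k f hf
    rw [hs]
    exact Submodule.smul_mem _ _ hf

/-- reduction to homogeneous components -/
theorem LiftW_sum {K : Submodule F (FA F)} (φ : FA F → FA F)
    (ha : ∀ x y, φ (x + y) = φ x + φ y) (x : FA F)
    (hw : ∀ m, φ (comp F id m x) ∈ K) : φ x ∈ K := by
  obtain ⟨S, hS, -⟩ := exists_comp id x
  have h0 : φ 0 = 0 := by
    have h := ha 0 0
    rw [add_zero] at h
    exact (left_eq_add.1 h)
  have h1 : ∀ T : Finset (Multiset ℕ), φ (∑ m ∈ T, comp F id m x) ∈ K := by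
    intro T
    classical
    induction T using Finset.induction_on with
    | empty =>
      rw [Finset.sum_empty, h0]
      exact zero_mem _
    | insert a T haT ih =>
      rw [Finset.sum_insert haT, ha]
      exact add_mem (hw a) ih
  rw [hS]
  exact h1 S

theorem LiftW_mo {w : FreeMagma ℕ} {V : Multiset ℕ} {ρ : ℕ → ℕ} (e : V.map ρ = lets id w) :
    ∃ f ∈ P F V, ren F ρ f = mo F w := by
  obtain ⟨w₁, h1, h2⟩ := lift_word w e
  refine ⟨mo F w₁, ?_, ?_⟩
  · rw [← h1]
    exact mo_mem id w₁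
  · rw [ren_mo, h2]

theorem LiftW_com {A B : Type*} [NonUnitalNonAssocRing A] [Module F A] [NonUnitalNonAssocRing B]
    [Module F B] (φ : A →ₙₐ[F] B) (a b : A) : φ (com a b) = com (φ a) (φ b) := by
  simp only [com, map_sub, map_mul]

theorem LiftW_asc {A B : Type*} [NonUnitalNonAssocRing A] [Module F A] [NonUnitalNonAssocRing B]
    [Module F B] (φ : A →ₙₐ[F] B) (a b c : A) :
    φ (associator a b c) = associator (φ a) (φ b) (φ c) := by
  simp only [associator, map_sub, map_mul]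

theorem LiftW_com_mem {m m' : Multiset ℕ} {f g : FA F} (hf : f ∈ P F m) (hg : g ∈ P F m') :
    com f g ∈ P F (m + m') :=
  sub_mem (PP_mul id hf hg) (add_comm m' m ▸ PP_mul id hg hf)

theorem LiftW_asc_mem {m m' m'' : Multiset ℕ} {f g h : FA F} (hf : f ∈ P F m) (hg : g ∈ P F m')
    (hh : h ∈ P F m'') : associator f g h ∈ P F (m + m' + m'') := by
  rw [associator_apply]
  exact sub_mem (PP_mul id (PP_mul id hf hg) hh) (add_assoc m m' m'' ▸
    PP_mul id hf (PP_mul id hg hh))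

theorem LiftW_cast {m m' : Multiset ℕ} {f : FA F} (hf : f ∈ P F m) (h : m = m') : f ∈ P F m' :=
  h ▸ hf

theorem LiftW_left (a f : FA F) (hf : f ∈ KLW F) : a * f ∈ KLW F := by
  refine LiftW_lin (fun a => a * f) (fun x y => add_mul x y f) (fun k x => smul_mul_assoc k x f)
    (fun w => ?_) a
  refine LiftW_sum (fun f => mo F w * f) (fun x y => mul_add _ x y) f fun m => ?_
  refine LiftW_hom (m := lets id w + m) (PP_mul id (mo_mem id w) (comp_mem id m f)) ?_
  intro V ρ e
  obtain ⟨V₁, V₂, h1, h2, h3⟩ := split_map e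
  obtain ⟨w₁, h4, h5⟩ := LiftW_mo (F := F) h2
  obtain ⟨g₂, h6, h7, h8⟩ := hf V₂ ρ
  rw [h3] at h7
  refine ⟨w₁ * g₂, ?_, ?_, ?_⟩
  · rw [← h1]
    exact PP_mul id h4 h6
  · rw [map_mul, h5, h7]
  · rw [map_mul, h8, mul_zero]

theorem LiftW_right (a f : FA F) (hf : f ∈ KLW F) : f * a ∈ KLW F := by
  refine LiftW_lin (fun a => f * a) (fun x y => mul_add f x y) (fun k x => mul_smul_comm k f x)
    (fun w => ?_) a
  refine LiftW_sum (fun f => f * mo F w) (fun x y => add_mul x y _) f fun m => ?_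
  refine LiftW_hom (m := m + lets id w) (PP_mul id (comp_mem id m f) (mo_mem id w)) ?_
  intro V ρ e
  obtain ⟨V₁, V₂, h1, h2, h3⟩ := split_map e
  obtain ⟨w₁, h4, h5⟩ := LiftW_mo (F := F) h3
  obtain ⟨g₂, h6, h7, h8⟩ := hf V₁ ρ
  rw [h2] at h7
  refine ⟨g₂ * w₁, ?_, ?_, ?_⟩
  · rw [← h1]
    exact PP_mul id h6 h4
  · rw [map_mul, h5, h7]
  · rw [map_mul, h8, zero_mul]

/-- traces -/
theorem LiftW_tr (u : FA F) : u + invW u ∈ LiftW_S F := by
  refine LiftW_lin (fun u => u + invW u) (fun x y => ?_) (fun k x => ?_) (fun w => ?_) u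
  · simp only [invW_add]
    abel
  · simp only [invW_smul, smul_add]
  · refine LiftW_homS (m := lets id w) (add_mem (mo_mem id w) (invW_mem (mo_mem id w))) ?_
    intro V ρ e
    obtain ⟨w₁, h4, h5⟩ := LiftW_mo (F := F) e
    refine ⟨w₁ + invW w₁, add_mem h4 (invW_mem h4), ?_, ?_⟩
    · rw [map_add, ren_invW, h5]
    · rw [map_add, evw_invW]
      exact isSc_trf _

/-- polarized norms -/
theorem LiftW_nm (a b : FA F) : a * invW b + b * invW a ∈ LiftW_S F := by
  refine LiftW_lin (fun a => a * invW b + b * invW a) (fun x y => ?_) (fun k x => ?_)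
    (fun v => ?_) a
  · simp only [invW_add, add_mul, mul_add]
    abel
  · simp only [invW_smul, smul_add, smul_mul_assoc, mul_smul_comm]
  refine LiftW_lin (fun b => mo F v * invW b + b * invW (mo F v)) (fun x y => ?_) (fun k x => ?_)
    (fun w => ?_) b
  · simp only [invW_add, add_mul, mul_add]
    abel
  · simp only [invW_smul, smul_add, smul_mul_assoc, mul_smul_comm]
  refine LiftW_homS (m := lets id v + lets id w) (add_mem
    (PP_mul id (mo_mem id v) (invW_mem (mo_mem id w)))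
    (LiftW_cast (PP_mul id (mo_mem id w) (invW_mem (mo_mem id v))) (add_comm _ _))) ?_
  intro V ρ e
  obtain ⟨V₁, V₂, h1, h2, h3⟩ := split_map e
  obtain ⟨v₁, h4, h5⟩ := LiftW_mo (F := F) h2
  obtain ⟨w₁, h6, h7⟩ := LiftW_mo (F := F) h3
  refine ⟨v₁ * invW w₁ + w₁ * invW v₁, ?_, ?_, ?_⟩
  · rw [← h1]
    exact add_mem (PP_mul id h4 (invW_mem h6))
      (LiftW_cast (PP_mul id h6 (invW_mem h4)) (add_comm _ _))
  · rw [map_add, map_mul, map_mul, ren_invW, ren_invW, h5, h7]
  · rw [map_add, map_mul, map_mul, evw_invW, evw_invW]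
    exact isSc_mul_star _ _

theorem LiftW_nm1 (h2 : (2 : F) ≠ 0) (a : FA F) : a * invW a ∈ LiftW_S F := by
  have h := Submodule.smul_mem _ (2 : F)⁻¹ (LiftW_nm a a)
  rw [← two_smul F (a * invW a), smul_smul, inv_mul_cancel₀ h2, one_smul] at h
  exact h

theorem LiftW_scC {s : FA F} (hs : s ∈ LiftW_S F) (v : FA F) : com s v ∈ KLW F := by
  refine LiftW_lin (fun v => com s v) (fun x y => ?_) (fun k x => ?_) (fun w => ?_) v
  · simp only [com, add_mul, mul_add]
    abel
  · simp only [com, smul_sub, smul_mul_assoc, mul_smul_comm]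
  refine LiftW_sum (fun s => com s (mo F w)) (fun x y => ?_) s fun m => ?_
  · simp only [com, add_mul, mul_add]
    abel
  refine LiftW_hom (m := m + lets id w) (LiftW_com_mem (comp_mem id m s) (mo_mem id w)) ?_
  intro V ρ e
  obtain ⟨V₁, V₂, h1, h2, h3⟩ := split_map e
  obtain ⟨w₁, h4, h5⟩ := LiftW_mo (F := F) h3
  obtain ⟨g₂, h6, h7, h8⟩ := hs V₁ ρ
  rw [h2] at h7
  refine ⟨com g₂ w₁, ?_, ?_, ?_⟩
  · rw [← h1]
    exact LiftW_com_mem h6 h4
  · rw [LiftW_com, h5, h7]
  · rw [LiftW_com, com, h8.comm, sub_self]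

theorem LiftW_scA {s : FA F} (hs : s ∈ LiftW_S F) (v w : FA F) : associator s v w ∈ KLW F := by
  refine LiftW_lin (fun v => associator s v w) (fun x y => ?_) (fun k x => ?_) (fun v => ?_) v
  · simp only [associator, add_mul, mul_add]
    abel
  · simp only [associator, smul_sub, smul_mul_assoc, mul_smul_comm]
  refine LiftW_lin (fun w => associator s (mo F v) w) (fun x y => ?_) (fun k x => ?_)
    (fun w => ?_) w
  · simp only [associator, mul_add]
    abel
  · simp only [associator, smul_sub, mul_smul_comm]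
  refine LiftW_sum (fun s => associator s (mo F v) (mo F w)) (fun x y => ?_) s fun m => ?_
  · simp only [associator, add_mul]
    abel
  refine LiftW_hom (m := m + lets id v + lets id w)
    (LiftW_asc_mem (comp_mem id m s) (mo_mem id v) (mo_mem id w)) ?_
  intro V ρ e
  obtain ⟨V₁, V₂, h1, h2, h3⟩ := split_map e
  obtain ⟨w₁, h4, h5⟩ := LiftW_mo (F := F) h3
  obtain ⟨V₃, V₄, h6, h7, h8⟩ := split_map h2
  obtain ⟨v₁, h9, h10⟩ := LiftW_mo (F := F) h8
  obtain ⟨g₂, h11, h12, h13⟩ := hs V₃ ρ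
  rw [h7] at h12
  refine ⟨associator g₂ v₁ w₁, ?_, ?_, ?_⟩
  · rw [← h1, ← h6]
    exact LiftW_asc_mem h11 h9 h4
  · rw [LiftW_asc, h5, h10, h12]
  · rw [LiftW_asc, associator, (h13.assoc _ _).1, sub_self]

theorem LiftW_altL (a b c : FA F) : associator a b c + associator b a c ∈ KLW F := by
  refine LiftW_lin (fun a => associator a b c + associator b a c) (fun x y => ?_) (fun k x => ?_)
    (fun u => ?_) a
  · simp only [associator, add_mul, mul_add]
    abel
  · simp only [associator, smul_sub, smul_add, smul_mul_assoc, mul_smul_comm]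
  refine LiftW_lin (fun b => associator (mo F u) b c + associator b (mo F u) c) (fun x y => ?_)
    (fun k x => ?_) (fun v => ?_) b
  · simp only [associator, add_mul, mul_add]
    abel
  · simp only [associator, smul_sub, smul_add, smul_mul_assoc, mul_smul_comm]
  refine LiftW_lin (fun c => associator (mo F u) (mo F v) c + associator (mo F v) (mo F u) c)
    (fun x y => ?_) (fun k x => ?_) (fun w => ?_) c
  · simp only [associator, mul_add]
    abel
  · simp only [associator, smul_sub, smul_add, mul_smul_comm]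
  refine LiftW_hom (m := lets id u + lets id v + lets id w)
    (add_mem (LiftW_asc_mem (mo_mem id u) (mo_mem id v) (mo_mem id w))
      (LiftW_cast (LiftW_asc_mem (mo_mem id v) (mo_mem id u) (mo_mem id w)) (by
        rw [add_comm (lets id v)]))) ?_
  intro V ρ e
  obtain ⟨V₁, V₂, h1, h2, h3⟩ := split_map e
  obtain ⟨w₁, h4, h5⟩ := LiftW_mo (F := F) h3
  obtain ⟨V₃, V₄, h6, h7, h8⟩ := split_map h2
  obtain ⟨v₁, h9, h10⟩ := LiftW_mo (F := F) h8
  obtain ⟨u₁, h11, h12⟩ := LiftW_mo (F := F) h7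
  refine ⟨associator u₁ v₁ w₁ + associator v₁ u₁ w₁, ?_, ?_, ?_⟩
  · rw [← h1, ← h6]
    exact add_mem (LiftW_asc_mem h11 h9 h4) (LiftW_cast (LiftW_asc_mem h9 h11 h4) (by
      rw [add_comm V₄]))
  · rw [map_add, LiftW_asc, LiftW_asc, h5, h10, h12]
  · rw [map_add, LiftW_asc, LiftW_asc]
    funext x
    have h := alt12_oc (evw F u₁ x) (evw F v₁ x) (evw F w₁ x)
    show associator (evw F u₁ x) (evw F v₁ x) (evw F w₁ x) +
      associator (evw F v₁ x) (evw F u₁ x) (evw F w₁ x) = 0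
    rw [h, neg_add_cancel]

theorem LiftW_altR (a b c : FA F) : associator c a b + associator c b a ∈ KLW F := by
  refine LiftW_lin (fun a => associator c a b + associator c b a) (fun x y => ?_) (fun k x => ?_)
    (fun u => ?_) a
  · simp only [associator, add_mul, mul_add]
    abel
  · simp only [associator, smul_sub, smul_add, smul_mul_assoc, mul_smul_comm]
  refine LiftW_lin (fun b => associator c (mo F u) b + associator c b (mo F u)) (fun x y => ?_)
    (fun k x => ?_) (fun v => ?_) b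
  · simp only [associator, add_mul, mul_add]
    abel
  · simp only [associator, smul_sub, smul_add, smul_mul_assoc, mul_smul_comm]
  refine LiftW_lin (fun c => associator c (mo F u) (mo F v) + associator c (mo F v) (mo F u))
    (fun x y => ?_) (fun k x => ?_) (fun w => ?_) c
  · simp only [associator, add_mul]
    abel
  · simp only [associator, smul_sub, smul_add, smul_mul_assoc]
  refine LiftW_hom (m := lets id w + lets id u + lets id v)
    (add_mem (LiftW_asc_mem (mo_mem id w) (mo_mem id u) (mo_mem id v))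
      (LiftW_cast (LiftW_asc_mem (mo_mem id w) (mo_mem id v) (mo_mem id u)) (add_right_comm _ _ _)))
    ?_
  intro V ρ e
  obtain ⟨V₁, V₂, h1, h2, h3⟩ := split_map e
  obtain ⟨v₁, h4, h5⟩ := LiftW_mo (F := F) h3
  obtain ⟨V₃, V₄, h6, h7, h8⟩ := split_map h2
  obtain ⟨u₁, h9, h10⟩ := LiftW_mo (F := F) h8
  obtain ⟨w₁, h11, h12⟩ := LiftW_mo (F := F) h7
  refine ⟨associator w₁ u₁ v₁ + associator w₁ v₁ u₁, ?_, ?_, ?_⟩
  · rw [← h1, ← h6]
    exact add_mem (LiftW_asc_mem h11 h9 h4)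
      (LiftW_cast (LiftW_asc_mem h11 h4 h9) (add_right_comm _ _ _))
  · rw [map_add, LiftW_asc, LiftW_asc, h5, h10, h12]
  · rw [map_add, LiftW_asc, LiftW_asc]
    funext x
    have h := alt23_oc (evw F w₁ x) (evw F u₁ x) (evw F v₁ x)
    show associator (evw F w₁ x) (evw F u₁ x) (evw F v₁ x) +
      associator (evw F w₁ x) (evw F v₁ x) (evw F u₁ x) = 0
    rw [h, neg_add_cancel]

theorem LiftW_half (h2 : (2 : F) ≠ 0) {K : Submodule F (FA F)} {x : FA F} (h : x + x ∈ K) :
    x ∈ K := by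
  have h1 := K.smul_mem (2 : F)⁻¹ h
  rw [← two_smul F x, smul_smul, inv_mul_cancel₀ h2, one_smul] at h1
  exact h1

theorem KLW_laws (h2 : (2 : F) ≠ 0) : Laws (KLW F) invW where
  left a f hf := LiftW_left a f hf
  right a f hf := LiftW_right a f hf
  altL u v := LiftW_half h2 (LiftW_altL u u v)
  altR u v := LiftW_half h2 (LiftW_altR u u v)
  trC u v := LiftW_scC (LiftW_tr u) v
  trA u v w := LiftW_scA (LiftW_tr u) v w
  nmC u v := LiftW_scC (LiftW_nm1 h2 u) v
  nmA u v w := LiftW_scA (LiftW_nm1 h2 u) v w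

theorem lift_W [Infinite F] (h2 : (2 : F) ≠ 0) {V : Multiset ℕ} {ρ : ℕ → ℕ} {g : FA F}
    (hg : g ∈ P F (V.map ρ)) (h0 : evw F g = 0) :
    ∃ g₂ ∈ P F V, ren F ρ g₂ = g ∧ evw F g₂ = 0 := by
  have h := killW h2 (KLW_laws h2) h0
  obtain ⟨g₂, h3, h4, h5⟩ := h V ρ
  rw [comp_of_mem id hg] at h4
  exact ⟨g₂, h3, h4, h5⟩

end Pool.Agent.OB
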