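import Pool.Agent.OB.QP

/-!
# Products of values at traceless elements in the top degree  (module Mu)

`V.card ≥ 10`. `5 ≤ s'.card`: choose a pair `p ≤ s'` and put
`muR s s' a b = al s a (b - sg b • (S p * S (s' - p))) + sg b • Q p (a * S (s' - p))`
(bilinear; `b - sg b • .. ∈ LF s'` for `b ∈ WW s'` by `QP_sub`). `Mu_DR`: `al s a (S p * w) = Q p (a * w)` for `w ∈ WW (s' - p)`
with `sg w = 0`: clear for `w ∈ LF` (`act3`); otherwise `s'.card = 5`, `s.card ≥ 5`, `S p * w ∈ LF`, and `a = a₀ + c S r a₁`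
with `a₀ ∈ LF` (`Mu_hon`, `sc2`; `sc2`, `act3`). The rule does not depend on the pair (`Mu_rule`): two pairs are connected
by a third one. `5 ≤ s.card`: the mirror image. `mu = if 5 ≤ s'.card then muR else muL` satisfies all four rules without
restriction on the degrees.
-/

set_option autoImplicit false
set_option linter.unusedSectionVars false

namespace Pool.Agent.OB

open FreeNonUnitalNonAssocAlgebra Pool.Agent.H.MP_41922c_al Pool.Agent.Smt

variable {F : Type*} [Field F] {R : Type*} [NonUnitalNonAssocRing R] [Module F R]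
  [IsScalarTower F R R] [SMulCommClass F R R]
variable {π : FA F →ₙₐ[F] R} {V : Multiset ℕ} {β : Multiset ℕ → Fn F →ₗ[F] R}
  {al ar : Multiset ℕ → Fn F →ₗ[F] Fn F →ₗ[F] R} {S : Multiset ℕ → Fn F}
  {Q : Multiset ℕ → Fn F →ₗ[F] R}

/-- the product of `a ∈ WW s` and `b ∈ WW s'`, `s + s' = V` -/
structure IsMu (V : Multiset ℕ) (al ar : Multiset ℕ → Fn F →ₗ[F] Fn F →ₗ[F] R)
    (S : Multiset ℕ → Fn F) (Q : Multiset ℕ → Fn F →ₗ[F] R)
    (mu : Multiset ℕ → Multiset ℕ → Fn F →ₗ[F] Fn F →ₗ[F] R) : Prop where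
  RL : ∀ s s' : Multiset ℕ, s + s' = V → ∀ a ∈ WW F s, ∀ l ∈ LF F s',
    l ∈ WW F s' → mu s s' a l = al s a l
  RQ : ∀ s s' p m : Multiset ℕ, s + s' = V → p + m = s' → p.card = 2 →
    ∀ a ∈ WW F s, ∀ b ∈ WW F m, mu s s' a (S p * b) = Q p (a * b)
  LL : ∀ s s' : Multiset ℕ, s + s' = V → ∀ l ∈ LF F s, l ∈ WW F s →
    ∀ b ∈ WW F s', mu s s' l b = ar s' b l
  LQ : ∀ s s' p m : Multiset ℕ, s + s' = V → p + m = s → p.card = 2 →
    ∀ a ∈ WW F m, ∀ b ∈ WW F s', mu s s' (S p * a) b = Q p (a * b)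

/-! ### one-sided rules -/

theorem Mu_sc1 {z : Fn F} (hz : IsSc z) (a w : Fn F) : a * (z * w) = z * (a * w) := by
  rw [← (hz.assoc a w).2.1, ← hz.comm a, (hz.assoc a w).1]

theorem Mu_sc2 {z : Fn F} (hz : IsSc z) (w b : Fn F) : (z * w) * b = z * (w * b) :=
  (hz.assoc w b).1

theorem Mu_cast {m n : Multiset ℕ} {l : Fn F} (hl : l ∈ WW F m) (e : m = n) : l ∈ WW F n := e ▸ hl

theorem Mu_castL {m n : Multiset ℕ} {l : Fn F} (hl : l ∈ LF F m) (e : m = n) : l ∈ LF F n := e ▸ hl

/-- the data of a one-sided rule -/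
structure Mu_D (s' : Multiset ℕ) (S : Multiset ℕ → Fn F) (Q : Multiset ℕ → Fn F →ₗ[F] R)
    (A : Fn F →ₗ[F] R) (M : Fn F →ₗ[F] Fn F) : Prop where
  d1 : ∀ p m : Multiset ℕ, p + m = s' → p.card = 2 → ∀ l ∈ WW F m, sg F l = 0 →
    A (S p * l) = Q p (M l)
  d2 : ∀ p r n : Multiset ℕ, p + r + n = s' → p.card = 2 → r.card = 2 → ∀ w ∈ WW F n,
    Q p (M (S r * w)) = Q r (M (S p * w))

/-- the rule for the pair `p`, `p + m = s'` -/
noncomputable def Mu_F (S : Multiset ℕ → Fn F) (Q : Multiset ℕ → Fn F →ₗ[F] R)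
    (A : Fn F →ₗ[F] R) (M : Fn F →ₗ[F] Fn F) (p m : Multiset ℕ) : Fn F →ₗ[F] R :=
  A ∘ₗ (LinearMap.id - (sg F).smulRight (S p * S m)) + (sg F).smulRight (Q p (M (S m)))

theorem Mu_F_apply (S : Multiset ℕ → Fn F) (Q : Multiset ℕ → Fn F →ₗ[F] R)
    (A : Fn F →ₗ[F] R) (M : Fn F →ₗ[F] Fn F) (p m : Multiset ℕ) (y : Fn F) :
    Mu_F S Q A M p m y = A (y - sg F y • (S p * S m)) + sg F y • Q p (M (S m)) := rfl

theorem Mu_F_LF (S : Multiset ℕ → Fn F) (Q : Multiset ℕ → Fn F →ₗ[F] R)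
    (A : Fn F →ₗ[F] R) (M : Fn F →ₗ[F] Fn F) (p m : Multiset ℕ) {n : Multiset ℕ} {l : Fn F}
    (hl : l ∈ LF F n) : Mu_F S Q A M p m l = A l := by
  rw [Mu_F_apply, sg_LF hl, zero_smul, zero_smul, sub_zero, add_zero]

theorem Mu_ne {m : Multiset ℕ} (h : 1 ≤ m.card) : m ≠ 0 := by
  rintro rfl
  exact absurd h (by simp)

theorem Mu_S (hS : IsS S) {p : Multiset ℕ} (hp : p.card = 2) :
    S p ∈ WW F p ∧ sg F (S p) = 1 ∧ IsSc (S p) :=
  ⟨(hS p (Mu_ne (by omega))).1, (hS p (Mu_ne (by omega))).2.1,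
    (hS p (Mu_ne (by omega))).2.2 (by rw [hp]; exact even_two)⟩

theorem Mu_sg (hS : IsS S) {p m : Multiset ℕ} (hp : p.card = 2) {b : Fn F} (hb : b ∈ WW F m) :
    sg F (S p * b) = sg F b := by
  have h1 := Mu_S hS hp
  rw [sg_mul (WW_le_AF _ h1.1) (WW_le_AF _ hb), h1.2.1, one_mul]

theorem Mu_disj (h : Ctx π V) (hS : IsS S) {s' : Multiset ℕ} {A : Fn F →ₗ[F] R}
    {M : Fn F →ₗ[F] Fn F} (D : Mu_D s' S Q A M) {p r n : Multiset ℕ}
    (e : p + r + n = s') (hp : p.card = 2) (hr : r.card = 2) (hn : 1 ≤ n.card) {b : Fn F}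
    (hb : b ∈ WW F (p + n)) : Mu_F S Q A M p (r + n) (S r * b) = Q r (M b) := by
  have h1 := Mu_S hS hp
  have h2 := Mu_S hS hr
  have hw := hS n (Mu_ne (by omega))
  have hw' := hS (r + n) (Mu_ne (by rw [Multiset.card_add]; omega))
  have e1 : r + (p + n) = s' := by rw [← e]; abel
  have e2 : p + (r + n) = s' := by rw [← e]; abel
  have hlW : b - sg F b • (S p * S n) ∈ WW F (p + n) :=
    Submodule.sub_mem _ hb (Submodule.smul_mem _ _ (WW_mul h1.1 hw.1))
  have hl : sg F (b - sg F b • (S p * S n)) = 0 := by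
    rw [map_sub, map_smul, Mu_sg hS hp hw.1, hw.2.1, smul_eq_mul, mul_one, sub_self]
  have hl'W : S (r + n) - S r * S n ∈ WW F (r + n) :=
    Submodule.sub_mem _ hw'.1 (WW_mul h2.1 hw.1)
  have hl' : sg F (S (r + n) - S r * S n) = 0 := by
    rw [map_sub, Mu_sg hS hr hw.1, hw.2.1, hw'.2.1, sub_self]
  rw [Mu_F_apply, Mu_sg hS hr hb]
  set l := b - sg F b • (S p * S n) with hl0
  set l' := S (r + n) - S r * S n with hl0'
  have hb' : b = l + sg F b • (S p * S n) := by rw [hl0]; abel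
  have hSr : S (r + n) = l' + S r * S n := by rw [hl0']; abel
  have k1 := D.d1 r (p + n) e1 hr l hlW hl
  have k2 := D.d1 p (r + n) e2 hp l' hl'W hl'
  have k3 := D.d2 p r n e hp hr (S n) hw.1
  have k4 : S r * (S p * S n) = S p * (S r * S n) := Mu_sc1 h1.2.2 _ _
  have k5 : S r * b - sg F b • (S p * S (r + n)) = S r * l - sg F b • (S p * l') := by
    conv_lhs => rw [hSr]
    conv_lhs => arg 1; rw [hb']
    rw [mul_add, mul_smul_comm, k4, mul_add, smul_add]
    abel
  rw [k5, map_sub, map_smul, k1, k2]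
  conv_lhs => arg 2; rw [hSr]
  rw [map_add, map_add, k3, smul_add]
  conv_rhs => rw [hb']
  rw [map_add, map_add, map_smul, map_smul]
  abel

theorem Mu_rule (h : Ctx π V) (hS : IsS S) {s' : Multiset ℕ} {A : Fn F →ₗ[F] R}
    {M : Fn F →ₗ[F] Fn F} (D : Mu_D s' S Q A M) (hs' : s' ≤ V) (h6 : 5 ≤ s'.card)
    {p m₀ r m : Multiset ℕ} (e : p + m₀ = s') (e' : r + m = s') (hp : p.card = 2)
    (hr : r.card = 2) {b : Fn F} (hb : b ∈ WW F m) :
    Mu_F S Q A M p m₀ (S r * b) = Q r (M b) := by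
  classical
  -- the disjoint case
  have dis : ∀ {p m₀ r m : Multiset ℕ}, p + m₀ = s' → r + m = s' → p.card = 2 → r.card = 2 →
      p + r ≤ s' → ∀ {b : Fn F}, b ∈ WW F m → Mu_F S Q A M p m₀ (S r * b) = Q r (M b) := by
    intro p m₀ r m e e' hp hr hpr b hb
    obtain ⟨n, hn⟩ := Multiset.le_iff_exists_add.1 hpr
    have hc : s'.card = 2 + 2 + n.card := by rw [hn, Multiset.card_add, Multiset.card_add, hp, hr]
    have e1 : m₀ = r + n := by
      have : p + m₀ = p + (r + n) := by rw [e, hn]; abel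
      exact add_left_cancel this
    have e2 : m = p + n := by
      have : r + m = r + (p + n) := by rw [e', hn]; abel
      exact add_left_cancel this
    rw [e1]
    exact Mu_disj h hS D hn.symm hp hr (by omega) (Mu_cast hb e2)
  by_cases hpr : p + r ≤ s'
  · exact dis e e' hp hr hpr hb
  · have hps : p ≤ s' := e ▸ Multiset.le_add_right _ _
    have hrs : r ≤ s' := e' ▸ Multiset.le_add_right _ _
    have hcard : (p ∪ r).card ≤ 3 := by
      by_contra hc
      have h1 := Kn_union_card p r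
      have h2 : p ∪ r = p + r :=
        Multiset.eq_of_le_of_card_le (Multiset.union_le_add p r)
          (by rw [Multiset.card_add]; omega)
      exact hpr (h2 ▸ Multiset.union_le hps hrs)
    obtain ⟨u, hu, hus⟩ := Kn_exists (V := s') (s := p ∪ r) (Multiset.nodup_of_le hs' h.nodup)
      (Multiset.union_le hps hrs) (by omega)
    have hpu : p + u ≤ s' := Kn_mono hus Multiset.le_union_left
    have hru : r + u ≤ s' := Kn_mono hus Multiset.le_union_right
    have hur : u + r ≤ s' := by rw [add_comm]; exact hru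
    obtain ⟨k, hk⟩ := Multiset.le_iff_exists_add.1 ((Multiset.le_add_left u p).trans hpu)
    have hkc : s'.card = 2 + k.card := by rw [hk, Multiset.card_add, hu]
    have hSk := hS k (Mu_ne (by omega))
    have hSu := Mu_S hS hu
    have hSr := Mu_S hS hr
    have hl : S r * b - sg F b • (S u * S k) ∈ LF F s' := by
      refine QP_sub h hs' (by omega) (Mu_cast (WW_mul hSr.1 hb) e')
        (Submodule.smul_mem _ _ (Mu_cast (WW_mul hSu.1 hSk.1) hk.symm)) ?_
      rw [map_smul, Mu_sg hS hu hSk.1, hSk.2.1, smul_eq_mul, mul_one, Mu_sg hS hr hb]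
    have hb' : S r * b = (S r * b - sg F b • (S u * S k)) + sg F b • (S u * S k) := by abel
    have k1 : Mu_F S Q A M u k (S r * b) = Q r (M b) := dis hk.symm e' hu hr hur hb
    have k2 : Mu_F S Q A M p m₀ (S u * S k) = Q u (M (S k)) := dis e hk.symm hp hu hpu hSk.1
    have k3 : Mu_F S Q A M u k (S u * S k) = Q u (M (S k)) := by
      rw [Mu_F_apply, Mu_sg hS hu hSk.1, hSk.2.1, one_smul, one_smul, sub_self, map_zero,
        zero_add]
    rw [← k1, hb', map_add, map_add, map_smul, map_smul, k2, k3, Mu_F_LF _ _ _ _ _ _ hl,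
      Mu_F_LF _ _ _ _ _ _ hl]

theorem Mu_pair (V : Multiset ℕ) (hV : V.Nodup) : ∃ pr : Multiset ℕ → Multiset ℕ, ∀ s ≤ V,
    4 ≤ s.card → (pr s).card = 2 ∧ pr s + (s - pr s) = s := by
  have H : ∀ s : Multiset ℕ, ∃ p : Multiset ℕ, s ≤ V → 4 ≤ s.card →
      p.card = 2 ∧ p + (s - p) = s := by
    intro s
    by_cases hs : s ≤ V ∧ 4 ≤ s.card
    · obtain ⟨p, hp, hps⟩ := Kn_exists (V := s) (s := 0) (Multiset.nodup_of_le hs.1 hV)
        (Multiset.zero_le s) (by rw [Multiset.card_zero]; omega)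
      rw [zero_add] at hps
      exact ⟨p, fun _ _ => ⟨hp, add_tsub_cancel_of_le hps⟩⟩
    · exact ⟨0, fun h1 h2 => absurd ⟨h1, h2⟩ hs⟩
  choose pr hpr using H
  exact ⟨pr, hpr⟩

/-- the decomposition of an element of `WW s` -/
theorem Mu_dec (h : Ctx π V) (hS : IsS S) {s : Multiset ℕ} (hs : s ≤ V) (h6 : 4 ≤ s.card)
    {b : Fn F} (hb : b ∈ WW F s) : ∃ (r m : Multiset ℕ) (b₀ b₁ : Fn F) (c : F), r + m = s ∧
      r.card = 2 ∧ b₀ ∈ LF F s ∧ b₀ ∈ WW F s ∧ b₁ ∈ WW F m ∧ b = b₀ + c • (S r * b₁) := by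
  obtain ⟨pr, hpr⟩ := Mu_pair V h.nodup
  have hp := hpr s hs h6
  have hc : s.card = 2 + (s - pr s).card := by
    conv_lhs => rw [← hp.2]
    rw [Multiset.card_add, hp.1]
  have hSp := Mu_S hS hp.1
  have hSm := hS (s - pr s) (Mu_ne (by omega))
  have h1 : sg F b • (S (pr s) * S (s - pr s)) ∈ WW F s :=
    Submodule.smul_mem _ _ (Mu_cast (WW_mul hSp.1 hSm.1) hp.2)
  refine ⟨pr s, s - pr s, b - sg F b • (S (pr s) * S (s - pr s)), S (s - pr s), sg F b, hp.2,
    hp.1, ?_, Submodule.sub_mem _ hb h1, hSm.1, by abel⟩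
  refine QP_sub h hs (by omega) hb h1 ?_
  rw [map_smul, Mu_sg hS hp.1 hSm.1, hSm.2.1, smul_eq_mul, mul_one]

/-- products of two elements of `LF` -/
theorem Mu_hon (h : Ctx π V) (hβ : IsBeta π V β) (hA : IsAct π V β al ar) {s s' : Multiset ℕ}
    (e : s + s' = V) (hs : 1 ≤ s.card) (hs' : 1 ≤ s'.card) {l l' : Fn F} (hl : l ∈ LF F s)
    (hl' : l' ∈ LF F s') : al s l l' = ar s' l' l := by
  obtain ⟨p, hp, rfl⟩ := LF_le_UU s hl
  obtain ⟨q, hq, rfl⟩ := LF_le_UU s' hl'
  have hc : s.card + s'.card = V.card := by rw [← e, Multiset.card_add]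
  have e' : s' + s = V := by rw [add_comm, e]
  have hs'V : s' ≤ V := e ▸ Multiset.le_add_left _ _
  have hsV : s ≤ V := e ▸ Multiset.le_add_right _ _
  have j1 := (hA.hon s s' e p hp _ hl').1
  have j2 := (hA.hon s' s e' q hq _ hl).2
  have j3 := hβ s (Multiset.nodup_of_le hsV h.nodup) (by omega) p hp
  have j4 := hβ s' (Multiset.nodup_of_le hs'V h.nodup) (by omega) q hq
  change al s (ev F p) (ev F q) = ar s' (ev F q) (ev F p)
  change al s (ev F p) (ev F q) = _ at j1
  change ar s' (ev F q) (ev F p) = _ at j2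
  rw [j1, j2]
  change π p * β s' (ev F q) = β s (ev F p) * π q
  rw [j3, j4]

theorem Mu_DR (h : Ctx π V) (hβ : IsBeta π V β) (hA : IsAct π V β al ar) (hS : IsS S)
    (hQ : IsQ V al S Q) {s s' : Multiset ℕ} (e : s + s' = V) (h5 : 5 ≤ s'.card) {a : Fn F}
    (ha : a ∈ WW F s) : Mu_D s' S Q (al s a) (LinearMap.mulLeft F a) := by
  constructor
  · intro p m ep hp l hlW hl0
    have hSp := Mu_S hS hp
    have hVc : s.card + s'.card = V.card := by rw [← e, Multiset.card_add]
    have hmc : p.card + m.card = s'.card := by rw [← ep, Multiset.card_add]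
    have hm : m ≤ V := (Multiset.le_add_left m p).trans
      (ep.le.trans (e ▸ Multiset.le_add_left _ _))
    have hcase : l ∈ LF F m → al s a (S p * l) = Q p (a * l) := by
      intro hl
      have k1 := (act3 h hA (s := p) (s' := s) (m := m) (by rw [← e, ← ep]; abel)
        (WW_le_AF _ hSp.1) hSp.2.2 (WW_le_AF _ ha) hl).1
      have k2 := hQ.lf p (s + m) hp (by rw [← e, ← ep]; abel) (a * l)
        (AF_mul_LF h.two h.three (WW_le_AF _ ha) hl)
      rw [k1, k2]
    rw [LinearMap.mulLeft_apply]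
    by_cases h4 : 4 ≤ m.card
    · refine hcase ?_
      have := QP_sub h hm h4 hlW (zero_mem _) (by rw [hl0, map_zero])
      rwa [sub_zero] at this
    · have hc10 := h.card
      have hsc : 4 ≤ s.card := by omega
      have hs'V : s' ≤ V := e ▸ Multiset.le_add_left _ _
      have hSl : S p * l ∈ LF F s' := by
        have := QP_sub h hs'V (by omega) (Mu_cast (WW_mul hSp.1 hlW) ep) (zero_mem _)
          (by rw [Mu_sg hS hp hlW, hl0, map_zero])
        rwa [sub_zero] at this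
      obtain ⟨r, n, a₀, a₁, c, er, hr, ha0, ha0w, ha1, rfl⟩ := Mu_dec h hS
        (e ▸ Multiset.le_add_right _ _) hsc ha
      have hSr := Mu_S hS hr
      have hnc : r.card + n.card = s.card := by rw [← er, Multiset.card_add]
      have k1 : al s a₀ (S p * l) = Q p (a₀ * l) := by
        rw [Mu_hon h hβ hA e (by omega) (by omega) ha0 hSl]
        have j := (hA.sc2 p m s (by rw [← e, ← ep]; abel) (S p) (WW_le_AF _ hSp.1) hSp.2.2 l
          (WW_le_AF _ hlW) a₀ ha0).2
        rw [ep] at j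
        rw [j, hQ.lf p (s + m) hp (by rw [← e, ← ep]; abel) (a₀ * l)
          (LF_mul_AF h.two h.three (WW_le_AF _ hlW) ha0)]
      have hal : a₁ * l ∈ LF F (n + m) := by
        have := QP_sub h (m := n + m) ?_ (by rw [Multiset.card_add]; omega)
          (WW_mul ha1 hlW) (zero_mem _)
          (by rw [sg_mul (WW_le_AF _ ha1) (WW_le_AF _ hlW), hl0, mul_zero, map_zero])
        · rwa [sub_zero] at this
        · rw [← e, ← ep, ← er]
          have : r + n + (p + m) = (n + m) + (r + p) := by abel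
          rw [this]
          exact Multiset.le_add_right _ _
      have k2 : al s (S r * a₁) (S p * l) = Q p ((S r * a₁) * l) := by
        have j := (hA.sc2 r n s' (by rw [← e, ← er]) (S r) (WW_le_AF _ hSr.1) hSr.2.2 a₁
          (WW_le_AF _ ha1) (S p * l) hSl).1
        rw [er] at j
        rw [j, Mu_sc1 hSp.2.2, (act3 h hA (s := p) (s' := r) (m := n + m)
          (by rw [← e, ← ep, ← er]; abel) (WW_le_AF _ hSp.1) hSp.2.2 (WW_le_AF _ hSr.1) hal).1,
          Mu_sc2 hSr.2.2, hQ.lf p (r + (n + m)) hp (by rw [← e, ← ep, ← er]; abel)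
          (S r * (a₁ * l)) (AF_mul_LF h.two h.three (WW_le_AF _ hSr.1) hal)]
      rw [map_add, map_smul, LinearMap.add_apply, LinearMap.smul_apply, k1, k2, add_mul,
        smul_mul_assoc, map_add, map_smul]
  · intro p r n en hp hr w hw
    have hSp := Mu_S hS hp
    have hSr := Mu_S hS hr
    have k := hQ.comm p r (s + n) hp hr (by rw [← e, ← en]; abel) (a * w) (WW_mul ha hw)
    rw [LinearMap.mulLeft_apply, LinearMap.mulLeft_apply, Mu_sc1 hSr.2.2, Mu_sc1 hSp.2.2, k]

theorem Mu_DL (h : Ctx π V) (hβ : IsBeta π V β) (hA : IsAct π V β al ar) (hS : IsS S)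
    (hQ : IsQ V al S Q) {s s' : Multiset ℕ} (e : s + s' = V) (h5 : 5 ≤ s.card) {b : Fn F}
    (hb : b ∈ WW F s') : Mu_D s S Q (ar s' b) (LinearMap.mulRight F b) := by
  constructor
  · intro p m ep hp l hlW hl0
    have hSp := Mu_S hS hp
    have hVc : s.card + s'.card = V.card := by rw [← e, Multiset.card_add]
    have hmc : p.card + m.card = s.card := by rw [← ep, Multiset.card_add]
    have hm : m ≤ V := (Multiset.le_add_left m p).trans
      (ep.le.trans (e ▸ Multiset.le_add_right _ _))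
    have hcase : l ∈ LF F m → ar s' b (S p * l) = Q p (l * b) := by
      intro hl
      have k1 := (act3 h hA (s := p) (s' := s') (m := m) (by rw [← e, ← ep]; abel)
        (WW_le_AF _ hSp.1) hSp.2.2 (WW_le_AF _ hb) hl).2
      have k2 := hQ.lf p (m + s') hp (by rw [← e, ← ep]; abel) (l * b)
        (LF_mul_AF h.two h.three (WW_le_AF _ hb) hl)
      rw [k1, k2]
    rw [LinearMap.mulRight_apply]
    by_cases h4 : 4 ≤ m.card
    · refine hcase ?_
      have := QP_sub h hm h4 hlW (zero_mem _) (by rw [hl0, map_zero])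
      rwa [sub_zero] at this
    · have hc10 := h.card
      have hsc : 4 ≤ s'.card := by omega
      have hsV : s ≤ V := e ▸ Multiset.le_add_right _ _
      have hSl : S p * l ∈ LF F s := by
        have := QP_sub h hsV (by omega) (Mu_cast (WW_mul hSp.1 hlW) ep) (zero_mem _)
          (by rw [Mu_sg hS hp hlW, hl0, map_zero])
        rwa [sub_zero] at this
      obtain ⟨r, n, b₀, b₁, c, er, hr, hb0, hb0w, hb1, rfl⟩ := Mu_dec h hS
        (e ▸ Multiset.le_add_left _ _) hsc hb
      have hSr := Mu_S hS hr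
      have hnc : r.card + n.card = s'.card := by rw [← er, Multiset.card_add]
      have e' : s' + s = V := by rw [add_comm, e]
      have k1 : ar s' b₀ (S p * l) = Q p (l * b₀) := by
        rw [← Mu_hon h hβ hA e (by omega) (by omega) hSl hb0]
        have j := (hA.sc2 p m s' (by rw [← e, ← ep]) (S p) (WW_le_AF _ hSp.1) hSp.2.2 l
          (WW_le_AF _ hlW) b₀ hb0).1
        rw [ep] at j
        rw [j, hQ.lf p (m + s') hp (by rw [← e, ← ep]; abel) (l * b₀)
          (AF_mul_LF h.two h.three (WW_le_AF _ hlW) hb0)]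
      have hal : l * b₁ ∈ LF F (m + n) := by
        have := QP_sub h (m := m + n) ?_ (by rw [Multiset.card_add]; omega)
          (WW_mul hlW hb1) (zero_mem _)
          (by rw [sg_mul (WW_le_AF _ hlW) (WW_le_AF _ hb1), hl0, zero_mul, map_zero])
        · rwa [sub_zero] at this
        · rw [← e, ← ep, ← er]
          have : p + m + (r + n) = (m + n) + (r + p) := by abel
          rw [this]
          exact Multiset.le_add_right _ _
      have k2 : ar s' (S r * b₁) (S p * l) = Q p (l * (S r * b₁)) := by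
        have j := (hA.sc2 r n s (by rw [← e, ← er]; abel) (S r) (WW_le_AF _ hSr.1) hSr.2.2 b₁
          (WW_le_AF _ hb1) (S p * l) hSl).2
        rw [er] at j
        rw [j, Mu_sc2 hSp.2.2, (act3 h hA (s := p) (s' := r) (m := m + n)
          (by rw [← e, ← ep, ← er]; abel) (WW_le_AF _ hSp.1) hSp.2.2 (WW_le_AF _ hSr.1) hal).1,
          Mu_sc1 hSr.2.2, hQ.lf p (r + (m + n)) hp (by rw [← e, ← ep, ← er]; abel)
          (S r * (l * b₁)) (AF_mul_LF h.two h.three (WW_le_AF _ hSr.1) hal)]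
      rw [map_add, map_smul, LinearMap.add_apply, LinearMap.smul_apply, k1, k2, mul_add,
        mul_smul_comm, map_add, map_smul]
  · intro p r n en hp hr w hw
    have hSp := Mu_S hS hp
    have hSr := Mu_S hS hr
    have k := hQ.comm p r (n + s') hp hr (by rw [← e, ← en]; abel) (w * b) (WW_mul hw hb)
    rw [LinearMap.mulRight_apply, LinearMap.mulRight_apply, Mu_sc2 hSr.2.2, Mu_sc2 hSp.2.2, k]

/-- the right rule -/
theorem exists_muR (h : Ctx π V) (hβ : IsBeta π V β) (hA : IsAct π V β al ar) (hS : IsS S) (hQ : IsQ V al S Q) :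
    ∃ mu : Multiset ℕ → Multiset ℕ → Fn F →ₗ[F] Fn F →ₗ[F] R,
      (∀ s s' : Multiset ℕ, s + s' = V → 5 ≤ s'.card → ∀ a ∈ WW F s, ∀ l ∈ LF F s',
        l ∈ WW F s' → mu s s' a l = al s a l) ∧
      (∀ s s' p m : Multiset ℕ, s + s' = V → p + m = s' → p.card = 2 → 5 ≤ s'.card →
        ∀ a ∈ WW F s, ∀ b ∈ WW F m, mu s s' a (S p * b) = Q p (a * b)) := by
  obtain ⟨pr, hpr⟩ := Mu_pair V h.nodup
  refine ⟨fun s s' => LinearMap.mk₂ F
    (fun a b => Mu_F S Q (al s a) (LinearMap.mulLeft F a) (pr s') (s' - pr s') b)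
    (fun a a' b => ?_) (fun c a b => ?_) (fun a b b' => map_add _ _ _)
    (fun c a b => map_smul _ _ _), ?_, ?_⟩
  · simp only [Mu_F_apply, map_add, LinearMap.add_apply, LinearMap.mulLeft_apply, add_mul,
      smul_add]
    abel
  · simp only [Mu_F_apply, map_smul, LinearMap.smul_apply, LinearMap.mulLeft_apply,
      smul_mul_assoc, smul_add]
    rw [smul_comm]
  · intro s s' e h6 a ha l hl hlw
    exact Mu_F_LF S Q (al s a) (LinearMap.mulLeft F a) (pr s') (s' - pr s') hl
  · intro s s' p m e ep hp h6 a ha b hb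
    have hs' : s' ≤ V := e ▸ Multiset.le_add_left _ _
    have hp' := hpr s' hs' (by omega)
    exact Mu_rule h hS (Mu_DR h hβ hA hS hQ e h6 ha) hs' h6 hp'.2 ep hp'.1 hp hb

/-- the left rule -/
theorem exists_muL (h : Ctx π V) (hβ : IsBeta π V β) (hA : IsAct π V β al ar) (hS : IsS S) (hQ : IsQ V al S Q) :
    ∃ mu : Multiset ℕ → Multiset ℕ → Fn F →ₗ[F] Fn F →ₗ[F] R,
      (∀ s s' : Multiset ℕ, s + s' = V → 5 ≤ s.card → ∀ l ∈ LF F s, l ∈ WW F s →
        ∀ b ∈ WW F s', mu s s' l b = ar s' b l) ∧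
      (∀ s s' p m : Multiset ℕ, s + s' = V → p + m = s → p.card = 2 → 5 ≤ s.card →
        ∀ a ∈ WW F m, ∀ b ∈ WW F s', mu s s' (S p * a) b = Q p (a * b)) := by
  obtain ⟨pr, hpr⟩ := Mu_pair V h.nodup
  refine ⟨fun s s' => LinearMap.mk₂ F
    (fun a b => Mu_F S Q (ar s' b) (LinearMap.mulRight F b) (pr s) (s - pr s) a)
    (fun a a' b => map_add _ _ _) (fun c a b => map_smul _ _ _) (fun a b b' => ?_)
    (fun c a b => ?_), ?_, ?_⟩
  · simp only [Mu_F_apply, map_add, LinearMap.add_apply, LinearMap.mulRight_apply, mul_add,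
      smul_add]
    abel
  · simp only [Mu_F_apply, map_smul, LinearMap.smul_apply, LinearMap.mulRight_apply,
      mul_smul_comm, smul_add]
    rw [smul_comm]
  · intro s s' e h6 l hl hlw b hb
    exact Mu_F_LF S Q (ar s' b) (LinearMap.mulRight F b) (pr s) (s - pr s) hl
  · intro s s' p m e ep hp h6 a ha b hb
    have hs : s ≤ V := e ▸ Multiset.le_add_right _ _
    have hp' := hpr s hs (by omega)
    exact Mu_rule h hS (Mu_DL h hβ hA hS hQ e h6 hb) hs h6 hp'.2 ep hp'.1 hp ha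

theorem exists_mu (h : Ctx π V) (hβ : IsBeta π V β) (hA : IsAct π V β al ar) (hS : IsS S)
    (hQ : IsQ V al S Q) :
    ∃ mu : Multiset ℕ → Multiset ℕ → Fn F →ₗ[F] Fn F →ₗ[F] R, IsMu V al ar S Q mu := by
  classical
  obtain ⟨mR, hR1, hR2⟩ := exists_muR h hβ hA hS hQ
  obtain ⟨mL, hL1, hL2⟩ := exists_muL h hβ hA hS hQ
  have hc10 := h.card
  have hVc : ∀ {s s' : Multiset ℕ}, s + s' = V → s.card + s'.card = V.card := by
    intro s s' e
    rw [← e, Multiset.card_add]
  refine ⟨fun s s' => if 5 ≤ s'.card then mR s s' else mL s s', ?_, ?_, ?_, ?_⟩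
  · intro s s' e a ha l hl hlw
    by_cases h5 : 5 ≤ s'.card
    · rw [if_pos h5]
      exact hR1 s s' e h5 a ha l hl hlw
    · rw [if_neg h5]
      have hs5 : 5 ≤ s.card := by have := hVc e; omega
      obtain ⟨r, m, a₀, a₁, c, er, hr, ha0, ha0w, ha1, rfl⟩ := Mu_dec h hS
        (e ▸ Multiset.le_add_right _ _) (by omega) ha
      have hSr := Mu_S hS hr
      have k1 : mL s s' a₀ l = al s a₀ l := by
        by_cases h0 : 1 ≤ s'.card
        · rw [hL1 s s' e hs5 a₀ ha0 ha0w l hlw, Mu_hon h hβ hA e (by omega) h0 ha0 hl]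
        · have hz : l = 0 := by
            have hb := LF_small (F := F) (m := s') (by omega)
            rw [hb, Submodule.mem_bot] at hl
            exact hl
          rw [hz, map_zero, map_zero]
      have k2 : mL s s' (S r * a₁) l = al s (S r * a₁) l := by
        rw [hL2 s s' r m e er hr hs5 a₁ ha1 l hlw,
          hQ.lf r (m + s') hr (by rw [← e, ← er]; abel) (a₁ * l)
            (AF_mul_LF h.two h.three (WW_le_AF _ ha1) hl)]
        have j := (hA.sc2 r m s' (by rw [← e, ← er]) (S r) (WW_le_AF _ hSr.1) hSr.2.2 a₁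
          (WW_le_AF _ ha1) l hl).1
        rw [er] at j
        exact j.symm
      rw [map_add, map_smul, LinearMap.add_apply, LinearMap.smul_apply, k1, k2, map_add,
        map_smul, LinearMap.add_apply, LinearMap.smul_apply]
  · intro s s' p m e ep hp a ha b hb
    by_cases h5 : 5 ≤ s'.card
    · rw [if_pos h5]
      exact hR2 s s' p m e ep hp h5 a ha b hb
    · rw [if_neg h5]
      have hs5 : 5 ≤ s.card := by have := hVc e; omega
      obtain ⟨r, n, a₀, a₁, c, er, hr, ha0, ha0w, ha1, rfl⟩ := Mu_dec h hS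
        (e ▸ Multiset.le_add_right _ _) (by omega) ha
      have hSr := Mu_S hS hr
      have hSp := Mu_S hS hp
      have hbw : S p * b ∈ WW F s' := Mu_cast (WW_mul hSp.1 hb) ep
      have k1 : mL s s' a₀ (S p * b) = Q p (a₀ * b) := by
        rw [hL1 s s' e hs5 a₀ ha0 ha0w (S p * b) hbw]
        have j := (hA.sc2 p m s (by rw [← e, ← ep]; abel) (S p) (WW_le_AF _ hSp.1) hSp.2.2 b
          (WW_le_AF _ hb) a₀ ha0).2
        rw [ep] at j
        rw [j, hQ.lf p (s + m) hp (by rw [← e, ← ep]; abel) (a₀ * b)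
          (LF_mul_AF h.two h.three (WW_le_AF _ hb) ha0)]
      have k2 : mL s s' (S r * a₁) (S p * b) = Q p ((S r * a₁) * b) := by
        rw [hL2 s s' r n e er hr hs5 a₁ ha1 (S p * b) hbw, Mu_sc1 hSp.2.2, Mu_sc2 hSr.2.2]
        exact hQ.comm r p (n + m) hr hp (by rw [← e, ← ep, ← er]; abel) (a₁ * b)
          (WW_mul ha1 hb)
      rw [map_add, map_smul, LinearMap.add_apply, LinearMap.smul_apply, k1, k2, add_mul,
        smul_mul_assoc, map_add, map_smul]
  · intro s s' e l hl hlw b hb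
    by_cases h5 : 5 ≤ s'.card
    · rw [if_pos h5]
      obtain ⟨r, m, b₀, b₁, c, er, hr, hb0, hb0w, hb1, rfl⟩ := Mu_dec h hS
        (e ▸ Multiset.le_add_left _ _) (by omega) hb
      have hSr := Mu_S hS hr
      have k1 : mR s s' l b₀ = ar s' b₀ l := by
        by_cases h0 : 1 ≤ s.card
        · rw [hR1 s s' e h5 l hlw b₀ hb0 hb0w, Mu_hon h hβ hA e h0 (by omega) hl hb0]
        · have hz : l = 0 := by
            have hb := LF_small (F := F) (m := s) (by omega)
            rw [hb, Submodule.mem_bot] at hl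
            exact hl
          rw [hz, map_zero, map_zero, LinearMap.zero_apply]
      have k2 : mR s s' l (S r * b₁) = ar s' (S r * b₁) l := by
        rw [hR2 s s' r m e er hr h5 l hlw b₁ hb1,
          hQ.lf r (s + m) hr (by rw [← e, ← er]; abel) (l * b₁)
            (LF_mul_AF h.two h.three (WW_le_AF _ hb1) hl)]
        have j := (hA.sc2 r m s (by rw [← e, ← er]; abel) (S r) (WW_le_AF _ hSr.1) hSr.2.2 b₁
          (WW_le_AF _ hb1) l hl).2
        rw [er] at j
        exact j.symm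
      rw [map_add, map_smul, k1, k2, map_add, map_smul, LinearMap.add_apply,
        LinearMap.smul_apply]
    · rw [if_neg h5]
      exact hL1 s s' e (by have := hVc e; omega) l hl hlw b hb
  · intro s s' p m e ep hp a ha b hb
    by_cases h5 : 5 ≤ s'.card
    · rw [if_pos h5]
      obtain ⟨r, n, b₀, b₁, c, er, hr, hb0, hb0w, hb1, rfl⟩ := Mu_dec h hS
        (e ▸ Multiset.le_add_left _ _) (by omega) hb
      have hSr := Mu_S hS hr
      have hSp := Mu_S hS hp
      have haw : S p * a ∈ WW F s := Mu_cast (WW_mul hSp.1 ha) ep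
      have k1 : mR s s' (S p * a) b₀ = Q p (a * b₀) := by
        rw [hR1 s s' e h5 (S p * a) haw b₀ hb0 hb0w]
        have j := (hA.sc2 p m s' (by rw [← e, ← ep]) (S p) (WW_le_AF _ hSp.1) hSp.2.2 a
          (WW_le_AF _ ha) b₀ hb0).1
        rw [ep] at j
        rw [j, hQ.lf p (m + s') hp (by rw [← e, ← ep]; abel) (a * b₀)
          (AF_mul_LF h.two h.three (WW_le_AF _ ha) hb0)]
      have k2 : mR s s' (S p * a) (S r * b₁) = Q p (a * (S r * b₁)) := by
        rw [hR2 s s' r n e er hr h5 (S p * a) haw b₁ hb1, Mu_sc2 hSp.2.2, Mu_sc1 hSr.2.2]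
        exact hQ.comm r p (m + n) hr hp (by rw [← e, ← ep, ← er]; abel) (a * b₁)
          (WW_mul ha hb1)
      rw [map_add, map_smul, k1, k2, mul_add, mul_smul_comm, map_add, map_smul]
    · rw [if_neg h5]
      exact hL2 s s' p m e ep hp (by have := hVc e; omega) a ha b hb

end Pool.Agent.OB
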