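import Pool.Agent.OB.Mu

/-!
# Laws of the top products  (module MuL)

As `V.card ≥ 10` one of the multidegrees has at least 4 elements (if one of them is 0 then the element is
0). Write the element of this degree as `l + S p * (..)`, `l ∈ LF ∩ WW` (`QP_sub`); the laws are linear in it.
For `S p * c₁` all terms are values of `Q p` at real expressions (`RQ`, `LQ`; the scalar `S p` can be moved:
e.g. `b * (S p * c₁) = S p * (b * c₁)`), and the law holds in the alternative algebra `Fn F`. For `l`: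

`mu_altL`: `c = l`: `IsAct.p3`; `a = l`: `ar s₃ c (l b + b l) = ar (s₂ + s₃) (b c) l + al s₂ b (l c)` (`p2`); `b = l` symmetric.
`mu_altR`: `b = l`: `al s₁ a (l c + c l) = ar s₃ c (a l) + al (s₁ + s₃) (a c) l` (`p1`); `c = l` symmetric; `a = l`:
`ar (s₂ + s₃) (b c + c b) l = ar s₃ c (l b) + ar s₂ b (l c)`: from `p2` twice and `act_sw`.
`mu_scC`: `v = l`: `sc`. `z` of degree `≥ 4`: write `z = z₀ + sg z • (S p * S (s - p))`; if `s.card` is odd then `sg z = 0`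
(`sg_odd`), if it is even then `S (s - p)` is scalar; so `z₀` is scalar: `scL`.
`mu_scA`: `w = l`: `sc2` (left); `v = l`: `ar s₃ w (z l) = al s₁ z (l w)` (`act3`); `z = z₀ ∈ LF` scalar:
`ar s₃ w (z₀ v) = ar (s₂ + s₃) (v w) z₀` from `scL2`, `p1`, `p2` (`z₀ v = v z₀`).
-/

set_option autoImplicit false
set_option linter.unusedSectionVars false

namespace Pool.Agent.OB

open FreeNonUnitalNonAssocAlgebra Pool.Agent.H.MP_41922c_al Pool.Agent.Smt

variable {F : Type*} [Field F] {R : Type*} [NonUnitalNonAssocRing R] [Module F R]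
  [IsScalarTower F R R] [SMulCommClass F R R]
variable {π : FA F →ₙₐ[F] R} {V : Multiset ℕ} {β : Multiset ℕ → Fn F →ₗ[F] R}
  {al ar : Multiset ℕ → Fn F →ₗ[F] Fn F →ₗ[F] R} {S : Multiset ℕ → Fn F}
  {Q : Multiset ℕ → Fn F →ₗ[F] R} {mu : Multiset ℕ → Multiset ℕ → Fn F →ₗ[F] Fn F →ₗ[F] R}
  {s₁ s₂ s₃ : Multiset ℕ} {a b c : Fn F}

theorem MuL_W {m n : Multiset ℕ} {x : Fn F} (h : x ∈ WW F m) (e : m = n) : x ∈ WW F n := e ▸ h

theorem MuL_L {m n : Multiset ℕ} {x : Fn F} (h : x ∈ LF F m) (e : m = n) : x ∈ LF F n := e ▸ h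

theorem MuL_sc_sub {x y : Fn F} (hx : IsSc x) (hy : IsSc y) : IsSc (x - y) := by
  obtain ⟨s, hs⟩ := hx
  obtain ⟨t, ht⟩ := hy
  refine ⟨fun v => s v - t v, fun v => ?_⟩
  rw [Pi.sub_apply, hs, ht, sub_smul]

theorem MuL_sc_smul {x : Fn F} (hx : IsSc x) (k : F) : IsSc (k • x) := by
  obtain ⟨s, hs⟩ := hx
  refine ⟨fun v => k * s v, fun v => ?_⟩
  rw [Pi.smul_apply, hs, smul_smul]

/-- the left alternative law -/
theorem MuL_alt (x y z : Fn F) : (x * y + y * x) * z = x * (y * z) + y * (x * z) := by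
  funext v
  have h := alt12_oc (x v) (y v) (z v)
  simp only [associator_apply] at h
  show (x v * y v + y v * x v) * z v = x v * (y v * z v) + y v * (x v * z v)
  rw [add_mul]
  have h' : x v * y v * z v + y v * x v * z v - (x v * (y v * z v) + y v * (x v * z v)) = 0 := by
    have e : x v * y v * z v + y v * x v * z v - (x v * (y v * z v) + y v * (x v * z v)) =
      (x v * y v * z v - x v * (y v * z v)) + (y v * x v * z v - y v * (x v * z v)) := by abel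
    rw [e, h]
    abel
  exact sub_eq_zero.1 h'

/-- the right alternative law -/
theorem MuL_alt' (x y z : Fn F) : x * (y * z + z * y) = x * y * z + x * z * y := by
  funext v
  have h := alt23_oc (x v) (y v) (z v)
  simp only [associator_apply] at h
  show x v * (y v * z v + z v * y v) = x v * y v * z v + x v * z v * y v
  rw [mul_add]
  have h' : x v * y v * z v + x v * z v * y v - (x v * (y v * z v) + x v * (z v * y v)) = 0 := by
    have e : x v * y v * z v + x v * z v * y v - (x v * (y v * z v) + x v * (z v * y v)) =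
      (x v * y v * z v - x v * (y v * z v)) + (x v * z v * y v - x v * (z v * y v)) := by abel
    rw [e, h]
    abel
  exact (sub_eq_zero.1 h').symm

/-- a scalar can be moved -/
theorem MuL_m1 {z : Fn F} (hz : IsSc z) (x y : Fn F) : x * (z * y) = z * (x * y) := by
  rw [← (hz.assoc x y).2.1, ← (hz.assoc x y).1, hz.comm x]

theorem MuL_m2 {z : Fn F} (hz : IsSc z) (x y : Fn F) : (z * x) * y = z * (x * y) :=
  (hz.assoc x y).1

theorem MuL_dec (h : Ctx π V) (hS : IsS S) {m : Multiset ℕ} (hm : m ≤ V) (hc : 4 ≤ m.card)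
    {c : Fn F} (hc' : c ∈ WW F m) : ∃ (p m' : Multiset ℕ) (l c₁ : Fn F), p + m' = m ∧
      p.card = 2 ∧ l ∈ LF F m ∧ l ∈ WW F m ∧ c₁ ∈ WW F m' ∧ IsSc (S p) ∧ c = l + S p * c₁ ∧
      (IsSc c → IsSc l ∧ IsSc c₁) := by
  have hn : m.Nodup := Multiset.nodup_of_le hm h.nodup
  obtain ⟨p, hp, hpm⟩ := Kn_exists (s := 0) hn (Multiset.zero_le m) (by simp; omega)
  rw [zero_add] at hpm
  obtain ⟨m', rfl⟩ := Multiset.le_iff_exists_add.1 hpm
  rw [Multiset.card_add] at hc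
  have hp0 : p ≠ 0 := by
    rintro rfl
    simp at hp
  have hm0 : m' ≠ 0 := by
    rintro rfl
    rw [Multiset.card_zero] at hc
    omega
  obtain ⟨q1, q2, q3⟩ := hS p hp0
  obtain ⟨r1, r2, r3⟩ := hS m' hm0
  have hpe : IsSc (S p) := q3 (by rw [hp]; exact even_two)
  have hc1 : sg F c • S m' ∈ WW F m' := Submodule.smul_mem _ _ r1
  have hw : S p * (sg F c • S m') ∈ WW F (p + m') := WW_mul q1 hc1
  have hsg : sg F (S p * (sg F c • S m')) = sg F c := by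
    rw [sg_mul (WW_le_AF _ q1) (WW_le_AF _ hc1), q2, map_smul, r2, smul_eq_mul]
    ring
  have hl := QP_sub h hm (by rw [Multiset.card_add]; omega) hc' hw hsg.symm
  refine ⟨p, m', c - S p * (sg F c • S m'), sg F c • S m', rfl, hp, hl, Submodule.sub_mem _ hc' hw,
    hc1, hpe, (sub_add_cancel _ _).symm, fun hs => ?_⟩
  have h1 : IsSc (sg F c • S m') := by
    rcases Nat.even_or_odd (p + m').card with he | ho
    · refine MuL_sc_smul (r3 ?_) _
      rw [Multiset.card_add, hp] at he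
      exact (Nat.even_add.1 he).1 even_two
    · rw [sg_odd h.two ho hc' hs, zero_smul]
      exact ⟨fun _ => 0, fun v => by rw [zero_smul]; rfl⟩
  exact ⟨MuL_sc_sub hs (hpe.mul h1), h1⟩

theorem MuL_e1 (f : Fn F →ₗ[F] Fn F →ₗ[F] R) (x y z : Fn F) : f (x + y) z = f x z + f y z := by
  rw [map_add, LinearMap.add_apply]

theorem MuL_e2 (f : Fn F →ₗ[F] Fn F →ₗ[F] R) (x y z : Fn F) : f z (x + y) = f z x + f z y :=
  map_add _ _ _

theorem MuL_c {s t : Multiset ℕ} (h : 4 ≤ s.card) : 4 ≤ (s + t).card := by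
  rw [Multiset.card_add]
  omega

theorem MuL_c' {s t : Multiset ℕ} (h : 4 ≤ t.card) : 4 ≤ (s + t).card := by
  rw [Multiset.card_add]
  omega

theorem MuL_le1 (e : s₁ + s₂ + s₃ = V) : s₁ ≤ V := by
  rw [← e, add_assoc]
  exact Multiset.le_add_right _ _

theorem MuL_le2 (e : s₁ + s₂ + s₃ = V) : s₂ ≤ V := by
  rw [← e]
  exact (Multiset.le_add_left s₂ s₁).trans (Multiset.le_add_right _ _)

theorem MuL_le3 (e : s₁ + s₂ + s₃ = V) : s₃ ≤ V := by
  rw [← e]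
  exact Multiset.le_add_left _ _

theorem MuL_three (h : Ctx π V) (e : s₁ + s₂ + s₃ = V) :
    4 ≤ s₁.card ∨ 4 ≤ s₂.card ∨ 4 ≤ s₃.card := by
  have h16 := h.card
  rw [← e, Multiset.card_add, Multiset.card_add] at h16
  omega

/-! ### the left alternative law -/

theorem MuL_altL_c (h : Ctx π V) (hA : IsAct π V β al ar) (hS : IsS S)
    (hM : IsMu V al ar S Q mu) (e : s₁ + s₂ + s₃ = V) (h6 : 4 ≤ s₃.card) (ha : a ∈ WW F s₁)
    (hb : b ∈ WW F s₂) (hc : c ∈ WW F s₃) : mu (s₁ + s₂) s₃ (a * b + b * a) c =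
      mu s₁ (s₂ + s₃) a (b * c) + mu s₂ (s₁ + s₃) b (a * c) := by
  obtain ⟨p, m', l, c₁, rfl, hp, hl, hlw, hc1, hSp, rfl, -⟩ := MuL_dec h hS (MuL_le3 e) h6 hc
  have e1 : s₁ + (s₂ + (p + m')) = V := by rw [← e]; abel
  have e2 : s₂ + (s₁ + (p + m')) = V := by rw [← e]; abel
  have hab : a * b + b * a ∈ WW F (s₁ + s₂) :=
    Submodule.add_mem _ (WW_mul ha hb) (MuL_W (WW_mul hb ha) (add_comm _ _))
  have A := WW_le_AF _ ha
  have B := WW_le_AF _ hb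
  have L1 := hM.RL (s₁ + s₂) (p + m') e _ hab l hl hlw
  have L2 := hM.RL s₁ (s₂ + (p + m')) e1 a ha (b * l) (AF_mul_LF h.two h.three B hl)
    (WW_mul hb hlw)
  have L3 := hM.RL s₂ (s₁ + (p + m')) e2 b hb (a * l) (AF_mul_LF h.two h.three A hl)
    (WW_mul ha hlw)
  have L4 := hA.p3 s₁ s₂ (p + m') e a A b B l hl
  have Q1 := hM.RQ (s₁ + s₂) (p + m') p m' e rfl hp _ hab c₁ hc1
  have Q2 := hM.RQ s₁ (s₂ + (p + m')) p (s₂ + m') e1 (by abel) hp a ha (b * c₁)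
    (WW_mul hb hc1)
  have Q3 := hM.RQ s₂ (s₁ + (p + m')) p (s₁ + m') e2 (by abel) hp b hb (a * c₁)
    (WW_mul ha hc1)
  rw [mul_add b l, mul_add a l, MuL_m1 hSp b c₁, MuL_m1 hSp a c₁, MuL_e2 _ l, MuL_e2 _ (b * l),
    MuL_e2 _ (a * l), L1, L2, L3, L4, Q1, Q2, Q3, MuL_alt, map_add (Q p)]
  abel

theorem MuL_altL_a (h : Ctx π V) (hA : IsAct π V β al ar) (hS : IsS S)
    (hM : IsMu V al ar S Q mu) (e : s₁ + s₂ + s₃ = V) (h6 : 4 ≤ s₁.card) (ha : a ∈ WW F s₁)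
    (hb : b ∈ WW F s₂) (hc : c ∈ WW F s₃) : mu (s₁ + s₂) s₃ (a * b + b * a) c =
      mu s₁ (s₂ + s₃) a (b * c) + mu s₂ (s₁ + s₃) b (a * c) := by
  obtain ⟨p, m', l, a₁, rfl, hp, hl, hlw, ha1, hSp, rfl, -⟩ := MuL_dec h hS (MuL_le1 e) h6 ha
  have e1 : p + m' + (s₂ + s₃) = V := by rw [← e]; abel
  have e2 : s₂ + (p + m' + s₃) = V := by rw [← e]; abel
  have e3 : s₂ + s₃ + (p + m') = V := by rw [← e]; abel
  have B := WW_le_AF _ hb
  have C := WW_le_AF _ hc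
  have c1 : s₂ + (p + m') = p + m' + s₂ := add_comm _ _
  have L1 := hM.LL (p + m' + s₂) s₃ e (l * b + b * l)
    (Submodule.add_mem _ (LF_mul_AF h.two h.three B hl)
      (MuL_L (AF_mul_LF h.two h.three B hl) c1))
    (Submodule.add_mem _ (WW_mul hlw hb) (MuL_W (WW_mul hb hlw) c1)) c hc
  have L2 := hM.LL (p + m') (s₂ + s₃) e1 l hl hlw (b * c) (WW_mul hb hc)
  have L3 := hM.RL s₂ (p + m' + s₃) e2 b hb (l * c) (LF_mul_AF h.two h.three C hl)
    (WW_mul hlw hc)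
  have L4 := hA.p2 s₂ s₃ (p + m') e3 b B c C l hl
  have Q1 := hM.LQ (p + m' + s₂) s₃ p (m' + s₂) e (by abel) hp (a₁ * b + b * a₁)
    (Submodule.add_mem _ (WW_mul ha1 hb) (MuL_W (WW_mul hb ha1) (add_comm _ _))) c hc
  have Q2 := hM.LQ (p + m') (s₂ + s₃) p m' e1 rfl hp a₁ ha1 (b * c) (WW_mul hb hc)
  have Q3 := hM.RQ s₂ (p + m' + s₃) p (m' + s₃) e2 (by abel) hp b hb (a₁ * c)
    (WW_mul ha1 hc)
  have X : (l + S p * a₁) * b + b * (l + S p * a₁) =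
      (l * b + b * l) + S p * (a₁ * b + b * a₁) := by
    rw [add_mul, mul_add, MuL_m2 hSp, MuL_m1 hSp, mul_add (S p)]
    abel
  rw [X, add_mul l, MuL_m2 hSp, MuL_e1 _ (l * b + b * l), MuL_e1 _ l, MuL_e2 _ (l * c), L1, L2, L3,
    Q1, Q2, Q3, L4, MuL_alt, map_add (Q p), map_add (ar s₃ c)]
  abel

theorem mu_altL (h : Ctx π V) (hA : IsAct π V β al ar) (hS : IsS S) (hQ : IsQ V al S Q)
    (hM : IsMu V al ar S Q mu) (e : s₁ + s₂ + s₃ = V) (ha : a ∈ WW F s₁) (hb : b ∈ WW F s₂)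
    (hc : c ∈ WW F s₃) : mu (s₁ + s₂) s₃ (a * b + b * a) c =
      mu s₁ (s₂ + s₃) a (b * c) + mu s₂ (s₁ + s₃) b (a * c) := by
  rcases MuL_three h e with h6 | h6 | h6
  · exact MuL_altL_a h hA hS hM e h6 ha hb hc
  · have k := MuL_altL_a h hA hS hM (by rw [add_comm s₂ s₁, e]) h6 hb ha hc
    rw [add_comm s₁ s₂, add_comm (a * b), k, add_comm]
  · exact MuL_altL_c h hA hS hM e h6 ha hb hc

/-! ### the right alternative law -/

theorem MuL_altR_b (h : Ctx π V) (hA : IsAct π V β al ar) (hS : IsS S)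
    (hM : IsMu V al ar S Q mu) (e : s₁ + s₂ + s₃ = V) (h6 : 4 ≤ s₂.card) (ha : a ∈ WW F s₁)
    (hb : b ∈ WW F s₂) (hc : c ∈ WW F s₃) : mu s₁ (s₂ + s₃) a (b * c + c * b) =
      mu (s₁ + s₂) s₃ (a * b) c + mu (s₁ + s₃) s₂ (a * c) b := by
  obtain ⟨p, m', l, b₁, rfl, hp, hl, hlw, hb1, hSp, rfl, -⟩ := MuL_dec h hS (MuL_le2 e) h6 hb
  have e1 : s₁ + (p + m' + s₃) = V := by rw [← e]; abel
  have e2 : s₁ + s₃ + (p + m') = V := by rw [← e]; abel
  have A := WW_le_AF _ ha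
  have C := WW_le_AF _ hc
  have c1 : s₃ + (p + m') = p + m' + s₃ := add_comm _ _
  have L1 := hM.RL s₁ (p + m' + s₃) e1 a ha (l * c + c * l)
    (Submodule.add_mem _ (LF_mul_AF h.two h.three C hl)
      (MuL_L (AF_mul_LF h.two h.three C hl) c1))
    (Submodule.add_mem _ (WW_mul hlw hc) (MuL_W (WW_mul hc hlw) c1))
  have L2 := hM.LL (s₁ + (p + m')) s₃ e (a * l) (AF_mul_LF h.two h.three A hl)
    (WW_mul ha hlw) c hc
  have L3 := hM.RL (s₁ + s₃) (p + m') e2 (a * c) (WW_mul ha hc) l hl hlw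
  have L4 := hA.p1 s₁ s₃ (p + m') e2 a A c C l hl
  have Q1 := hM.RQ s₁ (p + m' + s₃) p (m' + s₃) e1 (by abel) hp a ha
    (b₁ * c + c * b₁) (Submodule.add_mem _ (WW_mul hb1 hc) (MuL_W (WW_mul hc hb1) (add_comm _ _)))
  have Q2 := hM.LQ (s₁ + (p + m')) s₃ p (s₁ + m') e (by abel) hp (a * b₁)
    (WW_mul ha hb1) c hc
  have Q3 := hM.RQ (s₁ + s₃) (p + m') p m' e2 rfl hp (a * c) (WW_mul ha hc) b₁ hb1
  have X : (l + S p * b₁) * c + c * (l + S p * b₁) =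
      (l * c + c * l) + S p * (b₁ * c + c * b₁) := by
    rw [add_mul, mul_add, MuL_m2 hSp, MuL_m1 hSp, mul_add (S p)]
    abel
  rw [X, mul_add a l, MuL_m1 hSp, MuL_e2 _ (l * c + c * l), MuL_e1 _ (a * l), MuL_e2 _ l, L1, L2, L3,
    Q1, Q2, Q3, L4, MuL_alt', map_add (Q p), map_add (al s₁ a)]
  abel

theorem MuL_altR_a (h : Ctx π V) (hA : IsAct π V β al ar) (hS : IsS S)
    (hM : IsMu V al ar S Q mu) (e : s₁ + s₂ + s₃ = V) (h6 : 4 ≤ s₁.card) (ha : a ∈ WW F s₁)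
    (hb : b ∈ WW F s₂) (hc : c ∈ WW F s₃) : mu s₁ (s₂ + s₃) a (b * c + c * b) =
      mu (s₁ + s₂) s₃ (a * b) c + mu (s₁ + s₃) s₂ (a * c) b := by
  obtain ⟨p, m', l, a₁, rfl, hp, hl, hlw, ha1, hSp, rfl, -⟩ := MuL_dec h hS (MuL_le1 e) h6 ha
  have e1 : p + m' + (s₂ + s₃) = V := by rw [← e]; abel
  have e2 : p + m' + s₃ + s₂ = V := by rw [← e]; abel
  have e3 : s₂ + s₃ + (p + m') = V := by rw [← e]; abel
  have e4 : s₃ + s₂ + (p + m') = V := by rw [← e]; abel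
  have B := WW_le_AF _ hb
  have C := WW_le_AF _ hc
  have hbc : b * c + c * b ∈ WW F (s₂ + s₃) :=
    Submodule.add_mem _ (WW_mul hb hc) (MuL_W (WW_mul hc hb) (add_comm _ _))
  have L1 := hM.LL (p + m') (s₂ + s₃) e1 l hl hlw _ hbc
  have L2 := hM.LL (p + m' + s₂) s₃ e (l * b) (LF_mul_AF h.two h.three B hl)
    (WW_mul hlw hb) c hc
  have L3 := hM.LL (p + m' + s₃) s₂ e2 (l * c) (LF_mul_AF h.two h.three C hl)
    (WW_mul hlw hc) b hb
  have L4 := hA.p2 s₂ s₃ (p + m') e3 b B c C l hl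
  have L5 := hA.p2 s₃ s₂ (p + m') e4 c C b B l hl
  rw [add_comm s₃ s₂] at L5
  have L6 := act_sw h hA e3 B C hl
  have Q1 := hM.LQ (p + m') (s₂ + s₃) p m' e1 rfl hp a₁ ha1 _ hbc
  have Q2 := hM.LQ (p + m' + s₂) s₃ p (m' + s₂) e (by abel) hp (a₁ * b)
    (WW_mul ha1 hb) c hc
  have Q3 := hM.LQ (p + m' + s₃) s₂ p (m' + s₃) e2 (by abel) hp (a₁ * c)
    (WW_mul ha1 hc) b hb
  have L7 : ar (s₂ + s₃) (b * c + c * b) l = ar s₃ c (l * b) + ar s₂ b (l * c) := by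
    rw [MuL_e1, L4, L5]
    have e5 : ar s₃ c (l * b) + ar s₃ c (b * l) - al s₂ b (l * c) +
        (ar s₂ b (l * c) + ar s₂ b (c * l) - al s₃ c (l * b)) =
        ar s₃ c (l * b) + ar s₂ b (l * c) +
        (ar s₃ c (b * l) - al s₂ b (l * c) + (ar s₂ b (c * l) - al s₃ c (l * b))) := by abel
    rw [e5, L6, add_zero]
  rw [add_mul l _ b, add_mul l _ c, MuL_m2 hSp a₁ b, MuL_m2 hSp a₁ c, MuL_e1 _ l, MuL_e1 _ (l * b),
    MuL_e1 _ (l * c), L1, L2, L3, Q1, Q2, Q3, L7, MuL_alt', map_add (Q p)]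
  abel

theorem mu_altR (h : Ctx π V) (hA : IsAct π V β al ar) (hS : IsS S) (hQ : IsQ V al S Q)
    (hM : IsMu V al ar S Q mu) (e : s₁ + s₂ + s₃ = V) (ha : a ∈ WW F s₁) (hb : b ∈ WW F s₂)
    (hc : c ∈ WW F s₃) : mu s₁ (s₂ + s₃) a (b * c + c * b) =
      mu (s₁ + s₂) s₃ (a * b) c + mu (s₁ + s₃) s₂ (a * c) b := by
  rcases MuL_three h e with h6 | h6 | h6
  · exact MuL_altR_a h hA hS hM e h6 ha hb hc
  · exact MuL_altR_b h hA hS hM e h6 ha hb hc
  · have k := MuL_altR_b h hA hS hM (by rw [← e]; abel) h6 ha hc hb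
    rw [add_comm s₂ s₃, add_comm (b * c), k, add_comm]

/-! ### scalars -/

theorem mu_scC (h : Ctx π V) (hA : IsAct π V β al ar) (hS : IsS S) (hQ : IsQ V al S Q)
    (hM : IsMu V al ar S Q mu) {s s' : Multiset ℕ} (e : s + s' = V) {z v : Fn F}
    (hz : z ∈ WW F s) (hs : IsSc z) (hv : v ∈ WW F s') : mu s s' z v = mu s' s v z := by
  have e' : s' + s = V := by rw [add_comm, e]
  have h16 := h.card
  rw [← e, Multiset.card_add] at h16
  have h6 : 4 ≤ s.card ∨ 4 ≤ s'.card := by omega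
  rcases h6 with h6 | h6
  · obtain ⟨p, m', l, z₁, rfl, hp, hl, hlw, hz1, hSp, rfl, hsc⟩ := MuL_dec h hS
      (by rw [← e]; exact Multiset.le_add_right _ _) h6 hz
    obtain ⟨hsl, hs1⟩ := hsc hs
    have A := WW_le_AF _ hv
    have L1 := hM.LL (p + m') s' e l hl hlw v hv
    have L2 := hM.RL s' (p + m') e' v hv l hl hlw
    have L3 := hA.scL s' (p + m') e' v A l hl hsl
    have Q1 := hM.LQ (p + m') s' p m' e rfl hp z₁ hz1 v hv
    have Q2 := hM.RQ s' (p + m') p m' e' rfl hp v hv z₁ hz1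
    rw [MuL_e1, MuL_e2, L1, L2, L3, Q1, Q2, hs1.comm v]
  · obtain ⟨p, m', l, v₁, rfl, hp, hl, hlw, hv1, hSp, rfl, -⟩ := MuL_dec h hS
      (by rw [← e]; exact Multiset.le_add_left _ _) h6 hv
    have A := WW_le_AF _ hz
    have L1 := hM.RL s (p + m') e z hz l hl hlw
    have L2 := hM.LL (p + m') s e' l hl hlw z hz
    have L3 := hA.sc s (p + m') e z A hs l hl
    have Q1 := hM.RQ s (p + m') p m' e rfl hp z hz v₁ hv1
    have Q2 := hM.LQ (p + m') s p m' e' rfl hp v₁ hv1 z hz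
    rw [MuL_e2, MuL_e1, L1, L2, L3, Q1, Q2, hs.comm v₁]

theorem mu_scA (h : Ctx π V) (hA : IsAct π V β al ar) (hS : IsS S) (hQ : IsQ V al S Q)
    (hM : IsMu V al ar S Q mu) (e : s₁ + s₂ + s₃ = V) {z v w : Fn F} (hz : z ∈ WW F s₁)
    (hs : IsSc z) (hv : v ∈ WW F s₂) (hw : w ∈ WW F s₃) :
    mu (s₁ + s₂) s₃ (z * v) w = mu s₁ (s₂ + s₃) z (v * w) := by
  have Z := WW_le_AF _ hz
  have Vv := WW_le_AF _ hv
  have W := WW_le_AF _ hw
  rcases MuL_three h e with h6 | h6 | h6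
  · obtain ⟨p, m', l, z₁, rfl, hp, hl, hlw, hz1, hSp, rfl, hsc⟩ := MuL_dec h hS (MuL_le1 e) h6 hz
    obtain ⟨hsl, hs1⟩ := hsc hs
    have e1 : p + m' + (s₂ + s₃) = V := by rw [← e]; abel
    have e3 : s₂ + s₃ + (p + m') = V := by rw [← e]; abel
    have L1 := hM.LL (p + m' + s₂) s₃ e (l * v) (LF_mul_AF h.two h.three Vv hl)
      (WW_mul hlw hv) w hw
    have L2 := hM.LL (p + m') (s₂ + s₃) e1 l hl hlw (v * w) (WW_mul hv hw)
    have L3 := hA.p2 s₂ s₃ (p + m') e3 v Vv w W l hl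
    have L4 := hA.p1 s₂ s₃ (p + m') e3 v Vv w W l hl
    have L5 := hA.scL2 s₂ s₃ (p + m') e3 v Vv w W l hl hsl
    have L6 : al s₂ v (l * w) = ar s₃ w (v * l) := by
      rw [L5] at L4
      have e5 : al s₂ v (l * w) - ar s₃ w (v * l) = 0 := by
        have e6 : al s₂ v (l * w) - ar s₃ w (v * l) =
            al s₂ v (w * l) + al s₂ v (l * w) - ar s₃ w (v * l) - al s₂ v (w * l) := by abel
        rw [e6, ← L4, sub_self]
      exact sub_eq_zero.1 e5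
    rw [L6, add_sub_cancel_right] at L3
    have Q1 := hM.LQ (p + m' + s₂) s₃ p (m' + s₂) e (by abel) hp (z₁ * v)
      (WW_mul hz1 hv) w hw
    have Q2 := hM.LQ (p + m') (s₂ + s₃) p m' e1 rfl hp z₁ hz1 (v * w) (WW_mul hv hw)
    rw [add_mul, MuL_m2 hSp, MuL_e1 _ (l * v), MuL_e1 _ l, L1, L2, L3, Q1, Q2, (hs1.assoc v w).1]
  · obtain ⟨p, m', l, v₁, rfl, hp, hl, hlw, hv1, hSp, rfl, -⟩ := MuL_dec h hS (MuL_le2 e) h6 hv
    have e1 : s₁ + (p + m' + s₃) = V := by rw [← e]; abel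
    have e2 : s₁ + s₃ + (p + m') = V := by rw [← e]; abel
    have L1 := hM.LL (s₁ + (p + m')) s₃ e (z * l) (AF_mul_LF h.two h.three Z hl)
      (WW_mul hz hlw) w hw
    have L2 := hM.RL s₁ (p + m' + s₃) e1 z hz (l * w) (LF_mul_AF h.two h.three W hl)
      (WW_mul hlw hw)
    have L3 := (act3 h hA e2 Z hs W hl).2
    have Q1 := hM.LQ (s₁ + (p + m')) s₃ p (s₁ + m') e (by abel) hp (z * v₁)
      (WW_mul hz hv1) w hw
    have Q2 := hM.RQ s₁ (p + m' + s₃) p (m' + s₃) e1 (by abel) hp z hz (v₁ * w)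
      (WW_mul hv1 hw)
    rw [mul_add z l, MuL_m1 hSp z v₁, add_mul l _ w, MuL_m2 hSp v₁ w, MuL_e1 _ (z * l),
      MuL_e2 _ (l * w), L1, L2, L3, Q1, Q2, (hs.assoc v₁ w).1]
  · obtain ⟨p, m', l, w₁, rfl, hp, hl, hlw, hw1, hSp, rfl, -⟩ := MuL_dec h hS (MuL_le3 e) h6 hw
    have e1 : s₁ + (s₂ + (p + m')) = V := by rw [← e]; abel
    have L1 := hM.RL (s₁ + s₂) (p + m') e (z * v) (WW_mul hz hv) l hl hlw
    have L2 := hM.RL s₁ (s₂ + (p + m')) e1 z hz (v * l)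
      (AF_mul_LF h.two h.three Vv hl) (WW_mul hv hlw)
    have L3 := (hA.sc2 s₁ s₂ (p + m') e z Z hs v Vv l hl).1
    have Q1 := hM.RQ (s₁ + s₂) (p + m') p m' e rfl hp (z * v) (WW_mul hz hv) w₁ hw1
    have Q2 := hM.RQ s₁ (s₂ + (p + m')) p (s₂ + m') e1 (by abel) hp z hz (v * w₁)
      (WW_mul hv hw1)
    rw [mul_add v l, MuL_m1 hSp v w₁, MuL_e2 _ l, MuL_e2 _ (v * l), L1, L2, L3, Q1, Q2,
      (hs.assoc v w₁).1]

end Pool.Agent.OB
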