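import Pool.Agent.OB.Words

/-!
# Identities of the split octonions  (module Oct)

`tt x = t(x)` is the trace. Everything follows from the quadratic alternative algebra structure
`Oc.qa F` (see `Pool.Agent.Smt.Alg`: `QA.lin`, `QA.f2`, `QA.f3`), or by coordinates
(`ext <;> simp <;> ring`) for the identities of degree at most 4. The formulas of degree 5 and 6
are consequences: `com b c` has trace 0, and for `t w = 0` one has `jor u w = t u • w + scalar`.
-/

set_option autoImplicit false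
set_option linter.unusedSectionVars false

namespace Pool.Agent.OB

open FreeNonUnitalNonAssocAlgebra Pool.Agent.H.MP_41922c_al Pool.Agent.Smt

variable {F : Type*} [Field F]

/-- the trace of the split octonions -/
def tt (x : Oc F) : F := (Oc.qa F).t x

theorem tt_add (x y : Oc F) : tt (x + y) = tt x + tt y := by
  exact map_add _ _ _

theorem tt_smul (c : F) (x : Oc F) : tt (c • x) = c * tt x := by
  exact map_smul _ _ _

theorem tt_one : tt (1 : Oc F) = 2 := by
  exact (Oc.qa F).t_one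

theorem tt_comm (x y : Oc F) : tt (x * y) = tt (y * x) := by
  exact (Oc.qa F).t_comm x y

theorem tt_assoc (x y z : Oc F) : tt ((x * y) * z) = tt (x * (y * z)) := by
  exact (Oc.qa F).t_assoc x y z

theorem Oct_tt (x : Oc F) : tt x = x.m₁ + x.m₄ := rfl

theorem Oct_tt_sub (x y : Oc F) : tt (x - y) = tt x - tt y := by
  exact map_sub _ _ _

theorem Oct_tt_neg (x : Oc F) : tt (-x) = -tt x := by
  exact map_neg _ _

theorem tt_star (x : Oc F) : tt (star x) = tt x := by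
  rw [Oct_tt, Oct_tt, Oc.star_def']
  exact add_comm _ _

theorem add_star (x : Oc F) : x + star x = tt x • (1 : Oc F) := by
  rw [Oct_tt]
  ext <;> simp <;> ring

theorem star_smul_oc (c : F) (x : Oc F) : star (c • x) = c • star x := by
  ext <;> simp

theorem mul_star (x y : Oc F) : x * star y + y * star x = tt (x * star y) • (1 : Oc F) := by
  rw [Oct_tt]
  ext <;> simp <;> ring

theorem jor_oc (x y : Oc F) :
    jor x y = tt x • y + tt y • x - tt (x * star y) • (1 : Oc F) := by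
  rw [Oct_tt, Oct_tt, Oct_tt]
  unfold jor
  ext <;> simp <;> ring

theorem tt_com (x y : Oc F) : tt (com x y) = 0 := by
  unfold com
  rw [Oct_tt_sub, tt_comm, sub_self]

theorem tt_associator (x y z : Oc F) : tt (associator x y z) = 0 := by
  unfold associator
  rw [Oct_tt_sub, tt_assoc, sub_self]

theorem com_one (x : Oc F) : com x 1 = 0 := by
  unfold com
  rw [mul_one, one_mul, sub_self]

theorem one_com (x : Oc F) : com 1 x = 0 := by
  unfold com
  rw [mul_one, one_mul, sub_self]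

theorem Oct_com_sub (a x y : Oc F) : com a (x - y) = com a x - com a y := by
  unfold com
  rw [mul_sub, sub_mul]
  abel

theorem Oct_com_smul (c : F) (a x : Oc F) : com a (c • x) = c • com a x := by
  unfold com
  rw [mul_smul_comm, smul_mul_assoc, smul_sub]

theorem Oct_com_swap (a x : Oc F) : com a x = -com x a := by
  unfold com
  rw [neg_sub]

theorem Oct_smul_com (c : F) (a x : Oc F) : com (c • a) x = c • com a x := by
  rw [Oct_com_swap, Oct_com_smul, Oct_com_swap x a, smul_neg, neg_neg]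

theorem com_jor_oc (a u w : Oc F) (hw : tt w = 0) : com a (jor u w) = tt u • com a w := by
  rw [jor_oc, hw, zero_smul, add_zero, Oct_com_sub, Oct_com_smul, Oct_com_smul, com_one, smul_zero,
    sub_zero]

theorem Oct_star_traceless {w : Oc F} (hw : tt w = 0) : star w = -w := by
  have h := add_star w
  rw [hw, zero_smul] at h
  exact (neg_eq_of_add_eq_zero_right h).symm

theorem jor_traceless (v w : Oc F) (hv : tt v = 0) (hw : tt w = 0) :
    jor v w = tt (v * w) • (1 : Oc F) := by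
  rw [jor_oc, hv, hw, zero_smul, zero_smul, zero_add, zero_sub, Oct_star_traceless hw, mul_neg,
    Oct_tt_neg, neg_smul, neg_neg]

theorem alt12_oc (a b c : Oc F) : associator a b c = -associator b a c := by
  have h := (Oc.qa F).alt_left (a + b) c
  have ha := (Oc.qa F).alt_left a c
  have hb := (Oc.qa F).alt_left b c
  simp only [add_mul, mul_add] at h
  unfold associator
  linear_combination (norm := module) h - ha - hb

theorem alt23_oc (a b c : Oc F) : associator a b c = -associator a c b := by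
  have h := (Oc.qa F).alt_right (b + c) a
  have hb := (Oc.qa F).alt_right b a
  have hc := (Oc.qa F).alt_right c a
  simp only [add_mul, mul_add] at h
  unfold associator
  linear_combination (norm := module) h - hb - hc

theorem six_oc (a b c : Oc F) : 6 • associator a b c =
    com (com a b) c + com (com b c) a + com (com c a) b := by
  have h : com (com a b) c + com (com b c) a + com (com c a) b =
      associator a b c - associator b a c + associator b c a - associator c b a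
        + associator c a b - associator a c b := by
    unfold com associator
    simp only [sub_mul, mul_sub]
    abel
  rw [h, alt12_oc b a c, alt23_oc b c a, alt12_oc b a c, alt12_oc c b a, alt23_oc b c a,
    alt12_oc b a c, alt12_oc c a b, alt23_oc a c b]
  abel

/-- subtraction of a scalar -/
def Oct_N (x : Oc F) : Oc F := ⟨x.m₁ - x.m₄, x.m₂, x.m₃, 0, x.a₁, x.a₂, x.c₁, x.c₂⟩

theorem Oct_N_eq (x : Oc F) : Oct_N x = x - x.m₄ • (1 : Oc F) := by
  unfold Oct_N
  ext <;> simp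

theorem Oct_com_N (x y : Oc F) : com x (Oct_N y) = com x y := by
  rw [Oct_N_eq, Oct_com_sub, Oct_com_smul, com_one, smul_zero, sub_zero]

theorem Oct_N_com (x y : Oc F) : com (Oct_N x) y = com x y := by
  rw [Oct_com_swap, Oct_com_N, ← Oct_com_swap]

theorem Oct_as1 (x y z : Oc F) : associator (Oct_N x) y z = associator x y z := by
  rw [Oct_N_eq]
  unfold associator
  simp only [sub_mul, smul_mul_assoc, one_mul]
  abel

theorem Oct_as2 (x y z : Oc F) : associator x (Oct_N y) z = associator x y z := by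
  rw [alt12_oc, Oct_as1, ← alt12_oc]

theorem Oct_as3 (x y z : Oc F) : associator x y (Oct_N z) = associator x y z := by
  rw [alt23_oc, Oct_as2, ← alt23_oc]

theorem Oct_com_def (x y : Oc F) : com x y =
    ⟨x.m₂ * y.m₃ - y.m₂ * x.m₃ + y.c₂ * x.a₁ - y.a₂ * x.c₁ - x.c₂ * y.a₁ + x.a₂ * y.c₁,
     (x.m₁ - x.m₄) * y.m₂ - (y.m₁ - y.m₄) * x.m₂ + 2 * (y.c₂ * x.a₂ - y.a₂ * x.c₂),
     x.m₃ * (y.m₁ - y.m₄) - y.m₃ * (x.m₁ - x.m₄) + 2 * (y.a₁ * x.c₁ - y.c₁ * x.a₁),
     -(x.m₂ * y.m₃ - y.m₂ * x.m₃ + y.c₂ * x.a₁ - y.a₂ * x.c₁ - x.c₂ * y.a₁ + x.a₂ * y.c₁),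
     y.a₁ * (x.m₁ - x.m₄) - x.a₁ * (y.m₁ - y.m₄) + 2 * (y.a₂ * x.m₃ - x.a₂ * y.m₃),
     2 * (y.a₁ * x.m₂ - x.a₁ * y.m₂) + x.a₂ * (y.m₁ - y.m₄) - y.a₂ * (x.m₁ - x.m₄),
     y.c₁ * (x.m₁ - x.m₄) - x.c₁ * (y.m₁ - y.m₄) + 2 * (y.c₂ * x.m₃ - x.c₂ * y.m₃),
     2 * (y.c₁ * x.m₂ - x.c₁ * y.m₂) + x.c₂ * (y.m₁ - y.m₄) - y.c₂ * (x.m₁ - x.m₄)⟩ := by
  unfold com
  ext <;> simp <;> ring

theorem Oct_sagle0 (x₁ x₂ x₃ x₅ x₆ x₇ x₈ y₁ y₂ y₃ y₅ y₆ y₇ y₈ z₁ z₂ z₃ z₅ z₆ z₇ z₈
    t₁ t₂ t₃ t₅ t₆ t₇ t₈ : F) :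
    let x : Oc F := ⟨x₁, x₂, x₃, 0, x₅, x₆, x₇, x₈⟩
    let y : Oc F := ⟨y₁, y₂, y₃, 0, y₅, y₆, y₇, y₈⟩
    let z : Oc F := ⟨z₁, z₂, z₃, 0, z₅, z₆, z₇, z₈⟩
    let t : Oc F := ⟨t₁, t₂, t₃, 0, t₅, t₆, t₇, t₈⟩
    com (com x z) (com y t) = com (com (com x y) z) t + com (com (com y z) t) x
      + com (com (com z t) x) y + com (com (com t x) y) z := by
  intro x y z t
  simp only [x, y, z, t, Oct_com_def, Oc.add_def, sub_zero, sub_neg_eq_add]
  ext <;> ring

theorem sagle_oc (x y z t : Oc F) : com (com x z) (com y t) =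
    com (com (com x y) z) t + com (com (com y z) t) x + com (com (com z t) x) y
      + com (com (com t x) y) z := by
  have h := Oct_sagle0 (x.m₁ - x.m₄) x.m₂ x.m₃ x.a₁ x.a₂ x.c₁ x.c₂
    (y.m₁ - y.m₄) y.m₂ y.m₃ y.a₁ y.a₂ y.c₁ y.c₂ (z.m₁ - z.m₄) z.m₂ z.m₃ z.a₁ z.a₂ z.c₁ z.c₂
    (t.m₁ - t.m₄) t.m₂ t.m₃ t.a₁ t.a₂ t.c₁ t.c₂
  change com (com (Oct_N x) (Oct_N z)) (com (Oct_N y) (Oct_N t)) =
    com (com (com (Oct_N x) (Oct_N y)) (Oct_N z)) (Oct_N t)
      + com (com (com (Oct_N y) (Oct_N z)) (Oct_N t)) (Oct_N x)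
      + com (com (com (Oct_N z) (Oct_N t)) (Oct_N x)) (Oct_N y)
      + com (com (com (Oct_N t) (Oct_N x)) (Oct_N y)) (Oct_N z) at h
  simpa only [Oct_com_N, Oct_N_com] using h

theorem Oct_jor_com (a b c d : Oc F) : com (jor a (com b c)) d = tt a • com (com b c) d := by
  rw [Oct_com_swap, com_jor_oc _ _ _ (tt_com b c), Oct_com_swap d, smul_neg, neg_neg]

theorem e5_oc (a x y z t : Oc F) : com (com x z) (jor a (com y t)) =
    com (com (jor a (com x y)) z) t + com (com (jor a (com y z)) t) x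
      + com (com (jor a (com z t)) x) y + com (com (jor a (com t x)) y) z := by
  rw [com_jor_oc _ _ _ (tt_com y t), sagle_oc, Oct_jor_com, Oct_jor_com, Oct_jor_com, Oct_jor_com,
    Oct_smul_com, Oct_smul_com, Oct_smul_com, Oct_smul_com, smul_add, smul_add, smul_add]

theorem Oct_lam0 (x₁ x₂ x₃ x₅ x₆ x₇ x₈ y₁ y₂ y₃ y₅ y₆ y₇ y₈ z₁ z₂ z₃ z₅ z₆ z₇ z₈
    t₁ t₂ t₃ t₅ t₆ t₇ t₈ : F) :
    let a : Oc F := ⟨x₁, x₂, x₃, 0, x₅, x₆, x₇, x₈⟩
    let b : Oc F := ⟨y₁, y₂, y₃, 0, y₅, y₆, y₇, y₈⟩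
    let c : Oc F := ⟨z₁, z₂, z₃, 0, z₅, z₆, z₇, z₈⟩
    let d : Oc F := ⟨t₁, t₂, t₃, 0, t₅, t₆, t₇, t₈⟩
    lam12 d a b c = tt (com a b * c) • (12 • d - (6 * tt d) • (1 : Oc F)) := by
  intro a b c d
  simp only [a, b, c, d, lam12, associator, Oct_tt, Oct_com_def, Oc.add_def, Oc.sub_def,
    Oc.mul_def, Oc.neg_def, Oc.smul_def, Oc.one_def, sub_zero, sub_neg_eq_add, mul_zero, zero_mul,
    add_zero, smul_eq_mul, nsmul_eq_mul]
  ext <;> push_cast <;> ring

/-- `12 τ(a, b, c) d⁰`, `τ(a, b, c) = t([a, b] c)` -/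
theorem lam12_oc (d a b c : Oc F) :
    lam12 d a b c = tt (com a b * c) • (12 • d - (6 * tt d) • (1 : Oc F)) := by
  have h := Oct_lam0 (a.m₁ - a.m₄) a.m₂ a.m₃ a.a₁ a.a₂ a.c₁ a.c₂
    (b.m₁ - b.m₄) b.m₂ b.m₃ b.a₁ b.a₂ b.c₁ b.c₂ (c.m₁ - c.m₄) c.m₂ c.m₃ c.a₁ c.a₂ c.c₁ c.c₂
    (d.m₁ - d.m₄) d.m₂ d.m₃ d.a₁ d.a₂ d.c₁ d.c₂
  change lam12 (Oct_N d) (Oct_N a) (Oct_N b) (Oct_N c) =
    tt (com (Oct_N a) (Oct_N b) * Oct_N c) •
      (12 • Oct_N d - (6 * tt (Oct_N d)) • (1 : Oc F)) at h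
  have h1 : lam12 (Oct_N d) (Oct_N a) (Oct_N b) (Oct_N c) = lam12 d a b c := by
    simp only [lam12, Oct_com_N, Oct_N_com, Oct_as1, Oct_as2, Oct_as3]
  have h2 : tt (com (Oct_N a) (Oct_N b) * Oct_N c) = tt (com a b * c) := by
    rw [Oct_com_N, Oct_N_com, Oct_N_eq c, mul_sub, mul_smul_comm, mul_one, Oct_tt_sub, tt_smul,
      tt_com, mul_zero, sub_zero]
  have h3 : 12 • Oct_N d - (6 * tt (Oct_N d)) • (1 : Oc F) =
      12 • d - (6 * tt d) • (1 : Oc F) := by
    rw [Oct_N_eq, Oct_tt_sub, tt_smul, tt_one]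
    module
  rw [← h1, h, h2, h3]

theorem f3_scalar (a b c d : Oc F) :
    F3 a b c d = tt (com a b * com c d) • (1 : Oc F) := by
  exact jor_traceless _ _ (tt_com a b) (tt_com c d)

theorem g1_oc (u a b c : Oc F) : G1 u a b c = tt u • F1 a b c := by
  exact com_jor_oc _ _ _ (tt_com b c)

theorem g2_oc (u r a b c : Oc F) : G2 u r a b c = tt u • F2 r a b c := by
  unfold G2 F2
  rw [g1_oc, mul_smul_comm]

theorem g3_oc (u a b c d : Oc F) : G3 u a b c d = (6 * tt u) • F3 a b c d := by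
  have hv := tt_com a b
  have hw := tt_com c d
  unfold G3 F3
  rw [lam12_oc, hv]
  have h1 : jor u (com c d) = tt u • com c d + tt (u * com c d) • (1 : Oc F) := by
    rw [jor_oc, hw, zero_smul, add_zero, Oct_star_traceless hw, mul_neg, Oct_tt_neg, neg_smul,
      sub_neg_eq_add]
  have h2 : tt (com u c * d) = tt (u * com c d) := by
    unfold com
    rw [sub_mul, mul_sub, Oct_tt_sub, Oct_tt_sub, tt_assoc, tt_assoc, tt_comm c (u * d), tt_assoc]
  have h3 : jor (com a b) (jor u (com c d)) =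
      tt u • jor (com a b) (com c d) + (2 * tt (u * com c d)) • com a b := by
    rw [h1]
    unfold jor
    rw [mul_add, add_mul, mul_smul_comm, smul_mul_assoc, mul_smul_comm, smul_mul_assoc, mul_one,
      one_mul]
    module
  rw [h3, h2]
  module

theorem g4_oc (u r a b c d : Oc F) : G4 u r a b c d = (6 * tt u) • F4 r a b c d := by
  unfold G4 F4
  rw [g3_oc, mul_smul_comm]

end Pool.Agent.OB
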