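import Pool.Agent.OB.MuL
import Pool.Agent.OB.Kill

/-!
# The top component vanishes on real zeros  (module PiW)

`PiW f` for `f` of multidegree `V` is the sum of the top products of the factors. `KW` is a two-sided
ideal: in `comp V (a f) = ∑ comp s a * comp (V - s) f` (`comp_mul`) one has `V - s ≠ V` unless `s = 0`, and
`comp 0 a = 0`. Laws: linear and quadratic arguments (`quad_mem`), so words; in multidegree `V` the laws are
`mu_altL`, `mu_altR`, `mu_scC`, `mu_scA` (`evw (u + invW u) = a + star a`, `evw (u * invW v + v * invW u)` are scalar and in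
`WW`), in smaller multidegrees the real identities. Then `killW`.
-/

set_option autoImplicit false
set_option linter.unusedSectionVars false

namespace Pool.Agent.OB

open FreeNonUnitalNonAssocAlgebra Pool.Agent.H.MP_41922c_al Pool.Agent.Smt

variable {F : Type*} [Field F] {R : Type*} [NonUnitalNonAssocRing R] [Module F R]
  [IsScalarTower F R R] [SMulCommClass F R R]

open Classical in
/-- the top product of a word -/
noncomputable def pw (V : Multiset ℕ) (mu : Multiset ℕ → Multiset ℕ → Fn F →ₗ[F] Fn F →ₗ[F] R) :
    FreeMagma ℕ → R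
  | .of _ => 0
  | .mul u v => if lets id u + lets id v = V then
      mu (lets id u) (lets id v) (evw F (mo F u)) (evw F (mo F v)) else 0

/-- the top products -/
noncomputable def PiW (V : Multiset ℕ)
    (mu : Multiset ℕ → Multiset ℕ → Fn F →ₗ[F] Fn F →ₗ[F] R) : FA F →ₗ[F] R := linMo F (pw V mu)

theorem PiW_mul {V : Multiset ℕ} {mu : Multiset ℕ → Multiset ℕ → Fn F →ₗ[F] Fn F →ₗ[F] R}
    {s s' : Multiset ℕ} (e : s + s' = V) {f g : FA F} (hf : f ∈ P F s) (hg : g ∈ P F s') :
    PiW V mu (f * g) = mu s s' (evw F f) (evw F g) := by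
  refine PP_induction id
    (p := fun f => PiW V mu (f * g) = mu s s' (evw F f) (evw F g)) ?_ ?_ ?_ ?_ hf
  · rw [zero_mul, map_zero, map_zero, map_zero, LinearMap.zero_apply]
  · intro f f' h1 h2
    rw [add_mul, map_add, h1, h2, map_add, map_add, LinearMap.add_apply]
  · intro k f h1
    rw [smul_mul_assoc, map_smul, h1, map_smul, map_smul, LinearMap.smul_apply]
  · intro u hu
    refine PP_induction id (p := fun g => PiW V mu (mo F u * g) =
      mu s s' (evw F (mo F u)) (evw F g)) ?_ ?_ ?_ ?_ hg
    · rw [mul_zero, map_zero, map_zero, map_zero]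
    · intro f f' h1 h2
      rw [mul_add, map_add, h1, h2, map_add, map_add]
    · intro k f h1
      rw [mul_smul_comm, map_smul, h1, map_smul, map_smul]
    · intro v hv
      have h1 : PiW V mu (mo F u * mo F v) = pw V mu (u * v) := linMo_mo _ (u * v)
      have h2 : pw V mu (u * v) =
          mu (lets id u) (lets id v) (evw F (mo F u)) (evw F (mo F v)) :=
        if_pos (by rw [hu, hv]; exact e)
      rw [h1, h2, hu, hv]

theorem PiW_comp0 (f : FA F) : comp F id (0 : Multiset ℕ) f = 0 := by
  have h := comp_mem (F := F) id (0 : Multiset ℕ) f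
  rw [PP_zero] at h
  exact (Submodule.mem_bot F).1 h

theorem PiW_le {m : Multiset ℕ} (hm : m.Nodup) {t : Finset ℕ} (ht : t ∈ m.toFinset.powerset) :
    t.val ≤ m := by
  rw [Finset.mem_powerset] at ht
  have h2 : t.val ≤ m.toFinset.val := Finset.val_le_iff.2 ht
  rwa [Multiset.toFinset_val, Multiset.dedup_eq_self.2 hm] at h2

theorem PiW_low {m : Multiset ℕ} (hm : m.Nodup) (a f : FA F)
    (H : ∀ t : Finset ℕ, t.val ≤ m →
      evw F (comp F id t.val a) * evw F (comp F id (m - t.val) f) = 0) :
    evw F (comp F id m (a * f)) = 0 := by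
  rw [comp_mul id hm, map_sum]
  refine Finset.sum_eq_zero fun t ht => ?_
  rw [map_mul]
  exact H t (PiW_le hm ht)

theorem PiW_top {V : Multiset ℕ} {mu : Multiset ℕ → Multiset ℕ → Fn F →ₗ[F] Fn F →ₗ[F] R}
    (hV : V.Nodup) (a f : FA F) (H : ∀ t : Finset ℕ, t.val ≤ V →
      mu t.val (V - t.val) (evw F (comp F id t.val a)) (evw F (comp F id (V - t.val) f)) = 0) :
    PiW V mu (comp F id V (a * f)) = 0 := by
  rw [comp_mul id hV, map_sum]
  refine Finset.sum_eq_zero fun t ht => ?_
  rw [PiW_mul (add_tsub_cancel_of_le (PiW_le hV ht)) (comp_mem id _ _) (comp_mem id _ _)]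
  exact H t (PiW_le hV ht)

/-- real zero in the lower multidegrees and top component 0 -/
noncomputable def KW (V : Multiset ℕ)
    (mu : Multiset ℕ → Multiset ℕ → Fn F →ₗ[F] Fn F →ₗ[F] R) : Submodule F (FA F) where
  carrier := {f | (∀ s : Multiset ℕ, s ≤ V → s ≠ V → evw F (comp F id s f) = 0) ∧
    PiW V mu (comp F id V f) = 0}
  zero_mem' := ⟨fun s _ _ => by rw [map_zero, map_zero], by rw [map_zero, map_zero]⟩
  add_mem' := fun {f g} hf hg => ⟨fun s h h' => by
    rw [map_add, map_add, hf.1 s h h', hg.1 s h h', add_zero], by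
    rw [map_add, map_add, hf.2, hg.2, add_zero]⟩
  smul_mem' := fun c f hf => ⟨fun s h h' => by
    rw [map_smul, map_smul, hf.1 s h h', smul_zero], by
    rw [map_smul, map_smul, hf.2, smul_zero]⟩

variable {π : FA F →ₙₐ[F] R} {V : Multiset ℕ} {β : Multiset ℕ → Fn F →ₗ[F] R}
  {al ar : Multiset ℕ → Fn F →ₗ[F] Fn F →ₗ[F] R} {S : Multiset ℕ → Fn F}
  {Q : Multiset ℕ → Fn F →ₗ[F] R} {mu : Multiset ℕ → Multiset ℕ → Fn F →ₗ[F] Fn F →ₗ[F] R}

theorem KW_left (h : Ctx π V) (a f : FA F) (hf : f ∈ KW V mu) : a * f ∈ KW V mu := by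
  refine ⟨fun s hs hs' => PiW_low (Multiset.nodup_of_le hs h.nodup) a f fun t ht => ?_,
    PiW_top h.nodup a f fun t ht => ?_⟩
  · have h1 : s - t.val ≤ s := tsub_le_self
    have h3 : s - t.val ≠ V := by
      intro h3
      rw [h3] at h1
      exact hs' (le_antisymm hs h1)
    rw [hf.1 (s - t.val) (h1.trans hs) h3, mul_zero]
  · by_cases h0 : t.val = 0
    · rw [h0, PiW_comp0, map_zero, map_zero, LinearMap.zero_apply]
    · have h3 : V - t.val ≠ V := by
        intro h3
        have h4 := add_tsub_cancel_of_le ht
        rw [h3] at h4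
        exact h0 (by simpa using h4)
      rw [hf.1 (V - t.val) tsub_le_self h3, map_zero]

theorem KW_right (h : Ctx π V) (a f : FA F) (hf : f ∈ KW V mu) : f * a ∈ KW V mu := by
  refine ⟨fun s hs hs' => PiW_low (Multiset.nodup_of_le hs h.nodup) f a fun t ht => ?_,
    PiW_top h.nodup f a fun t ht => ?_⟩
  · have h3 : t.val ≠ V := by
      intro h3
      rw [h3] at ht
      exact hs' (le_antisymm hs ht)
    rw [hf.1 t.val (ht.trans hs) h3, zero_mul]
  · by_cases h0 : t.val = V
    · rw [h0, tsub_self, PiW_comp0, map_zero, map_zero]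
    · rw [hf.1 t.val ht h0, map_zero, LinearMap.zero_apply]

theorem PiW_KW {m : Multiset ℕ} {f : FA F} (hf : f ∈ P F m) (h1 : evw F f = 0)
    (h2 : m = V → PiW V mu f = 0) : f ∈ KW V mu := by
  refine ⟨fun s _ _ => ?_, ?_⟩
  · by_cases e : m = s
    · rw [← e, comp_of_mem id hf, h1]
    · rw [comp_of_ne id hf e, map_zero]
  · by_cases e : m = V
    · rw [← e, comp_of_mem id hf, e]
      exact h2 e
    · rw [comp_of_ne id hf e, map_zero]

theorem PiW_lin {K : Submodule F (FA F)} (g : FA F → FA F) (ha : ∀ a b, g (a + b) = g a + g b)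
    (hs : ∀ (k : F) a, g (k • a) = k • g a) (hw : ∀ w, g (mo F w) ∈ K) (v : FA F) : g v ∈ K := by
  refine Words_ind (F := F) (α := ℕ) (p := fun v => g v ∈ K) ?_ ?_ ?_ hw v
  · have h0 := hs 0 0
    rw [zero_smul, zero_smul] at h0
    rw [h0]
    exact K.zero_mem
  · intro f f' h1 h2
    rw [ha]
    exact K.add_mem h1 h2
  · intro k f h1
    rw [hs]
    exact K.smul_mem _ h1

theorem PiW_scC (h : Ctx π V) (hA : IsAct π V β al ar) (hS : IsS S) (hQ : IsQ V al S Q)
    (hM : IsMu V al ar S Q mu) {s : Multiset ℕ} {z : FA F} (hz : z ∈ P F s)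
    (hs : IsSc (evw F z)) (v : FA F) : com z v ∈ KW V mu := by
  refine PiW_lin (fun v => com z v) ?_ ?_ ?_ v
  · intro a b
    simp only [com, mul_add, add_mul]
    abel
  · intro k a
    simp only [com, mul_smul_comm, smul_mul_assoc, smul_sub]
  · intro w
    show com z (mo F w) ∈ KW V mu
    have hw := mo_mem (F := F) id w
    refine PiW_KW (Ids_com_mem hz hw) ?_ ?_
    · rw [Ids_com]
      unfold com
      rw [hs.comm, sub_self]
    · intro e
      have e' : lets id w + s = V := by rw [add_comm]; exact e
      unfold com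
      rw [map_sub, PiW_mul e hz hw, PiW_mul e' hw hz,
        mu_scC h hA hS hQ hM e (evw_mem hz) hs (evw_mem hw), sub_self]

theorem PiW_scA (h : Ctx π V) (hA : IsAct π V β al ar) (hS : IsS S) (hQ : IsQ V al S Q)
    (hM : IsMu V al ar S Q mu) {s : Multiset ℕ} {z : FA F} (hz : z ∈ P F s)
    (hs : IsSc (evw F z)) (v w : FA F) : associator z v w ∈ KW V mu := by
  refine PiW_lin (fun v => associator z v w) ?_ ?_ ?_ v
  · intro a b
    simp only [associator_apply, mul_add, add_mul]
    abel
  · intro k a
    simp only [associator_apply, mul_smul_comm, smul_mul_assoc, smul_sub]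
  intro v
  refine PiW_lin (fun w => associator z (mo F v) w) ?_ ?_ ?_ w
  · intro a b
    simp only [associator_apply, mul_add]
    abel
  · intro k a
    simp only [associator_apply, mul_smul_comm, smul_sub]
  · intro w
    show associator z (mo F v) (mo F w) ∈ KW V mu
    have hv := mo_mem (F := F) id v
    have hw := mo_mem (F := F) id w
    refine PiW_KW (Ids_ass_mem hz hv hw) ?_ ?_
    · rw [Ids_ass, associator_apply, (hs.assoc _ _).1, sub_self]
    · intro e
      have e' : s + (lets id v + lets id w) = V := by rw [← add_assoc]; exact e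
      rw [associator_apply, map_sub, PiW_mul e (PP_mul id hz hv) hw,
        PiW_mul e' hz (PP_mul id hv hw), map_mul (evw F), map_mul (evw F),
        mu_scA h hA hS hQ hM e (evw_mem hz) hs (evw_mem hv) (evw_mem hw), sub_self]

theorem PiW_altL (h : Ctx π V) (hA : IsAct π V β al ar) (hS : IsS S) (hQ : IsQ V al S Q)
    (hM : IsMu V al ar S Q mu) (u u' : FreeMagma ℕ) (v : FA F) :
    associator (mo F u) (mo F u') v + associator (mo F u') (mo F u) v ∈ KW V mu := by
  refine PiW_lin (fun v => associator (mo F u) (mo F u') v + associator (mo F u') (mo F u) v)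
    ?_ ?_ ?_ v
  · intro a b
    simp only [associator_apply, mul_add]
    abel
  · intro k a
    simp only [associator_apply, mul_smul_comm, smul_sub, smul_add]
  intro v
  show associator (mo F u) (mo F u') (mo F v) + associator (mo F u') (mo F u) (mo F v) ∈ KW V mu
  have hu := mo_mem (F := F) id u
  have hu' := mo_mem (F := F) id u'
  have hv := mo_mem (F := F) id v
  refine PiW_KW (m := lets id u + lets id u' + lets id v) (add_mem (Ids_ass_mem hu hu' hv)
    (Ids_cast (Ids_ass_mem hu' hu hv) (by abel))) ?_ ?_
  · rw [map_add, Ids_ass, Ids_ass, alt12_R (sat_Fn 9) (evw F (mo F u)), neg_add_cancel]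
  · intro e
    have e1 : associator (mo F u) (mo F u') (mo F v) + associator (mo F u') (mo F u) (mo F v) =
        (mo F u * mo F u' + mo F u' * mo F u) * mo F v -
          (mo F u * (mo F u' * mo F v) + mo F u' * (mo F u * mo F v)) := by
      simp only [associator_apply, add_mul]
      abel
    have e2 : lets id u + (lets id u' + lets id v) = V := by rw [← add_assoc]; exact e
    have e3 : lets id u' + (lets id u + lets id v) = V := by rw [← e]; abel
    have hc : mo F u * mo F u' + mo F u' * mo F u ∈ P F (lets id u + lets id u') :=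
      add_mem (PP_mul id hu hu') (Ids_cast (PP_mul id hu' hu) (by abel))
    rw [e1, map_sub, map_add (PiW V mu), PiW_mul e hc hv, PiW_mul e2 hu (PP_mul id hu' hv),
      PiW_mul e3 hu' (PP_mul id hu hv), map_add (evw F), map_mul (evw F), map_mul (evw F),
      map_mul (evw F), map_mul (evw F), mu_altL h hA hS hQ hM e (evw_mem hu) (evw_mem hu') (evw_mem hv), sub_self]

theorem PiW_altR (h : Ctx π V) (hA : IsAct π V β al ar) (hS : IsS S) (hQ : IsQ V al S Q)
    (hM : IsMu V al ar S Q mu) (u u' : FreeMagma ℕ) (v : FA F) :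
    associator v (mo F u) (mo F u') + associator v (mo F u') (mo F u) ∈ KW V mu := by
  refine PiW_lin (fun v => associator v (mo F u) (mo F u') + associator v (mo F u') (mo F u))
    ?_ ?_ ?_ v
  · intro a b
    simp only [associator_apply, add_mul]
    abel
  · intro k a
    simp only [associator_apply, smul_mul_assoc, smul_sub, smul_add]
  intro v
  show associator (mo F v) (mo F u) (mo F u') + associator (mo F v) (mo F u') (mo F u) ∈ KW V mu
  have hu := mo_mem (F := F) id u
  have hu' := mo_mem (F := F) id u'
  have hv := mo_mem (F := F) id v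
  refine PiW_KW (m := lets id v + lets id u + lets id u') (add_mem (Ids_ass_mem hv hu hu')
    (Ids_cast (Ids_ass_mem hv hu' hu) (by abel))) ?_ ?_
  · rw [map_add, Ids_ass, Ids_ass, alt23_R (sat_Fn 9) (evw F (mo F v)), neg_add_cancel]
  · intro e
    have e1 : associator (mo F v) (mo F u) (mo F u') + associator (mo F v) (mo F u') (mo F u) =
        (mo F v * mo F u * mo F u' + mo F v * mo F u' * mo F u) -
          mo F v * (mo F u * mo F u' + mo F u' * mo F u) := by
      simp only [associator_apply, mul_add]
      abel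
    have e2 : lets id v + (lets id u + lets id u') = V := by rw [← add_assoc]; exact e
    have e3 : lets id v + lets id u' + lets id u = V := by rw [← e]; abel
    have hc : mo F u * mo F u' + mo F u' * mo F u ∈ P F (lets id u + lets id u') :=
      add_mem (PP_mul id hu hu') (Ids_cast (PP_mul id hu' hu) (by abel))
    rw [e1, map_sub, map_add (PiW V mu), PiW_mul e (PP_mul id hv hu) hu',
      PiW_mul e3 (PP_mul id hv hu') hu, PiW_mul e2 hv hc, map_mul (evw F), map_mul (evw F),
      map_add (evw F), map_mul (evw F), map_mul (evw F), mu_altR h hA hS hQ hM e (evw_mem hv) (evw_mem hu) (evw_mem hu'),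
      sub_self]

/-- quadratic laws -/
theorem PiW_quad (h2 : (2 : F) ≠ 0) {K : Submodule F (FA F)} (g : FA F → FA F → FA F)
    (g1 : ∀ a b c, g (a + b) c = g a c + g b c) (g2 : ∀ (k : F) a c, g (k • a) c = k • g a c)
    (g3 : ∀ a b c, g a (b + c) = g a b + g a c) (g4 : ∀ (k : F) a c, g a (k • c) = k • g a c)
    (hw : ∀ w w', g (mo F w) (mo F w') + g (mo F w') (mo F w) ∈ K) (u : FA F) : g u u ∈ K := by
  refine quad_mem K (LinearMap.mk₂ F g g1 g2 g3 g4) ?_ ?_ u
  · intro w
    show g (mo F w) (mo F w) ∈ K
    have h1 := K.smul_mem (2 : F)⁻¹ (hw w w)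
    rwa [← two_smul F (g (mo F w) (mo F w)), smul_smul, inv_mul_cancel₀ h2, one_smul] at h1
  · intro w w'
    exact hw w w'

theorem KW_laws (h : Ctx π V) (hA : IsAct π V β al ar) (hS : IsS S) (hQ : IsQ V al S Q)
    (hM : IsMu V al ar S Q mu) : Laws (KW V mu) invW := by
  have hn : ∀ w w' : FreeMagma ℕ, mo F w * invW (mo F w') + mo F w' * invW (mo F w) ∈
      P F (lets id w + lets id w') := fun w w' =>
    add_mem (PP_mul id (mo_mem id w) (invW_mem (mo_mem id w')))
      (Ids_cast (PP_mul id (mo_mem id w') (invW_mem (mo_mem id w))) (by abel))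
  have hn' : ∀ w w' : FreeMagma ℕ,
      IsSc (evw F (mo F w * invW (mo F w') + mo F w' * invW (mo F w))) := by
    intro w w'
    rw [map_add, map_mul, map_mul, evw_invW, evw_invW]
    exact isSc_mul_star _ _
  have ht : ∀ w : FreeMagma ℕ, mo F w + invW (mo F w) ∈ P F (lets id w) := fun w =>
    add_mem (mo_mem id w) (invW_mem (mo_mem id w))
  have ht' : ∀ w : FreeMagma ℕ, IsSc (evw F (mo F w + invW (mo F w))) := by
    intro w
    rw [map_add, evw_invW]
    exact isSc_trf _
  refine ⟨KW_left h, KW_right h, ?_, ?_, ?_, ?_, ?_, ?_⟩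
  · intro u v
    refine PiW_quad h.two (fun a b => associator a b v) ?_ ?_ ?_ ?_ ?_ u
    · intro a b c
      simp only [associator_apply, add_mul]
      abel
    · intro k a c
      simp only [associator_apply, smul_mul_assoc, smul_sub]
    · intro a b c
      simp only [associator_apply, mul_add, add_mul]
      abel
    · intro k a c
      simp only [associator_apply, mul_smul_comm, smul_mul_assoc, smul_sub]
    · intro w w'
      exact PiW_altL h hA hS hQ hM w w' v
  · intro u v
    refine PiW_quad h.two (fun a b => associator v a b) ?_ ?_ ?_ ?_ ?_ u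
    · intro a b c
      simp only [associator_apply, mul_add, add_mul]
      abel
    · intro k a c
      simp only [associator_apply, mul_smul_comm, smul_mul_assoc, smul_sub]
    · intro a b c
      simp only [associator_apply, mul_add]
      abel
    · intro k a c
      simp only [associator_apply, mul_smul_comm, smul_sub]
    · intro w w'
      exact PiW_altR h hA hS hQ hM w w' v
  · intro u v
    refine PiW_lin (fun u => com (u + invW u) v) ?_ ?_ ?_ u
    · intro a b
      simp only [com, invW_add, mul_add, add_mul]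
      abel
    · intro k a
      simp only [com, invW_smul, mul_add, add_mul, mul_smul_comm, smul_mul_assoc, smul_sub,
        smul_add]
    · intro w
      exact PiW_scC h hA hS hQ hM (ht w) (ht' w) v
  · intro u v w
    refine PiW_lin (fun u => associator (u + invW u) v w) ?_ ?_ ?_ u
    · intro a b
      simp only [associator_apply, invW_add, add_mul]
      abel
    · intro k a
      simp only [associator_apply, invW_smul, add_mul, smul_mul_assoc, smul_sub, smul_add]
    · intro w'
      exact PiW_scA h hA hS hQ hM (ht w') (ht' w') v w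
  · intro u v
    refine PiW_quad h.two (fun a b => com (a * invW b) v) ?_ ?_ ?_ ?_ ?_ u
    · intro a b c
      simp only [com, mul_add, add_mul]
      abel
    · intro k a c
      simp only [com, mul_smul_comm, smul_mul_assoc, smul_sub]
    · intro a b c
      simp only [com, invW_add, mul_add, add_mul]
      abel
    · intro k a c
      simp only [com, invW_smul, mul_smul_comm, smul_mul_assoc, smul_sub]
    · intro w w'
      have h1 := PiW_scC h hA hS hQ hM (hn w w') (hn' w w') v
      have h2 : com (mo F w * invW (mo F w') + mo F w' * invW (mo F w)) v =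
          com (mo F w * invW (mo F w')) v + com (mo F w' * invW (mo F w)) v := by
        simp only [com, mul_add, add_mul]
        abel
      rw [h2] at h1
      exact h1
  · intro u v w
    refine PiW_quad h.two (fun a b => associator (a * invW b) v w) ?_ ?_ ?_ ?_ ?_ u
    · intro a b c
      simp only [associator_apply, add_mul]
      abel
    · intro k a c
      simp only [associator_apply, smul_mul_assoc, smul_sub]
    · intro a b c
      simp only [associator_apply, invW_add, mul_add, add_mul]
      abel
    · intro k a c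
      simp only [associator_apply, invW_smul, mul_smul_comm, smul_mul_assoc, smul_sub]
    · intro u u'
      have h1 := PiW_scA h hA hS hQ hM (hn u u') (hn' u u') v w
      have h2 : associator (mo F u * invW (mo F u') + mo F u' * invW (mo F u)) v w =
          associator (mo F u * invW (mo F u')) v w + associator (mo F u' * invW (mo F u)) v w := by
        simp only [associator_apply, add_mul]
        abel
      rw [h2] at h1
      exact h1

theorem PiW_zero [Infinite F] (h : Ctx π V) (hA : IsAct π V β al ar) (hS : IsS S)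
    (hQ : IsQ V al S Q) (hM : IsMu V al ar S Q mu) {f : FA F} (hf : f ∈ P F V)
    (h0 : evw F f = 0) : PiW V mu f = 0 := by
  have h1 := (killW h.two (KW_laws h hA hS hQ hM) h0).2
  rwa [comp_of_mem id hf] at h1

end Pool.Agent.OB
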