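import Pool.Agent.OB.ActP
import Pool.Agent.OB.L5
import Pool.Agent.OB.Kn

/-!
# The operators Q_p in the top degree  (module QP)

For a pair `p` the scalar `S p ∈ WW p` has `sg = 1`. `Q p : WW (V - p) → R` extends the multiplication by `S p`,
which so far is defined on `LF`: `Q₀ p w = al p (S p) (w - sg w • S (V - p))` (the argument is in `LF` by `L5`),
`Q p w = Q₀ p w + sg w • c p`. For `p + r + m = V` put `g p r = Q₀ r (S p * w) - Q₀ p (S r * w)` for `w ∈ WW m` with
`sg w = 1`; this does not depend on `w` (two such `w` differ by an element `l` of `LF`, and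
`al r (S r) (S p * l) = al p (S p) (S r * l)` by `act3`); define it with `w = S (V - p - r)`. For `p + r + u + m = V`
take `w = S u * S m` for `(p, r)` etc.: with `A_p = al p (S p) (S r * (S u * S m) - S (V - p))` (the scalars `S r`, `S u`
commute and associate with everything), `g p r = A_r - A_p`, so the triangle sums are 0. The module Kn
gives `c` with `c p - c r = g p r`. For `w ∈ WW m`, `w = w₀ + sg w • S m`, `w₀ ∈ LF` (`QP_sub`).
-/

set_option autoImplicit false
set_option linter.unusedSectionVars false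

namespace Pool.Agent.OB

open FreeNonUnitalNonAssocAlgebra Pool.Agent.H.MP_41922c_al Pool.Agent.Smt

variable {F : Type*} [Field F] {R : Type*} [NonUnitalNonAssocRing R] [Module F R]
  [IsScalarTower F R R] [SMulCommClass F R R]
variable {π : FA F →ₙₐ[F] R} {V : Multiset ℕ} {β : Multiset ℕ → Fn F →ₗ[F] R}
  {al ar : Multiset ℕ → Fn F →ₗ[F] Fn F →ₗ[F] R} {S : Multiset ℕ → Fn F}

/-- a choice of elements with `sg = 1`, scalar in even degree (`exists_S`) -/
def IsS (S : Multiset ℕ → Fn F) : Prop := ∀ m : Multiset ℕ, m ≠ 0 →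
  S m ∈ WW F m ∧ sg F (S m) = 1 ∧ (Even m.card → IsSc (S m))

theorem QP_sub (h : Ctx π V) {m : Multiset ℕ} (hm : m ≤ V) (hc : 4 ≤ m.card) {w w' : Fn F}
    (hw : w ∈ WW F m) (hw' : w' ∈ WW F m) (e : sg F w = sg F w') : w - w' ∈ LF F m := by
  refine L5 h.two h.three (Multiset.nodup_of_le hm h.nodup) hc (sub_mem hw hw') ?_
  rw [map_sub, e, sub_self]

/-- the operators `Q p` -/
structure IsQ (V : Multiset ℕ) (al : Multiset ℕ → Fn F →ₗ[F] Fn F →ₗ[F] R)
    (S : Multiset ℕ → Fn F) (Q : Multiset ℕ → Fn F →ₗ[F] R) : Prop where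
  lf : ∀ p m : Multiset ℕ, p.card = 2 → p + m = V → ∀ l ∈ LF F m, Q p l = al p (S p) l
  comm : ∀ p r m : Multiset ℕ, p.card = 2 → r.card = 2 → p + r + m = V → ∀ w ∈ WW F m,
    Q p (S r * w) = Q r (S p * w)

/-- scalars commute with left multiplications -/
theorem QP_sc {a : Fn F} (ha : IsSc a) (b c : Fn F) : a * (b * c) = b * (a * c) := by
  rw [← (ha.assoc b c).1, ha.comm b, (ha.assoc b c).2.1]

/-- the elements of a pair -/
theorem QP_pair (hS : IsS S) {p : Multiset ℕ} (hp : p.card = 2) :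
    S p ∈ WW F p ∧ sg F (S p) = 1 ∧ IsSc (S p) := by
  have h0 : p ≠ 0 := by
    rintro rfl
    simp at hp
  obtain ⟨h1, h2, h3⟩ := hS p h0
  exact ⟨h1, h2, h3 (by rw [hp]; decide)⟩

/-- complements -/
theorem QP_tsub {p r m : Multiset ℕ} (e : p + r + m = V) :
    V - p = r + m ∧ V - r = p + m ∧ V - p - r = m := by
  have h1 : V - p = r + m := by
    rw [← e, add_assoc, add_tsub_cancel_left]
  have h2 : V - r = p + m := by
    rw [← e, add_comm p r, add_assoc, add_tsub_cancel_left]
  exact ⟨h1, h2, by rw [h1, add_tsub_cancel_left]⟩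

theorem QP_card (h : Ctx π V) {s m : Multiset ℕ} (e : s + m = V) : 10 ≤ s.card + m.card := by
  have := h.card
  rwa [← e, Multiset.card_add] at this

/-- independence of the choice -/
theorem QP_ind (h : Ctx π V) (hA : IsAct π V β al ar) (hS : IsS S) {p r m : Multiset ℕ}
    (hp : p.card = 2) (hr : r.card = 2) (e : p + r + m = V) {w w' : Fn F} (hw : w ∈ WW F m)
    (hw' : w' ∈ WW F m) (e' : sg F w = sg F w') :
    al p (S p) (S r * (w - w')) = al r (S r) (S p * (w - w')) := by
  obtain ⟨p1, -, p3⟩ := QP_pair hS hp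
  obtain ⟨r1, -, r3⟩ := QP_pair hS hr
  have hc := QP_card h e
  rw [Multiset.card_add, hp, hr] at hc
  have hl : w - w' ∈ LF F m := by
    refine QP_sub h ?_ (by omega) hw hw' e'
    rw [← e]
    exact Multiset.le_add_left _ _
  have e2 : r + p + m = V := by rw [add_comm r p]; exact e
  exact (act3 h hA e2 (WW_le_AF r r1) r3 (WW_le_AF p p1) hl).1

/-- the cocycle -/
noncomputable def QP_g (V : Multiset ℕ) (al : Multiset ℕ → Fn F →ₗ[F] Fn F →ₗ[F] R)
    (S : Multiset ℕ → Fn F) (p r : Multiset ℕ) : R :=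
  al r (S r) (S p * S (V - p - r) - S (V - r)) - al p (S p) (S r * S (V - p - r) - S (V - p))

theorem QP_anti (V : Multiset ℕ) (al : Multiset ℕ → Fn F →ₗ[F] Fn F →ₗ[F] R)
    (S : Multiset ℕ → Fn F) (p r : Multiset ℕ) : QP_g V al S p r = -QP_g V al S r p := by
  unfold QP_g
  rw [tsub_right_comm (a := V) (b := r) (c := p), neg_sub]

theorem QP_split (h : Ctx π V) (hA : IsAct π V β al ar) (hS : IsS S) {p r u m : Multiset ℕ}
    (hp : p.card = 2) (hr : r.card = 2) (hu : u.card = 2) (e : p + r + u + m = V) :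
    QP_g V al S p r = al r (S r) (S p * (S u * S m) - S (V - r)) -
      al p (S p) (S r * (S u * S m) - S (V - p)) := by
  have e1 : p + r + (u + m) = V := by rw [← add_assoc]; exact e
  have hc := QP_card h e
  rw [Multiset.card_add, Multiset.card_add, hp, hr, hu] at hc
  have hm : m ≠ 0 := by
    rintro rfl
    simp at hc
  have hum : u + m ≠ 0 := by
    intro h0
    have := congrArg Multiset.card h0
    rw [Multiset.card_add, hu] at this
    simp at this
  obtain ⟨m1, m2, -⟩ := hS m hm
  obtain ⟨n1, n2, -⟩ := hS (u + m) hum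
  obtain ⟨u1, u2, -⟩ := QP_pair hS hu
  have hw : S u * S m ∈ WW F (u + m) := WW_mul u1 m1
  have hs : sg F (S (u + m)) = sg F (S u * S m) := by
    rw [n2, sg_mul (WW_le_AF _ u1) (WW_le_AF _ m1), u2, m2, one_mul]
  have k := QP_ind h hA hS hp hr e1 n1 hw hs
  unfold QP_g
  rw [(QP_tsub e1).2.2]
  rw [mul_sub, mul_sub, map_sub, map_sub] at k
  rw [map_sub, map_sub, map_sub, map_sub]
  generalize al r (S r) (S p * S (u + m)) = a1 at k ⊢
  generalize al r (S r) (S p * (S u * S m)) = a2 at k ⊢
  generalize al p (S p) (S r * S (u + m)) = a3 at k ⊢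
  generalize al p (S p) (S r * (S u * S m)) = a4 at k ⊢
  have k2 : a3 = a1 - a2 + a4 := by rw [← k]; abel
  rw [k2]
  abel

theorem QP_tri (h : Ctx π V) (hA : IsAct π V β al ar) (hS : IsS S) {p r u : Multiset ℕ}
    (hp : p.card = 2) (hr : r.card = 2) (hu : u.card = 2) (e : p + r + u ≤ V) :
    QP_g V al S p r + QP_g V al S r u + QP_g V al S u p = 0 := by
  obtain ⟨m, hm⟩ := Multiset.le_iff_exists_add.1 e
  have sp := (QP_pair hS hp).2.2
  have sr := (QP_pair hS hr).2.2
  have su := (QP_pair hS hu).2.2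
  rw [QP_split h hA hS hp hr hu hm.symm,
    QP_split h hA hS hr hu hp (by rw [hm]; abel : r + u + p + m = V),
    QP_split h hA hS hu hp hr (by rw [hm]; abel : u + p + r + m = V),
    QP_sc sr (S p), QP_sc su (S r), QP_sc sp (S u)]
  abel

theorem exists_Q (h : Ctx π V) (hA : IsAct π V β al ar) (hS : IsS S) :
    ∃ Q : Multiset ℕ → Fn F →ₗ[F] R, IsQ V al S Q := by
  have h16 := h.card
  obtain ⟨c, hc⟩ := Kn h.nodup (by omega) (QP_g V al S) (fun p r _ _ _ => QP_anti V al S p r)
    (fun p r u hp hr hu e => QP_tri h hA hS hp hr hu e)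
  refine ⟨fun p => (al p (S p)) ∘ₗ (LinearMap.id - (sg F).smulRight (S (V - p))) +
    (sg F).smulRight (c p), ?_, ?_⟩
  · intro p m _ e l hl
    show al p (S p) (l - sg F l • S (V - p)) + sg F l • c p = al p (S p) l
    rw [sg_LF hl, zero_smul, zero_smul, sub_zero, add_zero]
  · intro p r m hp hr e w hw
    show al p (S p) (S r * w - sg F (S r * w) • S (V - p)) + sg F (S r * w) • c p =
      al r (S r) (S p * w - sg F (S p * w) • S (V - r)) + sg F (S p * w) • c r
    obtain ⟨p1, p2, p3⟩ := QP_pair hS hp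
    obtain ⟨r1, r2, r3⟩ := QP_pair hS hr
    have hcd := QP_card h e
    rw [Multiset.card_add, hp, hr] at hcd
    have hm : m ≠ 0 := by
      rintro rfl
      simp at hcd
    obtain ⟨m1, m2, -⟩ := hS m hm
    rw [sg_mul (WW_le_AF _ r1) (WW_le_AF _ hw), sg_mul (WW_le_AF _ p1) (WW_le_AF _ hw), p2, r2,
      one_mul]
    have k := QP_ind h hA hS hp hr e hw (Submodule.smul_mem _ (sg F w) m1) (by
      rw [map_smul, m2, smul_eq_mul, mul_one])
    have g := hc p r hp hr (by rw [← e]; exact Multiset.le_add_right _ _)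
    unfold QP_g at g
    rw [(QP_tsub e).2.2] at g
    have g' := congrArg (fun x => sg F w • x) g
    simp only [smul_sub] at g'
    rw [mul_sub, mul_sub, mul_smul_comm, mul_smul_comm, map_sub, map_sub, map_smul, map_smul] at k
    rw [map_sub, map_sub, smul_sub, smul_sub] at g'
    rw [map_sub, map_sub, map_smul, map_smul]
    generalize sg F w • al r (S r) (S (V - r)) = a1 at g' ⊢
    generalize sg F w • al p (S p) (S (V - p)) = a2 at g' ⊢
    generalize sg F w • al r (S r) (S p * S m) = a3 at g' k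
    generalize sg F w • al p (S p) (S r * S m) = a4 at g' k
    generalize sg F w • c p = a5 at g' ⊢
    generalize sg F w • c r = a6 at g' ⊢
    generalize al p (S p) (S r * w) = a7 at k ⊢
    generalize al r (S r) (S p * w) = a8 at k ⊢
    have k2 : a7 = a8 - a3 + a4 := by rw [← k]; abel
    have g2 : a5 = a3 - a1 - (a4 - a2) + a6 := by rw [← g']; abel
    rw [k2, g2]
    abel

end Pool.Agent.OB
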