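import Pool.Agent.OB.Ctx

/-!
# Three identities in the top degree  (module QTop)
-/

set_option autoImplicit false
set_option linter.unusedSectionVars false

namespace Pool.Agent.OB

open FreeNonUnitalNonAssocAlgebra Pool.Agent.H.MP_41922c_al Pool.Agent.Smt

variable {F : Type*} [Field F] {R : Type*} [NonUnitalNonAssocRing R] [Module F R]
  [IsScalarTower F R R] [SMulCommClass F R R]
variable {π : FA F →ₙₐ[F] R} {V : Multiset ℕ} {β : Multiset ℕ → Fn F →ₗ[F] R}

/-- substitution of words -/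
noncomputable def QTop_th (F : Type*) [Field F] (s : ℕ → FreeMagma ℕ) : FA F →ₙₐ[F] FA F :=
  lift F (fun i => mo F (s i))

/-- the multidegree after the substitution -/
def QTop_mu (s : ℕ → FreeMagma ℕ) (M : Multiset ℕ) : Multiset ℕ :=
  (M.map (fun i => lets id (s i))).sum

theorem QTop_mu_add (s : ℕ → FreeMagma ℕ) (M N : Multiset ℕ) :
    QTop_mu s (M + N) = QTop_mu s M + QTop_mu s N := by
  simp [QTop_mu]

theorem QTop_mu_one (s : ℕ → FreeMagma ℕ) (i : ℕ) : QTop_mu s {i} = lets id (s i) := by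
  simp [QTop_mu]

theorem QTop_th_of (s : ℕ → FreeMagma ℕ) (i : ℕ) : QTop_th F s (of F i) = mo F (s i) := by
  simp [QTop_th, lift_of_apply]

theorem QTop_th_mem (s : ℕ → FreeMagma ℕ) {M : Multiset ℕ} {f : FA F} (hf : f ∈ P F M) :
    QTop_th F s f ∈ P F (QTop_mu s M) :=
  lift_mem id id (fun i => mo F (s i)) (fun i => lets id (s i)) (fun i => mo_mem id (s i)) hf

/-- pointwise form of the values -/
theorem QTop_val (s : ℕ → FreeMagma ℕ) {k : F} {L G : FA F} {i : ℕ}
    (e : ∀ φ : FA F →ₙₐ[F] Oc F, φ G = (k * tt (φ (of F i))) • φ L) :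
    ev F (QTop_th F s G) = k • (trf (ev F (mo F (s i))) * ev F (QTop_th F s L)) := by
  funext v
  have h := e ((Ids_at F v).comp ((ev F).comp (QTop_th F s)))
  have h1 : ∀ f : FA F, ((Ids_at F v).comp ((ev F).comp (QTop_th F s))) f
      = ev F (QTop_th F s f) v := fun f => rfl
  rw [h1, h1, h1, QTop_th_of] at h
  rw [h, Pi.smul_apply, Pi.mul_apply]
  have h2 : trf (ev F (mo F (s i))) v = tt (ev F (mo F (s i)) v) • (1 : Oc F) := by
    rw [← add_star]
    rfl
  rw [h2, smul_mul_assoc, one_mul, smul_smul]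

theorem QTop_o1 (k : F) (a b w l : Oc F) :
    a * (w * ((k * tt b) • l)) + b * (w * ((k * tt a) • l)) - k • (jor a b * (w * l)) =
      w * (a * ((k * tt b) • l) + b * ((k * tt a) • l) - k • (jor a b * l)) := by
  simp only [jor_oc, mul_smul_comm, smul_mul_assoc, sub_mul, add_mul, mul_add, mul_sub, one_mul]
  module

theorem QTop_o2 (k : F) (a b w l : Oc F) :
    a * (((k * tt b) • l) * w) + b * (((k * tt a) • l) * w) - k • (jor a b * (l * w)) =
      (a * ((k * tt b) • l) + b * ((k * tt a) • l) - k • (jor a b * l)) * w := by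
  simp only [jor_oc, mul_smul_comm, smul_mul_assoc, sub_mul, add_mul, one_mul]
  module

theorem QTop_o3 (k : F) (a b l : Oc F) :
    a * ((k * tt b) • l) + b * ((k * tt a) • l) - k • (jor a b * l) =
      ((k * tt b) • l) * a + ((k * tt a) • l) * b - k • (l * jor a b) := by
  simp only [jor_oc, mul_smul_comm, smul_mul_assoc, sub_mul, add_mul, mul_add, mul_sub, one_mul,
    mul_one]
  module

/-- an identity of low degree, with words substituted -/
theorem QTop_id (h : Ctx π V) (s : ℕ → FreeMagma ℕ) {N : Multiset ℕ} (hN : N.Nodup)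
    (hc : N.card ≤ 9) {f g : FA F} (hf : f ∈ P F N) (hg : g ∈ P F N)
    (e : ∀ φ : FA F →ₙₐ[F] Oc F, φ f = φ g) : π (QTop_th F s f) = π (QTop_th F s g) := by
  have h1 : IsIdentity F R (f - g) := by
    refine h.sat N hN hc _ (sub_mem hf hg) ?_
    intro φ
    rw [map_sub, e φ, sub_self]
  have h2 := h1 (π.comp (QTop_th F s))
  rw [map_sub] at h2
  exact sub_eq_zero.mp h2

theorem QTop_beta (h : Ctx π V) (hβ : IsBeta π V β) {m u : Multiset ℕ} (e : u + m = V)
    (hu : u ≠ 0) {p : FA F} (hp : p ∈ P F m) : β m (ev F p) = π p := by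
  refine hβ m ?_ ?_ p hp
  · exact Multiset.nodup_of_le (by rw [← e]; exact Multiset.le_add_left _ _) h.nodup
  · rw [← e, Multiset.card_add]
    have := Multiset.card_pos.2 hu
    omega

theorem QTop_b (h : Ctx π V) (hβ : IsBeta π V β) (s : ℕ → FreeMagma ℕ) {N : Multiset ℕ} {p : FA F}
    (hp : p ∈ P F N) {n u : Multiset ℕ} (e : QTop_mu s N = n) (e' : u + n = V) (hu : u ≠ 0) :
    π (QTop_th F s p) = β n (ev F (QTop_th F s p)) := by
  subst e
  exact (QTop_beta h hβ e' hu (QTop_th_mem s hp)).symm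

theorem QTop_left (h : Ctx π V) (hβ : IsBeta π V β) (s : ℕ → FreeMagma ℕ) {M : Multiset ℕ}
    (hN : ({0} + {1} + {2} + M : Multiset ℕ).Nodup)
    (hc : ({0} + {1} + {2} + M : Multiset ℕ).card ≤ 9)
    {k : F} (hk : k ≠ 0) {L G H : FA F} (hL : L ∈ P F M) (hG : G ∈ P F ({0} + M))
    (hH : H ∈ P F ({1} + M))
    (eG : ∀ φ : FA F →ₙₐ[F] Oc F, φ G = (k * tt (φ (of F 0))) • φ L)
    (eH : ∀ φ : FA F →ₙₐ[F] Oc F, φ H = (k * tt (φ (of F 1))) • φ L)
    {u v w : FreeMagma ℕ} (e0 : s 0 = u) (e1 : s 1 = v) (e2 : s 2 = w) {m : Multiset ℕ}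
    (em : QTop_mu s M = m) (e : lets id u + lets id v + lets id w + m = V) {l : Fn F}
    (el : ev F (QTop_th F s L) = l) :
    π (mo F u) * β (lets id v + lets id w + m) (ev F (mo F w) * (trf (ev F (mo F v)) * l))
      + π (mo F v) * β (lets id u + lets id w + m) (ev F (mo F w) * (trf (ev F (mo F u)) * l))
      - π (jor (mo F u) (mo F v)) * β (lets id w + m) (ev F (mo F w) * l) =
    π (mo F w) * β (lets id u + lets id v + m)
      (ev F (mo F u) * (trf (ev F (mo F v)) * l) + ev F (mo F v) * (trf (ev F (mo F u)) * l)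
        - jor (ev F (mo F u)) (ev F (mo F v)) * l) := by
  have m0 : of F 0 ∈ P F {0} := Ids_of 0
  have m1 : of F 1 ∈ P F {1} := Ids_of 1
  have m2 : of F 2 ∈ P F {2} := Ids_of 2
  have j01 : jor (of F 0) (of F 1) ∈ P F ({0} + {1}) := Ids_jor_mem m0 m1
  have a1 : of F 0 * (of F 2 * H) ∈ P F ({0} + {1} + {2} + M) := by
    have := PP_mul id m0 (PP_mul id m2 hH)
    exact Ids_cast this (by abel)
  have a2 : of F 1 * (of F 2 * G) ∈ P F ({0} + {1} + {2} + M) := by
    have := PP_mul id m1 (PP_mul id m2 hG)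
    exact Ids_cast this (by abel)
  have a3 : jor (of F 0) (of F 1) * (of F 2 * L) ∈ P F ({0} + {1} + {2} + M) := by
    have := PP_mul id j01 (PP_mul id m2 hL)
    exact Ids_cast this (by abel)
  have b1 : of F 0 * H ∈ P F ({0} + {1} + M) := by
    have := PP_mul id m0 hH
    exact Ids_cast this (by abel)
  have b2 : of F 1 * G ∈ P F ({0} + {1} + M) := by
    have := PP_mul id m1 hG
    exact Ids_cast this (by abel)
  have b3 : jor (of F 0) (of F 1) * L ∈ P F ({0} + {1} + M) := PP_mul id j01 hL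
  have b4 : of F 0 * H + of F 1 * G - k • (jor (of F 0) (of F 1) * L) ∈ P F ({0} + {1} + M) :=
    sub_mem (add_mem b1 b2) (Submodule.smul_mem _ _ b3)
  have b5 : of F 2 * (of F 0 * H + of F 1 * G - k • (jor (of F 0) (of F 1) * L)) ∈
      P F ({0} + {1} + {2} + M) := by
    have := PP_mul id m2 b4
    exact Ids_cast this (by abel)
  have i1 : π (QTop_th F s (of F 0 * (of F 2 * H) + of F 1 * (of F 2 * G)
        - k • (jor (of F 0) (of F 1) * (of F 2 * L)))) =
      π (QTop_th F s (of F 2 * (of F 0 * H + of F 1 * G - k • (jor (of F 0) (of F 1) * L)))) := by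
    refine QTop_id h s hN hc (sub_mem (add_mem a1 a2) (Submodule.smul_mem _ _ a3)) b5 ?_
    intro φ
    have := QTop_o1 k (φ (of F 0)) (φ (of F 1)) (φ (of F 2)) (φ L)
    simp only [map_add, map_sub, map_mul, map_smul, Ids_jor, eG φ, eH φ]
    exact this
  have n0 : lets id u ≠ 0 := lets_ne id u
  have n1 : lets id v ≠ 0 := lets_ne id v
  have n2 : lets id w ≠ 0 := lets_ne id w
  have vG := QTop_val (s := s) eG
  have vH := QTop_val (s := s) eH
  rw [e0, el] at vG
  rw [e1, el] at vH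
  have q1 : π (QTop_th F s (of F 2 * H)) = k • β (lets id v + lets id w + m)
      (ev F (mo F w) * (trf (ev F (mo F v)) * l)) := by
    rw [QTop_b h hβ s (PP_mul id m2 hH) (n := lets id v + lets id w + m) (u := lets id u) _ _ n0,
      map_mul, map_mul, QTop_th_of, e2, vH, mul_smul_comm, map_smul]
    · rw [QTop_mu_add, QTop_mu_add, QTop_mu_one, QTop_mu_one, e1, e2, em]
      abel
    · rw [← e]
      abel
  have q2 : π (QTop_th F s (of F 2 * G)) = k • β (lets id u + lets id w + m)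
      (ev F (mo F w) * (trf (ev F (mo F u)) * l)) := by
    rw [QTop_b h hβ s (PP_mul id m2 hG) (n := lets id u + lets id w + m) (u := lets id v) _ _ n1,
      map_mul, map_mul, QTop_th_of, e2, vG, mul_smul_comm, map_smul]
    · rw [QTop_mu_add, QTop_mu_add, QTop_mu_one, QTop_mu_one, e0, e2, em]
      abel
    · rw [← e]
      abel
  have q3 : π (QTop_th F s (of F 2 * L)) = β (lets id w + m) (ev F (mo F w) * l) := by
    rw [QTop_b h hβ s (PP_mul id m2 hL) (n := lets id w + m) (u := lets id u + lets id v) _ _ _,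
      map_mul, map_mul, QTop_th_of, e2, el]
    · rw [QTop_mu_add, QTop_mu_one, e2, em]
    · rw [← e]
      abel
    · exact fun hh => n0 (add_eq_zero.mp hh).1
  have q4 : π (QTop_th F s (of F 0 * H + of F 1 * G - k • (jor (of F 0) (of F 1) * L))) =
      k • β (lets id u + lets id v + m)
      (ev F (mo F u) * (trf (ev F (mo F v)) * l) + ev F (mo F v) * (trf (ev F (mo F u)) * l)
        - jor (ev F (mo F u)) (ev F (mo F v)) * l) := by
    rw [QTop_b h hβ s b4 (n := lets id u + lets id v + m) (u := lets id w) _ _ n2]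
    · rw [← map_smul]
      congr 1
      simp only [map_add, map_sub, map_mul, map_smul, Ids_jor, QTop_th_of, e0, e1, vG, vH, el,
        smul_add, smul_sub, mul_smul_comm]
    · rw [QTop_mu_add, QTop_mu_add, QTop_mu_one, QTop_mu_one, e0, e1, em]
    · rw [← e]
      abel
  have mm : ∀ f g : FA F, π (QTop_th F s (f * g)) = π (QTop_th F s f) * π (QTop_th F s g) :=
    fun f g => by rw [map_mul, map_mul]
  have o0 : π (QTop_th F s (of F 0)) = π (mo F u) := by rw [QTop_th_of, e0]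
  have o1 : π (QTop_th F s (of F 1)) = π (mo F v) := by rw [QTop_th_of, e1]
  have o2 : π (QTop_th F s (of F 2)) = π (mo F w) := by rw [QTop_th_of, e2]
  have oj : π (QTop_th F s (jor (of F 0) (of F 1))) = π (jor (mo F u) (mo F v)) := by
    rw [Ids_jor, QTop_th_of, QTop_th_of, e0, e1]
  apply smul_right_injective R hk
  simp only [smul_add, smul_sub]
  rw [map_sub, map_sub, map_add, map_add, map_smul, map_smul, mm (of F 0) (of F 2 * H),
    mm (of F 1) (of F 2 * G), mm (jor (of F 0) (of F 1)) (of F 2 * L), mm (of F 2) (_ - _),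
    q1, q2, q3, q4, o0, o1, o2, oj, mul_smul_comm, mul_smul_comm, mul_smul_comm] at i1
  exact i1

theorem QTop_right (h : Ctx π V) (hβ : IsBeta π V β) (s : ℕ → FreeMagma ℕ) {M : Multiset ℕ}
    (hN : ({0} + {1} + {2} + M : Multiset ℕ).Nodup)
    (hc : ({0} + {1} + {2} + M : Multiset ℕ).card ≤ 9)
    {k : F} (hk : k ≠ 0) {L G H : FA F} (hL : L ∈ P F M) (hG : G ∈ P F ({0} + M))
    (hH : H ∈ P F ({1} + M))
    (eG : ∀ φ : FA F →ₙₐ[F] Oc F, φ G = (k * tt (φ (of F 0))) • φ L)
    (eH : ∀ φ : FA F →ₙₐ[F] Oc F, φ H = (k * tt (φ (of F 1))) • φ L)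
    {u v w : FreeMagma ℕ} (e0 : s 0 = u) (e1 : s 1 = v) (e2 : s 2 = w) {m : Multiset ℕ}
    (em : QTop_mu s M = m) (e : lets id u + lets id v + lets id w + m = V) {l : Fn F}
    (el : ev F (QTop_th F s L) = l) :
    π (mo F u) * β (lets id v + lets id w + m) ((trf (ev F (mo F v)) * l) * ev F (mo F w))
      + π (mo F v) * β (lets id u + lets id w + m) ((trf (ev F (mo F u)) * l) * ev F (mo F w))
      - π (jor (mo F u) (mo F v)) * β (lets id w + m) (l * ev F (mo F w)) =
    β (lets id u + lets id v + m)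
      (ev F (mo F u) * (trf (ev F (mo F v)) * l) + ev F (mo F v) * (trf (ev F (mo F u)) * l)
        - jor (ev F (mo F u)) (ev F (mo F v)) * l) * π (mo F w) := by
  have m0 : of F 0 ∈ P F {0} := Ids_of 0
  have m1 : of F 1 ∈ P F {1} := Ids_of 1
  have m2 : of F 2 ∈ P F {2} := Ids_of 2
  have j01 : jor (of F 0) (of F 1) ∈ P F ({0} + {1}) := Ids_jor_mem m0 m1
  have c1 : H * of F 2 ∈ P F (({1} + M) + {2}) := PP_mul id hH m2
  have c2 : G * of F 2 ∈ P F (({0} + M) + {2}) := PP_mul id hG m2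
  have c3 : L * of F 2 ∈ P F (M + {2}) := PP_mul id hL m2
  have a1 : of F 0 * (H * of F 2) ∈ P F ({0} + {1} + {2} + M) := by
    have := PP_mul id m0 c1
    exact Ids_cast this (by abel)
  have a2 : of F 1 * (G * of F 2) ∈ P F ({0} + {1} + {2} + M) := by
    have := PP_mul id m1 c2
    exact Ids_cast this (by abel)
  have a3 : jor (of F 0) (of F 1) * (L * of F 2) ∈ P F ({0} + {1} + {2} + M) := by
    have := PP_mul id j01 c3
    exact Ids_cast this (by abel)
  have b1 : of F 0 * H ∈ P F ({0} + {1} + M) := by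
    have := PP_mul id m0 hH
    exact Ids_cast this (by abel)
  have b2 : of F 1 * G ∈ P F ({0} + {1} + M) := by
    have := PP_mul id m1 hG
    exact Ids_cast this (by abel)
  have b3 : jor (of F 0) (of F 1) * L ∈ P F ({0} + {1} + M) := PP_mul id j01 hL
  have b4 : of F 0 * H + of F 1 * G - k • (jor (of F 0) (of F 1) * L) ∈ P F ({0} + {1} + M) :=
    sub_mem (add_mem b1 b2) (Submodule.smul_mem _ _ b3)
  have b5 : (of F 0 * H + of F 1 * G - k • (jor (of F 0) (of F 1) * L)) * of F 2 ∈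
      P F ({0} + {1} + {2} + M) := by
    have := PP_mul id b4 m2
    exact Ids_cast this (by abel)
  have i1 : π (QTop_th F s (of F 0 * (H * of F 2) + of F 1 * (G * of F 2)
        - k • (jor (of F 0) (of F 1) * (L * of F 2)))) =
      π (QTop_th F s ((of F 0 * H + of F 1 * G - k • (jor (of F 0) (of F 1) * L)) * of F 2)) := by
    refine QTop_id h s hN hc (sub_mem (add_mem a1 a2) (Submodule.smul_mem _ _ a3)) b5 ?_
    intro φ
    have := QTop_o2 k (φ (of F 0)) (φ (of F 1)) (φ (of F 2)) (φ L)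
    simp only [map_add, map_sub, map_mul, map_smul, Ids_jor, eG φ, eH φ]
    exact this
  have n0 : lets id u ≠ 0 := lets_ne id u
  have n1 : lets id v ≠ 0 := lets_ne id v
  have n2 : lets id w ≠ 0 := lets_ne id w
  have vG := QTop_val (s := s) eG
  have vH := QTop_val (s := s) eH
  rw [e0, el] at vG
  rw [e1, el] at vH
  have q1 : π (QTop_th F s (H * of F 2)) = k • β (lets id v + lets id w + m)
      ((trf (ev F (mo F v)) * l) * ev F (mo F w)) := by
    rw [QTop_b h hβ s c1 (n := lets id v + lets id w + m) (u := lets id u) _ _ n0,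
      map_mul, map_mul, QTop_th_of, e2, vH, smul_mul_assoc, map_smul]
    · rw [QTop_mu_add, QTop_mu_add, QTop_mu_one, QTop_mu_one, e1, e2, em]
      abel
    · rw [← e]
      abel
  have q2 : π (QTop_th F s (G * of F 2)) = k • β (lets id u + lets id w + m)
      ((trf (ev F (mo F u)) * l) * ev F (mo F w)) := by
    rw [QTop_b h hβ s c2 (n := lets id u + lets id w + m) (u := lets id v) _ _ n1,
      map_mul, map_mul, QTop_th_of, e2, vG, smul_mul_assoc, map_smul]
    · rw [QTop_mu_add, QTop_mu_add, QTop_mu_one, QTop_mu_one, e0, e2, em]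
      abel
    · rw [← e]
      abel
  have q3 : π (QTop_th F s (L * of F 2)) = β (lets id w + m) (l * ev F (mo F w)) := by
    rw [QTop_b h hβ s c3 (n := lets id w + m) (u := lets id u + lets id v) _ _ _,
      map_mul, map_mul, QTop_th_of, e2, el]
    · rw [QTop_mu_add, QTop_mu_one, e2, em]
      abel
    · rw [← e]
      abel
    · exact fun hh => n0 (add_eq_zero.mp hh).1
  have q4 : π (QTop_th F s (of F 0 * H + of F 1 * G - k • (jor (of F 0) (of F 1) * L))) =
      k • β (lets id u + lets id v + m)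
      (ev F (mo F u) * (trf (ev F (mo F v)) * l) + ev F (mo F v) * (trf (ev F (mo F u)) * l)
        - jor (ev F (mo F u)) (ev F (mo F v)) * l) := by
    rw [QTop_b h hβ s b4 (n := lets id u + lets id v + m) (u := lets id w) _ _ n2]
    · rw [← map_smul]
      congr 1
      simp only [map_add, map_sub, map_mul, map_smul, Ids_jor, QTop_th_of, e0, e1, vG, vH, el,
        smul_add, smul_sub, mul_smul_comm]
    · rw [QTop_mu_add, QTop_mu_add, QTop_mu_one, QTop_mu_one, e0, e1, em]
    · rw [← e]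
      abel
  have mm : ∀ f g : FA F, π (QTop_th F s (f * g)) = π (QTop_th F s f) * π (QTop_th F s g) :=
    fun f g => by rw [map_mul, map_mul]
  have o0 : π (QTop_th F s (of F 0)) = π (mo F u) := by rw [QTop_th_of, e0]
  have o1 : π (QTop_th F s (of F 1)) = π (mo F v) := by rw [QTop_th_of, e1]
  have o2 : π (QTop_th F s (of F 2)) = π (mo F w) := by rw [QTop_th_of, e2]
  have oj : π (QTop_th F s (jor (of F 0) (of F 1))) = π (jor (mo F u) (mo F v)) := by
    rw [Ids_jor, QTop_th_of, QTop_th_of, e0, e1]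
  apply smul_right_injective R hk
  simp only [smul_add, smul_sub]
  rw [map_sub, map_sub, map_add, map_add, map_smul, map_smul, mm (of F 0) (H * of F 2),
    mm (of F 1) (G * of F 2), mm (jor (of F 0) (of F 1)) (L * of F 2), mm (_ - _) (of F 2),
    q1, q2, q3, q4, o0, o1, o2, oj, mul_smul_comm, mul_smul_comm, smul_mul_assoc] at i1
  exact i1

theorem QTop_comm (h : Ctx π V) (hβ : IsBeta π V β) (s : ℕ → FreeMagma ℕ) {M : Multiset ℕ}
    (hN : ({0} + {1} + M : Multiset ℕ).Nodup) (hc : ({0} + {1} + M : Multiset ℕ).card ≤ 9)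
    {k : F} (hk : k ≠ 0) {L G H : FA F} (hL : L ∈ P F M) (hG : G ∈ P F ({0} + M))
    (hH : H ∈ P F ({1} + M))
    (eG : ∀ φ : FA F →ₙₐ[F] Oc F, φ G = (k * tt (φ (of F 0))) • φ L)
    (eH : ∀ φ : FA F →ₙₐ[F] Oc F, φ H = (k * tt (φ (of F 1))) • φ L)
    {u v : FreeMagma ℕ} (e0 : s 0 = u) (e1 : s 1 = v) {m : Multiset ℕ}
    (em : QTop_mu s M = m) (e : lets id u + lets id v + m = V) {l : Fn F}
    (el : ev F (QTop_th F s L) = l) :
    π (mo F u) * β (lets id v + m) (trf (ev F (mo F v)) * l)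
      + π (mo F v) * β (lets id u + m) (trf (ev F (mo F u)) * l)
      - π (jor (mo F u) (mo F v)) * β m l =
    β (lets id v + m) (trf (ev F (mo F v)) * l) * π (mo F u)
      + β (lets id u + m) (trf (ev F (mo F u)) * l) * π (mo F v)
      - β m l * π (jor (mo F u) (mo F v)) := by
  have m0 : of F 0 ∈ P F {0} := Ids_of 0
  have m1 : of F 1 ∈ P F {1} := Ids_of 1
  have j01 : jor (of F 0) (of F 1) ∈ P F ({0} + {1}) := Ids_jor_mem m0 m1
  have a1 : of F 0 * H ∈ P F ({0} + {1} + M) := by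
    have := PP_mul id m0 hH
    exact Ids_cast this (by abel)
  have a2 : of F 1 * G ∈ P F ({0} + {1} + M) := by
    have := PP_mul id m1 hG
    exact Ids_cast this (by abel)
  have a3 : jor (of F 0) (of F 1) * L ∈ P F ({0} + {1} + M) := PP_mul id j01 hL
  have b1 : H * of F 0 ∈ P F ({0} + {1} + M) := by
    have := PP_mul id hH m0
    exact Ids_cast this (by abel)
  have b2 : G * of F 1 ∈ P F ({0} + {1} + M) := by
    have := PP_mul id hG m1
    exact Ids_cast this (by abel)
  have b3 : L * jor (of F 0) (of F 1) ∈ P F ({0} + {1} + M) := by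
    have := PP_mul id hL j01
    exact Ids_cast this (by abel)
  have i1 : π (QTop_th F s (of F 0 * H + of F 1 * G - k • (jor (of F 0) (of F 1) * L))) =
      π (QTop_th F s (H * of F 0 + G * of F 1 - k • (L * jor (of F 0) (of F 1)))) := by
    refine QTop_id h s hN hc (sub_mem (add_mem a1 a2) (Submodule.smul_mem _ _ a3))
      (sub_mem (add_mem b1 b2) (Submodule.smul_mem _ _ b3)) ?_
    intro φ
    have := QTop_o3 k (φ (of F 0)) (φ (of F 1)) (φ L)
    simp only [map_add, map_sub, map_mul, map_smul, Ids_jor, eG φ, eH φ]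
    exact this
  have n0 : lets id u ≠ 0 := lets_ne id u
  have n1 : lets id v ≠ 0 := lets_ne id v
  have vG := QTop_val (s := s) eG
  have vH := QTop_val (s := s) eH
  rw [e0, el] at vG
  rw [e1, el] at vH
  have q1 : π (QTop_th F s H) = k • β (lets id v + m) (trf (ev F (mo F v)) * l) := by
    rw [QTop_b h hβ s hH (n := lets id v + m) (u := lets id u) _ _ n0, vH, map_smul]
    · rw [QTop_mu_add, QTop_mu_one, e1, em]
    · rw [← e]
      abel
  have q2 : π (QTop_th F s G) = k • β (lets id u + m) (trf (ev F (mo F u)) * l) := by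
    rw [QTop_b h hβ s hG (n := lets id u + m) (u := lets id v) _ _ n1, vG, map_smul]
    · rw [QTop_mu_add, QTop_mu_one, e0, em]
    · rw [← e]
      abel
  have q3 : π (QTop_th F s L) = β m l := by
    rw [QTop_b h hβ s hL em (u := lets id u + lets id v) e _, el]
    exact fun hh => n0 (add_eq_zero.mp hh).1
  have mm : ∀ f g : FA F, π (QTop_th F s (f * g)) = π (QTop_th F s f) * π (QTop_th F s g) :=
    fun f g => by rw [map_mul, map_mul]
  have o0 : π (QTop_th F s (of F 0)) = π (mo F u) := by rw [QTop_th_of, e0]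
  have o1 : π (QTop_th F s (of F 1)) = π (mo F v) := by rw [QTop_th_of, e1]
  have oj : π (QTop_th F s (jor (of F 0) (of F 1))) = π (jor (mo F u) (mo F v)) := by
    rw [Ids_jor, QTop_th_of, QTop_th_of, e0, e1]
  apply smul_right_injective R hk
  simp only [smul_add, smul_sub]
  simp only [map_sub, map_add, map_smul] at i1
  rw [mm (of F 0) H, mm (of F 1) G, mm (jor (of F 0) (of F 1)) L, mm H (of F 0), mm G (of F 1),
    mm L (jor (of F 0) (of F 1)), q1, q2, q3, o0, o1, oj, mul_smul_comm, mul_smul_comm,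
    smul_mul_assoc, smul_mul_assoc] at i1
  exact i1

theorem QTop_lam_mem {a b c d : FA F} {ma mb mc md : Multiset ℕ} (ha : a ∈ P F ma)
    (hb : b ∈ P F mb) (hc : c ∈ P F mc) (hd : d ∈ P F md) {m : Multiset ℕ}
    (e : m = ma + mb + mc + md) : lam12 d a b c ∈ P F m := by
  subst e
  have h1 : com d (associator a b c) ∈ P F (ma + mb + mc + md) :=
    Ids_cast (Ids_com_mem hd (Ids_ass_mem ha hb hc)) (by abel)
  have h2 : com a (associator b c d) ∈ P F (ma + mb + mc + md) :=
    Ids_cast (Ids_com_mem ha (Ids_ass_mem hb hc hd)) (by abel)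
  have h3 : com b (associator c a d) ∈ P F (ma + mb + mc + md) :=
    Ids_cast (Ids_com_mem hb (Ids_ass_mem hc ha hd)) (by abel)
  have h4 : com c (associator a b d) ∈ P F (ma + mb + mc + md) :=
    Ids_cast (Ids_com_mem hc (Ids_ass_mem ha hb hd)) (by abel)
  have h5 : com (com a b) (com c d) ∈ P F (ma + mb + mc + md) :=
    Ids_cast (Ids_com_mem (Ids_com_mem ha hb) (Ids_com_mem hc hd)) (by abel)
  have h6 : com (com b c) (com a d) ∈ P F (ma + mb + mc + md) :=
    Ids_cast (Ids_com_mem (Ids_com_mem hb hc) (Ids_com_mem ha hd)) (by abel)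
  have h7 : com (com c a) (com b d) ∈ P F (ma + mb + mc + md) :=
    Ids_cast (Ids_com_mem (Ids_com_mem hc ha) (Ids_com_mem hb hd)) (by abel)
  exact add_mem (sub_mem (neg_mem (nsmul_mem h1 10)) (nsmul_mem (add_mem (add_mem h2 h3) h4) 2))
    (nsmul_mem (add_mem (add_mem h5 h6) h7) 3)

theorem QTop_F1_mem {a b c : FA F} {ma mb mc : Multiset ℕ} (ha : a ∈ P F ma)
    (hb : b ∈ P F mb) (hc : c ∈ P F mc) {m : Multiset ℕ}
    (e : m = ma + mb + mc) : F1 a b c ∈ P F m := by
  subst e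
  exact Ids_cast (Ids_com_mem ha (Ids_com_mem hb hc)) (by abel)

theorem QTop_F3_mem {a b c d : FA F} {ma mb mc md : Multiset ℕ} (ha : a ∈ P F ma)
    (hb : b ∈ P F mb) (hc : c ∈ P F mc) (hd : d ∈ P F md) {m : Multiset ℕ}
    (e : m = ma + mb + mc + md) : F3 a b c d ∈ P F m := by
  subst e
  exact Ids_cast (Ids_jor_mem (Ids_com_mem ha hb) (Ids_com_mem hc hd)) (by abel)

theorem QTop_G1_mem {u a b c : FA F} {mu ma mb mc : Multiset ℕ} (hu : u ∈ P F mu) (ha : a ∈ P F ma)
    (hb : b ∈ P F mb) (hc : c ∈ P F mc) {m : Multiset ℕ}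
    (e : m = mu + ma + mb + mc) : G1 u a b c ∈ P F m := by
  subst e
  exact Ids_cast (Ids_com_mem ha (Ids_jor_mem hu (Ids_com_mem hb hc))) (by abel)

theorem QTop_G3_mem {u a b c d : FA F} {mu ma mb mc md : Multiset ℕ} (hu : u ∈ P F mu)
    (ha : a ∈ P F ma) (hb : b ∈ P F mb) (hc : c ∈ P F mc) (hd : d ∈ P F md) {m : Multiset ℕ}
    (e : m = mu + ma + mb + mc + md) : G3 u a b c d ∈ P F m := by
  subst e
  exact sub_mem (nsmul_mem (Ids_cast (Ids_jor_mem (Ids_com_mem ha hb)
    (Ids_jor_mem hu (Ids_com_mem hc hd))) (by abel)) 6)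
    (QTop_lam_mem hu hc hd (Ids_com_mem ha hb) (by abel))

section maps

variable {A : Type*} [NonUnitalNonAssocRing A] [Module F A]

theorem QTop_F1 (φ : FA F →ₙₐ[F] A) (a b c : FA F) : φ (F1 a b c) = F1 (φ a) (φ b) (φ c) := by
  simp only [F1, Ids_com]

theorem QTop_F2 (φ : FA F →ₙₐ[F] A) (r a b c : FA F) :
    φ (F2 r a b c) = F2 (φ r) (φ a) (φ b) (φ c) := by
  simp only [F2, QTop_F1, map_mul]

theorem QTop_F4 (φ : FA F →ₙₐ[F] A) (r a b c d : FA F) :
    φ (F4 r a b c d) = F4 (φ r) (φ a) (φ b) (φ c) (φ d) := by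
  simp only [F4, Ids_F3, map_mul]

theorem QTop_G1 (φ : FA F →ₙₐ[F] A) (u a b c : FA F) :
    φ (G1 u a b c) = G1 (φ u) (φ a) (φ b) (φ c) := by
  simp only [G1, Ids_com, Ids_jor]

theorem QTop_G2 (φ : FA F →ₙₐ[F] A) (u r a b c : FA F) :
    φ (G2 u r a b c) = G2 (φ u) (φ r) (φ a) (φ b) (φ c) := by
  simp only [G2, QTop_G1, map_mul]

theorem QTop_G3 (φ : FA F →ₙₐ[F] A) (u a b c d : FA F) :
    φ (G3 u a b c d) = G3 (φ u) (φ a) (φ b) (φ c) (φ d) := by
  simp only [G3, lam12, Ids_com, Ids_jor, Ids_ass, map_add, map_sub, map_neg, map_nsmul]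

theorem QTop_G4 (φ : FA F →ₙₐ[F] A) (u r a b c d : FA F) :
    φ (G4 u r a b c d) = G4 (φ u) (φ r) (φ a) (φ b) (φ c) (φ d) := by
  simp only [G4, QTop_G3, map_mul]

end maps

/-- the words `u, v, w, a, b, c, d, r` as values of the variables -/
def QTop_s (u v w a b c d r : FreeMagma ℕ) : ℕ → FreeMagma ℕ
  | 0 => u
  | 1 => v
  | 2 => w
  | 3 => a
  | 4 => b
  | 5 => c
  | 6 => d
  | _ => r

/-- the data for the three lemmas -/
theorem QTop_form (h2 : (2 : F) ≠ 0) (h3 : (3 : F) ≠ 0) {m : Multiset ℕ} {f : FA F}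
    (hf : IsForm F m f) (u v w : FreeMagma ℕ) :
    ∃ (s : ℕ → FreeMagma ℕ) (M : Multiset ℕ) (k : F) (L G H : FA F),
      ({0} + {1} + {2} + M : Multiset ℕ).Nodup ∧ ({0} + {1} + {2} + M : Multiset ℕ).card ≤ 9 ∧
      k ≠ 0 ∧ L ∈ P F M ∧ G ∈ P F ({0} + M) ∧ H ∈ P F ({1} + M) ∧
      (∀ φ : FA F →ₙₐ[F] Oc F, φ G = (k * tt (φ (of F 0))) • φ L) ∧
      (∀ φ : FA F →ₙₐ[F] Oc F, φ H = (k * tt (φ (of F 1))) • φ L) ∧
      s 0 = u ∧ s 1 = v ∧ s 2 = w ∧ QTop_mu s M = m ∧ QTop_th F s L = f := by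
  have h6 : (6 : F) ≠ 0 := by
    have : (6 : F) = 2 * 3 := by norm_num
    rw [this]
    exact mul_ne_zero h2 h3
  cases hf with
  | f1 a b c =>
    refine ⟨QTop_s u v w a b c c c, {3} + {4} + {5}, 1, F1 (of F 3) (of F 4) (of F 5),
      G1 (of F 0) (of F 3) (of F 4) (of F 5), G1 (of F 1) (of F 3) (of F 4) (of F 5),
      by decide, by decide, one_ne_zero, QTop_F1_mem (Ids_of 3) (Ids_of 4) (Ids_of 5) rfl,
      QTop_G1_mem (Ids_of 0) (Ids_of 3) (Ids_of 4) (Ids_of 5) (by abel),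
      QTop_G1_mem (Ids_of 1) (Ids_of 3) (Ids_of 4) (Ids_of 5) (by abel), ?_, ?_, rfl, rfl, rfl,
      ?_, ?_⟩
    · intro φ
      rw [QTop_G1, QTop_F1, g1_oc, one_mul]
    · intro φ
      rw [QTop_G1, QTop_F1, g1_oc, one_mul]
    · simp only [QTop_mu_add, QTop_mu_one, QTop_s]
    · rw [QTop_F1]
      simp only [QTop_th_of, QTop_s]
  | f2 r a b c =>
    refine ⟨QTop_s u v w a b c c r, {7} + ({3} + {4} + {5}), 1,
      F2 (of F 7) (of F 3) (of F 4) (of F 5),
      G2 (of F 0) (of F 7) (of F 3) (of F 4) (of F 5),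
      G2 (of F 1) (of F 7) (of F 3) (of F 4) (of F 5),
      by decide, by decide, one_ne_zero,
      PP_mul id (Ids_of 7) (QTop_F1_mem (Ids_of 3) (Ids_of 4) (Ids_of 5) rfl),
      Ids_cast (PP_mul id (Ids_of 7) (QTop_G1_mem (Ids_of 0) (Ids_of 3) (Ids_of 4) (Ids_of 5) rfl))
        (by abel),
      Ids_cast (PP_mul id (Ids_of 7) (QTop_G1_mem (Ids_of 1) (Ids_of 3) (Ids_of 4) (Ids_of 5) rfl))
        (by abel), ?_, ?_, rfl, rfl, rfl, ?_, ?_⟩
    · intro φ
      rw [QTop_G2, QTop_F2, g2_oc, one_mul]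
    · intro φ
      rw [QTop_G2, QTop_F2, g2_oc, one_mul]
    · simp only [QTop_mu_add, QTop_mu_one, QTop_s]
      abel
    · rw [QTop_F2]
      simp only [QTop_th_of, QTop_s]
  | f3 a b c d =>
    refine ⟨QTop_s u v w a b c d d, {3} + {4} + {5} + {6}, 6,
      F3 (of F 3) (of F 4) (of F 5) (of F 6),
      G3 (of F 0) (of F 3) (of F 4) (of F 5) (of F 6),
      G3 (of F 1) (of F 3) (of F 4) (of F 5) (of F 6),
      by decide, by decide, h6,
      QTop_F3_mem (Ids_of 3) (Ids_of 4) (Ids_of 5) (Ids_of 6) rfl,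
      QTop_G3_mem (Ids_of 0) (Ids_of 3) (Ids_of 4) (Ids_of 5) (Ids_of 6) (by abel),
      QTop_G3_mem (Ids_of 1) (Ids_of 3) (Ids_of 4) (Ids_of 5) (Ids_of 6) (by abel),
      ?_, ?_, rfl, rfl, rfl, ?_, ?_⟩
    · intro φ
      rw [QTop_G3, Ids_F3, g3_oc]
    · intro φ
      rw [QTop_G3, Ids_F3, g3_oc]
    · simp only [QTop_mu_add, QTop_mu_one, QTop_s]
    · rw [Ids_F3]
      simp only [QTop_th_of, QTop_s]
  | f4 r a b c d =>
    refine ⟨QTop_s u v w a b c d r, {7} + ({3} + {4} + {5} + {6}), 6,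
      F4 (of F 7) (of F 3) (of F 4) (of F 5) (of F 6),
      G4 (of F 0) (of F 7) (of F 3) (of F 4) (of F 5) (of F 6),
      G4 (of F 1) (of F 7) (of F 3) (of F 4) (of F 5) (of F 6),
      by decide, by decide, h6,
      PP_mul id (Ids_of 7) (QTop_F3_mem (Ids_of 3) (Ids_of 4) (Ids_of 5) (Ids_of 6) rfl),
      Ids_cast (PP_mul id (Ids_of 7) (QTop_G3_mem (Ids_of 0) (Ids_of 3) (Ids_of 4) (Ids_of 5)
        (Ids_of 6) rfl)) (by abel),
      Ids_cast (PP_mul id (Ids_of 7) (QTop_G3_mem (Ids_of 1) (Ids_of 3) (Ids_of 4) (Ids_of 5)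
        (Ids_of 6) rfl)) (by abel), ?_, ?_, rfl, rfl, rfl, ?_, ?_⟩
    · intro φ
      rw [QTop_G4, QTop_F4, g4_oc]
    · intro φ
      rw [QTop_G4, QTop_F4, g4_oc]
    · simp only [QTop_mu_add, QTop_mu_one, QTop_s]
      abel
    · rw [QTop_F4]
      simp only [QTop_th_of, QTop_s]

theorem QTop_lin {m : Multiset ℕ} {A B : Fn F →ₗ[F] R}
    (hAB : ∀ f, IsForm F m f → A (ev F f) = B (ev F f)) {l : Fn F} (hl : l ∈ LF F m) :
    A l = B l := by
  obtain ⟨p, hp, rfl⟩ := hl
  have hp' : p ∈ Submodule.span F {f | IsForm F m f} := hp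
  show A (ev F p) = B (ev F p)
  induction hp' using Submodule.span_induction with
  | mem f hf => exact hAB f hf
  | zero => rw [map_zero, map_zero, map_zero]
  | add x y hx hy h1 h2 => rw [map_add, map_add, map_add, h1 hx, h2 hy]
  | smul c x hx h1 => rw [map_smul, map_smul, map_smul, h1 hx]

/-- `x u m` for words: `v (t_x m)` etc. The identity behind (Q1), (H2): for words `u, v, w` and a form
`l`, `w (u (t_v l)) + w (v (t_u l)) - w ((u ∘ v) l) = u (w (t_v l)) + v (w (t_u l)) - (u ∘ v) (w l)`, in the top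
degree (`lets u + lets v + lets w + m = V`). By linearity `l = ev (form)`; all factors are real values
of polynomials; both sides are `π` of the value at words of a polynomial in at most 8 variables, which
is an identity of the octonions (`h.sat`). -/
theorem q_left (h : Ctx π V) (hβ : IsBeta π V β) (u v w : FreeMagma ℕ) {m : Multiset ℕ}
    (e : lets id u + lets id v + lets id w + m = V) {l : Fn F} (hl : l ∈ LF F m) :
    π (mo F u) * β (lets id v + lets id w + m) (ev F (mo F w) * (trf (ev F (mo F v)) * l))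
      + π (mo F v) * β (lets id u + lets id w + m) (ev F (mo F w) * (trf (ev F (mo F u)) * l))
      - π (jor (mo F u) (mo F v)) * β (lets id w + m) (ev F (mo F w) * l) =
    π (mo F w) * β (lets id u + lets id v + m)
      (ev F (mo F u) * (trf (ev F (mo F v)) * l) + ev F (mo F v) * (trf (ev F (mo F u)) * l)
        - jor (ev F (mo F u)) (ev F (mo F v)) * l) := by
  refine QTop_lin (m := m)
    (A := LinearMap.mulLeft F (π (mo F u)) ∘ₗ β (lets id v + lets id w + m) ∘ₗ
        LinearMap.mulLeft F (ev F (mo F w)) ∘ₗ LinearMap.mulLeft F (trf (ev F (mo F v)))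
      + LinearMap.mulLeft F (π (mo F v)) ∘ₗ β (lets id u + lets id w + m) ∘ₗ
        LinearMap.mulLeft F (ev F (mo F w)) ∘ₗ LinearMap.mulLeft F (trf (ev F (mo F u)))
      - LinearMap.mulLeft F (π (jor (mo F u) (mo F v))) ∘ₗ β (lets id w + m) ∘ₗ
        LinearMap.mulLeft F (ev F (mo F w)))
    (B := LinearMap.mulLeft F (π (mo F w)) ∘ₗ β (lets id u + lets id v + m) ∘ₗ
      (LinearMap.mulLeft F (ev F (mo F u)) ∘ₗ LinearMap.mulLeft F (trf (ev F (mo F v)))
        + LinearMap.mulLeft F (ev F (mo F v)) ∘ₗ LinearMap.mulLeft F (trf (ev F (mo F u)))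
        - LinearMap.mulLeft F (jor (ev F (mo F u)) (ev F (mo F v))))) ?_ hl
  intro f hf
  obtain ⟨s, M, k, L, G, H, hN, hc, hk, hL, hG, hH, eG, eH, e0, e1, e2, em, eL⟩ :=
    QTop_form h.two h.three hf u v w
  exact QTop_left h hβ s hN hc hk hL hG hH eG eH e0 e1 e2 em e (by rw [eL])

theorem q_right (h : Ctx π V) (hβ : IsBeta π V β) (u v w : FreeMagma ℕ) {m : Multiset ℕ}
    (e : lets id u + lets id v + lets id w + m = V) {l : Fn F} (hl : l ∈ LF F m) :
    π (mo F u) * β (lets id v + lets id w + m) ((trf (ev F (mo F v)) * l) * ev F (mo F w))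
      + π (mo F v) * β (lets id u + lets id w + m) ((trf (ev F (mo F u)) * l) * ev F (mo F w))
      - π (jor (mo F u) (mo F v)) * β (lets id w + m) (l * ev F (mo F w)) =
    β (lets id u + lets id v + m)
      (ev F (mo F u) * (trf (ev F (mo F v)) * l) + ev F (mo F v) * (trf (ev F (mo F u)) * l)
        - jor (ev F (mo F u)) (ev F (mo F v)) * l) * π (mo F w) := by
  refine QTop_lin (m := m)
    (A := LinearMap.mulLeft F (π (mo F u)) ∘ₗ β (lets id v + lets id w + m) ∘ₗ
        LinearMap.mulRight F (ev F (mo F w)) ∘ₗ LinearMap.mulLeft F (trf (ev F (mo F v)))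
      + LinearMap.mulLeft F (π (mo F v)) ∘ₗ β (lets id u + lets id w + m) ∘ₗ
        LinearMap.mulRight F (ev F (mo F w)) ∘ₗ LinearMap.mulLeft F (trf (ev F (mo F u)))
      - LinearMap.mulLeft F (π (jor (mo F u) (mo F v))) ∘ₗ β (lets id w + m) ∘ₗ
        LinearMap.mulRight F (ev F (mo F w)))
    (B := LinearMap.mulRight F (π (mo F w)) ∘ₗ β (lets id u + lets id v + m) ∘ₗ
      (LinearMap.mulLeft F (ev F (mo F u)) ∘ₗ LinearMap.mulLeft F (trf (ev F (mo F v)))
        + LinearMap.mulLeft F (ev F (mo F v)) ∘ₗ LinearMap.mulLeft F (trf (ev F (mo F u)))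
        - LinearMap.mulLeft F (jor (ev F (mo F u)) (ev F (mo F v))))) ?_ hl
  intro f hf
  obtain ⟨s, M, k, L, G, H, hN, hc, hk, hL, hG, hH, eG, eH, e0, e1, e2, em, eL⟩ :=
    QTop_form h.two h.three hf u v w
  exact QTop_right h hβ s hN hc hk hL hG hH eG eH e0 e1 e2 em e (by rw [eL])

theorem q_comm (h : Ctx π V) (hβ : IsBeta π V β) (u v : FreeMagma ℕ) {m : Multiset ℕ}
    (e : lets id u + lets id v + m = V) {l : Fn F} (hl : l ∈ LF F m) :
    π (mo F u) * β (lets id v + m) (trf (ev F (mo F v)) * l)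
      + π (mo F v) * β (lets id u + m) (trf (ev F (mo F u)) * l)
      - π (jor (mo F u) (mo F v)) * β m l =
    β (lets id v + m) (trf (ev F (mo F v)) * l) * π (mo F u)
      + β (lets id u + m) (trf (ev F (mo F u)) * l) * π (mo F v)
      - β m l * π (jor (mo F u) (mo F v)) := by
  refine QTop_lin (m := m)
    (A := LinearMap.mulLeft F (π (mo F u)) ∘ₗ β (lets id v + m) ∘ₗ
        LinearMap.mulLeft F (trf (ev F (mo F v)))
      + LinearMap.mulLeft F (π (mo F v)) ∘ₗ β (lets id u + m) ∘ₗ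
        LinearMap.mulLeft F (trf (ev F (mo F u)))
      - LinearMap.mulLeft F (π (jor (mo F u) (mo F v))) ∘ₗ β m)
    (B := LinearMap.mulRight F (π (mo F u)) ∘ₗ β (lets id v + m) ∘ₗ
        LinearMap.mulLeft F (trf (ev F (mo F v)))
      + LinearMap.mulRight F (π (mo F v)) ∘ₗ β (lets id u + m) ∘ₗ
        LinearMap.mulLeft F (trf (ev F (mo F u)))
      - LinearMap.mulRight F (π (jor (mo F u) (mo F v))) ∘ₗ β m) ?_ hl
  intro f hf
  obtain ⟨s, M, k, L, G, H, hN, hc, hk, hL, hG, hH, eG, eH, e0, e1, e2, em, eL⟩ :=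
    QTop_form h.two h.three hf u v u
  exact QTop_comm h hβ s (Multiset.nodup_of_le (add_le_add_left (Multiset.le_add_right _ _) _) hN)
    (le_trans (Multiset.card_le_card (add_le_add_left (Multiset.le_add_right _ _) _)) hc) hk hL hG
    hH eG eH e0 e1 em e (by rw [eL])

end Pool.Agent.OB
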