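import Pool.Agent.OB.Gen

/-!
# Real values of forms and of trace polynomials  (module Real)

`Fn F` = functions `(ℕ → O) → O`. `sb g f` is the substitution of the functions `g i` in `f`.
`tX x = t(x_x)`, as a scalar function. `LF F m = LR (ev F) m` (definitionally the same), so the
theorems of LR and Gen apply with `ρ = ev F`, `sat_Fn`.
-/

set_option autoImplicit false
set_option linter.unusedSectionVars false

namespace Pool.Agent.OB

open FreeNonUnitalNonAssocAlgebra Pool.Agent.H.MP_41922c_al Pool.Agent.Smt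

variable {F : Type*} [Field F]

/-- substitution of functions for the variables -/
def sb (g : ℕ → Fn F) : Fn F →ₙₐ[F] Fn F where
  toFun f := fun v => f (fun i => g i v)
  map_smul' _ _ := rfl
  map_zero' := rfl
  map_add' _ _ := rfl
  map_mul' _ _ := rfl

theorem sb_apply (g : ℕ → Fn F) (f : Fn F) (v : ℕ → Oc F) : sb g f v = f (fun i => g i v) := rfl

/-- the trace of the variable `x` -/
def tX (F : Type*) [Field F] (x : ℕ) : Fn F := XX F x + star (XX F x)

/-- the trace of a function -/
def trf (a : Fn F) : Fn F := a + star a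

/-- scalar functions -/
def IsSc (a : Fn F) : Prop := ∃ s : (ℕ → Oc F) → F, ∀ v, a v = s v • (1 : Oc F)

/-- `g` is the identity except that the variable `x` is replaced by `a` -/
noncomputable def up (F : Type*) [Field F] (x : ℕ) (a : Fn F) : ℕ → Fn F :=
  Function.update (XX F) x a

theorem ev_of (i : ℕ) : ev F (of F i) = XX F i := by
  exact lift_of_apply _ _ _

theorem ev_lift (θ : ℕ → FA F) (p : FA F) :
    ev F (lift F θ p) = sb (fun i => ev F (θ i)) (ev F p) := by
  have h : (ev F).comp (lift F θ) = (sb (fun i => ev F (θ i))).comp (ev F) := by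
    refine hom_ext F ?_
    intro i
    show ev F (lift F θ (of F i)) = sb (fun i => ev F (θ i)) (ev F (of F i))
    rw [lift_of_apply, ev_of]
    rfl
  exact DFunLike.congr_fun h p

theorem LF_eq (m : Multiset ℕ) : LF F m = LR (ev F) m := rfl

theorem isSc_trf (a : Fn F) : IsSc (trf a) := ⟨fun v => tt (a v), fun v => add_star (a v)⟩

theorem isSc_tX (x : ℕ) : IsSc (tX F x) := isSc_trf (XX F x)

theorem IsSc.comm {a : Fn F} (h : IsSc a) (b : Fn F) : a * b = b * a := by
  obtain ⟨s, hs⟩ := h
  funext v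
  rw [Pi.mul_apply, Pi.mul_apply, hs, smul_mul_assoc, mul_smul_comm, one_mul, mul_one]

theorem IsSc.assoc {a : Fn F} (h : IsSc a) (b c : Fn F) :
    (a * b) * c = a * (b * c) ∧ (b * a) * c = b * (a * c) ∧ (b * c) * a = b * (c * a) := by
  obtain ⟨s, hs⟩ := h
  refine ⟨?_, ?_, ?_⟩ <;> funext v <;>
    simp only [Pi.mul_apply, hs, smul_mul_assoc, mul_smul_comm, one_mul, mul_one]

theorem IsSc.mul {a b : Fn F} (h : IsSc a) (h' : IsSc b) : IsSc (a * b) := by
  obtain ⟨s, hs⟩ := h
  obtain ⟨t, ht⟩ := h'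
  refine ⟨fun v => s v * t v, fun v => ?_⟩
  rw [Pi.mul_apply, hs, ht, smul_mul_assoc, one_mul, smul_smul]

theorem IsSc.star_eq {a : Fn F} (h : IsSc a) : star a = a := by
  obtain ⟨s, hs⟩ := h
  funext v
  rw [Pi.star_apply, hs, star_smul_oc, star_one]

theorem isSc_mul_star (a b : Fn F) : IsSc (a * star b + b * star a) :=
  ⟨fun v => tt (a v * star (b v)), fun v => mul_star (a v) (b v)⟩

theorem Real_isSc_neg {a : Fn F} (h : IsSc a) : IsSc (-a) := by
  obtain ⟨s, hs⟩ := h
  refine ⟨fun v => -s v, fun v => ?_⟩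
  rw [Pi.neg_apply, hs, neg_smul]

/-! ### trace polynomials -/

theorem Real_AF_mo (w : FreeMagma (ℕ ⊕ ℕ)) : evt F (mo F w) ∈ AF F (lets ix w) :=
  ⟨mo F w, mo_mem ix w, rfl⟩

/-- induction over the words for `AF` -/
theorem Real_AF_ind {m : Multiset ℕ} {p : Fn F → Prop} (h0 : p 0)
    (ha : ∀ f g, p f → p g → p (f + g)) (hs : ∀ (k : F) f, p f → p (k • f))
    (hw : ∀ w : FreeMagma (ℕ ⊕ ℕ), lets ix w = m → p (evt F (mo F w))) {f : Fn F}
    (hf : f ∈ AF F m) : p f := by
  obtain ⟨g, hg, rfl⟩ := hf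
  refine PP_induction ix (p := fun g => p (evt F g)) ?_ ?_ ?_ hw hg
  · rw [map_zero]; exact h0
  · intro f g hf hg
    rw [map_add]; exact ha _ _ hf hg
  · intro k f hf
    rw [map_smul]; exact hs _ _ hf

theorem Real_evt_inl (i : ℕ) : evt F (mo F (FreeMagma.of (Sum.inl i))) = XX F i :=
  lift_of_apply _ _ _

theorem Real_evt_inr (i : ℕ) : evt F (mo F (FreeMagma.of (Sum.inr i))) = tX F i :=
  lift_of_apply _ _ _

theorem Real_evt_mul (u v : FreeMagma (ℕ ⊕ ℕ)) :
    evt F (mo F (u * v)) = evt F (mo F u) * evt F (mo F v) := map_mul (evt F) (mo F u) (mo F v)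

theorem AF_mul {m m' : Multiset ℕ} {a b : Fn F} (ha : a ∈ AF F m) (hb : b ∈ AF F m') :
    a * b ∈ AF F (m + m') := by
  obtain ⟨f, hf, rfl⟩ := ha
  obtain ⟨g, hg, rfl⟩ := hb
  exact ⟨f * g, PP_mul ix hf hg, map_mul (evt F) f g⟩

theorem UU_mul {m m' : Multiset ℕ} {a b : Fn F} (ha : a ∈ UU F m) (hb : b ∈ UU F m') :
    a * b ∈ UU F (m + m') := by
  obtain ⟨f, hf, rfl⟩ := ha
  obtain ⟨g, hg, rfl⟩ := hb
  exact ⟨f * g, PP_mul id hf hg, map_mul (ev F) f g⟩

theorem XX_mem_UU (x : ℕ) : XX F x ∈ UU F {x} :=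
  ⟨of F x, of_mem id x, ev_of x⟩

theorem Real_XX_mem_AF (x : ℕ) : XX F x ∈ AF F {x} := by
  rw [← Real_evt_inl x]
  exact Real_AF_mo (FreeMagma.of (Sum.inl x))

theorem tX_mem_AF (x : ℕ) : tX F x ∈ AF F {x} := by
  rw [← Real_evt_inr x]
  exact Real_AF_mo (FreeMagma.of (Sum.inr x))

theorem UU_le_AF (m : Multiset ℕ) : UU F m ≤ AF F m := by
  rintro _ ⟨f, hf, rfl⟩
  refine PP_induction id (p := fun f => ev F f ∈ AF F m) ?_ ?_ ?_ ?_ hf
  · rw [map_zero]; exact Submodule.zero_mem _
  · intro f g hf hg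
    rw [map_add]; exact Submodule.add_mem _ hf hg
  · intro k f hf
    rw [map_smul]; exact Submodule.smul_mem _ _ hf
  · rintro w rfl
    clear hf f
    induction w with
    | ih1 a =>
      have h : ev F (mo F (FreeMagma.of a)) = XX F a := ev_of a
      rw [h]
      exact Real_XX_mem_AF a
    | ih2 u v hu hv =>
      have h : ev F (mo F (u * v)) = ev F (mo F u) * ev F (mo F v) :=
        map_mul (ev F) (mo F u) (mo F v)
      rw [h]
      exact AF_mul hu hv

theorem AF_star {m : Multiset ℕ} {a : Fn F} (ha : a ∈ AF F m) : star a ∈ AF F m := by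
  refine Real_AF_ind (p := fun a => star a ∈ AF F m) ?_ ?_ ?_ ?_ ha
  · rw [star_zero]; exact Submodule.zero_mem _
  · intro f g hf hg
    rw [star_add]; exact Submodule.add_mem _ hf hg
  · intro k f hf
    have h : star (k • f) = k • star f := by
      funext v
      exact star_smul_oc k (f v)
    rw [h]; exact Submodule.smul_mem _ _ hf
  · rintro w rfl
    clear ha a
    induction w with
    | ih1 a =>
      rcases a with i | i
      · rw [Real_evt_inl]
        have h : star (XX F i) = tX F i - XX F i := by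
          rw [tX, add_sub_cancel_left]
        rw [h]
        exact Submodule.sub_mem _ (tX_mem_AF i) (Real_XX_mem_AF i)
      · rw [Real_evt_inr, (isSc_tX i).star_eq]
        exact tX_mem_AF i
    | ih2 u v hu hv =>
      rw [Real_evt_mul, star_mul]
      have h : lets ix (u * v) = lets ix v + lets ix u := add_comm _ _
      rw [h]
      exact AF_mul hv hu

/-! ### substitutions -/

theorem Real_sb_XX (g : ℕ → Fn F) (i : ℕ) : sb g (XX F i) = g i := rfl

theorem Real_sb_tX (g : ℕ → Fn F) (i : ℕ) : sb g (tX F i) = g i + star (g i) := rfl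

theorem Real_sb_id (f : Fn F) : sb (XX F) f = f := rfl

/-- functions in `AF m` do not depend on the variables outside `m` -/
theorem sb_congr {m : Multiset ℕ} {f : Fn F} (hf : f ∈ AF F m) {g g' : ℕ → Fn F}
    (h : ∀ i ∈ m, g i = g' i) : sb g f = sb g' f := by
  refine Real_AF_ind (p := fun f => sb g f = sb g' f) ?_ ?_ ?_ ?_ hf
  · rw [map_zero, map_zero]
  · intro f f' hf hf'
    rw [map_add, map_add, hf, hf']
  · intro k f hf
    rw [map_smul, map_smul, hf]
  · rintro w rfl
    clear hf f
    induction w with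
    | ih1 a =>
      rcases a with i | i
      · rw [Real_evt_inl, Real_sb_XX, Real_sb_XX]
        exact h i (Multiset.mem_singleton_self i)
      · rw [Real_evt_inr, Real_sb_tX, Real_sb_tX, h i (Multiset.mem_singleton_self i)]
    | ih2 u v hu hv =>
      rw [Real_evt_mul, map_mul, map_mul, hu (fun i hi => h i (Multiset.mem_add.2 (Or.inl hi))),
        hv (fun i hi => h i (Multiset.mem_add.2 (Or.inr hi)))]

/-- a word does not depend on the variables outside of it -/
theorem Real_up_ne {w : FreeMagma (ℕ ⊕ ℕ)} {x : ℕ} (h : x ∉ lets ix w) (a : Fn F) :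
    sb (up F x a) (evt F (mo F w)) = evt F (mo F w) := by
  have h1 : sb (up F x a) (evt F (mo F w)) = sb (XX F) (evt F (mo F w)) := by
    refine sb_congr (Real_AF_mo w) fun i hi => ?_
    have hne : i ≠ x := by
      rintro rfl
      exact h hi
    unfold up
    rw [Function.update_of_ne hne]
  rw [h1, Real_sb_id]

theorem Real_up_self (x : ℕ) (a : Fn F) : up F x a x = a := by
  unfold up
  rw [Function.update_self]

/-- in a word without repetitions the variable `x` occurs in exactly one factor -/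
theorem Real_cases {u v : FreeMagma (ℕ ⊕ ℕ)} {x : ℕ} (hm : (lets ix (u * v)).Nodup)
    (hx : x ∈ lets ix (u * v)) : ((lets ix u).Nodup ∧ x ∈ lets ix u ∧ x ∉ lets ix v) ∨
      ((lets ix v).Nodup ∧ x ∈ lets ix v ∧ x ∉ lets ix u) := by
  have h1 : lets ix (u * v) = lets ix u + lets ix v := rfl
  rw [h1] at hm hx
  obtain ⟨h2, h3, h4⟩ := Multiset.nodup_add.1 hm
  rcases Multiset.mem_add.1 hx with h | h
  · exact Or.inl ⟨h2, h, Multiset.disjoint_left.1 h4 h⟩
  · exact Or.inr ⟨h3, h, Multiset.disjoint_right.1 h4 h⟩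

theorem sb_up_add {m : Multiset ℕ} (hm : m.Nodup) {x : ℕ} (hx : x ∈ m) {f : Fn F}
    (hf : f ∈ AF F m) (a b : Fn F) :
    sb (up F x (a + b)) f = sb (up F x a) f + sb (up F x b) f := by
  refine Real_AF_ind (p := fun f => sb (up F x (a + b)) f = sb (up F x a) f + sb (up F x b) f)
    ?_ ?_ ?_ ?_ hf
  · simp only [map_zero, add_zero]
  · intro f f' hf hf'
    simp only [map_add, hf, hf']
    abel
  · intro k f hf
    simp only [map_smul, hf, smul_add]
  · rintro w rfl
    clear hf f
    induction w with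
    | ih1 c =>
      rcases c with i | i
      · have h : x = i := Multiset.mem_singleton.1 hx
        subst h
        rw [Real_evt_inl, Real_sb_XX, Real_sb_XX, Real_sb_XX, Real_up_self, Real_up_self,
          Real_up_self]
      · have h : x = i := Multiset.mem_singleton.1 hx
        subst h
        rw [Real_evt_inr, Real_sb_tX, Real_sb_tX, Real_sb_tX, Real_up_self, Real_up_self,
          Real_up_self, star_add]
        abel
    | ih2 u v hu hv =>
      rw [Real_evt_mul, map_mul, map_mul, map_mul]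
      rcases Real_cases hm hx with ⟨h1, h2, h3⟩ | ⟨h1, h2, h3⟩
      · rw [Real_up_ne h3, Real_up_ne h3, Real_up_ne h3, hu h1 h2, add_mul]
      · rw [Real_up_ne h3, Real_up_ne h3, Real_up_ne h3, hv h1 h2, mul_add]

theorem sb_up_sc {m : Multiset ℕ} (hm : m.Nodup) {x : ℕ} (hx : x ∈ m) {f : Fn F}
    (hf : f ∈ AF F m) {z : Fn F} (hz : IsSc z) (a : Fn F) :
    sb (up F x (z * a)) f = z * sb (up F x a) f := by
  refine Real_AF_ind (p := fun f => sb (up F x (z * a)) f = z * sb (up F x a) f)
    ?_ ?_ ?_ ?_ hf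
  · simp only [map_zero, mul_zero]
  · intro f f' hf hf'
    simp only [map_add, hf, hf', mul_add]
  · intro k f hf
    simp only [map_smul, hf, mul_smul_comm]
  · rintro w rfl
    clear hf f
    induction w with
    | ih1 c =>
      rcases c with i | i
      · have h : x = i := Multiset.mem_singleton.1 hx
        subst h
        rw [Real_evt_inl, Real_sb_XX, Real_sb_XX, Real_up_self, Real_up_self]
      · have h : x = i := Multiset.mem_singleton.1 hx
        subst h
        rw [Real_evt_inr, Real_sb_tX, Real_sb_tX, Real_up_self, Real_up_self, star_mul,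
          hz.star_eq, mul_add, hz.comm (star a)]
    | ih2 u v hu hv =>
      rw [Real_evt_mul, map_mul, map_mul]
      rcases Real_cases hm hx with ⟨h1, h2, h3⟩ | ⟨h1, h2, h3⟩
      · rw [Real_up_ne h3, Real_up_ne h3, hu h1 h2, (hz.assoc _ _).1]
      · rw [Real_up_ne h3, Real_up_ne h3, hv h1 h2, ← (hz.assoc _ _).2.1, ← hz.comm,
          (hz.assoc _ _).1]

/-- `f(x_k → x ∘ x_k) = t(x) f + t(x_k) f(x_k → x) - <x, x_k> f(x_k → 1)` -/
theorem sb_up_jor {m : Multiset ℕ} (hm : m.Nodup) {k : ℕ} (hk : k ∈ m) {f : Fn F}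
    (hf : f ∈ AF F m) (x : ℕ) :
    sb (up F k (jor (XX F x) (XX F k))) f =
      tX F x * f + tX F k * sb (up F k (XX F x)) f
        - (XX F x * star (XX F k) + XX F k * star (XX F x)) * sb (up F k 1) f := by
  have h1 : jor (XX F x) (XX F k) = tX F x * XX F k + tX F k * XX F x +
      (-(XX F x * star (XX F k) + XX F k * star (XX F x))) * 1 := by
    funext v
    have e1 : tX F x v = tt (v x) • (1 : Oc F) := add_star (v x)
    have e2 : tX F k v = tt (v k) • (1 : Oc F) := add_star (v k)
    have e3 : (XX F x * star (XX F k) + XX F k * star (XX F x)) v =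
        tt (v x * star (v k)) • (1 : Oc F) := mul_star (v x) (v k)
    have e4 : jor (XX F x) (XX F k) v = jor (v x) (v k) := rfl
    rw [e4, jor_oc, Pi.add_apply, Pi.add_apply, Pi.mul_apply, Pi.mul_apply, Pi.mul_apply,
      Pi.neg_apply, e1, e2, e3, Pi.one_apply, smul_mul_assoc, smul_mul_assoc, one_mul, one_mul,
      mul_one, sub_eq_add_neg]
    rfl
  have h2 : up F k (XX F k) = XX F := by
    unfold up
    rw [Function.update_eq_self]
  rw [h1, sb_up_add hm hk hf, sb_up_add hm hk hf, sb_up_sc hm hk hf (isSc_tX x),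
    sb_up_sc hm hk hf (isSc_tX k), sb_up_sc hm hk hf (Real_isSc_neg (isSc_mul_star _ _)), h2, Real_sb_id,
    neg_mul, sub_eq_add_neg]

end Pool.Agent.OB
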