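import Pool.Agent.OB.Real

/-!
# Multiplication of forms by trace polynomials, substitutions in forms  (module RealL)

`AF_mul_LF`: `AF` is spanned by the values of the words in the letters `x_i` (inl) and `t(x_i)` (inr);
induction on the word with `(a b) l = a (b l) + a (l b) - (a l) b` (alternativity; for the mirror
image `l (a b) = (l a) b + (a l) b - a (l b)`); base: `LR_mul_left` (`ρ = ev F`, `sat_Fn`) and `tX_LF`.

`tX_LF`: `t(u) F1 = G1`, `t(u) F2 = G2`, `6 t(u) F3 = G3`, `6 t(u) F4 = G4` (module Oct), and these are in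
the span of the forms: `com a (jor u w) = jor (com a u) w + jor u (com a w)` for `w = com b c`;
`u * com a w` is a form F2, `com a w * u` too (LR_mul_right), `2 (com a u) * w = com (com a u) w + jor
(com a u) w`; `jor (com a b) (jor u w)` with `w = com c d`, `v = com a b`: use that `LF` is an ideal and
`2 v w = com v w + jor v w` is in it, `v (u w) = (v u) w - (v, u, w)`, `6 (v, u, w)` is a sum of forms by
`six_oc`, `v u = u v + com v u`, `(u v) w = u (v w) + (u, v, w)`. All terms of `lam12` are forms or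
combinations of forms (`12 (a, b, c)` by `six_oc`).

`LF_star`: `star a = trf a - a`; `star (F1 ..) = - F1 ..`, `star (r F1) = - F1 * star r`, `F3` is scalar.
`LF_sub1`: words with the variable `x`: `x ↦ 1` makes the word shorter, or it becomes `1` and the form
becomes 0 (or `F2 ↦ F1`, `F4 ↦ F3` if `r = x`).
-/

set_option autoImplicit false
set_option linter.unusedSectionVars false

namespace Pool.Agent.OB

open FreeNonUnitalNonAssocAlgebra Pool.Agent.H.MP_41922c_al Pool.Agent.Smt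

variable {F : Type*} [Field F]

theorem LF_le_UU (m : Multiset ℕ) : LF F m ≤ UU F m := by
  exact Submodule.map_mono (LP_le m)

/-! ### elements of the ideal of the forms -/

section gen

variable {R : Type*} [NonUnitalNonAssocRing R] [Module F R]
  [IsScalarTower F R R] [SMulCommClass F R R] {ρ : FA F →ₙₐ[F] R}
  (h2 : (2 : F) ≠ 0) (h3 : (3 : F) ≠ 0) (hR : Sat F 9 R)

include h2 h3 hR

theorem RealL_L {m m' n : Multiset ℕ} {a l : R} (ha : a ∈ PR ρ m) (hl : l ∈ LR ρ m')
    (h : m + m' = n) : a * l ∈ LR ρ n := by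
  subst h
  obtain ⟨a, ha, rfl⟩ := ha
  exact LR_mul_left ρ h2 h3 hR ha hl

theorem RealL_R {m m' n : Multiset ℕ} {a l : R} (ha : a ∈ PR ρ m) (hl : l ∈ LR ρ m')
    (h : m + m' = n) : l * a ∈ LR ρ n := by
  subst h
  obtain ⟨a, ha, rfl⟩ := ha
  exact LR_mul_right ρ h2 h3 hR ha hl

theorem RealL_as {m₁ m₂ m₃ n : Multiset ℕ} {a b c : R} (ha : a ∈ PR ρ m₁) (hb : b ∈ PR ρ m₂)
    (hc : c ∈ PR ρ m₃) (h : m₁ + m₂ + m₃ = n) : associator a b c ∈ LR ρ n := by
  refine Gen_div (Gen_six h2 h3) ?_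
  rw [six_R hR a b c, Gen_neg (com a b) c, Gen_neg (com b c) a, Gen_neg (com c a) b]
  exact add_mem (add_mem
    (neg_mem (Gen_1 hc ha hb (by rw [← h]; abel)))
    (neg_mem (Gen_1 ha hb hc h)))
    (neg_mem (Gen_1 hb hc ha (by rw [← h]; abel)))

theorem RealL_vw {m₁ m₂ m₃ m₄ n : Multiset ℕ} {a b c d : R} (ha : a ∈ PR ρ m₁)
    (hb : b ∈ PR ρ m₂) (hc : c ∈ PR ρ m₃) (hd : d ∈ PR ρ m₄) (h : m₁ + m₂ + m₃ + m₄ = n) :
    com a b * com c d ∈ LR ρ n := by
  refine Gen_div (n := 2) (by exact_mod_cast h2) ?_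
  have h5 : 2 • (com a b * com c d) = com (com a b) (com c d) + jor (com a b) (com c d) := by
    simp only [com, jor]; abel
  rw [h5]
  exact add_mem (Gen_1 (Gen_C ha hb rfl) hc hd h) (Gen_3 ha hb hc hd h)

theorem RealL_vuw {m₀ m₁ m₂ m₃ m₄ n : Multiset ℕ} {u a b c d : R} (hu : u ∈ PR ρ m₀)
    (ha : a ∈ PR ρ m₁) (hb : b ∈ PR ρ m₂) (hc : c ∈ PR ρ m₃) (hd : d ∈ PR ρ m₄)
    (h : m₀ + m₁ + m₂ + m₃ + m₄ = n) : com a b * (u * com c d) ∈ LR ρ n := by
  have h5 : ∀ v w : R, v * (u * w) =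
      u * (v * w) + associator u v w + com v u * w - associator v u w := by
    intro v w
    simp only [com, associator_apply, sub_mul]; abel
  rw [h5]
  refine sub_mem (add_mem (add_mem ?_ ?_) ?_) ?_
  · exact RealL_L h2 h3 hR hu (RealL_vw h2 h3 hR ha hb hc hd rfl) (by rw [← h]; abel)
  · exact RealL_as h2 h3 hR hu (Gen_C ha hb rfl) (Gen_C hc hd rfl) (by rw [← h]; abel)
  · exact RealL_vw h2 h3 hR (Gen_C ha hb rfl) hu hc hd (by rw [← h]; abel)
  · exact RealL_as h2 h3 hR (Gen_C ha hb rfl) hu (Gen_C hc hd rfl) (by rw [← h]; abel)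

theorem RealL_jj {m₀ m₁ m₂ m₃ m₄ n : Multiset ℕ} {u a b c d : R} (hu : u ∈ PR ρ m₀)
    (ha : a ∈ PR ρ m₁) (hb : b ∈ PR ρ m₂) (hc : c ∈ PR ρ m₃) (hd : d ∈ PR ρ m₄)
    (h : m₀ + m₁ + m₂ + m₃ + m₄ = n) : jor (com a b) (jor u (com c d)) ∈ LR ρ n := by
  have h5 : ∀ v w : R, jor v (jor u w) =
      v * (u * w) + ((v * w) * u - associator v w u) + (u * (w * v) + associator u w v)
        + (w * (u * v) + associator w u v) := by
    intro v w
    simp only [jor, associator_apply, mul_add, add_mul]; abel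
  rw [h5]
  refine add_mem (add_mem (add_mem ?_ (sub_mem ?_ ?_)) (add_mem ?_ ?_)) (add_mem ?_ ?_)
  · exact RealL_vuw h2 h3 hR hu ha hb hc hd h
  · exact RealL_R h2 h3 hR hu (RealL_vw h2 h3 hR ha hb hc hd rfl) (by rw [← h]; abel)
  · exact RealL_as h2 h3 hR (Gen_C ha hb rfl) (Gen_C hc hd rfl) hu (by rw [← h]; abel)
  · exact RealL_L h2 h3 hR hu (RealL_vw h2 h3 hR hc hd ha hb rfl) (by rw [← h]; abel)
  · exact RealL_as h2 h3 hR hu (Gen_C hc hd rfl) (Gen_C ha hb rfl) (by rw [← h]; abel)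
  · exact RealL_vuw h2 h3 hR hu hc hd ha hb (by rw [← h]; abel)
  · exact RealL_as h2 h3 hR (Gen_C hc hd rfl) hu (Gen_C ha hb rfl) (by rw [← h]; abel)

theorem RealL_xa {m₁ m₂ m₃ m₄ n : Multiset ℕ} {x a b c : R} (hx : x ∈ PR ρ m₁)
    (ha : a ∈ PR ρ m₂) (hb : b ∈ PR ρ m₃) (hc : c ∈ PR ρ m₄)
    (h : m₁ + m₂ + m₃ + m₄ = n) : com x (associator a b c) ∈ LR ρ n := by
  refine Gen_div (Gen_six h2 h3) ?_
  rw [← Gen_cs, six_R hR a b c, Gen_ca, Gen_ca]
  exact add_mem (add_mem
    (Gen_1 hx (Gen_C ha hb rfl) hc (by rw [← h]; abel))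
    (Gen_1 hx (Gen_C hb hc rfl) ha (by rw [← h]; abel)))
    (Gen_1 hx (Gen_C hc ha rfl) hb (by rw [← h]; abel))

theorem RealL_lam {m₁ m₂ m₃ m₄ n : Multiset ℕ} {d a b c : R} (hd : d ∈ PR ρ m₁)
    (ha : a ∈ PR ρ m₂) (hb : b ∈ PR ρ m₃) (hc : c ∈ PR ρ m₄)
    (h : m₁ + m₂ + m₃ + m₄ = n) : lam12 d a b c ∈ LR ρ n := by
  unfold lam12
  refine add_mem (sub_mem (neg_mem (nsmul_mem ?_ _)) (nsmul_mem (add_mem (add_mem ?_ ?_) ?_) _))
    (nsmul_mem (add_mem (add_mem ?_ ?_) ?_) _)
  · exact RealL_xa h2 h3 hR hd ha hb hc h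
  · exact RealL_xa h2 h3 hR ha hb hc hd (by rw [← h]; abel)
  · exact RealL_xa h2 h3 hR hb hc ha hd (by rw [← h]; abel)
  · exact RealL_xa h2 h3 hR hc ha hb hd (by rw [← h]; abel)
  · exact Gen_1 (Gen_C ha hb rfl) hc hd (by rw [← h]; abel)
  · exact Gen_1 (Gen_C hb hc rfl) ha hd (by rw [← h]; abel)
  · exact Gen_1 (Gen_C hc ha rfl) hb hd (by rw [← h]; abel)

theorem RealL_G1 {m₀ m₁ m₂ m₃ n : Multiset ℕ} {u a b c : R} (hu : u ∈ PR ρ m₀)
    (ha : a ∈ PR ρ m₁) (hb : b ∈ PR ρ m₂) (hc : c ∈ PR ρ m₃)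
    (h : m₀ + (m₁ + m₂ + m₃) = n) : G1 u a b c ∈ LR ρ n := by
  unfold G1
  rw [comJor_R hR a u (com b c)]
  exact add_mem (Gen_3 ha hu hb hc (by rw [← h]; abel))
    (Gen_jL' h2 h3 hR hu (Gen_1 ha hb hc rfl) h)

theorem RealL_G3 {m₀ m₁ m₂ m₃ m₄ n : Multiset ℕ} {u a b c d : R} (hu : u ∈ PR ρ m₀)
    (ha : a ∈ PR ρ m₁) (hb : b ∈ PR ρ m₂) (hc : c ∈ PR ρ m₃) (hd : d ∈ PR ρ m₄)
    (h : m₀ + (m₁ + m₂ + m₃ + m₄) = n) : G3 u a b c d ∈ LR ρ n := by
  unfold G3
  exact sub_mem (nsmul_mem (RealL_jj h2 h3 hR hu ha hb hc hd (by rw [← h]; abel)) 6)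
    (RealL_lam h2 h3 hR (Gen_C ha hb rfl) hu hc hd (by rw [← h]; abel))

end gen

/-! ### forms of functions -/

theorem RealL_e1 (a b c : FA F) : ev F (F1 a b c) = F1 (ev F a) (ev F b) (ev F c) := by
  simp only [F1, com, map_sub, map_mul]

theorem RealL_e2 (r a b c : FA F) : ev F (F2 r a b c) = ev F r * F1 (ev F a) (ev F b) (ev F c) := by
  simp only [F2, F1, com, map_sub, map_mul]

theorem RealL_e3 (a b c d : FA F) :
    ev F (F3 a b c d) = F3 (ev F a) (ev F b) (ev F c) (ev F d) := by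
  simp only [F3, jor, com, map_sub, map_mul, map_add]

theorem RealL_e4 (r a b c d : FA F) :
    ev F (F4 r a b c d) = ev F r * F3 (ev F a) (ev F b) (ev F c) (ev F d) := by
  simp only [F4, F3, jor, com, map_sub, map_mul, map_add]

theorem RealL_tXv (x : ℕ) (v : ℕ → Oc F) : tX F x v = tt (v x) • (1 : Oc F) := add_star (v x)

theorem RealL_t1 (x : ℕ) (A B C : Fn F) : tX F x * F1 A B C = G1 (XX F x) A B C := by
  funext v
  rw [Pi.mul_apply, RealL_tXv, smul_mul_assoc, one_mul]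
  exact (g1_oc (v x) (A v) (B v) (C v)).symm

theorem RealL_atG3 (v : ℕ → Oc F) (u a b c d : Fn F) :
    Ids_at F v (G3 u a b c d) = G3 (u v) (a v) (b v) (c v) (d v) := by
  have h : ∀ g : Fn F, Ids_at F v g = g v := fun _ => rfl
  simp only [G3, lam12, jor, com, associator_apply, map_sub, map_add, map_mul, map_neg,
    map_nsmul]
  simp only [h]

theorem RealL_t3 (x : ℕ) (A B C D : Fn F) :
    6 • (tX F x * F3 A B C D) = G3 (XX F x) A B C D := by
  funext v
  have h0 : G3 (XX F x) A B C D v = G3 (v x) (A v) (B v) (C v) (D v) :=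
    RealL_atG3 v (XX F x) A B C D
  have h2 : F3 A B C D v = F3 (A v) (B v) (C v) (D v) := rfl
  have h := g3_oc (v x) (A v) (B v) (C v) (D v)
  have h1 : (6 : F) = ((6 : ℕ) : F) := by norm_num
  rw [mul_smul, h1, Nat.cast_smul_eq_nsmul] at h
  rw [Pi.smul_apply, Pi.mul_apply, RealL_tXv, smul_mul_assoc, one_mul, h0, h2, h]

theorem RealL_XX (x : ℕ) : XX F x ∈ PR (ev F) {x} := XX_mem_UU x

theorem tX_LF (h2 : (2 : F) ≠ 0) (h3 : (3 : F) ≠ 0) (x : ℕ) {m : Multiset ℕ} {l : Fn F}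
    (hl : l ∈ LF F m) : tX F x * l ∈ LF F ({x} + m) := by
  obtain ⟨f, hf, rfl⟩ := Submodule.mem_map.1 hl
  change tX F x * ev F f ∈ LR (ev F) ({x} + m)
  have hR : Sat F 9 (Fn F) := sat_Fn 9
  have hw : ∀ w : FreeMagma ℕ, ev F (mo F w) ∈ PR (ev F) (lets id w) := fun w => Gen_w w
  have H1 : ∀ a b c : FreeMagma ℕ, tX F x * F1 (ev F (mo F a)) (ev F (mo F b)) (ev F (mo F c)) ∈
      LR (ev F) ({x} + (lets id a + lets id b + lets id c)) := by
    intro a b c
    rw [RealL_t1]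
    exact RealL_G1 h2 h3 hR (RealL_XX x) (hw a) (hw b) (hw c) rfl
  have H3 : ∀ a b c d : FreeMagma ℕ,
      tX F x * F3 (ev F (mo F a)) (ev F (mo F b)) (ev F (mo F c)) (ev F (mo F d)) ∈
      LR (ev F) ({x} + (lets id a + lets id b + lets id c + lets id d)) := by
    intro a b c d
    refine Gen_div (n := 6) (Gen_six h2 h3) ?_
    rw [RealL_t3]
    exact RealL_G3 h2 h3 hR (RealL_XX x) (hw a) (hw b) (hw c) (hw d) rfl
  refine Submodule.span_induction (p := fun f _ => tX F x * ev F f ∈ LR (ev F) ({x} + m))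
    ?_ ?_ ?_ ?_ hf
  · intro f hf
    cases hf with
    | f1 a b c =>
      rw [RealL_e1]
      exact H1 a b c
    | f2 r a b c =>
      rw [RealL_e2, (isSc_tX x).comm (ev F (mo F r) * _),
        ((isSc_tX x).assoc _ _).2.2, ← (isSc_tX x).comm (F1 _ _ _)]
      exact RealL_L h2 h3 hR (hw r) (H1 a b c) (by abel)
    | f3 a b c d =>
      rw [RealL_e3]
      exact H3 a b c d
    | f4 r a b c d =>
      rw [RealL_e4, (isSc_tX x).comm (ev F (mo F r) * _),
        ((isSc_tX x).assoc _ _).2.2, ← (isSc_tX x).comm (F3 _ _ _ _)]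
      exact RealL_L h2 h3 hR (hw r) (H3 a b c d) (by abel)
  · rw [map_zero, mul_zero]; exact Submodule.zero_mem _
  · intro f g _ _ hf hg
    rw [map_add, mul_add]; exact Submodule.add_mem _ hf hg
  · intro k f _ hf
    rw [map_smul, mul_smul_comm]; exact Submodule.smul_mem _ k hf

theorem RealL_AF (h2 : (2 : F) ≠ 0) (h3 : (3 : F) ≠ 0) {m : Multiset ℕ} {a : Fn F}
    (ha : a ∈ AF F m) : ∀ (m' : Multiset ℕ) (l : Fn F), l ∈ LF F m' →
      a * l ∈ LF F (m + m') ∧ l * a ∈ LF F (m + m') := by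
  have hR : Sat F 9 (Fn F) := sat_Fn 9
  refine Real_AF_ind (p := fun a => ∀ (m' : Multiset ℕ) (l : Fn F), l ∈ LF F m' →
      a * l ∈ LF F (m + m') ∧ l * a ∈ LF F (m + m')) ?_ ?_ ?_ ?_ ha
  · intro m' l _
    rw [zero_mul, mul_zero]
    exact ⟨Submodule.zero_mem _, Submodule.zero_mem _⟩
  · intro f g hf hg m' l hl
    rw [add_mul, mul_add]
    exact ⟨Submodule.add_mem _ (hf m' l hl).1 (hg m' l hl).1,
      Submodule.add_mem _ (hf m' l hl).2 (hg m' l hl).2⟩
  · intro k f hf m' l hl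
    rw [smul_mul_assoc, mul_smul_comm]
    exact ⟨Submodule.smul_mem _ k (hf m' l hl).1, Submodule.smul_mem _ k (hf m' l hl).2⟩
  · rintro w rfl
    clear ha a
    induction w with
    | ih1 c =>
      intro m' l hl
      rcases c with i | i
      · rw [Real_evt_inl]
        exact ⟨RealL_L h2 h3 hR (RealL_XX i) hl rfl, RealL_R h2 h3 hR (RealL_XX i) hl rfl⟩
      · rw [Real_evt_inr, ← (isSc_tX i).comm l]
        exact ⟨tX_LF h2 h3 i hl, tX_LF h2 h3 i hl⟩
    | ih2 u v hu hv =>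
      intro m' l hl
      have e1 : lets ix (u * v) + m' = lets ix u + (lets ix v + m') := by
        rw [← add_assoc]; rfl
      have e2 : lets ix v + (lets ix u + m') = lets ix u + (lets ix v + m') := by
        rw [← add_assoc, ← add_assoc, add_comm (lets ix v)]
      rw [e1, Real_evt_mul]
      have k1 := (hu _ _ (hv _ _ hl).1).1
      have k2 := (hv _ _ (hu _ _ hl).1).2
      have k3 := (hu _ _ (hv _ _ hl).2).1
      have k4 := (hv _ _ (hu _ _ hl).2).2
      rw [e2] at k2 k4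
      have a1 := alt23_R hR (evt F (mo F u)) (evt F (mo F v)) l
      have a2 := alt12_R hR l (evt F (mo F u)) (evt F (mo F v))
      simp only [associator_apply] at a1 a2
      constructor
      · have e4 : evt F (mo F u) * evt F (mo F v) * l = evt F (mo F u) * (evt F (mo F v) * l)
            - evt F (mo F u) * l * evt F (mo F v) + evt F (mo F u) * (l * evt F (mo F v)) := by
          linear_combination (norm := abel) a1
        rw [e4]
        exact add_mem (sub_mem k1 k2) k3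
      · have e4 : l * (evt F (mo F u) * evt F (mo F v)) = l * evt F (mo F u) * evt F (mo F v)
            + evt F (mo F u) * l * evt F (mo F v) - evt F (mo F u) * (l * evt F (mo F v)) := by
          linear_combination (norm := abel) -a2
        rw [e4]
        exact sub_mem (add_mem k4 k2) k3

theorem AF_mul_LF (h2 : (2 : F) ≠ 0) (h3 : (3 : F) ≠ 0) {m m' : Multiset ℕ} {a l : Fn F}
    (ha : a ∈ AF F m) (hl : l ∈ LF F m') : a * l ∈ LF F (m + m') := by
  exact (RealL_AF h2 h3 ha m' l hl).1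

theorem LF_mul_AF (h2 : (2 : F) ≠ 0) (h3 : (3 : F) ≠ 0) {m m' : Multiset ℕ} {a l : Fn F}
    (ha : a ∈ AF F m) (hl : l ∈ LF F m') : l * a ∈ LF F (m' + m) := by
  rw [add_comm m' m]
  exact (RealL_AF h2 h3 ha m' l hl).2

theorem RealL_star1 (A B C : Fn F) : star (F1 A B C) = -F1 A B C := by
  funext v
  exact Oct_star_traceless (tt_com (A v) (com (B v) (C v)))

theorem RealL_star3 (A B C D : Fn F) : star (F3 A B C D) = F3 A B C D := by
  funext v
  have h := f3_scalar (A v) (B v) (C v) (D v)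
  have h1 : F3 A B C D v = F3 (A v) (B v) (C v) (D v) := rfl
  rw [Pi.star_apply, h1, h, star_smul_oc, star_one]

theorem LF_star (h2 : (2 : F) ≠ 0) (h3 : (3 : F) ≠ 0) {m : Multiset ℕ} {l : Fn F}
    (hl : l ∈ LF F m) : star l ∈ LF F m := by
  obtain ⟨f, hf, rfl⟩ := Submodule.mem_map.1 hl
  change star (ev F f) ∈ LF F m
  have hw : ∀ w : FreeMagma ℕ, ev F (mo F w) ∈ PR (ev F) (lets id w) := fun w => Gen_w w
  have hs : ∀ w : FreeMagma ℕ, star (ev F (mo F w)) ∈ AF F (lets id w) := fun w =>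
    AF_star (UU_le_AF _ (hw w))
  refine Submodule.span_induction (p := fun f _ => star (ev F f) ∈ LF F m)
    ?_ ?_ ?_ ?_ hf
  · intro f hf
    cases hf with
    | f1 a b c =>
      rw [RealL_e1, RealL_star1]
      exact neg_mem (Gen_1 (hw a) (hw b) (hw c) rfl)
    | f2 r a b c =>
      rw [RealL_e2, star_mul, RealL_star1, neg_mul]
      have h := LF_mul_AF h2 h3 (hs r) (Gen_1 (hw a) (hw b) (hw c) rfl)
      have e : lets id a + lets id b + lets id c + lets id r =
          lets id r + lets id a + lets id b + lets id c := by abel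
      rw [e] at h
      exact neg_mem h
    | f3 a b c d =>
      rw [RealL_e3, RealL_star3]
      exact Gen_3 (hw a) (hw b) (hw c) (hw d) rfl
    | f4 r a b c d =>
      rw [RealL_e4, star_mul, RealL_star3]
      have h := LF_mul_AF h2 h3 (hs r) (Gen_3 (hw a) (hw b) (hw c) (hw d) rfl)
      have e : lets id a + lets id b + lets id c + lets id d + lets id r =
          lets id r + lets id a + lets id b + lets id c + lets id d := by abel
      rw [e] at h
      exact h
  · rw [map_zero, star_zero]; exact Submodule.zero_mem _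
  · intro f g _ _ hf hg
    rw [map_add, star_add]; exact Submodule.add_mem _ hf hg
  · intro k f _ hf
    have h : star (ev F (k • f)) = k • star (ev F f) := by
      rw [map_smul]
      funext v
      exact star_smul_oc k (ev F f v)
    rw [h]; exact Submodule.smul_mem _ k hf

theorem LF_small {m : Multiset ℕ} (hm : m.card ≤ 2) : LF F m = ⊥ := by
  have h : LP F m = ⊥ := by
    rw [eq_bot_iff]
    unfold LP
    rw [Submodule.span_le]
    intro f hf
    exfalso
    have hp : ∀ w : FreeMagma ℕ, 0 < (lets id w).card := fun w =>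
      Multiset.card_pos.2 (lets_ne id w)
    cases hf with
    | f1 a b c =>
      have h1 := hp a
      have h2 := hp b
      have h3 := hp c
      simp only [Multiset.card_add] at hm
      omega
    | f2 r a b c =>
      have h1 := hp a
      have h2 := hp b
      have h3 := hp c
      simp only [Multiset.card_add] at hm
      omega
    | f3 a b c d =>
      have h1 := hp a
      have h2 := hp b
      have h3 := hp c
      simp only [Multiset.card_add] at hm
      omega
    | f4 r a b c d =>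
      have h1 := hp a
      have h2 := hp b
      have h3 := hp c
      simp only [Multiset.card_add] at hm
      omega
  unfold LF
  rw [h, Submodule.map_bot]

/-! ### the variable `x` becomes 1 -/

theorem RealL_er {s t : Multiset ℕ} (h : (s + t).Nodup) (x : ℕ) :
    (s + t).erase x = s.erase x + t.erase x := by
  by_cases hx : x ∈ s
  · have ht : x ∉ t := Multiset.disjoint_left.1 (Multiset.nodup_add.1 h).2.2 hx
    rw [Multiset.erase_add_left_pos _ hx, Multiset.erase_of_notMem ht]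
  · rw [Multiset.erase_add_right_neg _ hx, Multiset.erase_of_notMem hx]

/-- either an element of the component without `x`, or 1 -/
def RealL_T (x : ℕ) (s : Multiset ℕ) (A : Fn F) : Prop :=
  A ∈ UU F (s.erase x) ∨ (s = {x} ∧ A = 1)

theorem RealL_word (x : ℕ) (w : FreeMagma ℕ) (hn : (lets id w).Nodup) :
    RealL_T x (lets id w) (sb (up F x 1) (ev F (mo F w))) := by
  induction w with
  | ih1 i =>
    have h1 : ev F (mo F (FreeMagma.of i)) = XX F i := ev_of i
    have h2 : lets id (FreeMagma.of i) = {i} := rfl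
    rw [h1, h2, Real_sb_XX]
    by_cases h : i = x
    · subst h
      exact Or.inr ⟨rfl, Real_up_self i 1⟩
    · refine Or.inl ?_
      have h3 : up F x 1 i = XX F i := by
        unfold up
        rw [Function.update_of_ne h]
      rw [h3, Multiset.erase_of_notMem]
      · exact XX_mem_UU i
      · rw [Multiset.mem_singleton]
        exact fun h' => h h'.symm
  | ih2 u v hu hv =>
    have h1 : ev F (mo F (u * v)) = ev F (mo F u) * ev F (mo F v) :=
      map_mul (ev F) (mo F u) (mo F v)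
    have h2 : lets id (u * v) = lets id u + lets id v := rfl
    rw [h2] at hn
    rw [h1, h2, map_mul]
    have hnu := (Multiset.nodup_add.1 hn).1
    have hnv := (Multiset.nodup_add.1 hn).2.1
    rcases hu hnu with hA | ⟨hA1, hA2⟩
    · rcases hv hnv with hB | ⟨hB1, hB2⟩
      · refine Or.inl ?_
        rw [RealL_er hn]
        exact UU_mul hA hB
      · refine Or.inl ?_
        rw [RealL_er hn, hB2, mul_one, hB1]
        have h3 : ({x} : Multiset ℕ).erase x = 0 := Multiset.erase_singleton x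
        rw [h3, add_zero]
        exact hA
    · rcases hv hnv with hB | ⟨hB1, hB2⟩
      · refine Or.inl ?_
        rw [RealL_er hn, hA2, one_mul, hA1]
        have h3 : ({x} : Multiset ℕ).erase x = 0 := Multiset.erase_singleton x
        rw [h3, zero_add]
        exact hB
      · exfalso
        rw [hA1, hB1] at hn
        exact Multiset.disjoint_left.1 (Multiset.nodup_add.1 hn).2.2
          (Multiset.mem_singleton_self x) (Multiset.mem_singleton_self x)

theorem RealL_c1 (a : Fn F) : com a 1 = 0 := by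
  simp only [com, mul_one, one_mul, sub_self]

theorem RealL_1c (a : Fn F) : com 1 a = 0 := by
  simp only [com, mul_one, one_mul, sub_self]

theorem RealL_c0 (a : Fn F) : com a 0 = 0 := by
  simp only [com, mul_zero, zero_mul, sub_self]

theorem RealL_j0 (a : Fn F) : jor a 0 = 0 := by
  simp only [jor, mul_zero, zero_mul, add_zero]

theorem RealL_0j (a : Fn F) : jor 0 a = 0 := by
  simp only [jor, mul_zero, zero_mul, add_zero]

/-- all arguments are honest, or the form is 0 -/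
theorem RealL_T1 {x : ℕ} {s₁ s₂ s₃ : Multiset ℕ} {A B C : Fn F} (hA : RealL_T x s₁ A)
    (hB : RealL_T x s₂ B) (hC : RealL_T x s₃ C) :
    (A ∈ UU F (s₁.erase x) ∧ B ∈ UU F (s₂.erase x) ∧ C ∈ UU F (s₃.erase x)) ∨ F1 A B C = 0 := by
  rcases hA with hA | ⟨_, rfl⟩
  · rcases hB with hB | ⟨_, rfl⟩
    · rcases hC with hC | ⟨_, rfl⟩
      · exact Or.inl ⟨hA, hB, hC⟩
      · right
        rw [F1, RealL_c1, RealL_c0]
    · right
      rw [F1, RealL_1c, RealL_c0]
  · right
    rw [F1, RealL_1c]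

theorem RealL_T3 {x : ℕ} {s₁ s₂ s₃ s₄ : Multiset ℕ} {A B C D : Fn F} (hA : RealL_T x s₁ A)
    (hB : RealL_T x s₂ B) (hC : RealL_T x s₃ C) (hD : RealL_T x s₄ D) :
    (A ∈ UU F (s₁.erase x) ∧ B ∈ UU F (s₂.erase x) ∧ C ∈ UU F (s₃.erase x) ∧
      D ∈ UU F (s₄.erase x)) ∨ F3 A B C D = 0 := by
  rcases hA with hA | ⟨_, rfl⟩
  · rcases hB with hB | ⟨_, rfl⟩
    · rcases hC with hC | ⟨_, rfl⟩
      · rcases hD with hD | ⟨_, rfl⟩
        · exact Or.inl ⟨hA, hB, hC, hD⟩
        · right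
          rw [F3, RealL_c1, RealL_j0]
      · right
        rw [F3, RealL_1c, RealL_j0]
    · right
      rw [F3, RealL_c1, RealL_0j]
  · right
    rw [F3, RealL_1c, RealL_0j]

theorem RealL_sb1 (g : ℕ → Fn F) (A B C : Fn F) :
    sb g (F1 A B C) = F1 (sb g A) (sb g B) (sb g C) := by
  simp only [F1, com, map_sub, map_mul]

theorem RealL_sb3 (g : ℕ → Fn F) (A B C D : Fn F) :
    sb g (F3 A B C D) = F3 (sb g A) (sb g B) (sb g C) (sb g D) := by
  simp only [F3, jor, com, map_sub, map_mul, map_add]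

theorem RealL_m2 {m₀ m₁ m₂ m₃ n : Multiset ℕ} {r A B C : Fn F} (hr : r ∈ UU F m₀)
    (hA : A ∈ UU F m₁) (hB : B ∈ UU F m₂) (hC : C ∈ UU F m₃) (h : m₀ + m₁ + m₂ + m₃ = n) :
    r * F1 A B C ∈ LF F n := by
  subst h
  obtain ⟨r, hr, rfl⟩ := hr
  obtain ⟨a, ha, rfl⟩ := hA
  obtain ⟨b, hb, rfl⟩ := hB
  obtain ⟨c, hc, rfl⟩ := hC
  exact ⟨F2 r a b c, LP_F2 hr ha hb hc, RealL_e2 r a b c⟩

theorem RealL_m4 {m₀ m₁ m₂ m₃ m₄ n : Multiset ℕ} {r A B C D : Fn F} (hr : r ∈ UU F m₀)
    (hA : A ∈ UU F m₁) (hB : B ∈ UU F m₂) (hC : C ∈ UU F m₃) (hD : D ∈ UU F m₄)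
    (h : m₀ + m₁ + m₂ + m₃ + m₄ = n) : r * F3 A B C D ∈ LF F n := by
  subst h
  obtain ⟨r, hr, rfl⟩ := hr
  obtain ⟨a, ha, rfl⟩ := hA
  obtain ⟨b, hb, rfl⟩ := hB
  obtain ⟨c, hc, rfl⟩ := hC
  obtain ⟨d, hd, rfl⟩ := hD
  exact ⟨F4 r a b c d, LP_F4 hr ha hb hc hd, RealL_e4 r a b c d⟩

theorem RealL_n3 {s₁ s₂ s₃ : Multiset ℕ} (h : (s₁ + s₂ + s₃).Nodup) (x : ℕ) :
    s₁.Nodup ∧ s₂.Nodup ∧ s₃.Nodup ∧
      s₁.erase x + s₂.erase x + s₃.erase x = (s₁ + s₂ + s₃).erase x := by
  have h1 := (Multiset.nodup_add.1 h).1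
  refine ⟨(Multiset.nodup_add.1 h1).1, (Multiset.nodup_add.1 h1).2.1,
    (Multiset.nodup_add.1 h).2.1, ?_⟩
  rw [RealL_er h, RealL_er h1]

theorem RealL_n4 {s₁ s₂ s₃ s₄ : Multiset ℕ} (h : (s₁ + s₂ + s₃ + s₄).Nodup) (x : ℕ) :
    s₁.Nodup ∧ s₂.Nodup ∧ s₃.Nodup ∧ s₄.Nodup ∧
      s₁.erase x + s₂.erase x + s₃.erase x + s₄.erase x = (s₁ + s₂ + s₃ + s₄).erase x := by
  obtain ⟨h1, h2, h3, h4⟩ := RealL_n3 (Multiset.nodup_add.1 h).1 x
  refine ⟨h1, h2, h3, (Multiset.nodup_add.1 h).2.1, ?_⟩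
  rw [RealL_er h, h4]

theorem RealL_n5 {s₁ s₂ s₃ s₄ s₅ : Multiset ℕ} (h : (s₁ + s₂ + s₃ + s₄ + s₅).Nodup) (x : ℕ) :
    s₁.Nodup ∧ s₂.Nodup ∧ s₃.Nodup ∧ s₄.Nodup ∧ s₅.Nodup ∧
      s₁.erase x + s₂.erase x + s₃.erase x + s₄.erase x + s₅.erase x =
        (s₁ + s₂ + s₃ + s₄ + s₅).erase x := by
  obtain ⟨h1, h2, h3, h4, h5⟩ := RealL_n4 (Multiset.nodup_add.1 h).1 x
  refine ⟨h1, h2, h3, h4, (Multiset.nodup_add.1 h).2.1, ?_⟩
  rw [RealL_er h, h5]

theorem LF_sub1 {m : Multiset ℕ} (hm : m.Nodup) {x : ℕ} (hx : x ∈ m) {l : Fn F}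
    (hl : l ∈ LF F m) : sb (up F x 1) l ∈ LF F (m.erase x) := by
  obtain ⟨f, hf, rfl⟩ := Submodule.mem_map.1 hl
  change sb (up F x 1) (ev F f) ∈ LF F (m.erase x)
  have z1 : ({x} : Multiset ℕ).erase x = 0 := Multiset.erase_singleton x
  refine Submodule.span_induction (p := fun f _ => sb (up F x 1) (ev F f) ∈ LF F (m.erase x))
    ?_ ?_ ?_ ?_ hf
  · intro f hf
    cases hf with
    | f1 a b c =>
      obtain ⟨n1, n2, n3, e⟩ := RealL_n3 hm x
      rw [RealL_e1, RealL_sb1]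
      rcases RealL_T1 (RealL_word (F := F) x a n1) (RealL_word x b n2) (RealL_word x c n3) with
        ⟨hA, hB, hC⟩ | h
      · exact Gen_1 hA hB hC e
      · rw [h]; exact Submodule.zero_mem _
    | f2 r a b c =>
      obtain ⟨n0, n1, n2, n3, e⟩ := RealL_n4 hm x
      rw [RealL_e2, map_mul, RealL_sb1]
      rcases RealL_T1 (RealL_word (F := F) x a n1) (RealL_word x b n2) (RealL_word x c n3) with
        ⟨hA, hB, hC⟩ | h
      · rcases RealL_word (F := F) x r n0 with hr | ⟨hr1, hr2⟩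
        · exact RealL_m2 hr hA hB hC e
        · rw [hr2, one_mul]
          rw [hr1, z1, zero_add] at e
          rw [hr1]
          exact Gen_1 hA hB hC e
      · rw [h, mul_zero]; exact Submodule.zero_mem _
    | f3 a b c d =>
      obtain ⟨n1, n2, n3, n4, e⟩ := RealL_n4 hm x
      rw [RealL_e3, RealL_sb3]
      rcases RealL_T3 (RealL_word (F := F) x a n1) (RealL_word x b n2) (RealL_word x c n3)
        (RealL_word x d n4) with ⟨hA, hB, hC, hD⟩ | h
      · exact Gen_3 hA hB hC hD e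
      · rw [h]; exact Submodule.zero_mem _
    | f4 r a b c d =>
      obtain ⟨n0, n1, n2, n3, n4, e⟩ := RealL_n5 hm x
      rw [RealL_e4, map_mul, RealL_sb3]
      rcases RealL_T3 (RealL_word (F := F) x a n1) (RealL_word x b n2) (RealL_word x c n3)
        (RealL_word x d n4) with ⟨hA, hB, hC, hD⟩ | h
      · rcases RealL_word (F := F) x r n0 with hr | ⟨hr1, hr2⟩
        · exact RealL_m4 hr hA hB hC hD e
        · rw [hr2, one_mul]
          rw [hr1, z1, zero_add] at e
          rw [hr1]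
          exact Gen_3 hA hB hC hD e
      · rw [h, mul_zero]; exact Submodule.zero_mem _
  · rw [map_zero, map_zero]; exact Submodule.zero_mem _
  · intro f g _ _ hf hg
    rw [map_add, map_add]; exact Submodule.add_mem _ hf hg
  · intro k f _ hf
    rw [map_smul, map_smul]; exact Submodule.smul_mem _ k hf

/-! ### renaming of the variables -/

theorem RealL_mr (σ : ℕ → ℕ) {m : Multiset ℕ} {f : FA F} (hf : f ∈ P F m) :
    lift F (fun i => of F (σ i)) f ∈ P F (m.map σ) := by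
  have h := lift_mem id id (fun i => of F (σ i)) (fun i => {σ i})
    (fun a => of_mem id (σ a)) hf
  have e := Multiset.sum_map_singleton (m.map σ)
  rw [Multiset.map_map] at e
  have e' : (Multiset.map (fun i => ({σ i} : Multiset ℕ)) m).sum = m.map σ := e
  rwa [e'] at h

theorem LF_ren (σ : ℕ → ℕ) {m : Multiset ℕ} {l : Fn F} (hl : l ∈ LF F m) :
    sb (fun i => XX F (σ i)) l ∈ LF F (m.map σ) := by
  obtain ⟨f, hf, rfl⟩ := Submodule.mem_map.1 hl
  change sb (fun i => XX F (σ i)) (ev F f) ∈ LF F (m.map σ)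
  have e : sb (fun i => XX F (σ i)) (ev F f) = ev F (lift F (fun i => of F (σ i)) f) := by
    have e1 : (fun i => XX F (σ i)) = fun i => ev F (of F (σ i)) := by
      funext i
      exact (ev_of (σ i)).symm
    rw [ev_lift, e1]
  rw [e]
  refine Submodule.mem_map.2 ⟨lift F (fun i => of F (σ i)) f, ?_, rfl⟩
  refine Submodule.span_induction
    (p := fun f _ => lift F (fun i => of F (σ i)) f ∈ LP F (m.map σ)) ?_ ?_ ?_ ?_ hf
  · intro f hf
    have hw : ∀ w : FreeMagma ℕ, lift F (fun i => of F (σ i)) (mo F w) ∈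
        P F ((lets id w).map σ) := fun w => RealL_mr σ (mo_mem id w)
    cases hf with
    | f1 a b c =>
      simp only [F1, com, map_sub, map_mul, Multiset.map_add]
      exact LP_F1 (hw a) (hw b) (hw c)
    | f2 r a b c =>
      simp only [F2, F1, com, map_sub, map_mul, Multiset.map_add]
      exact LP_F2 (hw r) (hw a) (hw b) (hw c)
    | f3 a b c d =>
      simp only [F3, jor, com, map_sub, map_mul, map_add, Multiset.map_add]
      exact LP_F3 (hw a) (hw b) (hw c) (hw d)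
    | f4 r a b c d =>
      simp only [F4, F3, jor, com, map_sub, map_mul, map_add, Multiset.map_add]
      exact LP_F4 (hw r) (hw a) (hw b) (hw c) (hw d)
  · rw [map_zero]; exact Submodule.zero_mem _
  · intro f g _ _ hf hg
    rw [map_add]; exact Submodule.add_mem _ hf hg
  · intro k f _ hf
    rw [map_smul]; exact Submodule.smul_mem _ k hf

end Pool.Agent.OB
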