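import Pool.Agent.OB.Wre
import Pool.Agent.OB.LiftW

/-!
# The proper part of a multilinear polynomial  (module Shp)

`eK K f` is `f` with `1` substituted for the variables in `K` (a word whose letters are all in `K` is sent to
0). `lamK L f = x_(l₁) (x_(l₂) (... f))`. `sharp V f = ∑ (-1)^|K| lamK (sort K) (eK K f)`, over the proper subsets `K` of `V`.

`sharp_proper`: for `i ∈ V` substitute `x_i = 1`: the terms of `K ∌ i` and of `insert i K` cancel (in
`lamK (sort (insert i K))` the factor `x_i` becomes `1`); for `insert i K = V` the term of `K` is `lamK (..) (c x_i)` where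
`c` is the sum of the coefficients of `f`, which is 0 (`hc`).
`sharp_evw`: `sb (xz Z) u = u` by induction on `Z ⊆ V` (`sbX_insert`; `sb (Function.update (xz Z) z 1) u =`
`sb (xz Z) (sb (up z 1) u)` up to the variable `z`), `evw p = sb x0 (ev p)`.
-/

set_option autoImplicit false
set_option linter.unusedSectionVars false

namespace Pool.Agent.OB

open FreeNonUnitalNonAssocAlgebra Pool.Agent.H.MP_41922c_al Pool.Agent.Smt

variable {F : Type*} [Field F]

theorem Shp_del_mul (K : Finset ℕ) (u v : FreeMagma ℕ) : del K (u * v) =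
    match del K u, del K v with
    | none, b => b
    | some a, none => some a
    | some a, some b => some (a * b) := rfl

theorem Shp_eK_mo (K : Finset ℕ) (w : FreeMagma ℕ) : eK F K (mo F w) = moO F (del K w) :=
  linMo_mo _ w

theorem Shp_del_empty (w : FreeMagma ℕ) : del ∅ w = some w := by
  induction w with
  | ih1 a => rfl
  | ih2 u v hu hv => rw [Shp_del_mul, hu, hv]

theorem eK_empty (f : FA F) : eK F ∅ f = f := by
  have h : eK F ∅ = (LinearMap.id : FA F →ₗ[F] FA F) := by
    refine ext_mo fun w => ?_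
    rw [Shp_eK_mo, Shp_del_empty]
    rfl
  rw [h, LinearMap.id_apply]

/-- the letters of an optional word -/
def Shp_lets : Option (FreeMagma ℕ) → Multiset ℕ
  | none => 0
  | some w => lets id w

theorem Shp_lets_del (K : Finset ℕ) (w : FreeMagma ℕ) :
    Shp_lets (del K w) = (lets id w).filter (· ∉ K) := by
  induction w with
  | ih1 a =>
    have h1 : del K (FreeMagma.of a) = if a ∈ K then none else some (FreeMagma.of a) := rfl
    have h2 : lets id (FreeMagma.of a) = {a} := rfl
    rw [h1, h2, Multiset.filter_singleton]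
    by_cases h : a ∈ K
    · rw [if_pos h, if_neg (fun h3 => h3 h)]
      rfl
    · rw [if_neg h, if_pos h]
      rfl
  | ih2 u v hu hv =>
    have h2 : lets id (u * v) = lets id u + lets id v := rfl
    rw [Shp_del_mul, h2, Multiset.filter_add, ← hu, ← hv]
    rcases del K u with _ | a <;> rcases del K v with _ | b
    · rfl
    · exact (zero_add _).symm
    · exact (add_zero _).symm
    · rfl

theorem Shp_filter {V : Multiset ℕ} (hV : V.Nodup) {K : Finset ℕ} (_hK : K.val ≤ V) :
    V.filter (· ∉ K) = V - K.val := by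
  have h1 : (V.filter (· ∉ K)).Nodup := hV.filter _
  have h2 : (V - K.val).Nodup := Multiset.nodup_of_le (Multiset.sub_le_self V K.val) hV
  refine (Multiset.Nodup.ext h1 h2).2 fun a => ?_
  rw [Multiset.mem_filter, Multiset.mem_sub_of_nodup hV, Finset.mem_val]

theorem Shp_moO_mem (o : Option (FreeMagma ℕ)) : moO F o ∈ P F (Shp_lets o) := by
  rcases o with _ | w
  · exact Submodule.zero_mem _
  · exact mo_mem id w

theorem eK_mem {V : Multiset ℕ} (hV : V.Nodup) {K : Finset ℕ} (hK : K.val ≤ V) {f : FA F}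
    (hf : f ∈ P F V) : eK F K f ∈ P F (V - K.val) := by
  refine PP_induction id (p := fun f => eK F K f ∈ P F (V - K.val)) ?_ ?_ ?_ ?_ hf
  · rw [map_zero]; exact Submodule.zero_mem _
  · intro f g hf hg
    rw [map_add]; exact Submodule.add_mem _ hf hg
  · intro k f hf
    rw [map_smul]; exact Submodule.smul_mem _ _ hf
  · intro w hw
    rw [Shp_eK_mo, ← Shp_filter hV hK, ← hw, ← Shp_lets_del]
    exact Shp_moO_mem _

/-- the substitution of `1` for the variables in `K` -/
noncomputable def Shp_o (F : Type*) [Field F] (K : Finset ℕ) : ℕ → Fn F :=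
  fun i => if i ∈ K then 1 else XX F i

/-- the real value of an optional word -/
noncomputable def Shp_ev (F : Type*) [Field F] : Option (FreeMagma ℕ) → Fn F
  | none => 1
  | some w => ev F (mo F w)

theorem Shp_ev_del (K : Finset ℕ) (w : FreeMagma ℕ) :
    sb (Shp_o F K) (ev F (mo F w)) = Shp_ev F (del K w) := by
  induction w with
  | ih1 a =>
    have h1 : del K (FreeMagma.of a) = if a ∈ K then none else some (FreeMagma.of a) := rfl
    have h2 : ev F (mo F (FreeMagma.of a)) = XX F a := ev_of a
    rw [h2, Real_sb_XX, h1]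
    unfold Shp_o
    by_cases h : a ∈ K
    · rw [if_pos h, if_pos h]
      rfl
    · rw [if_neg h, if_neg h]
      exact (ev_of a).symm
  | ih2 u v hu hv =>
    have h2 : ev F (mo F (u * v)) = ev F (mo F u) * ev F (mo F v) :=
      map_mul (ev F) (mo F u) (mo F v)
    rw [h2, map_mul, hu, hv, Shp_del_mul]
    rcases del K u with _ | a <;> rcases del K v with _ | b
    · exact one_mul _
    · exact one_mul _
    · exact mul_one _
    · exact (map_mul (ev F) (mo F a) (mo F b)).symm

/-- the real value of `eK K f` -/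
theorem ev_eK {V : Multiset ℕ} (hV : V.Nodup) {K : Finset ℕ} (hK : K.val ≤ V)
    (hne : K.val ≠ V) {f : FA F} (hf : f ∈ P F V) :
    ev F (eK F K f) = sb (fun i => if i ∈ K then 1 else XX F i) (ev F f) := by
  refine PP_induction id (p := fun f => ev F (eK F K f) =
    sb (fun i => if i ∈ K then 1 else XX F i) (ev F f)) ?_ ?_ ?_ ?_ hf
  · rw [map_zero, map_zero, map_zero]
  · intro f g hf hg
    rw [map_add, map_add, map_add, map_add, hf, hg]
  · intro k f hf
    rw [map_smul, map_smul, map_smul, map_smul, hf]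
  · intro w hw
    refine Eq.trans ?_ (Shp_ev_del K w).symm
    rw [Shp_eK_mo]
    have h1 := Shp_lets_del K w
    rw [hw, Shp_filter hV hK] at h1
    rcases hd : del K w with _ | a
    · exfalso
      rw [hd] at h1
      apply hne
      refine le_antisymm hK ?_
      exact tsub_eq_zero_iff_le.1 h1.symm
    · rfl

theorem lamK_mem {m : Multiset ℕ} {f : FA F} (hf : f ∈ P F m) (L : List ℕ) :
    lamK F L f ∈ P F ((L : Multiset ℕ) + m) := by
  induction L with
  | nil =>
    rw [Multiset.coe_nil, zero_add]
    exact hf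
  | cons i L ih =>
    have h : ((i :: L : List ℕ) : Multiset ℕ) + m = {i} + ((L : Multiset ℕ) + m) := by
      rw [← Multiset.cons_coe, ← Multiset.singleton_add, add_assoc]
    rw [h]
    exact PP_mul id (of_mem id i) ih

theorem lamK_add (L : List ℕ) (f g : FA F) : lamK F L (f + g) = lamK F L f + lamK F L g := by
  induction L with
  | nil => rfl
  | cons i L ih =>
    change of F i * lamK F L (f + g) = of F i * lamK F L f + of F i * lamK F L g
    rw [ih, mul_add]

theorem lamK_smul (L : List ℕ) (c : F) (f : FA F) : lamK F L (c • f) = c • lamK F L f := by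
  induction L with
  | nil => rfl
  | cons i L ih =>
    change of F i * lamK F L (c • f) = c • (of F i * lamK F L f)
    rw [ih, mul_smul_comm]

theorem ren_lamK (ρ : ℕ → ℕ) (L : List ℕ) (f : FA F) :
    ren F ρ (lamK F L f) = lamK F (L.map ρ) (ren F ρ f) := by
  induction L with
  | nil => rfl
  | cons i L ih =>
    change ren F ρ (of F i * lamK F L f) = of F (ρ i) * lamK F (L.map ρ) (ren F ρ f)
    rw [map_mul, ih, LiftW_ren_of]

theorem Shp_le {V : Multiset ℕ} (hV : V.Nodup) {K : Finset ℕ} (hK : K ∈ V.toFinset.powerset) :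
    K.val ≤ V := by
  have h : K.val ≤ V.toFinset.val := Finset.val_le_iff.2 (Finset.mem_powerset.1 hK)
  rwa [Multiset.toFinset_val, Multiset.dedup_eq_self.2 hV] at h

theorem Shp_ne {V : Multiset ℕ} (hV : V.Nodup) {K : Finset ℕ} (hK : K ≠ V.toFinset) :
    K.val ≠ V := by
  intro h
  apply hK
  apply Finset.val_injective
  rw [Multiset.toFinset_val, Multiset.dedup_eq_self.2 hV, h]

theorem sharp_mem {V : Multiset ℕ} (hV : V.Nodup) {f : FA F} (hf : f ∈ P F V) :
    sharp V f ∈ P F V := by
  unfold sharp
  refine Submodule.sum_mem _ fun K hK => Submodule.smul_mem _ _ ?_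
  have h1 := Shp_le hV (Finset.mem_of_mem_erase hK)
  have h2 := lamK_mem (eK_mem hV h1 hf) (K.sort (· ≤ ·))
  rwa [Finset.sort_eq, add_tsub_cancel_of_le h1] at h2

/-- the function `a (l₁) (a (l₂) (... g))` -/
noncomputable def Shp_l (a : ℕ → Fn F) : List ℕ → Fn F → Fn F
  | [], g => g
  | i :: L, g => a i * Shp_l a L g

theorem Shp_ev_lamK (L : List ℕ) (f : FA F) : ev F (lamK F L f) = Shp_l (XX F) L (ev F f) := by
  induction L with
  | nil => rfl
  | cons i L ih =>
    change ev F (of F i * lamK F L f) = XX F i * Shp_l (XX F) L (ev F f)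
    rw [map_mul, ih, ev_of]

theorem Shp_sb_l (g : ℕ → Fn F) (L : List ℕ) (f : Fn F) :
    sb g (Shp_l (XX F) L f) = Shp_l g L (sb g f) := by
  induction L with
  | nil => rfl
  | cons i L ih =>
    change sb g (XX F i * Shp_l (XX F) L f) = g i * Shp_l g L (sb g f)
    rw [map_mul, ih, Real_sb_XX]

theorem Shp_l_filter (a : ℕ → Fn F) {i : ℕ} (h : a i = 1) (L : List ℕ) (f : Fn F) :
    Shp_l a (L.filter (· ≠ i)) f = Shp_l a L f := by
  induction L with
  | nil => rfl
  | cons j L ih =>
    by_cases hj : j = i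
    · subst hj
      rw [List.filter_cons_of_neg (by simp), ih]
      change Shp_l a L f = a j * Shp_l a L f
      rw [h, one_mul]
    · rw [List.filter_cons_of_pos (by simpa using hj)]
      change a j * Shp_l a (L.filter (· ≠ i)) f = a j * Shp_l a L f
      rw [ih]

theorem Shp_l_zero (a : ℕ → Fn F) (L : List ℕ) : Shp_l a L 0 = 0 := by
  induction L with
  | nil => rfl
  | cons j L ih =>
    change a j * Shp_l a L 0 = 0
    rw [ih, mul_zero]

theorem Shp_sort {K : Finset ℕ} {i : ℕ} (h : i ∉ K) :
    ((insert i K).sort (· ≤ ·)).filter (· ≠ i) = K.sort (· ≤ ·) := by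
  have h1 : ((insert i K).sort (· ≤ ·)).Nodup := Finset.sort_nodup _ _
  have h2 : (((insert i K).sort (· ≤ ·)).filter (· ≠ i)).toFinset = K := by
    ext j
    rw [List.mem_toFinset, List.mem_filter, Finset.mem_sort, Finset.mem_insert]
    constructor
    · rintro ⟨h3, h4⟩
      rcases h3 with h3 | h3
      · exact absurd h3 (by simpa using h4)
      · exact h3
    · intro h3
      refine ⟨Or.inr h3, ?_⟩
      have h4 : j ≠ i := by
        rintro rfl
        exact h h3
      simpa using h4
  have h3 := (List.toFinset_sort (r := (· ≤ ·)) (h1.filter (· ≠ i))).2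
    ((Finset.pairwise_sort (insert i K) (· ≤ ·)).filter _)
  rw [h2] at h3
  exact h3.symm

/-- the term of `K`, as a function -/
noncomputable def Shp_T (K : Finset ℕ) (f : Fn F) : Fn F :=
  ((-1 : F) ^ K.card) • Shp_l (XX F) (K.sort (· ≤ ·)) (sb (Shp_o F K) f)

theorem Shp_ev_sharp {V : Multiset ℕ} (hV : V.Nodup) {f : FA F} (hf : f ∈ P F V)
    (hc : ev F f (fun _ => 1) = 0) :
    ev F (sharp V f) = ∑ K ∈ V.toFinset.powerset, Shp_T K (ev F f) := by
  have hA : ev F f ∈ AF F V := UU_le_AF V ⟨f, hf, rfl⟩
  rw [← Finset.sum_erase_add _ _ (Finset.mem_powerset_self V.toFinset)]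
  have h1 : Shp_T V.toFinset (ev F f) = 0 := by
    have h2 : sb (Shp_o F V.toFinset) (ev F f) = 0 := by
      have h3 : sb (Shp_o F V.toFinset) (ev F f) = sb (fun _ => 1) (ev F f) := by
        refine sb_congr hA fun i hi => ?_
        unfold Shp_o
        rw [if_pos (Multiset.mem_toFinset.2 hi)]
      rw [h3]
      funext v
      rw [sb_apply]
      exact hc
    unfold Shp_T
    rw [h2, Shp_l_zero, smul_zero]
  rw [h1, add_zero]
  unfold sharp
  rw [map_sum]
  refine Finset.sum_congr rfl fun K hK => ?_
  have h2 := Shp_le hV (Finset.mem_of_mem_erase hK)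
  have h3 := Shp_ne hV (Finset.ne_of_mem_erase hK)
  rw [map_smul, Shp_ev_lamK, ev_eK hV h2 h3 hf]
  rfl

theorem Shp_pair {K : Finset ℕ} {i : ℕ} (h : i ∉ K) (f : Fn F) :
    sb (up F i 1) (Shp_T (insert i K) f) = -sb (up F i 1) (Shp_T K f) := by
  have h1 : sb (up F i 1) (sb (Shp_o F (insert i K)) f) = sb (up F i 1) (sb (Shp_o F K) f) := by
    funext v
    rw [sb_apply, sb_apply, sb_apply, sb_apply]
    congr 1
    funext j
    unfold Shp_o
    by_cases hj : j = i
    · subst hj
      rw [if_pos (Finset.mem_insert_self j K), if_neg h]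
      change (1 : Oc F) = up F j 1 j v
      rw [Real_up_self]
      rfl
    · by_cases hk : j ∈ K
      · rw [if_pos (Finset.mem_insert_of_mem hk), if_pos hk]
      · rw [if_neg hk, if_neg]
        intro h5
        exact (Finset.mem_insert.1 h5).elim hj hk
  unfold Shp_T
  rw [map_smul, map_smul, Shp_sb_l, Shp_sb_l, h1,
    ← Shp_l_filter (up F i 1) (Real_up_self i 1) ((insert i K).sort (· ≤ ·)), Shp_sort h,
    Finset.card_insert_of_notMem h, pow_succ, mul_neg, mul_one, neg_smul]

theorem sharp_proper {V : Multiset ℕ} (hV : V.Nodup) {f : FA F} (hf : f ∈ P F V)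
    (hc : ev F f (fun _ => 1) = 0) {i : ℕ} (hi : i ∈ V) :
    sb (up F i 1) (ev F (sharp V f)) = 0 := by
  rw [Shp_ev_sharp hV hf hc, map_sum]
  have h1 : V.toFinset = insert i (V.toFinset.erase i) :=
    (Finset.insert_erase (Multiset.mem_toFinset.2 hi)).symm
  rw [h1, Finset.sum_powerset_insert (Finset.notMem_erase i _), ← Finset.sum_add_distrib]
  refine Finset.sum_eq_zero fun K hK => ?_
  have h2 : i ∉ K := fun h3 =>
    Finset.notMem_erase i V.toFinset (Finset.mem_powerset.1 hK h3)
  rw [Shp_pair h2, add_neg_cancel]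

theorem sharp_evw (h2 : (2 : F) ≠ 0) {V : Multiset ℕ} (hV : V.Nodup) {f : FA F} (hf : f ∈ P F V)
    (hc : ev F f (fun _ => 1) = 0) : ev F (sharp V f) = evw F (sharp V f) := by
  have hA : ev F (sharp V f) ∈ AF F V := UU_le_AF V ⟨_, sharp_mem hV hf, rfl⟩
  have h1 : sb (x0 F) (ev F (sharp V f)) = sb (xz F V.toFinset) (ev F (sharp V f)) := by
    refine sb_congr hA fun i hi => ?_
    rw [Wre_xz_mem (Multiset.mem_toFinset.2 hi)]
  have h2 : ∀ Z : Finset ℕ, Z ⊆ V.toFinset →
      sb (xz F Z) (ev F (sharp V f)) = ev F (sharp V f) := by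
    intro Z
    induction Z using Finset.induction_on with
    | empty =>
      intro _
      have h : xz F ∅ = XX F := by
        funext i
        exact Wre_xz_notMem (Finset.notMem_empty i)
      rw [h, Real_sb_id]
    | insert z Z hZ ih =>
      intro h3
      have hz : z ∈ V := Multiset.mem_toFinset.1 (h3 (Finset.mem_insert_self z Z))
      rw [sbX_insert h2 hV hz hZ hA, Wre_up1, sharp_proper hV hf hc hz, map_zero, mul_zero,
        smul_zero, sub_zero]
      exact ih fun j hj => h3 (Finset.mem_insert_of_mem hj)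
  rw [evw_eq, h1, h2 _ (Finset.Subset.refl _)]

end Pool.Agent.OB
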