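import Pool.Agent.OB.LiftW
import Pool.Agent.OB.L5

/-!
# Elements of the kernel of a renaming  (module SwapW)

`R` satisfies all multilinear identities of the octonions; `V` has no repetitions and at least 4 elements.
For words `w, w'` with letters `V` write `w ~ w'` if `π (ren ρ h) = 0` for all `h ∈ P V` with
`ev h = evw w - evw w'`. Such `h` exist by `L5_word` (`LF V ≤ UU V`), and any two of them differ by a multilinear
identity; so `~` is an equivalence relation.
`swap_one`: `s = swap i j`, `ρ i = ρ j`, `i, j ∈ V`: `w ~ s w`. Indeed if `ev h = evw w - evw (s w)` then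
`ev (ren s h) = - ev h` (`ev_ren`, `evw_ren`), so `h + ren s h` is a multilinear identity, and
`ren ρ (ren s h) = ren ρ h`; so `2 π (ren ρ h) = 0`.
`swap_chain`: if `FreeMagma.map ρ w = FreeMagma.map ρ w'` then `w'` is obtained from `w` by such transpositions
(`w' = g w` for a permutation `g` of `V` with `ρ ∘ g = ρ` on `V`; induction on the number of points moved by `g`).
`swapW`: `d` is a combination of differences `w - w'` with `FreeMagma.map ρ w = FreeMagma.map ρ w'` (choose one word
in each class: `ren ρ d = 0` says that the sum of the coefficients in each class is 0).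
-/

set_option autoImplicit false
set_option linter.unusedSectionVars false

namespace Pool.Agent.OB

open FreeNonUnitalNonAssocAlgebra Pool.Agent.H.MP_41922c_al Pool.Agent.Smt

variable {F : Type*} [Field F] {R : Type*} [NonUnitalNonAssocRing R] [Module F R]
  [IsScalarTower F R R] [SMulCommClass F R R]

/-- multilinear identities become zero -/
theorem SwapW_zero (hR : ∀ d, Sat F d R) (π : FA F →ₙₐ[F] R)
    {V : Multiset ℕ} (hV : V.Nodup) (ρ : ℕ → ℕ) {h : FA F} (hh : h ∈ P F V) (eh : ev F h = 0) :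
    π (ren F ρ h) = 0 :=
  hR V.card V hV le_rfl h hh ((id_iff_ev h).2 eh) (π.comp (ren F ρ))

theorem SwapW_map_mul (f : ℕ → ℕ) (u v : FreeMagma ℕ) :
    FreeMagma.map f (u * v) = FreeMagma.map f u * FreeMagma.map f v := rfl

theorem SwapW_lets_mul (u v : FreeMagma ℕ) : lets id (u * v) = lets id u + lets id v := rfl

theorem SwapW_lets_map (f : ℕ → ℕ) (w : FreeMagma ℕ) :
    lets id (FreeMagma.map f w) = (lets id w).map f := by
  induction w with
  | ih1 a =>
    change ({f a} : Multiset ℕ) = Multiset.map f {a}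
    rw [Multiset.map_singleton]
  | ih2 u v hu hv =>
    rw [SwapW_map_mul, SwapW_lets_mul, SwapW_lets_mul, hu, hv, Multiset.map_add]

theorem SwapW_map_map (f g : ℕ → ℕ) (w : FreeMagma ℕ) :
    FreeMagma.map f (FreeMagma.map g w) = FreeMagma.map (fun x => f (g x)) w := by
  induction w with
  | ih1 a => rfl
  | ih2 u v hu hv =>
    rw [SwapW_map_mul, SwapW_map_mul, SwapW_map_mul, hu, hv]

theorem SwapW_map_congr {f g : ℕ → ℕ} {w : FreeMagma ℕ} (h : ∀ x ∈ lets id w, f x = g x) :
    FreeMagma.map f w = FreeMagma.map g w := by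
  induction w with
  | ih1 a =>
    change FreeMagma.of (f a) = FreeMagma.of (g a)
    rw [h a (Multiset.mem_singleton_self _)]
  | ih2 u v hu hv =>
    rw [SwapW_lets_mul] at h
    rw [SwapW_map_mul, SwapW_map_mul, hu fun x hx => h x (Multiset.mem_add.2 (Or.inl hx)),
      hv fun x hx => h x (Multiset.mem_add.2 (Or.inr hx))]

theorem SwapW_map_id (w : FreeMagma ℕ) : FreeMagma.map (fun x => x) w = w := by
  induction w with
  | ih1 a => rfl
  | ih2 u v hu hv => rw [SwapW_map_mul, hu, hv]

theorem SwapW_swap {V : Multiset ℕ} (hV : V.Nodup) {i j : ℕ} (hi : i ∈ V) (hj : j ∈ V) :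
    V.map (Equiv.swap i j) = V := by
  have key : ∀ a ∈ V, Equiv.swap i j a ∈ V := by
    intro a ha
    by_cases h1 : a = i
    · rw [h1, Equiv.swap_apply_left]
      exact hj
    · by_cases h2 : a = j
      · rw [h2, Equiv.swap_apply_right]
        exact hi
      · rw [Equiv.swap_apply_of_ne_of_ne h1 h2]
        exact ha
  refine (Multiset.Nodup.ext (hV.map (Equiv.swap i j).injective) hV).2 fun a => ?_
  rw [Multiset.mem_map]
  constructor
  · rintro ⟨b, hb, rfl⟩
    exact key b hb
  · intro ha
    exact ⟨Equiv.swap i j a, key a ha, Equiv.swap_apply_self _ _ _⟩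

theorem swap_one (h2 : (2 : F) ≠ 0) (h3 : (3 : F) ≠ 0) (hR : ∀ d, Sat F d R) (π : FA F →ₙₐ[F] R)
    {V : Multiset ℕ} (hV : V.Nodup) {ρ : ℕ → ℕ} {i j : ℕ} (hi : i ∈ V) (hj : j ∈ V)
    (e : ρ i = ρ j) {w : FreeMagma ℕ} (hw : lets id w = V) {h : FA F} (hh : h ∈ P F V)
    (eh : ev F h = evw F (mo F w) - evw F (mo F (FreeMagma.map (Equiv.swap i j) w))) :
    π (ren F ρ h) = 0 := by
  have e1 : ev F (ren F (Equiv.swap i j) h) = - ev F h := by
    rw [ev_ren, eh, map_sub, ← evw_ren, ← evw_ren, ren_mo, ren_mo, SwapW_map_map]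
    have e2 : FreeMagma.map (fun x => Equiv.swap i j (Equiv.swap i j x)) w = w := by
      have e3 : (fun x => Equiv.swap i j (Equiv.swap i j x)) = fun x : ℕ => x :=
        funext fun x => Equiv.swap_apply_self _ _ _
      rw [e3, SwapW_map_id]
    rw [e2, neg_sub]
  have e2 : ren F (Equiv.swap i j) h ∈ P F V := by
    have h1 := ren_mem (ρ := Equiv.swap i j) hh
    rwa [SwapW_swap hV hi hj] at h1
  have e3 : ρ ∘ (Equiv.swap i j) = ρ := by
    funext x
    rw [Function.comp_apply]
    by_cases h1 : x = i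
    · rw [h1, Equiv.swap_apply_left, e]
    · by_cases h4 : x = j
      · rw [h4, Equiv.swap_apply_right, e]
      · rw [Equiv.swap_apply_of_ne_of_ne h1 h4]
  have e4 := SwapW_zero hR π hV ρ (add_mem hh e2) (by rw [map_add, e1, add_neg_cancel])
  rw [map_add, map_add, ren_ren, e3, ← two_smul F] at e4
  exact (smul_eq_zero.1 e4).resolve_left h2

/-- words of equal shape differ by a renaming of the letters -/
theorem SwapW_fun {ρ : ℕ → ℕ} (w : FreeMagma ℕ) : ∀ w' : FreeMagma ℕ, (lets id w).Nodup →
    FreeMagma.map ρ w = FreeMagma.map ρ w' →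
      ∃ f : ℕ → ℕ, FreeMagma.map f w = w' ∧ ∀ x ∈ lets id w, ρ (f x) = ρ x := by
  classical
  induction w with
  | ih1 a =>
    intro w' _ e
    cases w' with
    | of b =>
      have e1 : FreeMagma.of (ρ a) = FreeMagma.of (ρ b) := e
      injection e1 with e2
      refine ⟨fun _ => b, rfl, fun x hx => ?_⟩
      have hx' : x = a := Multiset.mem_singleton.1 hx
      rw [hx', e2]
    | mul u v =>
      exact absurd e (by
        change ¬ (FreeMagma.of (ρ a) = FreeMagma.mul (FreeMagma.map ρ u) (FreeMagma.map ρ v))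
        intro h
        cases h)
  | ih2 u v hu hv =>
    intro w' hn e
    rw [SwapW_lets_mul, Multiset.nodup_add] at hn
    cases w' with
    | of b =>
      exact absurd e (by
        change ¬ (FreeMagma.mul (FreeMagma.map ρ u) (FreeMagma.map ρ v) = FreeMagma.of (ρ b))
        intro h
        cases h)
    | mul u' v' =>
      have e1 : FreeMagma.mul (FreeMagma.map ρ u) (FreeMagma.map ρ v) =
        FreeMagma.mul (FreeMagma.map ρ u') (FreeMagma.map ρ v') := e
      injection e1 with e2 e3
      obtain ⟨f, hf, hf'⟩ := hu u' hn.1 e2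
      obtain ⟨g, hg, hg'⟩ := hv v' hn.2.1 e3
      have hd : ∀ x, x ∈ lets id u → x ∉ lets id v := fun x hx => Multiset.disjoint_left.1 hn.2.2 hx
      refine ⟨fun x => if x ∈ lets id u then f x else g x, ?_, ?_⟩
      · rw [SwapW_map_mul]
        have e4 : FreeMagma.map (fun x => if x ∈ lets id u then f x else g x) u = u' := by
          rw [← hf]
          exact SwapW_map_congr fun x hx => if_pos hx
        have e5 : FreeMagma.map (fun x => if x ∈ lets id u then f x else g x) v = v' := by
          rw [← hg]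
          exact SwapW_map_congr fun x hx => if_neg fun h => hd x h hx
        rw [e4, e5]
        rfl
      · intro x hx
        rw [SwapW_lets_mul, Multiset.mem_add] at hx
        by_cases h : x ∈ lets id u
        · simp only [if_pos h]
          exact hf' x h
        · simp only [if_neg h]
          exact hg' x (hx.resolve_left h)

/-- the differences of two words with the same letters are real values -/
theorem SwapW_lift (h2 : (2 : F) ≠ 0) (h3 : (3 : F) ≠ 0) {V : Multiset ℕ} (hV : V.Nodup)
    (hc : 4 ≤ V.card) {w w' : FreeMagma ℕ} (hw : lets id w = V) (hw' : lets id w' = V) :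
    ∃ h ∈ P F V, ev F h = evw F (mo F w) - evw F (mo F w') := by
  have h1 := L5_word (F := F) h2 h3 (u := w) (v := w') (by rw [hw]; exact hV)
    (by rw [hw]; exact hc) (by rw [hw, hw'])
  rw [hw] at h1
  obtain ⟨h, hh, e⟩ := h1
  exact ⟨h, LP_le V hh, e⟩

theorem SwapW_chain (h2 : (2 : F) ≠ 0) (h3 : (3 : F) ≠ 0) (hR : ∀ d, Sat F d R)
    (π : FA F →ₙₐ[F] R) {V : Multiset ℕ} (hV : V.Nodup) (hc : 4 ≤ V.card) {ρ : ℕ → ℕ}
    {w : FreeMagma ℕ} (hw : lets id w = V) (N : ℕ) : ∀ (f : ℕ → ℕ) (w' : FreeMagma ℕ),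
    (V.toFinset.filter fun x => f x ≠ x).card ≤ N → FreeMagma.map f w = w' → lets id w' = V →
    (∀ x ∈ V, ρ (f x) = ρ x) → ∀ h ∈ P F V, ev F h = evw F (mo F w) - evw F (mo F w') →
    π (ren F ρ h) = 0 := by
  induction N with
  | zero =>
    intro f w' hN hf hw' _ h hh eh
    have h1 : ∀ x ∈ V, f x = x := by
      intro x hx
      by_contra hne
      have h4 : x ∈ V.toFinset.filter fun x => f x ≠ x :=
        Finset.mem_filter.2 ⟨Multiset.mem_toFinset.2 hx, hne⟩
      rw [Finset.card_eq_zero.1 (Nat.le_zero.1 hN)] at h4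
      exact absurd h4 (Finset.notMem_empty x)
    have h4 : w' = w := by
      rw [← hf]
      have h5 : FreeMagma.map f w = FreeMagma.map (fun x => x) w :=
        SwapW_map_congr fun x hx => h1 x (by rw [← hw]; exact hx)
      rw [h5, SwapW_map_id]
    refine SwapW_zero hR π hV ρ hh ?_
    rw [eh, h4, sub_self]
  | succ N ih =>
    intro f w' hN hf hw' hρ h hh eh
    by_cases hall : ∀ x ∈ V, f x = x
    · refine ih f w' ?_ hf hw' hρ h hh eh
      have h4 : (V.toFinset.filter fun x => f x ≠ x) = ∅ := by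
        refine Finset.filter_eq_empty_iff.2 fun x hx => ?_
        rw [not_not]
        exact hall x (Multiset.mem_toFinset.1 hx)
      rw [h4, Finset.card_empty]
      exact Nat.zero_le N
    · push Not at hall
      obtain ⟨x, hx, hfx⟩ := hall
      have hVf : V.map f = V := by
        have h4 := SwapW_lets_map f w
        rw [hf, hw', hw] at h4
        exact h4.symm
      have hfxV : f x ∈ V := by
        have h4 := Multiset.mem_map_of_mem f hx
        rwa [hVf] at h4
      have hinj : ∀ a ∈ V, ∀ b ∈ V, f a = f b → a = b := by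
        intro a ha b hb hab
        exact Multiset.inj_on_of_nodup_map (by rw [hVf]; exact hV) a ha b hb hab
      obtain ⟨w1, hw1⟩ : ∃ w1, w1 = FreeMagma.map (Equiv.swap x (f x)) w' := ⟨_, rfl⟩
      have hw1' : FreeMagma.map (fun y => Equiv.swap x (f x) (f y)) w = w1 := by
        rw [hw1, ← hf, SwapW_map_map]
      have hw1V : lets id w1 = V := by
        rw [hw1, SwapW_lets_map, hw', SwapW_swap hV hx hfxV]
      have hw1w' : FreeMagma.map (Equiv.swap x (f x)) w1 = w' := by
        rw [hw1, SwapW_map_map]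
        have e3 : (fun y => Equiv.swap x (f x) (Equiv.swap x (f x) y)) = fun y : ℕ => y :=
          funext fun y => Equiv.swap_apply_self _ _ _
        rw [e3, SwapW_map_id]
      have hsw : ∀ y, ρ (Equiv.swap x (f x) y) = ρ y := by
        intro y
        by_cases h1 : y = x
        · rw [h1, Equiv.swap_apply_left, hρ x hx]
        · by_cases h4 : y = f x
          · rw [h4, Equiv.swap_apply_right, hρ x hx]
          · rw [Equiv.swap_apply_of_ne_of_ne h1 h4]
      have hcard : (V.toFinset.filter fun y => Equiv.swap x (f x) (f y) ≠ y).card ≤ N := by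
        have h4 : (V.toFinset.filter fun y => Equiv.swap x (f x) (f y) ≠ y) ⊆
            (V.toFinset.filter fun y => f y ≠ y).erase x := by
          intro y hy
          rw [Finset.mem_filter, Multiset.mem_toFinset] at hy
          rw [Finset.mem_erase, Finset.mem_filter, Multiset.mem_toFinset]
          have hyx : y ≠ x := by
            rintro rfl
            exact hy.2 (Equiv.swap_apply_right _ _)
          refine ⟨hyx, hy.1, fun hfy => hy.2 ?_⟩
          rw [hfy]
          refine Equiv.swap_apply_of_ne_of_ne hyx fun h5 => hyx ?_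
          exact hinj y hy.1 x hx (by rw [hfy, ← h5])
        have h5 : x ∈ V.toFinset.filter fun y => f y ≠ y :=
          Finset.mem_filter.2 ⟨Multiset.mem_toFinset.2 hx, hfx⟩
        have h6 := Finset.card_le_card h4
        rw [Finset.card_erase_of_mem h5] at h6
        omega
      obtain ⟨g, hg, hge⟩ := SwapW_lift (F := F) h2 h3 hV hc hw hw1V
      have h4 := ih _ w1 hcard hw1' hw1V (fun y hy => by rw [hsw, hρ y hy]) g hg hge
      have h5 := swap_one h2 h3 hR π hV hx hfxV (hρ x hx).symm hw1V
        (h := h - g) (sub_mem hh hg) (by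
          rw [hw1w', map_sub, eh, hge]
          abel)
      rw [map_sub, map_sub, h4, sub_zero] at h5
      exact h5

theorem swap_chain (h2 : (2 : F) ≠ 0) (h3 : (3 : F) ≠ 0) (hR : ∀ d, Sat F d R)
    (π : FA F →ₙₐ[F] R) {V : Multiset ℕ} (hV : V.Nodup) (hc : 4 ≤ V.card) {ρ : ℕ → ℕ}
    {w w' : FreeMagma ℕ} (hw : lets id w = V) (hw' : lets id w' = V)
    (e : FreeMagma.map ρ w = FreeMagma.map ρ w') {h : FA F} (hh : h ∈ P F V)
    (eh : ev F h = evw F (mo F w) - evw F (mo F w')) : π (ren F ρ h) = 0 := by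
  obtain ⟨f, hf, hf'⟩ := SwapW_fun w w' (by rw [hw]; exact hV) e
  rw [hw] at hf'
  exact SwapW_chain h2 h3 hR π hV hc hw _ f w' le_rfl hf hw' hf' h hh eh

theorem swapW (h2 : (2 : F) ≠ 0) (h3 : (3 : F) ≠ 0) (hR : ∀ d, Sat F d R) (π : FA F →ₙₐ[F] R)
    {V : Multiset ℕ} (hV : V.Nodup) (hc : 4 ≤ V.card) {ρ : ℕ → ℕ} {d h : FA F} (hd : d ∈ P F V)
    (hd0 : ren F ρ d = 0) (hh : h ∈ P F V) (e : ev F h = evw F d) : π (ren F ρ h) = 0 := by
  classical
  have hrep : ∀ u : FreeMagma ℕ, ∃ w : FreeMagma ℕ, (∃ w0 : FreeMagma ℕ, lets id w0 = V ∧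
      FreeMagma.map ρ w0 = u) → lets id w = V ∧ FreeMagma.map ρ w = u := by
    intro u
    by_cases hu : ∃ w0 : FreeMagma ℕ, lets id w0 = V ∧ FreeMagma.map ρ w0 = u
    · obtain ⟨w0, hw0⟩ := hu
      exact ⟨w0, fun _ => hw0⟩
    · exact ⟨u, fun h => absurd h hu⟩
  choose r hr using hrep
  have key : ∃ g ∈ P F V, ev F g = evw F (d - linMo F (fun u => mo F (r u)) (ren F ρ d)) ∧
      π (ren F ρ g) = 0 := by
    refine PP_induction id (p := fun d => ∃ g ∈ P F V,
      ev F g = evw F (d - linMo F (fun u => mo F (r u)) (ren F ρ d)) ∧ π (ren F ρ g) = 0)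
      ?_ ?_ ?_ ?_ hd
    · refine ⟨0, zero_mem _, ?_, ?_⟩
      · rw [map_zero, map_zero, map_zero, sub_zero, map_zero]
      · rw [map_zero, map_zero]
    · rintro a b ⟨g, hg, eg, eg'⟩ ⟨g', hg', eg1, eg2⟩
      refine ⟨g + g', add_mem hg hg', ?_, ?_⟩
      · rw [map_add (ev F), eg, eg1, map_add (ren F ρ), map_add (linMo F _), ← map_add (evw F)]
        congr 1
        abel
      · rw [map_add, map_add, eg', eg2, add_zero]
    · rintro k a ⟨g, hg, eg, eg'⟩
      refine ⟨k • g, Submodule.smul_mem _ _ hg, ?_, ?_⟩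
      · rw [map_smul (ev F), eg, map_smul (ren F ρ), map_smul (linMo F _), ← smul_sub,
          map_smul (evw F)]
      · rw [map_smul, map_smul, eg', smul_zero]
    · intro w hw
      obtain ⟨h4, h5⟩ := hr (FreeMagma.map ρ w) ⟨w, hw, rfl⟩
      obtain ⟨g, hg, hge⟩ := SwapW_lift (F := F) h2 h3 hV hc hw h4
      refine ⟨g, hg, ?_, swap_chain h2 h3 hR π hV hc hw h4 h5.symm hg hge⟩
      rw [ren_mo, linMo_mo, map_sub, hge]
  obtain ⟨g, hg, eg, eg'⟩ := key
  rw [hd0, map_zero, sub_zero] at eg
  have h6 := SwapW_zero hR π hV ρ (sub_mem hh hg) (by rw [map_sub, e, eg, sub_self])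
  rw [map_sub, map_sub, eg', sub_zero] at h6
  exact h6

end Pool.Agent.OB
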