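import Pool.Agent.OB.WD

/-!
# The operators T_x: multiplication by words, commutation  (module TOps)

`T_word_left`, `T_word_right`: induction on `u` (simultaneously for the left and the right statement,
all `m`, `l`): for `u = v w`, in `Fn F` and in `R` (both alternative: `alt12_R`, `alt23_R`):
`(v w) l = v (w l) + v (l w) - (v l) w`, `l (v w) = (l v) w + (v l) w - v (l w)`; `t_x (w l) = w (t_x l)`;
`β (..) (w * (t_x l)) = π w * β (..) (t_x l)` by `beta_mul`.
`T_comm`: `l = ∑ z l_z + l'_z z` by `LR_gen` for `ρ = ev F` (`m.card ≥ 14`), and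
`T x (t_y (z l_z)) = T x (z (t_y l_z)) = π z * β (..) (t_x (t_y l_z))` is symmetric in `x, y`.
-/

set_option autoImplicit false
set_option linter.unusedSectionVars false

namespace Pool.Agent.OB

open FreeNonUnitalNonAssocAlgebra Pool.Agent.H.MP_41922c_al Pool.Agent.Smt

variable {F : Type*} [Field F] {R : Type*} [NonUnitalNonAssocRing R] [Module F R]
  [IsScalarTower F R R] [SMulCommClass F R R]
variable {π : FA F →ₙₐ[F] R} {V : Multiset ℕ} {β : Multiset ℕ → Fn F →ₗ[F] R}

/-- a family of operators `T x`, `x ∈ V` -/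
def IsTT (π : FA F →ₙₐ[F] R) (V : Multiset ℕ) (β : Multiset ℕ → Fn F →ₗ[F] R)
    (T : ℕ → Fn F →ₗ[F] R) : Prop := ∀ x ∈ V, IsT π V β x (T x)

theorem exists_TT (h : Ctx π V) (h10 : ((Nat.factorial 10 : ℕ) : F) ≠ 0) (hβ : IsBeta π V β) :
    ∃ T, IsTT π V β T := by
  have key : ∀ x, ∃ S : Fn F →ₗ[F] R, x ∈ V → IsT π V β x S := by
    intro x
    by_cases hx : x ∈ V
    · obtain ⟨S, hS⟩ := exists_T h h10 hβ hx
      exact ⟨S, fun _ => hS⟩
    · exact ⟨0, fun hx' => absurd hx' hx⟩
  choose T hT using key
  exact ⟨T, fun x hx => hT x hx⟩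

variable {T : ℕ → Fn F →ₗ[F] R}

theorem TOps_alt_left {A : Type*} [NonUnitalNonAssocRing A]
    (h12 : ∀ a b c : A, associator a b c = -associator b a c)
    (h23 : ∀ a b c : A, associator a b c = -associator a c b) (v w l : A) :
    (v * w) * l = v * (w * l) + v * (l * w) - (v * l) * w := by
  have h1 := h23 v w l
  simp only [associator_apply] at h1
  linear_combination (norm := abel) h1

theorem TOps_alt_right {A : Type*} [NonUnitalNonAssocRing A]
    (h12 : ∀ a b c : A, associator a b c = -associator b a c)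
    (h23 : ∀ a b c : A, associator a b c = -associator a c b) (v w l : A) :
    l * (v * w) = (l * v) * w + (v * l) * w - v * (l * w) := by
  have h1 := h12 l v w
  simp only [associator_apply] at h1
  linear_combination (norm := abel) -h1

theorem TOps_nodup (h : Ctx π V) {s m : Multiset ℕ} (e : s + m = V) : s.Nodup ∧ m.Nodup := by
  have h1 := h.nodup
  rw [← e] at h1
  exact ⟨(Multiset.nodup_add.1 h1).1, (Multiset.nodup_add.1 h1).2.1⟩

theorem TOps_card (w : FreeMagma ℕ) : 0 < (lets id w).card :=
  Multiset.card_pos.2 (lets_ne id w)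

/-- `β` of a product with a word -/
theorem TOps_beta (h : Ctx π V) (hβ : IsBeta π V β) {x : ℕ} (w : FreeMagma ℕ) {k m : Multiset ℕ}
    (e : k + ({x} + lets id w + m) = V) (hk : 0 < k.card) {l : Fn F} (hl : l ∈ LF F m) :
    β ({x} + (lets id w + m)) (tX F x * (ev F (mo F w) * l)) =
        π (mo F w) * β ({x} + m) (tX F x * l) ∧
      β ({x} + (lets id w + m)) (tX F x * (l * ev F (mo F w))) =
        β ({x} + m) (tX F x * l) * π (mo F w) := by
  have hn := (TOps_nodup h e).2
  have hc : ({x} + lets id w + m).card < V.card := by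
    rw [← e, Multiset.card_add k]
    omega
  have e1 : lets id w + ({x} + m) = {x} + lets id w + m := by abel
  have e2 : ({x} + m) + lets id w = {x} + lets id w + m := by abel
  have e3 : {x} + (lets id w + m) = lets id w + ({x} + m) := by abel
  have e4 : {x} + (lets id w + m) = ({x} + m) + lets id w := by abel
  have hw : ev F (mo F w) ∈ UU F (lets id w) := ⟨mo F w, mo_mem id w, rfl⟩
  have ht : tX F x * l ∈ UU F ({x} + m) := LF_le_UU _ (tX_LF h.two h.three x hl)
  have hn1 : (lets id w).Nodup := by
    rw [← e1] at hn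
    exact (Multiset.nodup_add.1 hn).1
  have hc1 : (lets id w).card < V.card := by
    refine lt_of_le_of_lt ?_ hc
    rw [← e1, Multiset.card_add (lets id w)]
    omega
  have hb := hβ (lets id w) hn1 hc1 (mo F w) (mo_mem id w)
  constructor
  · have h1 : tX F x * (ev F (mo F w) * l) = ev F (mo F w) * (tX F x * l) := by
      rw [← ((isSc_tX x).assoc (ev F (mo F w)) l).1, (isSc_tX x).comm (ev F (mo F w)),
        ((isSc_tX x).assoc (ev F (mo F w)) l).2.1]
    have hn' : (lets id w + ({x} + m)).Nodup := by rw [e1]; exact hn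
    have hc' : (lets id w + ({x} + m)).card < V.card := by rw [e1]; exact hc
    have h2 := beta_mul h hβ hn' hc' hw ht
    rw [hb] at h2
    rw [h1, e3]
    exact h2
  · have h1 : tX F x * (l * ev F (mo F w)) = (tX F x * l) * ev F (mo F w) := by
      rw [((isSc_tX x).assoc l (ev F (mo F w))).1]
    have hn' : (({x} + m) + lets id w).Nodup := by rw [e2]; exact hn
    have hc' : (({x} + m) + lets id w).card < V.card := by rw [e2]; exact hc
    have h2 := beta_mul h hβ hn' hc' ht hw
    rw [hb] at h2
    rw [h1, e4]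
    exact h2

theorem TOps_word (h : Ctx π V) (hβ : IsBeta π V β) (hT : IsTT π V β T) {x : ℕ}
    (u : FreeMagma ℕ) : ∀ (m : Multiset ℕ), {x} + lets id u + m = V → ∀ l ∈ LF F m,
    T x (ev F (mo F u) * l) = π (mo F u) * β ({x} + m) (tX F x * l) ∧
    T x (l * ev F (mo F u)) = β ({x} + m) (tX F x * l) * π (mo F u) := by
  have hR := h.sat
  induction u with
  | ih1 y =>
    intro m e l hl
    have e0 : x ::ₘ y ::ₘ m = V := by
      rw [← e, add_assoc, Multiset.singleton_add]
      congr 1
    have hx : x ∈ V := by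
      rw [← e0]
      exact Multiset.mem_cons_self x _
    have e1 : V.erase x = y ::ₘ m := by rw [← e0, Multiset.erase_cons_head]
    have hy : y ∈ V.erase x := by
      rw [e1]
      exact Multiset.mem_cons_self y m
    have e2 : (V.erase x).erase y = m := by rw [e1, Multiset.erase_cons_head]
    have e3 : V.erase y = {x} + m := by
      rw [← e0, Multiset.cons_swap, Multiset.erase_cons_head, Multiset.singleton_add]
    have h1 := hT x hx y hy l (by rw [e2]; exact hl)
    rw [e3] at h1
    have h2 : ev F (mo F (FreeMagma.of y)) = XX F y := ev_of y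
    rw [h2]
    exact h1
  | ih2 v w hv hw =>
    intro m e l hl
    have e0 : lets id (v * w) = lets id v + lets id w := rfl
    rw [e0] at e
    have ev1 : {x} + lets id v + (lets id w + m) = V := by rw [← e]; abel
    have ew1 : {x} + lets id w + (lets id v + m) = V := by rw [← e]; abel
    have kv : lets id v + ({x} + lets id w + m) = V := by rw [← e]; abel
    have kw : lets id w + ({x} + lets id v + m) = V := by rw [← e]; abel
    have hwl : ev F (mo F w) * l ∈ LF F (lets id w + m) :=
      LR_mul_left (ev F) h.two h.three (sat_Fn 9) (mo_mem id w) hl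
    have hlw : l * ev F (mo F w) ∈ LF F (lets id w + m) :=
      LR_mul_right (ev F) h.two h.three (sat_Fn 9) (mo_mem id w) hl
    have hvl : ev F (mo F v) * l ∈ LF F (lets id v + m) :=
      LR_mul_left (ev F) h.two h.three (sat_Fn 9) (mo_mem id v) hl
    have hlv : l * ev F (mo F v) ∈ LF F (lets id v + m) :=
      LR_mul_right (ev F) h.two h.three (sat_Fn 9) (mo_mem id v) hl
    have bw := TOps_beta h hβ (x := x) w kv (TOps_card v) hl
    have bv := TOps_beta h hβ (x := x) v kw (TOps_card w) hl
    have m1 : ev F (mo F (v * w)) = ev F (mo F v) * ev F (mo F w) :=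
      map_mul (ev F) (mo F v) (mo F w)
    have m2 : π (mo F (v * w)) = π (mo F v) * π (mo F w) := map_mul π (mo F v) (mo F w)
    have f12 := fun a b c : Fn F => alt12_R (sat_Fn (F := F) 9) a b c
    have f23 := fun a b c : Fn F => alt23_R (sat_Fn (F := F) 9) a b c
    have r12 := fun a b c : R => alt12_R hR a b c
    have r23 := fun a b c : R => alt23_R hR a b c
    have t1 := hv _ ev1 _ hwl
    have t2 := hv _ ev1 _ hlw
    have t3 := hw _ ew1 _ hvl
    have t4 := hw _ ew1 _ hlv
    rw [bw.1] at t1
    rw [bw.2] at t2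
    rw [bv.1] at t3
    rw [bv.2] at t4
    rw [m1, m2]
    constructor
    · rw [TOps_alt_left f12 f23, map_sub, map_add, t1.1, t2.1, t3.2,
        TOps_alt_left r12 r23 (π (mo F v)) (π (mo F w))]
    · rw [TOps_alt_right f12 f23, map_sub, map_add, t4.2, t3.2, t2.1,
        TOps_alt_right r12 r23 (π (mo F v)) (π (mo F w))]

theorem T_word_left (h : Ctx π V) (hβ : IsBeta π V β) (hT : IsTT π V β T) {x : ℕ}
    (u : FreeMagma ℕ) {m : Multiset ℕ} (e : {x} + lets id u + m = V) {l : Fn F}
    (hl : l ∈ LF F m) :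
    T x (ev F (mo F u) * l) = π (mo F u) * β ({x} + m) (tX F x * l) :=
  (TOps_word h hβ hT u m e l hl).1

theorem T_word_right (h : Ctx π V) (hβ : IsBeta π V β) (hT : IsTT π V β T) {x : ℕ}
    (u : FreeMagma ℕ) {m : Multiset ℕ} (e : {x} + lets id u + m = V) {l : Fn F}
    (hl : l ∈ LF F m) :
    T x (l * ev F (mo F u)) = β ({x} + m) (tX F x * l) * π (mo F u) :=
  (TOps_word h hβ hT u m e l hl).2

/-- `T x (t_y (z l))` and `T x (t_y (l z))` -/
theorem TOps_two (h : Ctx π V) (hT : IsTT π V β T) {x y z : ℕ} {m : Multiset ℕ}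
    (e : {x} + {y} + m = V) (hz : z ∈ m) {l : Fn F} (hl : l ∈ LF F (m.erase z)) :
    T x (tX F y * (XX F z * l)) = π (of F z) * β (V.erase z) (tX F x * (tX F y * l)) ∧
    T x (tX F y * (l * XX F z)) = β (V.erase z) (tX F x * (tX F y * l)) * π (of F z) := by
  have e0 : x ::ₘ y ::ₘ m = V := by
    rw [← e, add_assoc, Multiset.singleton_add, Multiset.singleton_add]
  have hx : x ∈ V := by
    rw [← e0]
    exact Multiset.mem_cons_self x _
  have e1 : V.erase x = y ::ₘ m := by rw [← e0, Multiset.erase_cons_head]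
  have hn : (y ::ₘ m).Nodup := by
    have h1 := h.nodup
    rw [← e0] at h1
    exact (Multiset.nodup_cons.1 h1).2
  have hzy : z ≠ y := by
    rintro rfl
    exact (Multiset.nodup_cons.1 hn).1 hz
  have hz1 : z ∈ V.erase x := by
    rw [e1]
    exact Multiset.mem_cons_of_mem hz
  have e2 : (V.erase x).erase z = {y} + m.erase z := by
    rw [e1, Multiset.erase_cons_tail _ (Ne.symm hzy), Multiset.singleton_add]
  have hl' : tX F y * l ∈ LF F ((V.erase x).erase z) := by
    rw [e2]
    exact tX_LF h.two h.three y hl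
  have h1 := hT x hx z hz1 _ hl'
  have h2 : tX F y * (XX F z * l) = XX F z * (tX F y * l) := by
    rw [← ((isSc_tX y).assoc (XX F z) l).1, (isSc_tX y).comm (XX F z),
      ((isSc_tX y).assoc (XX F z) l).2.1]
  have h3 : tX F y * (l * XX F z) = (tX F y * l) * XX F z := by
    rw [((isSc_tX y).assoc l (XX F z)).1]
  rw [h2, h3]
  exact h1

theorem T_comm (h : Ctx π V) (hβ : IsBeta π V β) (hT : IsTT π V β T) {x y : ℕ}
    {m : Multiset ℕ} (e : {x} + {y} + m = V) {l : Fn F} (hl : l ∈ LF F m) :
    T x (tX F y * l) = T y (tX F x * l) := by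
  have hc : 5 ≤ m.card := by
    have h1 := h.card
    rw [← e, Multiset.card_add, Multiset.card_add, Multiset.card_singleton,
      Multiset.card_singleton] at h1
    omega
  have e' : {y} + {x} + m = V := by rw [← e]; abel
  have hsw : ∀ l : Fn F, tX F x * (tX F y * l) = tX F y * (tX F x * l) := by
    intro l
    rw [← ((isSc_tX x).assoc (tX F y) l).1, (isSc_tX x).comm (tX F y),
      ((isSc_tX y).assoc (tX F x) l).1]
  have hl2 : l ∈ MR (ev F) m := LR_gen (ev F) h.two h.three (sat_Fn 9) hc hl
  refine Submodule.span_induction (p := fun l _ => T x (tX F y * l) = T y (tX F x * l))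
    ?_ ?_ ?_ ?_ hl2
  · rintro r ⟨z, hz, l', hl', hr⟩
    have h1 := TOps_two h hT e hz hl'
    have h2 := TOps_two h hT e' hz hl'
    rw [ev_of] at hr
    rcases hr with hr | hr
    · rw [← hr, h1.1, h2.1, hsw]
    · rw [← hr, h1.2, h2.2, hsw]
  · rw [mul_zero, mul_zero, map_zero, map_zero]
  · intro a b _ _ ha hb
    rw [mul_add, mul_add, map_add, map_add, ha, hb]
  · intro k a _ ha
    rw [mul_smul_comm, mul_smul_comm, map_smul, map_smul, ha]

end Pool.Agent.OB
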