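import Pool.Agent.OB.TOps

/-!
# Traces of words as operators  (module Tr)

`Tr u` is the multiplication by the trace `t(u)` of the word `u` into the top degree. Real identity:
`t(u v) = t(u) t(v) - t(v) u - t(u) v + u ∘ v`.

`Tr_left` (induction on `u`, all `v, m, l`): `u = x`: `T_word_left`. `u = u₁ u₂`:
`Tr (u₁ u₂) (v l) = Tr u₂ (t(u₁) (v l)) - u₁ β(t(u₂) (v l)) - u₂ β(t(u₁) (v l)) + (u₁ ∘ u₂) β(v l)`; the
first term is `v β(t(u₂) t(u₁) l)` by induction (for `t(u₁) l ∈ LF`), the other three are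
`- v β(u₁ t(u₂) l + u₂ t(u₁) l - (u₁ ∘ u₂) l)` by `q_left`. `Tr_right` the same with `q_right`.
`Tr_comm`: first `u = x`, induction on `v`; then induction on `u`: for `u = u₁ u₂`,
`Tr (u₁ u₂) (t(v) l) = Tr u₂ (t(u₁) t(v) l) - u₁ β(t(u₂) t(v) l) - u₂ β(t(u₁) t(v) l) + (u₁ ∘ u₂) β(t(v) l)`, and
`Tr v (t(u₁ u₂) l) = Tr v (t(u₁) t(u₂) l) - Tr v (u₁ (t(u₂) l)) - Tr v (u₂ (t(u₁) l)) + Tr v ((u₁ ∘ u₂) l)`;
compare by induction and `Tr_left`. `Tr_mul_right`: `q_comm`. All functions `t(u) l`, `u l` with `l ∈ LF`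
are in `LF` (`AF_mul_LF`, `LF_mul_AF`; `trf (ev F (mo F u)) ∈ AF F (lets id u)` by `AF_star`).
-/

set_option autoImplicit false
set_option linter.unusedSectionVars false

namespace Pool.Agent.OB

open FreeNonUnitalNonAssocAlgebra Pool.Agent.H.MP_41922c_al Pool.Agent.Smt

variable {F : Type*} [Field F] {R : Type*} [NonUnitalNonAssocRing R] [Module F R]
  [IsScalarTower F R R] [SMulCommClass F R R]

/-- multiplication by a function on the left -/
noncomputable abbrev muL (a : Fn F) : Fn F →ₗ[F] Fn F := LinearMap.mulLeft F a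

/-- multiplication by a function on the right -/
noncomputable abbrev muR (a : Fn F) : Fn F →ₗ[F] Fn F := LinearMap.mulRight F a

/-- the trace of a word as an operator into the top degree -/
noncomputable def Tr (π : FA F →ₙₐ[F] R) (V : Multiset ℕ) (β : Multiset ℕ → Fn F →ₗ[F] R)
    (T : ℕ → Fn F →ₗ[F] R) : FreeMagma ℕ → Fn F →ₗ[F] R
  | .of x => T x
  | .mul u v =>
      Tr π V β T v ∘ₗ muL (trf (ev F (mo F u)))
        - LinearMap.mulLeft F (π (mo F u)) ∘ₗ β (V - lets id u) ∘ₗ muL (trf (ev F (mo F v)))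
        - LinearMap.mulLeft F (π (mo F v)) ∘ₗ β (V - lets id v) ∘ₗ muL (trf (ev F (mo F u)))
        + LinearMap.mulLeft F (π (jor (mo F u) (mo F v))) ∘ₗ β (V - lets id u - lets id v)

variable {π : FA F →ₙₐ[F] R} {V : Multiset ℕ} {β : Multiset ℕ → Fn F →ₗ[F] R}
  {T : ℕ → Fn F →ₗ[F] R}

theorem Tr_of (x : ℕ) (l : Fn F) : Tr π V β T (.of x) l = T x l := rfl

theorem Tr_mul (u v : FreeMagma ℕ) (l : Fn F) : Tr π V β T (u * v) l =
    Tr π V β T v (trf (ev F (mo F u)) * l)
      - π (mo F u) * β (V - lets id u) (trf (ev F (mo F v)) * l)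
      - π (mo F v) * β (V - lets id v) (trf (ev F (mo F u)) * l)
      + π (jor (mo F u) (mo F v)) * β (V - lets id u - lets id v) l := rfl

theorem Tr_tt (x y : Oc F) : tt (x * y) = tt x * tt y - tt (x * star y) := by
  have h := add_star y
  have h1 : star y = tt y • (1 : Oc F) - y := by rw [← h, add_sub_cancel_left]
  rw [h1, mul_sub, Oct_tt_sub, mul_smul_comm, mul_one, tt_smul]
  ring

/-- `t(u v) = t(u) t(v) - t(v) u - t(u) v + u ∘ v` -/
theorem trf_mul (a b : Fn F) : trf (a * b) = trf a * trf b - trf b * a - trf a * b + jor a b := by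
  have ht : ∀ (c : Fn F) (v : ℕ → Oc F), trf c v = tt (c v) • (1 : Oc F) := fun c v => add_star (c v)
  funext v
  have hj : jor a b v = jor (a v) (b v) := rfl
  simp only [Pi.add_apply, Pi.sub_apply, Pi.mul_apply, ht, hj, jor_oc, smul_mul_assoc,
    mul_smul_comm, one_mul, mul_one]
  rw [Tr_tt (a v) (b v)]
  module

/-- the real identity for `t(a b) l` -/
theorem Tr_real (a b l : Fn F) : trf (a * b) * l = trf b * (trf a * l) -
    (a * (trf b * l) + b * (trf a * l) - jor a b * l) := by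
  have ht : ∀ (c : Fn F) (v : ℕ → Oc F), trf c v = tt (c v) • (1 : Oc F) := fun c v => add_star (c v)
  rw [trf_mul]
  funext v
  simp only [Pi.add_apply, Pi.sub_apply, Pi.mul_apply, ht, smul_mul_assoc,
    mul_smul_comm, one_mul, mul_one, sub_mul, add_mul]
  module

theorem Tr_swap (a b l : Fn F) : trf a * (b * l) = b * (trf a * l) := by
  have ht : ∀ (c : Fn F) (v : ℕ → Oc F), trf c v = tt (c v) • (1 : Oc F) := fun c v => add_star (c v)
  funext v
  simp only [Pi.mul_apply, ht, smul_mul_assoc, mul_smul_comm, one_mul]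

theorem Tr_swap' (a b l : Fn F) : trf a * (l * b) = (trf a * l) * b := by
  have ht : ∀ (c : Fn F) (v : ℕ → Oc F), trf c v = tt (c v) • (1 : Oc F) := fun c v => add_star (c v)
  funext v
  simp only [Pi.mul_apply, ht, smul_mul_assoc, one_mul]

theorem Tr_lets (u v : FreeMagma ℕ) : lets id (u * v) = lets id u + lets id v := rfl

theorem Tr_ev (u v : FreeMagma ℕ) : ev F (mo F (u * v)) = ev F (mo F u) * ev F (mo F v) :=
  map_mul (ev F) (mo F u) (mo F v)

theorem Tr_ev_of (x : ℕ) : trf (ev F (mo F (FreeMagma.of x))) = tX F x := by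
  have h : ev F (mo F (FreeMagma.of x)) = XX F x := ev_of x
  rw [h]
  rfl

theorem Tr_mem (h : Ctx π V) (u : FreeMagma ℕ) {m : Multiset ℕ} {l : Fn F} (hl : l ∈ LF F m) :
    trf (ev F (mo F u)) * l ∈ LF F (lets id u + m) := by
  have h1 : ev F (mo F u) ∈ AF F (lets id u) := UU_le_AF _ ⟨mo F u, mo_mem id u, rfl⟩
  exact AF_mul_LF h.two h.three (Submodule.add_mem _ h1 (AF_star h1)) hl

theorem Tr_cast {m n : Multiset ℕ} {l : Fn F} (hl : l ∈ LF F m) (e : m = n) : l ∈ LF F n := e ▸ hl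

theorem Tr_sub {a b W : Multiset ℕ} (e : a + b = W) : W - a = b := by
  rw [← e]
  exact add_tsub_cancel_left a b

theorem Tr_left (h : Ctx π V) (hβ : IsBeta π V β) (hT : IsTT π V β T) (u v : FreeMagma ℕ)
    {m : Multiset ℕ} (e : lets id u + lets id v + m = V) {l : Fn F} (hl : l ∈ LF F m) :
    Tr π V β T u (ev F (mo F v) * l) =
      π (mo F v) * β (lets id u + m) (trf (ev F (mo F u)) * l) := by
  induction u generalizing m l with
  | ih1 x =>
    have h1 := T_word_left h hβ hT (x := x) v e hl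
    rw [Tr_ev_of]
    exact h1
  | ih2 u₁ u₂ _ ih₂ =>
    rw [Tr_lets] at e
    have e2 : lets id u₂ + lets id v + (lets id u₁ + m) = V := by rw [← e]; abel
    have e3 : lets id u₁ + (lets id u₂ + lets id v + m) = V := by rw [← e]; abel
    have e4 : lets id u₂ + (lets id u₁ + lets id v + m) = V := by rw [← e]; abel
    have h1 := ih₂ e2 (Tr_mem h u₁ hl)
    have h2 := q_left h hβ u₁ u₂ v e hl
    rw [Tr_mul, Tr_swap, Tr_swap, Tr_sub e3, Tr_sub e4,
      Tr_sub (add_assoc (lets id u₂) (lets id v) m).symm, h1, Tr_lets, Tr_ev,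
      Tr_real, map_sub, mul_sub, ← h2]
    have e6 : lets id u₂ + (lets id u₁ + m) = lets id u₁ + lets id u₂ + m := by abel
    rw [e6]
    abel

theorem Tr_right (h : Ctx π V) (hβ : IsBeta π V β) (hT : IsTT π V β T) (u v : FreeMagma ℕ)
    {m : Multiset ℕ} (e : lets id u + lets id v + m = V) {l : Fn F} (hl : l ∈ LF F m) :
    Tr π V β T u (l * ev F (mo F v)) =
      β (lets id u + m) (trf (ev F (mo F u)) * l) * π (mo F v) := by
  induction u generalizing m l with
  | ih1 x =>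
    have h1 := T_word_right h hβ hT (x := x) v e hl
    rw [Tr_ev_of]
    exact h1
  | ih2 u₁ u₂ _ ih₂ =>
    rw [Tr_lets] at e
    have e2 : lets id u₂ + lets id v + (lets id u₁ + m) = V := by rw [← e]; abel
    have e3 : lets id u₁ + (lets id u₂ + lets id v + m) = V := by rw [← e]; abel
    have e4 : lets id u₂ + (lets id u₁ + lets id v + m) = V := by rw [← e]; abel
    have h1 := ih₂ e2 (Tr_mem h u₁ hl)
    have h2 := q_right h hβ u₁ u₂ v e hl
    rw [Tr_mul, Tr_swap', Tr_swap', Tr_sub e3, Tr_sub e4,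
      Tr_sub (add_assoc (lets id u₂) (lets id v) m).symm, h1, Tr_lets, Tr_ev,
      Tr_real, map_sub, sub_mul, ← h2]
    have e6 : lets id u₂ + (lets id u₁ + m) = lets id u₁ + lets id u₂ + m := by abel
    rw [e6]
    abel

/-- the step of the inductions for `Tr_comm` -/
theorem Tr_step (h : Ctx π V) (hβ : IsBeta π V β) (hT : IsTT π V β T) (w u₁ u₂ : FreeMagma ℕ)
    {m : Multiset ℕ} (e : lets id w + (lets id u₁ + lets id u₂) + m = V) {l : Fn F}
    (hl : l ∈ LF F m)
    (ih : Tr π V β T w (trf (ev F (mo F u₂)) * (trf (ev F (mo F u₁)) * l)) =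
      Tr π V β T u₂ (trf (ev F (mo F w)) * (trf (ev F (mo F u₁)) * l))) :
    Tr π V β T w (trf (ev F (mo F (u₁ * u₂))) * l) =
      Tr π V β T (u₁ * u₂) (trf (ev F (mo F w)) * l) := by
  have e3 : lets id u₁ + (lets id w + (lets id u₂ + m)) = V := by rw [← e]; abel
  have e4 : lets id u₂ + (lets id w + (lets id u₁ + m)) = V := by rw [← e]; abel
  have e5 : lets id u₂ + (lets id w + m) = lets id w + (lets id u₂ + m) := by abel
  have e6 : lets id w + lets id u₁ + (lets id u₂ + m) = V := by rw [← e]; abel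
  have e7 : lets id w + lets id u₂ + (lets id u₁ + m) = V := by rw [← e]; abel
  have e8 : lets id w + lets id (u₁ * u₂) + m = V := e
  have e9 : lets id w + lets id (u₂ * u₁) + m = V := by
    rw [Tr_lets, ← e]; abel
  have h1 := Tr_left h hβ hT w u₁ e6 (Tr_mem h u₂ hl)
  have h2 := Tr_left h hβ hT w u₂ e7 (Tr_mem h u₁ hl)
  have h3 := Tr_left h hβ hT w (u₁ * u₂) e8 hl
  have h4 := Tr_left h hβ hT w (u₂ * u₁) e9 hl
  have h5 : jor (ev F (mo F u₁)) (ev F (mo F u₂)) * l =
      ev F (mo F (u₁ * u₂)) * l + ev F (mo F (u₂ * u₁)) * l := by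
    rw [Tr_ev, Tr_ev, ← add_mul]
    rfl
  have h6 : π (jor (mo F u₁) (mo F u₂)) = π (mo F (u₁ * u₂)) + π (mo F (u₂ * u₁)) := by
    rw [← map_add]
    rfl
  rw [Tr_ev, Tr_real, h5, map_sub, map_sub, map_add, map_add, ih, h1, h2, h3, h4, Tr_mul,
    Tr_swap (ev F (mo F u₁)) (trf (ev F (mo F w))), Tr_sub e3, Tr_sub e4, Tr_sub e5, h6,
    Tr_swap (ev F (mo F w)) (trf (ev F (mo F u₂))), Tr_swap (ev F (mo F w)) (trf (ev F (mo F u₁))),
    add_mul]
  abel

theorem Tr_comm (h : Ctx π V) (hβ : IsBeta π V β) (hT : IsTT π V β T) (u v : FreeMagma ℕ)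
    {m : Multiset ℕ} (e : lets id u + lets id v + m = V) {l : Fn F} (hl : l ∈ LF F m) :
    Tr π V β T u (trf (ev F (mo F v)) * l) = Tr π V β T v (trf (ev F (mo F u)) * l) := by
  have hx : ∀ (x : ℕ) (v : FreeMagma ℕ) (m : Multiset ℕ) (l : Fn F),
      lets id (FreeMagma.of x) + lets id v + m = V → l ∈ LF F m →
      Tr π V β T (FreeMagma.of x) (trf (ev F (mo F v)) * l) =
        Tr π V β T v (trf (ev F (mo F (FreeMagma.of x))) * l) := by
    intro x v
    induction v with
    | ih1 y =>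
      intro m l e hl
      rw [Tr_ev_of, Tr_ev_of]
      exact T_comm h hβ hT e hl
    | ih2 v₁ v₂ _ ih₂ =>
      intro m l e hl
      have e2 : lets id (FreeMagma.of x) + lets id v₂ + (lets id v₁ + m) = V := by
        rw [← e, Tr_lets]; abel
      exact Tr_step h hβ hT (FreeMagma.of x) v₁ v₂ e hl (ih₂ _ _ e2 (Tr_mem h v₁ hl))
  induction u generalizing m l with
  | ih1 x => exact hx x v m l e hl
  | ih2 u₁ u₂ _ ih₂ =>
    have e2 : lets id u₂ + lets id v + (lets id u₁ + m) = V := by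
      rw [← e, Tr_lets]; abel
    have e3 : lets id v + (lets id u₁ + lets id u₂) + m = V := by
      rw [← e, Tr_lets]; abel
    exact (Tr_step h hβ hT v u₁ u₂ e3 hl (ih₂ e2 (Tr_mem h u₁ hl)).symm).symm

theorem Tr_mul_right (h : Ctx π V) (hβ : IsBeta π V β) (u v : FreeMagma ℕ) {m : Multiset ℕ}
    (e : lets id u + lets id v + m = V) {l : Fn F} (hl : l ∈ LF F m) :
    Tr π V β T (u * v) l = Tr π V β T v (trf (ev F (mo F u)) * l)
      - β (lets id v + m) (trf (ev F (mo F v)) * l) * π (mo F u)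
      - β (lets id u + m) (trf (ev F (mo F u)) * l) * π (mo F v)
      + β m l * π (jor (mo F u) (mo F v)) := by
  have e3 : lets id u + (lets id v + m) = V := by rw [← e]; abel
  have e4 : lets id v + (lets id u + m) = V := by rw [← e]; abel
  have h1 := q_comm h hβ u v e hl
  rw [Tr_mul, Tr_sub e3, Tr_sub e4, Tr_sub rfl]
  have h2 := sub_eq_zero.2 h1
  refine sub_eq_zero.1 ?_
  rw [← neg_eq_zero, ← h2]
  abel

end Pool.Agent.OB
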