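import Pool.Agent.OB.Ctx

/-!
# Vanishing of alternating elements  (module Van)
-/

set_option autoImplicit false
set_option linter.unusedSectionVars false

namespace Pool.Agent.OB

open FreeNonUnitalNonAssocAlgebra Pool.Agent.H.MP_41922c_al Pool.Agent.Smt

variable {F : Type*} [Field F] {R : Type*} [NonUnitalNonAssocRing R] [Module F R]
  [IsScalarTower F R R] [SMulCommClass F R R]
variable {π : FA F →ₙₐ[F] R} {V : Multiset ℕ}

/-- renaming of the variables by a permutation -/
noncomputable def Van_ren (F : Type*) [Field F] (σ : Equiv.Perm ℕ) : FA F →ₙₐ[F] FA F :=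
  lift F (fun i => of F (σ i))

theorem Van_ren_of (σ : Equiv.Perm ℕ) (i : ℕ) : Van_ren F σ (of F i) = of F (σ i) := by
  unfold Van_ren
  rw [lift_of_apply]

theorem Van_ren_mul (σ τ : Equiv.Perm ℕ) (p : FA F) :
    Van_ren F (σ * τ) p = Van_ren F σ (Van_ren F τ p) := by
  have h : Van_ren F (σ * τ) = (Van_ren F σ).comp (Van_ren F τ) := by
    refine FreeNonUnitalNonAssocAlgebra.hom_ext F fun i => ?_
    simp only [NonUnitalAlgHom.comp_apply, Van_ren_of, Equiv.Perm.mul_apply]
  rw [h]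
  rfl

theorem Van_ren_one (p : FA F) : Van_ren F 1 p = p := by
  have h : Van_ren F 1 = NonUnitalAlgHom.id F (FA F) := by
    refine FreeNonUnitalNonAssocAlgebra.hom_ext F fun i => ?_
    simp only [Van_ren_of, Equiv.Perm.one_apply]
    rfl
  rw [h]
  rfl

/-- a permutation of a part of `m` does not change `m` -/
theorem Van_map_eq {m : Multiset ℕ} (hm : m.Nodup) (σ : Equiv.Perm ℕ)
    (h : ∀ i ∈ m, σ i ∈ m) (h' : ∀ i ∈ m, σ.symm i ∈ m) : m.map σ = m := by
  refine (Multiset.Nodup.ext (Multiset.Nodup.map σ.injective hm) hm).2 fun a => ?_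
  rw [Multiset.mem_map]
  constructor
  · rintro ⟨b, hb, rfl⟩
    exact h b hb
  · intro ha
    exact ⟨σ.symm a, h' a ha, σ.apply_symm_apply a⟩

theorem Van_ren_mem {m : Multiset ℕ} (σ : Equiv.Perm ℕ) {p : FA F} (hp : p ∈ P F m) :
    Van_ren F σ p ∈ P F (m.map σ) := by
  have h := lift_mem (F := F) (c := (id : ℕ → ℕ)) (c' := (id : ℕ → ℕ))
    (θ := fun i => of F (σ i)) (μ := fun i => {σ i}) (fun a => of_mem id (σ a)) hp
  have e : (m.map (fun i => ({σ i} : Multiset ℕ))).sum = m.map σ := by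
    rw [← Multiset.sum_map_singleton (m.map σ), Multiset.map_map]
    rfl
  rw [e] at h
  exact h

/-- the sign as an element of `F` -/
noncomputable def Van_sg (F : Type*) [Field F] {Y : Finset ℕ} (g : Equiv.Perm Y) : F :=
  ((Equiv.Perm.sign g : ℤ) : F)

theorem Van_sg_mul {Y : Finset ℕ} (g k : Equiv.Perm Y) :
    Van_sg F (g * k) = Van_sg F g * Van_sg F k := by
  unfold Van_sg
  rw [map_mul]
  push_cast
  rfl

theorem Van_sg_sq {Y : Finset ℕ} (g : Equiv.Perm Y) : Van_sg F g * Van_sg F g = 1 := by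
  unfold Van_sg
  rcases Int.units_eq_one_or (Equiv.Perm.sign g) with h | h <;> rw [h] <;> simp

/-- the alternating sum -/
noncomputable def Van_S (π : FA F →ₙₐ[F] R) (Y : Finset ℕ) (q : FA F) : R :=
  ∑ g : Equiv.Perm Y, Van_sg F g • π (Van_ren F (Equiv.Perm.ofSubtype g) q)

theorem Van_S_congr (h : Ctx π V) (Y : Finset ℕ) {p q : FA F} (e : π p = π q) :
    Van_S π Y p = Van_S π Y q := by
  unfold Van_S
  refine Finset.sum_congr rfl fun g _ => ?_
  rw [h.congr e]

/-- extension of a permutation of a subset -/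
noncomputable def Van_ext {Y : Finset ℕ} (y : ℕ) (k : Equiv.Perm (Y.erase y : Finset ℕ)) :
    Equiv.Perm Y :=
  k.extendDomain (p := fun z : Y => z.1 ∈ Y.erase y)
    { toFun := fun z => ⟨⟨z.1, Finset.mem_of_mem_erase z.2⟩, z.2⟩
      invFun := fun z => ⟨z.1.1, z.2⟩
      left_inv := fun _ => rfl
      right_inv := fun _ => rfl }

theorem Van_ext_sg {Y : Finset ℕ} (y : ℕ) (k : Equiv.Perm (Y.erase y : Finset ℕ)) :
    Van_sg F (Van_ext y k) = Van_sg F k := by
  unfold Van_sg Van_ext
  rw [Equiv.Perm.sign_extendDomain]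

theorem Van_ext_apply {Y : Finset ℕ} (y : ℕ) (k : Equiv.Perm (Y.erase y : Finset ℕ)) :
    Equiv.Perm.ofSubtype (Van_ext y k) = Equiv.Perm.ofSubtype k := by
  refine Equiv.ext fun i => ?_
  by_cases hi : i ∈ Y.erase y
  · have hY : i ∈ Y := Finset.mem_of_mem_erase hi
    rw [Equiv.Perm.ofSubtype_apply_of_mem k hi, Equiv.Perm.ofSubtype_apply_of_mem _ hY]
    unfold Van_ext
    rw [Equiv.Perm.extendDomain_apply_subtype _ _ (b := (⟨i, hY⟩ : Y)) hi]
    rfl
  · rw [Equiv.Perm.ofSubtype_apply_of_not_mem k hi]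
    by_cases hY : i ∈ Y
    · rw [Equiv.Perm.ofSubtype_apply_of_mem _ hY]
      unfold Van_ext
      rw [Equiv.Perm.extendDomain_apply_not_subtype _ _ (b := (⟨i, hY⟩ : Y)) hi]
    · rw [Equiv.Perm.ofSubtype_apply_of_not_mem _ hY]

theorem Van_fact {n : ℕ} (h10 : ((Nat.factorial 10 : ℕ) : F) ≠ 0) (hn : n ≤ 10) :
    ((Nat.factorial n : ℕ) : F) ≠ 0 := by
  obtain ⟨c, hc⟩ := Nat.factorial_dvd_factorial hn
  intro h
  apply h10
  rw [hc, Nat.cast_mul, h, zero_mul]

/-- the alternating sum of a multiple of `p`, `p` of multidegree `V.erase y`, vanishes -/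
theorem Van_gen (h : Ctx π V) (h10 : ((Nat.factorial 10 : ℕ) : F) ≠ 0) {Y : Finset ℕ}
    (hY : ∀ z ∈ Y, z ∈ V) (hc : Y.card = 10) {y : ℕ} (hy : y ∈ V) {p : FA F}
    (hp : p ∈ P F (V.erase y)) (L : FA F →ₗ[F] FA F)
    (hL : ∀ σ : Equiv.Perm ℕ, σ y = y → Van_ren F σ (L p) = L (Van_ren F σ p))
    (hL' : ∀ (σ : Equiv.Perm ℕ) (A : FA F), π A = 0 → π (Van_ren F σ (L A)) = 0) :
    Van_S π Y (L p) = 0 := by
  classical
  set Y' : Finset ℕ := Y.erase y with hY'
  have hnd : (V.erase y).Nodup := h.nodup.erase y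
  have hYm : ∀ z ∈ Y', z ∈ V.erase y := by
    intro z hz
    rw [hY', Finset.mem_erase] at hz
    exact (Multiset.mem_erase_of_ne hz.1).2 (hY z hz.2)
  have hc9 : 9 ≤ Y'.card := by
    have h1 : Y.card - 1 ≤ Y'.card := Finset.pred_card_le_card_erase
    omega
  have hc10 : Y'.card ≤ 10 := by
    have h1 : Y'.card ≤ Y.card := Finset.card_erase_le
    omega
  -- the alternating sum of `p`
  set A : FA F := ∑ k : Equiv.Perm Y', Van_sg F k • Van_ren F (Equiv.Perm.ofSubtype k) p with hA
  have hfix : ∀ (k : Equiv.Perm Y') (i : ℕ), i ∈ V.erase y →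
      Equiv.Perm.ofSubtype k i ∈ V.erase y := by
    intro k i hi
    by_cases hi' : i ∈ Y'
    · rw [Equiv.Perm.ofSubtype_apply_of_mem k hi']
      exact hYm _ (k ⟨i, hi'⟩).2
    · rw [Equiv.Perm.ofSubtype_apply_of_not_mem k hi']
      exact hi
  have hAP : A ∈ P F (V.erase y) := by
    refine Submodule.sum_mem _ fun k _ => Submodule.smul_mem _ _ ?_
    have h1 := Van_ren_mem (Equiv.Perm.ofSubtype k) hp
    rwa [Van_map_eq hnd (Equiv.Perm.ofSubtype k) (hfix k)
      (fun i hi => by
        have h2 := hfix k⁻¹ i hi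
        rwa [map_inv] at h2)] at h1
  have hAe : ev F A = 0 := by
    have h1 := alt_zero hnd (f := ev F p) (Submodule.mem_map_of_mem hp) Y' hYm hc9
    rw [← h1, hA, map_sum]
    refine Finset.sum_congr rfl fun k _ => ?_
    rw [map_smul]
    unfold Van_ren Van_sg
    rw [ev_lift]
    simp only [ev_of]
  have hA0 : π A = 0 := by
    refine h.low (V.erase y) hnd ?_ A hAP ((id_iff_ev A).2 hAe)
    exact Multiset.card_erase_lt_of_mem hy
  -- averaging over the permutations of `Y'`
  have hk : ∀ k : Equiv.Perm Y', Van_S π Y (L p) = ∑ g : Equiv.Perm Y,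
      (Van_sg F g * Van_sg F k) • π (Van_ren F (Equiv.Perm.ofSubtype g)
        (L (Van_ren F (Equiv.Perm.ofSubtype k) p))) := by
    intro k
    unfold Van_S
    rw [← Equiv.sum_comp (Equiv.mulRight (Van_ext y k))]
    refine Finset.sum_congr rfl fun g _ => ?_
    rw [Equiv.coe_mulRight, Van_sg_mul, Van_ext_sg, map_mul, Van_ren_mul, Van_ext_apply, hL]
    rw [Equiv.Perm.ofSubtype_apply_of_not_mem k (Finset.notMem_erase y Y)]
  have hsum : (Fintype.card (Equiv.Perm Y') : F) • Van_S π Y (L p) = 0 := by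
    have h1 : (Fintype.card (Equiv.Perm Y') : F) • Van_S π Y (L p) =
        ∑ _k : Equiv.Perm Y', Van_S π Y (L p) := by
      rw [Finset.sum_const, Finset.card_univ, Nat.cast_smul_eq_nsmul]
    rw [h1]
    rw [Finset.sum_congr rfl (fun k _ => hk k), Finset.sum_comm]
    refine Finset.sum_eq_zero fun g _ => ?_
    have h2 : ∑ k : Equiv.Perm Y', (Van_sg F g * Van_sg F k) •
        π (Van_ren F (Equiv.Perm.ofSubtype g) (L (Van_ren F (Equiv.Perm.ofSubtype k) p))) =
        Van_sg F g • π (Van_ren F (Equiv.Perm.ofSubtype g) (L A)) := by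
      rw [hA, map_sum, map_sum, map_sum, Finset.smul_sum]
      refine Finset.sum_congr rfl fun k _ => ?_
      rw [map_smul, map_smul, map_smul, smul_smul]
    rw [h2, hL' _ A hA0, smul_zero]
  have hne : (Fintype.card (Equiv.Perm Y') : F) ≠ 0 := by
    rw [Fintype.card_perm, Fintype.card_coe]
    exact Van_fact h10 hc10
  exact (smul_eq_zero.1 hsum).resolve_left hne

theorem Van_S_MR (h : Ctx π V) (h10 : ((Nat.factorial 10 : ℕ) : F) ≠ 0) {Y : Finset ℕ}
    (hY : ∀ z ∈ Y, z ∈ V) (hc : Y.card = 10) {r : R} (hr : r ∈ MR π V) :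
    ∃ q : FA F, π q = r ∧ Van_S π Y q = 0 := by
  unfold MR at hr
  induction hr using Submodule.span_induction with
  | mem r hr =>
    obtain ⟨y, hy, l, hl, hr⟩ := hr
    obtain ⟨p, hp, rfl⟩ := Submodule.mem_map.1 hl
    have hpP : p ∈ P F (V.erase y) := LP_le _ hp
    rcases hr with rfl | rfl
    · refine ⟨of F y * p, map_mul π _ _, ?_⟩
      refine Van_gen h h10 hY hc hy hpP (LinearMap.mulLeft F (of F y)) ?_ ?_
      · intro σ hσ
        simp only [LinearMap.mulLeft_apply, map_mul, Van_ren_of, hσ]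
      · intro σ A hA
        simp only [LinearMap.mulLeft_apply, map_mul]
        rw [h.ker A hA, mul_zero]
    · refine ⟨p * of F y, map_mul π _ _, ?_⟩
      refine Van_gen h h10 hY hc hy hpP (LinearMap.mulRight F (of F y)) ?_ ?_
      · intro σ hσ
        simp only [LinearMap.mulRight_apply, map_mul, Van_ren_of, hσ]
      · intro σ A hA
        simp only [LinearMap.mulRight_apply, map_mul]
        rw [h.ker A hA, zero_mul]
  | zero =>
    refine ⟨0, map_zero π, ?_⟩
    unfold Van_S
    simp only [map_zero, smul_zero, Finset.sum_const_zero]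
  | add a b _ _ ha hb =>
    obtain ⟨q, hq, hq'⟩ := ha
    obtain ⟨q1, hq1, hq1'⟩ := hb
    refine ⟨q + q1, by rw [map_add, hq, hq1], ?_⟩
    have e : Van_S π Y (q + q1) = Van_S π Y q + Van_S π Y q1 := by
      unfold Van_S
      simp only [map_add, smul_add, Finset.sum_add_distrib]
    rw [e, hq', hq1', add_zero]
  | smul c a _ ha =>
    obtain ⟨q, hq, hq'⟩ := ha
    refine ⟨c • q, by rw [map_smul, hq], ?_⟩
    have e : Van_S π Y (c • q) = c • Van_S π Y q := by
      unfold Van_S
      rw [Finset.smul_sum]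
      refine Finset.sum_congr rfl fun g _ => ?_
      rw [map_smul, map_smul, smul_comm]
    rw [e, hq', smul_zero]

/-- **Vanishing of alternating elements.** Write `π d = ∑ π y π l_y + π l'_y π y` by `LR_gen`
(`ρ = π`), so `d' = ∑ y l_y + l'_y y` has `π d' = π d`. For `Y ⊆ V` with ten elements,
`10! • π d = ∑ g : Perm Y, sign g • π (g d) = ∑ g, sign g • π (g d')`, and for each term, grouping the `g`
with the same value `z = g y`, the sum is `π z * β (∑ ± ev (g l_y)) = 0` by `alt_zero` (for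
`Y.erase y`, nine elements, or for `Y` if `y ∉ Y`). -/
theorem vanish (h : Ctx π V) (h10 : ((Nat.factorial 10 : ℕ) : F) ≠ 0) {d : FA F} (hd : d ∈ P F V)
    (hL : π d ∈ LR π V) {x : ℕ} (hx : x ∈ V)
    (hs : ∀ k ∈ V.erase x, π (lift F (fun i => of F (Equiv.swap x k i)) d) = -π d) : π d = 0 := by
  classical
  -- transpositions
  have hsw : ∀ a b : ℕ, a ∈ V → b ∈ V → a ≠ b →
      π (Van_ren F (Equiv.swap a b) d) = -π d := by
    have hx1 : ∀ k : ℕ, k ∈ V → k ≠ x → π (Van_ren F (Equiv.swap x k) d) = -π d := by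
      intro k hk hkx
      exact hs k ((Multiset.mem_erase_of_ne hkx).2 hk)
    intro a b ha hb hab
    by_cases hax : a = x
    · subst hax
      exact hx1 b hb (Ne.symm hab)
    by_cases hbx : b = x
    · subst hbx
      rw [Equiv.swap_comm]
      exact hx1 a ha hab
    have e : Equiv.swap a b = Equiv.swap x a * (Equiv.swap x b * Equiv.swap x a) := by
      have h1 := Equiv.swap_mul_swap_mul_swap (x := b) (y := x) (z := a) hbx (Ne.symm hab)
      rw [← mul_assoc, ← h1, Equiv.swap_comm b x]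
    have n1 : ∀ (σ : Equiv.Perm ℕ) (q : FA F), π q = -π d →
        π (Van_ren F σ q) = -π (Van_ren F σ d) := by
      intro σ q hq
      have h1 : π q = π (-d) := by rw [hq, map_neg]
      have h2 := h.congr h1 (Van_ren F σ)
      rw [h2, map_neg, map_neg]
    rw [e, Van_ren_mul, Van_ren_mul]
    have m1 := hx1 a ha hax
    have m2 : π (Van_ren F (Equiv.swap x b) (Van_ren F (Equiv.swap x a) d)) = π d := by
      rw [n1 _ _ m1, hx1 b hb hbx, neg_neg]
    have m3 := h.congr m2 (Van_ren F (Equiv.swap x a))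
    rw [m3, m1]
  -- a set of ten variables
  obtain ⟨Y, hYV, hc⟩ : ∃ Y : Finset ℕ, Y ⊆ V.toFinset ∧ Y.card = 10 := by
    refine Finset.exists_subset_card_eq ?_
    rw [Multiset.toFinset_card_of_nodup h.nodup]
    have := h.card
    omega
  have hY : ∀ z ∈ Y, z ∈ V := fun z hz => Multiset.mem_toFinset.1 (hYV hz)
  have hperm : ∀ g : Equiv.Perm Y,
      π (Van_ren F (Equiv.Perm.ofSubtype g) d) = Van_sg F g • π d := by
    intro g
    induction g using Equiv.Perm.swap_induction_on with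
    | one =>
      rw [map_one, Van_ren_one]
      unfold Van_sg
      simp
    | swap_mul f a b hab hf =>
      have e1 : Equiv.Perm.ofSubtype (Equiv.swap a b) = Equiv.swap a.1 b.1 := by
        rw [Equiv.Perm.ofSubtype_swap_eq]
      rw [map_mul, Van_ren_mul, e1]
      have h1 : π (Van_ren F (Equiv.Perm.ofSubtype f) d) = π (Van_sg F f • d) := by
        rw [hf, map_smul]
      rw [h.congr h1, map_smul, map_smul, hsw a.1 b.1 (hY _ a.2) (hY _ b.2)
        (fun h => hab (Subtype.ext h)), Van_sg_mul]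
      have h2 : Van_sg F (Equiv.swap a b) = -1 := by
        unfold Van_sg
        rw [Equiv.Perm.sign_swap hab]
        simp
      rw [h2, smul_neg, neg_mul, one_mul, neg_smul]
  have hm : π d ∈ MR π V := LR_gen π h.two h.three h.sat (by have := h.card; omega) hL
  obtain ⟨q, hq, hq0⟩ := Van_S_MR h h10 hY hc hm
  have h1 : Van_S π Y d = 0 := by rw [← hq0]; exact Van_S_congr h Y hq.symm
  have h2 : Van_S π Y d = (Fintype.card (Equiv.Perm Y) : F) • π d := by
    unfold Van_S
    have h3 : ∀ g ∈ (Finset.univ : Finset (Equiv.Perm Y)),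
        Van_sg F g • π (Van_ren F (Equiv.Perm.ofSubtype g) d) = π d := by
      intro g _
      rw [hperm g, smul_smul, Van_sg_sq, one_smul]
    rw [Finset.sum_congr rfl h3, Finset.sum_const, Finset.card_univ, Nat.cast_smul_eq_nsmul]
  rw [h1] at h2
  have hne : (Fintype.card (Equiv.Perm Y) : F) ≠ 0 := by
    rw [Fintype.card_perm, Fintype.card_coe, hc]
    exact h10
  exact (smul_eq_zero.1 h2.symm).resolve_left hne

end Pool.Agent.OB
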