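import Pool.Agent.OB.WD1

/-!
# The operators T_x are well defined  (module WD)

`wd`: `wd_lift`, `wd_swap` and `vanish`. `exists_T`: the linear map from the direct sum of the
`LF ((V.erase x).erase y)` (two copies for each `y ∈ V.erase x`) to `Fn F`, `(l, l') ↦ wdS`, has a kernel on
which `wdT` vanishes (`wd`); so `wdT` factors through the range of `wdS`; extend it to `Fn F`
(`LinearMap.exists_extend`).
-/

set_option autoImplicit false
set_option linter.unusedSectionVars false

namespace Pool.Agent.OB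

open FreeNonUnitalNonAssocAlgebra Pool.Agent.H.MP_41922c_al Pool.Agent.Smt

variable {F : Type*} [Field F] {R : Type*} [NonUnitalNonAssocRing R] [Module F R]
  [IsScalarTower F R R] [SMulCommClass F R R]
variable {π : FA F →ₙₐ[F] R} {V : Multiset ℕ} {β : Multiset ℕ → Fn F →ₗ[F] R}

theorem wd (h : Ctx π V) (h10 : ((Nat.factorial 10 : ℕ) : F) ≠ 0) (hβ : IsBeta π V β) {x : ℕ}
    (hx : x ∈ V) {l l' : ℕ → Fn F} (hl : ∀ y ∈ V.erase x, l y ∈ LF F ((V.erase x).erase y))
    (hl' : ∀ y ∈ V.erase x, l' y ∈ LF F ((V.erase x).erase y))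
    (e : wdS F (V.erase x) l l' = 0) : wdT π V β x l l' = 0 := by
  obtain ⟨d, hd, hde, hdL, hk⟩ := wd_lift h hβ hx hl hl'
  rw [← hde]
  refine vanish h h10 hd hdL hx ?_
  intro k hk'
  rw [hk k hk', hde]
  exact eq_neg_of_add_eq_zero_right (wd_swap h hβ hx hk' hl hl' e)

/-- the pairs of families of forms -/
def WD_dom (F : Type*) [Field F] (W : Multiset ℕ) :
    Submodule F ((ℕ → Fn F) × (ℕ → Fn F)) where
  carrier := {p | ∀ y ∈ W, p.1 y ∈ LF F (W.erase y) ∧ p.2 y ∈ LF F (W.erase y)}
  zero_mem' := fun _ _ => ⟨Submodule.zero_mem _, Submodule.zero_mem _⟩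
  add_mem' := fun ha hb y hy => ⟨Submodule.add_mem _ (ha y hy).1 (hb y hy).1,
    Submodule.add_mem _ (ha y hy).2 (hb y hy).2⟩
  smul_mem' := fun c _ ha y hy => ⟨Submodule.smul_mem _ c (ha y hy).1,
    Submodule.smul_mem _ c (ha y hy).2⟩

/-- `wdS` as a linear map -/
noncomputable def WD_S (F : Type*) [Field F] (W : Multiset ℕ) :
    (ℕ → Fn F) × (ℕ → Fn F) →ₗ[F] Fn F where
  toFun p := wdS F W p.1 p.2
  map_add' p q := by
    simp only [wdS, ← Finset.sum_add_distrib]
    refine Finset.sum_congr rfl fun y _ => ?_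
    simp only [Prod.fst_add, Prod.snd_add, Pi.add_apply, mul_add, add_mul]
    abel
  map_smul' c p := by
    simp only [wdS, Finset.smul_sum]
    refine Finset.sum_congr rfl fun y _ => ?_
    simp only [Prod.smul_fst, Prod.smul_snd, Pi.smul_apply, mul_smul_comm, smul_mul_assoc,
      smul_add, RingHom.id_apply]

/-- `wdT` as a linear map -/
noncomputable def WD_T (π : FA F →ₙₐ[F] R) (V : Multiset ℕ) (β : Multiset ℕ → Fn F →ₗ[F] R)
    (x : ℕ) : (ℕ → Fn F) × (ℕ → Fn F) →ₗ[F] R where
  toFun p := wdT π V β x p.1 p.2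
  map_add' p q := by
    simp only [wdT, ← Finset.sum_add_distrib]
    refine Finset.sum_congr rfl fun y _ => ?_
    simp only [Prod.fst_add, Prod.snd_add, Pi.add_apply, mul_add, add_mul, map_add]
    abel
  map_smul' c p := by
    simp only [wdT, Finset.smul_sum]
    refine Finset.sum_congr rfl fun y _ => ?_
    simp only [Prod.smul_fst, Prod.smul_snd, Pi.smul_apply, mul_smul_comm, smul_mul_assoc,
      smul_add, map_smul, RingHom.id_apply]

/-- a linear map factors through another one with a smaller kernel -/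
theorem WD_factor {D A B : Type*} [AddCommGroup D] [Module F D] [AddCommGroup A] [Module F A]
    [AddCommGroup B] [Module F B] (f : D →ₗ[F] A) (g : D →ₗ[F] B)
    (hk : ∀ d, f d = 0 → g d = 0) : ∃ T : A →ₗ[F] B, ∀ d, T (f d) = g d := by
  have hk' : LinearMap.ker f ≤ LinearMap.ker g := fun d hd => by
    rw [LinearMap.mem_ker] at hd ⊢
    exact hk d hd
  obtain ⟨T, hT⟩ := LinearMap.exists_extend
    (((LinearMap.ker f).liftQ g hk').comp f.quotKerEquivRange.symm.toLinearMap)
  refine ⟨T, fun d => ?_⟩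
  have h1 := LinearMap.congr_fun hT ⟨f d, LinearMap.mem_range_self f d⟩
  have h2 : f.quotKerEquivRange.symm ⟨f d, LinearMap.mem_range_self f d⟩ =
      (LinearMap.ker f).mkQ d := by
    rw [LinearEquiv.symm_apply_eq]
    rfl
  rw [LinearMap.comp_apply, LinearMap.comp_apply] at h1
  rw [Submodule.subtype_apply] at h1
  rw [h1]
  erw [h2]
  rw [Submodule.mkQ_apply, Submodule.liftQ_apply]

theorem exists_T (h : Ctx π V) (h10 : ((Nat.factorial 10 : ℕ) : F) ≠ 0) (hβ : IsBeta π V β) {x : ℕ}
    (hx : x ∈ V) : ∃ T, IsT π V β x T := by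
  obtain ⟨T, hT⟩ := WD_factor ((WD_S F (V.erase x)).domRestrict (WD_dom F (V.erase x)))
    ((WD_T π V β x).domRestrict (WD_dom F (V.erase x))) (by
      rintro ⟨⟨l, l'⟩, hp⟩ he
      exact wd h h10 hβ hx (fun y hy => (hp y hy).1) (fun y hy => (hp y hy).2) he)
  refine ⟨T, fun y hy l hl => ?_⟩
  have hy' : y ∈ (V.erase x).toFinset := Multiset.mem_toFinset.2 hy
  have hs : ∀ z ∈ V.erase x, (Pi.single y l : ℕ → Fn F) z ∈ LF F ((V.erase x).erase z) := by
    intro z _
    by_cases hz : z = y
    · subst hz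
      rw [Pi.single_eq_same]
      exact hl
    · rw [Pi.single_eq_of_ne hz]
      exact Submodule.zero_mem _
  have h0 : ∀ z ∈ V.erase x, (0 : ℕ → Fn F) z ∈ LF F ((V.erase x).erase z) :=
    fun z _ => Submodule.zero_mem _
  constructor
  · have h1 := hT ⟨((Pi.single y l : ℕ → Fn F), (0 : ℕ → Fn F)), fun z hz => ⟨hs z hz, h0 z hz⟩⟩
    have h2 : wdS F (V.erase x) (Pi.single y l : ℕ → Fn F) 0 = XX F y * l := by
      rw [wdS, Finset.sum_eq_single y]
      · rw [Pi.single_eq_same, Pi.zero_apply, zero_mul, add_zero]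
      · intro z _ hz
        rw [Pi.single_eq_of_ne hz, Pi.zero_apply, zero_mul, mul_zero, add_zero]
      · intro hn
        exact absurd hy' hn
    have h3 : wdT π V β x (Pi.single y l : ℕ → Fn F) 0 =
        π (of F y) * β (V.erase y) (tX F x * l) := by
      rw [wdT, Finset.sum_eq_single y]
      · rw [Pi.single_eq_same, Pi.zero_apply, mul_zero, map_zero, zero_mul, add_zero]
      · intro z _ hz
        rw [Pi.single_eq_of_ne hz, Pi.zero_apply, mul_zero, map_zero, zero_mul, mul_zero,
          add_zero]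
      · intro hn
        exact absurd hy' hn
    rw [← h2, ← h3]
    exact h1
  · have h1 := hT ⟨((0 : ℕ → Fn F), (Pi.single y l : ℕ → Fn F)), fun z hz => ⟨h0 z hz, hs z hz⟩⟩
    have h2 : wdS F (V.erase x) 0 (Pi.single y l : ℕ → Fn F) = l * XX F y := by
      rw [wdS, Finset.sum_eq_single y]
      · rw [Pi.single_eq_same, Pi.zero_apply, mul_zero, zero_add]
      · intro z _ hz
        rw [Pi.single_eq_of_ne hz, Pi.zero_apply, zero_mul, mul_zero, add_zero]
      · intro hn
        exact absurd hy' hn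
    have h3 : wdT π V β x 0 (Pi.single y l : ℕ → Fn F) =
        β (V.erase y) (tX F x * l) * π (of F y) := by
      rw [wdT, Finset.sum_eq_single y]
      · rw [Pi.single_eq_same, Pi.zero_apply, mul_zero, map_zero, mul_zero, zero_add]
      · intro z _ hz
        rw [Pi.single_eq_of_ne hz, Pi.zero_apply, mul_zero, map_zero, zero_mul, mul_zero,
          add_zero]
      · intro hn
        exact absurd hy' hn
    rw [← h2, ← h3]
    exact h1

end Pool.Agent.OB
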