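import Pool.Agent.OB.QTop
import Pool.Agent.OB.Van

/-!
# The operators T_x are well defined, part 1  (module WD1)

`wd`: let `κ = (l y, l' y)` (`y ∈ V.erase x`) be a relation, `∑ y l_y + l'_y y = 0` (real). Then
`δ = ∑ π y * β (t_x l_y) + β (t_x l'_y) * π y = 0`.

Proof. Choose polynomials `p y`, `p' y ∈ LP` with `ev (p y) = l y`. Then
`K = ∑ y * p y + p' y * y ∈ P F (V.erase x)` has `ev K = 0`, so `π K = 0` (`h.low`). Let `k ∈ V.erase x` and
let `θ` be the substitution `x_k ↦ jor (of x) (of k)`. `π (θ K) = 0` (`h.ker`). For `y ≠ k`: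
`π (θ (y * p y)) = π y * β (V.erase y) (ev (θ (p y)))` and (`ev_lift`, `sb_up_jor`)
`ev (θ (p y)) = t_x l_y + t_k l_y(k → x) - <x, k> l_y(k → 1)`; for `y = k` use
`Q l = π k * β (t_x l) + π x * β (t_k l) - π (jor x k) * β l`. With
`Q (y l) = π y * β (<x, k> l)`, `Q (l y) = β (<x, k> l) * π y`, `Q' l = Q l` (`q_left`, `q_right`, `q_comm` with
`u = x`, `v = k`, `w = y`) and `κ(k → 1)` being a relation in `LF ((V.erase x).erase k)` one gets
`0 = δ_x(κ) + δ_k(κ(k → x))`. As `δ_k(κ(k → x))` is the image of `δ_x(κ)` under the transposition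
`(x k)` (write `t_x l_y = ev` of a form polynomial and rename; `δ_x(κ) = π d` with
`d = ∑ y * h y + h' y * y ∈ P F V`, `ev (h y) = t_x l_y`, `h y ∈ LP`), `vanish` applies.
-/

set_option autoImplicit false
set_option linter.unusedSectionVars false

namespace Pool.Agent.OB

open FreeNonUnitalNonAssocAlgebra Pool.Agent.H.MP_41922c_al Pool.Agent.Smt

variable {F : Type*} [Field F] {R : Type*} [NonUnitalNonAssocRing R] [Module F R]
  [IsScalarTower F R R] [SMulCommClass F R R]
variable {π : FA F →ₙₐ[F] R} {V : Multiset ℕ} {β : Multiset ℕ → Fn F →ₗ[F] R}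

/-- the sum of a family -/
noncomputable def wdS (F : Type*) [Field F] (W : Multiset ℕ) (l l' : ℕ → Fn F) : Fn F :=
  ∑ y ∈ W.toFinset, (XX F y * l y + l' y * XX F y)

/-- its image under `t(x)` in the top degree -/
noncomputable def wdT (π : FA F →ₙₐ[F] R) (V : Multiset ℕ) (β : Multiset ℕ → Fn F →ₗ[F] R) (x : ℕ)
    (l l' : ℕ → Fn F) : R :=
  ∑ y ∈ (V.erase x).toFinset, (π (of F y) * β (V.erase y) (tX F x * l y)
    + β (V.erase y) (tX F x * l' y) * π (of F y))

/-! ### multisets -/

theorem WD1_ms {V : Multiset ℕ} {x k y : ℕ} (hx : x ∈ V) (hk : k ∈ V.erase x)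
    (hy : y ∈ V.erase x) (hxk : k ≠ x) (hxy : y ≠ x) (hyk : y ≠ k) :
    V = x ::ₘ k ::ₘ y ::ₘ ((V.erase x).erase y).erase k ∧
    V.erase x = k ::ₘ y ::ₘ ((V.erase x).erase y).erase k ∧
    V.erase k = x ::ₘ y ::ₘ ((V.erase x).erase y).erase k ∧
    (V.erase x).erase k = y ::ₘ ((V.erase x).erase y).erase k ∧
    V.erase y = x ::ₘ k ::ₘ ((V.erase x).erase y).erase k := by
  have hk' : k ∈ (V.erase x).erase y := (Multiset.mem_erase_of_ne (Ne.symm hyk)).2 hk
  have h1 : V.erase x = k ::ₘ y ::ₘ ((V.erase x).erase y).erase k := by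
    rw [Multiset.cons_swap, Multiset.cons_erase hk', Multiset.cons_erase hy]
  have h0 : V = x ::ₘ k ::ₘ y ::ₘ ((V.erase x).erase y).erase k := by
    rw [← h1, Multiset.cons_erase hx]
  generalize ((V.erase x).erase y).erase k = m at h0 h1 ⊢
  refine ⟨h0, h1, ?_, ?_, ?_⟩
  · rw [h0, Multiset.erase_cons_tail _ (Ne.symm hxk), Multiset.erase_cons_head]
  · rw [h1, Multiset.erase_cons_head]
  · rw [h0, Multiset.erase_cons_tail _ (Ne.symm hxy), Multiset.erase_cons_tail _ (Ne.symm hyk),
      Multiset.erase_cons_head]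

theorem WD1_ms2 {V : Multiset ℕ} {x y : ℕ} (hx : x ∈ V) (hxy : y ≠ x) :
    {x} + (V.erase x).erase y = V.erase y := by
  rw [Multiset.singleton_add, Multiset.erase_comm,
    Multiset.cons_erase ((Multiset.mem_erase_of_ne (Ne.symm hxy)).2 hx)]

theorem WD1_lt {V : Multiset ℕ} {y : ℕ} (hy : y ∈ V) : (V.erase y).card < V.card :=
  Multiset.card_erase_lt_of_mem hy

/-! ### substitutions -/

theorem WD1_lift_congr {θ θ' : ℕ → FA F} {m : Multiset ℕ} (h : ∀ i ∈ m, θ i = θ' i) {f : FA F}
    (hf : f ∈ P F m) : lift F θ f = lift F θ' f := by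
  refine Words_PP_ind id (p := fun f => lift F θ f = lift F θ' f) ?_ ?_ ?_ ?_ hf
  · rw [map_zero, map_zero]
  · intro f g hf hg
    rw [map_add, map_add, hf, hg]
  · intro c f hf
    rw [map_smul, map_smul, hf]
  · intro w hw
    have key : ∀ w : FreeMagma ℕ, (∀ i ∈ lets id w, θ i = θ' i) →
        lift F θ (mo F w) = lift F θ' (mo F w) := by
      intro w
      induction w with
      | ih1 a =>
        intro hi
        change lift F θ (of F a) = lift F θ' (of F a)
        rw [lift_of_apply, lift_of_apply]
        exact hi a (Multiset.mem_singleton_self _)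
      | ih2 u v hu hv =>
        intro hi
        rw [lift_mo, lift_mo, hu fun i hiu => hi i (Multiset.mem_add.2 (Or.inl hiu)),
          hv fun i hiv => hi i (Multiset.mem_add.2 (Or.inr hiv))]
    exact key w (hw ▸ h)

theorem WD1_lift_id (f : FA F) : lift F (of F : ℕ → FA F) f = f := by
  have h : lift F (of F : ℕ → FA F) = NonUnitalAlgHom.id F (FA F) := by
    apply FreeNonUnitalNonAssocAlgebra.hom_ext
    intro i
    rw [lift_of_apply]
    rfl
  rw [h]
  rfl

theorem WD1_nodup_erase (h : Ctx π V) (y : ℕ) : (V.erase y).Nodup := h.nodup.erase y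

theorem WD1_LF_AF {m : Multiset ℕ} {l : Fn F} (hl : l ∈ LF F m) : l ∈ AF F m :=
  UU_le_AF m (LF_le_UU m hl)

/-- choice of polynomials -/
theorem WD1_choose {W : Multiset ℕ} {m : ℕ → Multiset ℕ} {l : ℕ → Fn F}
    (hl : ∀ y ∈ W, l y ∈ LF F (m y)) :
    ∃ p : ℕ → FA F, ∀ y ∈ W, p y ∈ LP F (m y) ∧ ev F (p y) = l y := by
  have h : ∀ y ∈ W, ∃ p : FA F, p ∈ LP F (m y) ∧ ev F p = l y := by
    intro y hy
    obtain ⟨p, hp, e⟩ := Submodule.mem_map.1 (hl y hy)
    exact ⟨p, hp, e⟩
  choose! p hp using h
  exact ⟨p, hp⟩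

/-- the sum of products is in the component -/
theorem WD1_mem {W : Multiset ℕ} {p p' : ℕ → FA F}
    (hp : ∀ y ∈ W, p y ∈ P F (W.erase y)) (hp' : ∀ y ∈ W, p' y ∈ P F (W.erase y)) :
    ∑ y ∈ W.toFinset, (of F y * p y + p' y * of F y) ∈ P F W := by
  refine Submodule.sum_mem _ fun y hy => ?_
  have hy' : y ∈ W := Multiset.mem_toFinset.1 hy
  have e1 : ({y} : Multiset ℕ) + W.erase y = W := by
    rw [Multiset.singleton_add, Multiset.cons_erase hy']
  have e2 : W.erase y + ({y} : Multiset ℕ) = W := by
    rw [add_comm, e1]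
  refine add_mem ?_ ?_
  · exact Ids_cast (PP_mul id (of_mem id y) (hp y hy')) e1
  · exact Ids_cast (PP_mul id (hp' y hy') (of_mem id y)) e2

theorem WD1_theta {V : Multiset ℕ} {x k y : ℕ} (hV : V.Nodup) (hx : x ∈ V) (hk : k ∈ V.erase x)
    (hy : y ∈ V.erase x) (hxk : k ≠ x) (hxy : y ≠ x) (hyk : y ≠ k) {f : FA F}
    (hf : f ∈ P F ((V.erase x).erase y)) :
    lift F (Function.update (of F) k (jor (of F x) (of F k))) f ∈ P F (V.erase y) := by
  have hk' : k ∈ (V.erase x).erase y := (Multiset.mem_erase_of_ne (Ne.symm hyk)).2 hk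
  have hm : ((V.erase x).erase y).Nodup := (hV.erase x).erase y
  have h1 := lift_mem (F := F) id id (Function.update (of F) k (jor (of F x) (of F k)))
    (fun i => if i = k then {x} + {k} else {i}) (by
      intro a
      by_cases ha : a = k
      · subst ha
        rw [Function.update_self]
        simp only [id, if_true]
        exact Ids_jor_mem (Ids_of x) (Ids_of a)
      · rw [Function.update_of_ne ha]
        simp only [id, if_neg ha]
        exact of_mem id a) hf
  have h2 : (((V.erase x).erase y).map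
      (fun i => if i = k then ({x} + {k} : Multiset ℕ) else {i})).sum = V.erase y := by
    rw [(WD1_ms hx hk hy hxk hxy hyk).2.2.2.2]
    conv_lhs => rw [← Multiset.cons_erase hk']
    rw [Multiset.map_cons, Multiset.sum_cons, if_pos rfl]
    have h3 : (((V.erase x).erase y).erase k).map
        (fun i => if i = k then ({x} + {k} : Multiset ℕ) else {i}) =
        (((V.erase x).erase y).erase k).map (fun i => ({i} : Multiset ℕ)) := by
      refine Multiset.map_congr rfl fun i hi => ?_
      have : i ≠ k := by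
        rintro rfl
        exact hm.notMem_erase hi
      rw [if_neg this]
    rw [h3, Multiset.sum_map_singleton, add_assoc, Multiset.singleton_add, Multiset.singleton_add]
  exact Ids_cast h1 h2

theorem WD1_up (x k : ℕ) :
    (fun i => ev F (Function.update (of F) k (jor (of F x) (of F k)) i)) =
      up F k (jor (XX F x) (XX F k)) := by
  funext i
  by_cases hi : i = k
  · subst hi
    rw [up, Function.update_self, Function.update_self, jor, jor, map_add, map_mul, map_mul,
      ev_of, ev_of]
  · rw [up, Function.update_of_ne hi, Function.update_of_ne hi, ev_of]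

/-! ### scalars -/

theorem WD1_scL {a : Fn F} (ha : IsSc a) (b c : Fn F) : a * (b * c) = b * (a * c) := by
  rw [← (ha.assoc b c).1, ha.comm b, (ha.assoc b c).2.1]

theorem WD1_D (x k : ℕ) (l : Fn F) :
    XX F x * (tX F k * l) + XX F k * (tX F x * l) - jor (XX F x) (XX F k) * l =
      (XX F x * star (XX F k) + XX F k * star (XX F x)) * l := by
  have h1 : ∀ i : ℕ, star (XX F i) = tX F i - XX F i := fun i => by
    rw [tX, add_sub_cancel_left]
  rw [h1, h1, ← ((isSc_tX (F := F) k).assoc (XX F x) l).2.1,
    ← ((isSc_tX (F := F) x).assoc (XX F k) l).2.1, jor, mul_sub, mul_sub, add_mul, add_mul,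
    sub_mul, sub_mul]
  abel

/-- the key relation: `δ_x(κ) + δ_k(κ(x_k → x)) = 0` -/
theorem wd_swap (h : Ctx π V) (hβ : IsBeta π V β) {x k : ℕ} (hx : x ∈ V) (hk : k ∈ V.erase x)
    {l l' : ℕ → Fn F} (hl : ∀ y ∈ V.erase x, l y ∈ LF F ((V.erase x).erase y))
    (hl' : ∀ y ∈ V.erase x, l' y ∈ LF F ((V.erase x).erase y))
    (e : wdS F (V.erase x) l l' = 0) :
    wdT π V β x l l' + wdT π V β k
      (fun y => sb (up F k (XX F x)) (l (Equiv.swap x k y)))
      (fun y => sb (up F k (XX F x)) (l' (Equiv.swap x k y))) = 0 := by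
  have hnx : (V.erase x).Nodup := h.nodup.erase x
  have hkV : k ∈ V := Multiset.mem_of_mem_erase hk
  have hne : ∀ y ∈ V.erase x, y ≠ x := by
    rintro y hy rfl
    exact h.nodup.notMem_erase hy
  have hkx : k ≠ x := hne k hk
  obtain ⟨p, hp⟩ := WD1_choose (m := fun y => (V.erase x).erase y) hl
  obtain ⟨p', hp'⟩ := WD1_choose (m := fun y => (V.erase x).erase y) hl'
  have hP : ∀ y ∈ V.erase x, p y ∈ P F ((V.erase x).erase y) := fun y hy => LP_le _ (hp y hy).1
  have hP' : ∀ y ∈ V.erase x, p' y ∈ P F ((V.erase x).erase y) :=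
    fun y hy => LP_le _ (hp' y hy).1
  have hKm := WD1_mem hP hP'
  have hKe : ev F (∑ y ∈ (V.erase x).toFinset, (of F y * p y + p' y * of F y)) = 0 := by
    rw [← e, map_sum]
    unfold wdS
    refine Finset.sum_congr rfl fun y hy => ?_
    have hy' := Multiset.mem_toFinset.1 hy
    rw [map_add, map_mul, map_mul, ev_of, (hp y hy').2, (hp' y hy').2]
  have hKπ := h.low _ hnx (WD1_lt hx) _ hKm ((id_iff_ev _).2 hKe)
  have hθ := h.ker _ hKπ (lift F (Function.update (of F) k (jor (of F x) (of F k))))
  have hkS : k ∈ (V.erase x).toFinset := Multiset.mem_toFinset.2 hk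
  have hSm : ∀ y ∈ (V.erase x).toFinset.erase k, y ∈ V.erase x ∧ y ≠ k ∧ y ≠ x ∧ y ∈ V := by
    intro y hy
    have h1 := Multiset.mem_toFinset.1 (Finset.mem_of_mem_erase hy)
    exact ⟨h1, Finset.ne_of_mem_erase hy, hne y h1, Multiset.mem_of_mem_erase h1⟩
  -- the terms
  have E1 : ∀ y ∈ (V.erase x).toFinset.erase k,
      π (lift F (Function.update (of F) k (jor (of F x) (of F k))) (of F y * p y + p' y * of F y)) =
      (π (of F y) * β (V.erase y) (tX F x * l y) + β (V.erase y) (tX F x * l' y) * π (of F y))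
      + (π (of F y) * β (V.erase y) (tX F k * sb (up F k (XX F x)) (l y))
        + β (V.erase y) (tX F k * sb (up F k (XX F x)) (l' y)) * π (of F y))
      - (π (of F y) * β (V.erase y) ((XX F x * star (XX F k) + XX F k * star (XX F x))
            * sb (up F k 1) (l y))
        + β (V.erase y) ((XX F x * star (XX F k) + XX F k * star (XX F x))
            * sb (up F k 1) (l' y)) * π (of F y)) := by
    intro y hy
    obtain ⟨hy1, hyk, hyx, hyV⟩ := hSm y hy
    have hk' : k ∈ (V.erase x).erase y := (Multiset.mem_erase_of_ne (Ne.symm hyk)).2 hk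
    have hm : ((V.erase x).erase y).Nodup := hnx.erase y
    have hq : ∀ {q : FA F} {f : Fn F}, q ∈ P F ((V.erase x).erase y) →
        f ∈ LF F ((V.erase x).erase y) → ev F q = f →
        π (lift F (Function.update (of F) k (jor (of F x) (of F k))) q) =
        β (V.erase y) (tX F x * f) + β (V.erase y) (tX F k * sb (up F k (XX F x)) f)
        - β (V.erase y) ((XX F x * star (XX F k) + XX F k * star (XX F x))
            * sb (up F k 1) f) := by
      intro q f hq hf hqf
      rw [← hβ _ (h.nodup.erase y) (WD1_lt hyV) _ (WD1_theta h.nodup hx hk hy1 hkx hyx hyk hq),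
        ev_lift, WD1_up, hqf, sb_up_jor hm hk' (WD1_LF_AF hf), map_sub, map_add]
    rw [map_add, map_mul, map_mul, map_add, map_mul, map_mul, lift_of_apply,
      Function.update_of_ne hyk, hq (hP y hy1) (hl y hy1) (hp y hy1).2,
      hq (hP' y hy1) (hl' y hy1) (hp' y hy1).2]
    simp only [mul_add, mul_sub, add_mul, sub_mul]
    abel
  have hfix : ∀ {q : FA F}, q ∈ P F ((V.erase x).erase k) →
      lift F (Function.update (of F) k (jor (of F x) (of F k))) q = q := by
    intro q hq
    rw [WD1_lift_congr (θ' := of F) (fun i hi => ?_) hq, WD1_lift_id]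
    have : i ≠ k := by
      rintro rfl
      exact hnx.notMem_erase hi
    rw [Function.update_of_ne this]
  have hck : ((V.erase x).erase k).card < V.card :=
    lt_of_le_of_lt (Multiset.card_le_card (Multiset.erase_le k _)) (WD1_lt hx)
  have E2 : π (lift F (Function.update (of F) k (jor (of F x) (of F k)))
      (of F k * p k + p' k * of F k)) =
      π (jor (of F x) (of F k)) * β ((V.erase x).erase k) (l k)
      + β ((V.erase x).erase k) (l' k) * π (jor (of F x) (of F k)) := by
    rw [map_add, map_mul, map_mul, hfix (hP k hk), hfix (hP' k hk), lift_of_apply,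
      Function.update_self, map_add, map_mul, map_mul,
      ← hβ _ (hnx.erase k) hck _ (hP k hk), ← hβ _ (hnx.erase k) hck _ (hP' k hk), (hp k hk).2,
      (hp' k hk).2]
  rw [map_sum, map_sum, ← Finset.add_sum_erase _ _ hkS, E2, Finset.sum_congr rfl E1,
    Finset.sum_sub_distrib, Finset.sum_add_distrib] at hθ
  -- the second sum
  have hxS : x ∈ (V.erase k).toFinset :=
    Multiset.mem_toFinset.2 ((Multiset.mem_erase_of_ne (Ne.symm hkx)).2 hx)
  have hSS : (V.erase k).toFinset.erase x = (V.erase x).toFinset.erase k := by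
    ext y
    simp only [Finset.mem_erase, Multiset.mem_toFinset, h.nodup.mem_erase_iff]
    tauto
  have hsbk : ∀ {f : Fn F}, f ∈ LF F ((V.erase x).erase k) → ∀ a : Fn F, sb (up F k a) f = f := by
    intro f hf a
    have h1 := sb_congr (g := up F k a) (g' := XX F) (WD1_LF_AF hf) (fun i hi => by
      have : i ≠ k := by
        rintro rfl
        exact hnx.notMem_erase hi
      rw [up, Function.update_of_ne this])
    rw [h1]
    rfl
  have E3 : wdT π V β k (fun y => sb (up F k (XX F x)) (l (Equiv.swap x k y)))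
      (fun y => sb (up F k (XX F x)) (l' (Equiv.swap x k y))) =
      (π (of F x) * β (V.erase x) (tX F k * l k) + β (V.erase x) (tX F k * l' k) * π (of F x))
      + ∑ y ∈ (V.erase x).toFinset.erase k,
        (π (of F y) * β (V.erase y) (tX F k * sb (up F k (XX F x)) (l y))
        + β (V.erase y) (tX F k * sb (up F k (XX F x)) (l' y)) * π (of F y)) := by
    unfold wdT
    rw [← Finset.add_sum_erase _ _ hxS, hSS]
    simp only [Equiv.swap_apply_left]
    rw [hsbk (hl k hk), hsbk (hl' k hk)]
    congr 1
    refine Finset.sum_congr rfl fun y hy => ?_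
    obtain ⟨_, hyk, hyx, _⟩ := hSm y hy
    rw [Equiv.swap_apply_of_ne_of_ne hyx hyk]
  -- the operator Q
  let Q : Fn F →+ R := AddMonoidHom.mk' (fun f => π (of F k) * β (V.erase k) (tX F x * f)
    + π (of F x) * β (V.erase x) (tX F k * f)
    - π (jor (of F x) (of F k)) * β ((V.erase x).erase k) f) (by
      intro f g
      simp only [mul_add, map_add]
      abel)
  have hQ : ∀ f, Q f = π (of F k) * β (V.erase k) (tX F x * f)
    + π (of F x) * β (V.erase x) (tX F k * f)
    - π (jor (of F x) (of F k)) * β ((V.erase x).erase k) f := fun f => rfl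
  have m1 : ({k} : Multiset ℕ) + (V.erase x).erase k = V.erase x := by
    rw [Multiset.singleton_add, Multiset.cons_erase hk]
  have m2 : ({x} : Multiset ℕ) + (V.erase x).erase k = V.erase k := WD1_ms2 hx hkx
  have hQ' : ∀ {f : Fn F}, f ∈ LF F ((V.erase x).erase k) → Q f =
      β (V.erase k) (tX F x * f) * π (of F k) + β (V.erase x) (tX F k * f) * π (of F x)
      - β ((V.erase x).erase k) f * π (jor (of F x) (of F k)) := by
    intro f hf
    have q := q_comm h hβ (FreeMagma.of x) (FreeMagma.of k) (m := (V.erase x).erase k) (by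
      change ({x} : Multiset ℕ) + {k} + (V.erase x).erase k = V
      rw [add_assoc, m1, Multiset.singleton_add, Multiset.cons_erase hx]) hf
    change π (of F x) * β ({k} + (V.erase x).erase k) (trf (ev F (of F k)) * f)
      + π (of F k) * β ({x} + (V.erase x).erase k) (trf (ev F (of F x)) * f)
      - π (jor (of F x) (of F k)) * β ((V.erase x).erase k) f =
      β ({k} + (V.erase x).erase k) (trf (ev F (of F k)) * f) * π (of F x)
      + β ({x} + (V.erase x).erase k) (trf (ev F (of F x)) * f) * π (of F k)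
      - β ((V.erase x).erase k) f * π (jor (of F x) (of F k)) at q
    rw [m1, m2, ev_of, ev_of] at q
    change π (of F x) * β (V.erase x) (tX F k * f) + π (of F k) * β (V.erase k) (tX F x * f)
      - π (jor (of F x) (of F k)) * β ((V.erase x).erase k) f =
      β (V.erase x) (tX F k * f) * π (of F x) + β (V.erase k) (tX F x * f) * π (of F k)
      - β ((V.erase x).erase k) f * π (jor (of F x) (of F k)) at q
    rw [hQ, add_comm (π (of F k) * _), q, add_comm (β (V.erase x) _ * _)]
  -- the relation at `x_k = 1`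
  have e1 : l k + l' k + ∑ y ∈ (V.erase x).toFinset.erase k,
      (XX F y * sb (up F k 1) (l y) + sb (up F k 1) (l' y) * XX F y) = 0 := by
    have h1 := congrArg (sb (up F k 1)) e
    unfold wdS at h1
    rw [map_sum, map_zero, ← Finset.add_sum_erase _ _ hkS] at h1
    have h2 : sb (up F k 1) (XX F k * l k + l' k * XX F k) = l k + l' k := by
      have h3 : sb (up F k 1) (XX F k) = 1 := by
        change up F k 1 k = 1
        rw [up, Function.update_self]
      rw [map_add, map_mul, map_mul, h3, hsbk (hl k hk), hsbk (hl' k hk), one_mul, mul_one]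
    rw [h2] at h1
    rw [← h1]
    congr 1
    refine Finset.sum_congr rfl fun y hy => ?_
    obtain ⟨_, hyk, _, _⟩ := hSm y hy
    have h3 : sb (up F k 1) (XX F y) = XX F y := by
      change up F k 1 y = XX F y
      rw [up, Function.update_of_ne hyk]
    rw [map_add, map_mul, map_mul, h3]
  have E4 : ∀ y ∈ (V.erase x).toFinset.erase k,
      Q (XX F y * sb (up F k 1) (l y) + sb (up F k 1) (l' y) * XX F y) =
      π (of F y) * β (V.erase y) ((XX F x * star (XX F k) + XX F k * star (XX F x))
            * sb (up F k 1) (l y))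
        + β (V.erase y) ((XX F x * star (XX F k) + XX F k * star (XX F x))
            * sb (up F k 1) (l' y)) * π (of F y) := by
    intro y hy
    obtain ⟨hy1, hyk, hyx, hyV⟩ := hSm y hy
    have hk' : k ∈ (V.erase x).erase y := (Multiset.mem_erase_of_ne (Ne.symm hyk)).2 hk
    have hm : ((V.erase x).erase y).Nodup := hnx.erase y
    obtain ⟨n0, n1, n2, n3, n4⟩ := WD1_ms hx hk hy1 hkx hyx hyk
    have s1 := LF_sub1 hm hk' (hl y hy1)
    have s2 := LF_sub1 hm hk' (hl' y hy1)
    generalize sb (up F k 1) (l y) = f at s1 ⊢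
    generalize sb (up F k 1) (l' y) = g at s2 ⊢
    generalize ((V.erase x).erase y).erase k = m at n0 n1 n2 n3 n4 s1 s2
    have o1 : ({k} : Multiset ℕ) + {y} + m = V.erase x := by
      rw [n1, add_assoc, Multiset.singleton_add, Multiset.singleton_add]
    have o2 : ({x} : Multiset ℕ) + {y} + m = V.erase k := by
      rw [n2, add_assoc, Multiset.singleton_add, Multiset.singleton_add]
    have o3 : ({y} : Multiset ℕ) + m = (V.erase x).erase k := by
      rw [n3, Multiset.singleton_add]
    have o4 : ({x} : Multiset ℕ) + {k} + m = V.erase y := by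
      rw [n4, add_assoc, Multiset.singleton_add, Multiset.singleton_add]
    have o0 : ({x} : Multiset ℕ) + {k} + {y} + m = V := by
      rw [add_assoc, add_assoc, Multiset.singleton_add, Multiset.singleton_add,
        Multiset.singleton_add]
      exact n0.symm
    have qL := q_left h hβ (FreeMagma.of x) (FreeMagma.of k) (FreeMagma.of y) (m := m) o0 s1
    have qR := q_right h hβ (FreeMagma.of x) (FreeMagma.of k) (FreeMagma.of y) (m := m) o0 s2
    change π (of F x) * β ({k} + {y} + m) (ev F (of F y) * (trf (ev F (of F k)) * f))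
      + π (of F k) * β ({x} + {y} + m) (ev F (of F y) * (trf (ev F (of F x)) * f))
      - π (jor (of F x) (of F k)) * β ({y} + m) (ev F (of F y) * f) =
      π (of F y) * β ({x} + {k} + m) (ev F (of F x) * (trf (ev F (of F k)) * f)
        + ev F (of F k) * (trf (ev F (of F x)) * f) - jor (ev F (of F x)) (ev F (of F k)) * f) at qL
    change π (of F x) * β ({k} + {y} + m) ((trf (ev F (of F k)) * g) * ev F (of F y))
      + π (of F k) * β ({x} + {y} + m) ((trf (ev F (of F x)) * g) * ev F (of F y))
      - π (jor (of F x) (of F k)) * β ({y} + m) (g * ev F (of F y)) =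
      β ({x} + {k} + m) (ev F (of F x) * (trf (ev F (of F k)) * g)
        + ev F (of F k) * (trf (ev F (of F x)) * g) - jor (ev F (of F x)) (ev F (of F k)) * g)
        * π (of F y) at qR
    rw [o1, o2, o3, o4, ev_of, ev_of, ev_of] at qL qR
    change π (of F x) * β (V.erase x) (XX F y * (tX F k * f))
      + π (of F k) * β (V.erase k) (XX F y * (tX F x * f))
      - π (jor (of F x) (of F k)) * β ((V.erase x).erase k) (XX F y * f) =
      π (of F y) * β (V.erase y) (XX F x * (tX F k * f)
        + XX F k * (tX F x * f) - jor (XX F x) (XX F k) * f) at qL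
    change π (of F x) * β (V.erase x) ((tX F k * g) * XX F y)
      + π (of F k) * β (V.erase k) ((tX F x * g) * XX F y)
      - π (jor (of F x) (of F k)) * β ((V.erase x).erase k) (g * XX F y) =
      β (V.erase y) (XX F x * (tX F k * g)
        + XX F k * (tX F x * g) - jor (XX F x) (XX F k) * g) * π (of F y) at qR
    rw [WD1_D] at qL qR
    rw [map_add, hQ, hQ, ← qL, ← qR, WD1_scL (isSc_tX x) (XX F y) f,
      WD1_scL (isSc_tX k) (XX F y) f, ← ((isSc_tX (F := F) x).assoc g (XX F y)).1,
      ← ((isSc_tX (F := F) k).assoc g (XX F y)).1]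
    abel
  -- assembly
  have E5 : Q (l k) + Q (l' k) + ∑ y ∈ (V.erase x).toFinset.erase k,
      (π (of F y) * β (V.erase y) ((XX F x * star (XX F k) + XX F k * star (XX F x))
            * sb (up F k 1) (l y))
        + β (V.erase y) ((XX F x * star (XX F k) + XX F k * star (XX F x))
            * sb (up F k 1) (l' y)) * π (of F y)) = 0 := by
    rw [← Finset.sum_congr rfl E4, ← map_sum, ← map_add, ← map_add, e1, map_zero]
  rw [hQ (l k), hQ' (hl' k hk)] at E5
  rw [E3]
  unfold wdT
  rw [← Finset.add_sum_erase _ _ hkS]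
  generalize (∑ y ∈ (V.erase x).toFinset.erase k,
      (π (of F y) * β (V.erase y) ((XX F x * star (XX F k) + XX F k * star (XX F x))
            * sb (up F k 1) (l y))
        + β (V.erase y) ((XX F x * star (XX F k) + XX F k * star (XX F x))
            * sb (up F k 1) (l' y)) * π (of F y))) = SC at hθ E5
  generalize (∑ y ∈ (V.erase x).toFinset.erase k,
        (π (of F y) * β (V.erase y) (tX F k * sb (up F k (XX F x)) (l y))
        + β (V.erase y) (tX F k * sb (up F k (XX F x)) (l' y)) * π (of F y))) = SB at hθ ⊢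
  generalize (∑ y ∈ (V.erase x).toFinset.erase k, (π (of F y) * β (V.erase y) (tX F x * l y)
    + β (V.erase y) (tX F x * l' y) * π (of F y))) = SA at hθ ⊢
  have h9 : (π (of F k) * β (V.erase k) (tX F x * l k) + β (V.erase k) (tX F x * l' k) * π (of F k)
      + SA + (π (of F x) * β (V.erase x) (tX F k * l k)
      + β (V.erase x) (tX F k * l' k) * π (of F x) + SB)) =
      (π (jor (of F x) (of F k)) * β ((V.erase x).erase k) (l k)
      + β ((V.erase x).erase k) (l' k) * π (jor (of F x) (of F k)) + (SA + SB - SC))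
      + (π (of F k) * β (V.erase k) (tX F x * l k) + π (of F x) * β (V.erase x) (tX F k * l k)
      - π (jor (of F x) (of F k)) * β ((V.erase x).erase k) (l k)
      + (β (V.erase k) (tX F x * l' k) * π (of F k) + β (V.erase x) (tX F k * l' k) * π (of F x)
      - β ((V.erase x).erase k) (l' k) * π (jor (of F x) (of F k))) + SC) := by
    abel
  rw [h9, hθ, E5, add_zero]

/-- `δ_x(κ)` is the class of a polynomial, and its transposition is `δ_k(κ(x_k → x))` -/
theorem wd_lift (h : Ctx π V) (hβ : IsBeta π V β) {x : ℕ} (hx : x ∈ V)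
    {l l' : ℕ → Fn F} (hl : ∀ y ∈ V.erase x, l y ∈ LF F ((V.erase x).erase y))
    (hl' : ∀ y ∈ V.erase x, l' y ∈ LF F ((V.erase x).erase y)) :
    ∃ d ∈ P F V, π d = wdT π V β x l l' ∧ π d ∈ LR π V ∧ ∀ k ∈ V.erase x,
      π (lift F (fun i => of F (Equiv.swap x k i)) d) = wdT π V β k
        (fun y => sb (up F k (XX F x)) (l (Equiv.swap x k y)))
        (fun y => sb (up F k (XX F x)) (l' (Equiv.swap x k y))) := by
  have hne : ∀ y ∈ V.erase x, y ≠ x := by
    rintro y hy rfl
    exact h.nodup.notMem_erase hy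
  have ht : ∀ y ∈ V.erase x, tX F x * l y ∈ LF F (V.erase y) := by
    intro y hy
    rw [← WD1_ms2 hx (hne y hy)]
    exact tX_LF h.two h.three x (hl y hy)
  have ht' : ∀ y ∈ V.erase x, tX F x * l' y ∈ LF F (V.erase y) := by
    intro y hy
    rw [← WD1_ms2 hx (hne y hy)]
    exact tX_LF h.two h.three x (hl' y hy)
  obtain ⟨p, hp⟩ := WD1_choose (m := fun y => V.erase y) ht
  obtain ⟨p', hp'⟩ := WD1_choose (m := fun y => V.erase y) ht'
  have e1 : ∀ y ∈ V.erase x, ({y} : Multiset ℕ) + V.erase y = V := by
    intro y hy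
    rw [Multiset.singleton_add, Multiset.cons_erase (Multiset.mem_of_mem_erase hy)]
  have e2 : ∀ y ∈ V.erase x, V.erase y + ({y} : Multiset ℕ) = V := by
    intro y hy
    rw [add_comm, e1 y hy]
  refine ⟨∑ y ∈ (V.erase x).toFinset, (of F y * p y + p' y * of F y), ?_, ?_, ?_, ?_⟩
  · refine Submodule.sum_mem _ fun y hy => ?_
    have hy' := Multiset.mem_toFinset.1 hy
    exact add_mem (Ids_cast (PP_mul id (of_mem id y) (LP_le _ (hp y hy').1)) (e1 y hy'))
      (Ids_cast (PP_mul id (LP_le _ (hp' y hy').1) (of_mem id y)) (e2 y hy'))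
  · rw [map_sum]
    unfold wdT
    refine Finset.sum_congr rfl fun y hy => ?_
    have hy' := Multiset.mem_toFinset.1 hy
    have hyV := Multiset.mem_of_mem_erase hy'
    rw [map_add, map_mul, map_mul, ← (hp y hy').2, ← (hp' y hy').2,
      hβ _ (h.nodup.erase y) (WD1_lt hyV) _ (LP_le _ (hp y hy').1),
      hβ _ (h.nodup.erase y) (WD1_lt hyV) _ (LP_le _ (hp' y hy').1)]
  · rw [map_sum]
    refine Submodule.sum_mem _ fun y hy => ?_
    have hy' := Multiset.mem_toFinset.1 hy
    rw [map_add, map_mul, map_mul]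
    refine add_mem ?_ ?_
    · have h1 := LR_mul_left π h.two h.three h.sat (of_mem (F := F) id y)
        (l := π (p y)) (m' := V.erase y) ⟨p y, (hp y hy').1, rfl⟩
      have h2 : ({id y} : Multiset ℕ) + V.erase y = V := e1 y hy'
      rwa [h2] at h1
    · have h1 := LR_mul_right π h.two h.three h.sat (of_mem (F := F) id y)
        (l := π (p' y)) (m' := V.erase y) ⟨p' y, (hp' y hy').1, rfl⟩
      have h2 : ({id y} : Multiset ℕ) + V.erase y = V := e1 y hy'
      rwa [h2] at h1
  · intro k hk
    have hkV : k ∈ V := Multiset.mem_of_mem_erase hk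
    have hkx : k ≠ x := hne k hk
    have hVs : V.map (Equiv.swap x k) = V := by
      refine (Multiset.Nodup.ext (h.nodup.map (Equiv.swap x k).injective) h.nodup).2 fun a => ?_
      rw [Multiset.mem_map]
      constructor
      · rintro ⟨b, hb, rfl⟩
        by_cases h1 : b = x
        · subst h1
          rwa [Equiv.swap_apply_left]
        · by_cases h2 : b = k
          · subst h2
            rwa [Equiv.swap_apply_right]
          · rwa [Equiv.swap_apply_of_ne_of_ne h1 h2]
      · intro ha
        refine ⟨Equiv.swap x k a, ?_, by simp⟩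
        by_cases h1 : a = x
        · subst h1
          rwa [Equiv.swap_apply_left]
        · by_cases h2 : a = k
          · subst h2
            rwa [Equiv.swap_apply_right]
          · rwa [Equiv.swap_apply_of_ne_of_ne h1 h2]
    have key : ∀ y ∈ V.erase x, ∀ {q : FA F} {f : Fn F}, q ∈ LP F (V.erase y) →
        f ∈ LF F ((V.erase x).erase y) → ev F q = tX F x * f →
        π (lift F (fun i => of F (Equiv.swap x k i)) q) =
        β (V.erase (Equiv.swap x k y)) (tX F k * sb (up F k (XX F x)) f) := by
      intro y hy q f hq hf hqf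
      have h1 := lift_mem (F := F) id id (fun i => of F (Equiv.swap x k i))
        (fun i => {Equiv.swap x k i}) (fun a => of_mem id _) (LP_le _ hq)
      have h2 : ((V.erase y).map (fun i => ({Equiv.swap x k i} : Multiset ℕ))).sum =
          V.erase (Equiv.swap x k y) := by
        have h3 : (V.erase y).map (fun i => ({Equiv.swap x k i} : Multiset ℕ)) =
            ((V.erase y).map (Equiv.swap x k)).map (fun i => ({i} : Multiset ℕ)) := by
          rw [Multiset.map_map]
          rfl
        rw [h3, Multiset.sum_map_singleton, Multiset.map_erase _ (Equiv.swap x k).injective, hVs]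
      have hsV : Equiv.swap x k y ∈ V := by
        rw [← hVs]
        exact Multiset.mem_map_of_mem _ (Multiset.mem_of_mem_erase hy)
      rw [← hβ _ (h.nodup.erase _) (WD1_lt hsV) _ (Ids_cast h1 h2), ev_lift, hqf, map_mul]
      congr 2
      · change ev F (of F (Equiv.swap x k x)) + star (ev F (of F (Equiv.swap x k x))) = tX F k
        rw [ev_of, Equiv.swap_apply_left]
        rfl
      · refine sb_congr (WD1_LF_AF hf) fun i hi => ?_
        have hix : i ≠ x := hne i (Multiset.mem_of_mem_erase hi)
        rw [ev_of]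
        by_cases hik : i = k
        · subst hik
          rw [Equiv.swap_apply_right, up, Function.update_self]
        · rw [Equiv.swap_apply_of_ne_of_ne hix hik, up, Function.update_of_ne hik]
    rw [map_sum, map_sum]
    unfold wdT
    refine Finset.sum_equiv (Equiv.swap x k) (fun y => ?_) fun y hy => ?_
    · simp only [Multiset.mem_toFinset, h.nodup.mem_erase_iff]
      by_cases h1 : y = x
      · subst h1
        simp
      · by_cases h2 : y = k
        · subst h2
          rw [Equiv.swap_apply_right]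
          exact ⟨fun _ => ⟨Ne.symm h1, hx⟩, fun _ => ⟨h1, hkV⟩⟩
        · rw [Equiv.swap_apply_of_ne_of_ne h1 h2]
          exact ⟨fun a => ⟨h2, a.2⟩, fun a => ⟨h1, a.2⟩⟩
    · have hy' := Multiset.mem_toFinset.1 hy
      have h3 : Equiv.swap x k (Equiv.swap x k y) = y := by simp
      rw [map_add, map_mul, map_mul, map_add, map_mul, map_mul, lift_of_apply,
        key y hy' (hp y hy').1 (hl y hy') (hp y hy').2,
        key y hy' (hp' y hy').1 (hl' y hy') (hp' y hy').2]
      beta_reduce
      rw [h3]

end Pool.Agent.OB
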