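import Pool.Agent.OB.Defs

/-!
# Words, components  (module Words)

`FreeNonUnitalNonAssocAlgebra F α` is `MonoidAlgebra F (FreeMagma α)`; `mo F w = single w 1`
(`mo_eq`), so the words are a basis.
-/

set_option autoImplicit false
set_option linter.unusedSectionVars false

namespace Pool.Agent.OB

open FreeNonUnitalNonAssocAlgebra Pool.Agent.H.MP_41922c_al Pool.Agent.Smt

variable {F : Type*} [Field F] {α : Type*} (c : α → ℕ)

theorem mo_eq (w : FreeMagma α) : mo F w = MonoidAlgebra.single w 1 := by
  induction w with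
  | ih1 a => rfl
  | ih2 u v hu hv =>
    change mo F u * mo F v = MonoidAlgebra.single (u * v) 1
    rw [hu, hv, MonoidAlgebra.single_mul_single, one_mul]

/-- induction over the words -/
theorem Words_ind {p : FreeNonUnitalNonAssocAlgebra F α → Prop} (h0 : p 0)
    (ha : ∀ f g, p f → p g → p (f + g)) (hs : ∀ (k : F) f, p f → p (k • f))
    (hw : ∀ w, p (mo F w)) (f : FreeNonUnitalNonAssocAlgebra F α) : p f := by
  induction f using MonoidAlgebra.induction_linear with
  | zero => exact h0
  | add f g hf hg => exact ha f g hf hg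
  | single w r =>
    have h : MonoidAlgebra.single w r = r • mo F w := by
      rw [mo_eq, MonoidAlgebra.smul_single, smul_eq_mul, mul_one]
    rw [h]
    exact hs r _ (hw w)

theorem Words_PP_ind {m : Multiset ℕ} {p : FreeNonUnitalNonAssocAlgebra F α → Prop}
    (h0 : p 0) (ha : ∀ f g, p f → p g → p (f + g)) (hs : ∀ (k : F) f, p f → p (k • f))
    (hw : ∀ w, lets c w = m → p (mo F w)) {f : FreeNonUnitalNonAssocAlgebra F α}
    (hf : f ∈ PP F c m) : p f := by
  unfold PP at hf
  induction hf using Submodule.span_induction with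
  | mem x hx =>
    obtain ⟨w, h, rfl⟩ := hx
    exact hw w h
  | zero => exact h0
  | add y z _ _ hy hz => exact ha _ _ hy hz
  | smul k y _ hy => exact hs _ _ hy

theorem lets_ne (w : FreeMagma α) : lets c w ≠ 0 := by
  induction w with
  | ih1 a => exact Multiset.singleton_ne_zero _
  | ih2 u v hu hv =>
    change lets c u + lets c v ≠ 0
    intro h
    exact hu (add_eq_zero.1 h).1

theorem mo_mem (w : FreeMagma α) : mo F w ∈ PP F c (lets c w) := by
  exact Submodule.subset_span ⟨w, rfl, rfl⟩

theorem of_mem (a : α) : of F a ∈ PP F c {c a} := by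
  exact mo_mem c (FreeMagma.of a)

theorem PP_mul {m m' : Multiset ℕ} {f g : FreeNonUnitalNonAssocAlgebra F α} (hf : f ∈ PP F c m)
    (hg : g ∈ PP F c m') : f * g ∈ PP F c (m + m') := by
  unfold PP at hf
  induction hf using Submodule.span_induction with
  | mem x hx =>
    obtain ⟨u, hu, rfl⟩ := hx
    unfold PP at hg
    induction hg using Submodule.span_induction with
    | mem y hy =>
      obtain ⟨v, hv, rfl⟩ := hy
      exact Submodule.subset_span ⟨u * v, by rw [← hu, ← hv]; rfl, rfl⟩
    | zero => rw [mul_zero]; exact Submodule.zero_mem _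
    | add y z _ _ hy hz => rw [mul_add]; exact Submodule.add_mem _ hy hz
    | smul k y _ hy => rw [mul_smul_comm]; exact Submodule.smul_mem _ _ hy
  | zero => rw [zero_mul]; exact Submodule.zero_mem _
  | add y z _ _ hy hz => rw [add_mul]; exact Submodule.add_mem _ hy hz
  | smul k y _ hy => rw [smul_mul_assoc]; exact Submodule.smul_mem _ _ hy

theorem PP_zero : PP F c (0 : Multiset ℕ) = ⊥ := by
  rw [eq_bot_iff]
  unfold PP
  rw [Submodule.span_le]
  rintro _ ⟨w, hw, rfl⟩
  exact absurd hw (lets_ne c w)

/-- a word with more than one letter is a product: `PP F c m` is spanned by products if `m` has at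
least two elements -/
theorem PP_prod {m : Multiset ℕ} (hm : 2 ≤ m.card) : PP F c m =
    Submodule.span F {f | ∃ u v : FreeMagma α, lets c u + lets c v = m ∧ mo F u * mo F v = f} := by
  unfold PP
  congr 1
  ext f
  constructor
  · rintro ⟨w, hw, rfl⟩
    cases w with
    | of a =>
      exfalso
      have h : ({c a} : Multiset ℕ) = m := hw
      rw [← h, Multiset.card_singleton] at hm
      omega
    | mul u v => exact ⟨u, v, hw, rfl⟩
  · rintro ⟨u, v, h, rfl⟩
    exact ⟨u * v, h, rfl⟩

theorem linMo_mo {M : Type*} [AddCommGroup M] [Module F M] (φ : FreeMagma α → M)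
    (w : FreeMagma α) : linMo F φ (mo F w) = φ w := by
  change Finsupp.linearCombination F φ (mo F w).coeff = φ w
  rw [mo_eq, MonoidAlgebra.coeff_single, Finsupp.linearCombination_single, one_smul]

open Classical in
/-- the projection on the component of multidegree `m` -/
noncomputable def comp (F : Type*) [Field F] {α : Type*} (c : α → ℕ) (m : Multiset ℕ) :
    FreeNonUnitalNonAssocAlgebra F α →ₗ[F] FreeNonUnitalNonAssocAlgebra F α :=
  linMo F (fun w => if lets c w = m then mo F w else 0)

theorem comp_mo (m : Multiset ℕ) (w : FreeMagma α) [Decidable (lets c w = m)] :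
    comp F c m (mo F w) = if lets c w = m then mo F w else 0 := by
  unfold comp
  rw [linMo_mo]
  split_ifs <;> rfl

theorem comp_mem (m : Multiset ℕ) (f : FreeNonUnitalNonAssocAlgebra F α) :
    comp F c m f ∈ PP F c m := by
  refine Words_ind (F := F) (α := α) (p := fun f => comp F c m f ∈ PP F c m) ?_ ?_ ?_ ?_ f
  · rw [map_zero]; exact Submodule.zero_mem _
  · intro f g hf hg
    rw [map_add]; exact Submodule.add_mem _ hf hg
  · intro k f hf
    rw [map_smul]; exact Submodule.smul_mem _ _ hf
  · intro w
    classical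
    rw [comp_mo]
    split_ifs with h
    · rw [← h]; exact mo_mem c w
    · exact Submodule.zero_mem _

theorem comp_of_mem {m : Multiset ℕ} {f : FreeNonUnitalNonAssocAlgebra F α} (hf : f ∈ PP F c m) :
    comp F c m f = f := by
  classical
  refine Words_PP_ind c (p := fun f => comp F c m f = f) ?_ ?_ ?_ ?_ hf
  · rw [map_zero]
  · intro f g hf hg
    rw [map_add, hf, hg]
  · intro k f hf
    rw [map_smul, hf]
  · intro w hw
    rw [comp_mo, if_pos hw]

theorem comp_of_ne {m m' : Multiset ℕ} {f : FreeNonUnitalNonAssocAlgebra F α} (hf : f ∈ PP F c m')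
    (h : m' ≠ m) : comp F c m f = 0 := by
  classical
  refine Words_PP_ind c (p := fun f => comp F c m f = 0) ?_ ?_ ?_ ?_ hf
  · rw [map_zero]
  · intro f g hf hg
    rw [map_add, hf, hg, add_zero]
  · intro k f hf
    rw [map_smul, hf, smul_zero]
  · intro w hw
    rw [comp_mo, if_neg (fun h' => h (hw.symm.trans h'))]

/-- every element is the sum of its components -/
theorem exists_comp (f : FreeNonUnitalNonAssocAlgebra F α) : ∃ S : Finset (Multiset ℕ),
    f = ∑ m ∈ S, comp F c m f ∧ ∀ m, m ∉ S → comp F c m f = 0 := by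
  classical
  refine Words_ind (F := F) (α := α) (p := fun f => ∃ S : Finset (Multiset ℕ),
    f = ∑ m ∈ S, comp F c m f ∧ ∀ m, m ∉ S → comp F c m f = 0) ?_ ?_ ?_ ?_ f
  · exact ⟨∅, by simp, fun m _ => map_zero _⟩
  · rintro f g ⟨S, hS, hS'⟩ ⟨T, hT, hT'⟩
    refine ⟨S ∪ T, ?_, ?_⟩
    · have h1 : ∑ m ∈ S ∪ T, comp F c m f = ∑ m ∈ S, comp F c m f :=
        (Finset.sum_subset Finset.subset_union_left (fun m _ h => hS' m h)).symm
      have h2 : ∑ m ∈ S ∪ T, comp F c m g = ∑ m ∈ T, comp F c m g :=
        (Finset.sum_subset Finset.subset_union_right (fun m _ h => hT' m h)).symm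
      have h3 : ∑ m ∈ S ∪ T, comp F c m (f + g) =
          ∑ m ∈ S ∪ T, comp F c m f + ∑ m ∈ S ∪ T, comp F c m g := by
        rw [← Finset.sum_add_distrib]
        exact Finset.sum_congr rfl fun m _ => map_add _ _ _
      rw [h3, h1, h2, ← hS, ← hT]
    · intro m hm
      rw [Finset.mem_union, not_or] at hm
      rw [map_add, hS' m hm.1, hT' m hm.2, add_zero]
  · rintro k f ⟨S, hS, hS'⟩
    refine ⟨S, ?_, ?_⟩
    · have h3 : ∑ m ∈ S, comp F c m (k • f) = k • ∑ m ∈ S, comp F c m f := by
        rw [Finset.smul_sum]
        exact Finset.sum_congr rfl fun m _ => map_smul _ _ _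
      rw [h3, ← hS]
    · intro m hm
      rw [map_smul, hS' m hm, smul_zero]
  · intro w
    refine ⟨{lets c w}, ?_, ?_⟩
    · rw [Finset.sum_singleton, comp_mo, if_pos rfl]
    · intro m hm
      rw [Finset.mem_singleton] at hm
      rw [comp_mo, if_neg (fun h => hm h.symm)]

/-- components of a product, multilinear case -/
theorem comp_mul {m : Multiset ℕ} (hm : m.Nodup) (f g : FreeNonUnitalNonAssocAlgebra F α) :
    comp F c m (f * g) = ∑ s ∈ m.toFinset.powerset, comp F c s.val f * comp F c (m - s.val) g := by
  classical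
  refine Words_ind (F := F) (α := α) (p := fun f => comp F c m (f * g) =
    ∑ s ∈ m.toFinset.powerset, comp F c s.val f * comp F c (m - s.val) g) ?_ ?_ ?_ ?_ f
  · rw [zero_mul, map_zero]
    symm
    exact Finset.sum_eq_zero fun s _ => by rw [map_zero, zero_mul]
  · intro f f' hf hf'
    rw [add_mul, map_add, hf, hf', ← Finset.sum_add_distrib]
    exact Finset.sum_congr rfl fun s _ => by rw [map_add, add_mul]
  · intro k f hf
    rw [smul_mul_assoc, map_smul, hf, Finset.smul_sum]
    exact Finset.sum_congr rfl fun s _ => by rw [map_smul, smul_mul_assoc]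
  intro u
  refine Words_ind (F := F) (α := α) (p := fun g => comp F c m (mo F u * g) =
    ∑ s ∈ m.toFinset.powerset, comp F c s.val (mo F u) * comp F c (m - s.val) g) ?_ ?_ ?_ ?_ g
  · rw [mul_zero, map_zero]
    symm
    exact Finset.sum_eq_zero fun s _ => by rw [map_zero, mul_zero]
  · intro f f' hf hf'
    rw [mul_add, map_add, hf, hf', ← Finset.sum_add_distrib]
    exact Finset.sum_congr rfl fun s _ => by rw [map_add, mul_add]
  · intro k f hf
    rw [mul_smul_comm, map_smul, hf, Finset.smul_sum]
    exact Finset.sum_congr rfl fun s _ => by rw [map_smul, mul_smul_comm]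
  intro v
  have hcomp : comp F c m (mo F u * mo F v) = if lets c u + lets c v = m then
      mo F u * mo F v else 0 := comp_mo c m (u * v)
  rw [hcomp]
  by_cases h : lets c u + lets c v = m
  · rw [if_pos h]
    have hle : lets c u ≤ m := by rw [← h]; exact Multiset.le_add_right _ _
    have hnd : (lets c u).Nodup := Multiset.nodup_of_le hle hm
    have hval : (lets c u).toFinset.val = lets c u := by
      rw [Multiset.toFinset_val]; exact Multiset.dedup_eq_self.2 hnd
    rw [Finset.sum_eq_single (lets c u).toFinset]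
    · rw [hval, comp_mo, if_pos rfl, comp_mo, if_pos]
      rw [← h, add_tsub_cancel_left]
    · intro s _ hs
      rw [comp_mo, if_neg, zero_mul]
      intro h'
      apply hs
      apply Finset.val_injective
      rw [hval, h']
    · intro hs
      exfalso
      apply hs
      rw [Finset.mem_powerset]
      exact Multiset.toFinset_subset.2 (Multiset.subset_of_le hle)
  · rw [if_neg h]
    symm
    refine Finset.sum_eq_zero fun s hs => ?_
    rw [Finset.mem_powerset] at hs
    rw [comp_mo, comp_mo]
    by_cases h1 : lets c u = s.val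
    · have hsm : s.val ≤ m := by
        have h2 : s.val ≤ m.toFinset.val := Finset.val_le_iff.2 hs
        rw [Multiset.toFinset_val, Multiset.dedup_eq_self.2 hm] at h2
        exact h2
      have h3 : lets c v ≠ m - s.val := by
        intro h4
        apply h
        rw [h1, h4, add_tsub_cancel_of_le hsm]
      rw [if_neg h3, mul_zero]
    · rw [if_neg h1, zero_mul]

/-- linear maps are determined by their values on words -/
theorem ext_mo {M : Type*} [AddCommGroup M] [Module F M]
    {g g' : FreeNonUnitalNonAssocAlgebra F α →ₗ[F] M} (h : ∀ w, g (mo F w) = g' (mo F w)) :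
    g = g' := by
  refine LinearMap.ext fun f => ?_
  refine Words_ind (F := F) (α := α) (p := fun f => g f = g' f) ?_ ?_ ?_ h f
  · rw [map_zero, map_zero]
  · intro f f' hf hf'
    rw [map_add, map_add, hf, hf']
  · intro k f hf
    rw [map_smul, map_smul, hf]

theorem PP_induction {m : Multiset ℕ} {p : FreeNonUnitalNonAssocAlgebra F α → Prop}
    (h0 : p 0) (ha : ∀ f g, p f → p g → p (f + g)) (hs : ∀ (k : F) f, p f → p (k • f))
    (hw : ∀ w, lets c w = m → p (mo F w)) {f : FreeNonUnitalNonAssocAlgebra F α}
    (hf : f ∈ PP F c m) : p f := by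
  exact Words_PP_ind c h0 ha hs hw hf

theorem lift_mo {A : Type*} [NonUnitalNonAssocRing A] [Module F A] [IsScalarTower F A A]
    [SMulCommClass F A A] (g : α → A) (u v : FreeMagma α) :
    lift F g (mo F (u * v)) = lift F g (mo F u) * lift F g (mo F v) := by
  exact map_mul (lift F g) (mo F u) (mo F v)

/-- endomorphisms of `F{X}` that replace the variables by multihomogeneous elements -/
theorem lift_mem {β : Type*} (c' : β → ℕ) (θ : α → FreeNonUnitalNonAssocAlgebra F β)
    (μ : ℕ → Multiset ℕ) (h : ∀ a, θ a ∈ PP F c' (μ (c a))) {m : Multiset ℕ}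
    {f : FreeNonUnitalNonAssocAlgebra F α} (hf : f ∈ PP F c m) :
    lift F θ f ∈ PP F c' ((m.map μ).sum) := by
  refine Words_PP_ind c (p := fun f => lift F θ f ∈ PP F c' ((m.map μ).sum)) ?_ ?_ ?_ ?_ hf
  · rw [map_zero]; exact Submodule.zero_mem _
  · intro f g hf hg
    rw [map_add]; exact Submodule.add_mem _ hf hg
  · intro k f hf
    rw [map_smul]; exact Submodule.smul_mem _ _ hf
  · intro w hw
    rw [← hw]
    clear hw hf
    induction w with
    | ih1 a =>
      change lift F θ (of F a) ∈ PP F c' ((Multiset.map μ {c a}).sum)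
      rw [lift_of_apply, Multiset.map_singleton, Multiset.sum_singleton]
      exact h a
    | ih2 u v hu hv =>
      change lift F θ (mo F (u * v)) ∈ PP F c' ((Multiset.map μ (lets c u + lets c v)).sum)
      rw [lift_mo, Multiset.map_add, Multiset.sum_add]
      exact PP_mul c' hu hv

end Pool.Agent.OB
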