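import Pool.Agent.OB.Inv
import Pool.Agent.OB.RealL

/-!
# Real values at traceless elements  (module Wre)

`WW m` = values of the polynomials of multidegree `m` at the traceless parts `x0 i` of the variables.
`sg f` is the value of `f` at the commuting elements `x_i = e0 = diag(1, -1)`: all such values are diagonal
matrices (`m₂ = m₃ = a₁ = .. = 0`) for `f ∈ AF`, and `f ↦ m₁` is multiplicative on diagonal matrices; commutators
have value 0, so `sg = 0` on `LF`. `e0 * e0 = 1` and `x0 i ↦ e0`, so `sg (evw (mo w)) = 1`.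
`sg_odd`: `a = evw p`, `a = star a = evw (invW p)`, and `sg (evw (invW (mo w))) = (-1)^m.card`.
`sbX_LF`: `xz Z` replaces the variables `x_i`, `i ∈ Z`, by their traceless parts. Induction on the finite set `Z`:
`sb (xz (insert z Z)) l = sb (xz Z) l - 1/2 t_z * sb (Function.update (xz Z) z 1) l` (`sbX_insert`), by `sb_up_add`,
`sb_up_sc` (linearity in the variable `z`: `x0 z = XX z - 1/2 tX z * 1`), `LF_sub1`, `tX_LF`.
-/

set_option autoImplicit false
set_option linter.unusedSectionVars false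

namespace Pool.Agent.OB

open FreeNonUnitalNonAssocAlgebra Pool.Agent.H.MP_41922c_al Pool.Agent.Smt

variable (F : Type*) [Field F]

/-- the values at traceless elements -/
noncomputable def WW (m : Multiset ℕ) : Submodule F (Fn F) :=
  (P F m).map (evw F : FA F →ₗ[F] Fn F)

/-- the element `diag(1, -1)` -/
def e0 : Oc F := ⟨1, 0, 0, -1, 0, 0, 0, 0⟩

/-- the coefficient `m₁` of the value at `x_i = e0` -/
def sg : Fn F →ₗ[F] F where
  toFun f := (f (fun _ => e0 F)).m₁
  map_add' _ _ := rfl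
  map_smul' _ _ := rfl

open Classical in
/-- the variables in `Z` are replaced by their traceless parts -/
noncomputable def xz (Z : Finset ℕ) : ℕ → Fn F := fun i => if i ∈ Z then x0 F i else XX F i

variable {F}

theorem x0_eq (h2 : (2 : F) ≠ 0) (i : ℕ) : x0 F i = XX F i - (2 : F)⁻¹ • tX F i := by
  have h : ∀ a : Fn F, a - (2 : F)⁻¹ • (a + star a) = (2 : F)⁻¹ • (a - star a) := by
    intro a
    have h1 : (2 : F)⁻¹ • a + (2 : F)⁻¹ • a = a := by
      rw [← add_smul, ← two_mul, mul_inv_cancel₀ h2, one_smul]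
    rw [smul_add, smul_sub]
    nth_rewrite 1 [← h1]
    abel
  exact (h (XX F i)).symm

theorem x0_mem_AF (i : ℕ) : x0 F i ∈ AF F {i} := by
  exact Submodule.smul_mem _ _ (Submodule.sub_mem _ (Real_XX_mem_AF i) (AF_star (Real_XX_mem_AF i)))

theorem Wre_of (i : ℕ) : evw F (of F i) = x0 F i := lift_of_apply _ _ _

theorem x0_mem (i : ℕ) : x0 F i ∈ WW F {i} := by
  exact ⟨of F i, of_mem id i, Wre_of i⟩

theorem evw_mem {m : Multiset ℕ} {p : FA F} (hp : p ∈ P F m) : evw F p ∈ WW F m := by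
  exact ⟨p, hp, rfl⟩

theorem WW_le_AF (m : Multiset ℕ) : WW F m ≤ AF F m := by
  rintro _ ⟨f, hf, rfl⟩
  refine PP_induction id (p := fun f => evw F f ∈ AF F m) ?_ ?_ ?_ ?_ hf
  · rw [map_zero]; exact Submodule.zero_mem _
  · intro f g hf hg
    rw [map_add]; exact Submodule.add_mem _ hf hg
  · intro k f hf
    rw [map_smul]; exact Submodule.smul_mem _ _ hf
  · rintro w rfl
    clear hf f
    induction w with
    | ih1 a =>
      have h : evw F (mo F (FreeMagma.of a)) = x0 F a := Wre_of a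
      rw [h]
      exact x0_mem_AF a
    | ih2 u v hu hv =>
      have h : evw F (mo F (u * v)) = evw F (mo F u) * evw F (mo F v) :=
        map_mul (evw F) (mo F u) (mo F v)
      rw [h]
      exact AF_mul hu hv

theorem WW_mul {m m' : Multiset ℕ} {a b : Fn F} (ha : a ∈ WW F m) (hb : b ∈ WW F m') :
    a * b ∈ WW F (m + m') := by
  obtain ⟨f, hf, rfl⟩ := ha
  obtain ⟨g, hg, rfl⟩ := hb
  exact ⟨f * g, PP_mul id hf hg, map_mul (evw F) f g⟩

theorem WW_star {m : Multiset ℕ} {a : Fn F} (ha : a ∈ WW F m) : star a ∈ WW F m := by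
  obtain ⟨f, hf, rfl⟩ := ha
  exact ⟨invW f, invW_mem hf, evw_invW f⟩

theorem evw_eq (p : FA F) : evw F p = sb (x0 F) (ev F p) := by
  have h : evw F = (sb (x0 F)).comp (ev F) := by
    refine hom_ext F ?_
    intro i
    show evw F (of F i) = sb (x0 F) (ev F (of F i))
    rw [Wre_of, ev_of]
    rfl
  exact DFunLike.congr_fun h p

/-- the diagonal elements -/
def Wre_d (a b : F) : Oc F := ⟨a, 0, 0, b, 0, 0, 0, 0⟩

theorem Wre_d_mul (a b c d : F) : Wre_d a b * Wre_d c d = Wre_d (a * c) (b * d) := by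
  ext <;> simp [Wre_d]

theorem Wre_d_add (a b c d : F) : Wre_d a b + Wre_d c d = Wre_d (a + c) (b + d) := by
  ext <;> simp [Wre_d]

theorem Wre_d_smul (k a b : F) : k • Wre_d a b = Wre_d (k * a) (k * b) := by
  ext <;> simp [Wre_d]

theorem Wre_e0 : e0 F = Wre_d 1 (-1) := rfl

theorem Wre_x0 (h2 : (2 : F) ≠ 0) (i : ℕ) : x0 F i (fun _ => e0 F) = Wre_d 1 (-1) := by
  show (2 : F)⁻¹ • (e0 F - star (e0 F)) = Wre_d 1 (-1)
  have h1 : (2 : F)⁻¹ * (1 + 1) = 1 := by rw [one_add_one_eq_two, inv_mul_cancel₀ h2]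
  have h3 : (2 : F)⁻¹ * (-1 - 1) = -1 := by
    have e : (-1 - 1 : F) = -(1 + 1) := by ring
    rw [e, mul_neg, h1]
  ext
  · simpa [e0, Wre_d] using h1
  · simp [e0, Wre_d]
  · simp [e0, Wre_d]
  · simpa [e0, Wre_d] using h3
  · simp [e0, Wre_d]
  · simp [e0, Wre_d]
  · simp [e0, Wre_d]
  · simp [e0, Wre_d]

theorem Wre_mo (h2 : (2 : F) ≠ 0) (w : FreeMagma ℕ) :
    ∃ b : F, evw F (mo F w) (fun _ => e0 F) = Wre_d 1 b := by
  induction w with
  | ih1 i =>
    refine ⟨-1, ?_⟩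
    have h : evw F (mo F (FreeMagma.of i)) = x0 F i := Wre_of i
    rw [h, Wre_x0 h2]
  | ih2 u v hu hv =>
    obtain ⟨b, hb⟩ := hu
    obtain ⟨c, hc⟩ := hv
    refine ⟨b * c, ?_⟩
    have h : evw F (mo F (u * v)) = evw F (mo F u) * evw F (mo F v) :=
      map_mul (evw F) (mo F u) (mo F v)
    rw [h, Pi.mul_apply, hb, hc, Wre_d_mul, one_mul]

theorem sg_mo (h2 : (2 : F) ≠ 0) (w : FreeMagma ℕ) : sg F (evw F (mo F w)) = 1 := by
  obtain ⟨b, hb⟩ := Wre_mo h2 w
  show (evw F (mo F w) (fun _ => e0 F)).m₁ = 1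
  rw [hb]
  rfl

theorem Wre_AF {m : Multiset ℕ} {f : Fn F} (hf : f ∈ AF F m) :
    ∃ a b : F, f (fun _ => e0 F) = Wre_d a b := by
  refine Real_AF_ind (p := fun f => ∃ a b : F, f (fun _ => e0 F) = Wre_d a b) ?_ ?_ ?_ ?_ hf
  · exact ⟨0, 0, rfl⟩
  · rintro f g ⟨a, b, h1⟩ ⟨c, d, h2⟩
    exact ⟨a + c, b + d, by rw [Pi.add_apply, h1, h2, Wre_d_add]⟩
  · rintro k f ⟨a, b, h1⟩
    exact ⟨k * a, k * b, by rw [Pi.smul_apply, h1, Wre_d_smul]⟩
  · rintro w rfl
    clear hf f
    induction w with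
    | ih1 c =>
      rcases c with i | i
      · rw [Real_evt_inl]; exact ⟨1, -1, rfl⟩
      · rw [Real_evt_inr]
        refine ⟨0, 0, ?_⟩
        show e0 F + star (e0 F) = Wre_d 0 0
        ext <;> simp [e0, Wre_d]
    | ih2 u v hu hv =>
      obtain ⟨a, b, h1⟩ := hu
      obtain ⟨c, d, h2⟩ := hv
      exact ⟨a * c, b * d, by rw [Real_evt_mul, Pi.mul_apply, h1, h2, Wre_d_mul]⟩

theorem Wre_com {m m' : Multiset ℕ} {a b : Fn F} (ha : a ∈ AF F m) (hb : b ∈ AF F m') :
    com a b (fun _ => e0 F) = 0 := by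
  obtain ⟨x, y, h1⟩ := Wre_AF ha
  obtain ⟨z, w, h2⟩ := Wre_AF hb
  show a (fun _ => e0 F) * b (fun _ => e0 F) - b (fun _ => e0 F) * a (fun _ => e0 F) = 0
  rw [h1, h2, Wre_d_mul, Wre_d_mul, mul_comm z x, mul_comm w y, sub_self]

theorem sg_mul {m m' : Multiset ℕ} {a b : Fn F} (ha : a ∈ AF F m) (hb : b ∈ AF F m') :
    sg F (a * b) = sg F a * sg F b := by
  obtain ⟨x, y, h1⟩ := Wre_AF ha
  obtain ⟨z, w, h2⟩ := Wre_AF hb
  show ((a * b) (fun _ => e0 F)).m₁ = (a (fun _ => e0 F)).m₁ * (b (fun _ => e0 F)).m₁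
  rw [Pi.mul_apply, h1, h2, Wre_d_mul]
  rfl

theorem Wre_sg0 {f : Fn F} (h : f (fun _ => e0 F) = 0) : sg F f = 0 := by
  show (f (fun _ => e0 F)).m₁ = 0
  rw [h]
  rfl

theorem sg_LF {m : Multiset ℕ} {l : Fn F} (hl : l ∈ LF F m) : sg F l = 0 := by
  obtain ⟨f, hf, rfl⟩ := Submodule.mem_map.1 hl
  change sg F (ev F f) = 0
  have hw : ∀ w : FreeMagma ℕ, ev F (mo F w) ∈ AF F (lets id w) := fun w =>
    UU_le_AF _ (Gen_w w)
  have H1 : ∀ a b c : FreeMagma ℕ,
      F1 (ev F (mo F a)) (ev F (mo F b)) (ev F (mo F c)) (fun _ => e0 F) = 0 := by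
    intro a b c
    show ev F (mo F a) (fun _ => e0 F) * com (ev F (mo F b)) (ev F (mo F c)) (fun _ => e0 F) -
      com (ev F (mo F b)) (ev F (mo F c)) (fun _ => e0 F) * ev F (mo F a) (fun _ => e0 F) = 0
    rw [Wre_com (hw b) (hw c), mul_zero, zero_mul, sub_zero]
  have H3 : ∀ a b c d : FreeMagma ℕ,
      F3 (ev F (mo F a)) (ev F (mo F b)) (ev F (mo F c)) (ev F (mo F d)) (fun _ => e0 F) = 0 := by
    intro a b c d
    show com (ev F (mo F a)) (ev F (mo F b)) (fun _ => e0 F) *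
        com (ev F (mo F c)) (ev F (mo F d)) (fun _ => e0 F) +
      com (ev F (mo F c)) (ev F (mo F d)) (fun _ => e0 F) *
        com (ev F (mo F a)) (ev F (mo F b)) (fun _ => e0 F) = 0
    rw [Wre_com (hw a) (hw b), mul_zero, zero_mul, add_zero]
  refine Submodule.span_induction (p := fun f _ => sg F (ev F f) = 0) ?_ ?_ ?_ ?_ hf
  · intro f hf
    cases hf with
    | f1 a b c =>
      rw [RealL_e1]
      exact Wre_sg0 (H1 a b c)
    | f2 r a b c =>
      rw [RealL_e2]
      exact Wre_sg0 (by rw [Pi.mul_apply, H1, mul_zero])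
    | f3 a b c d =>
      rw [RealL_e3]
      exact Wre_sg0 (H3 a b c d)
    | f4 r a b c d =>
      rw [RealL_e4]
      exact Wre_sg0 (by rw [Pi.mul_apply, H3, mul_zero])
  · rw [map_zero, map_zero]
  · intro f g _ _ hf hg
    rw [map_add, map_add, hf, hg, add_zero]
  · intro k f _ hf
    rw [map_smul, map_smul, hf, smul_zero]

theorem Wre_inv (h2 : (2 : F) ≠ 0) (w : FreeMagma ℕ) :
    sg F (evw F (invW (mo F w))) = (-1) ^ (lets id w).card := by
  induction w with
  | ih1 i =>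
    have h := sg_mo h2 (FreeMagma.of i)
    change sg F (evw F (of F i)) = 1 at h
    show sg F (evw F (invW (of F i))) = (-1) ^ ({i} : Multiset ℕ).card
    rw [invW_of, map_neg, map_neg, h, Multiset.card_singleton, pow_one]
  | ih2 u v hu hv =>
    show sg F (evw F (invW (mo F u * mo F v))) = (-1) ^ (lets id u + lets id v).card
    rw [invW_mul, map_mul, sg_mul (WW_le_AF _ (evw_mem (invW_mem (mo_mem id v))))
      (WW_le_AF _ (evw_mem (invW_mem (mo_mem id u)))), hu, hv, Multiset.card_add, pow_add,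
      mul_comm]

theorem sg_odd (h2 : (2 : F) ≠ 0) {m : Multiset ℕ} (hm : Odd m.card) {a : Fn F} (ha : a ∈ WW F m)
    (hs : IsSc a) : sg F a = 0 := by
  obtain ⟨p, hp, rfl⟩ := ha
  change IsSc (evw F p) at hs
  change sg F (evw F p) = 0
  have h1 : sg F (evw F (invW p)) = (-1) ^ m.card * sg F (evw F p) := by
    refine PP_induction id
      (p := fun p => sg F (evw F (invW p)) = (-1) ^ m.card * sg F (evw F p)) ?_ ?_ ?_ ?_ hp
    · have h0 : invW (0 : FA F) = 0 := by
        have h := invW_smul (0 : F) (0 : FA F)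
        rwa [zero_smul, zero_smul] at h
      rw [h0, map_zero, map_zero, mul_zero]
    · intro f g hf hg
      rw [invW_add, map_add, map_add, map_add, map_add, hf, hg, mul_add]
    · intro k f hf
      rw [invW_smul, map_smul, map_smul, map_smul, map_smul, hf, smul_eq_mul, smul_eq_mul]
      ring
    · rintro w rfl
      rw [Wre_inv h2, sg_mo h2, mul_one]
  rw [evw_invW, hs.star_eq, hm.neg_one_pow] at h1
  have h3 : (2 : F) * sg F (evw F p) = 0 := by linear_combination h1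
  exact (mul_eq_zero.1 h3).resolve_left h2

/-- `z ↦ 1` after the substitution -/
theorem Wre_up1 (Z : Finset ℕ) (z : ℕ) (f : Fn F) :
    sb (Function.update (xz F Z) z 1) f = sb (xz F Z) (sb (up F z 1) f) := by
  funext v
  rw [sb_apply, sb_apply, sb_apply]
  congr 1
  funext i
  by_cases h : i = z
  · subst h
    rw [Function.update_self, Real_up_self]
    rfl
  · unfold up
    rw [Function.update_of_ne h, Function.update_of_ne h]
    rfl

theorem Wre_xz_notMem {Z : Finset ℕ} {i : ℕ} (h : i ∉ Z) : xz F Z i = XX F i := by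
  unfold xz
  rw [if_neg h]

theorem Wre_xz_mem {Z : Finset ℕ} {i : ℕ} (h : i ∈ Z) : xz F Z i = x0 F i := by
  unfold xz
  rw [if_pos h]

theorem sbX_insert (h2 : (2 : F) ≠ 0) {m : Multiset ℕ} (hm : m.Nodup) {z : ℕ} (hz : z ∈ m)
    {Z : Finset ℕ} (hZ : z ∉ Z) {f : Fn F} (hf : f ∈ AF F m) :
    sb (xz F (insert z Z)) f =
      sb (xz F Z) f - (2 : F)⁻¹ • (tX F z * sb (Function.update (xz F Z) z 1) f) := by
  have e1 : sb (xz F (insert z Z)) f = sb (xz F Z) (sb (up F z (x0 F z)) f) := by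
    funext v
    rw [sb_apply, sb_apply, sb_apply]
    congr 1
    funext i
    by_cases h : i = z
    · subst h
      rw [Real_up_self, Wre_xz_mem (Finset.mem_insert_self i Z)]
      show (2 : F)⁻¹ • (v i - star (v i)) = (2 : F)⁻¹ • (xz F Z i v - star (xz F Z i v))
      rw [Wre_xz_notMem hZ]
      rfl
    · unfold up
      rw [Function.update_of_ne h]
      show xz F (insert z Z) i v = xz F Z i v
      by_cases h1 : i ∈ Z
      · rw [Wre_xz_mem (Finset.mem_insert_of_mem h1), Wre_xz_mem h1]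
      · rw [Wre_xz_notMem h1, Wre_xz_notMem (by
          rw [Finset.mem_insert]
          exact fun h2 => h2.elim h h1)]
  have hc : IsSc (-((2 : F)⁻¹ • tX F z)) := by
    obtain ⟨s, hs⟩ := isSc_tX (F := F) z
    exact ⟨fun v => -((2 : F)⁻¹ * s v), fun v => by
      rw [Pi.neg_apply, Pi.smul_apply, hs, smul_smul, neg_smul]⟩
  have e2 : x0 F z = XX F z + -((2 : F)⁻¹ • tX F z) * 1 := by
    rw [x0_eq h2, mul_one, sub_eq_add_neg]
  have e3 : up F z (XX F z) = XX F := by
    unfold up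
    rw [Function.update_eq_self]
  have e4 : sb (xz F Z) (-((2 : F)⁻¹ • tX F z)) = -((2 : F)⁻¹ • tX F z) := by
    have h1 : sb (xz F Z) (tX F z) = tX F z := by
      rw [Real_sb_tX, Wre_xz_notMem hZ]
      rfl
    rw [map_neg, map_smul, h1]
  rw [e1, e2, sb_up_add hm hz hf, sb_up_sc hm hz hf hc, e3, Real_sb_id, map_add, map_mul, e4,
    ← Wre_up1, neg_mul, smul_mul_assoc, sub_eq_add_neg]

theorem sbX_LF (h2 : (2 : F) ≠ 0) (h3 : (3 : F) ≠ 0) {m : Multiset ℕ} (hm : m.Nodup)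
    (Z : Finset ℕ) {l : Fn F} (hl : l ∈ LF F m) : sb (xz F Z) l ∈ LF F m := by
  classical
  induction Z using Finset.induction_on generalizing m l with
  | empty =>
    have h : xz F ∅ = XX F := by
      funext i
      exact Wre_xz_notMem (Finset.notMem_empty i)
    rw [h, Real_sb_id]
    exact hl
  | insert z Z hZ ih =>
    have hA : l ∈ AF F m := UU_le_AF m (LF_le_UU m hl)
    by_cases hz : z ∈ m
    · rw [sbX_insert h2 hm hz hZ hA, Wre_up1]
      refine Submodule.sub_mem _ (ih hm hl) (Submodule.smul_mem _ _ ?_)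
      have h1 := tX_LF h2 h3 z (ih (hm.erase z) (LF_sub1 hm hz hl))
      rwa [Multiset.singleton_add, Multiset.cons_erase hz] at h1
    · have h1 : sb (xz F (insert z Z)) l = sb (xz F Z) l := by
        refine sb_congr hA fun i hi => ?_
        have hne : i ≠ z := by
          rintro rfl
          exact hz hi
        by_cases h4 : i ∈ Z
        · rw [Wre_xz_mem (Finset.mem_insert_of_mem h4), Wre_xz_mem h4]
        · rw [Wre_xz_notMem h4, Wre_xz_notMem (by
            rw [Finset.mem_insert]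
            exact fun h5 => h5.elim hne h4)]
      rw [h1]
      exact ih hm hl

theorem sbX1_LF (h2 : (2 : F) ≠ 0) (h3 : (3 : F) ≠ 0) {m : Multiset ℕ} (hm : m.Nodup)
    (Z : Finset ℕ) {z : ℕ} (hz : z ∈ m) {l : Fn F} (hl : l ∈ LF F m) :
    sb (Function.update (xz F Z) z 1) l ∈ LF F (m.erase z) := by
  rw [Wre_up1]
  exact sbX_LF h2 h3 (hm.erase z) Z (LF_sub1 hm hz hl)

/-- `l ↦ l(x⁰)` maps the forms to forms -/
theorem sb0_LF (h2 : (2 : F) ≠ 0) (h3 : (3 : F) ≠ 0) {m : Multiset ℕ} (hm : m.Nodup) {l : Fn F}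
    (hl : l ∈ LF F m) : sb (x0 F) l ∈ LF F m ∧ sb (x0 F) l ∈ WW F m := by
  classical
  constructor
  · have h1 : sb (x0 F) l = sb (xz F m.toFinset) l := by
      refine sb_congr (UU_le_AF m (LF_le_UU m hl)) fun i hi => ?_
      rw [Wre_xz_mem (Multiset.mem_toFinset.2 hi)]
    rw [h1]
    exact sbX_LF h2 h3 hm _ hl
  · obtain ⟨f, hf, rfl⟩ := Submodule.mem_map.1 hl
    have h1 : sb (x0 F) (ev F f) = evw F f := (evw_eq f).symm
    change sb (x0 F) (ev F f) ∈ WW F m
    rw [h1]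
    exact evw_mem (LP_le m hf)

theorem Wre_pair (h2 : (2 : F) ≠ 0) (i j : ℕ) : ∃ q : Fn F,
    q ∈ WW F ({i} + {j}) ∧ sg F q = 1 ∧ IsSc q := by
  refine ⟨(2 : F)⁻¹ • (x0 F i * x0 F j + x0 F j * x0 F i), ?_, ?_, ?_⟩
  · refine Submodule.smul_mem _ _ (Submodule.add_mem _ (WW_mul (x0_mem i) (x0_mem j)) ?_)
    rw [add_comm ({i} : Multiset ℕ) {j}]
    exact WW_mul (x0_mem j) (x0_mem i)
  · have h1 : ∀ k, sg F (x0 F k) = 1 := fun k => by
      have h := sg_mo h2 (FreeMagma.of k)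
      have h' : evw F (mo F (FreeMagma.of k)) = x0 F k := Wre_of k
      rwa [h'] at h
    rw [map_smul, map_add, sg_mul (x0_mem_AF i) (x0_mem_AF j), sg_mul (x0_mem_AF j) (x0_mem_AF i),
      h1, h1, one_mul, one_add_one_eq_two, smul_eq_mul, inv_mul_cancel₀ h2]
  · obtain ⟨s, hs⟩ := isSc_mul_star (x0 F i) (x0 F j)
    refine ⟨fun v => -((2 : F)⁻¹ * s v), fun v => ?_⟩
    have e : x0 F i * x0 F j + x0 F j * x0 F i =
        -(x0 F i * star (x0 F j) + x0 F j * star (x0 F i)) := by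
      rw [star_x0, star_x0, mul_neg, mul_neg, neg_add, neg_neg, neg_neg]
    rw [e, Pi.smul_apply, Pi.neg_apply, hs, smul_neg, smul_smul, neg_smul]

theorem Wre_S (h2 : (2 : F) ≠ 0) (n : ℕ) : ∀ m : Multiset ℕ, m.card = n → m ≠ 0 →
    ∃ s : Fn F, s ∈ WW F m ∧ sg F s = 1 ∧ (Even m.card → IsSc s) := by
  induction n using Nat.strong_induction_on with
  | _ n ih =>
    intro m hn hm
    obtain ⟨i, hi⟩ := Multiset.exists_mem_of_ne_zero hm
    obtain ⟨m₁, rfl⟩ := Multiset.exists_cons_of_mem hi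
    by_cases h1 : m₁ = 0
    · subst h1
      refine ⟨x0 F i, x0_mem i, ?_, ?_⟩
      · have h := sg_mo h2 (FreeMagma.of i)
        have h' : evw F (mo F (FreeMagma.of i)) = x0 F i := Wre_of i
        rwa [h'] at h
      · intro h3
        rw [Multiset.card_cons, Multiset.card_zero, Nat.even_iff] at h3
        omega
    · obtain ⟨j, hj⟩ := Multiset.exists_mem_of_ne_zero h1
      obtain ⟨m₂, rfl⟩ := Multiset.exists_cons_of_mem hj
      obtain ⟨q, hq1, hq2, hq3⟩ := Wre_pair h2 i j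
      have e : i ::ₘ j ::ₘ m₂ = {i} + {j} + m₂ := by
        rw [add_assoc, Multiset.singleton_add, Multiset.singleton_add]
      by_cases h3 : m₂ = 0
      · subst h3
        refine ⟨q, ?_, hq2, fun _ => hq3⟩
        rw [e, add_zero]
        exact hq1
      · rw [Multiset.card_cons, Multiset.card_cons] at hn
        obtain ⟨s, hs1, hs2, hs3⟩ := ih m₂.card (by omega) m₂ rfl h3
        refine ⟨q * s, ?_, ?_, ?_⟩
        · rw [e]
          exact WW_mul hq1 hs1
        · rw [sg_mul (WW_le_AF _ hq1) (WW_le_AF _ hs1), hq2, hs2, one_mul]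
        · intro h4
          rw [Multiset.card_cons, Multiset.card_cons] at h4
          refine hq3.mul (hs3 ?_)
          rw [Nat.even_iff] at h4 ⊢
          omega

/-- elements with `sg = 1`, scalar in even degree -/
theorem exists_S (h2 : (2 : F) ≠ 0) : ∃ S : Multiset ℕ → Fn F, ∀ m : Multiset ℕ, m ≠ 0 →
    S m ∈ WW F m ∧ sg F (S m) = 1 ∧ (Even m.card → IsSc (S m)) := by
  have h : ∀ m : Multiset ℕ, ∃ s : Fn F, m ≠ 0 →
      s ∈ WW F m ∧ sg F s = 1 ∧ (Even m.card → IsSc s) := by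
    intro m
    by_cases hm : m = 0
    · exact ⟨0, fun h => absurd hm h⟩
    · obtain ⟨s, hs⟩ := Wre_S h2 m.card m rfl hm
      exact ⟨s, fun _ => hs⟩
  choose S hS using h
  exact ⟨S, hS⟩

end Pool.Agent.OB
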