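import Pool.Agent.OB.XD

/-!
# The expressions `GG` and `LM`  (module XA)

`GG_hom`: induction on `K` (with all arguments general), `LM_hom` for the step. `LM_oc`: if `g a b c = k • F1 a b c` then
`A3 g d a b c = k • com d (com (com a b) c + com (com b c) a + com (com c a) b) = (6 k) • com d (associator a b c)` (`six_oc`), so
`LM F g d a b c = (k / 12) • lam12 d a b c`, and `lam12_oc`. `GG_oc`: induction on `K` with all arguments general:
`tt x • F1 a b c = jor x (F1 a b c) + F3 a x b c`: for `w = com b c` (trace 0) `g1_oc` gives `tt x • com a w = com a (jor x w)` and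
`com a (jor x w) = jor (com a x) w + jor x (com a w)` by `comJor` (true in alternative algebras; see `comJor_R` in Ids for the
exact statement, with `sat_Fn`, or do it by `jor_oc` and traces: `jor x u = tt x • u - tt (x * star u) • 1` for `tt u = 0`).
`tt x • F3 a b c d = 2 • (x * F3 a b c d) - 2 • (tt (com a b * com c d) • y0 x)` since `F3 a b c d = tt (com a b * com c d) • 1`
(`f3_scalar`) and `2 • y0 x = 2 • x - tt x • 1`.
-/

set_option autoImplicit false
set_option linter.unusedSectionVars false

namespace Pool.Agent.OBX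

open FreeNonUnitalNonAssocAlgebra Pool.Agent.H.MP_41922c_al Pool.Agent.Smt Pool.Agent.OB

variable {F : Type*} [Field F]

section hom

variable {A B : Type*} [NonUnitalNonAssocRing A] [Module F A] [NonUnitalNonAssocRing B] [Module F B]

theorem XA_com (φ : A →ₙₐ[F] B) (a b : A) : φ (com a b) = com (φ a) (φ b) := by
  simp only [com, map_sub, map_mul]

theorem XA_jor (φ : A →ₙₐ[F] B) (a b : A) : φ (jor a b) = jor (φ a) (φ b) := by
  simp only [jor, map_add, map_mul]

theorem LM_hom (φ : A →ₙₐ[F] B) {g : A → A → A → A} {g' : B → B → B → B}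
    (h : ∀ a b c, φ (g a b c) = g' (φ a) (φ b) (φ c)) (d a b c : A) :
    φ (LM F g d a b c) = LM F g' (φ d) (φ a) (φ b) (φ c) := by
  simp only [LM, A3, map_smul, map_sub, map_add, map_nsmul, h, XA_com]

theorem GG_hom (φ : A →ₙₐ[F] B) (K : List A) :
    (∀ a b c, φ ((GG F K).1 a b c) = (GG F (K.map φ)).1 (φ a) (φ b) (φ c)) ∧
    (∀ a b c d, φ ((GG F K).2 a b c d) = (GG F (K.map φ)).2 (φ a) (φ b) (φ c) (φ d)) := by
  induction K with
  | nil =>
    refine ⟨fun a b c => ?_, fun a b c d => ?_⟩
    · simp only [GG, List.map_nil, F1, XA_com]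
    · simp only [GG, List.map_nil, F3, XA_com, XA_jor]
  | cons x K ih =>
    refine ⟨fun a b c => ?_, fun a b c d => ?_⟩
    · simp only [GG, List.map_cons, map_add, XA_jor, ih.1, ih.2]
    · simp only [GG, List.map_cons, map_sub, map_nsmul, map_mul, ih.2, LM_hom φ ih.1, XA_com]

end hom

theorem XA_com_add (d x y : Oc F) : com d (x + y) = com d x + com d y := by
  unfold com
  rw [mul_add, add_mul]
  abel

theorem XA_A3 {g : Oc F → Oc F → Oc F → Oc F} {k : F}
    (h : ∀ a b c, g a b c = k • F1 a b c) (d a b c : Oc F) :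
    A3 g d a b c = (6 * k) • com d (associator a b c) := by
  have h6 := six_oc a b c
  have h7 : com d (6 • associator a b c) =
      com d (com (com a b) c) + com d (com (com b c) a) + com d (com (com c a) b) := by
    rw [h6, XA_com_add, XA_com_add]
  have h8 : com d (6 • associator a b c) = (6 : F) • com d (associator a b c) := by
    rw [← Oct_com_smul]
    congr 1
    rw [← Nat.cast_smul_eq_nsmul F]
    norm_num
  unfold A3
  rw [h, h, h]
  unfold F1
  rw [← smul_add, ← smul_add, ← h7, h8, smul_smul, mul_comm]

theorem XA_lam {g : Oc F → Oc F → Oc F → Oc F} {k : F}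
    (h : ∀ a b c, g a b c = k • F1 a b c) (d a b c : Oc F) :
    LM F g d a b c = ((36 : F)⁻¹ * 3 * k) • lam12 d a b c := by
  unfold LM
  rw [XA_A3 h, XA_A3 h, XA_A3 h, XA_A3 h, h, h, h]
  unfold lam12 F1
  generalize (36 : F)⁻¹ = w
  generalize com d (associator a b c) = X1
  generalize com a (associator b c d) = X2
  generalize com b (associator c a d) = X3
  generalize com c (associator a b d) = X4
  generalize com (com a b) (com c d) = Y1
  generalize com (com b c) (com a d) = Y2
  generalize com (com c a) (com b d) = Y3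
  module

theorem LM_oc (h2 : (2 : F) ≠ 0) (h3 : (3 : F) ≠ 0) {g : Oc F → Oc F → Oc F → Oc F} {k : F}
    (h : ∀ a b c, g a b c = k • F1 a b c) (d a b c : Oc F) :
    LM F g d a b c = (k * tt (com a b * c)) • y0 d := by
  rw [XA_lam h, lam12_oc]
  unfold y0
  generalize tt (com a b * c) = t
  generalize tt d = s
  have h36 : (36 : F) ≠ 0 := by
    have : (36 : F) = 2 * 2 * (3 * 3) := by norm_num
    rw [this]
    exact mul_ne_zero (mul_ne_zero h2 h2) (mul_ne_zero h3 h3)
  have e1 : (36 : F) * (36 : F)⁻¹ = 1 := mul_inv_cancel₀ h36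
  have e2 : (2 : F) * (2 : F)⁻¹ = 1 := mul_inv_cancel₀ h2
  generalize (36 : F)⁻¹ = w at e1 ⊢
  generalize (2 : F)⁻¹ = v at e2 ⊢
  have c1 : w * 3 * k * t * 12 = k * t := by linear_combination (k * t) * e1
  have c2 : w * 3 * k * t * (6 * s) = k * t * (v * s) := by
    linear_combination (k * t * s * v) * e1 - (18 * w * k * t * s) * e2
  have e3 : (w * 3 * k) • t • (12 • d - (6 * s) • (1 : Oc F)) =
      (w * 3 * k * t * 12) • d - (w * 3 * k * t * (6 * s)) • (1 : Oc F) := by module
  rw [e3, c1, c2]
  module

theorem XA_comMul (a b c : Oc F) : com a (b * c) = b * com a c + com a b * c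
      - (associator a b c + associator b c a - associator b a c) := by
  simp only [com, associator_apply, sub_mul, mul_sub]
  abel

theorem XA_comJor (a u w : Oc F) : com a (jor u w) = jor (com a u) w + jor u (com a w) := by
  have h0 : com a (jor u w) = com a (u * w) + com a (w * u) := by
    simp only [com, jor, mul_add, add_mul]
    abel
  rw [h0, XA_comMul a u w, XA_comMul a w u, alt23_oc a w u, alt12_oc w u a, alt12_oc w a u,
    alt23_oc a w u, alt12_oc u a w, alt23_oc u w a, alt12_oc u a w]
  simp only [jor]
  abel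

theorem GG_oc (h2 : (2 : F) ≠ 0) (h3 : (3 : F) ≠ 0) (K : List (Oc F)) :
    (∀ a b c, (GG F K).1 a b c = (K.map tt).prod • F1 a b c) ∧
    (∀ a b c d, (GG F K).2 a b c d = (K.map tt).prod • F3 a b c d) := by
  induction K with
  | nil =>
    refine ⟨fun a b c => ?_, fun a b c d => ?_⟩
    · simp only [GG, List.map_nil, List.prod_nil, one_smul]
    · simp only [GG, List.map_nil, List.prod_nil, one_smul]
  | cons x K ih =>
    refine ⟨fun a b c => ?_, fun a b c d => ?_⟩
    · simp only [GG, List.map_cons, List.prod_cons]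
      rw [ih.1, ih.2]
      have hc := com_jor_oc a x (com b c) (tt_com b c)
      rw [XA_comJor] at hc
      generalize (K.map tt).prod = p
      have e1 : jor x (p • F1 a b c) = p • jor x (F1 a b c) := by
        unfold jor
        rw [mul_smul_comm, smul_mul_assoc, smul_add]
      rw [e1, ← smul_add]
      have e2 : jor x (F1 a b c) + F3 a x b c = tt x • F1 a b c := by
        unfold F1 F3
        rw [← hc, add_comm]
      rw [e2, smul_smul, mul_comm]
    · simp only [GG, List.map_cons, List.prod_cons]
      rw [ih.2, LM_oc h2 h3 ih.1, f3_scalar]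
      generalize (K.map tt).prod = p
      generalize tt (com a b * com c d) = s
      unfold y0
      have e2 : (2 : F) * (2 : F)⁻¹ = 1 := mul_inv_cancel₀ h2
      generalize (2 : F)⁻¹ = v at e2 ⊢
      rw [mul_smul_comm, mul_smul_comm, mul_one]
      generalize tt x = t
      have e3 : 2 • p • s • x - 2 • (p * s) • (x - (v * t) • (1 : Oc F)) =
          ((2 * v) * (t * p * s)) • (1 : Oc F) := by module
      rw [e3, e2, one_mul, smul_smul]

end Pool.Agent.OBX
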