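import Pool.Agent.OB.XA

/-!
# Representations: the basic operations  (module XB)

`tt_y0`: `tt 1 = 2`. `jor_y0`: `jor_traceless`. `Rp_yl`: at `v`, `K`: `lift F v (of F i * g K - 2⁻¹ • g (i :: K)) =
v i * (tK v K • l v) - 2⁻¹ • (tt (v i) * tK v K) • l v = tK v K • (y0 (v i) * l v)`. `Rp_qq`: `y (y' l) + y' (y l) = (y ∘ y') l` in
an alternative algebra (`alt12_oc`: `associator y y' l = - associator y' y l`) and `jor_y0`. `Rp_QP`: induction along the definition
of `QP` (`QP.induct`, or induction on the length in steps of 2). `Rp_yls`: induction. `Rp_g1`: `GG_hom` for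
`lift F v` and `GG_oc` (`(K.map (of F)).map (lift F v) = K.map v`). `Rp_lm`: `LM_hom`, `GG_hom`, `LM_oc`, `GG_oc`.
-/

set_option autoImplicit false
set_option linter.unusedSectionVars false

namespace Pool.Agent.OBX

open FreeNonUnitalNonAssocAlgebra Pool.Agent.H.MP_41922c_al Pool.Agent.Smt Pool.Agent.OB

variable {F : Type*} [Field F]

theorem tK_nil (v : ℕ → Oc F) : tK v [] = 1 := by
  simp [tK]

theorem tK_cons (v : ℕ → Oc F) (i : ℕ) (K : List ℕ) : tK v (i :: K) = tt (v i) * tK v K := by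
  rw [tK, List.map_cons, List.prod_cons, tK]

theorem tK_append (v : ℕ → Oc F) (K L : List ℕ) : tK v (K ++ L) = tK v K * tK v L := by
  rw [tK, List.map_append, List.prod_append, tK, tK]

theorem tt_y0 (h2 : (2 : F) ≠ 0) (a : Oc F) : tt (y0 a) = 0 := by
  rw [y0, Oct_tt_sub, tt_smul, tt_one]
  field_simp
  ring

theorem com_y0 (a b : Oc F) : com a (y0 b) = com a b := by
  rw [y0, Oct_com_sub, Oct_com_smul, com_one, smul_zero, sub_zero]

theorem y0_com (a b : Oc F) : com (y0 a) b = com a b := by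
  rw [Oct_com_swap, com_y0, ← Oct_com_swap]

theorem jor_y0 (h2 : (2 : F) ≠ 0) (a b : Oc F) : jor (y0 a) (y0 b) = qf a b • (1 : Oc F) := by
  exact jor_traceless _ _ (tt_y0 h2 a) (tt_y0 h2 b)

theorem qf_comm (a b : Oc F) : qf a b = qf b a := by
  exact tt_comm _ _

theorem Rp.congr {g : Rep F} {l l' : (ℕ → Oc F) → Oc F} (h : Rp g l) (e : ∀ v, l v = l' v) : Rp g l' := by
  intro v K
  rw [h v K, e v]

theorem Rp_zero : Rp (0 : Rep F) (fun _ => 0) := by
  intro v K
  show lift F v (0 : FA F) = _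
  rw [map_zero, smul_zero]

theorem Rp.add {g g' : Rep F} {l l' : (ℕ → Oc F) → Oc F} (h : Rp g l) (h' : Rp g' l') :
    Rp (g + g') (fun v => l v + l' v) := by
  intro v K
  show lift F v (g K + g' K) = _
  rw [map_add, h v K, h' v K, smul_add]

theorem Rp.sub {g g' : Rep F} {l l' : (ℕ → Oc F) → Oc F} (h : Rp g l) (h' : Rp g' l') :
    Rp (g - g') (fun v => l v - l' v) := by
  intro v K
  show lift F v (g K - g' K) = _
  rw [map_sub, h v K, h' v K, smul_sub]

theorem Rp.smul (c : F) {g : Rep F} {l : (ℕ → Oc F) → Oc F} (h : Rp g l) :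
    Rp (c • g) (fun v => c • l v) := by
  intro v K
  show lift F v (c • g K) = _
  rw [map_smul, h v K, smul_comm]

theorem Rp.nsmul (n : ℕ) {g : Rep F} {l : (ℕ → Oc F) → Oc F} (h : Rp g l) :
    Rp (n • g) (fun v => n • l v) := by
  intro v K
  show lift F v (n • g K) = _
  rw [map_nsmul, h v K, smul_comm]

theorem Rp_yl (h2 : (2 : F) ≠ 0) (i : ℕ) {g : Rep F} {l : (ℕ → Oc F) → Oc F} (h : Rp g l) :
    Rp (yl i g) (fun v => y0 (v i) * l v) := by
  intro v K
  show lift F v (of F i * g K - (2 : F)⁻¹ • g (i :: K)) = _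
  rw [map_sub, map_mul, map_smul, lift_of_apply, h v K, h v (i :: K), tK_cons]
  simp only [y0, sub_mul, mul_smul_comm, smul_mul_assoc, one_mul]
  module

theorem Rp_yr (h2 : (2 : F) ≠ 0) (i : ℕ) {g : Rep F} {l : (ℕ → Oc F) → Oc F} (h : Rp g l) :
    Rp (yr i g) (fun v => l v * y0 (v i)) := by
  intro v K
  show lift F v (g K * of F i - (2 : F)⁻¹ • g (i :: K)) = _
  rw [map_sub, map_mul, map_smul, lift_of_apply, h v K, h v (i :: K), tK_cons]
  simp only [y0, mul_sub, mul_smul_comm, smul_mul_assoc, mul_one]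
  module

theorem Rp_yj (h2 : (2 : F) ≠ 0) (i : ℕ) {g : Rep F} {l : (ℕ → Oc F) → Oc F} (h : Rp g l) :
    Rp (yj i g) (fun v => jor (y0 (v i)) (l v)) := by
  exact (Rp_yl h2 i h).add (Rp_yr h2 i h)

theorem Rp_qq (h2 : (2 : F) ≠ 0) (i j : ℕ) {g : Rep F} {l : (ℕ → Oc F) → Oc F} (h : Rp g l) :
    Rp (qq i j g) (fun v => qf (v i) (v j) • l v) := by
  refine ((Rp_yl h2 i (Rp_yl h2 j h)).add (Rp_yl h2 j (Rp_yl h2 i h))).congr fun v => ?_
  have h3 := alt12_oc (y0 (v i)) (y0 (v j)) (l v)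
  have h4 := jor_y0 h2 (v i) (v j)
  have h5 : jor (y0 (v i)) (y0 (v j)) * l v = qf (v i) (v j) • l v := by
    rw [h4, smul_mul_assoc, one_mul]
  rw [← h5]
  unfold associator at h3
  unfold jor
  rw [add_mul]
  linear_combination (norm := abel) -h3

theorem Rp_QP (h2 : (2 : F) ≠ 0) (M : List ℕ) {g : Rep F} {l : (ℕ → Oc F) → Oc F} (h : Rp g l) :
    Rp (QP M g) (fun v => qP v M • l v) := by
  match M with
  | [] => exact h.congr fun v => by simp [qP]
  | [a] => exact h.congr fun v => by simp [qP]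
  | a :: b :: M =>
    exact (Rp_qq h2 a b (Rp_QP h2 M h)).congr fun v => by rw [qP, mul_smul]

theorem Rp_yls (h2 : (2 : F) ≠ 0) (L : List ℕ) {g : Rep F} {l : (ℕ → Oc F) → Oc F} (h : Rp g l) :
    Rp (yls L g) (fun v => Rl v L (l v)) := by
  induction L with
  | nil => exact h
  | cons i L ih => exact Rp_yl h2 i ih

theorem XB_prod (v : ℕ → Oc F) (K : List ℕ) :
    (((K.map (of F)).map (lift F v)).map tt).prod = tK v K := by
  rw [tK, List.map_map, List.map_map]
  congr 1
  refine List.map_congr_left fun i _ => ?_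
  rw [Function.comp_apply, Function.comp_apply, lift_of_apply]

theorem Rp_g1 (h2 : (2 : F) ≠ 0) (h3 : (3 : F) ≠ 0) (a b c : FA F) :
    Rp (g1 a b c) (fun v => F1 (lift F v a) (lift F v b) (lift F v c)) := by
  intro v K
  show lift F v ((GG F (K.map (of F))).1 a b c) = _
  rw [(GG_hom (lift F v) (K.map (of F))).1, (GG_oc h2 h3 _).1, XB_prod]

theorem Rp_lm (h2 : (2 : F) ≠ 0) (h3 : (3 : F) ≠ 0) (d a b c : FA F) :
    Rp (lm d a b c) (fun v => tt (com (lift F v a) (lift F v b) * lift F v c) • y0 (lift F v d)) := by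
  intro v K
  show lift F v (LM F (GG F (K.map (of F))).1 d a b c) = _
  rw [LM_hom (lift F v) (GG_hom (lift F v) (K.map (of F))).1, LM_oc h2 h3 (GG_oc h2 h3 _).1,
    XB_prod, mul_smul]

end Pool.Agent.OBX
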