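import Pool.Agent.OB.XB

/-!
# `T0` and `Ex`  (module XB2)

`four_q`: for traceless `u, v, w`: `4 q(u,v) w = [u,[v,w]] + [v,[u,w]] + 2 q(u,w) v + 2 q(v,w) u`, where `q(a,b) = t(a b)`:
by coordinates (`obtain` the coordinates, `m₄ = -m₁`, `ext <;> simp <;> ring`) or from `u (u w) = u² w` etc.
`Rp_T0`: `Rp_g1`, `Rp_lm`; `four_q` for `u = y0 a`, `v = y0 b`, `w = com i j` (`tt_com`), where
`tt (y0 a * com i j) = tt (com a i * j)` (compare the step `h2` in the proof of `g3_oc`), and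
`F1 a b w = com a (com b w) = com (y0 a) (com (y0 b) w)`.
`Rp_Ex`: `q(k,j) i - q(k,i) j = 1/6 (2 [k,[j,i]] + [j,[k,i]] - [i,[k,j]])` for traceless elements, from `four_q` for three orders
(`[i,[k,j]] = -[i,[j,k]]` etc.).
-/

set_option autoImplicit false
set_option linter.unusedSectionVars false

namespace Pool.Agent.OBX

open FreeNonUnitalNonAssocAlgebra Pool.Agent.H.MP_41922c_al Pool.Agent.Smt Pool.Agent.OB

variable {F : Type*} [Field F]

private theorem XB2_t (x a b : Oc F) : tt (y0 x * com a b) = tt (com x a * b) := by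
  have h1 : tt (y0 x * com a b) = tt (x * com a b) := by
    unfold y0
    rw [sub_mul, Oct_tt_sub, smul_mul_assoc, one_mul, tt_smul, tt_com, mul_zero, sub_zero]
  rw [h1]
  unfold com
  rw [sub_mul, mul_sub, Oct_tt_sub, Oct_tt_sub, tt_assoc, tt_assoc, tt_comm a (x * b), tt_assoc]

private theorem XB2_f (x y z : Oc F) : com (y0 x) (com y z) = com x (com y z) := y0_com x _

private theorem XB2_n (x y : Oc F) : com x (-y) = -com x y := by
  unfold com
  rw [mul_neg, neg_mul]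
  abel

theorem four_q (h2 : (2 : F) ≠ 0) {u v w : Oc F} (hu : tt u = 0) (hv : tt v = 0) (hw : tt w = 0) :
    (4 * tt (u * v)) • w = com u (com v w) + com v (com u w) + (2 * tt (u * w)) • v
      + (2 * tt (v * w)) • u := by
  have eu : u.m₄ = -u.m₁ := by
    rw [Oct_tt] at hu
    exact (neg_eq_of_add_eq_zero_right hu).symm
  have ev : v.m₄ = -v.m₁ := by
    rw [Oct_tt] at hv
    exact (neg_eq_of_add_eq_zero_right hv).symm
  have ew : w.m₄ = -w.m₁ := by
    rw [Oct_tt] at hw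
    exact (neg_eq_of_add_eq_zero_right hw).symm
  obtain ⟨u1, u2, u3, u4, u5, u6, u7, u8⟩ := u
  obtain ⟨v1, v2, v3, v4, v5, v6, v7, v8⟩ := v
  obtain ⟨w1, w2, w3, w4, w5, w6, w7, w8⟩ := w
  simp only at eu ev ew
  subst eu ev ew
  simp only [Oct_tt, Oct_com_def, Oc.add_def, Oc.mul_def, Oc.smul_def, smul_eq_mul]
  ext <;> ring

theorem Rp_T0 (h2 : (2 : F) ≠ 0) (h3 : (3 : F) ≠ 0) (a b i j : ℕ) :
    Rp (T0 (F := F) a b i j) (fun v => qf (v a) (v b) • com (v i) (v j)) := by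
  have h4 : (4 : F) ≠ 0 := by
    have e : (4 : F) = 2 * 2 := by norm_num
    rw [e]
    exact mul_ne_zero h2 h2
  refine ((((Rp_g1 h2 h3 (of F a) (of F b) (com (of F i) (of F j))).add
    (Rp_g1 h2 h3 (of F b) (of F a) (com (of F i) (of F j)))).smul _).add
    (((Rp_lm h2 h3 (of F b) (of F a) (of F i) (of F j)).add
      (Rp_lm h2 h3 (of F a) (of F b) (of F i) (of F j))).smul _)).congr fun v => ?_
  have e1 : lift F v (com (of F i) (of F j)) = com (v i) (v j) := by
    unfold com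
    rw [map_sub, map_mul, map_mul, lift_of_apply, lift_of_apply]
  simp only [e1, lift_of_apply]
  have h := four_q h2 (tt_y0 h2 (v a)) (tt_y0 h2 (v b)) (tt_com (v i) (v j))
  have e2 : ∀ x : Oc F, tt (y0 x * com (v i) (v j)) = tt (com x (v i) * v j) := fun x =>
    XB2_t x (v i) (v j)
  rw [e2, e2, y0_com, XB2_f, y0_com, XB2_f] at h
  unfold F1 qf
  have h5 : tt (y0 (v a) * y0 (v b)) • com (v i) (v j) =
      (4 : F)⁻¹ • ((4 * tt (y0 (v a) * y0 (v b))) • com (v i) (v j)) := by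
    rw [smul_smul, ← mul_assoc, inv_mul_cancel₀ h4, one_mul]
  rw [h5, h]
  have h6 : (4 : F)⁻¹ * 2 = 2⁻¹ := by
    field_simp
    norm_num
  rw [← h6]
  module

theorem Rp_Ex (h2 : (2 : F) ≠ 0) (h3 : (3 : F) ≠ 0) (k j i : ℕ) :
    Rp (Ex (F := F) k j i) (fun v => qf (v k) (v j) • y0 (v i) - qf (v k) (v i) • y0 (v j)) := by
  have h6 : (6 : F) ≠ 0 := by
    have e : (6 : F) = 2 * 3 := by norm_num
    rw [e]
    exact mul_ne_zero h2 h3
  refine (((((Rp_g1 h2 h3 (of F k) (of F j) (of F i)).nsmul 2).add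
    (Rp_g1 h2 h3 (of F j) (of F k) (of F i))).sub
    (Rp_g1 h2 h3 (of F i) (of F k) (of F j))).smul _).congr fun v => ?_
  simp only [lift_of_apply]
  have e1 := four_q h2 (tt_y0 h2 (v k)) (tt_y0 h2 (v j)) (tt_y0 h2 (v i))
  have e2 := four_q h2 (tt_y0 h2 (v k)) (tt_y0 h2 (v i)) (tt_y0 h2 (v j))
  rw [com_y0, y0_com, y0_com, com_y0, y0_com, y0_com, tt_comm (y0 (v j)) (y0 (v i))] at e1
  rw [com_y0, y0_com, y0_com, com_y0, y0_com, y0_com] at e2
  have e3 : com (v k) (com (v i) (v j)) = -com (v k) (com (v j) (v i)) := by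
    rw [Oct_com_swap (v i) (v j), XB2_n]
  rw [e3] at e2
  unfold F1 qf
  have e4 : (6 : F) • (tt (y0 (v k) * y0 (v j)) • y0 (v i) - tt (y0 (v k) * y0 (v i)) • y0 (v j)) =
      2 • com (v k) (com (v j) (v i)) + com (v j) (com (v k) (v i))
        - com (v i) (com (v k) (v j)) := by
    linear_combination (norm := module) e1 - e2
  rw [← e4, smul_smul, inv_mul_cancel₀ h6, one_smul]

end Pool.Agent.OBX
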