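import Pool.Agent.OB.XB2

/-!
# Right-normed words  (module XC)

Induction along the definition of `RN`. For `[d, a, b, c]`, with `y_a = y0 (v a)` etc.:
`y_b y_c = 1/2 q(b,c) + 1/2 [b,c]` (`jor_y0`, `y0_com`, `com_y0`), `y_a [b,c] = 1/2 τ(a,b,c) + 1/2 [a,[b,c]]`, where
`y_a ∘ [b,c] = tt (y_a * [b,c]) • 1 = tt (com a b * c) • 1 = τ(a,b,c)` (`jor_traceless`), so
`y_d (y_a (y_b y_c)) = 1/4 q(b,c) (q(d,a) + [d,a]) + 1/4 τ(a,b,c) y_d + 1/4 y_d [a,[b,c]]`. `Rp_T0`, `Rp_lm`, `Rp_g1`, `Rp_yl`.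
For `f :: L`, `L = e :: a :: b :: c :: M`: `y_f R(L) = y_f (R(L) - 2^{-⌊n/2⌋} P(L)) + 2^{-⌊n/2⌋} y_f P(L)`, `n = |L| = 4 + |M|`. If `n` is
even, `P(L)` is a scalar and `y_f P(L) = P(f :: L)`, `⌊(n+1)/2⌋ = n/2`. If `n` is odd, `P(L) = q(a,b) q(c,..) .. y_e`, and
`y_f y_e = 1/2 q(f,e) + 1/2 [f,e]`, so `y_f P(L) = 1/2 P(f :: L) + 1/2 q(a,b) q(c, ..) .. [f,e]` (`Rp_QP`, `Rp_T0`),
`(n + 1)/2 = (|M| + 5)/2`.
-/

set_option autoImplicit false
set_option linter.unusedSectionVars false

namespace Pool.Agent.OBX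

open FreeNonUnitalNonAssocAlgebra Pool.Agent.H.MP_41922c_al Pool.Agent.Smt Pool.Agent.OB

variable {F : Type*} [Field F]

theorem XC_mul (h2 : (2 : F) ≠ 0) (x y : Oc F) : x * y = (2 : F)⁻¹ • (jor x y + com x y) := by
  have h : jor x y + com x y = (2 : F) • (x * y) := by
    unfold jor com
    rw [two_smul]
    abel
  rw [h, smul_smul, inv_mul_cancel₀ h2, one_smul]

theorem XC_yy (h2 : (2 : F) ≠ 0) (a b : Oc F) :
    y0 a * y0 b = (2 : F)⁻¹ • (qf a b • (1 : Oc F) + com a b) := by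
  rw [XC_mul h2, jor_y0 h2, y0_com, com_y0]

theorem XC_tt (x b c : Oc F) : tt (x * com b c) = tt (com x b * c) := by
  unfold com
  rw [mul_sub, sub_mul, Oct_tt_sub, Oct_tt_sub, ← tt_assoc, ← tt_assoc, tt_comm (x * c) b,
    ← tt_assoc]

theorem XC_tri (h2 : (2 : F) ≠ 0) (a b c : Oc F) :
    y0 a * com b c = (2 : F)⁻¹ • (tt (com a b * c) • (1 : Oc F) + F1 a b c) := by
  rw [XC_mul h2, jor_traceless _ _ (tt_y0 h2 a) (tt_com b c), XC_tt, y0_com, y0_com]
  rfl

theorem XC_four (h2 : (2 : F) ≠ 0) (d a b c : Oc F) :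
    y0 d * (y0 a * (y0 b * y0 c)) - ((2 : F)⁻¹) ^ 2 • ((qf d a * qf b c) • (1 : Oc F)) =
      (4 : F)⁻¹ • (qf b c • com d a + tt (com a b * c) • y0 d + y0 d * F1 a b c) := by
  have h4 : (4 : F)⁻¹ = (2 : F)⁻¹ * (2 : F)⁻¹ := by
    rw [← mul_inv]
    norm_num
  rw [XC_yy h2 b c]
  simp only [mul_smul_comm, mul_add, mul_one, XC_tri h2 a b c]
  rw [XC_yy h2 d a, h4]
  module

theorem XC_Rv (v : ℕ → Oc F) (a b : ℕ) (M : List ℕ) : Rv v (a :: b :: M) = y0 (v a) * Rv v (b :: M) :=
  rfl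

theorem XC_Pe (v : ℕ → Oc F) (a : ℕ) (M : List ℕ) (h : Even M.length) :
    Pv v (a :: M) = qP v M • y0 (v a) := by
  show (if Even M.length then qP v M • y0 (v a) else qP v (a :: M) • (1 : Oc F)) = _
  rw [if_pos h]

theorem XC_Po (v : ℕ → Oc F) (a : ℕ) (M : List ℕ) (h : ¬ Even M.length) :
    Pv v (a :: M) = qP v (a :: M) • (1 : Oc F) := by
  show (if Even M.length then qP v M • y0 (v a) else qP v (a :: M) • (1 : Oc F)) = _
  rw [if_neg h]

theorem Rp_RN (h2 : (2 : F) ≠ 0) (h3 : (3 : F) ≠ 0) (L : List ℕ) (hL : 4 ≤ L.length) :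
    Rp (RN (F := F) L) (fun v => Rv v L - ((2 : F)⁻¹) ^ (L.length / 2) • Pv v L) := by
  induction L with
  | nil => exact absurd hL (by decide)
  | cons f L ih =>
    rcases L with _ | ⟨e, _ | ⟨a, _ | ⟨b, _ | ⟨c, M⟩⟩⟩⟩
    · exact absurd hL (by simp)
    · exact absurd hL (by simp)
    · exact absurd hL (by simp)
    · -- four letters
      have e1 : RN (F := F) [f, e, a, b] = (4 : F)⁻¹ • (T0 a b f e
          + lm (of F f) (of F e) (of F a) (of F b)
          + yl f (g1 (of F e) (of F a) (of F b))) := rfl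
      rw [e1]
      refine ((((Rp_T0 h2 h3 a b f e).add (Rp_lm h2 h3 _ _ _ _)).add
        (Rp_yl h2 f (Rp_g1 h2 h3 _ _ _))).smul (4 : F)⁻¹).congr fun v => ?_
      simp only [lift_of_apply]
      have e2 : qP v [f, e, a, b] = qf (v f) (v e) * qf (v a) (v b) := by
        show qf (v f) (v e) * (qf (v a) (v b) * 1) = _
        rw [mul_one]
      have e3 : [f, e, a, b].length / 2 = 2 := by simp
      have e4 : Rv v [b] = y0 (v b) := rfl
      rw [XC_Po v f [e, a, b] (by show ¬ Even 3; decide), e2, e3, XC_Rv, XC_Rv, XC_Rv, e4]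
      exact (XC_four h2 (v f) (v e) (v a) (v b)).symm
    · have ih' := ih (by simp)
      have e1 : RN (F := F) (f :: e :: a :: b :: c :: M) = yl f (RN (e :: a :: b :: c :: M)) +
          if Odd M.length then ((2 : F)⁻¹) ^ ((M.length + 5) / 2) • QP (c :: M) (T0 a b f e)
          else 0 := rfl
      rw [e1]
      by_cases hM : Odd M.length
      · rw [if_pos hM]
        refine ((Rp_yl h2 f ih').add ((Rp_QP h2 (c :: M) (Rp_T0 h2 h3 a b f e)).smul _)).congr
          fun v => ?_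
        obtain ⟨j, hj⟩ := hM
        have hev : Even (a :: b :: c :: M).length := ⟨j + 2, by simp only [List.length_cons]; omega⟩
        have hod : ¬ Even (e :: a :: b :: c :: M).length := by
          rw [Nat.not_even_iff_odd]
          exact ⟨j + 2, by simp only [List.length_cons]; omega⟩
        have e2 : (e :: a :: b :: c :: M).length / 2 = j + 2 := by
          simp only [List.length_cons]; omega
        have e3 : (f :: e :: a :: b :: c :: M).length / 2 = j + 3 := by
          simp only [List.length_cons]; omega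
        have e4 : (M.length + 5) / 2 = j + 3 := by omega
        have e5 : qP v (a :: b :: c :: M) = qf (v a) (v b) * qP v (c :: M) := rfl
        have e6 : qP v (f :: e :: a :: b :: c :: M) = qf (v f) (v e) * qP v (a :: b :: c :: M) :=
          rfl
        rw [XC_Pe v e _ hev, XC_Po v f _ hod, XC_Rv v f e, e2, e3, e4, mul_sub, mul_smul_comm,
          mul_smul_comm, XC_yy h2, e6, e5, pow_succ _ (j + 2)]
        module
      · rw [if_neg hM, add_zero]
        refine (Rp_yl h2 f ih').congr fun v => ?_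
        rw [Nat.not_odd_iff_even] at hM
        obtain ⟨j, hj⟩ := hM
        have hev : Even (e :: a :: b :: c :: M).length := ⟨j + 2, by simp only [List.length_cons]; omega⟩
        have hod : ¬ Even (a :: b :: c :: M).length := by
          rw [Nat.not_even_iff_odd]
          exact ⟨j + 1, by simp only [List.length_cons]; omega⟩
        have e2 : (e :: a :: b :: c :: M).length / 2 = j + 2 := by
          simp only [List.length_cons]; omega
        have e3 : (f :: e :: a :: b :: c :: M).length / 2 = j + 2 := by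
          simp only [List.length_cons]; omega
        rw [XC_Po v e _ hod, XC_Pe v f _ hev, XC_Rv v f e, e2, e3, mul_sub, mul_smul_comm,
          mul_smul_comm, mul_one]

end Pool.Agent.OBX
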