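import Pool.Agent.OB.LiftW
import Pool.Agent.OB.Shp

/-!
# The explicit basis (definitions)

Everything here is defined by explicit recursions, without reference to the identities of the octonions.

For octonions `K = (x_1, .., x_r)` let `t_K` be the product of the traces. `GG K` gives polynomial expressions for
`t_K [a, [b, c]]` and `t_K ([a, b] ∘ [c, d])`, `LM` one for `t_K τ(a, b, c) d⁰`, where `τ(a, b, c) = t([a, b] c)` and
`d⁰ = d - t(d)/2`. An element of `Rep F` is a function of a list `K` of variables: `g` represents a polynomial function `l` if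
`g K` has the value `t_K l` for all `K`. Let `y_i = x_i⁰`.
-/

set_option autoImplicit false
set_option linter.unusedSectionVars false

namespace Pool.Agent.OBX

open FreeNonUnitalNonAssocAlgebra Pool.Agent.H.MP_41922c_al Pool.Agent.Smt Pool.Agent.OB

/-! ### values -/

section vals

variable {F : Type*} [Field F]

/-- the traceless part -/
noncomputable def y0 (a : Oc F) : Oc F := a - ((2 : F)⁻¹ * tt a) • (1 : Oc F)

/-- `y_a ∘ y_b` as a scalar -/
noncomputable def qf (a b : Oc F) : F := tt (y0 a * y0 b)

/-- `t_K` -/
def tK (v : ℕ → Oc F) (K : List ℕ) : F := (K.map fun i => tt (v i)).prod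

/-- `g` represents `l` -/
def Rp (g : Rep F) (l : (ℕ → Oc F) → Oc F) : Prop := ∀ v K, lift F v (g K) = tK v K • l v

/-- the value of `QP` -/
noncomputable def qP (v : ℕ → Oc F) : List ℕ → F
  | a :: b :: M => qf (v a) (v b) * qP v M
  | _ => 1

/-- the value of `P` -/
noncomputable def Pv (v : ℕ → Oc F) (L : List ℕ) : Oc F :=
  match L with
  | [] => 1
  | a :: M => if Even M.length then qP v M • y0 (v a) else qP v (a :: M) • (1 : Oc F)

/-- `y_a (y_b (.. z))` -/
noncomputable def Rl (v : ℕ → Oc F) (L : List ℕ) (z : Oc F) : Oc F :=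
  L.foldr (fun i z => y0 (v i) * z) z

/-- `y_{i_1} (.. (y_{i_(n-1)} y_{i_n}))` -/
noncomputable def Rv (v : ℕ → Oc F) : List ℕ → Oc F
  | [] => 1
  | [a] => y0 (v a)
  | a :: b :: M => y0 (v a) * Rv v (b :: M)

/-- the value of a word at the traceless parts -/
noncomputable def Wv (v : ℕ → Oc F) (w : FreeMagma ℕ) : Oc F := lift F (fun i => y0 (v i)) (mo F w)

end vals

end Pool.Agent.OBX
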