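import Pool.Agent.OB.XB2

/-!
# Sorting  (module XE)

`Pv_swap`: `P(i, j, L) = P(j, i, L)` for `|L|` even (`qf_comm`). `Pv_even`: for `|A|` even `P(j :: A) = y_j P(A)` (`P(A)` is a
scalar). `Pv_odd`: for `|A|` odd `P(j :: A) = y_j ∘ P(A)` (`P(A) = s y_a`, `jor_y0`).
`Rp_SI`: induction on `L`. `L = j :: L'`: if `i ≤ j` then `orderedInsert` gives `i :: j :: L'`, and the difference is 0. Otherwise the result
is `j :: orderedInsert i L'` and `P(i,j,L') - P(j, ins) = (P(i,j,L') - P(j,i,L')) + (P(j,i,L') - P(j, ins))`. The second
bracket is `y_j (..)` resp. `y_j ∘ (..)` of `P(i :: L') - P(ins)` (both lists have length `|L'| + 1`). First bracket: 0 for `|L'|` even; for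
`L' = k :: M` of odd length it is `(q(j,k) y_i - q(i,k) y_j) qP(M)` (`Rp_Ex`, `Rp_QP`).
`Rp_SS`: induction; `insertionSort (i :: L) = orderedInsert i (insertionSort L)`; lengths of `insertionSort` (`List.length_insertionSort`).
-/

set_option autoImplicit false
set_option linter.unusedSectionVars false

namespace Pool.Agent.OBX

open FreeNonUnitalNonAssocAlgebra Pool.Agent.H.MP_41922c_al Pool.Agent.Smt Pool.Agent.OB

variable {F : Type*} [Field F]

private theorem XE_cons_even (v : ℕ → Oc F) (a : ℕ) {M : List ℕ} (h : Even M.length) :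
    Pv v (a :: M) = qP v M • y0 (v a) := if_pos h

private theorem XE_cons_odd (v : ℕ → Oc F) (a : ℕ) {M : List ℕ} (h : ¬ Even M.length) :
    Pv v (a :: M) = qP v (a :: M) • (1 : Oc F) := if_neg h

private theorem XE_jor_smul (a b : Oc F) (c : F) : jor a (c • b) = c • jor a b := by
  unfold jor
  rw [mul_smul_comm, smul_mul_assoc, smul_add]

private theorem XE_jor_sub (a b c : Oc F) : jor a (b - c) = jor a b - jor a c := by
  unfold jor
  rw [mul_sub, sub_mul]
  abel

theorem Pv_even (v : ℕ → Oc F) (j : ℕ) {A : List ℕ} (hA : Even A.length) :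
    Pv v (j :: A) = y0 (v j) * Pv v A := by
  rw [XE_cons_even v j hA]
  rcases A with _ | ⟨a, M⟩
  · show qP v [] • y0 (v j) = y0 (v j) * 1
    rw [mul_one]
    exact one_smul F _
  · have h : ¬ Even M.length := by
      rw [List.length_cons, Nat.even_add_one] at hA
      exact hA
    rw [XE_cons_odd v a h, mul_smul_comm, mul_one]

theorem Pv_odd (h2 : (2 : F) ≠ 0) (v : ℕ → Oc F) (j : ℕ) {A : List ℕ} (hA : Odd A.length) :
    Pv v (j :: A) = jor (y0 (v j)) (Pv v A) := by
  rw [XE_cons_odd v j (Nat.not_even_iff_odd.2 hA)]
  rcases A with _ | ⟨a, M⟩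
  · exact absurd hA (by decide)
  · have h : Even M.length := by
      rw [List.length_cons, Nat.odd_add_one, Nat.not_odd_iff_even] at hA
      exact hA
    rw [XE_cons_even v a h, XE_jor_smul, jor_y0 h2, smul_smul]
    show (qf (v j) (v a) * qP v M) • (1 : Oc F) = _
    rw [mul_comm]

private theorem XE_swap (v : ℕ → Oc F) (i j : ℕ) {L : List ℕ} (hL : Even L.length) :
    Pv v (i :: j :: L) = Pv v (j :: i :: L) := by
  have h : ∀ k : ℕ, ¬ Even (k :: L).length := by
    intro k
    rw [List.length_cons, Nat.even_add_one, not_not]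
    exact hL
  rw [XE_cons_odd v i (h j), XE_cons_odd v j (h i)]
  show (qf (v i) (v j) * qP v L) • (1 : Oc F) = (qf (v j) (v i) * qP v L) • (1 : Oc F)
  rw [qf_comm]

private theorem XE_len (i : ℕ) (L : List ℕ) :
    (L.orderedInsert (· ≤ ·) i).length = L.length + 1 := List.orderedInsert_length _ _ _

theorem Rp_SI (h2 : (2 : F) ≠ 0) (h3 : (3 : F) ≠ 0) (i : ℕ) (L : List ℕ) :
    Rp (SI (F := F) i L) (fun v => Pv v (i :: L) - Pv v (L.orderedInsert (· ≤ ·) i)) := by
  induction L with
  | nil =>
    refine Rp_zero.congr fun v => ?_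
    exact (sub_self _).symm
  | cons j L ih =>
    by_cases hij : i ≤ j
    · have e1 : SI (F := F) i (j :: L) = 0 := by
        unfold SI
        rw [if_pos hij]
      have e2 : (j :: L).orderedInsert (· ≤ ·) i = i :: j :: L := by
        show (if i ≤ j then i :: j :: L else j :: L.orderedInsert (· ≤ ·) i) = _
        rw [if_pos hij]
      rw [e1, e2]
      exact Rp_zero.congr fun v => (sub_self _).symm
    · have e2 : (j :: L).orderedInsert (· ≤ ·) i = j :: L.orderedInsert (· ≤ ·) i := by
        show (if i ≤ j then i :: j :: L else j :: L.orderedInsert (· ≤ ·) i) = _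
        rw [if_neg hij]
      rw [e2]
      by_cases hL : Even L.length
      · have e1 : SI (F := F) i (j :: L) = yj j (SI i L) := by
          conv_lhs => unfold SI
          rw [if_neg hij, if_pos hL]
        rw [e1]
        refine (Rp_yj h2 j ih).congr fun v => ?_
        have ho1 : Odd (i :: L).length := by
          rw [List.length_cons]
          exact hL.add_one
        have ho2 : Odd (L.orderedInsert (· ≤ ·) i).length := by
          rw [XE_len]
          exact hL.add_one
        rw [XE_jor_sub, ← Pv_odd h2 v j ho1, ← Pv_odd h2 v j ho2, XE_swap v i j hL]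
      · have e1 : SI (F := F) i (j :: L) = QP L.tail (Ex (L.headD 0) j i) + yl j (SI i L) := by
          conv_lhs => unfold SI
          rw [if_neg hij, if_neg hL]
        rw [e1]
        rcases L with _ | ⟨k, M⟩
        · exact absurd (by decide) hL
        · have hM : Even M.length := by
            rw [List.length_cons, Nat.even_add_one, not_not] at hL
            exact hL
          refine ((Rp_QP h2 M (Rp_Ex h2 h3 k j i)).add (Rp_yl h2 j ih)).congr fun v => ?_
          have he1 : Even (i :: k :: M).length := by
            rw [List.length_cons, List.length_cons]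
            exact hM.add_one.add_one
          have he2 : Even ((k :: M).orderedInsert (· ≤ ·) i).length := by
            rw [XE_len, List.length_cons]
            exact hM.add_one.add_one
          have he3 : ∀ l : ℕ, Even (l :: k :: M).length := by
            intro l
            rw [List.length_cons, List.length_cons]
            exact hM.add_one.add_one
          rw [mul_sub, ← Pv_even v j he1, ← Pv_even v j he2]
          have f1 : Pv v (i :: j :: k :: M) = (qf (v j) (v k) * qP v M) • y0 (v i) :=
            XE_cons_even v i (he3 j)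
          have f2 : Pv v (j :: i :: k :: M) = (qf (v i) (v k) * qP v M) • y0 (v j) :=
            XE_cons_even v j (he3 i)
          rw [f1, f2, qf_comm (v j) (v k), qf_comm (v i) (v k), smul_sub, smul_smul, smul_smul,
            mul_comm (qP v M), mul_comm (qP v M)]
          abel

theorem Rp_SS (h2 : (2 : F) ≠ 0) (h3 : (3 : F) ≠ 0) (L : List ℕ) :
    Rp (SS (F := F) L) (fun v => Pv v L - Pv v (L.insertionSort (· ≤ ·))) := by
  induction L with
  | nil =>
    refine Rp_zero.congr fun v => ?_
    exact (sub_self _).symm
  | cons i L ih =>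
    have e1 : (i :: L).insertionSort (· ≤ ·) =
        (L.insertionSort (· ≤ ·)).orderedInsert (· ≤ ·) i := rfl
    have hlen : (L.insertionSort (· ≤ ·)).length = L.length := List.length_insertionSort _ _
    rw [e1]
    by_cases hL : Even L.length
    · have e2 : SS (F := F) (i :: L) = yl i (SS L) + SI i (L.insertionSort (· ≤ ·)) := by
        conv_lhs => unfold SS
        rw [if_pos hL]
      rw [e2]
      refine ((Rp_yl h2 i ih).add (Rp_SI h2 h3 i _)).congr fun v => ?_
      rw [mul_sub, ← Pv_even v i hL, ← Pv_even v i (by rw [hlen]; exact hL)]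
      abel
    · have e2 : SS (F := F) (i :: L) = yj i (SS L) + SI i (L.insertionSort (· ≤ ·)) := by
        conv_lhs => unfold SS
        rw [if_neg hL]
      rw [e2]
      have hL' := Nat.not_even_iff_odd.1 hL
      refine ((Rp_yj h2 i ih).add (Rp_SI h2 h3 i _)).congr fun v => ?_
      rw [XE_jor_sub, ← Pv_odd h2 v i hL', ← Pv_odd h2 v i (by rw [hlen]; exact hL')]
      abel

end Pool.Agent.OBX
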