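import Pool.Agent.OB.XB

/-!
# Jacobians of words in traceless elements  (module XF)

`Rp_Jh`: let `f = com (com (mo a) (mo b)) (mo c) + ..`, multilinear in `V = lets a + lets b + lets c`. The value at `y0 ∘ v`,
`y0 (v i) = v i + c_i`, `c_i = -1/2 t(v i)`, is `∑_{J ⊆ V} (∏_{i ∈ J} c_i) • ev f (v with 1 on J)` (`ev_add_c`, `ev F f v = lift F v f`).
`ev (mo a) (v with 1 on J)` is 1 if `del J a = none` and `ev (mo F a') v` if `del J a = some a'` (`Shp_ev_del`); in all cases
`com (com A B) C` is the same if a unit is replaced by 0, so this is `com (com (ev (moO (del J a))) ..) ..`. By `Rp_g1` the value of the summand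
of `Jh` at `K` is `(-1/2)^|J| • tK v (J.sort ++ K) • (F1 C B A + F1 A C B + F1 B A C)`, `F1 C B A = com C (com B A) = com (com A B) C`, and
`tK v (J.sort ++ K) = (∏_{i ∈ J} t(v i)) * tK v K`.
-/

set_option autoImplicit false
set_option linter.unusedSectionVars false

namespace Pool.Agent.OBX

open FreeNonUnitalNonAssocAlgebra Pool.Agent.H.MP_41922c_al Pool.Agent.Smt Pool.Agent.OB

variable {F : Type*} [Field F]

theorem flat_coe (w : FreeMagma ℕ) : (flat w : Multiset ℕ) = lets id w := by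
  induction w with
  | ih1 a => rfl
  | ih2 u v hu hv =>
    have h1 : flat (u * v) = flat u ++ flat v := rfl
    have h2 : lets id (u * v) = lets id u + lets id v := rfl
    rw [h1, h2, ← hu, ← hv, Multiset.coe_add]

/-- evaluation at `v` -/
def XF_at (v : ℕ → Oc F) : Fn F →ₙₐ[F] Oc F where
  toFun f := f v
  map_smul' _ _ := rfl
  map_zero' := rfl
  map_add' _ _ := rfl
  map_mul' _ _ := rfl

theorem ev_eq_lift (f : FA F) (v : ℕ → Oc F) : ev F f v = lift F v f := by
  have h : (XF_at v).comp (ev F) = lift F v := by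
    refine FreeNonUnitalNonAssocAlgebra.hom_ext F ?_
    intro i
    show ev F (of F i) v = lift F v (of F i)
    rw [ev_of, lift_of_apply]
    rfl
  rw [← h]
  rfl

/-! ### sums over subsets of a disjoint union -/

theorem XF_sum_union {M : Type*} [AddCommMonoid M] {A B : Finset ℕ} (h : Disjoint A B)
    (f : Finset ℕ → M) :
    ∑ J ∈ (A ∪ B).powerset, f J = ∑ J₁ ∈ A.powerset, ∑ J₂ ∈ B.powerset, f (J₁ ∪ J₂) := by
  classical
  rw [← Finset.sum_product']
  symm
  refine Finset.sum_bij' (fun p _ => p.1 ∪ p.2) (fun J _ => (J ∩ A, J ∩ B)) ?_ ?_ ?_ ?_ ?_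
  · rintro ⟨J₁, J₂⟩ hJ
    rw [Finset.mem_product, Finset.mem_powerset, Finset.mem_powerset] at hJ
    exact Finset.mem_powerset.2 (Finset.union_subset_union hJ.1 hJ.2)
  · intro J hJ
    rw [Finset.mem_product, Finset.mem_powerset, Finset.mem_powerset]
    exact ⟨Finset.inter_subset_right, Finset.inter_subset_right⟩
  · rintro ⟨J₁, J₂⟩ hJ
    rw [Finset.mem_product, Finset.mem_powerset, Finset.mem_powerset] at hJ
    obtain ⟨h1, h2⟩ := hJ
    have h1' : J₁ ⊆ A := h1
    have h2' : J₂ ⊆ B := h2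
    refine Prod.ext ?_ ?_
    · ext i
      simp only [Finset.mem_inter, Finset.mem_union]
      constructor
      · rintro ⟨h3 | h3, h4⟩
        · exact h3
        · exact absurd (h2' h3) (Finset.disjoint_left.1 h h4)
      · exact fun h3 => ⟨Or.inl h3, h1' h3⟩
    · ext i
      simp only [Finset.mem_inter, Finset.mem_union]
      constructor
      · rintro ⟨h3 | h3, h4⟩
        · exact absurd h4 (Finset.disjoint_left.1 h (h1' h3))
        · exact h3
      · exact fun h3 => ⟨Or.inr h3, h2' h3⟩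
  · intro J hJ
    rw [Finset.mem_powerset] at hJ
    ext i
    simp only [Finset.mem_inter, Finset.mem_union]
    constructor
    · rintro (h3 | h3) <;> exact h3.1
    · intro h3
      rcases Finset.mem_union.1 (hJ h3) with h4 | h4
      · exact Or.inl ⟨h3, h4⟩
      · exact Or.inr ⟨h3, h4⟩
  · intro p hp
    rfl

theorem XF_del_congr {J J' : Finset ℕ} {w : FreeMagma ℕ} (h : ∀ i ∈ flat w, (i ∈ J ↔ i ∈ J')) :
    del J w = del J' w := by
  induction w with
  | ih1 a =>
    have h1 : ∀ K : Finset ℕ, del K (FreeMagma.of a) =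
      if a ∈ K then none else some (FreeMagma.of a) := fun _ => rfl
    have h2 := h a (List.mem_singleton.2 rfl)
    rw [h1, h1]
    by_cases h3 : a ∈ J
    · rw [if_pos h3, if_pos (h2.1 h3)]
    · rw [if_neg h3, if_neg (fun h4 => h3 (h2.2 h4))]
  | ih2 u v hu hv =>
    have h1 : flat (u * v) = flat u ++ flat v := rfl
    rw [h1] at h
    rw [Shp_del_mul, Shp_del_mul, hu fun i hi => h i (List.mem_append_left _ hi),
      hv fun i hi => h i (List.mem_append_right _ hi)]

/-- the value of an optional word, `1` for `none` -/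
noncomputable def XF_E (v : ℕ → Oc F) : Option (FreeMagma ℕ) → Oc F
  | none => 1
  | some w => lift F v (mo F w)

theorem XF_E_mul (v : ℕ → Oc F) (J : Finset ℕ) (u w : FreeMagma ℕ) :
    XF_E v (del J (u * w)) = XF_E v (del J u) * XF_E v (del J w) := by
  rw [Shp_del_mul]
  rcases del J u with _ | a <;> rcases del J w with _ | b
  · exact (one_mul _).symm
  · exact (one_mul _).symm
  · exact (mul_one _).symm
  · exact map_mul (lift F v) (mo F a) (mo F b)

/-- the coefficient `-1/2 t(v i)` -/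
noncomputable def XF_c (v : ℕ → Oc F) (i : ℕ) : F := -((2 : F)⁻¹ * tt (v i))

theorem XF_exp (v : ℕ → Oc F) (w : FreeMagma ℕ) (hn : (flat w).Nodup) :
    Wv v w = ∑ J ∈ (flat w).toFinset.powerset, (∏ i ∈ J, XF_c v i) • XF_E v (del J w) := by
  classical
  induction w with
  | ih1 a =>
    have h1 : ∀ K : Finset ℕ, del K (FreeMagma.of a) =
      if a ∈ K then none else some (FreeMagma.of a) := fun _ => rfl
    have h2 : (flat (FreeMagma.of a)).toFinset = {a} := rfl
    have h3 : ({a} : Finset ℕ).powerset = {∅, {a}} := rfl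
    rw [h2, h3, Finset.sum_pair (Finset.singleton_ne_empty a).symm, h1, h1,
      if_neg (Finset.notMem_empty a), if_pos (Finset.mem_singleton_self a), Finset.prod_empty,
      Finset.prod_singleton, one_smul]
    have h4 : Wv v (FreeMagma.of a) = y0 (v a) := by
      show lift F (fun i => y0 (v i)) (of F a) = _
      rw [lift_of_apply]
    have h5 : XF_E v (some (FreeMagma.of a)) = v a := by
      show lift F v (of F a) = _
      rw [lift_of_apply]
    rw [h4, h5]
    show v a - ((2 : F)⁻¹ * tt (v a)) • (1 : Oc F) = v a + XF_c v a • (1 : Oc F)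
    unfold XF_c
    rw [neg_smul, sub_eq_add_neg]
  | ih2 u w hu hw =>
    have h1 : flat (u * w) = flat u ++ flat w := rfl
    rw [h1] at hn
    obtain ⟨hnu, hnw, hd⟩ := List.nodup_append.1 hn
    have hdis : Disjoint (flat u).toFinset (flat w).toFinset := by
      rw [Finset.disjoint_left]
      intro i hi hi'
      exact hd i (List.mem_toFinset.1 hi) i (List.mem_toFinset.1 hi') rfl
    have h2 : Wv v (u * w) = Wv v u * Wv v w :=
      map_mul (lift F fun i => y0 (v i)) (mo F u) (mo F w)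
    rw [h2, hu hnu, hw hnw, h1, List.toFinset_append, XF_sum_union hdis, Finset.sum_mul]
    refine Finset.sum_congr rfl fun J₁ hJ₁ => ?_
    rw [Finset.mul_sum]
    refine Finset.sum_congr rfl fun J₂ hJ₂ => ?_
    rw [Finset.mem_powerset] at hJ₁ hJ₂
    have hJd : Disjoint J₁ J₂ := Finset.disjoint_of_subset_left hJ₁
      (Finset.disjoint_of_subset_right hJ₂ hdis)
    have e1 : del (J₁ ∪ J₂) u = del J₁ u := XF_del_congr fun i hi => by
      rw [Finset.mem_union]
      exact ⟨fun h => h.resolve_right fun h' => Finset.disjoint_left.1 hdis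
        (List.mem_toFinset.2 hi) (hJ₂ h'), Or.inl⟩
    have e2 : del (J₁ ∪ J₂) w = del J₂ w := XF_del_congr fun i hi => by
      rw [Finset.mem_union]
      exact ⟨fun h => h.resolve_left fun h' => Finset.disjoint_left.1 hdis
        (hJ₁ h') (List.mem_toFinset.2 hi), Or.inr⟩
    rw [XF_E_mul, e1, e2, Finset.prod_union hJd, smul_mul_assoc, mul_smul_comm, smul_smul]

theorem XF_comL (v : ℕ → Oc F) (o : Option (FreeMagma ℕ)) (x : Oc F) :
    com (XF_E v o) x = com (lift F v (moO F o)) x := by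
  rcases o with _ | w
  · show com 1 x = com (lift F v 0) x
    rw [map_zero]
    unfold com
    rw [one_mul, mul_one, sub_self, zero_mul, mul_zero, sub_self]
  · rfl

theorem XF_comR (v : ℕ → Oc F) (o : Option (FreeMagma ℕ)) (x : Oc F) :
    com x (XF_E v o) = com x (lift F v (moO F o)) := by
  rcases o with _ | w
  · show com x 1 = com x (lift F v 0)
    rw [map_zero]
    unfold com
    rw [one_mul, mul_one, sub_self, zero_mul, mul_zero, sub_self]
  · rfl

theorem XF_com_sumL {ι : Type*} (s : Finset ι) (c : ι → F) (f : ι → Oc F) (x : Oc F) :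
    com (∑ i ∈ s, c i • f i) x = ∑ i ∈ s, c i • com (f i) x := by
  unfold com
  rw [Finset.sum_mul, Finset.mul_sum, ← Finset.sum_sub_distrib]
  refine Finset.sum_congr rfl fun i _ => ?_
  rw [smul_mul_assoc, mul_smul_comm, smul_sub]

theorem XF_com_sumR {ι : Type*} (s : Finset ι) (c : ι → F) (f : ι → Oc F) (x : Oc F) :
    com x (∑ i ∈ s, c i • f i) = ∑ i ∈ s, c i • com x (f i) := by
  unfold com
  rw [Finset.sum_mul, Finset.mul_sum, ← Finset.sum_sub_distrib]
  refine Finset.sum_congr rfl fun i _ => ?_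
  rw [smul_mul_assoc, mul_smul_comm, smul_sub]

/-- the double commutator of three sums -/
theorem XF_com3 {ι₁ ι₂ ι₃ : Type*} (s₁ : Finset ι₁) (s₂ : Finset ι₂) (s₃ : Finset ι₃)
    (c₁ : ι₁ → F) (c₂ : ι₂ → F) (c₃ : ι₃ → F) (f₁ : ι₁ → Oc F) (f₂ : ι₂ → Oc F) (f₃ : ι₃ → Oc F) :
    com (com (∑ i ∈ s₁, c₁ i • f₁ i) (∑ j ∈ s₂, c₂ j • f₂ j)) (∑ k ∈ s₃, c₃ k • f₃ k) =
    ∑ i ∈ s₁, ∑ j ∈ s₂, ∑ k ∈ s₃, (c₁ i * c₂ j * c₃ k) • com (com (f₁ i) (f₂ j)) (f₃ k) := by
  rw [XF_com_sumL, XF_com_sumL]
  refine Finset.sum_congr rfl fun i _ => ?_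
  rw [XF_com_sumR s₂ c₂ f₂ (f₁ i), XF_com_sumL, Finset.smul_sum]
  refine Finset.sum_congr rfl fun j _ => ?_
  rw [XF_com_sumR s₃ c₃ f₃ (com (f₁ i) (f₂ j)), Finset.smul_sum, Finset.smul_sum]
  refine Finset.sum_congr rfl fun k _ => ?_
  rw [smul_smul, smul_smul]

theorem XF_anti (a b : Oc F) : com a b = -com b a := by
  unfold com
  rw [neg_sub]

theorem XF_com_neg (a b : Oc F) : com a (-b) = -com a b := by
  unfold com
  rw [mul_neg, neg_mul]
  abel

theorem XF_F1 (a b c : Oc F) : F1 c b a = com (com a b) c := by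
  show com c (com b a) = _
  rw [XF_anti b a, XF_com_neg, XF_anti (com a b) c]

theorem Rp_Jh (h2 : (2 : F) ≠ 0) (h3 : (3 : F) ≠ 0) {a b c : FreeMagma ℕ}
    (hn : (flat a ++ flat b ++ flat c).Nodup) :
    Rp (Jh (F := F) a b c) (fun v => com (com (Wv v a) (Wv v b)) (Wv v c)
      + com (com (Wv v b) (Wv v c)) (Wv v a) + com (com (Wv v c) (Wv v a)) (Wv v b)) := by
  classical
  intro v K
  obtain ⟨hnab, hnc, hdc⟩ := List.nodup_append.1 hn
  obtain ⟨hna, hnb, hdb⟩ := List.nodup_append.1 hnab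
  have hab : Disjoint (flat a).toFinset (flat b).toFinset := by
    rw [Finset.disjoint_left]
    intro i hi hi'
    exact hdb i (List.mem_toFinset.1 hi) i (List.mem_toFinset.1 hi') rfl
  have habc : Disjoint ((flat a).toFinset ∪ (flat b).toFinset) (flat c).toFinset := by
    rw [Finset.disjoint_left]
    intro i hi hi'
    refine hdc i ?_ i (List.mem_toFinset.1 hi') rfl
    rcases Finset.mem_union.1 hi with h | h
    · exact List.mem_append_left _ (List.mem_toFinset.1 h)
    · exact List.mem_append_right _ (List.mem_toFinset.1 h)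
  -- the value of a summand
  set E : Finset ℕ → FreeMagma ℕ → Oc F := fun J w => lift F v (moO F (del J w)) with hE
  have hsum : lift F v (Jh a b c K) = ∑ J ∈ ((flat a).toFinset ∪ (flat b).toFinset ∪
      (flat c).toFinset).powerset, (tK v K * ∏ i ∈ J, XF_c v i) •
        (com (com (E J a) (E J b)) (E J c) + com (com (E J b) (E J c)) (E J a) +
          com (com (E J c) (E J a)) (E J b)) := by
    unfold Jh
    rw [List.toFinset_append, List.toFinset_append, map_sum]
    refine Finset.sum_congr rfl fun J _ => ?_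
    have g : ∀ (x y z : FA F) (L : List ℕ), lift F v (g1 x y z L) =
      tK v L • F1 (lift F v x) (lift F v y) (lift F v z) := fun x y z L => Rp_g1 h2 h3 x y z v L
    rw [map_smul, map_add, map_add, g, g, g, XF_F1, XF_F1, XF_F1,
      ← smul_add, ← smul_add, smul_smul]
    congr 1
    rw [tK_append]
    have e1 : tK v (J.sort (· ≤ ·)) = ∏ i ∈ J, tt (v i) := by
      unfold tK
      have e2 : ((J.sort (· ≤ ·) : List ℕ) : Multiset ℕ) = J.val := Finset.sort_eq _ _
      rw [Finset.prod_eq_multiset_prod, ← e2, Multiset.map_coe, Multiset.prod_coe]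
    rw [e1]
    have e3 : ∏ i ∈ J, XF_c v i = (-(2 : F)⁻¹) ^ J.card * ∏ i ∈ J, tt (v i) := by
      rw [← Finset.prod_const, ← Finset.prod_mul_distrib]
      refine Finset.prod_congr rfl fun i _ => ?_
      unfold XF_c
      ring
    rw [e3]
    ring
  rw [hsum, XF_sum_union habc, XF_sum_union hab]
  -- the right side
  have hterm : ∀ x y z : FreeMagma ℕ, (flat x).Nodup → (flat y).Nodup → (flat z).Nodup →
      com (com (Wv v x) (Wv v y)) (Wv v z) =
      ∑ J₁ ∈ (flat x).toFinset.powerset, ∑ J₂ ∈ (flat y).toFinset.powerset,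
        ∑ J₃ ∈ (flat z).toFinset.powerset,
        ((∏ i ∈ J₁, XF_c v i) * (∏ i ∈ J₂, XF_c v i) * ∏ i ∈ J₃, XF_c v i) •
          com (com (E J₁ x) (E J₂ y)) (E J₃ z) := by
    intro x y z hx hy hz
    rw [XF_exp v x hx, XF_exp v y hy, XF_exp v z hz, XF_com3]
    refine Finset.sum_congr rfl fun J₁ _ => Finset.sum_congr rfl fun J₂ _ =>
      Finset.sum_congr rfl fun J₃ _ => ?_
    rw [XF_comR v (del J₃ z), XF_comL v (del J₁ x), XF_comR v (del J₂ y)]
  show _ = tK v K • (com (com (Wv v a) (Wv v b)) (Wv v c)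
      + com (com (Wv v b) (Wv v c)) (Wv v a) + com (com (Wv v c) (Wv v a)) (Wv v b))
  have t1 := hterm a b c hna hnb hnc
  have t2 : com (com (Wv v b) (Wv v c)) (Wv v a) =
      ∑ J₁ ∈ (flat a).toFinset.powerset, ∑ J₂ ∈ (flat b).toFinset.powerset,
        ∑ J₃ ∈ (flat c).toFinset.powerset,
        ((∏ i ∈ J₁, XF_c v i) * (∏ i ∈ J₂, XF_c v i) * ∏ i ∈ J₃, XF_c v i) •
          com (com (E J₂ b) (E J₃ c)) (E J₁ a) := by
    rw [hterm b c a hnb hnc hna]
    calc _ = ∑ J₂ ∈ (flat b).toFinset.powerset, ∑ J₁ ∈ (flat a).toFinset.powerset,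
        ∑ J₃ ∈ (flat c).toFinset.powerset,
        ((∏ i ∈ J₂, XF_c v i) * (∏ i ∈ J₃, XF_c v i) * ∏ i ∈ J₁, XF_c v i) •
          com (com (E J₂ b) (E J₃ c)) (E J₁ a) :=
          Finset.sum_congr rfl fun J₂ _ => Finset.sum_comm
      _ = _ := by
        rw [Finset.sum_comm]
        refine Finset.sum_congr rfl fun J₁ _ => Finset.sum_congr rfl fun J₂ _ =>
          Finset.sum_congr rfl fun J₃ _ => ?_
        congr 1
        ring
  have t3 : com (com (Wv v c) (Wv v a)) (Wv v b) =
      ∑ J₁ ∈ (flat a).toFinset.powerset, ∑ J₂ ∈ (flat b).toFinset.powerset,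
        ∑ J₃ ∈ (flat c).toFinset.powerset,
        ((∏ i ∈ J₁, XF_c v i) * (∏ i ∈ J₂, XF_c v i) * ∏ i ∈ J₃, XF_c v i) •
          com (com (E J₃ c) (E J₁ a)) (E J₂ b) := by
    rw [hterm c a b hnc hna hnb, Finset.sum_comm]
    refine Finset.sum_congr rfl fun J₁ _ => ?_
    rw [Finset.sum_comm]
    refine Finset.sum_congr rfl fun J₂ _ => Finset.sum_congr rfl fun J₃ _ => ?_
    congr 1
    ring
  rw [t1, t2, t3, ← Finset.sum_add_distrib, ← Finset.sum_add_distrib, Finset.smul_sum]
  refine Finset.sum_congr rfl fun J₁ hJ₁ => ?_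
  rw [← Finset.sum_add_distrib, ← Finset.sum_add_distrib, Finset.smul_sum]
  refine Finset.sum_congr rfl fun J₂ hJ₂ => ?_
  rw [← Finset.sum_add_distrib, ← Finset.sum_add_distrib, Finset.smul_sum]
  refine Finset.sum_congr rfl fun J₃ hJ₃ => ?_
  rw [Finset.mem_powerset] at hJ₁ hJ₂ hJ₃
  have d12 : Disjoint J₁ J₂ := Finset.disjoint_of_subset_left hJ₁
    (Finset.disjoint_of_subset_right hJ₂ hab)
  have d123 : Disjoint (J₁ ∪ J₂) J₃ := Finset.disjoint_of_subset_left
    (Finset.union_subset_union hJ₁ hJ₂) (Finset.disjoint_of_subset_right hJ₃ habc)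
  have ha : del (J₁ ∪ J₂ ∪ J₃) a = del J₁ a := XF_del_congr fun i hi => by
    have hi' := List.mem_toFinset.2 hi
    rw [Finset.mem_union, Finset.mem_union]
    constructor
    · rintro ((h | h) | h)
      · exact h
      · exact absurd (hJ₂ h) (Finset.disjoint_left.1 hab hi')
      · exact absurd (hJ₃ h) (Finset.disjoint_left.1 habc (Finset.mem_union_left _ hi'))
    · exact fun h => Or.inl (Or.inl h)
  have hb : del (J₁ ∪ J₂ ∪ J₃) b = del J₂ b := XF_del_congr fun i hi => by
    have hi' := List.mem_toFinset.2 hi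
    rw [Finset.mem_union, Finset.mem_union]
    constructor
    · rintro ((h | h) | h)
      · exact absurd hi' (Finset.disjoint_left.1 hab (hJ₁ h))
      · exact h
      · exact absurd (hJ₃ h) (Finset.disjoint_left.1 habc (Finset.mem_union_right _ hi'))
    · exact fun h => Or.inl (Or.inr h)
  have hc : del (J₁ ∪ J₂ ∪ J₃) c = del J₃ c := XF_del_congr fun i hi => by
    have hi' := List.mem_toFinset.2 hi
    rw [Finset.mem_union, Finset.mem_union]
    constructor
    · rintro ((h | h) | h)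
      · exact absurd hi' (Finset.disjoint_left.1 habc (Finset.mem_union_left _ (hJ₁ h)))
      · exact absurd hi' (Finset.disjoint_left.1 habc (Finset.mem_union_right _ (hJ₂ h)))
      · exact h
    · exact fun h => Or.inr h
  simp only [hE]
  rw [ha, hb, hc, Finset.prod_union d123, Finset.prod_union d12, ← smul_add, ← smul_add, smul_smul]

end Pool.Agent.OBX
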