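import Pool.Agent.OB.XF

/-!
# Flattening of words  (module XG)

`Wv_mul`: `lift_mo`. `Rp_DD`: induction on `u` with `v` general. `u = of i`: `Rl v [i] z = y_i z`. `u = a b`:
`(A B) V - Rl (flat a ++ flat b) V = associator A B V + (A (B V) - Rl (flat a) (B V)) + Rl (flat a) (B V - Rl (flat b) V)`; `6 associator A B V` is
the Jacobian (`six_oc`), `Rp_Jh`, `DD a (b * v)` (the letters of `b * v` are `flat b ++ flat v`), `Rp_yls`; `Rl` is linear in `z`.
`Rp_LFl`: induction on `w`: `U V - R(flat u ++ flat v) = (U V - Rl (flat u) V) + Rl (flat u) (V - R(flat v))`, where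
`R(flat u ++ flat v) = Rl (flat u) (R(flat v))` since `flat v ≠ []`.
-/

set_option autoImplicit false
set_option linter.unusedSectionVars false

namespace Pool.Agent.OBX

open FreeNonUnitalNonAssocAlgebra Pool.Agent.H.MP_41922c_al Pool.Agent.Smt Pool.Agent.OB

variable {F : Type*} [Field F]

theorem flat_ne (w : FreeMagma ℕ) : flat w ≠ [] := by
  induction w with
  | ih1 a => exact List.cons_ne_nil a []
  | ih2 u v hu hv =>
    intro h
    have h1 : flat u ++ flat v = [] := h
    exact hu (List.append_eq_nil_iff.1 h1).1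

theorem Wv_mul (x : ℕ → Oc F) (u v : FreeMagma ℕ) : Wv x (u * v) = Wv x u * Wv x v :=
  lift_mo _ u v

theorem XG_of (x : ℕ → Oc F) (i : ℕ) : Wv x (FreeMagma.of i) = y0 (x i) := by
  show lift F (fun i => y0 (x i)) (of F i) = y0 (x i)
  rw [lift_of_apply]

theorem XG_cons (x : ℕ → Oc F) (i : ℕ) (L : List ℕ) (z : Oc F) :
    Rl x (i :: L) z = y0 (x i) * Rl x L z := rfl

theorem XG_nil (x : ℕ → Oc F) (z : Oc F) : Rl x [] z = z := rfl

theorem XG_append (x : ℕ → Oc F) (L M : List ℕ) (z : Oc F) :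
    Rl x (L ++ M) z = Rl x L (Rl x M z) := by
  unfold Rl
  rw [List.foldr_append]

theorem XG_sub (x : ℕ → Oc F) (L : List ℕ) (z z' : Oc F) :
    Rl x L (z - z') = Rl x L z - Rl x L z' := by
  induction L with
  | nil => rfl
  | cons i L ih => rw [XG_cons, XG_cons, XG_cons, ih, mul_sub]

theorem XG_Rv (x : ℕ → Oc F) (i : ℕ) {M : List ℕ} (hM : M ≠ []) :
    Rv x (i :: M) = y0 (x i) * Rv x M := by
  cases M with
  | nil => exact absurd rfl hM
  | cons b M => rfl

theorem Rv_append (x : ℕ → Oc F) (L : List ℕ) {M : List ℕ} (hM : M ≠ []) :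
    Rv x (L ++ M) = Rl x L (Rv x M) := by
  induction L with
  | nil => rfl
  | cons i L ih =>
    have h1 : L ++ M ≠ [] := fun h => hM (List.append_eq_nil_iff.1 h).2
    rw [List.cons_append, XG_Rv x i h1, ih, XG_cons]

theorem Rp_DD (h2 : (2 : F) ≠ 0) (h3 : (3 : F) ≠ 0) (u v : FreeMagma ℕ)
    (hn : (flat u ++ flat v).Nodup) :
    Rp (DD (F := F) u v) (fun x => Wv x u * Wv x v - Rl x (flat u) (Wv x v)) := by
  induction u generalizing v with
  | ih1 i =>
    refine Rp.congr (Rp_zero (F := F)) fun x => ?_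
    show (0 : Oc F) = Wv x (FreeMagma.of i) * Wv x v - y0 (x i) * Wv x v
    rw [XG_of, sub_self]
  | ih2 a b iha ihb =>
    have hn' : (flat a ++ flat b ++ flat v).Nodup := hn
    have hn1 : (flat a ++ flat (b * v)).Nodup := by
      have h1 : flat (b * v) = flat b ++ flat v := rfl
      rw [h1, ← List.append_assoc]
      exact hn'
    have hn2 : (flat b ++ flat v).Nodup := by
      rw [List.append_assoc] at hn'
      exact (List.nodup_append.1 hn').2.1
    have e := ((Rp_Jh h2 h3 hn').smul (6 : F)⁻¹).add (iha (b * v) hn1)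
    have e' := e.add (Rp_yls h2 (flat a) (ihb v hn2))
    have h6 : (6 : F) ≠ 0 := by
      have h : (6 : F) = 2 * 3 := by norm_num
      rw [h]
      exact mul_ne_zero h2 h3
    refine Rp.congr (g := DD (F := F) (a * b) v) e' fun x => ?_
    have h7 := six_oc (Wv x a) (Wv x b) (Wv x v)
    rw [← h7, XG_sub, Wv_mul, Wv_mul]
    have h8 : (6 : F)⁻¹ • ((6 : ℕ) • associator (Wv x a) (Wv x b) (Wv x v)) =
        associator (Wv x a) (Wv x b) (Wv x v) := by
      rw [← Nat.cast_smul_eq_nsmul F, smul_smul]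
      have h9 : (6 : F)⁻¹ * ((6 : ℕ) : F) = 1 := by
        push_cast
        exact inv_mul_cancel₀ h6
      rw [h9, one_smul]
    rw [h8]
    have h10 : flat (a * b) = flat a ++ flat b := rfl
    rw [h10, XG_append]
    unfold associator
    abel

theorem Rp_LFl (h2 : (2 : F) ≠ 0) (h3 : (3 : F) ≠ 0) (w : FreeMagma ℕ) (hn : (flat w).Nodup) :
    Rp (LFl (F := F) w) (fun x => Wv x w - Rv x (flat w)) := by
  induction w with
  | ih1 i =>
    refine Rp.congr (Rp_zero (F := F)) fun x => ?_
    show (0 : Oc F) = Wv x (FreeMagma.of i) - y0 (x i)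
    rw [XG_of, sub_self]
  | ih2 u v ihu ihv =>
    have hn' : (flat u ++ flat v).Nodup := hn
    have hn2 : (flat v).Nodup := (List.nodup_append.1 hn').2.1
    have e := (Rp_DD h2 h3 u v hn').add (Rp_yls h2 (flat u) (ihv hn2))
    refine Rp.congr (g := LFl (F := F) (u * v)) e fun x => ?_
    have h10 : flat (u * v) = flat u ++ flat v := rfl
    rw [h10, Rv_append x (flat u) (flat_ne v), XG_sub, Wv_mul]
    abel

end Pool.Agent.OBX
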