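import Pool.Agent.OB.XG
import Pool.Agent.OB.XC
import Pool.Agent.OB.XE
import Pool.Agent.OB.Wre

/-!
# The values of `Phi`  (module XI)

`Phi_word`: `Rp_LFl`, `Rp_RN`, `Rp_SS` at `K = []` (`tK_nil`), `flat_coe`; `(flat w).insertionSort = (lets id w).sort` (both are
sorted permutations of the same list: `Multiset.coe_sort` or `List.mergeSort`/`Multiset.sort` API; the order of the arguments of
`Multiset.sort` is as in `K.sort (· ≤ ·)`). `Wv_evw`: `evw F (mo F w) v = Wv v w` (`x0 F i v = y0 (v i)`). `Phi_ev`: `PP_induction`,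
`sg_mo`. `ev_one`: `PP_induction`: both sides of a word are 1.
-/

set_option autoImplicit false
set_option linter.unusedSectionVars false

namespace Pool.Agent.OBX

open FreeNonUnitalNonAssocAlgebra Pool.Agent.H.MP_41922c_al Pool.Agent.Smt Pool.Agent.OB

variable {F : Type*} [Field F]

private theorem XI_x0 (h2 : (2 : F) ≠ 0) (i : ℕ) (v : ℕ → Oc F) : x0 F i v = y0 (v i) := by
  show (2 : F)⁻¹ • (v i - star (v i)) = v i - ((2 : F)⁻¹ * tt (v i)) • (1 : Oc F)
  have h := add_star (v i)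
  rw [mul_smul, ← h, smul_sub, smul_add]
  have h1 : (2 : F)⁻¹ • v i + (2 : F)⁻¹ • v i = v i := by
    rw [← add_smul, ← two_mul, mul_inv_cancel₀ h2, one_smul]
  have h3 : (2 : F)⁻¹ • v i - (2 : F)⁻¹ • star (v i) + ((2 : F)⁻¹ • v i + (2 : F)⁻¹ • star (v i))
      = (2 : F)⁻¹ • v i + (2 : F)⁻¹ • v i := by abel
  rw [eq_sub_iff_add_eq, h3, h1]

theorem Wv_evw (h2 : (2 : F) ≠ 0) (w : FreeMagma ℕ) (v : ℕ → Oc F) : evw F (mo F w) v = Wv v w := by
  induction w with
  | ih1 i =>
    have h : evw F (mo F (FreeMagma.of i)) = x0 F i := Wre_of i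
    have h' : Wv v (FreeMagma.of i) = y0 (v i) := lift_of_apply _ _ _
    rw [h, h', XI_x0 h2]
  | ih2 a b ha hb =>
    have h : evw F (mo F (a * b)) = evw F (mo F a) * evw F (mo F b) :=
      map_mul (evw F) (mo F a) (mo F b)
    rw [h, Wv_mul, Pi.mul_apply, ha, hb]

/-- the reference function -/
noncomputable def rf (V : Multiset ℕ) : Fn F :=
  fun v => ((2 : F)⁻¹) ^ (V.card / 2) • Pv v (V.sort (· ≤ ·))

private theorem XI_sort (L : List ℕ) : L.insertionSort (· ≤ ·) = (L : Multiset ℕ).sort (· ≤ ·) := by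
  refine List.Perm.eq_of_pairwise' (List.pairwise_insertionSort _ L) (Multiset.pairwise_sort _ _) ?_
  have h1 : (((L : Multiset ℕ).sort (· ≤ ·) : List ℕ) : Multiset ℕ) = (L : Multiset ℕ) :=
    Multiset.sort_eq _ _
  exact (List.perm_insertionSort _ L).trans (Multiset.coe_eq_coe.1 h1).symm

theorem Phi_word (h2 : (2 : F) ≠ 0) (h3 : (3 : F) ≠ 0) {V : Multiset ℕ} (hV : V.Nodup) (hc : 4 ≤ V.card)
    {w : FreeMagma ℕ} (hw : lets id w = V) : ev F (Phi F (mo F w)) = evw F (mo F w) - rf V := by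
  have h0 : (flat w : Multiset ℕ) = V := (flat_coe w).trans hw
  have hlen : (flat w).length = V.card := by
    rw [← h0]
    rfl
  have hnd : (flat w).Nodup := by
    rw [← Multiset.coe_nodup, h0]
    exact hV
  have hsort : (flat w).insertionSort (· ≤ ·) = V.sort (· ≤ ·) := by
    rw [← h0]
    exact XI_sort (flat w)
  funext v
  rw [ev_eq_lift]
  have hP : Phi F (mo F w) = LFl w [] + RN (flat w) [] +
      ((2 : F)⁻¹) ^ ((flat w).length / 2) • SS (flat w) [] := linMo_mo _ w
  have e1 := Rp_LFl h2 h3 w hnd v []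
  have e2 := Rp_RN h2 h3 (flat w) (by omega) v []
  have e3 := Rp_SS h2 h3 (flat w) v []
  rw [tK_nil, one_smul] at e1 e2 e3
  rw [hP, map_add, map_add, map_smul, e1, e2, e3, Pi.sub_apply, Wv_evw h2, smul_sub, hsort, hlen]
  rw [sub_add_sub_cancel, sub_add_sub_cancel]
  rfl

theorem Phi_ev (h2 : (2 : F) ≠ 0) (h3 : (3 : F) ≠ 0) {V : Multiset ℕ} (hV : V.Nodup) (hc : 4 ≤ V.card)
    {f : FA F} (hf : f ∈ P F V) : ev F (Phi F f) = evw F f - sg F (evw F f) • rf V := by
  refine PP_induction id (p := fun f => ev F (Phi F f) = evw F f - sg F (evw F f) • rf V)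
    ?_ ?_ ?_ ?_ hf
  · simp only [map_zero]
    rw [zero_smul, sub_zero]
  · intro f g hf hg
    rw [map_add (Phi F), map_add (ev F), hf, hg, map_add (evw F), map_add (sg F), add_smul]
    abel
  · intro k f hf
    rw [map_smul (Phi F), map_smul (ev F), hf, map_smul (evw F), map_smul (sg F), smul_sub,
      smul_assoc]
  · intro w hw
    rw [Phi_word h2 h3 hV hc hw, sg_mo h2, one_smul]

/-- the sum of the coefficients -/
theorem ev_one (h2 : (2 : F) ≠ 0) {V : Multiset ℕ} {f : FA F} (hf : f ∈ P F V) :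
    ev F f (fun _ => 1) = sg F (evw F f) • (1 : Oc F) := by
  refine PP_induction id (p := fun f => ev F f (fun _ => 1) = sg F (evw F f) • (1 : Oc F))
    ?_ ?_ ?_ ?_ hf
  · simp only [map_zero]
    rw [zero_smul]
    rfl
  · intro f g hf hg
    rw [map_add (ev F), Pi.add_apply, hf, hg, map_add (evw F), map_add (sg F), add_smul]
  · intro k f hf
    rw [map_smul (ev F), Pi.smul_apply, hf, map_smul (evw F), map_smul (sg F), smul_assoc]
  · rintro w -
    rw [sg_mo h2, one_smul]
    induction w with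
    | ih1 i =>
      have h : ev F (mo F (FreeMagma.of i)) = XX F i := ev_of i
      rw [h]
      rfl
    | ih2 a b ha hb =>
      have h : ev F (mo F (a * b)) = ev F (mo F a) * ev F (mo F b) :=
        map_mul (ev F) (mo F a) (mo F b)
      rw [h, Pi.mul_apply, ha, hb, mul_one]

end Pool.Agent.OBX
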