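import Pool.Agent.OB.XD
import Pool.Agent.OB.Wre

/-!
# The zeros of traceless elements are spanned by the instances of the laws  (module XK)

`law_evw`: induction on `IsLaw`; `evw_invW` (in Inv): `evw (invW f) = star (evw f)`, `a + star a` is scalar (`isSc_trf`, `IsSc.comm`,
`IsSc.assoc`), `alt12_oc`, `alt23_oc`.
`law_span`: let `K = {g | ∀ V, V.Nodup → comp F id V g ∈ span F (LawV F V)}`, a submodule, and apply `killW` to `K` (then
`comp_of_mem`). `Laws K invW`: left: by `comp_mul` it suffices that `a' * g' ∈ span (LawV V)` for `a' ∈ P V₁`, `g' ∈ span (LawV V₂)`, `V₁ + V₂ = V`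
(`a'` is a combination of words: `IsLaw.left`, `PP_mul`). Laws: every instance is linear in the arguments, so (with `Words_ind` and
`quad_mem`, see the file LiftW for exactly this pattern with another `K`) let them be words: then the instance is homogeneous, of
multidegree `α`, `comp V` of it is itself (`comp_of_mem`) if `α = V` and 0 else (`comp_of_ne`). On the diagonal: `associator w w v` has a
multidegree with a repeated letter (`lets w + lets w + lets v`, `lets_ne`), so `comp V = 0` for `V.Nodup`; polarized: `IsLaw.altL`.
Norms: `com (w * invW w) v`: repeated letters; polarized: `com (w * invW w' + w' * invW w) v` where `invW (mo w') = ± mo r` for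
a word `r` (see `Wre_inv` in Wre) and `w' * invW w = invW (w * invW w')` (`invW_mul`, `invW_invW`), so it is
`± com (mo (w * r) + invW (mo (w * r))) v`: `IsLaw.trC`. The same for `trA`.
-/

set_option autoImplicit false
set_option linter.unusedSectionVars false

namespace Pool.Agent.OBX

open FreeNonUnitalNonAssocAlgebra Pool.Agent.H.MP_41922c_al Pool.Agent.Smt Pool.Agent.OB

variable {F : Type*} [Field F]

theorem law_evw (h2 : (2 : F) ≠ 0) {f : FA F} (hf : IsLaw F f) : evw F f = 0 := by
  induction hf with
  | altL u v w =>
    rw [map_add, LiftW_asc, LiftW_asc]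
    funext x
    have h := alt12_oc (evw F (mo F u) x) (evw F (mo F v) x) (evw F (mo F w) x)
    show associator (evw F (mo F u) x) (evw F (mo F v) x) (evw F (mo F w) x) +
      associator (evw F (mo F v) x) (evw F (mo F u) x) (evw F (mo F w) x) = 0
    rw [h, neg_add_cancel]
  | altR u v w =>
    rw [map_add, LiftW_asc, LiftW_asc]
    funext x
    have h := alt23_oc (evw F (mo F w) x) (evw F (mo F u) x) (evw F (mo F v) x)
    show associator (evw F (mo F w) x) (evw F (mo F u) x) (evw F (mo F v) x) +
      associator (evw F (mo F w) x) (evw F (mo F v) x) (evw F (mo F u) x) = 0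
    rw [h, neg_add_cancel]
  | trC u v =>
    have h : IsSc (evw F (mo F u) + star (evw F (mo F u))) := isSc_trf _
    rw [LiftW_com, map_add, evw_invW, com, h.comm, sub_self]
  | trA u v w =>
    have h : IsSc (evw F (mo F u) + star (evw F (mo F u))) := isSc_trf _
    rw [LiftW_asc, map_add, evw_invW, associator, (h.assoc _ _).1, sub_self]
  | left u f _ ih => rw [map_mul, ih, mul_zero]
  | right u f _ ih => rw [map_mul, ih, zero_mul]

variable (F) in
/-- all multilinear components are spanned by instances of the laws -/
noncomputable def XK_K : Submodule F (FA F) where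
  carrier := {g | ∀ V : Multiset ℕ, V.Nodup → comp F id V g ∈ Submodule.span F (LawV F V)}
  zero_mem' := fun V _ => by
    rw [map_zero]
    exact zero_mem _
  add_mem' := fun {f g} hf hg V hV => by
    rw [map_add]
    exact add_mem (hf V hV) (hg V hV)
  smul_mem' := fun c f hf V hV => by
    rw [map_smul]
    exact Submodule.smul_mem _ _ (hf V hV)

theorem XK_hom {m : Multiset ℕ} {g : FA F} (hg : g ∈ P F m)
    (h : m.Nodup → g ∈ Submodule.span F (LawV F m)) : g ∈ XK_K F := by
  intro V hV
  by_cases e : V = m
  · subst e
    rw [comp_of_mem id hg]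
    exact h hV
  · rw [comp_of_ne id hg (Ne.symm e)]
    exact zero_mem _

theorem XK_law {m : Multiset ℕ} {g : FA F} (hg : g ∈ P F m) (h : IsLaw F g) : g ∈ XK_K F :=
  XK_hom hg fun _ => Submodule.subset_span ⟨h, hg⟩

theorem XK_mulL (w : FreeMagma ℕ) {m : Multiset ℕ} {g : FA F}
    (hg : g ∈ Submodule.span F (LawV F m)) :
    mo F w * g ∈ Submodule.span F (LawV F (lets id w + m)) := by
  induction hg using Submodule.span_induction with
  | mem x hx => exact Submodule.subset_span ⟨IsLaw.left w x hx.1, PP_mul id (mo_mem id w) hx.2⟩
  | zero =>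
    rw [mul_zero]
    exact zero_mem _
  | add x y _ _ hx hy =>
    rw [mul_add]
    exact add_mem hx hy
  | smul c x _ hx =>
    rw [mul_smul_comm]
    exact Submodule.smul_mem _ _ hx

theorem XK_mulR (w : FreeMagma ℕ) {m : Multiset ℕ} {g : FA F}
    (hg : g ∈ Submodule.span F (LawV F m)) :
    g * mo F w ∈ Submodule.span F (LawV F (m + lets id w)) := by
  induction hg using Submodule.span_induction with
  | mem x hx => exact Submodule.subset_span ⟨IsLaw.right w x hx.1, PP_mul id hx.2 (mo_mem id w)⟩
  | zero =>
    rw [zero_mul]
    exact zero_mem _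
  | add x y _ _ hx hy =>
    rw [add_mul]
    exact add_mem hx hy
  | smul c x _ hx =>
    rw [smul_mul_assoc]
    exact Submodule.smul_mem _ _ hx

theorem XK_left (a f : FA F) (hf : f ∈ XK_K F) : a * f ∈ XK_K F := by
  refine LiftW_lin (fun a => a * f) (fun x y => add_mul x y f) (fun k x => smul_mul_assoc k x f)
    (fun w => ?_) a
  refine LiftW_sum (fun f => mo F w * f) (fun x y => mul_add _ x y) f fun m => ?_
  refine XK_hom (m := lets id w + m) (PP_mul id (mo_mem id w) (comp_mem id m f)) fun h => ?_
  exact XK_mulL w (hf m (Multiset.nodup_of_le (Multiset.le_add_left _ _) h))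

theorem XK_right (a f : FA F) (hf : f ∈ XK_K F) : f * a ∈ XK_K F := by
  refine LiftW_lin (fun a => f * a) (fun x y => mul_add f x y) (fun k x => mul_smul_comm k f x)
    (fun w => ?_) a
  refine LiftW_sum (fun f => f * mo F w) (fun x y => add_mul x y _) f fun m => ?_
  refine XK_hom (m := m + lets id w) (PP_mul id (comp_mem id m f) (mo_mem id w)) fun h => ?_
  exact XK_mulR w (hf m (Multiset.nodup_of_le (Multiset.le_add_right _ _) h))

theorem XK_altL (a b c : FA F) : associator a b c + associator b a c ∈ XK_K F := by
  refine LiftW_lin (fun a => associator a b c + associator b a c) (fun x y => ?_) (fun k x => ?_)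
    (fun u => ?_) a
  · simp only [associator, add_mul, mul_add]
    abel
  · simp only [associator, smul_sub, smul_add, smul_mul_assoc, mul_smul_comm]
  refine LiftW_lin (fun b => associator (mo F u) b c + associator b (mo F u) c) (fun x y => ?_)
    (fun k x => ?_) (fun v => ?_) b
  · simp only [associator, add_mul, mul_add]
    abel
  · simp only [associator, smul_sub, smul_add, smul_mul_assoc, mul_smul_comm]
  refine LiftW_lin (fun c => associator (mo F u) (mo F v) c + associator (mo F v) (mo F u) c)
    (fun x y => ?_) (fun k x => ?_) (fun w => ?_) c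
  · simp only [associator, mul_add]
    abel
  · simp only [associator, smul_sub, smul_add, mul_smul_comm]
  exact XK_law (m := lets id u + lets id v + lets id w)
    (add_mem (LiftW_asc_mem (mo_mem id u) (mo_mem id v) (mo_mem id w))
      (LiftW_cast (LiftW_asc_mem (mo_mem id v) (mo_mem id u) (mo_mem id w)) (by
        rw [add_comm (lets id v)]))) (IsLaw.altL u v w)

theorem XK_altR (a b c : FA F) : associator c a b + associator c b a ∈ XK_K F := by
  refine LiftW_lin (fun a => associator c a b + associator c b a) (fun x y => ?_) (fun k x => ?_)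
    (fun u => ?_) a
  · simp only [associator, add_mul, mul_add]
    abel
  · simp only [associator, smul_sub, smul_add, smul_mul_assoc, mul_smul_comm]
  refine LiftW_lin (fun b => associator c (mo F u) b + associator c b (mo F u)) (fun x y => ?_)
    (fun k x => ?_) (fun v => ?_) b
  · simp only [associator, add_mul, mul_add]
    abel
  · simp only [associator, smul_sub, smul_add, smul_mul_assoc, mul_smul_comm]
  refine LiftW_lin (fun c => associator c (mo F u) (mo F v) + associator c (mo F v) (mo F u))
    (fun x y => ?_) (fun k x => ?_) (fun w => ?_) c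
  · simp only [associator, add_mul]
    abel
  · simp only [associator, smul_sub, smul_add, smul_mul_assoc]
  exact XK_law (m := lets id w + lets id u + lets id v)
    (add_mem (LiftW_asc_mem (mo_mem id w) (mo_mem id u) (mo_mem id v))
      (LiftW_cast (LiftW_asc_mem (mo_mem id w) (mo_mem id v) (mo_mem id u)) (add_right_comm _ _ _)))
    (IsLaw.altR u v w)

theorem XK_trC (a b : FA F) : com (a + invW a) b ∈ XK_K F := by
  refine LiftW_lin (fun a => com (a + invW a) b) (fun x y => ?_) (fun k x => ?_) (fun u => ?_) a
  · simp only [com, invW_add, add_mul, mul_add]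
    abel
  · simp only [com, invW_smul, ← smul_add, smul_sub, smul_mul_assoc, mul_smul_comm]
  refine LiftW_lin (fun b => com (mo F u + invW (mo F u)) b) (fun x y => ?_) (fun k x => ?_)
    (fun v => ?_) b
  · simp only [com, add_mul, mul_add]
    abel
  · simp only [com, smul_sub, smul_mul_assoc, mul_smul_comm]
  exact XK_law (m := lets id u + lets id v)
    (LiftW_com_mem (add_mem (mo_mem id u) (invW_mem (mo_mem id u))) (mo_mem id v)) (IsLaw.trC u v)

theorem XK_trA (a b c : FA F) : associator (a + invW a) b c ∈ XK_K F := by
  refine LiftW_lin (fun a => associator (a + invW a) b c) (fun x y => ?_) (fun k x => ?_)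
    (fun u => ?_) a
  · simp only [associator, invW_add, add_mul]
    abel
  · simp only [associator, invW_smul, ← smul_add, smul_sub, smul_mul_assoc]
  refine LiftW_lin (fun b => associator (mo F u + invW (mo F u)) b c) (fun x y => ?_)
    (fun k x => ?_) (fun v => ?_) b
  · simp only [associator, add_mul, mul_add]
    abel
  · simp only [associator, smul_sub, smul_mul_assoc, mul_smul_comm]
  refine LiftW_lin (fun c => associator (mo F u + invW (mo F u)) (mo F v) c) (fun x y => ?_)
    (fun k x => ?_) (fun w => ?_) c
  · simp only [associator, mul_add]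
    abel
  · simp only [associator, smul_sub, mul_smul_comm]
  exact XK_law (m := lets id u + lets id v + lets id w)
    (LiftW_asc_mem (add_mem (mo_mem id u) (invW_mem (mo_mem id u))) (mo_mem id v) (mo_mem id w))
    (IsLaw.trA u v w)

theorem XK_inv (u : FA F) : invW (u * invW u) = u * invW u := by
  rw [invW_mul, invW_invW]

theorem XK_laws (h2 : (2 : F) ≠ 0) : Laws (XK_K F) invW where
  left a f hf := XK_left a f hf
  right a f hf := XK_right a f hf
  altL u v := LiftW_half h2 (XK_altL u u v)
  altR u v := LiftW_half h2 (XK_altR u u v)
  trC u v := XK_trC u v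
  trA u v w := XK_trA u v w
  nmC u v := by
    have h := XK_trC (u * invW u) v
    rw [XK_inv] at h
    refine LiftW_half h2 ?_
    have e : com (u * invW u + u * invW u) v = com (u * invW u) v + com (u * invW u) v := by
      simp only [com, add_mul, mul_add]
      abel
    rwa [e] at h
  nmA u v w := by
    have h := XK_trA (u * invW u) v w
    rw [XK_inv] at h
    refine LiftW_half h2 ?_
    have e : associator (u * invW u + u * invW u) v w =
        associator (u * invW u) v w + associator (u * invW u) v w := by
      simp only [associator, add_mul]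
      abel
    rwa [e] at h

theorem law_span [Infinite F] (h2 : (2 : F) ≠ 0) {V : Multiset ℕ} (hV : V.Nodup) {f : FA F}
    (hf : f ∈ P F V) (h : evw F f = 0) : f ∈ Submodule.span F (LawV F V) := by
  have h1 := killW h2 (XK_laws h2) h V hV
  rwa [comp_of_mem id hf] at h1

end Pool.Agent.OBX
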