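import Pool.Agent.OB.XD
import Pool.Agent.OB.Ids
import Pool.Agent.H.MP_41922c_al.TIdeal

/-!
# Identities of degree at most 3  (module XM)

`alt_S`: the T-ideal generated by the two alternative laws contains all instances `associator a b c + associator b a c`,
`associator c a b + associator c b a` (substitute `a + b`; `IsTIdeal.map` for a substitution `x_0 ↦ a, x_1 ↦ c`).
`small3`: `card = 0`: `P F 0 = ⊥`. `card = 1`: `f = k x_a`. `card = 2`: `f = k x_a x_b + l x_b x_a`, evaluate at
matrix units (`E₁₁ E₁₂ = E₁₂`, `E₁₂ E₁₁ = 0`; `E₁₁ = ⟨1,0,0,0,0,0,0,0⟩` in `Oc F` etc.). `card = 3`: modulo the alternative laws every product is a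
combination of the six `x_σ1 (x_σ2 x_σ3)` and of `(x_a, x_b, x_c)`: `(x y) z = x (y z) + (x, y, z)` and
`(x_σ1, x_σ2, x_σ3) = ± (x_a, x_b, x_c)`. The value at `x_σ1 = E₁₁, x_σ2 = E₁₂, x_σ3 = E₂₂` is the coefficient of
`x_σ1 (x_σ2 x_σ3)` times `E₁₂` (the subalgebra `M₂` is associative), so the six coefficients are 0. At last
`(x_a, x_b, x_c)` is not an identity.
-/

set_option autoImplicit false
set_option linter.unusedSectionVars false

namespace Pool.Agent.OBX

open FreeNonUnitalNonAssocAlgebra Pool.Agent.H.MP_41922c_al Pool.Agent.Smt Pool.Agent.OB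

variable {F : Type*} [Field F]

/-- the two alternative laws -/
noncomputable def Alt2 (F : Type*) [Field F] : Set (FA F) :=
  {associator (of F 0) (of F 0) (of F 1), associator (of F 1) (of F 0) (of F 0)}

/-! ### the alternative laws -/

theorem XM_altL (p q : FA F) : associator p p q ∈ tIdeal F (Alt2 F) := by
  have h1 : associator (of F 0) (of F 0) (of F 1) ∈ tIdeal F (Alt2 F) :=
    subset_tIdeal _ (Or.inl rfl)
  have h2 := (isTIdeal_tIdeal (Alt2 F)).map (lift F (fun i : ℕ => if i = 0 then p else q)) _ h1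
  simpa [Ids_ass, lift_of_apply] using h2

theorem XM_altR (p q : FA F) : associator q p p ∈ tIdeal F (Alt2 F) := by
  have h1 : associator (of F 1) (of F 0) (of F 0) ∈ tIdeal F (Alt2 F) :=
    subset_tIdeal _ (Or.inr rfl)
  have h2 := (isTIdeal_tIdeal (Alt2 F)).map (lift F (fun i : ℕ => if i = 0 then p else q)) _ h1
  simpa [Ids_ass, lift_of_apply] using h2

theorem XM_symL (a b c : FA F) :
    associator a b c + associator b a c ∈ tIdeal F (Alt2 F) := by
  have h1 := sub_mem (sub_mem (XM_altL (a + b) c) (XM_altL a c)) (XM_altL b c)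
  have h2 : associator (a + b) (a + b) c - associator a a c - associator b b c =
      associator a b c + associator b a c := by
    simp only [associator_apply, add_mul, mul_add]
    abel
  rwa [h2] at h1

theorem XM_symR (a b c : FA F) :
    associator c a b + associator c b a ∈ tIdeal F (Alt2 F) := by
  have h1 := sub_mem (sub_mem (XM_altR (a + b) c) (XM_altR a c)) (XM_altR b c)
  have h2 : associator c (a + b) (a + b) - associator c a a - associator c b b =
      associator c a b + associator c b a := by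
    simp only [associator_apply, add_mul, mul_add]
    abel
  rwa [h2] at h1

theorem XM_id {f : FA F} (hf : f ∈ tIdeal F (Alt2 F)) : Id F f := by
  refine tIdeal_le (isTIdeal_identities (Oc F)) ?_ hf
  rintro g (rfl | rfl) φ
  · rw [Ids_ass]
    ext <;> simp [associator_apply] <;> ring
  · rw [Ids_ass]
    ext <;> simp [associator_apply] <;> ring

/-! ### words of degree at most 3 -/

theorem XM_pos : (w : FreeMagma ℕ) → 1 ≤ (lets id w).card
  | .of a => by simp [lets]
  | .mul u v => by
    have h1 := XM_pos u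
    simp only [lets, Multiset.card_add]
    omega

theorem XM_one {w : FreeMagma ℕ} (h : (lets id w).card = 1) : ∃ a, w = .of a := by
  cases w with
  | of a => exact ⟨a, rfl⟩
  | mul u v =>
    have h1 := XM_pos u
    have h2 := XM_pos v
    simp only [lets, Multiset.card_add] at h
    omega

theorem XM_two {w : FreeMagma ℕ} (h : (lets id w).card = 2) :
    ∃ a b, w = .mul (.of a) (.of b) := by
  cases w with
  | of a => simp [lets] at h
  | mul u v =>
    have h1 := XM_pos u
    have h2 := XM_pos v
    simp only [lets, Multiset.card_add] at h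
    obtain ⟨a, rfl⟩ := XM_one (w := u) (by omega)
    obtain ⟨b, rfl⟩ := XM_one (w := v) (by omega)
    exact ⟨a, b, rfl⟩

theorem XM_three {w : FreeMagma ℕ} (h : (lets id w).card = 3) :
    ∃ a b c, w = .mul (.of a) (.mul (.of b) (.of c)) ∨ w = .mul (.mul (.of a) (.of b)) (.of c) := by
  cases w with
  | of a => simp [lets] at h
  | mul u v =>
    have h1 := XM_pos u
    have h2 := XM_pos v
    simp only [lets, Multiset.card_add] at h
    have h3 : (lets id u).card = 1 ∨ (lets id u).card = 2 := by omega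
    rcases h3 with h3 | h3
    · obtain ⟨a, rfl⟩ := XM_one h3
      obtain ⟨b, c, rfl⟩ := XM_two (w := v) (by omega)
      exact ⟨a, b, c, Or.inl rfl⟩
    · obtain ⟨a, b, rfl⟩ := XM_two h3
      obtain ⟨c, rfl⟩ := XM_one (w := v) (by omega)
      exact ⟨a, b, c, Or.inr rfl⟩

/-- the value of an identity -/
theorem XM_ev {f : FA F} (h : Id F f) (θ : ℕ → Oc F) : lift F θ f = 0 := h (lift F θ)

/-- the possible permutations -/
theorem XM_perm {a b c x y z : ℕ} (hab : a ≠ b) (hac : a ≠ c) (hbc : b ≠ c)
    (h : ({x} + ({y} + {z}) : Multiset ℕ) = {a} + ({b} + {c})) :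
    (x = a ∧ y = b ∧ z = c) ∨ (x = a ∧ y = c ∧ z = b) ∨ (x = b ∧ y = a ∧ z = c) ∨
      (x = b ∧ y = c ∧ z = a) ∨ (x = c ∧ y = a ∧ z = b) ∨ (x = c ∧ y = b ∧ z = a) := by
  have hnd : ({x} + ({y} + {z}) : Multiset ℕ).Nodup := by
    rw [h, Multiset.singleton_add, Multiset.singleton_add]
    simp only [Multiset.nodup_cons, Multiset.mem_cons, Multiset.mem_singleton,
      Multiset.nodup_singleton, not_or]
    exact ⟨⟨hab, hac⟩, hbc, trivial⟩
  have hx : x ∈ ({x} + ({y} + {z}) : Multiset ℕ) := by simp
  have hy : y ∈ ({x} + ({y} + {z}) : Multiset ℕ) := by simp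
  have hz : z ∈ ({x} + ({y} + {z}) : Multiset ℕ) := by simp
  have hn : x ≠ y ∧ x ≠ z ∧ y ≠ z := by
    simp only [Multiset.singleton_add, Multiset.nodup_cons, Multiset.mem_cons,
      Multiset.mem_singleton, Multiset.nodup_singleton, not_or] at hnd
    tauto
  rw [h] at hx hy hz
  simp only [Multiset.mem_add, Multiset.mem_singleton] at hx hy hz
  obtain ⟨h1, h2, h3⟩ := hn
  rcases hx with hx | hx | hx <;> rcases hy with hy | hy | hy <;> rcases hz with hz | hz | hz <;>
    simp_all

/-- the canonical polynomials of degree 3 -/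
noncomputable def XM_e (F : Type*) [Field F] (a b c : ℕ) : Fin 7 → FA F :=
  ![of F a * (of F b * of F c), of F a * (of F c * of F b), of F b * (of F a * of F c),
    of F b * (of F c * of F a), of F c * (of F a * of F b), of F c * (of F b * of F a),
    associator (of F a) (of F b) (of F c)]

theorem XM_word {a b c : ℕ} (hab : a ≠ b) (hac : a ≠ c) (hbc : b ≠ c) {w : FreeMagma ℕ}
    (hw : lets id w = {a} + ({b} + {c})) :
    mo F w ∈ tIdeal F (Alt2 F) ⊔ Submodule.span F (Set.range (XM_e F a b c)) := by
  obtain ⟨S, hS⟩ : ∃ S, S = tIdeal F (Alt2 F) ⊔ Submodule.span F (Set.range (XM_e F a b c)) :=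
    ⟨_, rfl⟩
  rw [← hS]
  have hI : tIdeal F (Alt2 F) ≤ S := hS ▸ le_sup_left
  have he : ∀ i, XM_e F a b c i ∈ S := fun i =>
    hS ▸ Submodule.mem_sup_right (Submodule.subset_span ⟨i, rfl⟩)
  have e0 : of F a * (of F b * of F c) ∈ S := he 0
  have e1 : of F a * (of F c * of F b) ∈ S := he 1
  have e2 : of F b * (of F a * of F c) ∈ S := he 2
  have e3 : of F b * (of F c * of F a) ∈ S := he 3
  have e4 : of F c * (of F a * of F b) ∈ S := he 4
  have e5 : of F c * (of F b * of F a) ∈ S := he 5
  have e6 : associator (of F a) (of F b) (of F c) ∈ S := he 6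
  have sw1 : ∀ {x y z : FA F}, associator x y z ∈ S → associator y x z ∈ S := by
    intro x y z h
    have h1 := sub_mem (hI (XM_symL x y z)) h
    rwa [add_sub_cancel_left] at h1
  have sw2 : ∀ {x y z : FA F}, associator x y z ∈ S → associator x z y ∈ S := by
    intro x y z h
    have h1 := sub_mem (hI (XM_symR y z x)) h
    rwa [add_sub_cancel_left] at h1
  have hl : ∀ {x y z : FA F}, x * (y * z) ∈ S → associator x y z ∈ S → x * y * z ∈ S := by
    intro x y z h h'
    have h1 := add_mem h' h
    rwa [associator_apply, sub_add_cancel] at h1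
  have hcard : (lets id w).card = 3 := by rw [hw]; simp
  obtain ⟨x, y, z, rfl | rfl⟩ := XM_three hcard
  · have hp := XM_perm hab hac hbc (x := x) (y := y) (z := z) (by simpa [lets] using hw)
    show of F x * (of F y * of F z) ∈ S
    rcases hp with ⟨rfl, rfl, rfl⟩ | ⟨rfl, rfl, rfl⟩ | ⟨rfl, rfl, rfl⟩ | ⟨rfl, rfl, rfl⟩ |
      ⟨rfl, rfl, rfl⟩ | ⟨rfl, rfl, rfl⟩
    · exact e0
    · exact e1
    · exact e2
    · exact e3
    · exact e4
    · exact e5
  · have hp := XM_perm hab hac hbc (x := x) (y := y) (z := z) (by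
      rw [← hw]
      simp only [lets, id, add_assoc])
    show of F x * of F y * of F z ∈ S
    rcases hp with ⟨rfl, rfl, rfl⟩ | ⟨rfl, rfl, rfl⟩ | ⟨rfl, rfl, rfl⟩ | ⟨rfl, rfl, rfl⟩ |
      ⟨rfl, rfl, rfl⟩ | ⟨rfl, rfl, rfl⟩
    · exact hl e0 e6
    · exact hl e1 (sw2 e6)
    · exact hl e2 (sw1 e6)
    · exact hl e3 (sw2 (sw1 e6))
    · exact hl e4 (sw1 (sw2 e6))
    · exact hl e5 (sw1 (sw2 (sw1 e6)))

/-- the matrix units and `v` -/
def XM_A (F : Type*) [Field F] : Oc F := ⟨1, 0, 0, 0, 0, 0, 0, 0⟩
def XM_B (F : Type*) [Field F] : Oc F := ⟨0, 1, 0, 0, 0, 0, 0, 0⟩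
def XM_C (F : Type*) [Field F] : Oc F := ⟨0, 0, 0, 1, 0, 0, 0, 0⟩
def XM_V (F : Type*) [Field F] : Oc F := ⟨0, 0, 0, 0, 1, 0, 0, 1⟩

/-- degree 3 -/
theorem XM_deg3 {a b c : ℕ} (hab : a ≠ b) (hac : a ≠ c) (hbc : b ≠ c) {f : FA F}
    (hf : f ∈ P F ({a} + ({b} + {c}))) (h : Id F f) : f ∈ tIdeal F (Alt2 F) := by
  have h1 : f ∈ tIdeal F (Alt2 F) ⊔ Submodule.span F (Set.range (XM_e F a b c)) := by
    refine Submodule.span_le.2 ?_ hf
    rintro g ⟨w, hw, rfl⟩
    exact XM_word hab hac hbc hw
  obtain ⟨g, hg, p, hp, rfl⟩ := Submodule.mem_sup.1 h1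
  obtain ⟨k, rfl⟩ := (Submodule.mem_span_range_iff_exists_fun F).1 hp
  have hgid := XM_id hg
  have hval : ∀ A B C : Oc F, k 0 • (A * (B * C)) + k 1 • (A * (C * B)) + k 2 • (B * (A * C)) +
      k 3 • (B * (C * A)) + k 4 • (C * (A * B)) + k 5 • (C * (B * A)) +
      k 6 • associator A B C = 0 := by
    intro A B C
    have h2 := XM_ev h (fun i => if i = a then A else if i = b then B else C)
    rw [map_add, XM_ev hgid, zero_add, Fin.sum_univ_seven] at h2
    have ha : lift F (fun i => if i = a then A else if i = b then B else C) (of F a) = A := by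
      rw [lift_of_apply, if_pos rfl]
    have hb : lift F (fun i => if i = a then A else if i = b then B else C) (of F b) = B := by
      rw [lift_of_apply, if_neg hab.symm, if_pos rfl]
    have hc : lift F (fun i => if i = a then A else if i = b then B else C) (of F c) = C := by
      rw [lift_of_apply, if_neg hac.symm, if_neg hbc.symm]
    have e0 : XM_e F a b c 0 = of F a * (of F b * of F c) := rfl
    have e1 : XM_e F a b c 1 = of F a * (of F c * of F b) := rfl
    have e2 : XM_e F a b c 2 = of F b * (of F a * of F c) := rfl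
    have e3 : XM_e F a b c 3 = of F b * (of F c * of F a) := rfl
    have e4 : XM_e F a b c 4 = of F c * (of F a * of F b) := rfl
    have e5 : XM_e F a b c 5 = of F c * (of F b * of F a) := rfl
    have e6 : XM_e F a b c 6 = associator (of F a) (of F b) (of F c) := rfl
    rw [e0, e1, e2, e3, e4, e5, e6] at h2
    simp only [map_add, map_smul, map_mul, Ids_ass, ha, hb, hc] at h2
    exact h2
  have k0 : k 0 = 0 := by
    have := congrArg Oc.m₂ (hval (XM_A F) (XM_B F) (XM_C F))
    simpa [XM_A, XM_B, XM_C, associator_apply] using this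
  have k1 : k 1 = 0 := by
    have := congrArg Oc.m₂ (hval (XM_A F) (XM_C F) (XM_B F))
    simpa [XM_A, XM_B, XM_C, associator_apply] using this
  have k2 : k 2 = 0 := by
    have := congrArg Oc.m₂ (hval (XM_B F) (XM_A F) (XM_C F))
    simpa [XM_A, XM_B, XM_C, associator_apply] using this
  have k3 : k 3 = 0 := by
    have := congrArg Oc.m₂ (hval (XM_C F) (XM_A F) (XM_B F))
    simpa [XM_A, XM_B, XM_C, associator_apply] using this
  have k4 : k 4 = 0 := by
    have := congrArg Oc.m₂ (hval (XM_B F) (XM_C F) (XM_A F))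
    simpa [XM_A, XM_B, XM_C, associator_apply] using this
  have k5 : k 5 = 0 := by
    have := congrArg Oc.m₂ (hval (XM_C F) (XM_B F) (XM_A F))
    simpa [XM_A, XM_B, XM_C, associator_apply] using this
  have k6 : k 6 = 0 := by
    have h3 := hval (XM_A F) (XM_B F) (XM_V F)
    rw [k0, k1, k2, k3, k4, k5] at h3
    have h4 : associator (XM_A F) (XM_B F) (XM_V F) = ⟨0, 0, 0, 0, 0, 1, 0, 0⟩ := by
      ext <;> simp [XM_A, XM_B, XM_V, associator_apply]
    rw [h4] at h3
    have := congrArg Oc.a₂ h3
    simpa using this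
  have h5 : ∑ i, k i • XM_e F a b c i = 0 := by
    rw [Fin.sum_univ_seven, k0, k1, k2, k3, k4, k5, k6]
    simp only [zero_smul, add_zero]
  rw [h5, add_zero]
  exact hg

theorem small3 {V : Multiset ℕ} (hV : V.Nodup) (hc : V.card ≤ 3) {f : FA F} (hf : f ∈ P F V)
    (h : Id F f) : f ∈ tIdeal F (Alt2 F) := by
  have hcases : V.card = 0 ∨ V.card = 1 ∨ V.card = 2 ∨ V.card = 3 := by omega
  rcases hcases with h0 | h0 | h0 | h0
  · have h1 : f ∈ (⊥ : Submodule F (FA F)) := by
      refine Submodule.span_le.2 ?_ hf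
      rintro g ⟨w, hw, rfl⟩
      have h2 := XM_pos w
      rw [hw, h0] at h2
      omega
    rw [(Submodule.mem_bot F).1 h1]
    exact zero_mem _
  · obtain ⟨a, rfl⟩ := Multiset.card_eq_one.1 h0
    have h1 : f ∈ Submodule.span F {of F a} := by
      refine Submodule.span_le.2 ?_ hf
      rintro g ⟨w, hw, rfl⟩
      obtain ⟨x, rfl⟩ := XM_one (w := w) (by rw [hw]; simp)
      have h2 : x = a := by simpa [lets] using hw
      rw [h2]
      exact Submodule.subset_span rfl
    obtain ⟨k, rfl⟩ := Submodule.mem_span_singleton.1 h1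
    have h3 := XM_ev h (fun _ => XM_A F)
    rw [map_smul, lift_of_apply] at h3
    have h4 : k = 0 := by
      have := congrArg Oc.m₁ h3
      simpa [XM_A] using this
    rw [h4, zero_smul]
    exact zero_mem _
  · obtain ⟨a, b, rfl⟩ := Multiset.card_eq_two.1 h0
    have hab : a ≠ b := by
      intro hh
      subst hh
      simp at hV
    have h1 : f ∈ Submodule.span F {of F a * of F b, of F b * of F a} := by
      refine Submodule.span_le.2 ?_ hf
      rintro g ⟨w, hw, rfl⟩
      obtain ⟨x, y, rfl⟩ := XM_two (w := w) (by rw [hw]; simp)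
      have hw' : ({x} + {y} : Multiset ℕ) = {a, b} := hw
      have hx : x ∈ ({a, b} : Multiset ℕ) := by rw [← hw']; simp
      have hy : y ∈ ({a, b} : Multiset ℕ) := by rw [← hw']; simp
      have hxy : x ≠ y := by
        intro hh
        subst hh
        rw [← hw'] at hV
        simp [Multiset.singleton_add] at hV
      simp only [Multiset.insert_eq_cons, Multiset.mem_cons, Multiset.mem_singleton] at hx hy
      show of F x * of F y ∈ _
      rcases hx with rfl | rfl <;> rcases hy with rfl | rfl
      · exact absurd rfl hxy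
      · exact Submodule.subset_span (Or.inl rfl)
      · exact Submodule.subset_span (Or.inr rfl)
      · exact absurd rfl hxy
    obtain ⟨k, l, rfl⟩ := Submodule.mem_span_pair.1 h1
    have hval : ∀ A B : Oc F, k • (A * B) + l • (B * A) = 0 := by
      intro A B
      have h2 := XM_ev h (fun i => if i = a then A else B)
      have ha : lift F (fun i => if i = a then A else B) (of F a) = A := by
        rw [lift_of_apply, if_pos rfl]
      have hb : lift F (fun i => if i = a then A else B) (of F b) = B := by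
        rw [lift_of_apply, if_neg hab.symm]
      simp only [map_add, map_smul, map_mul, ha, hb] at h2
      exact h2
    have k0 : k = 0 := by
      have := congrArg Oc.m₂ (hval (XM_A F) (XM_B F))
      simpa [XM_A, XM_B] using this
    have l0 : l = 0 := by
      have := congrArg Oc.m₂ (hval (XM_B F) (XM_A F))
      simpa [XM_A, XM_B] using this
    rw [k0, l0, zero_smul, zero_smul, add_zero]
    exact zero_mem _
  · obtain ⟨a, b, c, rfl⟩ := Multiset.card_eq_three.1 h0
    have hV' : a ≠ b ∧ a ≠ c ∧ b ≠ c := by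
      simp only [Multiset.insert_eq_cons, Multiset.nodup_cons, Multiset.mem_cons,
        Multiset.mem_singleton, Multiset.nodup_singleton, not_or] at hV
      tauto
    exact XM_deg3 hV'.1 hV'.2.1 hV'.2.2 (by
      have e : ({a} + ({b} + {c}) : Multiset ℕ) = {a, b, c} := by
        rw [Multiset.singleton_add, Multiset.singleton_add]
        rfl
      rw [e]
      exact hf) h

end Pool.Agent.OBX
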