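import Pool.Agent.OB.XD

/-!
# The proper part is a projection  (module XS)

Let `ε f` be the sum of the coefficients (`cs`). For `f ∈ P F V` with `cs f = 0`, `g = sharp V f` and `∅ ≠ J ⊆ V`, `J ≠ V`:
`eK J g = 0`. It suffices to show this for `J = {j}`: `eK (insert j J') = eK J' ∘ eK {j}` on words whose letters are
not all deleted (`del`), and for the others the coefficients matter (`cs = 0`, all words give the same value). Suggested: extend `del`, `eK` to
the algebra with unit: let `u : FreeMagma ℕ → Option ..` and work in the free module on `Option (FreeMagma ℕ)` (`none` is the unit); there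
deletions commute exactly, `e_j (x_K h) = x_K (e_j h)` if `j ∉ K` and `x_(K - j) h'` if `j ∈ K`, and the terms `K`, `K ∪ {j}` of
`∑_K (-1)^|K| x_K (e_K f)` (all `K ⊆ V`) cancel under `e_j`. The term `K = V` is `± cs f • x_V = 0`. Then
`sharp V g = ∑_K ± x_K (eK K g) = g` (only `K = ∅` remains).
-/

set_option autoImplicit false
set_option linter.unusedSectionVars false

namespace Pool.Agent.OBX

open FreeNonUnitalNonAssocAlgebra Pool.Agent.H.MP_41922c_al Pool.Agent.Smt Pool.Agent.OB

variable {F : Type*} [Field F]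

/-- the sum of the coefficients -/
noncomputable def cs : FA F →ₗ[F] F := linMo F (fun _ => 1)

theorem XS_cs_ev (f : FA F) : ev F f (fun _ => 1) = cs f • (1 : Oc F) := by
  refine Words_ind (p := fun f : FA F => ev F f (fun _ => 1) = cs f • (1 : Oc F)) ?_ ?_ ?_ ?_ f
  · rw [map_zero, map_zero, zero_smul]
    rfl
  · intro f g hf hg
    rw [map_add, map_add, add_smul, Pi.add_apply, hf, hg]
  · intro k f hf
    rw [map_smul, map_smul, Pi.smul_apply, hf, smul_eq_mul, mul_smul]
  · intro w
    have h1 : cs (mo F w) = 1 := linMo_mo _ w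
    rw [h1, one_smul]
    induction w with
    | ih1 a =>
      have h2 : ev F (mo F (FreeMagma.of a)) = XX F a := ev_of a
      rw [h2]
      rfl
    | ih2 u v hu hv =>
      have h2 : ev F (mo F (u * v)) = ev F (mo F u) * ev F (mo F v) :=
        map_mul (ev F) (mo F u) (mo F v)
      rw [h2, Pi.mul_apply, hu (linMo_mo _ u), hv (linMo_mo _ v), one_mul]

theorem cs_sg [Infinite F] (h2 : (2 : F) ≠ 0) {V : Multiset ℕ} {f : FA F} (hf : f ∈ P F V)
    (h : ev F f = 0) : cs f = 0 := by
  have h1 := XS_cs_ev f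
  rw [h] at h1
  have h2 : (0 : Oc F) = cs f • (1 : Oc F) := h1
  have h3 := congrArg Oc.m₁ h2
  have h4 : (0 : F) = cs f * 1 := h3
  rw [mul_one] at h4
  exact h4.symm

/-- an optional word in the algebra with unit -/
noncomputable def XS_m (F : Type*) [Field F] : Option (FreeMagma ℕ) → FA F × F
  | none => (0, 1)
  | some w => (mo F w, 0)

/-- substitution of `1` for the variables in `K`, in the algebra with unit -/
noncomputable def XS_e (F : Type*) [Field F] (K : Finset ℕ) : FA F × F →ₗ[F] FA F × F :=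
  LinearMap.coprod (linMo F (fun w => XS_m F (del K w)))
    (LinearMap.toSpanSingleton F (FA F × F) (0, 1))

/-- multiplication by a variable of an optional word -/
def XS_c (i : ℕ) : Option (FreeMagma ℕ) → Option (FreeMagma ℕ)
  | none => some (FreeMagma.of i)
  | some w => some (FreeMagma.of i * w)

/-- multiplication by a variable, in the algebra with unit -/
noncomputable def XS_x (F : Type*) [Field F] (i : ℕ) : FA F × F →ₗ[F] FA F × F :=
  (LinearMap.inl F (FA F) F).comp
    (LinearMap.coprod (LinearMap.mulLeft F (of F i)) (LinearMap.toSpanSingleton F (FA F) (of F i)))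

theorem XS_e_m (K : Finset ℕ) (o : Option (FreeMagma ℕ)) :
    XS_e F K (XS_m F o) = XS_m F (o.bind (del K)) := by
  rcases o with _ | w
  · change linMo F (fun w => XS_m F (del K w)) 0 + (1 : F) • ((0, 1) : FA F × F) = (0, 1)
    rw [map_zero, zero_add, one_smul]
  · change linMo F (fun w => XS_m F (del K w)) (mo F w) + (0 : F) • ((0, 1) : FA F × F) =
      XS_m F (del K w)
    rw [linMo_mo, zero_smul, add_zero]

theorem XS_x_m (i : ℕ) (o : Option (FreeMagma ℕ)) : XS_x F i (XS_m F o) = XS_m F (XS_c i o) := by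
  rcases o with _ | w
  · change ((of F i * (0 : FA F) + (1 : F) • of F i, (0 : F)) : FA F × F) = (of F i, 0)
    rw [mul_zero, zero_add, one_smul]
  · change ((of F i * mo F w + (0 : F) • of F i, (0 : F)) : FA F × F) = (of F i * mo F w, 0)
    rw [zero_smul, add_zero]

theorem XS_ext {M : Type*} [AddCommGroup M] [Module F M] {g g' : FA F × F →ₗ[F] M}
    (h : ∀ o, g (XS_m F o) = g' (XS_m F o)) : g = g' := by
  refine LinearMap.prod_ext (ext_mo fun w => h (some w)) (LinearMap.ext_ring (h none))

theorem XS_del_del (J K : Finset ℕ) (w : FreeMagma ℕ) :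
    (del K w).bind (del J) = del (J ∪ K) w := by
  induction w with
  | ih1 a =>
    have h1 : ∀ K : Finset ℕ, del K (FreeMagma.of a) =
      if a ∈ K then none else some (FreeMagma.of a) := fun _ => rfl
    rw [h1, h1]
    by_cases hK : a ∈ K
    · rw [if_pos hK, if_pos (Finset.mem_union_right J hK)]
      rfl
    · rw [if_neg hK]
      change del J (FreeMagma.of a) = _
      rw [h1]
      by_cases hJ : a ∈ J
      · rw [if_pos hJ, if_pos (Finset.mem_union_left K hJ)]
      · rw [if_neg hJ, if_neg]
        intro h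
        exact (Finset.mem_union.1 h).elim hJ hK
  | ih2 u v hu hv =>
    rw [Shp_del_mul K, Shp_del_mul (J ∪ K), ← hu, ← hv]
    rcases del K u with _ | a <;> rcases del K v with _ | b
    · rfl
    · rfl
    · change del J a = _
      simp only [Option.bind_some, Option.bind_none]
      rcases del J a with _ | a'
      · rfl
      · rfl
    · exact Shp_del_mul J a b

theorem XS_e_e (J K : Finset ℕ) (h : FA F × F) : XS_e F J (XS_e F K h) = XS_e F (J ∪ K) h := by
  have h1 : (XS_e F J).comp (XS_e F K) = XS_e F (J ∪ K) := by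
    refine XS_ext fun o => ?_
    rw [LinearMap.comp_apply, XS_e_m, XS_e_m, XS_e_m]
    rcases o with _ | w
    · rfl
    · change XS_m F ((del K w).bind (del J)) = XS_m F (del (J ∪ K) w)
      rw [XS_del_del]
  rw [← h1, LinearMap.comp_apply]

theorem XS_c_self (j : ℕ) (o : Option (FreeMagma ℕ)) :
    (XS_c j o).bind (del {j}) = o.bind (del {j}) := by
  have h1 : del {j} (FreeMagma.of j) = none := if_pos (Finset.mem_singleton_self j)
  rcases o with _ | w
  · exact h1
  · change del {j} (FreeMagma.of j * w) = del {j} w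
    rw [Shp_del_mul, h1]

theorem XS_c_ne {i j : ℕ} (hij : i ≠ j) (o : Option (FreeMagma ℕ)) :
    (XS_c i o).bind (del {j}) = XS_c i (o.bind (del {j})) := by
  have h1 : del {j} (FreeMagma.of i) = some (FreeMagma.of i) :=
    if_neg (fun h => hij (Finset.mem_singleton.1 h))
  rcases o with _ | w
  · exact h1
  · change del {j} (FreeMagma.of i * w) = XS_c i (del {j} w)
    rw [Shp_del_mul, h1]
    rcases del {j} w with _ | b
    · rfl
    · rfl

theorem XS_e_x_self (j : ℕ) (h : FA F × F) : XS_e F {j} (XS_x F j h) = XS_e F {j} h := by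
  have h1 : (XS_e F {j}).comp (XS_x F j) = XS_e F {j} := by
    refine XS_ext fun o => ?_
    rw [LinearMap.comp_apply, XS_x_m, XS_e_m, XS_e_m, XS_c_self]
  rw [← LinearMap.comp_apply, h1]

theorem XS_e_x_ne {i j : ℕ} (hij : i ≠ j) (h : FA F × F) :
    XS_e F {j} (XS_x F i h) = XS_x F i (XS_e F {j} h) := by
  have h1 : (XS_e F {j}).comp (XS_x F i) = (XS_x F i).comp (XS_e F {j}) := by
    refine XS_ext fun o => ?_
    rw [LinearMap.comp_apply, LinearMap.comp_apply, XS_x_m, XS_e_m, XS_e_m, XS_x_m, XS_c_ne hij]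
  rw [← LinearMap.comp_apply, h1, LinearMap.comp_apply]

/-- the product of the variables of a list with an element of the algebra with unit -/
noncomputable def XS_lam (F : Type*) [Field F] : List ℕ → FA F × F → FA F × F
  | [], f => f
  | i :: L, f => XS_x F i (XS_lam F L f)

theorem XS_e_lam (j : ℕ) (L : List ℕ) (h : FA F × F) :
    XS_e F {j} (XS_lam F L h) = XS_lam F (L.filter (· ≠ j)) (XS_e F {j} h) := by
  induction L with
  | nil => rfl
  | cons i L ih =>
    by_cases hj : i = j
    · subst hj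
      rw [List.filter_cons_of_neg (by simp), ← ih]
      exact XS_e_x_self _ _
    · rw [List.filter_cons_of_pos (by simpa using hj)]
      change XS_e F {j} (XS_x F i (XS_lam F L h)) = XS_x F i (XS_lam F (L.filter (· ≠ j)) _)
      rw [XS_e_x_ne hj, ih]

theorem XS_lam_inl (L : List ℕ) (g : FA F) : XS_lam F L (g, 0) = (lamK F L g, 0) := by
  induction L with
  | nil => rfl
  | cons i L ih =>
    change XS_x F i (XS_lam F L (g, 0)) = (of F i * lamK F L g, 0)
    rw [ih]
    change ((of F i * lamK F L g + (0 : F) • of F i, (0 : F)) : FA F × F) = (of F i * lamK F L g, 0)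
    rw [zero_smul, add_zero]

theorem XS_lam_zero (L : List ℕ) : XS_lam F L 0 = 0 := by
  induction L with
  | nil => rfl
  | cons i L ih =>
    change XS_x F i (XS_lam F L 0) = 0
    rw [ih, map_zero]

/-- the sum with the term of `V` -/
noncomputable def XS_S (V : Multiset ℕ) (f : FA F) : FA F × F :=
  ∑ K ∈ V.toFinset.powerset, ((-1 : F) ^ K.card) • XS_lam F (K.sort (· ≤ ·)) (XS_e F K (f, 0))

theorem XS_pair {K : Finset ℕ} {i : ℕ} (h : i ∉ K) (f : FA F) :
    XS_e F {i} (((-1 : F) ^ (insert i K).card) •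
        XS_lam F ((insert i K).sort (· ≤ ·)) (XS_e F (insert i K) (f, 0))) =
      -XS_e F {i} (((-1 : F) ^ K.card) • XS_lam F (K.sort (· ≤ ·)) (XS_e F K (f, 0))) := by
  have h1 : ({i} : Finset ℕ) ∪ insert i K = {i} ∪ K := by
    ext j
    simp only [Finset.mem_union, Finset.mem_singleton, Finset.mem_insert]
    tauto
  have h2 : (K.sort (· ≤ ·)).filter (· ≠ i) = K.sort (· ≤ ·) := by
    refine List.filter_eq_self.2 fun j hj => ?_
    have h3 : j ≠ i := by
      rintro rfl
      exact h ((Finset.mem_sort _).1 hj)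
    simpa using h3
  rw [map_smul, map_smul, XS_e_lam, XS_e_lam, XS_e_e, XS_e_e, h1, Shp_sort h, h2,
    Finset.card_insert_of_notMem h, pow_succ, mul_neg, mul_one, neg_smul]

theorem XS_S_proper {V : Multiset ℕ} (f : FA F) {i : ℕ} (hi : i ∈ V) :
    XS_e F {i} (XS_S V f) = 0 := by
  unfold XS_S
  rw [map_sum]
  have h1 : V.toFinset = insert i (V.toFinset.erase i) :=
    (Finset.insert_erase (Multiset.mem_toFinset.2 hi)).symm
  rw [h1, Finset.sum_powerset_insert (Finset.notMem_erase i _), ← Finset.sum_add_distrib]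
  refine Finset.sum_eq_zero fun K hK => ?_
  have h2 : i ∉ K := fun h3 =>
    Finset.notMem_erase i V.toFinset (Finset.mem_powerset.1 hK h3)
  rw [XS_pair h2, add_neg_cancel]

theorem XS_e_fst (K : Finset ℕ) (f : FA F) : (XS_e F K (f, 0)).1 = eK F K f := by
  have h1 : ((LinearMap.fst F (FA F) F).comp (XS_e F K)).comp (LinearMap.inl F (FA F) F) =
      eK F K := by
    refine ext_mo fun w => ?_
    rw [Shp_eK_mo]
    change (XS_e F K (XS_m F (some w))).1 = _
    rw [XS_e_m]
    change (XS_m F (del K w)).1 = _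
    rcases del K w with _ | a
    · rfl
    · rfl
  rw [← h1]
  rfl

theorem XS_e_snd {V : Multiset ℕ} (hV : V.Nodup) {K : Finset ℕ} (hK : K.val ≤ V)
    (hne : K.val ≠ V) {f : FA F} (hf : f ∈ P F V) : (XS_e F K (f, 0)).2 = 0 := by
  have h1 : ∀ f : FA F, (XS_e F K (f, 0)).2 =
      ((LinearMap.snd F (FA F) F).comp (XS_e F K)).comp (LinearMap.inl F (FA F) F) f := fun _ => rfl
  rw [h1]
  refine PP_induction id (p := fun f => ((LinearMap.snd F (FA F) F).comp (XS_e F K)).comp
    (LinearMap.inl F (FA F) F) f = 0) ?_ ?_ ?_ ?_ hf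
  · rw [map_zero]
  · intro f g hf hg
    rw [map_add, hf, hg, add_zero]
  · intro k f hf
    rw [map_smul, hf, smul_zero]
  · intro w hw
    change (XS_e F K (XS_m F (some w))).2 = 0
    rw [XS_e_m]
    change (XS_m F (del K w)).2 = 0
    have h1 := Shp_lets_del K w
    rw [hw, Shp_filter hV hK] at h1
    rcases hd : del K w with _ | a
    · exfalso
      rw [hd] at h1
      apply hne
      refine le_antisymm hK ?_
      exact tsub_eq_zero_iff_le.1 h1.symm
    · rfl

theorem XS_e_full {V : Multiset ℕ} (hV : V.Nodup) {K : Finset ℕ} (hK : K.val = V) {f : FA F}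
    (hf : f ∈ P F V) : XS_e F K (f, 0) = (0, cs f) := by
  have h1 : ∀ f : FA F, XS_e F K (f, 0) = (XS_e F K).comp (LinearMap.inl F (FA F) F) f :=
    fun _ => rfl
  have h2 : ∀ f : FA F, ((0, cs f) : FA F × F) = (LinearMap.inr F (FA F) F).comp cs f :=
    fun _ => rfl
  rw [h1, h2]
  refine PP_induction id (p := fun f => (XS_e F K).comp (LinearMap.inl F (FA F) F) f =
    (LinearMap.inr F (FA F) F).comp cs f) ?_ ?_ ?_ ?_ hf
  · rw [map_zero, map_zero]
  · intro f g hf hg
    rw [map_add, map_add, hf, hg]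
  · intro k f hf
    rw [map_smul, map_smul, hf]
  · intro w hw
    change XS_e F K (XS_m F (some w)) = ((0, cs (mo F w)) : FA F × F)
    have h0 : cs (mo F w) = 1 := linMo_mo _ w
    rw [XS_e_m, h0]
    change XS_m F (del K w) = XS_m F none
    have h1 := Shp_lets_del K w
    rw [hw, Shp_filter hV hK.le, hK, tsub_self] at h1
    rcases hd : del K w with _ | a
    · rfl
    · exfalso
      rw [hd] at h1
      exact lets_ne id a h1

theorem XS_S_eq {V : Multiset ℕ} (hV : V.Nodup) {f : FA F} (hf : f ∈ P F V)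
    (h : cs f = 0) : XS_S V f = (sharp V f, 0) := by
  unfold XS_S
  rw [← Finset.sum_erase_add _ _ (Finset.mem_powerset_self V.toFinset)]
  have hVf : V.toFinset.val = V := by
    rw [Multiset.toFinset_val, Multiset.dedup_eq_self.2 hV]
  have h1 : XS_e F V.toFinset (f, 0) = 0 := by
    rw [XS_e_full hV hVf hf, h]
    rfl
  rw [h1, XS_lam_zero, smul_zero, add_zero]
  unfold sharp
  have h2 : ∀ g : FA F, ((g, 0) : FA F × F) = LinearMap.inl F (FA F) F g := fun _ => rfl
  rw [h2 (∑ K ∈ V.toFinset.powerset.erase V.toFinset,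
    ((-1 : F) ^ K.card) • lamK F (K.sort (· ≤ ·)) (eK F K f)), map_sum]
  refine Finset.sum_congr rfl fun K hK => ?_
  have h3 : XS_e F K (f, 0) = (eK F K f, 0) := Prod.ext (XS_e_fst K f)
    (XS_e_snd hV (Shp_le hV (Finset.mem_of_mem_erase hK)) (Shp_ne hV (Finset.ne_of_mem_erase hK)) hf)
  rw [map_smul, ← h2, h3, XS_lam_inl]

/-- the substitution of `1` for some variables maps the proper part to 0 -/
theorem XS_eK_sharp {V : Multiset ℕ} (hV : V.Nodup) {f : FA F} (hf : f ∈ P F V)
    (h : cs f = 0) {J : Finset ℕ} (hJ : J ⊆ V.toFinset) (hne : J ≠ ∅) :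
    eK F J (sharp V f) = 0 := by
  obtain ⟨j, hj⟩ := Finset.nonempty_iff_ne_empty.2 hne
  have h1 : XS_e F {j} (sharp V f, 0) = 0 := by
    rw [← XS_S_eq hV hf h]
    exact XS_S_proper f (Multiset.mem_toFinset.1 (hJ hj))
  have h2 : J ∪ {j} = J := Finset.union_eq_left.2 (Finset.singleton_subset_iff.2 hj)
  rw [← XS_e_fst, ← h2, ← XS_e_e, h1, map_zero]
  rfl

theorem sharp_idem {V : Multiset ℕ} (hV : V.Nodup) {f : FA F} (hf : f ∈ P F V)
    (h : cs f = 0) : sharp V (sharp V f) = sharp V f := by
  by_cases hV0 : V.toFinset = ∅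
  · unfold sharp
    rw [hV0]
    rfl
  · have h1 : ∅ ∈ V.toFinset.powerset.erase V.toFinset :=
      Finset.mem_erase.2 ⟨fun h1 => hV0 h1.symm, Finset.empty_mem_powerset _⟩
    change ∑ K ∈ V.toFinset.powerset.erase V.toFinset,
      ((-1 : F) ^ K.card) • lamK F (K.sort (· ≤ ·)) (eK F K (sharp V f)) = sharp V f
    rw [Finset.sum_eq_single_of_mem ∅ h1]
    · rw [Finset.card_empty, pow_zero, one_smul, Finset.sort_empty]
      change eK F ∅ (sharp V f) = sharp V f
      exact eK_empty _
    · intro K hK hK0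
      have h2 : eK F K (sharp V f) = 0 := XS_eK_sharp hV hf h
        (Finset.mem_powerset.1 (Finset.mem_of_mem_erase hK)) hK0
      rw [h2]
      have h3 : lamK F (K.sort (· ≤ ·)) (0 : FA F) = 0 := by
        have h4 := lamK_smul (K.sort (· ≤ ·)) (0 : F) (0 : FA F)
        rwa [zero_smul, zero_smul] at h4
      rw [h3, smul_zero]

end Pool.Agent.OBX
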