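import Pool.Agent.OB.XP
import Pool.Agent.OB.XK
import Pool.Agent.OB.XS
import Pool.Agent.OB.XM
import Pool.Agent.OB.FinB
import Pool.Agent.OB.ExpA

/-!
# The explicit basis  (module XN)

`Bas_id`: the alternative laws (`alt12_oc` ..., or `(Oc.qa F).alt_left`), `Psi_id`, `law_evw`.
`key`: strong induction on `V.card`. `card ≤ 3`: `small3`. `card = n ≥ 4`: rename to `V = range n` (`FinB_enum`, `FinB_ren`,
`FinB_Id`, `ren_mem`, see the proof of `exists_finite` in FinB). For `V = range n`: `f = sharp V f - ∑_{K ≠ ∅, V} (-1)^|K| lamK (sort K) (eK K f)`, where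
`eK K f ∈ P F (V - K)` (`eK_mem`) is an identity (`ev_eK`, `id_iff_ev`) of smaller degree, so in the T-ideal; `lamK` multiplies by variables. So let
`g = sharp V f`; it is an identity (for the same reason), `evw g = 0` (`evw_eq`), `g ∈ span (LawV V)` (`law_span`), so
`Psi V g ∈ span {Psi V θ}` and `Psi V g = g` by `sharp_idem` (`cs_sg`).
`main5`: like `mlt_all`; see the proof in `Pool/Agent/Results/MP_41922c_al/FiniteBasis.lean` (directed union). `main11`: `mlt_9`.
-/

set_option autoImplicit false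
set_option linter.unusedSectionVars false

namespace Pool.Agent.OBX

open FreeNonUnitalNonAssocAlgebra Pool.Agent.H.MP_41922c_al Pool.Agent.Smt Pool.Agent.OB

variable {F : Type*} [Field F]

variable [Infinite F]

theorem Bas_id (h2 : (2 : F) ≠ 0) (h3 : (3 : F) ≠ 0) {d : ℕ} {g : FA F} (hg : g ∈ Bas F d) : Id F g := by
  rcases hg with hg | ⟨n, hn, -, f, ⟨hl, hf⟩, rfl⟩
  · rcases hg with rfl | hg
    · intro φ
      rw [Ids_ass]
      exact sub_eq_zero_of_eq ((Oc.qa F).alt_left _ _)
    · rw [Set.mem_singleton_iff] at hg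
      subst hg
      intro φ
      rw [Ids_ass]
      exact sub_eq_zero_of_eq ((Oc.qa F).alt_right _ _)
  · exact Psi_id h2 h3 (Multiset.nodup_range n) (by rw [Multiset.card_range]; exact hn) hf
      (law_evw h2 hl)

theorem XN_alt (d : ℕ) : Alt2 F ⊆ Bas F d := fun _ hg => Or.inl hg

theorem XN_mono {S T : Set (FA F)} (h : S ⊆ T) : tIdeal F S ≤ tIdeal F T :=
  tIdeal_le (isTIdeal_tIdeal T) (h.trans (subset_tIdeal T))

theorem XN_Bas {d d' : ℕ} (h : d ≤ d') : Bas F d ⊆ Bas F d' := by
  rintro g (hg | ⟨n, hn, hd, hf⟩)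
  · exact Or.inl hg
  · exact Or.inr ⟨n, hn, hd.trans h, hf⟩

theorem XN_lamK {I : Submodule F (FA F)} (hI : IsTIdeal F I) (L : List ℕ) {f : FA F}
    (hf : f ∈ I) : lamK F L f ∈ I := by
  induction L with
  | nil => exact hf
  | cons i L ih => exact hI.mul_left _ _ ih

theorem XN_sharp {V : Multiset ℕ} (hV : V ≠ 0) (f : FA F) :
    sharp V f = (∑ K ∈ (V.toFinset.powerset.erase V.toFinset).erase ∅,
      ((-1 : F) ^ K.card) • lamK F (K.sort (· ≤ ·)) (eK F K f)) + f := by
  unfold sharp
  have h : (∅ : Finset ℕ) ∈ V.toFinset.powerset.erase V.toFinset := by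
    rw [Finset.mem_erase, Finset.mem_powerset]
    refine ⟨fun h => hV ?_, Finset.empty_subset _⟩
    exact Multiset.toFinset_eq_empty.1 h.symm
  rw [← Finset.sum_erase_add _ _ h, eK_empty, Finset.card_empty, pow_zero, one_smul,
    Finset.sort_empty]
  rfl

theorem XN_eK {V : Multiset ℕ} (hV : V.Nodup) {K : Finset ℕ}
    (hK : K ∈ V.toFinset.powerset.erase V.toFinset) {f : FA F} (hf : f ∈ P F V) (h : Id F f) :
    Id F (eK F K f) := by
  rw [id_iff_ev] at h ⊢
  rw [ev_eK hV (Shp_le hV (Finset.mem_of_mem_erase hK)) (Shp_ne hV (Finset.ne_of_mem_erase hK)) hf,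
    h, map_zero]

/-- the proper part of an identity is an identity -/
theorem XN_sharp_id {V : Multiset ℕ} (hV : V.Nodup) {f : FA F} (hf : f ∈ P F V) (h : Id F f) :
    Id F (sharp V f) := by
  have h1 : sharp V f ∈ identities F (Oc F) := by
    unfold sharp
    refine Submodule.sum_mem _ fun K hK => Submodule.smul_mem _ _ ?_
    exact XN_lamK (isTIdeal_identities (Oc F)) _ (XN_eK hV hK hf h)
  exact h1

theorem XN_range (h2 : (2 : F) ≠ 0) {n d : ℕ} (hn : 4 ≤ n) (hd : n ≤ d) {g : FA F}
    (hg : g ∈ P F (Multiset.range n)) (h : Id F g) :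
    sharp (Multiset.range n) g ∈ tIdeal F (Bas F d) := by
  have hV : (Multiset.range n).Nodup := Multiset.nodup_range n
  have hc : cs g = 0 := cs_sg h2 hg ((id_iff_ev g).1 h)
  have hi := sharp_idem hV hg hc
  have hPsi : Psi (Multiset.range n) (sharp (Multiset.range n) g) =
      sharp (Multiset.range n) g := by
    unfold Psi
    rw [hi]
    abel
  have hev : evw F (sharp (Multiset.range n) g) = 0 := by
    rw [evw_eq, (id_iff_ev _).1 (XN_sharp_id hV hg h), map_zero]
  have hs := law_span h2 hV (sharp_mem hV hg) hev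
  have key : ∀ x ∈ Submodule.span F (LawV F (Multiset.range n)),
      Psi (Multiset.range n) x ∈ tIdeal F (Bas F d) := by
    intro x hx
    induction hx using Submodule.span_induction with
    | mem x hx => exact subset_tIdeal _ (Or.inr ⟨n, hn, hd, x, hx, rfl⟩)
    | zero =>
      have h0 : Psi (Multiset.range n) (0 : FA F) = 0 := by
        have := Psi_smul (Multiset.range n) (0 : F) (0 : FA F)
        rwa [zero_smul, zero_smul] at this
      rw [h0]
      exact Submodule.zero_mem _
    | add x y _ _ hx hy =>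
      rw [Psi_add]
      exact Submodule.add_mem _ hx hy
    | smul c x _ hx =>
      rw [Psi_smul]
      exact Submodule.smul_mem _ _ hx
  rw [← hPsi]
  exact key _ hs

theorem XN_key (h2 : (2 : F) ≠ 0) (d n : ℕ) : ∀ V : Multiset ℕ, V.card = n → V.Nodup →
    V.card ≤ d → ∀ f ∈ P F V, Id F f → f ∈ tIdeal F (Bas F d) := by
  induction n using Nat.strong_induction_on with
  | _ n ih =>
    intro V hc hV hd f hf h
    by_cases hs : V.card ≤ 3
    · exact XN_mono (XN_alt d) (small3 hV hs hf h)
    · obtain ⟨ρ, σ, e1, e2⟩ := FinB_enum hV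
      have hI := isTIdeal_tIdeal (F := F) (Bas F d)
      have hg : ren F ρ f ∈ P F (Multiset.range V.card) := by
        rw [← e1]
        exact ren_mem hf
      have hgid : Id F (ren F ρ f) := FinB_Id h (ren F ρ)
      have hW : (Multiset.range V.card).Nodup := Multiset.nodup_range _
      have hgI : ren F ρ f ∈ tIdeal F (Bas F d) := by
        have h5 := XN_range h2 (by omega) hd hg hgid
        have h6 : (Multiset.range V.card) ≠ 0 := by
          intro h6
          have h7 := congrArg Multiset.card h6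
          rw [Multiset.card_range, Multiset.card_zero] at h7
          omega
        have h8 := XN_sharp h6 (ren F ρ f)
        have h9 : (∑ K ∈ ((Multiset.range V.card).toFinset.powerset.erase
            (Multiset.range V.card).toFinset).erase ∅,
            ((-1 : F) ^ K.card) • lamK F (K.sort (· ≤ ·)) (eK F K (ren F ρ f))) ∈
            tIdeal F (Bas F d) := by
          refine Submodule.sum_mem _ fun K hK => Submodule.smul_mem _ _ (XN_lamK hI _ ?_)
          have k1 := Finset.mem_of_mem_erase hK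
          have k2 := Shp_le hW (Finset.mem_of_mem_erase k1)
          have k3 : 0 < K.val.card := Finset.card_pos.2
            (Finset.nonempty_iff_ne_empty.2 (Finset.ne_of_mem_erase hK))
          have k4 : (Multiset.range V.card - K.val).card + K.val.card = V.card := by
            rw [← Multiset.card_add, tsub_add_cancel_of_le k2, Multiset.card_range]
          exact ih (Multiset.range V.card - K.val).card (by omega) _ rfl
            (Multiset.nodup_of_le (Multiset.sub_le_self _ _) hW) (by omega) _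
            (eK_mem hW k2 hg) (XN_eK hW k1 hg hgid)
        have h10 : ren F ρ f = sharp (Multiset.range V.card) (ren F ρ f) -
            ∑ K ∈ ((Multiset.range V.card).toFinset.powerset.erase
            (Multiset.range V.card).toFinset).erase ∅,
            ((-1 : F) ^ K.card) • lamK F (K.sort (· ≤ ·)) (eK F K (ren F ρ f)) :=
          eq_sub_of_add_eq' h8.symm
        rw [h10]
        exact Submodule.sub_mem _ h5 h9
      have h11 : ren F σ (ren F ρ f) = f := by
        rw [ren_ren]
        exact FinB_ren (fun i hi => e2 i hi) hf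
      rw [← h11]
      exact hI.map (ren F σ) _ hgI

theorem key_B (h2 : (2 : F) ≠ 0) (h3 : (3 : F) ≠ 0) {V : Multiset ℕ} (hV : V.Nodup) {d : ℕ}
    (hd : V.card ≤ d) {f : FA F} (hf : f ∈ P F V) (h : Id F f) : f ∈ tIdeal F (Bas F d) :=
  XN_key h2 d V.card V rfl hV hd f hf h

theorem XN_le (h2 : (2 : F) ≠ 0) (h3 : (3 : F) ≠ 0) {d : ℕ} {f : FA F}
    (hf : f ∈ tIdeal F (Bas F d)) : Id F f := by
  have h1 : tIdeal F (Bas F d) ≤ identities F (Oc F) :=
    tIdeal_le (isTIdeal_identities (Oc F)) fun g hg => Bas_id h2 h3 hg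
  exact h1 hf

theorem main5 (h2 : (2 : F) ≠ 0) (h3 : (3 : F) ≠ 0) (f : FA F) :
    Id F f ↔ ∃ d, f ∈ tIdeal F (Bas F d) := by
  constructor
  · intro hid
    have hdir : Directed (· ≤ ·) (fun d : ℕ => tIdeal F (Bas F d)) :=
      Monotone.directed_le fun d d' h => XN_mono (XN_Bas h)
    have hmem : ∀ x : FA F, x ∈ (⨆ d : ℕ, tIdeal F (Bas F d)) ↔ ∃ d, x ∈ tIdeal F (Bas F d) :=
      fun x => Submodule.mem_iSup_of_directed _ hdir
    have hU : IsTIdeal F (⨆ d : ℕ, tIdeal F (Bas F d)) := by
      refine ⟨fun a x hx => ?_, fun a x hx => ?_, fun φ x hx => ?_⟩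
      · obtain ⟨d, hd⟩ := (hmem x).1 hx
        exact (hmem _).2 ⟨d, (isTIdeal_tIdeal _).mul_left _ _ hd⟩
      · obtain ⟨d, hd⟩ := (hmem x).1 hx
        exact (hmem _).2 ⟨d, (isTIdeal_tIdeal _).mul_right _ _ hd⟩
      · obtain ⟨d, hd⟩ := (hmem x).1 hx
        exact (hmem _).2 ⟨d, (isTIdeal_tIdeal _).map _ _ hd⟩
    have h1 : tIdeal F {g : FA F | ∃ m : Multiset ℕ, m.Nodup ∧ g ∈ P F m ∧ Id F g} ≤
        ⨆ d : ℕ, tIdeal F (Bas F d) := by
      refine tIdeal_le hU ?_
      rintro g ⟨m, hm, hg, hgid⟩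
      exact (hmem g).2 ⟨m.card, key_B h2 h3 hm le_rfl hg hgid⟩
    exact (hmem f).1 (h1 ((mlt_all h2 h3 f).1 hid))
  · rintro ⟨d, hd⟩
    exact XN_le h2 h3 hd

theorem main11 (h10 : ((Nat.factorial 10 : ℕ) : F) ≠ 0) (f : FA F) :
    Id F f ↔ f ∈ tIdeal F (Bas F 9) := by
  obtain ⟨h2, h3⟩ := FinB_two h10
  constructor
  · intro hid
    have h1 : tIdeal F {g : FA F | ∃ m : Multiset ℕ, m.Nodup ∧ m.card ≤ 9 ∧ g ∈ P F m ∧
        Id F g} ≤ tIdeal F (Bas F 9) := by
      refine tIdeal_le (isTIdeal_tIdeal _) ?_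
      rintro g ⟨m, hm, hc, hg, hgid⟩
      exact key_B h2 h3 hm hc hg hgid
    exact h1 ((mlt_9 h10 f).1 hid)
  · exact fun hf => XN_le h2 h3 hf

end Pool.Agent.OBX
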