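import Pool.Agent.OB.XI
import Pool.Agent.OB.Ids

/-!
# `Psi` maps traceless zeros to identities  (module XP)

`sharp_add`, `sharp_smul`: `lamK_add`, `lamK_smul`. `Psi_id`: `id_iff_ev`. By `Phi_ev` and `evw f = 0`, `ev (Phi f) = 0`. Let `g = sharp V f`,
`g ∈ P F V` (`sharp_mem`). `ev f (fun _ => 1) = 0` by `ev_one`, so `ev g = evw g` (`sharp_evw`), and `ev g (fun _ => 1) = 0` by
`sharp_proper` (`V ≠ 0`; `sb (up i 1) (ev g)` at the point `fun _ => 1` is `ev g (fun _ => 1)`), so `sg (evw g) = 0` by `ev_one`, and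
`ev (Phi g) = evw g = ev g`.
-/

set_option autoImplicit false
set_option linter.unusedSectionVars false

namespace Pool.Agent.OBX

open FreeNonUnitalNonAssocAlgebra Pool.Agent.H.MP_41922c_al Pool.Agent.Smt Pool.Agent.OB

variable {F : Type*} [Field F]

theorem sharp_add (V : Multiset ℕ) (f g : FA F) : sharp V (f + g) = sharp V f + sharp V g := by
  unfold sharp
  rw [← Finset.sum_add_distrib]
  refine Finset.sum_congr rfl fun K _ => ?_
  rw [map_add, lamK_add, smul_add]

theorem sharp_smul (V : Multiset ℕ) (c : F) (f : FA F) : sharp V (c • f) = c • sharp V f := by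
  unfold sharp
  rw [Finset.smul_sum]
  refine Finset.sum_congr rfl fun K _ => ?_
  rw [map_smul, lamK_smul, smul_comm]

theorem Psi_add (V : Multiset ℕ) (f g : FA F) : Psi V (f + g) = Psi V f + Psi V g := by
  unfold Psi
  rw [sharp_add, map_add, map_add]
  abel

theorem Psi_smul (V : Multiset ℕ) (c : F) (f : FA F) : Psi V (c • f) = c • Psi V f := by
  unfold Psi
  rw [sharp_smul, map_smul, map_smul, smul_sub, smul_add]

theorem XP_point (i j : ℕ) : up F i 1 j (fun _ => (1 : Oc F)) = 1 := by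
  unfold up
  by_cases h : j = i
  · subst h
    rw [Function.update_self]
    rfl
  · rw [Function.update_of_ne h]
    rfl

theorem XP_smul {s : F} (h : s • (1 : Oc F) = 0) : s = 0 := by
  have h1 : (s • (1 : Oc F)).m₁ = (0 : Oc F).m₁ := by rw [h]
  have h2 : (s • (1 : Oc F)).m₁ = s * 1 := rfl
  have h3 : (0 : Oc F).m₁ = 0 := rfl
  rw [h2, h3, mul_one] at h1
  exact h1

theorem Psi_id [Infinite F] (h2 : (2 : F) ≠ 0) (h3 : (3 : F) ≠ 0) {V : Multiset ℕ} (hV : V.Nodup)
    (hc : 4 ≤ V.card) {f : FA F} (hf : f ∈ P F V) (h : evw F f = 0) : Id F (Psi V f) := by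
  rw [id_iff_ev]
  have hg : sharp V f ∈ P F V := sharp_mem hV hf
  have h4 : ev F f (fun _ => 1) = 0 := by
    rw [ev_one h2 hf, h, map_zero, zero_smul]
  have h5 : ev F (sharp V f) = evw F (sharp V f) := sharp_evw h2 hV hf h4
  obtain ⟨i, hi⟩ : ∃ i, i ∈ V := by
    apply Multiset.exists_mem_of_ne_zero
    rintro rfl
    rw [Multiset.card_zero] at hc
    omega
  have h6 : ev F (sharp V f) (fun _ => 1) = 0 := by
    have h7 := congrFun (sharp_proper hV hf h4 hi) (fun _ => 1)
    rw [sb_apply] at h7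
    have h8 : (fun j => up F i 1 j (fun _ => (1 : Oc F))) = fun _ => 1 := by
      funext j
      exact XP_point i j
    rw [h8] at h7
    exact h7
  have h9 : sg F (evw F (sharp V f)) = 0 := by
    rw [ev_one h2 hg] at h6
    exact XP_smul h6
  unfold Psi
  rw [map_sub, map_add, Phi_ev h2 h3 hV hc hf, Phi_ev h2 h3 hV hc hg, h, h9, map_zero, h5]
  simp

end Pool.Agent.OBX
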