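import Pool.Agent.OB.Ids
import Pool.Agent.OB.Words
import Pool.Agent.OB.Real

/-!
# The alternating form of degree 4 is not an ordinary polynomial in characteristic 3  (module Y4)

Characteristic 3: if `f ∈ P F {0, 1, 2, 3}` has the value `c t((v_0, v_1, v_2) v_3)` for all `v`, then `c = 0`. Proof: a
linear functional (a combination of coordinates of the values at 8 points) vanishes mod 3 on all
120 words, and has the value `2 c` at `c t((v_0, v_1, v_2) v_3)`.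
-/

set_option autoImplicit false

namespace Pool.Agent.OB

open FreeNonUnitalNonAssocAlgebra Pool.Agent.H.MP_41922c_al Pool.Agent.Smt

/-- the basis over the integers -/
def Y4b : ℕ → Oc ℤ
  | 0 => ⟨1, 0, 0, 0, 0, 0, 0, 0⟩
  | 1 => ⟨0, 1, 0, 0, 0, 0, 0, 0⟩
  | 2 => ⟨0, 0, 1, 0, 0, 0, 0, 0⟩
  | 3 => ⟨0, 0, 0, 1, 0, 0, 0, 0⟩
  | 4 => ⟨0, 0, 0, 0, 1, 0, 0, 0⟩
  | 5 => ⟨0, 0, 0, 0, 0, 1, 0, 0⟩
  | 6 => ⟨0, 0, 0, 0, 0, 0, 1, 0⟩
  | _ => ⟨0, 0, 0, 0, 0, 0, 0, 1⟩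

/-- the point with the coordinates `a, b, c, d` -/
def Y4p (a b c d : ℕ) : ℕ → Oc ℤ
  | 0 => Y4b a
  | 1 => Y4b b
  | 2 => Y4b c
  | _ => Y4b d

/-- the functional, for a function on the points over `R` -/
def Y4f {R : Type*} [CommRing R] (X1 X2 X3 X4 X5 X6 X7 X8 : Oc R) : R :=
  X1.m₁ + 2 * X2.m₄ + X3.a₂ + X4.m₁ + 2 * X5.m₄ + X6.a₂ + 2 * X7.m₁ + 2 * X8.a₁

/-- the value of a word -/
def Y4e (v : ℕ → Oc ℤ) : FreeMagma ℕ → Oc ℤ
  | .of a => v a
  | .mul u w => Y4e v u * Y4e v w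

/-- the functional on words -/
def Y4w (w : FreeMagma ℕ) : ℤ :=
  Y4f (Y4e (Y4p 5 3 3 6) w) (Y4e (Y4p 0 3 1 2) w) (Y4e (Y4p 0 5 6 5) w) (Y4e (Y4p 0 3 2 1) w)
    (Y4e (Y4p 1 0 4 6) w) (Y4e (Y4p 1 5 2 0) w) (Y4e (Y4p 1 2 3 0) w) (Y4e (Y4p 0 5 3 2) w)

/-- the five shapes -/
def Y4s : Fin 5 → ℕ → ℕ → ℕ → ℕ → FreeMagma ℕ
  | 0, a, b, c, d => .mul (.mul (.mul (.of a) (.of b)) (.of c)) (.of d)
  | 1, a, b, c, d => .mul (.mul (.of a) (.mul (.of b) (.of c))) (.of d)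
  | 2, a, b, c, d => .mul (.mul (.of a) (.of b)) (.mul (.of c) (.of d))
  | 3, a, b, c, d => .mul (.of a) (.mul (.mul (.of b) (.of c)) (.of d))
  | _, a, b, c, d => .mul (.of a) (.mul (.of b) (.mul (.of c) (.of d)))

theorem Y4_check : ∀ s : Fin 5, ∀ a b c d : Fin 4, [a, b, c, d].Nodup →
    (Y4w (Y4s s a.1 b.1 c.1 d.1)) % (3 : ℤ) = 0 := by
  decide +kernel

variable {F : Type*} [Field F]

/-- integers to `F` -/
def Y4c (x : Oc ℤ) : Oc F := ⟨x.m₁, x.m₂, x.m₃, x.m₄, x.a₁, x.a₂, x.c₁, x.c₂⟩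

theorem Y4c_mul (x y : Oc ℤ) : (Y4c (x * y) : Oc F) = Y4c x * Y4c y := by
  ext <;> simp [Y4c]

theorem Y4_val (v : ℕ → Oc ℤ) (w : FreeMagma ℕ) :
    ev F (mo F w) (fun i => Y4c (v i)) = Y4c (Y4e v w) := by
  induction w with
  | ih1 i =>
    show ev F (of F i) (fun i => Y4c (v i)) = Y4c (v i)
    rw [ev_of]
    rfl
  | ih2 u w hu hw =>
    show ev F (mo F u * mo F w) (fun i => Y4c (v i)) = Y4c (Y4e v u * Y4e v w)
    rw [map_mul, Pi.mul_apply, hu, hw, Y4c_mul]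

/-- the functional on polynomials -/
noncomputable def Y4F (f : FA F) : F :=
  Y4f (ev F f fun i => Y4c (Y4p 5 3 3 6 i)) (ev F f fun i => Y4c (Y4p 0 3 1 2 i))
    (ev F f fun i => Y4c (Y4p 0 5 6 5 i)) (ev F f fun i => Y4c (Y4p 0 3 2 1 i))
    (ev F f fun i => Y4c (Y4p 1 0 4 6 i)) (ev F f fun i => Y4c (Y4p 1 5 2 0 i))
    (ev F f fun i => Y4c (Y4p 1 2 3 0 i)) (ev F f fun i => Y4c (Y4p 0 5 3 2 i))

theorem Y4F_mo (w : FreeMagma ℕ) : Y4F (mo F w) = ((Y4w w : ℤ) : F) := by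
  unfold Y4F Y4w
  rw [Y4_val, Y4_val, Y4_val, Y4_val, Y4_val, Y4_val, Y4_val, Y4_val]
  simp only [Y4f, Y4c]
  push_cast
  ring

theorem Y4_pos (w : FreeMagma ℕ) : 1 ≤ (lets id w).card := by
  induction w with
  | ih1 i => exact le_rfl
  | ih2 u w hu hw =>
    show 1 ≤ (lets id u + lets id w).card
    rw [Multiset.card_add]
    omega

theorem Y4_one {w : FreeMagma ℕ} (h : (lets id w).card = 1) : ∃ a, w = .of a := by
  cases w with
  | of a => exact ⟨a, rfl⟩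
  | mul u v =>
    have h1 : (lets id u + lets id v).card = 1 := h
    rw [Multiset.card_add] at h1
    have := Y4_pos u
    have := Y4_pos v
    omega

theorem Y4_two {w : FreeMagma ℕ} (h : (lets id w).card = 2) : ∃ a b, w = .mul (.of a) (.of b) := by
  cases w with
  | of a => exact absurd (show (1 : ℕ) = 2 from h) (by norm_num)
  | mul u v =>
    have h1 : (lets id u + lets id v).card = 2 := h
    rw [Multiset.card_add] at h1
    have := Y4_pos u
    have := Y4_pos v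
    obtain ⟨a, rfl⟩ := Y4_one (w := u) (by omega)
    obtain ⟨b, rfl⟩ := Y4_one (w := v) (by omega)
    exact ⟨a, b, rfl⟩

theorem Y4_three {w : FreeMagma ℕ} (h : (lets id w).card = 3) :
    ∃ a b c, w = .mul (.mul (.of a) (.of b)) (.of c) ∨ w = .mul (.of a) (.mul (.of b) (.of c)) := by
  cases w with
  | of a => exact absurd (show (1 : ℕ) = 3 from h) (by norm_num)
  | mul u v =>
    have h1 : (lets id u + lets id v).card = 3 := h
    rw [Multiset.card_add] at h1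
    have := Y4_pos u
    have := Y4_pos v
    rcases (by omega : (lets id u).card = 1 ∨ (lets id u).card = 2) with h2 | h2
    · obtain ⟨a, rfl⟩ := Y4_one h2
      obtain ⟨b, c, rfl⟩ := Y4_two (w := v) (by omega)
      exact ⟨a, b, c, Or.inr rfl⟩
    · obtain ⟨a, b, rfl⟩ := Y4_two h2
      obtain ⟨c, rfl⟩ := Y4_one (w := v) (by omega)
      exact ⟨a, b, c, Or.inl rfl⟩

theorem Y4_four {w : FreeMagma ℕ} (h : (lets id w).card = 4) :
    ∃ (s : Fin 5) (a b c d : ℕ), w = Y4s s a b c d := by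
  cases w with
  | of a => exact absurd (show (1 : ℕ) = 4 from h) (by norm_num)
  | mul u v =>
    have h1 : (lets id u + lets id v).card = 4 := h
    rw [Multiset.card_add] at h1
    have := Y4_pos u
    have := Y4_pos v
    rcases (by omega : (lets id u).card = 1 ∨ (lets id u).card = 2 ∨ (lets id u).card = 3) with
      h2 | h2 | h2
    · obtain ⟨a, rfl⟩ := Y4_one h2
      obtain ⟨b, c, d, rfl | rfl⟩ := Y4_three (w := v) (by omega)
      · exact ⟨3, a, b, c, d, rfl⟩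
      · exact ⟨4, a, b, c, d, rfl⟩
    · obtain ⟨a, b, rfl⟩ := Y4_two h2
      obtain ⟨c, d, rfl⟩ := Y4_two (w := v) (by omega)
      exact ⟨2, a, b, c, d, rfl⟩
    · obtain ⟨a, b, c, rfl | rfl⟩ := Y4_three h2
      · obtain ⟨d, rfl⟩ := Y4_one (w := v) (by omega)
        exact ⟨0, a, b, c, d, rfl⟩
      · obtain ⟨d, rfl⟩ := Y4_one (w := v) (by omega)
        exact ⟨1, a, b, c, d, rfl⟩

theorem Y4_lets (s : Fin 5) (a b c d : ℕ) :
    lets id (Y4s s a b c d) = (([a, b, c, d] : List ℕ) : Multiset ℕ) := by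
  have h : (([a, b, c, d] : List ℕ) : Multiset ℕ) = {a} + {b} + {c} + {d} := rfl
  rw [h]
  fin_cases s
  · rfl
  · show {a} + ({b} + {c}) + {d} = _
    abel
  · show {a} + {b} + ({c} + {d}) = _
    abel
  · show {a} + ({b} + {c} + {d}) = _
    abel
  · show {a} + ({b} + ({c} + {d})) = _
    abel

theorem Y4w_zero {w : FreeMagma ℕ} (h : lets id w = Multiset.range 4) : Y4w w % 3 = 0 := by
  obtain ⟨s, a, b, c, d, rfl⟩ := Y4_four (w := w) (by rw [h]; rfl)
  rw [Y4_lets] at h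
  have hnd : ([a, b, c, d] : List ℕ).Nodup := by
    rw [← Multiset.coe_nodup, h]
    exact Multiset.nodup_range 4
  have hlt : ∀ x ∈ ([a, b, c, d] : List ℕ), x < 4 := by
    intro x hx
    have h1 : x ∈ (([a, b, c, d] : List ℕ) : Multiset ℕ) := hx
    rw [h] at h1
    exact Multiset.mem_range.1 h1
  have ha := hlt a (by simp)
  have hb := hlt b (by simp)
  have hc := hlt c (by simp)
  have hd := hlt d (by simp)
  refine Y4_check s ⟨a, ha⟩ ⟨b, hb⟩ ⟨c, hc⟩ ⟨d, hd⟩ ?_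
  have h2 : ([⟨a, ha⟩, ⟨b, hb⟩, ⟨c, hc⟩, ⟨d, hd⟩] : List (Fin 4)).map Fin.val = [a, b, c, d] := rfl
  exact List.Nodup.of_map Fin.val (h2 ▸ hnd)

theorem Y4F_zero (h3 : (3 : F) = 0) {f : FA F} (hf : f ∈ P F (Multiset.range 4)) : Y4F f = 0 := by
  refine PP_induction id (p := fun f => Y4F f = 0) ?_ ?_ ?_ ?_ hf
  · simp only [Y4F, map_zero, Pi.zero_apply, Y4f, Oc.zero_def]
    ring
  · intro f g hf hg
    have h1 : Y4F (f + g) = Y4F f + Y4F g := by
      simp only [Y4F, map_add, Pi.add_apply, Y4f, Oc.add_def]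
      ring
    rw [h1, hf, hg, add_zero]
  · intro k f hf
    have h1 : Y4F (k • f) = k * Y4F f := by
      simp only [Y4F, map_smul, Pi.smul_apply, Y4f, Oc.smul_def, smul_eq_mul]
      ring
    rw [h1, hf, mul_zero]
  · intro w hw
    rw [Y4F_mo]
    have h1 : ((Y4w w : ℤ) : F) = ((3 * (Y4w w / 3) : ℤ) : F) := by
      congr 1
      have := Y4w_zero hw
      omega
    rw [h1]
    push_cast
    rw [h3, zero_mul]

/-- characteristic 3: the alternating form `t((v_0, v_1, v_2) v_3)` is not an ordinary polynomial -/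
theorem Y4 (h3 : (3 : F) = 0) {f : FA F} (hf : f ∈ P F (Multiset.range 4)) {c : F}
    (h : ∀ v : ℕ → Oc F, ev F f v = (c * tt (associator (v 0) (v 1) (v 2) * v 3)) • (1 : Oc F)) :
    c = 0 := by
  have h1 := Y4F_zero h3 hf
  simp only [Y4F, h] at h1
  simp only [Y4f, Y4c, Y4p, Y4b, associator, tt, Oc.qa, Oc.mul_def, Oc.smul_def, Oc.one_def,
    Oc.sub_def, smul_eq_mul, LinearMap.coe_mk, AddHom.coe_mk] at h1
  norm_num at h1
  rcases h1 with h2 | h2
  · exfalso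
    have h4 : (3 : F) - 2 = 0 := by rw [h3, h2, sub_zero]
    norm_num at h4
  · exact h2

end Pool.Agent.OB
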