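import Pool.Agent.OB.YD
import Pool.Agent.OB.Y4
import Pool.Agent.OB.Shp2
import Pool.Agent.OB.Hom

/-!
# In characteristic 3, `φ` is not the value of a polynomial  (module Y4r)

The case of a multilinear polynomial in the variables 0, 1, 2, 3 is in Y4 (last theorem).
`ev_comp`: if `ev F g = a` is homogeneous of multidegree `V` (`AF F V`) then `ev F (comp F id V g) = a`: scaling of the variables
(`v i ↦ c i • v i`), `exists_comp`, `poly_zero` (Shp2); see `Id_comp` in Hom for the same argument.
`ph_mem`: `φ` is in `AF F V`: it is 0 or `tt (..) • 1 = u + star u` for a product of 4 variables.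
`Y4_real`: `comp` and a renaming of `V` to `{0, 1, 2, 3}` (order preserving: `V.sort`), for `V.card ≠ 4` the function `ph` is 0.
-/

set_option autoImplicit false
set_option linter.unusedSectionVars false

namespace Pool.Agent.OBY

open FreeNonUnitalNonAssocAlgebra Pool.Agent.H.MP_41922c_al Pool.Agent.Smt Pool.Agent.OB Pool.Agent.OBX

variable {F : Type*} [Field F]

theorem Y4_ev (f : FA F) (v : ℕ → Oc F) : ev F f v = lift F v f := by
  have h : (Ids_at F v).comp (ev F) = lift F v := by
    refine hom_ext F fun i => ?_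
    rw [lift_of_apply]
    show ev F (of F i) v = v i
    rw [ev_of]
    rfl
  exact DFunLike.congr_fun h f

theorem Y4_base (h3 : (3 : F) = 0) {f : FA F} (hf : f ∈ P F (Multiset.range 4)) {c : F}
    (h : ∀ v : ℕ → Oc F, lift F v f = (c * pf (v 0) (v 1) (v 2) (v 3)) • (1 : Oc F)) : c = 0 :=
  Y4 h3 hf fun v => (Y4_ev f v).trans (h v)

/-- scaling of the variables, polynomials -/
theorem Y4_ev_scale (c : ℕ → F) {m : Multiset ℕ} {g : FA F} (hg : g ∈ P F m) (v : ℕ → Oc F) :
    ev F g (fun i => c i • v i) = (m.map c).prod • ev F g v := by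
  have h := Hom_scale c ((Ids_at F v).comp (ev F)) hg
  have h1 : (fun i => c i • ((Ids_at F v).comp (ev F)) (of F i)) = fun i => c i • v i := by
    funext i
    show c i • ev F (of F i) v = c i • v i
    rw [ev_of]
    rfl
  rw [h1, ← Y4_ev] at h
  exact h

/-- scaling of the variables, trace polynomials -/
theorem Y4_AF_scale (c : ℕ → F) {m : Multiset ℕ} {a : Fn F} (ha : a ∈ AF F m) (v : ℕ → Oc F) :
    a (fun i => c i • v i) = (m.map c).prod • a v := by
  refine Real_AF_ind (p := fun a => a (fun i => c i • v i) = (m.map c).prod • a v) ?_ ?_ ?_ ?_ ha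
  · rw [Pi.zero_apply, Pi.zero_apply, smul_zero]
  · intro f g hf hg
    rw [Pi.add_apply, Pi.add_apply, hf, hg, smul_add]
  · intro k f hf
    rw [Pi.smul_apply, Pi.smul_apply, hf, smul_comm]
  · rintro w rfl
    clear ha a
    induction w with
    | ih1 a =>
      rcases a with i | i
      · rw [Real_evt_inl]
        show c i • v i = (({i} : Multiset ℕ).map c).prod • v i
        rw [Multiset.map_singleton, Multiset.prod_singleton]
      · rw [Real_evt_inr]
        show c i • v i + star (c i • v i) =
          (({i} : Multiset ℕ).map c).prod • (v i + star (v i))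
        rw [Multiset.map_singleton, Multiset.prod_singleton, star_smul_oc, smul_add]
    | ih2 u w hu hw =>
      rw [Real_evt_mul, Pi.mul_apply, Pi.mul_apply, hu, hw]
      show _ = ((lets ix u + lets ix w).map c).prod • _
      rw [Multiset.map_add, Multiset.prod_add, smul_mul_smul_comm]

theorem ev_comp [Infinite F] {V : Multiset ℕ} {g : FA F} {a : Fn F} (ha : a ∈ AF F V)
    (h : ev F g = a) : ev F (comp F id V g) = a := by
  classical
  funext v
  obtain ⟨S, h1, h2⟩ := exists_comp (F := F) id g
  have key := poly_zero (insert V S)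
    (fun κ => ev F (comp F id κ g) v - if κ = V then a v else 0) (fun c => ?_) V
    (Finset.mem_insert_self V S)
  · rw [if_pos rfl] at key
    exact sub_eq_zero.1 key
  · simp only [smul_sub]
    rw [Finset.sum_sub_distrib]
    have e1 : ∑ κ ∈ insert V S, (κ.map c).prod • (if κ = V then a v else 0) =
        (V.map c).prod • a v := by
      rw [Finset.sum_eq_single_of_mem V (Finset.mem_insert_self V S), if_pos rfl]
      intro κ _ hne
      rw [if_neg hne, smul_zero]
    have e2 : ∑ κ ∈ insert V S, (κ.map c).prod • ev F (comp F id κ g) v =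
        ∑ κ ∈ S, (κ.map c).prod • ev F (comp F id κ g) v := by
      refine (Finset.sum_subset (Finset.subset_insert V S) fun κ _ hκ => ?_).symm
      rw [h2 κ hκ, map_zero, Pi.zero_apply, smul_zero]
    have e3 : ev F g (fun i => c i • v i) =
        ∑ κ ∈ S, (κ.map c).prod • ev F (comp F id κ g) v := by
      conv_lhs => rw [h1]
      rw [map_sum, Finset.sum_apply]
      exact Finset.sum_congr rfl fun κ _ => Y4_ev_scale c (comp_mem id κ g) v
    rw [e1, e2, ← e3, h, Y4_AF_scale c ha v, sub_self]

theorem ph_mem (V : Multiset ℕ) : ph F V ∈ AF F V := by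
  rcases hL : V.sort (· ≤ ·) with _ | ⟨a, _ | ⟨b, _ | ⟨c, _ | ⟨d, _ | ⟨e, M⟩⟩⟩⟩⟩
  case cons.cons.cons.cons.nil =>
    have hV : V = {a} + {b} + {c} + {d} := by
      rw [← Multiset.sort_eq V (· ≤ ·), hL]
      rfl
    have h1 : ph F V = associator (XX F a) (XX F b) (XX F c) * XX F d +
        star (associator (XX F a) (XX F b) (XX F c) * XX F d) := by
      funext v
      have h2 : ph F V v = pL v (V.sort (· ≤ ·)) • (1 : Oc F) := rfl
      rw [h2, hL, Pi.add_apply, Pi.star_apply, add_star]
      rfl
    have h2 : associator (XX F a) (XX F b) (XX F c) * XX F d ∈ AF F V := by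
      rw [hV]
      refine AF_mul ?_ (Real_XX_mem_AF d)
      rw [associator_apply]
      refine Submodule.sub_mem _ (AF_mul (AF_mul (Real_XX_mem_AF a) (Real_XX_mem_AF b))
        (Real_XX_mem_AF c)) ?_
      rw [add_assoc]
      exact AF_mul (Real_XX_mem_AF a) (AF_mul (Real_XX_mem_AF b) (Real_XX_mem_AF c))
    rw [h1]
    exact Submodule.add_mem _ h2 (AF_star h2)
  all_goals
    have h1 : ph F V = 0 := by
      funext v
      have h2 : ph F V v = pL v (V.sort (· ≤ ·)) • (1 : Oc F) := rfl
      rw [h2, hL, Pi.zero_apply, pL, zero_smul]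
      all_goals simp
    rw [h1]
    exact Submodule.zero_mem _

theorem Y4_real [Infinite F] (h3 : (3 : F) = 0) {V : Multiset ℕ} (hV : V.Nodup) {f : FA F} {c : F}
    (h : ev F f = c • ph F V) : c • ph F V = 0 := by
  rcases hL : V.sort (· ≤ ·) with _ | ⟨i0, _ | ⟨i1, _ | ⟨i2, _ | ⟨i3, _ | ⟨e, M⟩⟩⟩⟩⟩
  case cons.cons.cons.cons.nil =>
    have hnd : ([i0, i1, i2, i3] : List ℕ).Nodup := by
      rw [← hL, ← Multiset.coe_nodup, Multiset.sort_eq]
      exact hV
    have hVL : V = (([i0, i1, i2, i3] : List ℕ) : Multiset ℕ) := by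
      rw [← hL, Multiset.sort_eq]
    have h0 : ([i0, i1, i2, i3] : List ℕ).idxOf i0 = 0 := hnd.idxOf_getElem 0 (by simp)
    have h1 : ([i0, i1, i2, i3] : List ℕ).idxOf i1 = 1 := hnd.idxOf_getElem 1 (by simp)
    have h2 : ([i0, i1, i2, i3] : List ℕ).idxOf i2 = 2 := hnd.idxOf_getElem 2 (by simp)
    have h3' : ([i0, i1, i2, i3] : List ℕ).idxOf i3 = 3 := hnd.idxOf_getElem 3 (by simp)
    have hmap : V.map (fun n => ([i0, i1, i2, i3] : List ℕ).idxOf n) = Multiset.range 4 := by
      rw [hVL, Multiset.map_coe]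
      simp only [List.map_cons, List.map_nil, h0, h1, h2, h3']
      rfl
    have hg := ren_mem (ρ := fun n => ([i0, i1, i2, i3] : List ℕ).idxOf n) (comp_mem id V f)
    rw [hmap] at hg
    have hc : c = 0 := by
      refine Y4_base h3 hg fun v => ?_
      rw [← Y4_ev, ev_ren, sb_apply, ev_comp (Submodule.smul_mem _ c (ph_mem V)) h]
      show c • (pL _ (V.sort (· ≤ ·)) • (1 : Oc F)) = _
      rw [hL, smul_smul]
      show (c * pf (v _) (v _) (v _) (v _)) • (1 : Oc F) = _
      rw [h0, h1, h2, h3']
    rw [hc, zero_smul]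
  all_goals
    have h1 : ph F V = 0 := by
      funext v
      have h2 : ph F V v = pL v (V.sort (· ≤ ·)) • (1 : Oc F) := rfl
      rw [h2, hL, Pi.zero_apply, pL, zero_smul]
      all_goals simp
    rw [h1, smul_zero]

end Pool.Agent.OBY
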