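import Pool.Agent.OB.YD
import Pool.Agent.OB.XB2

/-!
# Values of `cK`, `bK`, `sK`, `tauK`, `hK`, `phiK` in the octonions  (module YA)

`TK_hom`, ..: induction on `K` (with `x`, `a` general), see `GG_hom` in XA. `TK_oc`: `TX F f z K x a = (tt x * (K.map tt).prod) • f a z` by
induction on `K` (with `x`, `a` general), only `ha` and `hx` (for `K = []`).
`cK_oc`: `jor x a = tt x • a + tt a • x + scalar` and `jor x z = tt x • z + scalar` for `tt z = 0`, and `com`, `associator` vanish on
scalars. `sK_oc`: `tt b • com a z = jor b (com a z) + jor (com a b) z` for `tt z = 0` (see `GG_oc` in XA: there `z = com b c`).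
`com3_oc`: coordinates (`four_q` in XB2 is of the same kind), or from it.
`pf` is alternating: `associator` is alternating, and `tt (associator a b c * d) = - tt (associator a b d * c)`: coordinates.
`tauK_oc`: `K = []` by coordinates (every term is 4-linear in `a, b, c, d`; for `K` general all terms are multiplied by `t_K`).
`hK_oc`: `com3_oc` for `(e, d, u)` and `(d, e, u)` (with `y0 e`, `y0 d`: `com_y0`, `y0_com`), `associator e d u = associator u e d` etc.
`phiK_oc`: `hK_oc` three times and the alternation of `pf`: with `G(a,b,c,d,e) = pf a b c d • y0 e` the three terms are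
`G(a,b,c,d,e) - G(a,b,c,e,d)`, `G(a,b,d,e,c) - G(a,b,d,c,e)`, `-(G(a,b,e,c,d) - G(a,b,e,d,c))`, the sum is `2 G(a,b,c,d,e)`.
-/

set_option autoImplicit false
set_option linter.unusedSectionVars false

namespace Pool.Agent.OBY

open FreeNonUnitalNonAssocAlgebra Pool.Agent.H.MP_41922c_al Pool.Agent.Smt Pool.Agent.OB Pool.Agent.OBX

variable {F : Type*} [Field F]

section hom

variable {A B : Type*} [NonUnitalNonAssocRing A] [Module F A] [NonUnitalNonAssocRing B] [Module F B]

theorem YA_TX_hom (φ : A →ₙₐ[F] B) {f : A → A → A} {f' : B → B → B}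
    (h : ∀ a z, φ (f a z) = f' (φ a) (φ z)) (z : A) (K : List A) (x a : A) :
    φ (TX F f z K x a) = TX F f' (φ z) (K.map φ) (φ x) (φ a) := by
  induction K generalizing x a with
  | nil => simp only [TX, List.map_nil, h, XA_jor]
  | cons y K ih => simp only [TX, List.map_cons, map_smul, map_sub, map_add, ih, XA_jor]

theorem TK_hom (φ : A →ₙₐ[F] B) {f : A → A → A} {f' : B → B → B}
    (h : ∀ a z, φ (f a z) = f' (φ a) (φ z)) (z : A) (K : List A) (a : A) :
    φ (TK F f z K a) = TK F f' (φ z) (K.map φ) (φ a) := by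
  cases K with
  | nil => exact h a z
  | cons x K => exact YA_TX_hom φ h z K x a

theorem cK_hom (φ : A →ₙₐ[F] B) (K : List A) (a z : A) :
    φ (cK F K a z) = cK F (K.map φ) (φ a) (φ z) := by
  exact TK_hom φ (XA_com φ) z K a

theorem YA_asc (φ : A →ₙₐ[F] B) (a b c : A) :
    φ (associator a b c) = associator (φ a) (φ b) (φ c) := by
  simp only [associator_apply, map_sub, map_mul]

theorem YA_bK_hom (φ : A →ₙₐ[F] B) (K : List A) (z a b : A) :
    φ (bK F K z a b) = bK F (K.map φ) (φ z) (φ a) (φ b) := by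
  exact TK_hom φ (f := fun u w => associator w u b) (f' := fun u w => associator w u (φ b))
    (fun u w => YA_asc φ w u b) z K a

theorem sK_hom (φ : A →ₙₐ[F] B) (K : List A) (a b z : A) :
    φ (sK F K a b z) = sK F (K.map φ) (φ a) (φ b) (φ z) := by
  simp only [sK, map_sub, cK_hom, XA_jor, List.map_cons]

theorem tauK_hom (φ : A →ₙₐ[F] B) (K : List A) (d a b c : A) :
    φ (tauK F K d a b c) = tauK F (K.map φ) (φ d) (φ a) (φ b) (φ c) := by
  simp only [tauK, map_sub, map_add, map_smul, cK_hom, YA_bK_hom, XA_com, YA_asc]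

theorem YA_hK_hom (φ : A →ₙₐ[F] B) (K : List A) (d e u : A) :
    φ (hK F K d e u) = hK F (K.map φ) (φ d) (φ e) (φ u) := by
  simp only [hK, map_sub, map_smul, map_nsmul, cK_hom, YA_bK_hom, XA_com]

theorem phiK_hom (φ : A →ₙₐ[F] B) (K : List A) (e a b c d : A) :
    φ (phiK F K e a b c d) = phiK F (K.map φ) (φ e) (φ a) (φ b) (φ c) (φ d) := by
  simp only [phiK, map_sub, map_add, map_smul, YA_hK_hom, YA_asc]

end hom

theorem TK_oc (h2 : (2 : F) ≠ 0) {f : Oc F → Oc F → Oc F} {z : Oc F}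
    (hx : ∀ x a, f a (jor x z) = tt x • f a z)
    (ha : ∀ x a, f (jor x a) z = tt x • f a z + tt a • f x z) (K : List (Oc F)) (a : Oc F) :
    TK F f z K a = (K.map tt).prod • f a z := by
  have key : ∀ (K : List (Oc F)) (x a : Oc F),
      TX F f z K x a = (tt x * (K.map tt).prod) • f a z := by
    intro K
    induction K with
    | nil =>
      intro x a
      simp only [TX, List.map_nil, List.prod_nil, mul_one, hx]
    | cons y K ih =>
      intro x a
      simp only [TX, List.map_cons, List.prod_cons]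
      rw [ih, ih, ih, ha, ha, ha]
      generalize (K.map tt).prod = p
      generalize f a z = A
      generalize f x z = X
      generalize f y z = Y
      have e : (tt x * p) • (tt y • A + tt a • Y) + (tt y * p) • (tt x • A + tt a • X)
          - (tt a * p) • (tt x • Y + tt y • X) = (2 : F) • ((tt x * (tt y * p)) • A) := by
        module
      rw [e, smul_smul, inv_mul_cancel₀ h2, one_smul]
  cases K with
  | nil => simp only [TK, List.map_nil, List.prod_nil, one_smul]
  | cons x K => simp only [TK, List.map_cons, List.prod_cons, key]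

theorem cK_oc (h2 : (2 : F) ≠ 0) (K : List (Oc F)) (a : Oc F) {z : Oc F} (hz : tt z = 0) :
    cK F K a z = (K.map tt).prod • com a z := by
  refine TK_oc h2 (fun x a => com_jor_oc a x z hz) (fun x a => ?_) K a
  rw [jor_oc]
  simp only [com, sub_mul, add_mul, mul_sub, mul_add, smul_mul_assoc, mul_smul_comm, one_mul,
    mul_one]
  module

theorem bK_oc (h2 : (2 : F) ≠ 0) (K : List (Oc F)) (a b : Oc F) {z : Oc F} (hz : tt z = 0) :
    bK F K z a b = (K.map tt).prod • associator z a b := by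
  refine TK_oc h2 (f := fun u w => associator w u b) (fun x a => ?_) (fun x a => ?_) K a
  · show associator (jor x z) a b = tt x • associator z a b
    rw [jor_oc, hz]
    simp only [associator_apply, sub_mul, add_mul, smul_mul_assoc, one_mul, zero_smul, zero_mul]
    module
  · show associator z (jor x a) b = tt x • associator z a b + tt a • associator z x b
    rw [jor_oc]
    simp only [associator_apply, sub_mul, add_mul, mul_sub, mul_add, smul_mul_assoc,
      mul_smul_comm, one_mul, mul_one]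
    module

theorem sK_oc (h2 : (2 : F) ≠ 0) (K : List (Oc F)) (a b : Oc F) {z : Oc F} (hz : tt z = 0) :
    sK F K a b z = (K.map tt).prod • jor (com a b) z := by
  have h := XA_comJor a b z
  rw [com_jor_oc a b z hz] at h
  rw [sK, cK_oc h2 _ _ hz, cK_oc h2 _ _ hz, List.map_cons, List.prod_cons]
  generalize (K.map tt).prod = p
  have e1 : jor b (p • com a z) = p • jor b (com a z) := by
    unfold jor
    rw [mul_smul_comm, smul_mul_assoc, smul_add]
  rw [e1, mul_comm, mul_smul, h]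
  module

theorem tt_asc (a b c : Oc F) : tt (associator a b c) = 0 := by
  exact tt_associator a b c

theorem com3_oc {u v w : Oc F} (hu : tt u = 0) (hv : tt v = 0) (hw : tt w = 0) :
    com u (com v w) = (2 * tt (u * v)) • w - (2 * tt (u * w)) • v - 2 • associator u v w := by
  have eu : u.m₄ = -u.m₁ := by
    rw [Oct_tt] at hu
    exact (neg_eq_of_add_eq_zero_right hu).symm
  have ev : v.m₄ = -v.m₁ := by
    rw [Oct_tt] at hv
    exact (neg_eq_of_add_eq_zero_right hv).symm
  have ew : w.m₄ = -w.m₁ := by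
    rw [Oct_tt] at hw
    exact (neg_eq_of_add_eq_zero_right hw).symm
  have e2 : (2 : ℕ) • associator u v w = (2 : F) • associator u v w := by
    module
  rw [e2]
  obtain ⟨u1, u2, u3, u4, u5, u6, u7, u8⟩ := u
  obtain ⟨v1, v2, v3, v4, v5, v6, v7, v8⟩ := v
  obtain ⟨w1, w2, w3, w4, w5, w6, w7, w8⟩ := w
  simp only at eu ev ew
  subst eu ev ew
  simp only [Oct_tt, Oct_com_def, associator, Oc.sub_def, Oc.mul_def, Oc.smul_def, smul_eq_mul]
  ext <;> ring

theorem pf_12 (a b c d : Oc F) : pf b a c d = -pf a b c d := by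
  rw [pf, pf, alt12_oc a b c, neg_mul, Oct_tt_neg, neg_neg]

theorem pf_23 (a b c d : Oc F) : pf a c b d = -pf a b c d := by
  rw [pf, pf, alt23_oc a b c, neg_mul, Oct_tt_neg, neg_neg]

theorem pf_34 (a b c d : Oc F) : pf a b d c = -pf a b c d := by
  have h : tt ((a * b) * d * c) + tt ((a * b) * c * d) - tt (a * (b * d) * c) - tt (a * (b * c) * d)
      = 0 := by
    simp only [Oct_tt, Oc.mul_def]
    ring
  rw [pf, pf, associator_apply, associator_apply, sub_mul, sub_mul, Oct_tt_sub, Oct_tt_sub]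
  linear_combination h

theorem YA_tau0 (x₁ x₂ x₃ x₅ x₆ x₇ x₈ y₁ y₂ y₃ y₅ y₆ y₇ y₈ z₁ z₂ z₃ z₅ z₆ z₇ z₈
    t₁ t₂ t₃ t₅ t₆ t₇ t₈ : F) :
    let a : Oc F := ⟨x₁, x₂, x₃, 0, x₅, x₆, x₇, x₈⟩
    let b : Oc F := ⟨y₁, y₂, y₃, 0, y₅, y₆, y₇, y₈⟩
    let c : Oc F := ⟨z₁, z₂, z₃, 0, z₅, z₆, z₇, z₈⟩
    let d : Oc F := ⟨t₁, t₂, t₃, 0, t₅, t₆, t₇, t₈⟩
    (2 : F) • (associator (com d a) b c + associator (com b c) d a)
      - (4 : F) • com d (associator a b c)
      + (com (com a b) (com c d) + com (com b c) (com a d) + com (com c a) (com b d)) =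
      tt (com a b * c) • ((4 : F) • d - (2 * tt d) • (1 : Oc F)) := by
  intro a b c d
  simp only [a, b, c, d, associator, Oct_tt, Oct_com_def, Oc.add_def, Oc.sub_def,
    Oc.mul_def, Oc.smul_def, Oc.one_def, sub_zero, sub_neg_eq_add, mul_zero, zero_mul,
    add_zero, smul_eq_mul]
  ext <;> ring

theorem YA_tau1 (d a b c : Oc F) :
    (2 : F) • (associator (com d a) b c + associator (com b c) d a)
      - (4 : F) • com d (associator a b c)
      + (com (com a b) (com c d) + com (com b c) (com a d) + com (com c a) (com b d)) =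
      tt (com a b * c) • ((4 : F) • d - (2 * tt d) • (1 : Oc F)) := by
  have h := YA_tau0 (a.m₁ - a.m₄) a.m₂ a.m₃ a.a₁ a.a₂ a.c₁ a.c₂
    (b.m₁ - b.m₄) b.m₂ b.m₃ b.a₁ b.a₂ b.c₁ b.c₂ (c.m₁ - c.m₄) c.m₂ c.m₃ c.a₁ c.a₂ c.c₁ c.c₂
    (d.m₁ - d.m₄) d.m₂ d.m₃ d.a₁ d.a₂ d.c₁ d.c₂
  change (2 : F) • (associator (com (Oct_N d) (Oct_N a)) (Oct_N b) (Oct_N c)
        + associator (com (Oct_N b) (Oct_N c)) (Oct_N d) (Oct_N a))
      - (4 : F) • com (Oct_N d) (associator (Oct_N a) (Oct_N b) (Oct_N c))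
      + (com (com (Oct_N a) (Oct_N b)) (com (Oct_N c) (Oct_N d))
        + com (com (Oct_N b) (Oct_N c)) (com (Oct_N a) (Oct_N d))
        + com (com (Oct_N c) (Oct_N a)) (com (Oct_N b) (Oct_N d))) =
      tt (com (Oct_N a) (Oct_N b) * Oct_N c) •
        ((4 : F) • Oct_N d - (2 * tt (Oct_N d)) • (1 : Oc F)) at h
  have h1 : tt (com (Oct_N a) (Oct_N b) * Oct_N c) = tt (com a b * c) := by
    rw [Oct_com_N, Oct_N_com, Oct_N_eq c, mul_sub, mul_smul_comm, mul_one, Oct_tt_sub, tt_smul,
      tt_com, mul_zero, sub_zero]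
  have h3 : (4 : F) • Oct_N d - (2 * tt (Oct_N d)) • (1 : Oc F) =
      (4 : F) • d - (2 * tt d) • (1 : Oc F) := by
    rw [Oct_N_eq, Oct_tt_sub, tt_smul, tt_one]
    module
  rw [h1, h3] at h
  simpa only [Oct_com_N, Oct_N_com, Oct_as1, Oct_as2, Oct_as3] using h

theorem tauK_oc (h2 : (2 : F) ≠ 0) (K : List (Oc F)) (d a b c : Oc F) :
    tauK F K d a b c = ((K.map tt).prod * tt (com a b * c)) • y0 d := by
  have h4 : (4 : F) ≠ 0 := by
    have e : (4 : F) = 2 * 2 := by norm_num
    rw [e]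
    exact mul_ne_zero h2 h2
  rw [tauK, bK_oc h2 K _ _ (tt_com d a), bK_oc h2 K _ _ (tt_com b c), cK_oc h2 K _ (tt_asc a b c),
    cK_oc h2 K _ (tt_com c d), cK_oc h2 K _ (tt_com a d), cK_oc h2 K _ (tt_com b d), y0]
  generalize (K.map tt).prod = p
  have h := YA_tau1 d a b c
  generalize associator (com d a) b c = X1 at h ⊢
  generalize associator (com b c) d a = X2 at h ⊢
  generalize com d (associator a b c) = X3 at h ⊢
  generalize com (com a b) (com c d) = X4 at h ⊢
  generalize com (com b c) (com a d) = X5 at h ⊢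
  generalize com (com c a) (com b d) = X6 at h ⊢
  generalize tt (com a b * c) = s at h ⊢
  have e2 : (2 : F)⁻¹ = 4⁻¹ * 2 := by
    field_simp
    norm_num
  have e4 : (4 : F)⁻¹ * 4 = 1 := inv_mul_cancel₀ h4
  have e5 : (2 : F)⁻¹ • (p • X1 + p • X2) - p • X3 + (4 : F)⁻¹ • (p • X4 + p • X5 + p • X6) =
      (p * 4⁻¹) • ((2 : F) • (X1 + X2) - (4 : F) • X3 + (X4 + X5 + X6)) := by
    have e6 : p • X3 = (p * (4⁻¹ * 4)) • X3 := by rw [e4, mul_one]
    rw [e6, e2]
    module
  rw [e5, h]
  have e7 : d - (2⁻¹ * tt d) • (1 : Oc F) = ((4 : F)⁻¹ * 4) • d - ((4 : F)⁻¹ * 2 * tt d) • (1 : Oc F) := by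
    rw [e4, ← e2, one_smul]
  rw [e7]
  module

theorem hK_oc (h2 : (2 : F) ≠ 0) (K : List (Oc F)) (d e : Oc F) {u : Oc F} (hu : tt u = 0) :
    hK F K d e u = (K.map tt).prod • (tt (u * d) • y0 e - tt (u * e) • y0 d) := by
  have t1 : ∀ x : Oc F, tt (y0 x * u) = tt (u * x) := by
    intro x
    rw [y0, sub_mul, Oct_tt_sub, smul_mul_assoc, one_mul, tt_smul, hu, mul_zero, sub_zero,
      tt_comm]
  have a1 : ∀ x y : Oc F, associator (y0 x) (y0 y) u = associator x y u := by
    intro x y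
    simp only [y0, associator_apply, sub_mul, mul_sub, smul_mul_assoc, mul_smul_comm, one_mul,
      mul_one]
    module
  have k1 := com3_oc (tt_y0 h2 e) (tt_y0 h2 d) hu
  have k2 := com3_oc (tt_y0 h2 d) (tt_y0 h2 e) hu
  rw [y0_com, y0_com, t1, a1] at k1 k2
  have a2 : associator e d u = -associator d e u := alt12_oc e d u
  have a3 : associator u d e = associator d e u := by
    rw [alt12_oc u d e, alt23_oc d u e, neg_neg]
  rw [a2] at k1
  rw [hK, cK_oc h2 K _ (tt_com d u), cK_oc h2 K _ (tt_com e u), bK_oc h2 K _ _ hu, a3, k1, k2,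
    tt_comm (y0 d) (y0 e)]
  generalize (K.map tt).prod = p
  generalize associator d e u = X
  generalize tt (y0 e * y0 d) = q
  have e2 : (2 : F)⁻¹ * 2 = 1 := inv_mul_cancel₀ h2
  have e5 : ∀ Y : Oc F, (2 : F)⁻¹ • (p • ((2 : F) • Y)) = p • Y := by
    intro Y
    rw [smul_comm p, smul_smul, e2, one_smul]
  have e6 : p • (2 * q) • u - p • (2 * q) • u = 0 := sub_self _
  have e7 : (2 : F)⁻¹ • (p • ((2 * q) • u - (2 * tt (u * e)) • y0 d - 2 • -X)
      - p • ((2 * q) • u - (2 * tt (u * d)) • y0 e - 2 • X)) =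
      (2 : F)⁻¹ • (p • ((2 : F) • (tt (u * d) • y0 e - tt (u * e) • y0 d + 2 • X))) := by
    congr 1
    module
  rw [e7, e5]
  module

theorem phiK_oc (h2 : (2 : F) ≠ 0) (K : List (Oc F)) (e a b c d : Oc F) :
    phiK F K e a b c d = ((K.map tt).prod * pf a b c d) • y0 e := by
  rw [phiK, hK_oc h2 K _ _ (tt_asc a b c), hK_oc h2 K _ _ (tt_asc a b d),
    hK_oc h2 K _ _ (tt_asc a b e)]
  change (2 : F)⁻¹ • ((K.map tt).prod • (pf a b c d • y0 e - pf a b c e • y0 d)
    + (K.map tt).prod • (pf a b d e • y0 c - pf a b d c • y0 e)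
    - (K.map tt).prod • (pf a b e c • y0 d - pf a b e d • y0 c)) = _
  rw [pf_34 a b c d, pf_34 a b c e, pf_34 a b d e]
  generalize (K.map tt).prod = p
  generalize pf a b c d = s
  generalize pf a b c e = s1
  generalize pf a b d e = s2
  have e2 : (2 : F)⁻¹ * 2 = 1 := inv_mul_cancel₀ h2
  have e5 : (2 : F)⁻¹ • (p • (s • y0 e - s1 • y0 d) + p • (s2 • y0 c - -s • y0 e)
      - p • (-s1 • y0 d - -s2 • y0 c)) = ((2 : F)⁻¹ * 2) • ((p * s) • y0 e) := by
    module
  rw [e5, e2, one_smul]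

end Pool.Agent.OBY
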