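import Pool.Agent.OB.YA

/-!
# The basic representations  (module YB)

`Rp_c1`, `Rp_s1`, `Rp_tm`, `Rp_pm`: see `Rp_g1`, `Rp_lm` at the end of XB (`cK_hom (lift F v)`, `cK_oc`, `XB_prod`).
`Rp_qz`: `four_q` (XB2): `4 q(a,b) z = [a,[b,z]] + [b,[a,z]] + 2 q(a,z) b + 2 q(b,z) a` for traceless `a, b, z`; see the proof of `Rp_T0` in XB2.
`Rp_Q2`, `Rp_Q3`: `Rp_qz` with `tt (y0 a * com i j) = tt (com i j * a)`, `tt (y0 a * u) = tt (u * a)` for `u` traceless.
`Rp_E5`: `q(k,j) i - q(k,i) j = 1/2 [k,[j,i]] + (k,j,i)` for traceless elements (`com3_oc`), `Rp_qq`, `Rp_Q3`.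
`Rp_G4`: `jor (y0 d) (1/2 [a,[i,j]])` is `jor (y0 d) (q(a,i) j - q(a,j) i - (a,i,j))`, and `jor (y0 d) (a,i,j) = pf a i j d • 1`
(`jor_traceless`), the associator does not change if `a, i, j` are replaced by `y0 a`, ...
`Rp_G5`: `Rp_yl` of `Rp_G4` plus `Rp_pm`.
-/

set_option autoImplicit false
set_option linter.unusedSectionVars false

namespace Pool.Agent.OBY

open FreeNonUnitalNonAssocAlgebra Pool.Agent.H.MP_41922c_al Pool.Agent.Smt Pool.Agent.OB Pool.Agent.OBX

variable {F : Type*} [Field F]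

theorem YB_com (v : ℕ → Oc F) (a b : FA F) : lift F v (com a b) = com (lift F v a) (lift F v b) := by
  unfold com
  rw [map_sub, map_mul, map_mul]

theorem YB_asc (v : ℕ → Oc F) (a b c : FA F) :
    lift F v (associator a b c) = associator (lift F v a) (lift F v b) (lift F v c) := by
  unfold associator
  rw [map_sub, map_mul, map_mul, map_mul, map_mul]

theorem YB_asc_y0 (a b c : Oc F) :
    associator (y0 a) (y0 b) (y0 c) = associator a b c := by
  unfold y0
  generalize (2 : F)⁻¹ * tt a = s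
  generalize (2 : F)⁻¹ * tt b = t
  generalize (2 : F)⁻¹ * tt c = r
  unfold associator
  simp only [sub_mul, mul_sub, smul_mul_assoc, mul_smul_comm, one_mul, mul_one]
  module

theorem YB_tt (x : Oc F) {z : Oc F} (hz : tt z = 0) : tt (y0 x * z) = tt (z * x) := by
  unfold y0
  rw [sub_mul, Oct_tt_sub, smul_mul_assoc, one_mul, tt_smul, hz, mul_zero, sub_zero, tt_comm]

theorem Rp_c1 (h2 : (2 : F) ≠ 0) (a : FA F) {z : FA F} (hz : ∀ v, tt (lift F v z : Oc F) = 0) :
    Rp (c1 a z) (fun v => com (lift F v a) (lift F v z)) := by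
  intro v K
  show lift F v (cK F (K.map (of F)) a z) = _
  rw [cK_hom (lift F v), cK_oc h2 _ _ (hz v), XB_prod]

theorem Rp_s1 (h2 : (2 : F) ≠ 0) (a b : FA F) {z : FA F} (hz : ∀ v, tt (lift F v z : Oc F) = 0) :
    Rp (s1 a b z) (fun v => jor (com (lift F v a) (lift F v b)) (lift F v z)) := by
  intro v K
  show lift F v (sK F (K.map (of F)) a b z) = _
  rw [sK_hom (lift F v), sK_oc h2 _ _ _ (hz v), XB_prod]

theorem Rp_tm (h2 : (2 : F) ≠ 0) (d a b c : FA F) :
    Rp (tm d a b c) (fun v => tt (com (lift F v a) (lift F v b) * lift F v c) • y0 (lift F v d)) := by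
  intro v K
  show lift F v (tauK F (K.map (of F)) d a b c) = _
  rw [tauK_hom (lift F v), tauK_oc h2, XB_prod, mul_smul]

theorem Rp_pm (h2 : (2 : F) ≠ 0) (e a b c d : FA F) :
    Rp (pm e a b c d) (fun v => pf (lift F v a) (lift F v b) (lift F v c) (lift F v d) •
      y0 (lift F v e)) := by
  intro v K
  show lift F v (phiK F (K.map (of F)) e a b c d) = _
  rw [phiK_hom (lift F v), phiK_oc h2, XB_prod, mul_smul]

theorem Rp_qz (h2 : (2 : F) ≠ 0) (a b : ℕ) {z : FA F} {g : ℕ → ℕ → Rep F}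
    (hz : ∀ v, tt (lift F v z : Oc F) = 0)
    (hg : ∀ i j, Rp (g i j) (fun v => tt (lift F v z * v i) • y0 (v j))) :
    Rp (qz a b z g) (fun v => qf (v a) (v b) • lift F v z) := by
  have h4 : (4 : F) ≠ 0 := by
    have e : (4 : F) = 2 * 2 := by norm_num
    rw [e]
    exact mul_ne_zero h2 h2
  have hc : ∀ (i : ℕ) (v : ℕ → Oc F), tt (lift F v (com (of F i) z)) = 0 := fun i v => by
    rw [YB_com, tt_com]
  refine ((((Rp_c1 h2 (of F a) (hc b)).add (Rp_c1 h2 (of F b) (hc a))).smul _).add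
    (((hg a b).add (hg b a)).smul _)).congr fun v => ?_
  simp only [YB_com, lift_of_apply]
  have h := four_q h2 (tt_y0 h2 (v a)) (tt_y0 h2 (v b)) (hz v)
  rw [YB_tt _ (hz v), YB_tt _ (hz v), y0_com, y0_com, y0_com, y0_com] at h
  unfold qf
  have h5 : tt (y0 (v a) * y0 (v b)) • lift F v z =
      (4 : F)⁻¹ • ((4 * tt (y0 (v a) * y0 (v b))) • lift F v z) := by
    rw [smul_smul, ← mul_assoc, inv_mul_cancel₀ h4, one_mul]
  rw [h5, h]
  have h6 : (4 : F)⁻¹ * 2 = 2⁻¹ := by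
    field_simp
    norm_num
  rw [← h6]
  module

theorem Rp_Q2 (h2 : (2 : F) ≠ 0) (a b i j : ℕ) :
    Rp (Q2 (F := F) a b i j) (fun v => qf (v a) (v b) • com (v i) (v j)) := by
  refine (Rp_qz h2 a b (z := com (of F i) (of F j)) (fun v => by rw [YB_com, tt_com])
    fun k l => (Rp_tm h2 (of F l) (of F i) (of F j) (of F k)).congr fun v => by
      rw [YB_com, lift_of_apply, lift_of_apply, lift_of_apply, lift_of_apply]).congr fun v => by
    rw [YB_com, lift_of_apply, lift_of_apply]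

theorem Rp_Q3 (h2 : (2 : F) ≠ 0) (a b i j k : ℕ) :
    Rp (Q3 (F := F) a b i j k) (fun v => qf (v a) (v b) • associator (v i) (v j) (v k)) := by
  refine (Rp_qz h2 a b (z := associator (of F i) (of F j) (of F k))
    (fun v => by rw [YB_asc, tt_associator])
    fun l m => (Rp_pm h2 (of F m) (of F i) (of F j) (of F k) (of F l)).congr fun v => by
      rw [YB_asc, lift_of_apply, lift_of_apply, lift_of_apply, lift_of_apply, lift_of_apply]
      rfl).congr fun v => by
    rw [YB_asc, lift_of_apply, lift_of_apply, lift_of_apply]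

theorem YB_half (h2 : (2 : F) ≠ 0) (k j i : Oc F) :
    (2 : F)⁻¹ • com k (com j i) = qf k j • y0 i - qf k i • y0 j - associator k j i := by
  have h := com3_oc (tt_y0 h2 k) (tt_y0 h2 j) (tt_y0 h2 i)
  rw [YB_asc_y0, y0_com, y0_com, com_y0] at h
  rw [h]
  unfold qf
  have e : (2 : F)⁻¹ * 2 = 1 := inv_mul_cancel₀ h2
  rw [smul_sub, smul_sub, smul_smul, smul_smul, ← mul_assoc, ← mul_assoc, e, one_mul, one_mul,
    ← Nat.cast_smul_eq_nsmul F, smul_smul, Nat.cast_ofNat, e, one_smul]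

theorem YB_c1 (h2 : (2 : F) ≠ 0) (k j i : ℕ) :
    Rp ((2 : F)⁻¹ • c1 (of F k) (com (of F j) (of F i)))
      (fun v => qf (v k) (v j) • y0 (v i) - qf (v k) (v i) • y0 (v j)
        - associator (v k) (v j) (v i)) := by
  refine ((Rp_c1 h2 (of F k) (z := com (of F j) (of F i))
    (fun v => by rw [YB_com, tt_com])).smul _).congr fun v => ?_
  rw [YB_com, lift_of_apply, lift_of_apply, lift_of_apply, YB_half h2]

theorem Rp_E5 (h2 : (2 : F) ≠ 0) (c d k j i : ℕ) :
    Rp (E5 (F := F) c d k j i) (fun v => qf (v c) (v d) •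
      (qf (v k) (v j) • y0 (v i) - qf (v k) (v i) • y0 (v j))) := by
  refine ((Rp_qq h2 c d (YB_c1 h2 k j i)).add (Rp_Q3 h2 c d k j i)).congr fun v => ?_
  rw [← smul_add, sub_add_cancel]

theorem YB_jor_sub (x a b : Oc F) : jor x (a - b) = jor x a - jor x b := by
  unfold jor
  rw [mul_sub, sub_mul]
  abel

theorem YB_jor_smul (c : F) (x a : Oc F) : jor x (c • a) = c • jor x a := by
  unfold jor
  rw [mul_smul_comm, smul_mul_assoc, smul_add]

theorem Rp_G4 (h2 : (2 : F) ≠ 0) (d a i j : ℕ) :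
    Rp (yj d ((2 : F)⁻¹ • c1 (of F a) (com (of F i) (of F j)))) (fun v =>
      (qf (v a) (v i) * qf (v j) (v d) - qf (v a) (v j) * qf (v i) (v d)
        - pf (v a) (v i) (v j) (v d)) • (1 : Oc F)) := by
  refine (Rp_yj h2 d (YB_c1 h2 a i j)).congr fun v => ?_
  rw [YB_jor_sub, YB_jor_sub, YB_jor_smul, YB_jor_smul, jor_y0 h2, jor_y0 h2,
    jor_traceless _ _ (tt_y0 h2 (v d)) (tt_associator (v a) (v i) (v j)),
    YB_tt _ (tt_associator (v a) (v i) (v j)), qf_comm (v d) (v j), qf_comm (v d) (v i),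
    smul_smul, smul_smul, sub_smul, sub_smul]
  rfl

theorem Rp_J3 (h2 : (2 : F) ≠ 0) (h3 : (3 : F) ≠ 0) (a i j : ℕ) :
    Rp (J3 (F := F) a i j) (fun v => associator (v a) (v i) (v j)) := by
  have hz : ∀ (k l : ℕ) (v : ℕ → Oc F), tt (lift F v (com (of F k) (of F l))) = 0 := fun k l v => by
    rw [YB_com, tt_com]
  have h := (((Rp_c1 h2 (of F a) (hz i j)).add (Rp_c1 h2 (of F i) (hz j a))).add
    (Rp_c1 h2 (of F j) (hz a i))).smul (-(6 : F)⁻¹)
  have e : J3 (F := F) a i j = (-(6 : F)⁻¹) • (c1 (of F a) (com (of F i) (of F j))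
      + c1 (of F i) (com (of F j) (of F a)) + c1 (of F j) (com (of F a) (of F i))) := by
    rw [neg_smul]
    rfl
  rw [e]
  refine h.congr fun v => ?_
  simp only [YB_com, lift_of_apply]
  have e6 : (6 : F) = 2 * 3 := by norm_num
  have k1 := YB_half h2 (v a) (v i) (v j)
  have k2 := YB_half h2 (v i) (v j) (v a)
  have k3 := YB_half h2 (v j) (v a) (v i)
  have a1 : associator (v i) (v j) (v a) = associator (v a) (v i) (v j) := by
    rw [alt23_oc, alt12_oc, neg_neg]
  have a2 : associator (v j) (v a) (v i) = associator (v a) (v i) (v j) := by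
    rw [alt12_oc, alt23_oc, neg_neg]
  rw [a1, qf_comm (v i) (v a)] at k2
  rw [a2, qf_comm (v j) (v i), qf_comm (v j) (v a)] at k3
  have k4 : (2 : F)⁻¹ • (com (v a) (com (v i) (v j)) + com (v i) (com (v j) (v a))
      + com (v j) (com (v a) (v i))) = (-3 : F) • associator (v a) (v i) (v j) := by
    rw [smul_add, smul_add, k1, k2, k3]
    module
  have k5 : -(6 : F)⁻¹ = (-3 : F)⁻¹ * (2 : F)⁻¹ := by
    rw [← mul_inv, e6, ← inv_neg]
    congr 1
    ring
  rw [k5, mul_smul, k4, smul_smul, inv_mul_cancel₀ (neg_ne_zero.2 h3), one_smul]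

theorem YB_J3 (h3 : (3 : F) = 0) (a i j : ℕ) : J3 (F := F) a i j = 0 := by
  have e6 : (6 : F) = 2 * 3 := by norm_num
  unfold J3
  rw [e6, h3, mul_zero, inv_zero, zero_smul, neg_zero]

theorem Rp_G4' (h2 : (2 : F) ≠ 0) (d a i j : ℕ) :
    ∃ c : F, ((3 : F) ≠ 0 → c = 0) ∧ Rp (G4 (F := F) d a i j) (fun v =>
      (qf (v a) (v i) * qf (v j) (v d) - qf (v a) (v j) * qf (v i) (v d)
        - c * pf (v a) (v i) (v j) (v d)) • (1 : Oc F)) := by
  by_cases h3 : (3 : F) = 0
  · refine ⟨1, fun h => absurd h3 h, ?_⟩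
    unfold G4
    rw [YB_J3 h3, add_zero]
    exact (Rp_G4 h2 d a i j).congr fun v => by rw [one_mul]
  · refine ⟨0, fun _ => rfl, ?_⟩
    refine (Rp_yj h2 d ((YB_c1 h2 a i j).add (Rp_J3 h2 h3 a i j))).congr fun v => ?_
    rw [sub_add_cancel, zero_mul, sub_zero, YB_jor_sub, YB_jor_smul,
      YB_jor_smul, jor_y0 h2, jor_y0 h2, qf_comm (v d) (v j), qf_comm (v d) (v i),
      smul_smul, smul_smul, sub_smul]

theorem Rp_G5 (h2 : (2 : F) ≠ 0) (e d a i j : ℕ) :
    Rp (G5 (F := F) e d a i j) (fun v =>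
      (qf (v a) (v i) * qf (v j) (v d) - qf (v a) (v j) * qf (v i) (v d)) • y0 (v e)) := by
  refine ((Rp_yl h2 e (Rp_G4 h2 d a i j)).add
    (Rp_pm h2 (of F e) (of F a) (of F i) (of F j) (of F d))).congr fun v => ?_
  rw [lift_of_apply, lift_of_apply, lift_of_apply, lift_of_apply, lift_of_apply,
    mul_smul_comm, mul_one, ← add_smul, sub_add_cancel]

end Pool.Agent.OBY
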