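import Pool.Agent.OB.YB
import Pool.Agent.OB.XC
import Pool.Agent.OB.XG

/-!
# Products of `P(L)`, `A` and represented elements  (module YC1)

All statements by cases on the lists. `Pv v L = qP v L • 1` if `Even L.length`, `Pv v (a :: M) = qP v M • y0 (v a)` if `Even M.length` (`XC_Pe`,
`XC_Po` in XC); `qP v (L ++ M) = qP v L * qP v M` if `Even L.length`. Products: `XC_yy`: `y0 a * y0 b = 1/2 (qf a b • 1 + com a b)`,
`XC_tri`: `y0 a * com b c = 1/2 (tt (com a b * c) • 1 + com a (com b c))`, and its mirror image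
`com b c * y0 a = 1/2 (tt (com b c * a) • 1 - com a (com b c))` with `tt (com b c * a) = tt (com a b * c)`.
`com a b * com c d = 1/2 (com (com a b) (com c d) + jor (com a b) (com c d))` (`XC_mul`), `jor (com l m) (y0 n) = tt (com l m * n) • 1`
(`jor_traceless`, `tt_y0`, `tt_com`), `jor c (y0 k) = jor c k - tt k • c`. Scalars `s • 1` commute with everything.
`Rp_AG` for three letters: `4⁻¹ τ l` with `τ • 1 = jor (com i j) k - tt k • com i j`.
-/

set_option autoImplicit false
set_option linter.unusedSectionVars false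

namespace Pool.Agent.OBY

open FreeNonUnitalNonAssocAlgebra Pool.Agent.H.MP_41922c_al Pool.Agent.Smt Pool.Agent.OB Pool.Agent.OBX

variable {F : Type*} [Field F]

/-- the coefficient of `P` in a product -/
noncomputable def cc (F : Type*) [Field F] (L M : List ℕ) : F :=
  if Even L.length ∨ Even M.length then 1 else (2 : F)⁻¹

theorem cmb_length {L M : List ℕ} : (cmb L M).length = L.length + M.length := by
  unfold cmb
  split_ifs with h1 h2
  · rw [List.length_append, add_comm]
  · rw [List.length_append]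
  · rcases L with _ | ⟨e, L⟩
    · exact absurd Even.zero h1
    · rcases M with _ | ⟨f, M⟩
      · exact absurd Even.zero h2
      · simp only [List.length_cons, List.length_append]
        omega

theorem cmb_perm (L M : List ℕ) : (cmb L M).Perm (L ++ M) := by
  unfold cmb
  split_ifs with h1 h2
  · exact List.perm_append_comm
  · exact List.Perm.refl _
  · rcases L with _ | ⟨e, L⟩
    · exact absurd Even.zero h1
    · rcases M with _ | ⟨f, M⟩
      · exact absurd Even.zero h2
      · exact (List.perm_middle.symm).cons e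

theorem pl_perm (w : FreeMagma ℕ) : (pl w).Perm (flat w) := by
  induction w with
  | ih1 a => exact List.Perm.refl _
  | ih2 u v hu hv => exact (cmb_perm (pl u) (pl v)).trans (hu.append hv)

theorem pl_length (w : FreeMagma ℕ) : (pl w).length = (flat w).length := (pl_perm w).length_eq

theorem kp_mul (h2 : (2 : F) ≠ 0) (u v : FreeMagma ℕ) :
    kp F (u * v) = cc F (pl u) (pl v) * (kp F u * kp F v) := by
  have h1 : flat (u * v) = flat u ++ flat v := rfl
  unfold kp cc
  rw [h1, List.length_append, pl_length, pl_length]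
  generalize (flat u).length = m
  generalize (flat v).length = n
  rw [← pow_add]
  split_ifs with h
  · rw [one_mul]
    congr 1
    rcases h with h | h <;> obtain ⟨j, hj⟩ := h <;> omega
  · rw [not_or, Nat.not_even_iff_odd, Nat.not_even_iff_odd] at h
    obtain ⟨⟨i, hi⟩, ⟨j, hj⟩⟩ := h
    rw [← pow_succ']
    congr 1
    omega

theorem YC1_app (v : ℕ → Oc F) (L M : List ℕ) (h : Even L.length) :
    qP v (L ++ M) = qP v L * qP v M := by
  match L with
  | [] => exact (one_mul _).symm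
  | [a] => exact absurd h (by simp)
  | a :: b :: L =>
    have h' : Even L.length := by
      obtain ⟨j, hj⟩ := h
      simp only [List.length_cons] at hj
      exact ⟨j - 1, by omega⟩
    show qf (v a) (v b) * qP v (L ++ M) = qf (v a) (v b) * qP v L * qP v M
    rw [YC1_app v L M h', mul_assoc]

theorem YC1_Pe (v : ℕ → Oc F) (L : List ℕ) (h : Even L.length) :
    Pv v L = qP v L • (1 : Oc F) := by
  rcases L with _ | ⟨a, L⟩
  · exact (one_smul F (1 : Oc F)).symm
  · refine XC_Po v a L fun h' => ?_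
    obtain ⟨i, hi⟩ := h
    obtain ⟨j, hj⟩ := h'
    simp only [List.length_cons] at hi
    omega

theorem YC1_odd {e : ℕ} {L : List ℕ} (h : ¬ Even (e :: L).length) : Even L.length := by
  rw [List.length_cons, Nat.even_add_one, not_not] at h
  exact h

theorem YC1_y0 {x : Oc F} (hx : tt x = 0) : y0 x = x := by
  unfold y0
  rw [hx, mul_zero, zero_smul, sub_zero]

theorem YC1_ttc (a b c : Oc F) : tt (com b c * a) = tt (com a b * c) := by
  rw [tt_comm, XC_tt]

theorem YC1_irt (h2 : (2 : F) ≠ 0) (a b c : Oc F) :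
    com b c * y0 a = (2 : F)⁻¹ • (tt (com b c * a) • (1 : Oc F) - com a (com b c)) := by
  rw [XC_mul h2, jor_traceless _ _ (tt_com b c) (tt_y0 h2 a), tt_comm (com b c) (y0 a),
    YB_tt _ (tt_com b c), com_y0, Oct_com_swap (com b c) a, sub_eq_add_neg]

theorem YC1_8 : (8 : F)⁻¹ = (2 : F)⁻¹ * (4 : F)⁻¹ := by
  rw [← mul_inv]
  norm_num

theorem YC1_4 : (4 : F)⁻¹ = (2 : F)⁻¹ * (2 : F)⁻¹ := by
  rw [← mul_inv]
  norm_num

theorem YC1_16 : (16 : F)⁻¹ = (4 : F)⁻¹ * (4 : F)⁻¹ := by
  rw [← mul_inv]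
  norm_num

theorem Rp_SQ (h2 : (2 : F) ≠ 0) {L : List ℕ} (hL : Even L.length) (h0 : L ≠ []) (i j : ℕ) :
    Rp (SQ (F := F) L i j) (fun v => Pv v L * com (v i) (v j)) := by
  rcases L with _ | ⟨a, _ | ⟨b, N⟩⟩
  · exact absurd rfl h0
  · exact absurd hL (by simp)
  · refine (Rp_QP h2 N (Rp_Q2 h2 a b i j)).congr fun v => ?_
    have e : qP v (a :: b :: N) = qf (v a) (v b) * qP v N := rfl
    rw [YC1_Pe v _ hL, e, smul_mul_assoc, one_mul, smul_smul, mul_comm]

theorem YC1_tm (h2 : (2 : F) ≠ 0) (a i j k : ℕ) :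
    Rp (tm (F := F) (of F a) (of F i) (of F j) (of F k))
      (fun v => tt (com (v i) (v j) * v k) • y0 (v a)) :=
  (Rp_tm h2 (of F a) (of F i) (of F j) (of F k)).congr fun v => by
    rw [lift_of_apply, lift_of_apply, lift_of_apply, lift_of_apply]

theorem Rp_tP (h2 : (2 : F) ≠ 0) {L : List ℕ} (h0 : L ≠ []) (i j k : ℕ) :
    Rp (tP (F := F) L i j k) (fun v => tt (com (v i) (v j) * v k) • Pv v L) := by
  unfold tP
  by_cases hL : Even L.length
  · rw [if_pos hL]
    rcases L with _ | ⟨a, _ | ⟨b, N⟩⟩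
    · exact absurd rfl h0
    · exact absurd hL (by simp)
    · refine (Rp_QP h2 N (Rp_yj h2 b (YC1_tm h2 a i j k))).congr fun v => ?_
      have e : qP v (a :: b :: N) = qf (v a) (v b) * qP v N := rfl
      rw [YC1_Pe v _ hL, e, YB_jor_smul, jor_y0 h2, qf_comm (v b) (v a)]
      module
  · rw [if_neg hL]
    rcases L with _ | ⟨a, N⟩
    · exact absurd rfl h0
    · refine (Rp_QP h2 N (YC1_tm h2 a i j k)).congr fun v => ?_
      rw [XC_Pe v a N (YC1_odd hL)]
      module

theorem YC1_c1 (h2 : (2 : F) ≠ 0) (e i j : ℕ) :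
    Rp (c1 (F := F) (of F e) (com (of F i) (of F j)))
      (fun v => com (v e) (com (v i) (v j))) :=
  (Rp_c1 h2 (of F e) (z := com (of F i) (of F j)) (fun v => by rw [YB_com, tt_com])).congr
    fun v => by rw [YB_com, lift_of_apply, lift_of_apply, lift_of_apply]

theorem YC1_cL (h2 : (2 : F) ≠ 0) {L : List ℕ} (h0 : L ≠ []) (i j : ℕ) :
    Rp (cL (F := F) L i j) (fun v => Pv v L * com (v i) (v j) -
      if L.length = 1 then (2 : F) • Av v (L ++ [i, j]) else 0) := by
  unfold cL
  by_cases hL : Even L.length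
  · rw [if_pos hL]
    refine (Rp_SQ h2 hL h0 i j).congr fun v => ?_
    rw [if_neg (fun h => by rw [h] at hL; exact absurd hL (by decide)), sub_zero]
  · rw [if_neg hL]
    rcases L with _ | ⟨e, _ | ⟨f, L⟩⟩
    · exact absurd rfl h0
    · refine ((YC1_c1 h2 e i j).smul (2 : F)⁻¹).congr fun v => ?_
      have e1 : Pv v [e] = y0 (v e) := by
        rw [XC_Pe v e [] (by simp)]
        exact one_smul F _
      have e2 : Av v ([e] ++ [i, j]) = ((4 : F)⁻¹ * tt (com (v e) (v i) * v j)) • (1 : Oc F) := rfl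
      have e3 : [e].length = 1 := rfl
      rw [if_pos e3, e1, e2, XC_tri h2, YC1_4, smul_smul, ← mul_assoc, ← mul_assoc,
        mul_inv_cancel₀ h2, one_mul]
      unfold F1
      module
    · have hf := YC1_odd hL
      refine (Rp_yl h2 e (Rp_SQ h2 hf (by simp) i j)).congr fun v => ?_
      have e3 : (e :: f :: L).length ≠ 1 := by simp
      rw [if_neg e3, sub_zero, XC_Pe v e _ hf, YC1_Pe v _ hf]
      simp only [smul_mul_assoc, mul_smul_comm, one_mul]

theorem YC1_cR (h2 : (2 : F) ≠ 0) {L : List ℕ} (h0 : L ≠ []) (i j : ℕ) :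
    Rp (cR (F := F) L i j) (fun v => com (v i) (v j) * Pv v L -
      if L.length = 1 then (2 : F) • Av v ([i, j] ++ L) else 0) := by
  unfold cR
  by_cases hL : Even L.length
  · rw [if_pos hL]
    refine (Rp_SQ h2 hL h0 i j).congr fun v => ?_
    rw [if_neg (fun h => by rw [h] at hL; exact absurd hL (by decide)), sub_zero, YC1_Pe v _ hL,
      smul_mul_assoc, one_mul, mul_smul_comm, mul_one]
  · rw [if_neg hL]
    rcases L with _ | ⟨e, _ | ⟨f, L⟩⟩
    · exact absurd rfl h0
    · have h := (YC1_c1 h2 e i j).smul (-(2 : F)⁻¹)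
      rw [neg_smul] at h
      refine h.congr fun v => ?_
      have e1 : Pv v [e] = y0 (v e) := by
        rw [XC_Pe v e [] (by simp)]
        exact one_smul F _
      have e2 : Av v ([i, j] ++ [e]) = ((4 : F)⁻¹ * tt (com (v i) (v j) * v e)) • (1 : Oc F) := rfl
      have e3 : [e].length = 1 := rfl
      rw [if_pos e3, e1, e2, YC1_irt h2, YC1_4, smul_smul, ← mul_assoc, ← mul_assoc,
        mul_inv_cancel₀ h2, one_mul]
      module
    · have hf := YC1_odd hL
      refine (Rp_yr h2 e (Rp_SQ h2 hf (by simp) i j)).congr fun v => ?_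
      have e3 : (e :: f :: L).length ≠ 1 := by simp
      rw [if_neg e3, sub_zero, XC_Pe v e _ hf, YC1_Pe v _ hf]
      simp only [smul_mul_assoc, mul_smul_comm, one_mul]

theorem Rp_PA (h2 : (2 : F) ≠ 0) {L A : List ℕ} (h0 : L ≠ []) :
    Rp (PA (F := F) L A) (fun v => Pv v L * Av v A -
      if L.length = 1 ∧ A.length = 2 then Av v (L ++ A) else 0) := by
  have hz : ∀ {A : List ℕ}, (∀ v : ℕ → Oc F, Av v A = 0) → A.length ≠ 2 →
      Rp (0 : Rep F) (fun v => Pv v L * Av v A -
        if L.length = 1 ∧ A.length = 2 then Av v (L ++ A) else 0) := by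
    intro A h hA
    refine Rp_zero.congr fun v => ?_
    rw [if_neg (fun h' => hA h'.2), h v, mul_zero, sub_zero]
  rcases A with _ | ⟨i, _ | ⟨j, _ | ⟨k, _ | ⟨l, A⟩⟩⟩⟩
  · exact hz (fun v => rfl) (by simp)
  · exact hz (fun v => rfl) (by simp)
  · refine ((YC1_cL h2 h0 i j).smul (2 : F)⁻¹).congr fun v => ?_
    have e1 : Av v [i, j] = (2 : F)⁻¹ • com (v i) (v j) := rfl
    have e2 : [i, j].length = 2 := rfl
    rw [e1, smul_sub, mul_smul_comm]
    congr 1
    by_cases h : L.length = 1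
    · rw [if_pos h, if_pos ⟨h, e2⟩, smul_smul, inv_mul_cancel₀ h2, one_smul]
    · rw [if_neg h, if_neg (fun h' => h h'.1), smul_zero]
  · refine ((Rp_tP h2 h0 i j k).smul (4 : F)⁻¹).congr fun v => ?_
    have e1 : Av v [i, j, k] = ((4 : F)⁻¹ * tt (com (v i) (v j) * v k)) • (1 : Oc F) := rfl
    have e2 : [i, j, k].length ≠ 2 := by simp
    rw [e1, if_neg (fun h' => e2 h'.2), sub_zero, mul_smul_comm, mul_one, mul_smul]
  · exact hz (fun v => rfl) (by simp)

theorem Rp_AP (h2 : (2 : F) ≠ 0) {L A : List ℕ} (h0 : L ≠ []) :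
    Rp (AP (F := F) L A) (fun v => Av v A * Pv v L -
      if L.length = 1 ∧ A.length = 2 then Av v (A ++ L) else 0) := by
  have hz : ∀ {A : List ℕ}, (∀ v : ℕ → Oc F, Av v A = 0) → A.length ≠ 2 →
      Rp (0 : Rep F) (fun v => Av v A * Pv v L -
        if L.length = 1 ∧ A.length = 2 then Av v (A ++ L) else 0) := by
    intro A h hA
    refine Rp_zero.congr fun v => ?_
    rw [if_neg (fun h' => hA h'.2), h v, zero_mul, sub_zero]
  rcases A with _ | ⟨i, _ | ⟨j, _ | ⟨k, _ | ⟨l, A⟩⟩⟩⟩
  · exact hz (fun v => rfl) (by simp)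
  · exact hz (fun v => rfl) (by simp)
  · refine ((YC1_cR h2 h0 i j).smul (2 : F)⁻¹).congr fun v => ?_
    have e1 : Av v [i, j] = (2 : F)⁻¹ • com (v i) (v j) := rfl
    have e2 : [i, j].length = 2 := rfl
    rw [e1, smul_sub, smul_mul_assoc]
    congr 1
    by_cases h : L.length = 1
    · rw [if_pos h, if_pos ⟨h, e2⟩, smul_smul, inv_mul_cancel₀ h2, one_smul]
    · rw [if_neg h, if_neg (fun h' => h h'.1), smul_zero]
  · refine ((Rp_tP h2 h0 i j k).smul (4 : F)⁻¹).congr fun v => ?_
    have e1 : Av v [i, j, k] = ((4 : F)⁻¹ * tt (com (v i) (v j) * v k)) • (1 : Oc F) := rfl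
    have e2 : [i, j, k].length ≠ 2 := by simp
    rw [e1, if_neg (fun h' => e2 h'.2), sub_zero, smul_mul_assoc, one_mul, mul_smul]
  · exact hz (fun v => rfl) (by simp)

theorem YC1_tmc (h2 : (2 : F) ≠ 0) (i j k l m : ℕ) :
    Rp (tm (F := F) (com (of F i) (of F j)) (of F k) (of F l) (of F m))
      (fun v => tt (com (v k) (v l) * v m) • com (v i) (v j)) :=
  (Rp_tm h2 (com (of F i) (of F j)) (of F k) (of F l) (of F m)).congr fun v => by
    rw [YB_com, lift_of_apply, lift_of_apply, lift_of_apply, lift_of_apply, lift_of_apply,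
      YC1_y0 (tt_com _ _)]

theorem Rp_AA (h2 : (2 : F) ≠ 0) (A B : List ℕ) :
    Rp (AA (F := F) A B) (fun v => Av v A * Av v B) := by
  have hz : ∀ {A B : List ℕ}, (∀ v : ℕ → Oc F, Av v A * Av v B = 0) →
      Rp (0 : Rep F) (fun v => Av v A * Av v B) := by
    intro A B h
    refine Rp_zero.congr fun v => (h v).symm
  have ea : ∀ (v : ℕ → Oc F) (i j : ℕ), Av v [i, j] = (2 : F)⁻¹ • com (v i) (v j) :=
    fun _ _ _ => rfl
  have eb : ∀ (v : ℕ → Oc F) (i j k : ℕ),
      Av v [i, j, k] = ((4 : F)⁻¹ * tt (com (v i) (v j) * v k)) • (1 : Oc F) :=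
    fun _ _ _ _ => rfl
  rcases A with _ | ⟨a₁, _ | ⟨a₂, _ | ⟨a₃, _ | ⟨a₄, A⟩⟩⟩⟩
  · exact hz fun v => zero_mul _
  · exact hz fun v => zero_mul _
  · rcases B with _ | ⟨b₁, _ | ⟨b₂, _ | ⟨b₃, _ | ⟨b₄, B⟩⟩⟩⟩
    · exact hz fun v => mul_zero _
    · exact hz fun v => mul_zero _
    · have hc : ∀ v, tt (lift F v (com (of F b₁) (of F b₂)) : Oc F) = 0 := fun v => by
        rw [YB_com, tt_com]
      refine (((Rp_c1 h2 (com (of F a₁) (of F a₂)) hc).add
        (Rp_s1 h2 (of F a₁) (of F a₂) hc)).smul (8 : F)⁻¹).congr fun v => ?_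
      simp only [YB_com, lift_of_apply]
      rw [ea, ea, smul_mul_assoc, mul_smul_comm, XC_mul h2, YC1_8, YC1_4, add_comm]
      module
    · refine ((YC1_tmc h2 a₁ a₂ b₁ b₂ b₃).smul (8 : F)⁻¹).congr fun v => ?_
      rw [ea, eb, smul_mul_assoc, mul_smul_comm, mul_one, YC1_8]
      module
    · exact hz fun v => mul_zero _
  · rcases B with _ | ⟨b₁, _ | ⟨b₂, _ | ⟨b₃, _ | ⟨b₄, B⟩⟩⟩⟩
    · exact hz fun v => mul_zero _
    · exact hz fun v => mul_zero _
    · refine ((YC1_tmc h2 b₁ b₂ a₁ a₂ a₃).smul (8 : F)⁻¹).congr fun v => ?_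
      rw [ea, eb, smul_mul_assoc, one_mul, YC1_8]
      module
    · refine ((Rp_yj h2 b₃ (YC1_tmc h2 b₁ b₂ a₁ a₂ a₃)).smul (16 : F)⁻¹).congr fun v => ?_
      rw [eb, eb, smul_mul_assoc, one_mul, YC1_16, YB_jor_smul,
        jor_traceless _ _ (tt_y0 h2 _) (tt_com _ _), YB_tt _ (tt_com _ _)]
      module
    · exact hz fun v => mul_zero _
  · exact hz fun v => zero_mul _

theorem YC1_PP (v : ℕ → Oc F) {L M : List ℕ} (hL : Even L.length) (hM : M ≠ []) :
    Pv v (M ++ L) = qP v L • Pv v M := by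
  rcases M with _ | ⟨f, M⟩
  · exact absurd rfl hM
  · by_cases h : Even M.length
    · have h' : Even (M ++ L).length := by
        rw [List.length_append]
        exact h.add hL
      rw [List.cons_append, XC_Pe v f _ h', XC_Pe v f _ h, YC1_app v M L h, smul_smul, mul_comm]
    · have h1 : Even (f :: M).length := by
        rw [List.length_cons, Nat.even_add_one]
        exact h
      have h' : Even (f :: M ++ L).length := by
        rw [List.length_append]
        exact h1.add hL
      rw [YC1_Pe v _ h', YC1_Pe v _ h1, YC1_app v _ L h1, smul_smul, mul_comm]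

theorem Rp_PP2 (h2 : (2 : F) ≠ 0) {L M : List ℕ} (hL : L ≠ []) (hM : M ≠ []) :
    Rp (PP2 (F := F) L M) (fun v => Pv v L * Pv v M - cc F L M • Pv v (cmb L M) -
      if L.length = 1 ∧ M.length = 1 then Av v (L ++ M) else 0) := by
  unfold PP2 cc
  by_cases h : Even L.length ∨ Even M.length
  · rw [if_pos h, if_pos h]
    refine Rp_zero.congr fun v => ?_
    rw [if_neg (fun h' => by
      rw [h'.1, h'.2] at h
      exact absurd h (by decide)), sub_zero, one_smul]
    unfold cmb
    by_cases hl : Even L.length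
    · rw [if_pos hl, YC1_PP v hl hM, YC1_Pe v L hl, smul_mul_assoc, one_mul, sub_self]
    · rw [if_neg hl]
      have hm := h.resolve_left hl
      rw [if_pos hm, YC1_PP v hm hL, YC1_Pe v M hm, mul_smul_comm, mul_one, sub_self]
  · rw [if_neg h, if_neg h]
    rw [not_or] at h
    rcases L with _ | ⟨e, L⟩
    · exact absurd rfl hL
    rcases M with _ | ⟨f, M⟩
    · exact absurd rfl hM
    have hl := YC1_odd h.1
    have hm := YC1_odd h.2
    have hlm : Even (L ++ M).length := by
      rw [List.length_append]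
      exact hl.add hm
    have key : ∀ v : ℕ → Oc F, Pv v (e :: L) * Pv v (f :: M) -
        (2 : F)⁻¹ • Pv v (cmb (e :: L) (f :: M)) =
          (2 : F)⁻¹ • (qP v (L ++ M) • com (v e) (v f)) := by
      intro v
      have e1 : cmb (e :: L) (f :: M) = e :: f :: (L ++ M) := by
        unfold cmb
        rw [if_neg h.1, if_neg h.2]
      have e2 : Even (e :: f :: (L ++ M)).length := by
        obtain ⟨j, hj⟩ := hlm
        exact ⟨j + 1, by rw [List.length_cons, List.length_cons, hj]; omega⟩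
      have e3 : qP v (e :: f :: (L ++ M)) = qf (v e) (v f) * qP v (L ++ M) := rfl
      rw [e1, YC1_Pe v _ e2, e3, XC_Pe v e L hl, XC_Pe v f M hm, smul_mul_assoc, mul_smul_comm,
        XC_yy h2, YC1_app v L M hl]
      module
    have hz : ∀ {N : List ℕ}, N = L ++ M → Rp (F := F) (match N with
        | a :: b :: N => (2 : F)⁻¹ • QP N (Q2 a b e f)
        | _ => 0) (fun v => (2 : F)⁻¹ • (qP v N • com (v e) (v f)) -
        if N.length = 0 then (2 : F)⁻¹ • com (v e) (v f) else (0 : Oc F)) := by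
      intro N hN
      rcases N with _ | ⟨a, _ | ⟨b, N⟩⟩
      · refine Rp_zero.congr fun v => ?_
        have e1 : qP v [] = 1 := rfl
        rw [e1, one_smul, if_pos (by rfl), sub_self]
      · rw [← hN] at hlm
        exact absurd hlm (by simp)
      · refine ((Rp_QP h2 N (Rp_Q2 h2 a b e f)).smul (2 : F)⁻¹).congr fun v => ?_
        have e1 : qP v (a :: b :: N) = qf (v a) (v b) * qP v N := rfl
        rw [if_neg (by simp), e1, sub_zero]
        module
    refine (hz rfl).congr fun v => ?_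
    rw [key v]
    congr 1
    by_cases h0 : (L ++ M).length = 0
    · rw [if_pos h0]
      rw [List.length_eq_zero_iff, List.append_eq_nil_iff] at h0
      obtain ⟨rfl, rfl⟩ := h0
      rw [if_pos ⟨rfl, rfl⟩]
      rfl
    · rw [if_neg h0, if_neg]
      rintro ⟨h3, h4⟩
      apply h0
      rw [List.length_append]
      simp only [List.length_cons] at h3 h4
      omega

theorem Rp_PG (h2 : (2 : F) ≠ 0) (L : List ℕ) {g : Rep F} {l : (ℕ → Oc F) → Oc F} (h : Rp g l) :
    Rp (PG L g) (fun v => Pv v L * l v) := by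
  unfold PG
  by_cases hL : Even L.length
  · rw [if_pos hL]
    refine (Rp_QP h2 L h).congr fun v => ?_
    rw [YC1_Pe v L hL, smul_mul_assoc, one_mul]
  · rw [if_neg hL]
    rcases L with _ | ⟨e, L⟩
    · exact absurd Even.zero hL
    · refine (Rp_yl h2 e (Rp_QP h2 L h)).congr fun v => ?_
      rw [XC_Pe v e L (YC1_odd hL), smul_mul_assoc, mul_smul_comm]

theorem Rp_GP (h2 : (2 : F) ≠ 0) (L : List ℕ) {g : Rep F} {l : (ℕ → Oc F) → Oc F} (h : Rp g l) :
    Rp (GP L g) (fun v => l v * Pv v L) := by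
  unfold GP
  by_cases hL : Even L.length
  · rw [if_pos hL]
    refine (Rp_QP h2 L h).congr fun v => ?_
    rw [YC1_Pe v L hL, mul_smul_comm, mul_one]
  · rw [if_neg hL]
    rcases L with _ | ⟨e, L⟩
    · exact absurd Even.zero hL
    · refine (Rp_yr h2 e (Rp_QP h2 L h)).congr fun v => ?_
      rw [XC_Pe v e L (YC1_odd hL), smul_mul_assoc, mul_smul_comm]

theorem YC1_jor (h2 : (2 : F) ≠ 0) (i j k : Oc F) :
    jor (com i j) k = tt (com i j * k) • (1 : Oc F) + tt k • com i j := by
  have h1 : jor (com i j) (y0 k) = tt (com i j * k) • (1 : Oc F) := by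
    rw [jor_traceless _ _ (tt_com i j) (tt_y0 h2 k), tt_comm (com i j) (y0 k),
      YB_tt _ (tt_com i j)]
  rw [← h1]
  unfold jor y0
  rw [mul_sub, sub_mul, smul_mul_assoc, mul_smul_comm, one_mul, mul_one]
  have h3 : tt k • com i j = ((2 : F)⁻¹ * tt k) • com i j + ((2 : F)⁻¹ * tt k) • com i j := by
    rw [← add_smul]
    congr 1
    field_simp
    ring
  rw [h3]
  abel

theorem YC1_jorm (φ : ℕ → Oc F) (a b : FA F) :
    lift F φ (jor a b) = jor (lift F φ a) (lift F φ b) := by
  unfold jor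
  rw [map_add, map_mul, map_mul]

theorem Rp_AG (h2 : (2 : F) ≠ 0) (A : List ℕ) {g : Rep F} {l : (ℕ → Oc F) → Oc F} (h : Rp g l) :
    Rp (AG A g) (fun v => Av v A * l v) := by
  rcases A with _ | ⟨i, _ | ⟨j, _ | ⟨k, _ | ⟨m, A⟩⟩⟩⟩
  · exact Rp_zero.congr fun v => (zero_mul _).symm
  · exact Rp_zero.congr fun v => (zero_mul _).symm
  · intro v K
    show lift F v ((2 : F)⁻¹ • (com (of F i) (of F j) * g K)) =
      tK v K • ((2 : F)⁻¹ • com (v i) (v j) * l v)
    rw [map_smul, map_mul, YB_com, lift_of_apply, lift_of_apply, h v K, smul_mul_assoc,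
      mul_smul_comm, smul_comm]
  · intro v K
    show lift F v ((4 : F)⁻¹ • (jor (com (of F i) (of F j)) (of F k) * g K
      - com (of F i) (of F j) * g (k :: K))) =
      tK v K • (((4 : F)⁻¹ * tt (com (v i) (v j) * v k)) • (1 : Oc F) * l v)
    rw [map_smul, map_sub, map_mul, map_mul, YC1_jorm, YB_com, lift_of_apply, lift_of_apply,
      lift_of_apply, h v K, h v (k :: K), tK_cons, YC1_jor h2]
    simp only [add_mul, smul_mul_assoc, mul_smul_comm, one_mul]
    module
  · exact Rp_zero.congr fun v => (zero_mul _).symm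

theorem Rp_GA (h2 : (2 : F) ≠ 0) (A : List ℕ) {g : Rep F} {l : (ℕ → Oc F) → Oc F} (h : Rp g l) :
    Rp (GA A g) (fun v => l v * Av v A) := by
  rcases A with _ | ⟨i, _ | ⟨j, _ | ⟨k, _ | ⟨m, A⟩⟩⟩⟩
  · exact Rp_zero.congr fun v => (mul_zero _).symm
  · exact Rp_zero.congr fun v => (mul_zero _).symm
  · intro v K
    show lift F v ((2 : F)⁻¹ • (g K * com (of F i) (of F j))) =
      tK v K • (l v * (2 : F)⁻¹ • com (v i) (v j))
    rw [map_smul, map_mul, YB_com, lift_of_apply, lift_of_apply, h v K, smul_mul_assoc,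
      mul_smul_comm, smul_comm]
  · intro v K
    show lift F v ((4 : F)⁻¹ • (g K * jor (com (of F i) (of F j)) (of F k)
      - g (k :: K) * com (of F i) (of F j))) =
      tK v K • (l v * ((4 : F)⁻¹ * tt (com (v i) (v j) * v k)) • (1 : Oc F))
    rw [map_smul, map_sub, map_mul, map_mul, YC1_jorm, YB_com, lift_of_apply, lift_of_apply,
      lift_of_apply, h v K, h v (k :: K), tK_cons, YC1_jor h2]
    simp only [mul_add, smul_mul_assoc, mul_smul_comm, mul_one]
    module
  · exact Rp_zero.congr fun v => (mul_zero _).symm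

end Pool.Agent.OBY
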