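import Pool.Agent.OB.YC1

/-!
# The reduction of words  (module YC2)

Induction on `w`. Step: `Wv v (a * b) = Wv v a * Wv v b` (`Wv_mul`) and `Wv v a = kp F a • Pv v (pl a) + Av v (al a) + l_a v` with
`l_a` represented by `RR a`. Expand the product; the representation is given by the sum in the definition of `RR (a * b)`
(`Rp_PP2`, `Rp_PA`, `Rp_AP`, `Rp_AA`, `Rp_PG`, `Rp_AG`, `Rp_GP`, `Rp_GA`, `Rp.add`, `Rp.smul`; `fun K => RR a [] * RR b K` represents `l_a l_b`), up to
the scalar parts: `Av v (al (a * b))` is the sum of the three `if` terms, because `pl_length`, lengths are positive (`flat_ne`), and: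
`(flat (a * b)).length = 2` iff both have length 1 (then `pl a = flat a`); it is 3 iff the lengths are 1, 2 or 2, 1 (`al a = flat a` for length 2,
`pl a = flat a` for length 1, and `kp = 1` for length 1); otherwise `al (a * b) = []` and all `if`s are 0 (note `(al b).length = 2` iff
`(flat b).length = 2`). Recommended: a lemma `YC2_al` with this case analysis, stated with `(flat a).length`, `(flat b).length`.
-/

set_option autoImplicit false
set_option linter.unusedSectionVars false

namespace Pool.Agent.OBY

open FreeNonUnitalNonAssocAlgebra Pool.Agent.H.MP_41922c_al Pool.Agent.Smt Pool.Agent.OB Pool.Agent.OBX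

variable {F : Type*} [Field F]

theorem YC2_pos (w : FreeMagma ℕ) : 1 ≤ (flat w).length :=
  List.length_pos_iff.2 (flat_ne w)

theorem YC2_flat (u v : FreeMagma ℕ) : flat (u * v) = flat u ++ flat v := rfl

theorem YC2_one {w : FreeMagma ℕ} (h : (flat w).length = 1) :
    pl w = flat w ∧ kp F w = 1 := by
  cases w with
  | of a => exact ⟨rfl, by unfold kp; rw [h]; norm_num⟩
  | mul u v =>
    exfalso
    have h1 : (flat u ++ flat v).length = 1 := h
    rw [List.length_append] at h1
    have h2 := YC2_pos u
    have h3 := YC2_pos v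
    omega

theorem YC2_al_pos {w : FreeMagma ℕ} (h : (flat w).length = 2 ∨ (flat w).length = 3) :
    al w = flat w := if_pos h

theorem YC2_al_neg {w : FreeMagma ℕ} (h : ¬ ((flat w).length = 2 ∨ (flat w).length = 3)) :
    al w = [] := if_neg h

theorem YC2_al_two {w : FreeMagma ℕ} (h : (al w).length = 2) : (flat w).length = 2 := by
  by_cases h1 : (flat w).length = 2 ∨ (flat w).length = 3
  · rwa [YC2_al_pos h1] at h
  · rw [YC2_al_neg h1] at h
    exact absurd h (by decide)

theorem YC2_nil (x : ℕ → Oc F) : Av x [] = 0 := rfl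

/-- the scalar parts -/
theorem YC2_al (x : ℕ → Oc F) (u v : FreeMagma ℕ) :
    Av x (al (u * v)) = (kp F u * kp F v) •
        (if (pl u).length = 1 ∧ (pl v).length = 1 then Av x (pl u ++ pl v) else 0)
      + kp F u • (if (pl u).length = 1 ∧ (al v).length = 2 then Av x (pl u ++ al v) else 0)
      + kp F v • (if (pl v).length = 1 ∧ (al u).length = 2 then Av x (al u ++ pl v) else 0) := by
  have hu := YC2_pos u
  have hv := YC2_pos v
  have hl : (flat (u * v)).length = (flat u).length + (flat v).length := by
    rw [YC2_flat, List.length_append]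
  have e1 := pl_length u
  have e2 := pl_length v
  have t1 := @YC2_al_two u
  have t2 := @YC2_al_two v
  by_cases hA : (flat u).length = 1 ∧ (flat v).length = 1
  · obtain ⟨h1, h2⟩ := hA
    obtain ⟨h3, h4⟩ := YC2_one (F := F) h1
    obtain ⟨h5, h6⟩ := YC2_one (F := F) h2
    rw [YC2_al_pos (by omega), YC2_flat, h4, h6, if_pos (by omega), if_neg (by omega),
      if_neg (by omega), h3, h5, smul_zero, add_zero, add_zero, one_mul, one_smul]
  by_cases hB : (flat u).length = 1 ∧ (flat v).length = 2
  · obtain ⟨h1, h2⟩ := hB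
    obtain ⟨h3, h4⟩ := YC2_one (F := F) h1
    have h5 : al v = flat v := YC2_al_pos (Or.inl h2)
    rw [YC2_al_pos (w := u * v) (by omega), YC2_flat, h4, if_neg (by omega), h5,
      if_pos (by omega), if_neg (by omega), h3, smul_zero, smul_zero, add_zero, zero_add,
      one_smul]
  by_cases hC : (flat u).length = 2 ∧ (flat v).length = 1
  · obtain ⟨h1, h2⟩ := hC
    obtain ⟨h3, h4⟩ := YC2_one (F := F) h2
    have h5 : al u = flat u := YC2_al_pos (Or.inl h1)
    rw [YC2_al_pos (w := u * v) (by omega), YC2_flat, h4, if_neg (by omega), h5,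
      if_neg (by omega), if_pos (by omega), h3, smul_zero, smul_zero, zero_add, zero_add,
      one_smul]
  · rw [YC2_al_neg (w := u * v) (by omega), YC2_nil, if_neg (by omega), if_neg (by omega),
      if_neg (by omega), smul_zero, smul_zero, smul_zero, add_zero, add_zero]

theorem YC2_mul {g g' : Rep F} {l l' : (ℕ → Oc F) → Oc F} (h : Rp g l) (h' : Rp g' l') :
    Rp (fun K => g [] * g' K) (fun v => l v * l' v) := by
  intro v K
  have h0 : tK v [] = 1 := rfl
  rw [map_mul, h v [], h' v K, h0, one_smul, mul_smul_comm]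

theorem YC2_ne (w : FreeMagma ℕ) : pl w ≠ [] := by
  intro h
  have h1 := pl_length w
  have h2 := YC2_pos w
  rw [h] at h1
  rw [← h1] at h2
  exact absurd h2 (by decide)

theorem Rp_RR (h2 : (2 : F) ≠ 0) (w : FreeMagma ℕ) :
    Rp (RR (F := F) w) (fun v => Wv v w - kp F w • Pv v (pl w) - Av v (al w)) := by
  induction w with
  | ih1 a =>
    intro v K
    have h1 : RR (F := F) (FreeMagma.of a) K = 0 := rfl
    have h3 : kp F (FreeMagma.of a) = 1 := (YC2_one (F := F) (w := FreeMagma.of a) rfl).2
    have h4 : Pv v (pl (FreeMagma.of a)) = (1 : F) • y0 (v a) := rfl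
    have h5 : Av v (al (FreeMagma.of a)) = 0 := rfl
    show lift F v (RR (F := F) (FreeMagma.of a) K) = OBX.tK v K • (Wv v (FreeMagma.of a)
      - kp F (FreeMagma.of a) • Pv v (pl (FreeMagma.of a)) - Av v (al (FreeMagma.of a)))
    rw [h1, map_zero, XG_of, h3, h4, h5, one_smul, one_smul, sub_self, sub_zero, smul_zero]
  | ih2 a b ha hb =>
    have hla := YC2_ne a
    have hlb := YC2_ne b
    have key := (((((((Rp_PP2 h2 hla hlb).smul (kp F a * kp F b)).add
      ((Rp_PA h2 (A := al b) hla).smul (kp F a))).add
      ((Rp_AP h2 (A := al a) hlb).smul (kp F b))).add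
      (Rp_AA h2 (al a) (al b))).add
      (((Rp_PG h2 (pl a) hb).smul (kp F a)).add (Rp_AG h2 (al a) hb))).add
      (((Rp_GP h2 (pl b) ha).smul (kp F b)).add (Rp_GA h2 (al b) ha))).add (YC2_mul ha hb)
    refine key.congr fun v => ?_
    have hpl : pl (a * b) = cmb (pl a) (pl b) := rfl
    rw [YC2_al, hpl, kp_mul h2, Wv_mul]
    generalize Wv v a = A
    generalize Wv v b = B
    generalize Pv v (pl a) = P
    generalize Pv v (pl b) = Q
    generalize Av v (al a) = C
    generalize Av v (al b) = D
    generalize kp F a = s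
    generalize kp F b = t
    generalize cc F (pl a) (pl b) = c
    generalize Pv v (cmb (pl a) (pl b)) = R
    simp only [sub_mul, mul_sub, smul_mul_assoc, mul_smul_comm, smul_sub, smul_smul]
    module

end Pool.Agent.OBY
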