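import Pool.Agent.OB.BasY
import Pool.Agent.OB.XD

/-!
# Values of the expressions of `BasY` (definitions)
-/

set_option autoImplicit false
set_option linter.unusedSectionVars false

namespace Pool.Agent.OBY

open FreeNonUnitalNonAssocAlgebra Pool.Agent.H.MP_41922c_al Pool.Agent.Smt Pool.Agent.OB Pool.Agent.OBX

variable {F : Type*} [Field F]

/-- `φ(a, b, c, d) = t((a, b, c) d)` -/
noncomputable def pf (a b c d : Oc F) : F := tt (associator a b c * d)

/-- `φ` of the letters of a list of length 4 -/
noncomputable def pL (v : ℕ → Oc F) : List ℕ → F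
  | [a, b, c, d] => pf (v a) (v b) (v c) (v d)
  | _ => 0

/-- the value of `A(w)` -/
noncomputable def Av (v : ℕ → Oc F) : List ℕ → Oc F
  | [i, j] => (2 : F)⁻¹ • com (v i) (v j)
  | [i, j, k] => ((4 : F)⁻¹ * tt (com (v i) (v j) * v k)) • (1 : Oc F)
  | _ => 0

/-- `φ` of the letters of `V` (zero unless there are 4 letters) -/
noncomputable def ph (F : Type*) [Field F] (V : Multiset ℕ) : Fn F := fun v => pL v (V.sort (· ≤ ·)) • (1 : Oc F)

end Pool.Agent.OBY
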