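import Pool.Agent.OB.YB
import Pool.Agent.OB.XE

/-!
# The arrangement P(L) and sorting  (module YE)

`Pv_pair`: induction on `X` with `Pv_even`, `Pv_odd` (XE); the pairs of `P` are aligned from the end.
`pL_perm`: prove `∀ r, ∃ c, ∀ v, pL v (r ++ L') = c * pL v (r ++ L)` by induction on the permutation (`List.Perm`): `cons`: use `r ++ [a]`;
`swap`: if the total length is 4 then `pf_12`, `pf_23`, `pf_34` (`c = -1`), otherwise both sides are 0; `trans`: product.
`Rp_Ad`: if `Even suf.length` then `(i, j)` is a pair: `Pv_pair` and `qf_comm` (`c = 0`). Otherwise `suf = d :: M`, `Even M.length`: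
`r = []`: `Pv v (i :: j :: d :: M) = (qf j d * qP v M) • y0 i` and `M` is not empty (`hn`): `Rp_QP`, `Rp_E5`, `c = 0`.
`r = a :: r'`: by `Pv_pair` twice `Pv v (r'.reverse ++ a :: i :: j :: d :: M) = (qf a i * qf j d) • Pv v (r'.reverse ++ M)`. If
`r'.reverse ++ M = []`: `Rp_G4`, `c = 1` (then the list is `[a, i, j, d]`). Otherwise `Rp_G5`, `Rp_QP`, `Rp_yj` (`jor (y0 f) (y0 e) = qf f e • 1`),
`c = 0` (`pL` may be anything).
`Rp_INS`: induction on `L` (with `r` general), `(j :: r).reverse ++ M = r.reverse ++ j :: M`, `pL_perm` for the swap of `i, j`.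
`Rp_SRT`: induction on `L` (with `r` general), `Rp_INS`, `pL_perm`.
-/

set_option autoImplicit false
set_option linter.unusedSectionVars false

namespace Pool.Agent.OBY

open FreeNonUnitalNonAssocAlgebra Pool.Agent.H.MP_41922c_al Pool.Agent.Smt Pool.Agent.OB Pool.Agent.OBX

variable {F : Type*} [Field F]

theorem YE_cons_even (v : ℕ → Oc F) (a : ℕ) {M : List ℕ} (h : Even M.length) :
    Pv v (a :: M) = qP v M • y0 (v a) := if_pos h

theorem YE_cons_odd (v : ℕ → Oc F) (a : ℕ) {M : List ℕ} (h : ¬ Even M.length) :
    Pv v (a :: M) = qP v (a :: M) • (1 : Oc F) := if_neg h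

theorem YE_jor_smul (a b : Oc F) (c : F) : jor a (c • b) = c • jor a b := by
  unfold jor
  rw [mul_smul_comm, smul_mul_assoc, smul_add]

theorem YE_even (v : ℕ → Oc F) {Y : List ℕ} (hY : Even Y.length) :
    Pv v Y = qP v Y • (1 : Oc F) := by
  rcases Y with _ | ⟨c, M⟩
  · exact (one_smul F (1 : Oc F)).symm
  · have h : ¬ Even M.length := by
      rw [List.length_cons, Nat.even_add_one] at hY
      exact hY
    exact YE_cons_odd v c h

theorem Pv_pair (h2 : (2 : F) ≠ 0) (v : ℕ → Oc F) (X : List ℕ) (a b : ℕ) {Y : List ℕ} (hY : Even Y.length) :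
    Pv v (X ++ a :: b :: Y) = qf (v a) (v b) • Pv v (X ++ Y) := by
  induction X with
  | nil =>
    have h : ¬ Even (b :: Y).length := by
      rw [List.length_cons, Nat.even_add_one, not_not]
      exact hY
    rw [List.nil_append, List.nil_append, YE_cons_odd v a h, YE_even v hY, smul_smul]
    rfl
  | cons x X ih =>
    rw [List.cons_append, List.cons_append]
    have hl : (X ++ a :: b :: Y).length = (X ++ Y).length + 2 := by
      rw [List.length_append, List.length_append, List.length_cons, List.length_cons]
      omega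
    by_cases h : Even (X ++ Y).length
    · have h' : Even (X ++ a :: b :: Y).length := by
        rw [hl]
        exact h.add (by decide)
      rw [Pv_even v x h, Pv_even v x h', ih, mul_smul_comm]
    · have ho := Nat.not_even_iff_odd.1 h
      have h' : Odd (X ++ a :: b :: Y).length := by
        rw [hl]
        exact ho.add_even (by decide)
      rw [Pv_odd h2 v x ho, Pv_odd h2 v x h', ih, YE_jor_smul]

theorem YE_pL_ne (v : ℕ → Oc F) {L : List ℕ} (h : L.length ≠ 4) : pL v L = 0 := by
  rcases L with _ | ⟨a, _ | ⟨b, _ | ⟨c, _ | ⟨d, _ | ⟨e, L⟩⟩⟩⟩⟩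
  · rfl
  · rfl
  · rfl
  · rfl
  · exact absurd rfl h
  · rfl

theorem YE_swap (r l : List ℕ) (x y : ℕ) (v : ℕ → Oc F) :
    pL v (r ++ x :: y :: l) = -1 * pL v (r ++ y :: x :: l) := by
  by_cases h : (r ++ x :: y :: l).length = 4
  · rw [List.length_append, List.length_cons, List.length_cons] at h
    rcases r with _ | ⟨a, _ | ⟨b, _ | ⟨c, r⟩⟩⟩
    · rcases l with _ | ⟨c, _ | ⟨d, _ | ⟨e, l⟩⟩⟩
      · simp at h
      · simp at h
      · show pf (v x) (v y) (v c) (v d) = -1 * pf (v y) (v x) (v c) (v d)
        rw [pf_12, neg_one_mul]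
      · simp at h
    · rcases l with _ | ⟨c, _ | ⟨d, l⟩⟩
      · simp at h
      · show pf (v a) (v x) (v y) (v c) = -1 * pf (v a) (v y) (v x) (v c)
        rw [pf_23, neg_one_mul]
      · simp at h
        omega
    · rcases l with _ | ⟨c, l⟩
      · show pf (v a) (v b) (v x) (v y) = -1 * pf (v a) (v b) (v y) (v x)
        rw [pf_34, neg_one_mul]
      · simp at h
        omega
    · simp at h
      omega
  · have h' : (r ++ y :: x :: l).length ≠ 4 := by
      rw [List.length_append, List.length_cons, List.length_cons] at h ⊢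
      exact h
    rw [YE_pL_ne v h, YE_pL_ne v h', mul_zero]

theorem YE_perm {L L' : List ℕ} (h : L.Perm L') :
    ∀ r : List ℕ, ∃ c : F, ∀ v : ℕ → Oc F, pL v (r ++ L') = c * pL v (r ++ L) := by
  induction h with
  | nil => exact fun r => ⟨1, fun v => (one_mul _).symm⟩
  | cons a _ ih =>
    intro r
    obtain ⟨c, hc⟩ := ih (r ++ [a])
    refine ⟨c, fun v => ?_⟩
    have h3 := hc v
    rw [List.append_assoc, List.append_assoc] at h3
    exact h3
  | swap x y l => exact fun r => ⟨-1, fun v => YE_swap r l x y v⟩
  | trans _ _ ih1 ih2 =>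
    intro r
    obtain ⟨c, hc⟩ := ih1 r
    obtain ⟨d, hd⟩ := ih2 r
    exact ⟨d * c, fun v => by rw [hd v, hc v, mul_assoc]⟩

theorem pL_perm {L L' : List ℕ} (h : L.Perm L') : ∃ c : F, ∀ v : ℕ → Oc F, pL v L' = c * pL v L := by
  exact YE_perm h []

theorem YE_rev (a : ℕ) (r L : List ℕ) : (a :: r).reverse ++ L = r.reverse ++ a :: L := by
  rw [List.reverse_cons, List.append_assoc, List.singleton_append]

theorem Rp_Ad (h2 : (2 : F) ≠ 0) (r : List ℕ) (i j : ℕ) (suf : List ℕ) (hn : 2 ≤ r.length + suf.length) :
    ∃ c : F, ((3 : F) ≠ 0 → c = 0) ∧ Rp (Ad (F := F) r i j suf) (fun v => Pv v (r.reverse ++ i :: j :: suf)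
      - Pv v (r.reverse ++ j :: i :: suf) - (c * pL v (r.reverse ++ i :: j :: suf)) • (1 : Oc F)) := by
  by_cases hs : Even suf.length
  · have e1 : Ad (F := F) r i j suf = 0 := by
      unfold Ad
      rw [if_pos hs]
    rw [e1]
    refine ⟨0, fun _ => rfl, Rp_zero.congr fun v => ?_⟩
    rw [Pv_pair h2 v _ i j hs, Pv_pair h2 v _ j i hs, qf_comm, sub_self, zero_mul, zero_smul, sub_zero]
  · rcases suf with _ | ⟨d, M⟩
    · exact absurd (by decide) hs
    · have hM : Even M.length := by
        rw [List.length_cons, Nat.even_add_one, not_not] at hs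
        exact hs
      rcases r with _ | ⟨a, r'⟩
      · rcases M with _ | ⟨b, M⟩
        · simp at hn
        · rcases M with _ | ⟨c, M⟩
          · rw [List.length_singleton] at hM
            exact absurd hM (by decide)
          · have e1 : Ad (F := F) [] i j (d :: b :: c :: M) = QP M (E5 b c d j i) := by
              unfold Ad
              rw [if_neg hs]
            rw [e1]
            refine ⟨0, fun _ => rfl, (Rp_QP h2 M (Rp_E5 h2 b c d j i)).congr fun v => ?_⟩
            have he : ∀ l : ℕ, Even (l :: d :: b :: c :: M).length := by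
              intro l
              rw [List.length_cons, List.length_cons]
              exact hM.add_one.add_one
            have f1 : Pv v ([].reverse ++ i :: j :: d :: b :: c :: M)
                = (qf (v j) (v d) * (qf (v b) (v c) * qP v M)) • y0 (v i) :=
              YE_cons_even v i (he j)
            have f2 : Pv v ([].reverse ++ j :: i :: d :: b :: c :: M)
                = (qf (v i) (v d) * (qf (v b) (v c) * qP v M)) • y0 (v j) :=
              YE_cons_even v j (he i)
            rw [f1, f2, qf_comm (v j) (v d), qf_comm (v i) (v d), zero_mul, zero_smul, sub_zero]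
            module
      · have hM2 : ∀ k : ℕ, Even (k :: d :: M).length := by
          intro k
          rw [List.length_cons, List.length_cons]
          exact hM.add_one.add_one
        have f1 : ∀ v : ℕ → Oc F, Pv v ((a :: r').reverse ++ i :: j :: d :: M)
            = (qf (v a) (v i) * qf (v j) (v d)) • Pv v (r'.reverse ++ M) := by
          intro v
          rw [YE_rev, Pv_pair h2 v _ a i (hM2 j), Pv_pair h2 v _ j d hM, smul_smul]
        have f2 : ∀ v : ℕ → Oc F, Pv v ((a :: r').reverse ++ j :: i :: d :: M)
            = (qf (v a) (v j) * qf (v i) (v d)) • Pv v (r'.reverse ++ M) := by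
          intro v
          rw [YE_rev, Pv_pair h2 v _ a j (hM2 i), Pv_pair h2 v _ i d hM, smul_smul]
        rcases hR : r'.reverse ++ M with _ | ⟨e, R⟩
        · have e1 : Ad (F := F) (a :: r') i j (d :: M)
              = G4 d a i j := by
            unfold Ad
            rw [if_neg hs]
            simp only [hR]
          rw [e1]
          obtain ⟨c, c0, hG⟩ := Rp_G4' (F := F) h2 d a i j
          refine ⟨c, c0, hG.congr fun v => ?_⟩
          have hR' := hR
          rw [List.append_eq_nil_iff] at hR'
          have e2 : (a :: r').reverse ++ i :: j :: d :: M = [a, i, j, d] := by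
            rw [YE_rev, hR'.1, hR'.2]
            rfl
          rw [f1 v, f2 v, hR, e2]
          show _ = (qf (v a) (v i) * qf (v j) (v d)) • (1 : Oc F)
            - (qf (v a) (v j) * qf (v i) (v d)) • (1 : Oc F)
            - (c * pf (v a) (v i) (v j) (v d)) • (1 : Oc F)
          module
        · by_cases hE : Even R.length
          · have e1 : Ad (F := F) (a :: r') i j (d :: M) = QP R (G5 e d a i j) := by
              unfold Ad
              rw [if_neg hs]
              simp only [hR]
              rw [if_pos hE]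
            rw [e1]
            refine ⟨0, fun _ => rfl, (Rp_QP h2 R (Rp_G5 h2 e d a i j)).congr fun v => ?_⟩
            rw [f1 v, f2 v, hR, YE_cons_even v e hE, zero_mul, zero_smul, sub_zero]
            module
          · rcases R with _ | ⟨f, R'⟩
            · exact absurd (by decide) hE
            · have e1 : Ad (F := F) (a :: r') i j (d :: M) = QP R' (yj f (G5 e d a i j)) := by
                unfold Ad
                rw [if_neg hs]
                simp only [hR]
                rw [if_neg hE]
              rw [e1]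
              refine ⟨0, fun _ => rfl, (Rp_QP h2 R' (Rp_yj h2 f (Rp_G5 h2 e d a i j))).congr fun v => ?_⟩
              have f3 : Pv v (e :: f :: R') = (qf (v e) (v f) * qP v R') • (1 : Oc F) :=
                YE_cons_odd v e hE
              rw [f1 v, f2 v, hR, f3, zero_mul, zero_smul, sub_zero, YE_jor_smul, jor_y0 h2,
                qf_comm (v f) (v e)]
              module

theorem Rp_INS (h2 : (2 : F) ≠ 0) (L : List ℕ) (r : List ℕ) (i : ℕ) (hn : 3 ≤ r.length + L.length) :
    ∃ c : F, ((3 : F) ≠ 0 → c = 0) ∧ Rp (INS (F := F) r i L) (fun v => Pv v (r.reverse ++ i :: L)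
      - Pv v (r.reverse ++ L.orderedInsert (· ≤ ·) i) - (c * pL v (r.reverse ++ i :: L)) • (1 : Oc F)) := by
  induction L generalizing r with
  | nil =>
    refine ⟨0, fun _ => rfl, Rp_zero.congr fun v => ?_⟩
    have e1 : ([] : List ℕ).orderedInsert (· ≤ ·) i = [i] := rfl
    rw [e1, zero_mul, zero_smul, sub_zero, sub_self]
  | cons j L ih =>
    by_cases hij : i ≤ j
    · have e1 : INS (F := F) r i (j :: L) = 0 := by
        unfold INS
        rw [if_pos hij]
      have e2 : (j :: L).orderedInsert (· ≤ ·) i = i :: j :: L := by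
        show (if i ≤ j then i :: j :: L else j :: L.orderedInsert (· ≤ ·) i) = _
        rw [if_pos hij]
      rw [e1, e2]
      refine ⟨0, fun _ => rfl, Rp_zero.congr fun v => ?_⟩
      rw [zero_mul, zero_smul, sub_zero, sub_self]
    · have e1 : INS (F := F) r i (j :: L) = Ad r i j L + INS (j :: r) i L := by
        conv_lhs => unfold INS
        rw [if_neg hij]
      have e2 : (j :: L).orderedInsert (· ≤ ·) i = j :: L.orderedInsert (· ≤ ·) i := by
        show (if i ≤ j then i :: j :: L else j :: L.orderedInsert (· ≤ ·) i) = _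
        rw [if_neg hij]
      rw [e1, e2]
      rw [List.length_cons] at hn
      obtain ⟨c1, z1, h1⟩ := Rp_Ad h2 r i j L (by omega)
      obtain ⟨c2, z2, h3⟩ := ih (j :: r) (by rw [List.length_cons]; omega)
      refine ⟨c1 + c2 * (-1), fun h => by rw [z1 h, z2 h, zero_mul, add_zero],
        (h1.add h3).congr fun v => ?_⟩
      rw [YE_rev, YE_rev, YE_swap r.reverse L j i v]
      module

theorem Rp_SRT (h2 : (2 : F) ≠ 0) (L : List ℕ) (r : List ℕ) (hn : 4 ≤ r.length + L.length) :
    ∃ c : F, ((3 : F) ≠ 0 → c = 0) ∧ Rp (SRT (F := F) r L) (fun v => Pv v (r.reverse ++ L)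
      - Pv v (r.reverse ++ L.insertionSort (· ≤ ·)) - (c * pL v (r.reverse ++ L)) • (1 : Oc F)) := by
  induction L generalizing r with
  | nil =>
    refine ⟨0, fun _ => rfl, Rp_zero.congr fun v => ?_⟩
    have e1 : ([] : List ℕ).insertionSort (· ≤ ·) = [] := rfl
    rw [e1, zero_mul, zero_smul, sub_zero, sub_self]
  | cons i L ih =>
    have e1 : (i :: L).insertionSort (· ≤ ·) =
        (L.insertionSort (· ≤ ·)).orderedInsert (· ≤ ·) i := rfl
    have hlen : (L.insertionSort (· ≤ ·)).length = L.length := List.length_insertionSort _ _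
    have e2 : SRT (F := F) r (i :: L) = SRT (i :: r) L + INS r i (L.insertionSort (· ≤ ·)) := rfl
    rw [e1, e2]
    rw [List.length_cons] at hn
    obtain ⟨c1, z1, h1⟩ := ih (i :: r) (by rw [List.length_cons]; omega)
    obtain ⟨c2, z2, h3⟩ := Rp_INS h2 (L.insertionSort (· ≤ ·)) r i (by rw [hlen]; omega)
    have hp : (r.reverse ++ i :: L).Perm (r.reverse ++ i :: L.insertionSort (· ≤ ·)) :=
      ((List.perm_insertionSort (· ≤ ·) L).symm.cons i).append_left _
    obtain ⟨c3, h4⟩ := pL_perm (F := F) hp
    refine ⟨c1 + c2 * c3, fun h => by rw [z1 h, z2 h, zero_mul, add_zero],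
      (h1.add h3).congr fun v => ?_⟩
    rw [YE_rev, YE_rev, h4 v]
    module

end Pool.Agent.OBY
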