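import Pool.Agent.OB.YC2
import Pool.Agent.OB.YE
import Pool.Agent.OB.XI

/-!
# The values of `Phi3`  (module YF)

`Phi3_word`: as `Phi_word` in XI: `Rp_RR`, `Rp_SRT` with `r = []`, at `K = []`; `al w = []` since the length is `≥ 4`; `kp F w = 2⁻¹ ^ (V.card / 2)`;
`(pl w).insertionSort = V.sort` (`pl_perm`, see `XI_sort` in XI, private: copy it); `pL v (pl w) = c * pL v (V.sort)` by `pL_perm`.
`Phi3_ev`: `PP_induction` as `Phi_ev` in XI; the constants add up.
-/

set_option autoImplicit false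
set_option linter.unusedSectionVars false

namespace Pool.Agent.OBY

open FreeNonUnitalNonAssocAlgebra Pool.Agent.H.MP_41922c_al Pool.Agent.Smt Pool.Agent.OB Pool.Agent.OBX

variable {F : Type*} [Field F]

theorem YF_sort (L : List ℕ) : L.insertionSort (· ≤ ·) = (L : Multiset ℕ).sort (· ≤ ·) := by
  refine List.Perm.eq_of_pairwise' (List.pairwise_insertionSort _ L) (Multiset.pairwise_sort _ _) ?_
  have h1 : (((L : Multiset ℕ).sort (· ≤ ·) : List ℕ) : Multiset ℕ) = (L : Multiset ℕ) :=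
    Multiset.sort_eq _ _
  exact (List.perm_insertionSort _ L).trans (Multiset.coe_eq_coe.1 h1).symm

theorem Phi3_word (h2 : (2 : F) ≠ 0) {V : Multiset ℕ} (hc : 4 ≤ V.card) {w : FreeMagma ℕ}
    (hw : lets id w = V) :
    ∃ c : F, ((3 : F) ≠ 0 → c = 0) ∧ ev F (Phi3 F (mo F w)) = evw F (mo F w) - rf V - c • ph F V := by
  have h0 : (flat w : Multiset ℕ) = V := (flat_coe w).trans hw
  have hlen : (flat w).length = V.card := by
    rw [← h0]
    rfl
  have hpl : ((pl w : List ℕ) : Multiset ℕ) = V := by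
    rw [← h0]
    exact Multiset.coe_eq_coe.2 (pl_perm w)
  have hsort : (pl w).insertionSort (· ≤ ·) = V.sort (· ≤ ·) := by
    rw [← hpl]
    exact YF_sort (pl w)
  have hal : al w = [] := by
    unfold al
    rw [if_neg]
    omega
  have hperm : (V.sort (· ≤ ·)).Perm (pl w) := by
    rw [← hsort]
    exact List.perm_insertionSort _ _
  obtain ⟨c', hc'⟩ := pL_perm (F := F) hperm
  have hl4 : 4 ≤ ([] : List ℕ).length + (pl w).length := by
    rw [pl_length, hlen]
    simpa using hc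
  obtain ⟨c, hc3, hc2⟩ := Rp_SRT h2 (pl w) [] hl4
  refine ⟨kp F w * (c * c'), fun h => by rw [hc3 h, zero_mul, mul_zero], ?_⟩
  funext v
  rw [ev_eq_lift]
  have hP : Phi3 F (mo F w) = RR w [] + kp F w • SRT [] (pl w) [] := linMo_mo _ w
  have e1 : lift F v (RR w []) = Wv v w - kp F w • Pv v (pl w) - Av v (al w) := by
    have h := Rp_RR h2 w v []
    rwa [tK_nil, one_smul] at h
  have e2 : lift F v (SRT [] (pl w) []) = Pv v (pl w) - Pv v ((pl w).insertionSort (· ≤ ·))
      - (c * pL v (pl w)) • (1 : Oc F) := by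
    have h := hc2 v []
    rwa [tK_nil, one_smul] at h
  have hk : kp F w = ((2 : F)⁻¹) ^ (V.card / 2) := by
    unfold kp
    rw [hlen]
  have hA : Av v ([] : List ℕ) = 0 := rfl
  rw [hal, hA, sub_zero] at e1
  rw [hsort, hc' v] at e2
  rw [hP, map_add, map_smul, e1, e2, Pi.sub_apply, Pi.sub_apply, Wv_evw h2]
  have hr : rf V v = kp F w • Pv v (V.sort (· ≤ ·)) := by
    rw [hk]
    rfl
  have hp : ((kp F w * (c * c')) • ph F V) v =
      kp F w • ((c * (c' * pL v (V.sort (· ≤ ·)))) • (1 : Oc F)) := by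
    show (kp F w * (c * c')) • (pL v (V.sort (· ≤ ·)) • (1 : Oc F)) = _
    rw [smul_smul, smul_smul]
    congr 1
    ring
  rw [hr, hp, smul_sub, smul_sub]
  abel

theorem Phi3_ev (h2 : (2 : F) ≠ 0) {V : Multiset ℕ} (hc : 4 ≤ V.card) {f : FA F} (hf : f ∈ P F V) :
    ∃ c : F, ((3 : F) ≠ 0 → c = 0) ∧ ev F (Phi3 F f) = evw F f - sg F (evw F f) • rf V - c • ph F V := by
  refine PP_induction id
    (p := fun f => ∃ c : F, ((3 : F) ≠ 0 → c = 0) ∧
      ev F (Phi3 F f) = evw F f - sg F (evw F f) • rf V - c • ph F V)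
    ?_ ?_ ?_ ?_ hf
  · refine ⟨0, fun _ => rfl, ?_⟩
    simp only [map_zero]
    rw [zero_smul, zero_smul, sub_zero, sub_zero]
  · rintro f g ⟨c, hc0, hf⟩ ⟨d, hd0, hg⟩
    refine ⟨c + d, fun h => by rw [hc0 h, hd0 h, add_zero], ?_⟩
    rw [map_add (Phi3 F), map_add (ev F), hf, hg, map_add (evw F), map_add (sg F), add_smul,
      add_smul]
    abel
  · rintro k f ⟨c, hc0, hf⟩
    refine ⟨k * c, fun h => by rw [hc0 h, mul_zero], ?_⟩
    rw [map_smul (Phi3 F), map_smul (ev F), hf, map_smul (evw F), map_smul (sg F), smul_sub,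
      smul_sub, smul_assoc, mul_smul]
  · intro w hw
    obtain ⟨c, hc0, hc'⟩ := Phi3_word h2 hc hw
    exact ⟨c, hc0, by rw [hc', sg_mo h2, one_smul]⟩

end Pool.Agent.OBY
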