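import Pool.Agent.OB.YF
import Pool.Agent.OB.Y4r
import Pool.Agent.OB.SwapW

/-!
# Elements of the kernel of a renaming, characteristic 3  (module YL)

The same as SwapW, with differences `evw w - evw w' - c • ph F V`. `lift3`: `Phi3_word` for `w` and `w'`, then `ev_comp`
(the right hand side is in `AF F V`: `ph_mem`, `evw_mem`, `WW_le_AF`). `ph_swap`: `φ` is alternating.
Then copy `swap_one`, `SwapW_chain`, `swap_chain`, `swapW` from SwapW: everywhere `ev F h = evw F (mo F w) - evw F (mo F w') - c • ph F V` with some `c`.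
`swap_one`: `ev (ren s h) = - ev h` as before, because `ph` changes its sign under a transposition (`i ≠ j`; for `i = j` the hypothesis says
`ev h = - c • ph`, see next). Whenever two such `h`, `h'` with the same words are compared: `ev (h - h') = c'' • ph F V`, which is 0 by `Y4_real`.
-/

set_option autoImplicit false
set_option linter.unusedSectionVars false

namespace Pool.Agent.OBY

open FreeNonUnitalNonAssocAlgebra Pool.Agent.H.MP_41922c_al Pool.Agent.Smt Pool.Agent.OB Pool.Agent.OBX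

variable {F : Type*} [Field F]

theorem lift3 [Infinite F] (h2 : (2 : F) ≠ 0) {V : Multiset ℕ} (hc : 4 ≤ V.card) {w w' : FreeMagma ℕ}
    (hw : lets id w = V) (hw' : lets id w' = V) :
    ∃ h ∈ P F V, ∃ c : F, ev F h = evw F (mo F w) - evw F (mo F w') - c • ph F V := by
  obtain ⟨c, -, e⟩ := Phi3_word (F := F) h2 hc hw
  obtain ⟨c', -, e'⟩ := Phi3_word (F := F) h2 hc hw'
  have ha : evw F (mo F w) - evw F (mo F w') - (c - c') • ph F V ∈ AF F V := by
    refine Submodule.sub_mem _ (Submodule.sub_mem _ ?_ ?_) (Submodule.smul_mem _ _ (ph_mem V))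
    · exact WW_le_AF V (evw_mem (by rw [← hw]; exact mo_mem id w))
    · exact WW_le_AF V (evw_mem (by rw [← hw']; exact mo_mem id w'))
  refine ⟨comp F id V (Phi3 F (mo F w) - Phi3 F (mo F w')), comp_mem id V _, c - c', ev_comp ha ?_⟩
  rw [map_sub, e, e', sub_smul]
  abel

theorem YL_13 (a b c d : Oc F) : pf c b a d = -pf a b c d := by
  rw [pf_12 b c a d, pf_23 b a c d, pf_12 a b c d, neg_neg]

theorem YL_24 (a b c d : Oc F) : pf a d c b = -pf a b c d := by
  rw [pf_23 a c d b, pf_34 a c b d, pf_23 a b c d, neg_neg]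

theorem YL_14 (a b c d : Oc F) : pf d b c a = -pf a b c d := by
  rw [pf_12 b d c a, YL_24 b a c d, pf_12 a b c d, neg_neg]

theorem YL_pL {L : List ℕ} (hL : L.Nodup) {i j : ℕ} (hi : i ∈ L) (hj : j ∈ L) (hij : i ≠ j)
    (v : ℕ → Oc F) : pL (fun k => v (Equiv.swap i j k)) L = -pL v L := by
  rcases L with _ | ⟨a, _ | ⟨b, _ | ⟨c, _ | ⟨d, _ | ⟨e, L⟩⟩⟩⟩⟩
  · exact neg_zero.symm
  · exact neg_zero.symm
  · exact neg_zero.symm
  · exact neg_zero.symm
  · show pf (v (Equiv.swap i j a)) (v (Equiv.swap i j b)) (v (Equiv.swap i j c))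
      (v (Equiv.swap i j d)) = -pf (v a) (v b) (v c) (v d)
    simp only [List.nodup_cons, List.mem_cons, List.not_mem_nil, or_false, not_or,
      List.nodup_nil, and_true, not_false_eq_true] at hL
    obtain ⟨⟨hab, hac, had⟩, ⟨hbc, hbd⟩, hcd⟩ := hL
    simp only [List.mem_cons, List.not_mem_nil, or_false] at hi hj
    have s1 : ∀ x y z : ℕ, z ≠ x → z ≠ y → Equiv.swap x y z = z := fun x y z h1 h4 =>
      Equiv.swap_apply_of_ne_of_ne h1 h4
    rcases hi with rfl | rfl | rfl | rfl <;> rcases hj with rfl | rfl | rfl | rfl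
    · exact absurd rfl hij
    · rw [Equiv.swap_apply_left, Equiv.swap_apply_right, s1 _ _ c (Ne.symm hac) (Ne.symm hbc),
        s1 _ _ d (Ne.symm had) (Ne.symm hbd), pf_12]
    · rw [Equiv.swap_apply_left, Equiv.swap_apply_right, s1 _ _ b (Ne.symm hab) hbc,
        s1 _ _ d (Ne.symm had) (Ne.symm hcd), YL_13]
    · rw [Equiv.swap_apply_left, Equiv.swap_apply_right, s1 _ _ b (Ne.symm hab) hbd,
        s1 _ _ c (Ne.symm hac) hcd, YL_14]
    · rw [Equiv.swap_apply_left, Equiv.swap_apply_right, s1 _ _ c (Ne.symm hbc) (Ne.symm hac),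
        s1 _ _ d (Ne.symm hbd) (Ne.symm had), pf_12]
    · exact absurd rfl hij
    · rw [Equiv.swap_apply_left, Equiv.swap_apply_right, s1 _ _ a hab hac,
        s1 _ _ d (Ne.symm hbd) (Ne.symm hcd), pf_23]
    · rw [Equiv.swap_apply_left, Equiv.swap_apply_right, s1 _ _ a hab had,
        s1 _ _ c (Ne.symm hbc) hcd, YL_24]
    · rw [Equiv.swap_apply_left, Equiv.swap_apply_right, s1 _ _ b hbc (Ne.symm hab),
        s1 _ _ d (Ne.symm hcd) (Ne.symm had), YL_13]
    · rw [Equiv.swap_apply_left, Equiv.swap_apply_right, s1 _ _ a hac hab,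
        s1 _ _ d (Ne.symm hcd) (Ne.symm hbd), pf_23]
    · exact absurd rfl hij
    · rw [Equiv.swap_apply_left, Equiv.swap_apply_right, s1 _ _ a hac had,
        s1 _ _ b hbc hbd, pf_34]
    · rw [Equiv.swap_apply_left, Equiv.swap_apply_right, s1 _ _ b hbd (Ne.symm hab),
        s1 _ _ c hcd (Ne.symm hac), YL_14]
    · rw [Equiv.swap_apply_left, Equiv.swap_apply_right, s1 _ _ a had hab,
        s1 _ _ c hcd (Ne.symm hbc), YL_24]
    · rw [Equiv.swap_apply_left, Equiv.swap_apply_right, s1 _ _ a had hac,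
        s1 _ _ b hbd hbc, pf_34]
    · exact absurd rfl hij
  · exact neg_zero.symm

theorem ph_swap {V : Multiset ℕ} (hV : V.Nodup) {i j : ℕ} (hi : i ∈ V) (hj : j ∈ V) (hij : i ≠ j) :
    sb (fun k => XX F (Equiv.swap i j k)) (ph F V) = -ph F V := by
  funext v
  have hn : (V.sort (· ≤ ·)).Nodup := by
    rw [← Multiset.coe_nodup, Multiset.sort_eq]
    exact hV
  show pL (fun k => v (Equiv.swap i j k)) (V.sort (· ≤ ·)) • (1 : Oc F) =
    -(pL v (V.sort (· ≤ ·)) • (1 : Oc F))
  rw [YL_pL hn ((Multiset.mem_sort _).2 hi) ((Multiset.mem_sort _).2 hj) hij v, neg_smul]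

section chain

variable {R : Type*} [NonUnitalNonAssocRing R] [Module F R] [IsScalarTower F R R]
  [SMulCommClass F R R]

/-- multilinear polynomials with values `c • ph` become zero -/
theorem YL_zero [Infinite F] (h3 : (3 : F) = 0) (hR : ∀ d, Sat F d R) (π : FA F →ₙₐ[F] R)
    {V : Multiset ℕ} (hV : V.Nodup) (ρ : ℕ → ℕ) {h : FA F} (hh : h ∈ P F V) {c : F}
    (eh : ev F h = c • ph F V) : π (ren F ρ h) = 0 :=
  SwapW_zero hR π hV ρ hh (by rw [eh]; exact Y4_real h3 hV eh)

theorem YL_one [Infinite F] (h2 : (2 : F) ≠ 0) (h3 : (3 : F) = 0) (hR : ∀ d, Sat F d R)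
    (π : FA F →ₙₐ[F] R) {V : Multiset ℕ} (hV : V.Nodup) {ρ : ℕ → ℕ} {i j : ℕ} (hi : i ∈ V)
    (hj : j ∈ V) (e : ρ i = ρ j) {w : FreeMagma ℕ} {h : FA F} (hh : h ∈ P F V) {c : F}
    (eh : ev F h = evw F (mo F w) - evw F (mo F (FreeMagma.map (Equiv.swap i j) w))
      - c • ph F V) : π (ren F ρ h) = 0 := by
  have e0 : FreeMagma.map (fun x => Equiv.swap i j (Equiv.swap i j x)) w = w := by
    have e3 : (fun x => Equiv.swap i j (Equiv.swap i j x)) = fun x : ℕ => x :=
      funext fun x => Equiv.swap_apply_self _ _ _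
    rw [e3, SwapW_map_id]
  by_cases hij : i = j
  · subst hij
    have e4 : FreeMagma.map (Equiv.swap i i) w = w := by
      have e5 : FreeMagma.map (Equiv.swap i i) w = FreeMagma.map (fun x => x) w :=
        SwapW_map_congr fun x _ => by rw [Equiv.swap_self]; rfl
      rw [e5, SwapW_map_id]
    refine YL_zero h3 hR π hV ρ hh (c := -c) ?_
    rw [eh, e4, sub_self, zero_sub, neg_smul]
  · have e1 : ev F (ren F (Equiv.swap i j) h) = - ev F h := by
      rw [ev_ren, eh, map_sub, map_sub, map_smul, ph_swap hV hi hj hij, ← evw_ren, ← evw_ren,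
        ren_mo, ren_mo, SwapW_map_map, e0, smul_neg]
      abel
    have e2 : ren F (Equiv.swap i j) h ∈ P F V := by
      have h1 := ren_mem (ρ := Equiv.swap i j) hh
      rwa [SwapW_swap hV hi hj] at h1
    have e3 : ρ ∘ (Equiv.swap i j) = ρ := by
      funext x
      rw [Function.comp_apply]
      by_cases h1 : x = i
      · rw [h1, Equiv.swap_apply_left, e]
      · by_cases h4 : x = j
        · rw [h4, Equiv.swap_apply_right, e]
        · rw [Equiv.swap_apply_of_ne_of_ne h1 h4]
    have e4 := SwapW_zero hR π hV ρ (add_mem hh e2) (by rw [map_add, e1, add_neg_cancel])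
    rw [map_add, map_add, ren_ren, e3, ← two_smul F] at e4
    exact (smul_eq_zero.1 e4).resolve_left h2

theorem YL_chain [Infinite F] (h2 : (2 : F) ≠ 0) (h3 : (3 : F) = 0) (hR : ∀ d, Sat F d R)
    (π : FA F →ₙₐ[F] R) {V : Multiset ℕ} (hV : V.Nodup) (hc : 4 ≤ V.card) {ρ : ℕ → ℕ}
    {w : FreeMagma ℕ} (hw : lets id w = V) (N : ℕ) : ∀ (f : ℕ → ℕ) (w' : FreeMagma ℕ),
    (V.toFinset.filter fun x => f x ≠ x).card ≤ N → FreeMagma.map f w = w' → lets id w' = V →
    (∀ x ∈ V, ρ (f x) = ρ x) → ∀ h ∈ P F V, ∀ c : F,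
    ev F h = evw F (mo F w) - evw F (mo F w') - c • ph F V → π (ren F ρ h) = 0 := by
  induction N with
  | zero =>
    intro f w' hN hf hw' _ h hh c eh
    have h1 : ∀ x ∈ V, f x = x := by
      intro x hx
      by_contra hne
      have h4 : x ∈ V.toFinset.filter fun x => f x ≠ x :=
        Finset.mem_filter.2 ⟨Multiset.mem_toFinset.2 hx, hne⟩
      rw [Finset.card_eq_zero.1 (Nat.le_zero.1 hN)] at h4
      exact absurd h4 (Finset.notMem_empty x)
    have h4 : w' = w := by
      rw [← hf]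
      have h5 : FreeMagma.map f w = FreeMagma.map (fun x => x) w :=
        SwapW_map_congr fun x hx => h1 x (by rw [← hw]; exact hx)
      rw [h5, SwapW_map_id]
    refine YL_zero h3 hR π hV ρ hh (c := -c) ?_
    rw [eh, h4, sub_self, zero_sub, neg_smul]
  | succ N ih =>
    intro f w' hN hf hw' hρ h hh c eh
    by_cases hall : ∀ x ∈ V, f x = x
    · refine ih f w' ?_ hf hw' hρ h hh c eh
      have h4 : (V.toFinset.filter fun x => f x ≠ x) = ∅ := by
        refine Finset.filter_eq_empty_iff.2 fun x hx => ?_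
        rw [not_not]
        exact hall x (Multiset.mem_toFinset.1 hx)
      rw [h4, Finset.card_empty]
      exact Nat.zero_le N
    · push Not at hall
      obtain ⟨x, hx, hfx⟩ := hall
      have hVf : V.map f = V := by
        have h4 := SwapW_lets_map f w
        rw [hf, hw', hw] at h4
        exact h4.symm
      have hfxV : f x ∈ V := by
        have h4 := Multiset.mem_map_of_mem f hx
        rwa [hVf] at h4
      have hinj : ∀ a ∈ V, ∀ b ∈ V, f a = f b → a = b := by
        intro a ha b hb hab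
        exact Multiset.inj_on_of_nodup_map (by rw [hVf]; exact hV) a ha b hb hab
      obtain ⟨w1, hw1⟩ : ∃ w1, w1 = FreeMagma.map (Equiv.swap x (f x)) w' := ⟨_, rfl⟩
      have hw1' : FreeMagma.map (fun y => Equiv.swap x (f x) (f y)) w = w1 := by
        rw [hw1, ← hf, SwapW_map_map]
      have hw1V : lets id w1 = V := by
        rw [hw1, SwapW_lets_map, hw', SwapW_swap hV hx hfxV]
      have hw1w' : FreeMagma.map (Equiv.swap x (f x)) w1 = w' := by
        rw [hw1, SwapW_map_map]
        have e3 : (fun y => Equiv.swap x (f x) (Equiv.swap x (f x) y)) = fun y : ℕ => y :=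
          funext fun y => Equiv.swap_apply_self _ _ _
        rw [e3, SwapW_map_id]
      have hsw : ∀ y, ρ (Equiv.swap x (f x) y) = ρ y := by
        intro y
        by_cases h1 : y = x
        · rw [h1, Equiv.swap_apply_left, hρ x hx]
        · by_cases h4 : y = f x
          · rw [h4, Equiv.swap_apply_right, hρ x hx]
          · rw [Equiv.swap_apply_of_ne_of_ne h1 h4]
      have hcard : (V.toFinset.filter fun y => Equiv.swap x (f x) (f y) ≠ y).card ≤ N := by
        have h4 : (V.toFinset.filter fun y => Equiv.swap x (f x) (f y) ≠ y) ⊆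
            (V.toFinset.filter fun y => f y ≠ y).erase x := by
          intro y hy
          rw [Finset.mem_filter, Multiset.mem_toFinset] at hy
          rw [Finset.mem_erase, Finset.mem_filter, Multiset.mem_toFinset]
          have hyx : y ≠ x := by
            rintro rfl
            exact hy.2 (Equiv.swap_apply_right _ _)
          refine ⟨hyx, hy.1, fun hfy => hy.2 ?_⟩
          rw [hfy]
          refine Equiv.swap_apply_of_ne_of_ne hyx fun h5 => hyx ?_
          exact hinj y hy.1 x hx (by rw [hfy, ← h5])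
        have h5 : x ∈ V.toFinset.filter fun y => f y ≠ y :=
          Finset.mem_filter.2 ⟨Multiset.mem_toFinset.2 hx, hfx⟩
        have h6 := Finset.card_le_card h4
        rw [Finset.card_erase_of_mem h5] at h6
        omega
      obtain ⟨g, hg, c1, hge⟩ := lift3 (F := F) h2 hc hw hw1V
      have h4 := ih _ w1 hcard hw1' hw1V (fun y hy => by rw [hsw, hρ y hy]) g hg c1 hge
      have h5 := YL_one h2 h3 hR π hV hx hfxV (hρ x hx).symm (w := w1)
        (h := h - g) (sub_mem hh hg) (c := c - c1) (by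
          rw [hw1w', map_sub, eh, hge, sub_smul]
          abel)
      rw [map_sub, map_sub, h4, sub_zero] at h5
      exact h5

theorem YL_words [Infinite F] (h2 : (2 : F) ≠ 0) (h3 : (3 : F) = 0) (hR : ∀ d, Sat F d R)
    (π : FA F →ₙₐ[F] R) {V : Multiset ℕ} (hV : V.Nodup) (hc : 4 ≤ V.card) {ρ : ℕ → ℕ}
    {w w' : FreeMagma ℕ} (hw : lets id w = V) (hw' : lets id w' = V)
    (e : FreeMagma.map ρ w = FreeMagma.map ρ w') {h : FA F} (hh : h ∈ P F V) {c : F}
    (eh : ev F h = evw F (mo F w) - evw F (mo F w') - c • ph F V) : π (ren F ρ h) = 0 := by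
  obtain ⟨f, hf, hf'⟩ := SwapW_fun w w' (by rw [hw]; exact hV) e
  rw [hw] at hf'
  exact YL_chain h2 h3 hR π hV hc hw _ f w' le_rfl hf hw' hf' h hh c eh

end chain

theorem swap3 [Infinite F] {R : Type*} [NonUnitalNonAssocRing R] [Module F R] [IsScalarTower F R R]
    [SMulCommClass F R R] (h2 : (2 : F) ≠ 0) (h3 : (3 : F) = 0) (hR : ∀ d, Sat F d R)
    (π : FA F →ₙₐ[F] R) {V : Multiset ℕ} (hV : V.Nodup) (hc : 4 ≤ V.card) {ρ : ℕ → ℕ} {d h : FA F}
    (hd : d ∈ P F V) (hd0 : ren F ρ d = 0) (hh : h ∈ P F V) (e : ev F h = evw F d) :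
    π (ren F ρ h) = 0 := by
  classical
  have hrep : ∀ u : FreeMagma ℕ, ∃ w : FreeMagma ℕ, (∃ w0 : FreeMagma ℕ, lets id w0 = V ∧
      FreeMagma.map ρ w0 = u) → lets id w = V ∧ FreeMagma.map ρ w = u := by
    intro u
    by_cases hu : ∃ w0 : FreeMagma ℕ, lets id w0 = V ∧ FreeMagma.map ρ w0 = u
    · obtain ⟨w0, hw0⟩ := hu
      exact ⟨w0, fun _ => hw0⟩
    · exact ⟨u, fun h => absurd h hu⟩
  choose r hr using hrep
  have key : ∃ g ∈ P F V, (∃ c : F, ev F g =
      evw F (d - linMo F (fun u => mo F (r u)) (ren F ρ d)) - c • ph F V) ∧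
      π (ren F ρ g) = 0 := by
    refine PP_induction id (p := fun d => ∃ g ∈ P F V, (∃ c : F, ev F g =
      evw F (d - linMo F (fun u => mo F (r u)) (ren F ρ d)) - c • ph F V) ∧ π (ren F ρ g) = 0)
      ?_ ?_ ?_ ?_ hd
    · refine ⟨0, zero_mem _, ⟨0, ?_⟩, ?_⟩
      · rw [map_zero, map_zero, map_zero, sub_zero, map_zero, zero_smul, sub_zero]
      · rw [map_zero, map_zero]
    · rintro a b ⟨g, hg, ⟨c, eg⟩, eg'⟩ ⟨g', hg', ⟨c', eg1⟩, eg2⟩
      refine ⟨g + g', add_mem hg hg', ⟨c + c', ?_⟩, ?_⟩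
      · have e5 : a + b - linMo F (fun u => mo F (r u)) (ren F ρ (a + b)) =
            (a - linMo F (fun u => mo F (r u)) (ren F ρ a)) +
            (b - linMo F (fun u => mo F (r u)) (ren F ρ b)) := by
          rw [map_add (ren F ρ), map_add (linMo F _)]
          abel
        rw [e5, map_add (ev F), eg, eg1, map_add (evw F), add_smul]
        abel
      · rw [map_add, map_add, eg', eg2, add_zero]
    · rintro k a ⟨g, hg, ⟨c, eg⟩, eg'⟩
      refine ⟨k • g, Submodule.smul_mem _ _ hg, ⟨k * c, ?_⟩, ?_⟩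
      · rw [map_smul (ev F), eg, map_smul (ren F ρ), map_smul (linMo F _), ← smul_sub,
          map_smul (evw F), smul_sub k, smul_smul]
      · rw [map_smul, map_smul, eg', smul_zero]
    · intro w hw
      obtain ⟨h4, h5⟩ := hr (FreeMagma.map ρ w) ⟨w, hw, rfl⟩
      obtain ⟨g, hg, c, hge⟩ := lift3 (F := F) h2 hc hw h4
      refine ⟨g, hg, ⟨c, ?_⟩, YL_words h2 h3 hR π hV hc hw h4 h5.symm hg hge⟩
      rw [ren_mo, linMo_mo, map_sub, hge]
  obtain ⟨g, hg, ⟨c, eg⟩, eg'⟩ := key
  rw [hd0, map_zero, sub_zero] at eg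
  have h6 := YL_zero h3 hR π hV ρ (sub_mem hh hg) (c := c) (by
    rw [map_sub, e, eg, sub_sub_cancel])
  rw [map_sub, map_sub, eg', sub_zero] at h6
  exact h6

end Pool.Agent.OBY
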