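import Pool.Agent.OB.YL
import Pool.Agent.OB.One
import Pool.Agent.OB.FinB

/-!
# In characteristic 3 the multilinear identities imply all identities  (module YM)

`small2`: copy `small` (Hom) without `h3` (if its proof uses `h3` somewhere, avoid it: only the alternative laws with `2 ≠ 0` are needed).
`one3`: copy `one_hom`, `one` (One) with `small2` and `swap3`. `mlt3`: copy `mlt_all` (FinB).
-/

set_option autoImplicit false
set_option linter.unusedSectionVars false

namespace Pool.Agent.OBY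

open FreeNonUnitalNonAssocAlgebra Pool.Agent.H.MP_41922c_al Pool.Agent.Smt Pool.Agent.OB Pool.Agent.OBX

variable {F : Type*} [Field F]

theorem small2 {R : Type*} [NonUnitalNonAssocRing R] [Module F R] [IsScalarTower F R R]
    [SMulCommClass F R R] [Infinite F] (h2 : (2 : F) ≠ 0)
    (hR : ∀ d, Sat F d R) {m : Multiset ℕ} (hm : m.card ≤ 3) {f : FA F} (hf : f ∈ P F m)
    (hid : Id F f) : IsIdentity F R f := by
  by_cases hn : m.Nodup
  · exact hR m.card m hn le_rfl f hf hid
  have hdup : ∃ a s, m = a ::ₘ a ::ₘ s := by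
    rw [Multiset.nodup_iff_count_le_one, not_forall] at hn
    obtain ⟨a, ha⟩ := hn
    rw [not_le] at ha
    have h4 : Multiset.replicate 2 a ≤ m := Multiset.le_count_iff_replicate_le.1 ha
    obtain ⟨s, hs⟩ := Multiset.le_iff_exists_add.1 h4
    exact ⟨a, s, by rw [hs, Multiset.replicate_succ, Multiset.replicate_succ,
      Multiset.replicate_zero, Multiset.cons_add, Multiset.cons_add, zero_add]⟩
  obtain ⟨a, s, rfl⟩ := hdup
  rw [Multiset.card_cons, Multiset.card_cons] at hm
  rcases (by omega : s.card = 0 ∨ s.card = 1) with hs | hs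
  · rw [Multiset.card_eq_zero] at hs
    subst hs
    obtain ⟨c, rfl⟩ := Hom_span2 (a := a) (f := f) hf
    have h4 := hid (lift F fun _ => (1 : Oc F))
    rw [map_smul, map_mul, lift_of_apply, mul_one] at h4
    have h5 : c = 0 := by
      have h6 := congrArg Oc.m₁ h4
      simpa using h6
    intro φ
    rw [h5, zero_smul, map_zero]
  · obtain ⟨b, rfl⟩ := Multiset.card_eq_one.1 hs
    have hf' : f ∈ P F ({a} + {a} + {b}) := by
      have e : a ::ₘ a ::ₘ ({b} : Multiset ℕ) = {a} + {a} + {b} := by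
        rw [add_assoc, Multiset.singleton_add, Multiset.singleton_add]
      rw [← e]
      exact hf
    obtain ⟨c₁, c₂, c₃, c₄, c₅, c₆, rfl⟩ := Hom_span hf'
    have hsat : Sat F 9 R := hR 9
    have hO : Sat F 9 (Oc F) := by
      intro m _ _ g _ hg
      exact hg
    have key : ∀ x y : Oc F, (a = b → x = y) → (c₁ + c₂) • ((x * x) * y) +
        (c₃ + c₄) • ((x * y) * x) + (c₅ + c₆) • ((y * x) * x) = 0 := by
      intro x y hxy
      have h4 := hid (lift F fun i => if i = a then x else y)
      have hxa : lift F (fun i => if i = a then x else y) (of F a) = x := by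
        rw [lift_of_apply, if_pos rfl]
      have hxb : lift F (fun i => if i = a then x else y) (of F b) = y := by
        rw [lift_of_apply]
        split_ifs with h
        · exact hxy h.symm
        · rfl
      simp only [map_add, map_smul, map_mul, hxa, hxb] at h4
      rw [Hom_val h2 hO] at h4
      exact h4
    have htot : c₁ + c₂ + (c₃ + c₄) + (c₅ + c₆) = 0 := by
      have h4 := key 1 1 (fun _ => rfl)
      rw [mul_one, mul_one, ← add_smul, ← add_smul] at h4
      have h6 := congrArg Oc.m₁ h4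
      simpa using h6
    intro φ
    simp only [map_add, map_smul, map_mul]
    rw [Hom_val h2 hsat]
    by_cases hab : a = b
    · subst hab
      rw [← add_smul, ← add_smul, htot, zero_smul]
    · have h4 := key ⟨1, 0, 0, 0, 0, 0, 0, 0⟩ ⟨0, 1, 0, 0, 0, 0, 0, 0⟩ (fun h => absurd h hab)
      have h5 := key ⟨1, 0, 0, 0, 0, 0, 0, 0⟩ ⟨0, 0, 1, 0, 0, 0, 0, 0⟩ (fun h => absurd h hab)
      have h6 : c₁ + c₂ = 0 := by
        have h7 := congrArg Oc.m₂ h4
        simpa using h7
      have h8 : c₅ + c₆ = 0 := by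
        have h7 := congrArg Oc.m₃ h5
        simpa using h7
      have h9 : c₃ + c₄ = 0 := by
        rw [h6, h8, zero_add, add_zero] at htot
        exact htot
      rw [h6, h8, h9, zero_smul, zero_smul, zero_smul, add_zero, add_zero]

theorem YM_hom {R : Type*} [NonUnitalNonAssocRing R] [Module F R] [IsScalarTower F R R]
    [SMulCommClass F R R] [Infinite F] (h2 : (2 : F) ≠ 0) (h3 : (3 : F) = 0)
    (hR : ∀ d, Sat F d R) {m : Multiset ℕ} {f : FA F} (hf : f ∈ P F m) (hid : Id F f) :
    IsIdentity F R f := by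
  obtain ⟨n, hn⟩ : ∃ n, n = m.card := ⟨_, rfl⟩
  induction n using Nat.strong_induction_on generalizing m f with
  | _ n ih =>
    by_cases h4 : m.card ≤ 3
    · exact small2 h2 hR h4 hf hid
    obtain ⟨V, ρ, hV, hVm, hm⟩ := One_ren m
    have hcard : V.card = m.card := by rw [← hVm, Multiset.card_map]
    have hV4 : 4 ≤ V.card := by omega
    have hV0 : V ≠ 0 := by
      rintro rfl
      simp at hV4
    rw [← hVm] at hf
    obtain ⟨f₁, hf₁, hff⟩ := lift_poly hf
    have hc : ev F f₁ (fun _ => 1) = 0 := by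
      have e1 : ev F f = 0 := (id_iff_ev f).1 hid
      rw [← hff, ev_ren] at e1
      exact congrFun e1 (fun _ => 1)
    have hidr : Id F (ren F ρ f₁) := by
      rw [hff]
      exact hid
    have key : ∀ κ : Multiset ℕ, κ ≤ V.map ρ → κ ≠ 0 → κ ≠ V.map ρ →
        IsIdentity F R (fk V ρ f₁ κ) := by
      intro κ hκ h0 h1
      refine ih (V.map ρ - κ).card ?_ (fk_mem hV hf₁ κ) (fk_Id hV hf₁ hidr h1) rfl
      rw [Multiset.card_sub hκ, Multiset.card_map, hn, ← hcard]
      have h5 : 0 < κ.card := Multiset.card_pos.2 h0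
      omega
    have hgid : Id F (ren F ρ (sharp V f₁)) := by
      intro φ
      rw [One_sum φ hV hV0 hm hf₁ (fun κ _ _ h1 => fk_Id hV hf₁ hidr h1 φ)]
      exact hidr φ
    have hg0 : evw F (ren F ρ (sharp V f₁)) = 0 := by
      rw [evw_eq, (id_iff_ev _).1 hgid, map_zero]
    have hh : sharp V f₁ ∈ P F V := sharp_mem hV hf₁
    obtain ⟨g₂, hg₂, e2, e3⟩ := lift_W h2 (ren_mem hh) hg0
    intro φ
    have e4 : φ (ren F ρ (sharp V f₁)) = 0 := by
      refine swap3 h2 h3 hR φ hV hV4 (d := sharp V f₁ - g₂) (Submodule.sub_mem _ hh hg₂) ?_ hh ?_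
      · rw [map_sub, e2, sub_self]
      · rw [map_sub, e3, sub_zero]
        exact sharp_evw h2 hV hf₁ hc
    rw [← hff, ← One_sum φ hV hV0 hm hf₁ (fun κ h0 h1 h5 => key κ h0 h1 h5 φ), e4]

theorem one3 {R : Type*} [NonUnitalNonAssocRing R] [Module F R] [IsScalarTower F R R]
    [SMulCommClass F R R] [Infinite F] (h2 : (2 : F) ≠ 0) (h3 : (3 : F) = 0)
    (hR : ∀ d, Sat F d R) {f : FA F} (hid : Id F f) : IsIdentity F R f := by
  intro φ
  obtain ⟨S, hS, -⟩ := exists_comp id f
  rw [hS, map_sum]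
  exact Finset.sum_eq_zero fun m _ =>
    YM_hom h2 h3 hR (comp_mem id m f) (Id_comp hid m) φ

theorem mlt3 [Infinite F] (h2 : (2 : F) ≠ 0) (h3 : (3 : F) = 0) (f : FA F) :
    Id F f ↔ f ∈ tIdeal F {g | ∃ m : Multiset ℕ, m.Nodup ∧ g ∈ P F m ∧ Id F g} := by
  set S : Set (FA F) := {g | ∃ m : Multiset ℕ, m.Nodup ∧ g ∈ P F m ∧ Id F g} with hS
  constructor
  · intro hid
    have hR : ∀ d, Sat F d (QA (isTIdeal_tIdeal S)) := by
      intro d m hm _ g hg hgid
      exact identity_QA _ (subset_tIdeal S ⟨m, hm, hg, hgid⟩)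
    have h := one3 h2 h3 hR hid (qhom (isTIdeal_tIdeal S))
    rwa [qhom_eq_zero] at h
  · intro hf
    have h1 : tIdeal F S ≤ identities F (Oc F) := by
      refine tIdeal_le (isTIdeal_identities (Oc F)) ?_
      rintro g ⟨m, -, -, hg⟩
      exact hg
    exact h1 hf

end Pool.Agent.OBY
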