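import Pool.Agent.OB.YD
import Pool.Agent.OB.XO

/-!
# Finiteness of the explicit basis in characteristic 3 up to a degree  (module YO)

As `Bas_finite` in XO: `LawV F (range n)` is contained in the additive group generated by the words of multidegree
`range n`, which is finite in characteristic `p`. Then `Psi3` of a finite set.
-/

set_option autoImplicit false
set_option linter.unusedSectionVars false

namespace Pool.Agent.OBY

open FreeNonUnitalNonAssocAlgebra Pool.Agent.H.MP_41922c_al Pool.Agent.Smt Pool.Agent.OB Pool.Agent.OBX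

variable {F : Type*} [Field F]

private theorem YO_fin0 {G : Type*} [AddCommGroup G] {p : ℕ} [Fact p.Prime] [Module (ZMod p) G]
    {S : Set G} (hS : S.Finite) : ((AddSubgroup.closure S : AddSubgroup G) : Set G).Finite := by
  have h1 : AddSubgroup.closure S ≤ (Submodule.span (ZMod p) S).toAddSubgroup := by
    rw [AddSubgroup.closure_le]
    exact Submodule.subset_span
  have h2 := Module.Finite.span_of_finite (ZMod p) hS
  have h3 := Module.finite_of_finite (ZMod p) (M := Submodule.span (ZMod p) S)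
  have h4 : ((Submodule.span (ZMod p) S : Submodule (ZMod p) G) : Set G).Finite := Set.toFinite _
  exact h4.subset h1

private theorem YO_fin {G : Type*} [AddCommGroup G] {p : ℕ} [Fact p.Prime]
    (hp : ∀ x : G, p • x = 0) {S : Set G} (hS : S.Finite) :
    ((AddSubgroup.closure S : AddSubgroup G) : Set G).Finite :=
  @YO_fin0 G _ p _ (AddCommGroup.zmodModule hp) S hS

/-- the integral combinations of the words of multidegree `m` -/
private noncomputable def YO_Z (F : Type*) [Field F] (m : Multiset ℕ) : AddSubgroup (FA F) :=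
  AddSubgroup.closure {f | ∃ w : FreeMagma ℕ, lets id w = m ∧ mo F w = f}

private theorem YO_mo (w : FreeMagma ℕ) : mo F w ∈ YO_Z F (lets id w) :=
  AddSubgroup.subset_closure ⟨w, rfl, rfl⟩

private theorem YO_mul {m m' : Multiset ℕ} {f g : FA F} (hf : f ∈ YO_Z F m)
    (hg : g ∈ YO_Z F m') : f * g ∈ YO_Z F (m + m') := by
  unfold YO_Z at hf hg
  induction hf using AddSubgroup.closure_induction with
  | mem x hx =>
    obtain ⟨u, hu, rfl⟩ := hx
    induction hg using AddSubgroup.closure_induction with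
    | mem y hy =>
      obtain ⟨v, hv, rfl⟩ := hy
      exact AddSubgroup.subset_closure ⟨u * v, by rw [← hu, ← hv]; rfl, rfl⟩
    | zero => rw [mul_zero]; exact AddSubgroup.zero_mem _
    | add y z _ _ hy hz => rw [mul_add]; exact AddSubgroup.add_mem _ hy hz
    | neg y _ hy => rw [mul_neg]; exact AddSubgroup.neg_mem _ hy
  | zero => rw [zero_mul]; exact AddSubgroup.zero_mem _
  | add y z _ _ hy hz => rw [add_mul]; exact AddSubgroup.add_mem _ hy hz
  | neg y _ hy => rw [neg_mul]; exact AddSubgroup.neg_mem _ hy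

private theorem YO_inv (w : FreeMagma ℕ) : invW (mo F w) ∈ YO_Z F (lets id w) := by
  induction w with
  | ih1 i =>
    show invW (of F i) ∈ YO_Z F {i}
    rw [invW_of]
    exact AddSubgroup.neg_mem _ (YO_mo (F := F) (FreeMagma.of i))
  | ih2 u v hu hv =>
    show invW (mo F u * mo F v) ∈ YO_Z F (lets id u + lets id v)
    rw [invW_mul, add_comm]
    exact YO_mul hv hu

private theorem YO_assoc {m₁ m₂ m₃ : Multiset ℕ} {f g h : FA F} (hf : f ∈ YO_Z F m₁)
    (hg : g ∈ YO_Z F m₂) (hh : h ∈ YO_Z F m₃) : associator f g h ∈ YO_Z F (m₁ + m₂ + m₃) := by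
  have h1 := YO_mul (YO_mul hf hg) hh
  have h2 := YO_mul hf (YO_mul hg hh)
  rw [← add_assoc] at h2
  exact AddSubgroup.sub_mem _ h1 h2

private theorem YO_com {m₁ m₂ : Multiset ℕ} {f g : FA F} (hf : f ∈ YO_Z F m₁)
    (hg : g ∈ YO_Z F m₂) : com f g ∈ YO_Z F (m₁ + m₂) := by
  have h1 := YO_mul hf hg
  have h2 := YO_mul hg hf
  rw [add_comm] at h2
  exact AddSubgroup.sub_mem _ h1 h2

private theorem YO_law {f : FA F} (hf : IsLaw F f) : ∃ m, f ∈ YO_Z F m := by
  induction hf with
  | altL u v w =>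
    refine ⟨lets id u + lets id v + lets id w, AddSubgroup.add_mem _
      (YO_assoc (YO_mo u) (YO_mo v) (YO_mo w)) ?_⟩
    have h1 := YO_assoc (F := F) (YO_mo v) (YO_mo u) (YO_mo w)
    rwa [add_comm (lets id v)] at h1
  | altR u v w =>
    refine ⟨lets id w + lets id u + lets id v, AddSubgroup.add_mem _
      (YO_assoc (YO_mo w) (YO_mo u) (YO_mo v)) ?_⟩
    have h1 := YO_assoc (F := F) (YO_mo w) (YO_mo v) (YO_mo u)
    rwa [add_right_comm] at h1
  | trC u v =>
    exact ⟨_, YO_com (AddSubgroup.add_mem _ (YO_mo u) (YO_inv u)) (YO_mo v)⟩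
  | trA u v w =>
    exact ⟨_, YO_assoc (AddSubgroup.add_mem _ (YO_mo u) (YO_inv u)) (YO_mo v) (YO_mo w)⟩
  | left u f _ ih =>
    obtain ⟨m, hm⟩ := ih
    exact ⟨_, YO_mul (YO_mo u) hm⟩
  | right u f _ ih =>
    obtain ⟨m, hm⟩ := ih
    exact ⟨_, YO_mul hm (YO_mo u)⟩

private theorem YO_Z_le (m : Multiset ℕ) : YO_Z F m ≤ (P F m).toAddSubgroup := by
  unfold YO_Z
  rw [AddSubgroup.closure_le]
  exact Submodule.subset_span

private theorem YO_LawV (V : Multiset ℕ) : LawV F V ⊆ (YO_Z F V : Set (FA F)) := by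
  rintro f ⟨h1, h2⟩
  obtain ⟨m, hm⟩ := YO_law h1
  by_cases h : m = V
  · rw [← h]
    exact hm
  · have h3 := comp_of_mem id h2
    have h4 := comp_of_ne id (m := V) (YO_Z_le m hm) h
    rw [← h3, h4]
    exact AddSubgroup.zero_mem _

theorem Bas3_finite {p : ℕ} [Fact p.Prime] [CharP F p] (d : ℕ) : (Bas3 F d).Finite := by
  have hp : ∀ x : FA F, p • x = 0 := by
    intro x
    rw [← Nat.cast_smul_eq_nsmul F, CharP.cast_eq_zero, zero_smul]
  have h1 : ∀ n : ℕ, (LawV F (Multiset.range n)).Finite := by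
    intro n
    have h2 : {f : FA F | ∃ w : FreeMagma ℕ, lets id w = Multiset.range n ∧ mo F w = f}.Finite :=
      (FinB_words (Multiset.range n).card (Multiset.range n) rfl).image (mo F)
    exact (YO_fin hp h2).subset (YO_LawV _)
  have h3 : (⋃ n ∈ Set.Iic d, Psi3 (F := F) (Multiset.range n) '' LawV F (Multiset.range n)).Finite :=
    (Set.finite_Iic d).biUnion fun n _ => (h1 n).image _
  unfold Bas3
  refine (Set.toFinite _).union (h3.subset ?_)
  rintro g ⟨n, _, hn, f, hf, rfl⟩
  rw [Set.mem_iUnion₂]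
  exact ⟨n, hn, f, hf, rfl⟩

end Pool.Agent.OBY
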