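import Pool.Agent.OB.YF
import Pool.Agent.OB.Y4r
import Pool.Agent.OB.XP

/-!
# `Psi3` gives identities  (module YP)

As `Psi_id` in XP: `ev (Psi3 V f) = (c' - c) • ph F V` by `Phi3_ev`, `sharp_evw`, ..; then `Y4_real`.
-/

set_option autoImplicit false
set_option linter.unusedSectionVars false

namespace Pool.Agent.OBY

open FreeNonUnitalNonAssocAlgebra Pool.Agent.H.MP_41922c_al Pool.Agent.Smt Pool.Agent.OB Pool.Agent.OBX

variable {F : Type*} [Field F]

theorem Psi3_add (V : Multiset ℕ) (f g : FA F) : Psi3 V (f + g) = Psi3 V f + Psi3 V g := by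
  unfold Psi3
  rw [sharp_add, map_add, map_add]
  abel

theorem Psi3_smul (V : Multiset ℕ) (c : F) (f : FA F) : Psi3 V (c • f) = c • Psi3 V f := by
  unfold Psi3
  rw [sharp_smul, map_smul, map_smul, smul_sub, smul_add]

theorem Psi3_id [Infinite F] (h2 : (2 : F) ≠ 0) {V : Multiset ℕ} (hV : V.Nodup)
    (hc : 4 ≤ V.card) {f : FA F} (hf : f ∈ P F V) (h : evw F f = 0) : Id F (Psi3 V f) := by
  rw [id_iff_ev]
  have hg : sharp V f ∈ P F V := sharp_mem hV hf
  have h4 : ev F f (fun _ => 1) = 0 := by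
    rw [ev_one h2 hf, h, map_zero, zero_smul]
  have h5 : ev F (sharp V f) = evw F (sharp V f) := sharp_evw h2 hV hf h4
  obtain ⟨i, hi⟩ : ∃ i, i ∈ V := by
    apply Multiset.exists_mem_of_ne_zero
    rintro rfl
    rw [Multiset.card_zero] at hc
    omega
  have h6 : ev F (sharp V f) (fun _ => 1) = 0 := by
    have h7 := congrFun (sharp_proper hV hf h4 hi) (fun _ => 1)
    rw [sb_apply] at h7
    have h8 : (fun j => up F i 1 j (fun _ => (1 : Oc F))) = fun _ => 1 := by
      funext j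
      exact XP_point i j
    rw [h8] at h7
    exact h7
  have h9 : sg F (evw F (sharp V f)) = 0 := by
    rw [ev_one h2 hg] at h6
    exact XP_smul h6
  obtain ⟨c, c0, e1⟩ := Phi3_ev h2 hc hf
  obtain ⟨c', c0', e2⟩ := Phi3_ev h2 hc hg
  have e3 : ev F (Psi3 V f) = (c' - c) • ph F V := by
    unfold Psi3
    rw [map_sub, map_add, e1, e2, h, h9, map_zero, h5, zero_smul, sub_smul]
    abel
  rw [e3]
  by_cases h3 : (3 : F) = 0
  · exact Y4_real h3 hV e3
  · rw [c0 h3, c0' h3, sub_zero, zero_smul]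

end Pool.Agent.OBY
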